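import Pool.Agent.Lib.MP_b4a71d_al.Level

section

/-!
# Reduction of distributivity to the levels
-/

set_option autoImplicit false
set_option linter.unusedSectionVars false

namespace Pool.Agent.Lib.MP_b4a71d_al

universe u

noncomputable section

open Polynomial

variable {F : Type u} [Field F]

/-! ### Contents -/

theorem cont_erase {Y : Finset ℕ} {j : ℕ} (hj : j ∈ Y) (h0 : 0 ∉ Y) (d : ℕ) :
    0 ::ₘ (cont Y d).erase j = cont (Y.erase j) (d + 1) := by
  have hj0 : j ≠ 0 := by
    rintro rfl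
    exact h0 hj
  rw [cont, cont, Multiset.erase_add_right_neg, Multiset.replicate_succ, Multiset.cons_add,
    Finset.erase_val]
  intro h
  exact hj0 (Multiset.eq_of_mem_replicate h)

theorem cont_insert {Y : Finset ℕ} {j : ℕ} (hj : j ∉ Y) (d : ℕ) :
    j ::ₘ (cont Y (d + 1)).erase 0 = cont (insert j Y) d := by
  rw [cont, cont, Multiset.replicate_succ, Multiset.cons_add, Multiset.erase_cons_head,
    Finset.insert_val_of_notMem hj, Multiset.add_cons]

theorem E_mem {Y : Finset ℕ} {j : ℕ} (hj : j ∈ Y) (h0 : 0 ∉ Y) {d : ℕ} {f : FL F}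
    (hf : f ∈ WW Y d) : E j f ∈ WW (F := F) (Y.erase j) (d + 1) := by
  have := dd_mem j 0 hf
  rw [cont_erase hj h0] at this
  exact this

theorem D_mem {Y : Finset ℕ} {j : ℕ} (hj : j ∉ Y) {d : ℕ} {f : FL F}
    (hf : f ∈ WW Y (d + 1)) : D j f ∈ WW (F := F) (insert j Y) d := by
  have := dd_mem 0 j hf
  rw [cont_insert hj] at this
  exact this

theorem Lam_le (Y : Finset ℕ) (d : ℕ) : Lam (F := F) Y d ≤ WW Y d := by
  refine iSup₂_le fun j hj => ?_
  rw [Submodule.map_le_iff_le_comap]
  intro f hf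
  have := D_mem (F := F) (Finset.notMem_erase j Y) hf
  rw [Finset.insert_erase hj] at this
  exact this

theorem cont_map {Y Z : Finset ℕ} (σ : Equiv.Perm ℕ) (h0 : σ 0 = 0) (hσ : Y.image σ = Z) (d : ℕ) :
    (cont Y d).map σ = cont Z d := by
  rw [cont, cont, Multiset.map_add, Multiset.map_replicate, h0, ← hσ, image_val]

theorem ren_WW {Y Z : Finset ℕ} (σ : Equiv.Perm ℕ) (h0 : σ 0 = 0) (hσ : Y.image σ = Z) {d : ℕ}
    {f : FL F} (hf : f ∈ WW Y d) : ren σ f ∈ WW (F := F) Z d := by
  have := ren_mem σ hf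
  rw [cont_map σ h0 hσ] at this
  exact this

theorem image_eq_of_fix {Y : Finset ℕ} (σ : Equiv.Perm ℕ) (h : ∀ i, i ∉ Y → σ i = i) :
    Y.image σ = Y := by
  apply Finset.eq_of_subset_of_card_le
  · intro x hx
    obtain ⟨y, hy, rfl⟩ := Finset.mem_image.1 hx
    by_contra hcon
    have := h _ hcon
    exact hcon (by rw [σ.injective this]; exact hy)
  · rw [Finset.card_image_of_injective _ σ.injective]

theorem ren_der_comm (σ : Equiv.Perm ℕ) (a b : ℕ) (f : FL F) :
    ren σ (dd a b f) = dd (σ a) (σ b) (ren σ f) := by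
  refine fl_induction (p := fun f => ren σ (dd a b f) = dd (σ a) (σ b) (ren σ f)) ?_ ?_ f
  · intro s f hf
    refine homC_induction (p := fun _ f => ren σ (dd a b f) = dd (σ a) (σ b) (ren σ f))
      ?_ ?_ ?_ ?_ ?_ hf
    · intro i
      by_cases h : i = a
      · subst h
        rw [dd_X_same, ren_X, ren_X, dd_X_same]
      · rw [dd_X_ne h, map_zero, ren_X, dd_X_ne (fun h2 => h (σ.injective h2))]
    · intro s t f g _ _ h1 h2
      rw [dd_lie, map_add, LieHom.map_lie, LieHom.map_lie, LieHom.map_lie, dd_lie, h1, h2]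
    · intro s
      rw [map_zero, map_zero, map_zero]
    · intro s f g _ _ h1 h2
      rw [map_add, map_add, map_add, map_add, h1, h2]
    · intro s c f _ h
      rw [map_smul, map_smul, map_smul, map_smul, h]
  · intro f g h1 h2
    rw [map_add, map_add, map_add, map_add, h1, h2]

theorem stab_Lam {Y : Finset ℕ} (h0 : 0 ∉ Y) (d : ℕ) : Stab Y (Lam (F := F) Y d) := by
  intro σ hσ f hf
  have hY := image_eq_of_fix σ hσ
  have hmap : (Lam (F := F) Y d).map (ren σ : FL F →ₗ⁅F⁆ FL F).toLinearMap ≤ Lam Y d := by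
    rw [Lam, Submodule.map_iSup]
    refine iSup_le fun j => ?_
    rw [Submodule.map_iSup]
    refine iSup_le fun hj => ?_
    have hσj : σ j ∈ Y := by
      rw [← hY]
      exact Finset.mem_image_of_mem _ hj
    refine le_trans ?_ (le_iSup₂_of_le (σ j) hσj le_rfl)
    rintro _ ⟨_, ⟨g, hg, rfl⟩, rfl⟩
    refine ⟨ren σ g, ?_, ?_⟩
    · apply ren_WW σ (hσ 0 h0) _ hg
      rw [Finset.image_erase σ.injective, hY]
    · change dd 0 (σ j) (ren σ g) = ren σ (dd 0 j g)
      rw [ren_der_comm, hσ 0 h0]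
  exact hmap ⟨f, hf, rfl⟩

theorem aeval_mem_of_stable {M : Type*} [AddCommGroup M] [Module F M] (A : Module.End F M)
    (I : Submodule F M) (hI : ∀ x ∈ I, A x ∈ I) (q : F[X]) : ∀ x ∈ I, aeval A q x ∈ I := by
  intro x hx
  induction q using Polynomial.induction_on' with
  | add p q hp hq =>
    rw [map_add, LinearMap.add_apply]
    exact I.add_mem hp hq
  | monomial r a =>
    rw [Polynomial.aeval_monomial, ← Algebra.smul_def, LinearMap.smul_apply]
    apply I.smul_mem
    induction r with
    | zero => exact hx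
    | succ r ih =>
      rw [pow_succ', Module.End.mul_apply]
      exact hI _ ih

theorem aeval_sub_mem {M : Type*} [AddCommGroup M] [Module F M] (A : Module.End F M)
    (I : Submodule F M) (hI : ∀ x ∈ I, A x ∈ I) (q : F[X]) (x : M) (hx : A x ∈ I) :
    aeval A q x - q.coeff 0 • x ∈ I := by
  have h1 : aeval A q x = aeval A q.divX (A x) + q.coeff 0 • x := by
    conv_lhs => rw [← Polynomial.divX_mul_X_add q]
    rw [map_add, map_mul, aeval_X, aeval_C, LinearMap.add_apply, Module.End.mul_apply,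
      Module.algebraMap_end_apply]
  rw [h1, add_sub_cancel_right]
  exact aeval_mem_of_stable A I hI _ _ hx

theorem aeval_Lam {Y : Finset ℕ} {d n : ℕ} (hn : Y.card + d = n) {q : F[X]}
    (hq : ∀ s : Multiset ℕ, Multiset.card s = n →
      (∀ i ∈ s, i = 0 ∨ i ∈ Y) → ∀ f ∈ HomC (F := F) s, ∀ j ∈ Y,
        E j (aeval (Om Y) q f) = 0 ∧ aeval (Om Y) q (D j f) = 0) {f : FL F} (hf : f ∈ Lam Y d) :
    aeval (Om Y) q f = 0 := by
  have : Lam (F := F) Y d ≤ LinearMap.ker (aeval (Om Y) q : Module.End F (FL F)) := by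
    refine iSup₂_le fun j hj => ?_
    rw [Submodule.map_le_iff_le_comap]
    intro g hg
    rw [Submodule.mem_comap, LinearMap.mem_ker]
    refine (hq (cont (Y.erase j) (d + 1)) ?_ ?_ g hg j hj).2
    · rw [cont, Multiset.card_add, Multiset.card_replicate, Finset.card_val,
        Finset.card_erase_of_mem hj]
      have : 0 < Y.card := Finset.card_pos.2 ⟨j, hj⟩
      omega
    · intro i hi
      rw [cont, Multiset.mem_add] at hi
      rcases hi with hi | hi
      · exact Or.inl (Multiset.eq_of_mem_replicate hi)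
      · exact Or.inr (Finset.mem_of_mem_erase hi)
  exact this hf

theorem P_eq_W (n : ℕ) : P (F := F) (n + 1) = W n 1 := by
  rw [P, W, WW]
  congr 1
  have h1 : Multiset.range (n + 1) = (Finset.range (n + 1)).val := rfl
  have h2 : Finset.range (n + 1) = insert 0 (Finset.Icc 1 n) := by
    ext i
    simp only [Finset.mem_range, Finset.mem_insert, Finset.mem_Icc]
    omega
  rw [h1, h2, Finset.insert_val_of_notMem (by simp), cont, Multiset.replicate_one,
    Multiset.singleton_add]

variable [CharZero F]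

theorem sup_inf_homC {B C : Submodule F (FL F)} (s : Multiset ℕ) (hB : ∀ f ∈ B, cmp s f ∈ B)
    (hC : ∀ f ∈ C, cmp s f ∈ C) :
    (B ⊔ C) ⊓ HomC (F := F) s ≤ (B ⊓ HomC (F := F) s) ⊔ (C ⊓ HomC (F := F) s) := by
  rintro f ⟨hf, hfs⟩
  obtain ⟨b, hb, c, hc, rfl⟩ := Submodule.mem_sup.1 hf
  rw [← cmp_of_mem hfs, map_add]
  exact Submodule.add_mem_sup ⟨hB b hb, cmp_mem _ _⟩ ⟨hC c hc, cmp_mem _ _⟩

theorem IsTIdeal.sup_inf_homC {B C : Submodule F (FL F)} (hB : IsTIdeal F B) (hC : IsTIdeal F C)
    (s : Multiset ℕ) :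
    (B ⊔ C) ⊓ HomC (F := F) s ≤ (B ⊓ HomC (F := F) s) ⊔ (C ⊓ HomC (F := F) s) :=
  MP_b4a71d_al.sup_inf_homC s (fun _ hf => hB.cmp_mem hf s) (fun _ hf => hC.cmp_mem hf s)

theorem IsTIdeal.Om_mem {I : Submodule F (FL F)} (hI : IsTIdeal F I) (Y : Finset ℕ) :
    ∀ x ∈ I, (Om Y : Module.End F (FL F)) x ∈ I := by
  intro x hx
  rw [Om, LinearMap.sum_apply]
  apply Submodule.sum_mem
  intro j _
  rw [Module.End.mul_apply]
  exact hI.dd_mem _ _ (hI.dd_mem _ _ hx)

/-- (i) Distributivity can be checked degree by degree. -/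
theorem distT_of_distAt {T : Submodule F (FL F)} (h : ∀ n, 1 ≤ n → DistAt T n) : DistT T := by
  intro A B C hA hB hC hTA hTB hTC
  apply (hA.inf (hB.sup hC)).le_of_P ((hA.inf hB).sup (hA.inf hC))
  intro n
  rcases Nat.eq_zero_or_pos n with hn | hn
  · subst hn
    have : P (F := F) 0 = ⊥ := homC_zero
    rw [this, inf_bot_eq]
    exact bot_le
  · exact h n hn A B C hA hB hC hTA hTB hTC

theorem distAt_of_distT {T : Submodule F (FL F)} (h : DistT T) (n : ℕ) : DistAt T n :=
  fun A B C hA hB hC hTA hTB hTC => le_trans inf_le_left (h A B C hA hB hC hTA hTB hTC)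

theorem distT_iff {T : Submodule F (FL F)} : DistT T ↔ ∀ n, 1 ≤ n → DistAt T n :=
  ⟨fun h n _ => distAt_of_distT h n, distT_of_distAt⟩

theorem stab_inf_homC {A : Submodule F (FL F)} (hA : IsTIdeal F A) (Y : Finset ℕ) {s : Multiset ℕ}
    (hs : ∀ σ : Equiv.Perm ℕ, (∀ i, i ∉ Y → σ i = i) → s.map σ = s) :
    Stab Y (A ⊓ HomC (F := F) s) := by
  intro σ hσ f hf
  refine ⟨hA.map_mem _ f hf.1, ?_⟩
  have := ren_mem σ hf.2
  rwa [hs σ hσ] at this

/-- (ii) Distributivity of the lattice of symmetric group modules suffices. -/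
theorem distAt_of_distP {T : Submodule F (FL F)} {n : ℕ} (h : DistP T n) : DistAt T n := by
  intro A B C hA hB hC hTA hTB hTC
  have hs : ∀ σ : Equiv.Perm ℕ, (∀ i, i ∉ Finset.range n → σ i = i) →
      (Multiset.range n).map σ = Multiset.range n := by
    intro σ hσ
    have := congrArg Finset.val (image_eq_of_fix σ hσ)
    rw [image_val] at this
    exact this
  have h1 := h (A ⊓ P n) (B ⊓ P n) (C ⊓ P n) inf_le_right inf_le_right inf_le_right
    (stab_inf_homC hA _ hs) (stab_inf_homC hB _ hs) (stab_inf_homC hC _ hs)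
    (inf_le_inf_right _ hTA) (inf_le_inf_right _ hTB) (inf_le_inf_right _ hTC)
  have h2 : A ⊓ (B ⊔ C) ⊓ P n ≤ A ⊓ P n ⊓ (B ⊓ P n ⊔ C ⊓ P n) := by
    rintro f ⟨⟨hfA, hfBC⟩, hfP⟩
    exact ⟨⟨hfA, hfP⟩, hB.sup_inf_homC hC _ ⟨hfBC, hfP⟩⟩
  refine le_trans h2 (le_trans h1 (sup_le_sup ?_ ?_))
  · exact inf_le_inf inf_le_left inf_le_left
  · exact inf_le_inf inf_le_left inf_le_left

/-- The subspace of level `(k, d)` of a T-ideal. -/
theorem levU_of_isTIdeal {T A : Submodule F (FL F)} (hA : IsTIdeal F A) (hTA : T ≤ A) (k d : ℕ) :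
    LevU T k d (Lam (Finset.Icc 1 k) d ⊔ (A ⊓ W k d)) where
  lam_le := le_sup_left
  T_le := le_trans (inf_le_inf_right _ hTA) le_sup_right
  le_W := sup_le (Lam_le _ _) inf_le_right
  stab := by
    intro σ hσ f hf
    obtain ⟨a, ha, b, hb, rfl⟩ := Submodule.mem_sup.1 hf
    rw [map_add]
    refine Submodule.add_mem_sup (stab_Lam (by simp) d σ hσ a ha) ?_
    exact ⟨hA.map_mem _ b hb.1, ren_WW σ (hσ 0 (by simp)) (image_eq_of_fix σ hσ) hb.2⟩

/-- (iii) Reduction to the levels. -/
theorem distAt_of_levelGood {T : Submodule F (FL F)} {n : ℕ}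
    (h : ∀ k d, k + d = n → 1 ≤ d → LevelGood T k d) : DistAt T n := by
  intro A B C hA hB hC hTA hTB hTC
  have hG := hA.inf (hB.sup hC)
  have hR := (hA.inf hB).sup (hA.inf hC)
  set G := A ⊓ (B ⊔ C) with hGdef
  set R := (A ⊓ B) ⊔ (A ⊓ C) with hRdef
  have key : ∀ k d, k + d = n → 1 ≤ d → G ⊓ W k d ≤ R := by
    intro k
    induction k with
    | zero =>
      intro d hkd hd f hf
      have hlev := h 0 d hkd hd _ _ _ (levU_of_isTIdeal hA hTA 0 d)
        (levU_of_isTIdeal hB hTB 0 d) (levU_of_isTIdeal hC hTC 0 d)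
      have hLam : Lam (F := F) (Finset.Icc 1 0) d = ⊥ := by
        rw [Lam, eq_bot_iff]
        refine iSup₂_le fun j hj => ?_
        simp at hj
      rw [hLam, bot_sup_eq, bot_sup_eq, bot_sup_eq] at hlev
      have h1 : f ∈ A ⊓ W 0 d ⊓ (B ⊓ W 0 d ⊔ C ⊓ W 0 d) :=
        ⟨⟨hf.1.1, hf.2⟩, hB.sup_inf_homC hC _ ⟨hf.1.2, hf.2⟩⟩
      have h2 : (A ⊓ W 0 d ⊓ (B ⊓ W 0 d)) ⊔ (A ⊓ W 0 d ⊓ (C ⊓ W 0 d)) ≤ R :=
        sup_le_sup (inf_le_inf inf_le_left inf_le_left) (inf_le_inf inf_le_left inf_le_left)
      exact h2 (hlev h1)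
    | succ k ih =>
      intro d hkd hd f hf
      set Y := Finset.Icc 1 (k + 1) with hY
      have h0 : 0 ∉ Y := by simp [hY]
      have hYc : Y.card = k + 1 := by simp [hY]
      obtain ⟨q, hq0, hq⟩ := exists_q (F := F) Y n
      have hE : ∀ j ∈ Y, E j f ∈ R := by
        intro j hj
        obtain ⟨σ, hσ0, hσ⟩ := exists_perm_image_zero (Y.erase j) (Finset.Icc 1 k)
          (by rw [Finset.card_erase_of_mem hj, hYc, Nat.card_Icc])
          (fun h => h0 (Finset.mem_of_mem_erase h)) (by simp)
        have h1 : ren σ (E j f) ∈ R := by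
          apply ih (d + 1) (by omega) (by omega)
          exact ⟨hG.map_mem _ _ (hG.dd_mem _ _ hf.1), ren_WW σ hσ0 hσ (E_mem hj h0 hf.2)⟩
        have h2 := hR.map_mem (ren σ.symm) _ h1
        rw [ren_ren] at h2
        have h3 : (σ.symm : ℕ → ℕ) ∘ (σ : ℕ → ℕ) = id := by
          funext i
          simp
        rwa [h3, ren_id'] at h2
      have hOm : (Om Y : Module.End F (FL F)) f ∈ R := by
        rw [Om, LinearMap.sum_apply]
        apply Submodule.sum_mem
        intro j hj
        rw [Module.End.mul_apply]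
        exact hR.dd_mem _ _ (hE j hj)
      have h1 := aeval_sub_mem (Om Y) R (hR.Om_mem Y) q f hOm
      have hlev := h (k + 1) d hkd hd _ _ _ (levU_of_isTIdeal hA hTA (k + 1) d)
        (levU_of_isTIdeal hB hTB (k + 1) d) (levU_of_isTIdeal hC hTC (k + 1) d)
      have h2 : f ∈ (Lam Y d ⊔ A ⊓ W (k + 1) d) ⊓
          ((Lam Y d ⊔ B ⊓ W (k + 1) d) ⊔ (Lam Y d ⊔ C ⊓ W (k + 1) d)) := by
        refine ⟨Submodule.mem_sup_right ⟨hf.1.1, hf.2⟩, ?_⟩
        have h3 : (B ⊓ W (k + 1) d) ⊔ (C ⊓ W (k + 1) d) ≤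
            (Lam Y d ⊔ B ⊓ W (k + 1) d) ⊔ (Lam Y d ⊔ C ⊓ W (k + 1) d) :=
          sup_le_sup le_sup_right le_sup_right
        exact h3 (hB.sup_inf_homC hC _ ⟨hf.1.2, hf.2⟩)
      obtain ⟨f1, hf1, f2, hf2, hf12⟩ := Submodule.mem_sup.1 (hlev h2)
      have hmem : ∀ {I : Submodule F (FL F)}, IsTIdeal F I → ∀ x ∈ Lam Y d ⊔ I ⊓ W (k + 1) d,
          aeval (Om Y) q x ∈ I := by
        intro I hI x hx
        obtain ⟨a, ha, b, hb, rfl⟩ := Submodule.mem_sup.1 hx
        rw [map_add, aeval_Lam (by rw [hYc, hkd]) hq ha, zero_add]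
        exact aeval_mem_of_stable _ I (hI.Om_mem Y) q b hb.1
      have h3 : aeval (Om Y) q f ∈ R := by
        rw [← hf12, map_add]
        exact Submodule.add_mem_sup ⟨hmem hA _ hf1.1, hmem hB _ hf1.2⟩
          ⟨hmem hA _ hf2.1, hmem hC _ hf2.2⟩
      have h4 : q.coeff 0 • f ∈ R := by
        have := R.sub_mem h3 h1
        rwa [sub_sub_cancel] at this
      exact (Submodule.smul_mem_iff _ hq0).1 h4
  rcases n with _ | n
  · have : P (F := F) 0 = ⊥ := homC_zero
    rw [this, inf_bot_eq]
    exact bot_le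
  · rw [P_eq_W]
    exact key n 1 rfl le_rfl

end

end Pool.Agent.Lib.MP_b4a71d_al
end

section

/-!
# From distributivity of the lattice of T-ideals to the levels
-/

set_option autoImplicit false
set_option linter.unusedSectionVars false

namespace Pool.Agent.Lib.MP_b4a71d_al

universe u

noncomputable section

open Polynomial

variable {F : Type u} [Field F]

/-! ### Substitutions -/

/-- The substitution `x_i -> w i`. -/
def sb {L : Type*} [LieRing L] [LieAlgebra F L] (w : ℕ → L) : FL F →ₗ⁅F⁆ L :=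
  FreeLieAlgebra.lift F w

@[simp] theorem sb_X {L : Type*} [LieRing L] [LieAlgebra F L] (w : ℕ → L) (i : ℕ) :
    sb w (X F i) = w i := by
  rw [sb, FreeLieAlgebra.lift_of_apply]

theorem sb_self {L : Type*} [LieRing L] [LieAlgebra F L] (φ : FL F →ₗ⁅F⁆ L) :
    sb (fun i => φ (X F i)) = φ := by
  apply FreeLieAlgebra.hom_ext
  intro i
  rw [sb_X]

theorem sb_congr {L : Type*} [LieRing L] [LieAlgebra F L] {s : Multiset ℕ} {f : FL F}
    (hf : f ∈ HomC s) (w w' : ℕ → L) (h : ∀ i ∈ s, w i = w' i) : sb w f = sb w' f :=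
  hom_congr hf _ _ (fun i hi => by rw [sb_X, sb_X, h i hi])

theorem sb_update_notMem {L : Type*} [LieRing L] [LieAlgebra F L] {s : Multiset ℕ} {f : FL F}
    (hf : f ∈ HomC s) (w : ℕ → L) {j : ℕ} (hj : j ∉ s) (v : L) :
    sb (Function.update w j v) f = sb w f := by
  apply sb_congr hf
  intro i hi
  rw [Function.update_of_ne]
  rintro rfl
  exact hj hi

theorem sb_add {L : Type*} [LieRing L] [LieAlgebra F L] {s : Multiset ℕ} {f : FL F}
    (hf : f ∈ HomC s) (w : ℕ → L) {j : ℕ} (hj : s.count j = 1) (v v' : L) :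
    sb (Function.update w j (v + v')) f =
      sb (Function.update w j v) f + sb (Function.update w j v') f := by
  revert hj
  refine homC_induction (p := fun s f => s.count j = 1 → sb (Function.update w j (v + v')) f =
      sb (Function.update w j v) f + sb (Function.update w j v') f) ?_ ?_ ?_ ?_ ?_ hf
  · intro i hi
    have : i = j := by
      by_contra h
      rw [Multiset.count_singleton, if_neg (fun h2 => h h2.symm)] at hi
      exact absurd hi (by norm_num)
    subst this
    simp
  · intro s t f g hf hg h1 h2 h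
    rw [Multiset.count_add] at h
    rcases Nat.eq_zero_or_pos (t.count j) with ht | ht
    · have hs : s.count j = 1 := by omega
      have hjt : j ∉ t := Multiset.count_eq_zero.1 ht
      rw [LieHom.map_lie, LieHom.map_lie, LieHom.map_lie, h1 hs, sb_update_notMem hg w hjt,
        sb_update_notMem hg w hjt, sb_update_notMem hg w hjt, add_lie]
    · have hs : s.count j = 0 := by omega
      have hjs : j ∉ s := Multiset.count_eq_zero.1 hs
      rw [LieHom.map_lie, LieHom.map_lie, LieHom.map_lie, h2 (by omega),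
        sb_update_notMem hf w hjs, sb_update_notMem hf w hjs, sb_update_notMem hf w hjs, lie_add]
  · intro s _
    simp
  · intro s f g _ _ h1 h2 h
    rw [map_add, map_add, map_add, h1 h, h2 h]
    abel
  · intro s c f _ h1 h
    rw [map_smul, map_smul, map_smul, h1 h, smul_add]

theorem sb_smul {L : Type*} [LieRing L] [LieAlgebra F L] {s : Multiset ℕ} {f : FL F}
    (hf : f ∈ HomC s) (w : ℕ → L) {j : ℕ} (hj : s.count j = 1) (a : F) (v : L) :
    sb (Function.update w j (a • v)) f = a • sb (Function.update w j v) f := by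
  revert hj
  refine homC_induction (p := fun s f => s.count j = 1 → sb (Function.update w j (a • v)) f =
      a • sb (Function.update w j v) f) ?_ ?_ ?_ ?_ ?_ hf
  · intro i hi
    have : i = j := by
      by_contra h
      rw [Multiset.count_singleton, if_neg (fun h2 => h h2.symm)] at hi
      exact absurd hi (by norm_num)
    subst this
    simp
  · intro s t f g hf hg h1 h2 h
    rw [Multiset.count_add] at h
    rcases Nat.eq_zero_or_pos (t.count j) with ht | ht
    · have hs : s.count j = 1 := by omega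
      have hjt : j ∉ t := Multiset.count_eq_zero.1 ht
      rw [LieHom.map_lie, LieHom.map_lie, h1 hs, sb_update_notMem hg w hjt,
        sb_update_notMem hg w hjt, smul_lie]
    · have hs : s.count j = 0 := by omega
      have hjs : j ∉ s := Multiset.count_eq_zero.1 hs
      rw [LieHom.map_lie, LieHom.map_lie, h2 (by omega),
        sb_update_notMem hf w hjs, sb_update_notMem hf w hjs, lie_smul]
  · intro s _
    simp
  · intro s f g _ _ h1 h2 h
    rw [map_add, map_add, h1 h, h2 h, smul_add]
  · intro s c f _ h1 h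
    rw [map_smul, map_smul, h1 h, smul_comm]

theorem sb_zero {L : Type*} [LieRing L] [LieAlgebra F L] {s : Multiset ℕ} {f : FL F}
    (hf : f ∈ HomC s) (w : ℕ → L) {j : ℕ} (hj : s.count j = 1) :
    sb (Function.update w j 0) f = 0 := by
  have := sb_smul hf w hj 0 0
  rwa [zero_smul, zero_smul] at this

theorem dd_eq_ren {a : ℕ} (b : ℕ) {s : Multiset ℕ} {f : FL F} (hf : f ∈ HomC s)
    (ha : s.count a = 1) : dd a b f = ren (mrg a b) f := by
  have hfix : ∀ {s : Multiset ℕ} {f : FL F}, f ∈ HomC s → a ∉ s → ren (mrg a b) f = f := by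
    intro s f hf h
    apply ren_eq_self hf
    intro i hi
    apply mrg_ne
    rintro rfl
    exact h hi
  revert ha
  refine homC_induction (p := fun s f => s.count a = 1 → dd a b f = ren (mrg a b) f)
    ?_ ?_ ?_ ?_ ?_ hf
  · intro i hi
    have : i = a := by
      by_contra h
      rw [Multiset.count_singleton, if_neg (fun h2 => h h2.symm)] at hi
      exact absurd hi (by norm_num)
    subst this
    rw [dd_X_same, ren_X, mrg_same]
  · intro s t f g hf hg h1 h2 h
    rw [Multiset.count_add] at h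
    rcases Nat.eq_zero_or_pos (t.count a) with ht | ht
    · have hs : s.count a = 1 := by omega
      have hjt : a ∉ t := Multiset.count_eq_zero.1 ht
      rw [dd_lie, LieHom.map_lie, h1 hs, dd_eq_zero b hg hjt, hfix hg hjt, lie_zero, zero_add]
    · have hs : s.count a = 0 := by omega
      have hjs : a ∉ s := Multiset.count_eq_zero.1 hs
      rw [dd_lie, LieHom.map_lie, h2 (by omega), dd_eq_zero b hf hjs, hfix hf hjs, zero_lie,
        add_zero]
  · intro s _
    rw [map_zero, map_zero]
  · intro s f g _ _ h1 h2 h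
    rw [map_add, map_add, h1 h, h2 h]
  · intro s c f _ h1 h
    rw [map_smul, map_smul, h1 h]

theorem sb_update_zero {L : Type*} [LieRing L] [LieAlgebra F L] {s : Multiset ℕ} {f : FL F}
    (hf : f ∈ HomC s) (w : ℕ → L) {j : ℕ} (hj : s.count j = 1) (hE : E j f = 0) :
    sb (Function.update w j (w 0)) f = 0 := by
  have h1 : sb w (E j f) = sb (Function.update w j (w 0)) f := by
    rw [E, dd_eq_ren 0 hf hj]
    change ((sb w).comp (ren (mrg j 0))) f = _
    apply hom_congr hf
    intro i _
    rw [LieHom.comp_apply, ren_X, sb_X, sb_X]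
    by_cases h : i = j
    · subst h
      rw [mrg_same, Function.update_self]
    · rw [mrg_ne h, Function.update_of_ne h]
  rw [← h1, hE, map_zero]

/-! ### Sums of content components -/

/-- The sum of the components whose content satisfies `p`. -/
def SupC (p : Multiset ℕ → Prop) : Submodule F (FL F) := ⨆ s, ⨆ (_ : p s), HomC s

theorem mem_supC {p : Multiset ℕ → Prop} {s : Multiset ℕ} (hp : p s) {f : FL F}
    (hf : f ∈ HomC s) : f ∈ SupC (F := F) p :=
  (le_iSup₂_of_le (f := fun (s : Multiset ℕ) (_ : p s) => HomC (F := F) s) s hp le_rfl) hf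

theorem supC_le {p : Multiset ℕ → Prop} {I : Submodule F (FL F)}
    (h : ∀ s, p s → HomC (F := F) s ≤ I) : SupC (F := F) p ≤ I :=
  iSup₂_le h

theorem supC_mono {p q : Multiset ℕ → Prop} (h : ∀ s, p s → q s) :
    SupC (F := F) p ≤ SupC q :=
  supC_le (fun s hs _ hf => mem_supC (h s hs) hf)

/-- The linear map `f -> [f, g]`. -/
def lieBy (g : FL F) : FL F →ₗ[F] FL F where
  toFun f := ⁅f, g⁆
  map_add' a b := add_lie a b g
  map_smul' c a := smul_lie c a g

theorem lieBy_apply (g f : FL F) : lieBy g f = ⁅f, g⁆ := rfl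

/-- The linear map `g -> [f, g]`. -/
def lieOf (f : FL F) : FL F →ₗ[F] FL F where
  toFun g := ⁅f, g⁆
  map_add' a b := lie_add f a b
  map_smul' c a := lie_smul c f a

theorem lieOf_apply (f g : FL F) : lieOf f g = ⁅f, g⁆ := rfl

theorem supC_lie {p q r : Multiset ℕ → Prop} (h : ∀ s t, p s → q t → r (s + t)) {f g : FL F}
    (hf : f ∈ SupC (F := F) p) (hg : g ∈ SupC (F := F) q) : ⁅f, g⁆ ∈ SupC (F := F) r := by
  have h1 : SupC (F := F) p ≤ (SupC (F := F) r).comap (lieBy g) := by
    apply supC_le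
    intro s hs f hf
    have h2 : SupC (F := F) q ≤ (SupC (F := F) r).comap (lieOf f) := by
      apply supC_le
      intro t ht g hg
      exact mem_supC (h s t hs ht) (lie_mem_homC hf hg)
    exact h2 hg
  exact h1 hf

theorem mem_supC_pos (f : FL F) : f ∈ SupC (F := F) (fun s => 1 ≤ Multiset.card s) := by
  refine fl_induction (p := fun f => f ∈ SupC (F := F) (fun s => 1 ≤ Multiset.card s)) ?_ ?_ f
  · intro s f hf
    rcases Nat.eq_zero_or_pos (Multiset.card s) with hs | hs
    · rw [Multiset.card_eq_zero] at hs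
      subst hs
      rw [homC_zero, Submodule.mem_bot] at hf
      rw [hf]
      exact Submodule.zero_mem _
    · exact mem_supC (p := fun s => 1 ≤ Multiset.card s) hs hf
  · intro a b ha hb
    exact Submodule.add_mem _ ha hb

/-- Leading components. -/
theorem lead_part (ω : Multiset ℕ → ℤ) (hω : ∀ s t, ω (s + t) = ω s + ω t)
    (φ ψ : FL F →ₗ⁅F⁆ FL F) {s : Multiset ℕ} {f : FL F} (hf : f ∈ HomC s)
    (h1 : ∀ i ∈ s, φ (X F i) ∈ SupC (F := F) (fun t => ω {i} ≤ ω t))
    (h2 : ∀ i ∈ s, φ (X F i) - ψ (X F i) ∈ SupC (F := F) (fun t => ω {i} < ω t)) :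
    φ f ∈ SupC (F := F) (fun t => ω s ≤ ω t) ∧
      φ f - ψ f ∈ SupC (F := F) (fun t => ω s < ω t) := by
  revert h1 h2
  refine homC_induction (p := fun s f =>
    (∀ i ∈ s, φ (X F i) ∈ SupC (F := F) (fun t => ω {i} ≤ ω t)) →
    (∀ i ∈ s, φ (X F i) - ψ (X F i) ∈ SupC (F := F) (fun t => ω {i} < ω t)) →
    φ f ∈ SupC (F := F) (fun t => ω s ≤ ω t) ∧
      φ f - ψ f ∈ SupC (F := F) (fun t => ω s < ω t)) ?_ ?_ ?_ ?_ ?_ hf
  · intro i h1 h2
    exact ⟨h1 i (Multiset.mem_singleton_self i), h2 i (Multiset.mem_singleton_self i)⟩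
  · intro s t f g _ _ hf hg h1 h2
    have hf' := hf (fun i hi => h1 i (Multiset.mem_add.2 (Or.inl hi)))
      (fun i hi => h2 i (Multiset.mem_add.2 (Or.inl hi)))
    have hg' := hg (fun i hi => h1 i (Multiset.mem_add.2 (Or.inr hi)))
      (fun i hi => h2 i (Multiset.mem_add.2 (Or.inr hi)))
    have hψ : ψ g ∈ SupC (F := F) (fun u => ω t ≤ ω u) := by
      have : ψ g = φ g - (φ g - ψ g) := by abel
      rw [this]
      exact Submodule.sub_mem _ hg'.1 (supC_mono (fun u hu => le_of_lt hu) hg'.2)
    constructor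
    · rw [LieHom.map_lie]
      apply supC_lie _ hf'.1 hg'.1
      intro a b ha hb
      rw [hω, hω]
      exact add_le_add ha hb
    · have : φ ⁅f, g⁆ - ψ ⁅f, g⁆ = ⁅φ f, φ g - ψ g⁆ + ⁅φ f - ψ f, ψ g⁆ := by
        rw [LieHom.map_lie, LieHom.map_lie, lie_sub, sub_lie]
        abel
      rw [this]
      apply Submodule.add_mem
      · apply supC_lie _ hf'.1 hg'.2
        intro a b ha hb
        rw [hω, hω]
        exact add_lt_add_of_le_of_lt ha hb
      · apply supC_lie _ hf'.2 hψ
        intro a b ha hb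
        rw [hω, hω]
        exact add_lt_add_of_lt_of_le ha hb
  · intro s _ _
    rw [map_zero, map_zero, sub_zero]
    exact ⟨Submodule.zero_mem _, Submodule.zero_mem _⟩
  · intro s f g _ _ hf hg h1 h2
    obtain ⟨a1, a2⟩ := hf h1 h2
    obtain ⟨b1, b2⟩ := hg h1 h2
    rw [map_add, map_add, add_sub_add_comm]
    exact ⟨Submodule.add_mem _ a1 b1, Submodule.add_mem _ a2 b2⟩
  · intro s c f _ hf h1 h2
    obtain ⟨a1, a2⟩ := hf h1 h2
    rw [map_smul, map_smul, ← smul_sub]
    exact ⟨Submodule.smul_mem _ c a1, Submodule.smul_mem _ c a2⟩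

theorem IsMonoC.eq_X {s : Multiset ℕ} {f : FL F} (h : IsMonoC s f) (hs : Multiset.card s = 1) :
    ∃ i, s = {i} ∧ f = X F i := by
  cases h with
  | var i => exact ⟨i, rfl, rfl⟩
  | brac ha hb =>
    have h1 := ha.card_pos
    have h2 := hb.card_pos
    rw [Multiset.card_add] at hs
    omega

/-- The linear span of the variables `x_1, x_2, ...`. -/
def Lin1 : Submodule F (FL F) := Submodule.span F (Set.range (fun l : ℕ => X F (l + 1)))

theorem lin_part (f : FL F) : ∃ a : F, ∃ v ∈ Lin1 (F := F),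
    f - a • X F 0 - v ∈ SupC (F := F) (fun s => 2 ≤ Multiset.card s) := by
  refine fl_induction (p := fun f => ∃ a : F, ∃ v ∈ Lin1 (F := F),
    f - a • X F 0 - v ∈ SupC (F := F) (fun s => 2 ≤ Multiset.card s)) ?_ ?_ f
  · intro s f hf
    rcases Nat.lt_or_ge 1 (Multiset.card s) with hs | hs
    · refine ⟨0, 0, Submodule.zero_mem _, ?_⟩
      rw [zero_smul, sub_zero, sub_zero]
      exact mem_supC (p := fun s => 2 ≤ Multiset.card s) hs hf
    · rcases Nat.eq_zero_or_pos (Multiset.card s) with hs0 | hs0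
      · rw [Multiset.card_eq_zero] at hs0
        subst hs0
        rw [homC_zero, Submodule.mem_bot] at hf
        refine ⟨0, 0, Submodule.zero_mem _, ?_⟩
        rw [hf, zero_smul, sub_zero, sub_zero]
        exact Submodule.zero_mem _
      · have hs1 : Multiset.card s = 1 := by omega
        induction hf using Submodule.span_induction with
        | mem f h =>
          obtain ⟨i, rfl, rfl⟩ := h.eq_X hs1
          rcases i with _ | i
          · refine ⟨1, 0, Submodule.zero_mem _, ?_⟩
            rw [one_smul, sub_self, sub_zero]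
            exact Submodule.zero_mem _
          · refine ⟨0, X F (i + 1), Submodule.subset_span ⟨i, rfl⟩, ?_⟩
            rw [zero_smul, sub_zero, sub_self]
            exact Submodule.zero_mem _
        | zero =>
          refine ⟨0, 0, Submodule.zero_mem _, ?_⟩
          rw [zero_smul, sub_zero, sub_zero]
          exact Submodule.zero_mem _
        | add f g _ _ h1 h2 =>
          obtain ⟨a, v, hv, h1⟩ := h1
          obtain ⟨b, w, hw, h2⟩ := h2
          refine ⟨a + b, v + w, Submodule.add_mem _ hv hw, ?_⟩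
          have : f + g - (a + b) • X F 0 - (v + w) =
              (f - a • X F 0 - v) + (g - b • X F 0 - w) := by
            rw [add_smul]
            abel
          rw [this]
          exact Submodule.add_mem _ h1 h2
        | smul c f _ h1 =>
          obtain ⟨a, v, hv, h1⟩ := h1
          refine ⟨c * a, c • v, Submodule.smul_mem _ c hv, ?_⟩
          rw [mul_smul, ← smul_sub, ← smul_sub]
          exact Submodule.smul_mem _ c h1
  · rintro f g ⟨a, v, hv, h1⟩ ⟨b, w, hw, h2⟩
    refine ⟨a + b, v + w, Submodule.add_mem _ hv hw, ?_⟩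
    have : f + g - (a + b) • X F 0 - (v + w) =
        (f - a • X F 0 - v) + (g - b • X F 0 - w) := by
      rw [add_smul]
      abel
    rw [this]
    exact Submodule.add_mem _ h1 h2

theorem count_cont {Y : Finset ℕ} {j : ℕ} (hj : j ∈ Y) (h0 : 0 ∉ Y) (d : ℕ) :
    (cont Y d).count j = 1 := by
  have hj0 : j ≠ 0 := by
    rintro rfl
    exact h0 hj
  rw [cont, Multiset.count_add, Multiset.count_replicate, if_neg (fun h => hj0 h.symm), zero_add]
  exact Multiset.count_eq_one_of_mem Y.nodup hj

theorem mem_cont {Y : Finset ℕ} {d i : ℕ} (hi : i ∈ cont Y d) : i = 0 ∨ i ∈ Y := by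
  rw [cont, Multiset.mem_add] at hi
  rcases hi with hi | hi
  · exact Or.inl (Multiset.eq_of_mem_replicate hi)
  · exact Or.inr hi

theorem exists_perm_of_map {Y : Finset ℕ} (τ : ℕ → ℕ) (h : Y.val.map τ = Y.val) :
    ∃ σ : Equiv.Perm ℕ, (∀ i, i ∉ Y → σ i = i) ∧ ∀ i ∈ Y, σ i = τ i := by
  classical
  have hmem : ∀ i ∈ Y, τ i ∈ Y := by
    intro i hi
    have : τ i ∈ Y.val.map τ := Multiset.mem_map_of_mem τ hi
    rw [h] at this
    exact this
  have hinj : ∀ i ∈ Y, ∀ j ∈ Y, τ i = τ j → i = j := by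
    have : (Y.val.map τ).Nodup := by
      rw [h]
      exact Y.nodup
    intro i hi j hj hij
    exact Multiset.inj_on_of_nodup_map this i hi j hj hij
  have hb : Function.Bijective (fun i => if i ∈ Y then τ i else i) := by
    constructor
    · intro a b hab
      beta_reduce at hab
      by_cases ha : a ∈ Y
      · by_cases hb : b ∈ Y
        · rw [if_pos ha, if_pos hb] at hab
          exact hinj a ha b hb hab
        · rw [if_pos ha, if_neg hb] at hab
          exact absurd (hab ▸ hmem a ha) hb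
      · by_cases hb : b ∈ Y
        · rw [if_neg ha, if_pos hb] at hab
          exact absurd (hab.symm ▸ hmem b hb) ha
        · rwa [if_neg ha, if_neg hb] at hab
    · intro y
      by_cases hy : y ∈ Y
      · have : y ∈ Y.val.map τ := by
          rw [h]
          exact hy
        obtain ⟨x, hx, rfl⟩ := Multiset.mem_map.1 this
        exact ⟨x, if_pos hx⟩
      · exact ⟨y, if_neg hy⟩
  refine ⟨Equiv.ofBijective _ hb, ?_, ?_⟩
  · intro i hi
    exact if_neg hi
  · intro i hi
    exact if_pos hi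

/-- The span of the orbit of `g` under the permutations of the variables in `Y`. -/
def Orb (Y : Finset ℕ) (g : FL F) : Submodule F (FL F) :=
  Submodule.span F {f | ∃ σ : Equiv.Perm ℕ, (∀ i, i ∉ Y → σ i = i) ∧ f = ren σ g}

variable [CharZero F]

theorem cmp_supC {p : Multiset ℕ → Prop} {t : Multiset ℕ} (ht : ¬ p t) {f : FL F}
    (hf : f ∈ SupC (F := F) p) : cmp t f = 0 := by
  have : SupC (F := F) p ≤ LinearMap.ker (cmp (F := F) t) := by
    apply supC_le
    intro s hs f hf
    rw [LinearMap.mem_ker]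
    apply cmp_of_mem_ne hf
    rintro rfl
    exact ht hs
  exact this hf

theorem orbit_step3 {Y : Finset ℕ} (h0 : 0 ∉ Y) {d : ℕ} {g : FL F} (hg : g ∈ WW Y d) (a : F)
    (Z : Finset ℕ) : Z ⊆ Y → ∀ w : ℕ → FL F, w 0 = a • X F 0 →
      (∀ j ∈ Z, w j ∈ Lin1 (F := F)) → (∀ j ∈ Y, j ∉ Z → ∃ l, w j = X F (l + 1)) →
      cmp (cont Y d) (sb w g) ∈ Orb Y g := by
  classical
  induction Z using Finset.induction_on with
  | empty =>
    intro _ w hw0 _ hw
    choose! τ hτ using fun j hj => hw j hj (Finset.notMem_empty j)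
    let τ' : ℕ → ℕ := fun i => if i = 0 then 0 else τ i + 1
    let c : ℕ → F := fun i => if i = 0 then a else 1
    have h1 : sb w g = ren τ' (scl c g) := by
      change sb w g = ((ren τ').comp (scl c)) g
      apply hom_congr hg
      intro i hi
      rw [sb_X, LieHom.comp_apply, scl, FreeLieAlgebra.lift_of_apply, map_smul, ren_X]
      rcases mem_cont hi with rfl | hi
      · rw [hw0]
        simp only [c, τ', if_true]
      · have hi0 : i ≠ 0 := by
          rintro rfl
          exact h0 hi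
        simp only [c, τ', if_neg hi0, one_smul]
        exact hτ i hi
    rw [h1, scl_apply c hg, map_smul, map_smul]
    apply Submodule.smul_mem
    by_cases hcon : (cont Y d).map τ' = cont Y d
    · have h2 := ren_mem τ' hg
      rw [hcon] at h2
      rw [cmp_of_mem h2]
      have h3 : Y.val.map τ' = Y.val := by
        rw [cont, Multiset.map_add, Multiset.map_replicate] at hcon
        have : τ' 0 = 0 := if_pos rfl
        rw [this] at hcon
        exact add_left_cancel hcon
      obtain ⟨σ, hσ1, hσ2⟩ := exists_perm_of_map τ' h3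
      apply Submodule.subset_span
      refine ⟨σ, hσ1, ?_⟩
      apply hom_congr hg
      intro i hi
      rw [ren_X, ren_X]
      rcases mem_cont hi with rfl | hi
      · rw [hσ1 0 h0]
        rfl
      · rw [hσ2 i hi]
    · rw [cmp_of_mem_ne (ren_mem τ' hg) hcon]
      exact Submodule.zero_mem _
  | insert j Z hj ih =>
    intro hZ w hw0 hwZ hw
    have hjY : j ∈ Y := hZ (Finset.mem_insert_self _ _)
    have hj0 : j ≠ 0 := by
      rintro rfl
      exact h0 hjY
    have hcount : (cont Y d).count j = 1 := count_cont hjY h0 d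
    have key : ∀ v ∈ Lin1 (F := F), cmp (cont Y d) (sb (Function.update w j v) g) ∈ Orb Y g := by
      intro v hv
      induction hv using Submodule.span_induction with
      | mem v h =>
        obtain ⟨l, rfl⟩ := h
        apply ih (fun i hi => hZ (Finset.mem_insert_of_mem hi))
        · rw [Function.update_of_ne (fun h => hj0 h.symm), hw0]
        · intro i hi
          rw [Function.update_of_ne]
          · exact hwZ i (Finset.mem_insert_of_mem hi)
          · rintro rfl
            exact hj hi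
        · intro i hi hiZ
          by_cases hij : i = j
          · subst hij
            exact ⟨l, by rw [Function.update_self]⟩
          · rw [Function.update_of_ne hij]
            apply hw i hi
            rw [Finset.mem_insert, not_or]
            exact ⟨hij, hiZ⟩
      | zero =>
        rw [sb_zero hg w hcount, map_zero]
        exact Submodule.zero_mem _
      | add v v' _ _ h1 h2 =>
        rw [sb_add hg w hcount, map_add]
        exact Submodule.add_mem _ h1 h2
      | smul c v _ h1 =>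
        rw [sb_smul hg w hcount, map_smul]
        exact Submodule.smul_mem _ c h1
    have := key (w j) (hwZ j (Finset.mem_insert_self _ _))
    rwa [Function.update_eq_self] at this

theorem orbit_step1 {Y : Finset ℕ} (h0 : 0 ∉ Y) {d : ℕ} {g : FL F} (hg : g ∈ WW Y d)
    (hE : ∀ j ∈ Y, E j g = 0) (w : ℕ → FL F) (c : ℕ → F) (Z : Finset ℕ) : Z ⊆ Y →
      sb (fun i => if i ∈ Z then w i - c i • w 0 else w i) g = sb w g := by
  classical
  induction Z using Finset.induction_on with
  | empty =>
    intro _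
    apply sb_congr hg
    intro i _
    simp
  | insert j Z hj ih =>
    intro hZ
    have hjY : j ∈ Y := hZ (Finset.mem_insert_self _ _)
    have hcount : (cont Y d).count j = 1 := count_cont hjY h0 d
    set w' : ℕ → FL F := fun i => if i ∈ Z then w i - c i • w 0 else w i with hw'
    have h1 : (fun i => if i ∈ insert j Z then w i - c i • w 0 else w i) =
        Function.update w' j (w j + (-c j) • w 0) := by
      funext i
      by_cases hij : i = j
      · subst hij
        rw [Function.update_self, if_pos (Finset.mem_insert_self _ _), neg_smul, sub_eq_add_neg]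
      · rw [Function.update_of_ne hij]
        by_cases hi : i ∈ Z
        · have h2 : w' i = w i - c i • w 0 := if_pos hi
          rw [if_pos (Finset.mem_insert_of_mem hi), h2]
        · have h2 : w' i = w i := if_neg hi
          rw [if_neg, h2]
          rw [Finset.mem_insert, not_or]
          exact ⟨hij, hi⟩
    have hw0 : w' 0 = w 0 := by
      rw [hw']
      exact if_neg (fun h => h0 (hZ (Finset.mem_insert_of_mem h)))
    have hwj : w' j = w j := by
      rw [hw']
      exact if_neg hj
    rw [h1, sb_add hg w' hcount, sb_smul hg w' hcount, ← hw0, sb_update_zero hg w' hcount (hE j hjY),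
      smul_zero, add_zero, ← hwj, Function.update_eq_self]
    exact ih (fun i hi => hZ (Finset.mem_insert_of_mem hi))

theorem orbit_generic {Y : Finset ℕ} (h0 : 0 ∉ Y) {d : ℕ} {g : FL F} (hg : g ∈ WW Y d)
    (hE : ∀ j ∈ Y, E j g = 0) (w : ℕ → FL F) (a : F) (ha : a ≠ 0) (v0 : FL F)
    (hv0 : v0 ∈ Lin1 (F := F))
    (h : w 0 - a • X F 0 - v0 ∈ SupC (F := F) (fun s => 2 ≤ Multiset.card s)) :
    cmp (cont Y d) (sb w g) ∈ Orb Y g := by
  classical
  choose b v hv hbv using fun j => lin_part (w j)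
  let c : ℕ → F := fun j => b j / a
  rw [← orbit_step1 h0 hg hE w c Y (Finset.Subset.refl _)]
  set w' : ℕ → FL F := fun i => if i ∈ Y then w i - c i • w 0 else w i with hw'
  let w'' : ℕ → FL F := fun i => if i = 0 then a • X F 0 else v i - c i • v0
  let ω : Multiset ℕ → ℤ := fun s => 3 * (Multiset.card s : ℤ) - (s.count 0 : ℤ)
  have hωlow : ∀ s : Multiset ℕ, 2 * (Multiset.card s : ℤ) ≤ ω s := by
    intro s
    have := Multiset.count_le_card 0 s
    simp only [ω]
    omega
  have hω : ∀ s t, ω (s + t) = ω s + ω t := by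
    intro s t
    simp only [ω, Multiset.card_add, Multiset.count_add]
    push_cast
    ring
  have hω0 : ω {0} = 2 := by
    simp [ω]
  have hωj : ∀ j : ℕ, j ≠ 0 → ω {j} = 3 := by
    intro j hj
    simp only [ω, Multiset.card_singleton, Multiset.count_singleton, if_neg (Ne.symm hj)]
    norm_num
  have hLin : ∀ x ∈ Lin1 (F := F), x ∈ SupC (F := F) (fun t => 3 ≤ ω t) := by
    intro x hx
    have : Lin1 (F := F) ≤ SupC (F := F) (fun t => 3 ≤ ω t) := by
      rw [Lin1, Submodule.span_le]
      rintro _ ⟨l, rfl⟩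
      apply mem_supC _ (X_mem (l + 1))
      rw [hωj _ (by omega)]
    exact this hx
  have hcard2 : ∀ x ∈ SupC (F := F) (fun s => 2 ≤ Multiset.card s),
      x ∈ SupC (F := F) (fun t => 4 ≤ ω t) := by
    intro x hx
    refine supC_mono (fun s hs => ?_) hx
    have := hωlow s
    omega
  have hdiff : ∀ i ∈ cont Y d, sb w' (X F i) - sb w'' (X F i) ∈
      SupC (F := F) (fun t => ω {i} < ω t) := by
    intro i hi
    rw [sb_X, sb_X]
    rcases mem_cont hi with rfl | hi
    · have h1 : w' 0 - w'' 0 = v0 + (w 0 - a • X F 0 - v0) := by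
        have : w' 0 = w 0 := if_neg h0
        rw [this]
        simp only [w'', if_true]
        abel
      rw [h1, hω0]
      apply Submodule.add_mem
      · exact supC_mono (fun s hs => by omega) (hLin v0 hv0)
      · exact supC_mono (fun s hs => by omega) (hcard2 _ h)
    · have hi0 : i ≠ 0 := by
        rintro rfl
        exact h0 hi
      have h1 : w' i - w'' i = (w i - b i • X F 0 - v i) - c i • (w 0 - a • X F 0 - v0) := by
        have h2 : w' i = w i - c i • w 0 := if_pos hi
        have h3 : w'' i = v i - c i • v0 := if_neg hi0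
        have h4 : c i • (a • X F 0) = b i • X F 0 := by
          rw [smul_smul]
          congr 1
          exact div_mul_cancel₀ _ ha
        rw [h2, h3, smul_sub, smul_sub, h4]
        abel
      rw [h1, hωj i hi0]
      apply Submodule.sub_mem
      · exact supC_mono (fun s hs => by omega) (hcard2 _ (hbv i))
      · apply Submodule.smul_mem
        exact supC_mono (fun s hs => by omega) (hcard2 _ h)
  have hlow : ∀ i ∈ cont Y d, sb w' (X F i) ∈ SupC (F := F) (fun t => ω {i} ≤ ω t) := by
    intro i hi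
    have h1 : sb w' (X F i) = sb w'' (X F i) + (sb w' (X F i) - sb w'' (X F i)) := by abel
    rw [h1]
    apply Submodule.add_mem
    · rw [sb_X]
      rcases mem_cont hi with rfl | hi
      · have h3 : w'' 0 = a • X F 0 := if_pos rfl
        rw [h3]
        apply Submodule.smul_mem
        exact mem_supC (p := fun t => ω {0} ≤ ω t) le_rfl (X_mem 0)
      · have hi0 : i ≠ 0 := by
          rintro rfl
          exact h0 hi
        have h3 : w'' i = v i - c i • v0 := if_neg hi0
        rw [h3, hωj i hi0]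
        exact hLin _ (Submodule.sub_mem _ (hv i) (Submodule.smul_mem _ _ hv0))
    · exact supC_mono (fun s hs => le_of_lt hs) (hdiff i hi)
  have hlead := (lead_part ω hω (sb w') (sb w'') hg hlow hdiff).2
  have hcmp := cmp_supC (t := cont Y d) (by simp) hlead
  rw [map_sub, sub_eq_zero] at hcmp
  rw [hcmp]
  refine orbit_step3 h0 hg a Y (Finset.Subset.refl _) w'' (if_pos rfl) ?_ ?_
  · intro j hj
    have hi0 : j ≠ 0 := by
      rintro rfl
      exact h0 hj
    have h3 : w'' j = v j - c j • v0 := if_neg hi0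
    rw [h3]
    exact Submodule.sub_mem _ (hv j) (Submodule.smul_mem _ _ hv0)
  · intro j hj hj2
    exact absurd hj hj2

/-- The component of content `cont Y d` of any substitution of a highest weight vector lies in the
span of its orbit. -/
theorem orbit_mem {Y : Finset ℕ} (h0 : 0 ∉ Y) {d : ℕ} {g : FL F} (hg : g ∈ WW Y d)
    (hE : ∀ j ∈ Y, E j g = 0) (φ : FL F →ₗ⁅F⁆ FL F) :
    cmp (cont Y d) (φ g) ∈ Orb Y g := by
  obtain ⟨a, v0, hv0, h⟩ := lin_part (φ (X F 0))
  let w : ℕ → FL F := fun i => φ (X F i)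
  let z : ℕ → FL F := fun i => if i = 0 then X F 0 else 0
  obtain ⟨p, N, hp0, hp⟩ := exists_hasExp w z g
  have h1 : ∀ c ∈ {c : F | c ≠ -a}, ∑ r ∈ Finset.range N, c ^ r • p r ∈
      (Orb Y g).comap (cmp (cont Y d)) := by
    intro c hc
    rw [Submodule.mem_comap, ← hp c]
    change cmp (cont Y d) (sb (fun i => w i + c • z i) g) ∈ Orb Y g
    refine orbit_generic h0 hg hE _ (a + c) ?_ v0 hv0 ?_
    · intro h2
      exact hc (eq_neg_of_add_eq_zero_right h2)
    · have : w 0 + c • z 0 - (a + c) • X F 0 - v0 = φ (X F 0) - a • X F 0 - v0 := by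
        simp only [w, z, if_true, add_smul]
        abel
      rw [this]
      exact h
  have hinf : {c : F | c ≠ -a}.Infinite := by
    have : {c : F | c ≠ -a} = (({-a} : Finset F) : Set F)ᶜ := by
      ext c
      simp
    rw [this]
    exact Set.Finite.infinite_compl (Finset.finite_toSet _)
  have h2 := coeff_mem_of_forall _ N p _ hinf h1
  have h3 : φ g ∈ (Orb Y g).comap (cmp (cont Y d)) := by
    have h4 : φ g = fam w z 0 g := by
      have : φ = fam w z 0 := by
        apply FreeLieAlgebra.hom_ext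
        intro i
        rw [fam_X, zero_smul, add_zero]
      rw [← this]
    rw [h4]
    have h5 := hp 0
    beta_reduce at h5
    rw [h5]
    apply Submodule.sum_mem
    intro r hr
    exact Submodule.smul_mem _ _ (h2 r (Finset.mem_range.1 hr))
  exact h3

/-- A component of a bracket of degree at most `n` involves only components of degree less than
`n` of the first factor. -/
theorem cmp_lie_mem {T : Submodule F (FL F)} (hT : IsTIdeal F T) {f g : FL F} {s : Multiset ℕ}
    (h : ∀ t, Multiset.card t < Multiset.card s → cmp t f ∈ T) : cmp s ⁅f, g⁆ ∈ T := by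
  classical
  obtain ⟨S, hS⟩ := exists_sum_cmp f
  obtain ⟨S', hS'⟩ := exists_sum_cmp g
  rw [hS, hS', _root_.sum_lie_sum, map_sum]
  apply Submodule.sum_mem
  intro t _
  rw [map_sum]
  apply Submodule.sum_mem
  intro t' _
  have hmem := lie_mem_homC (cmp_mem t f) (cmp_mem t' g)
  by_cases heq : t + t' = s
  · rw [heq] at hmem
    rw [cmp_of_mem hmem]
    rcases Nat.eq_zero_or_pos (Multiset.card t') with h0 | h0
    · rw [Multiset.card_eq_zero] at h0
      subst h0
      have h1 := cmp_mem 0 g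
      rw [homC_zero, Submodule.mem_bot] at h1
      rw [h1, lie_zero]
      exact Submodule.zero_mem _
    · apply hT.lie_mem
      apply h
      rw [← heq, Multiset.card_add]
      omega
  · rw [cmp_of_mem_ne hmem heq]
    exact Submodule.zero_mem _

theorem cmp_low {s t : Multiset ℕ} (h : Multiset.card t < Multiset.card s) {f : FL F}
    (hf : f ∈ HomC s) (φ : FL F →ₗ⁅F⁆ FL F) : cmp t (φ f) = 0 := by
  have h1 := (lead_part (fun s => (Multiset.card s : ℤ)) (fun s t => by
    rw [Multiset.card_add]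
    push_cast
    ring) φ φ hf (fun i _ => by
      refine supC_mono (fun u hu => ?_) (mem_supC_pos _)
      rw [Multiset.card_singleton]
      exact_mod_cast hu) (fun i _ => by
      rw [sub_self]
      exact Submodule.zero_mem _)).1
  apply cmp_supC _ h1
  rw [not_le]
  exact_mod_cast h

/-- The T-ideal attached to a subspace of the level. -/
def AU (T : Submodule F (FL F)) (c : Multiset ℕ) (U : Submodule F (FL F)) :
    Submodule F (FL F) :=
  ⨅ φ : FL F →ₗ⁅F⁆ FL F, ((U.comap (cmp c)).comap φ.toLinearMap) ⊓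
    ⨅ t : Multiset ℕ, ⨅ _ : Multiset.card t < Multiset.card c, (T.comap (cmp t)).comap φ.toLinearMap

theorem mem_AU {T : Submodule F (FL F)} {c : Multiset ℕ} {U : Submodule F (FL F)} {f : FL F} :
    f ∈ AU T c U ↔ ∀ φ : FL F →ₗ⁅F⁆ FL F, cmp c (φ f) ∈ U ∧
      ∀ t : Multiset ℕ, Multiset.card t < Multiset.card c → cmp t (φ f) ∈ T := by
  simp only [AU, Submodule.mem_iInf, Submodule.mem_inf, Submodule.mem_comap]
  rfl

theorem AU_isTIdeal {T : Submodule F (FL F)} (hT : IsTIdeal F T) {c : Multiset ℕ}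
    {U : Submodule F (FL F)} (hU : T ⊓ HomC (F := F) c ≤ U) : IsTIdeal F (AU T c U) where
  lie_mem f hf g := by
    rw [mem_AU] at hf ⊢
    intro φ
    rw [LieHom.map_lie]
    constructor
    · exact hU ⟨cmp_lie_mem hT (hf φ).2, cmp_mem _ _⟩
    · intro t ht
      exact cmp_lie_mem hT (fun t' ht' => (hf φ).2 t' (ht'.trans ht))
  map_mem ψ f hf := by
    rw [mem_AU] at hf ⊢
    intro φ
    exact hf (φ.comp ψ)

theorem le_AU {T : Submodule F (FL F)} (hT : IsTIdeal F T) {c : Multiset ℕ}
    {U : Submodule F (FL F)} (hU : T ⊓ HomC (F := F) c ≤ U) : T ≤ AU T c U := by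
  intro f hf
  rw [mem_AU]
  intro φ
  exact ⟨hU ⟨hT.cmp_mem (hT.map_mem φ f hf) _, cmp_mem _ _⟩,
    fun t _ => hT.cmp_mem (hT.map_mem φ f hf) _⟩

theorem cmp_mem_of_AU {T : Submodule F (FL F)} {c : Multiset ℕ} {U : Submodule F (FL F)}
    {f : FL F} (hf : f ∈ AU T c U) : cmp c f ∈ U := by
  rw [mem_AU] at hf
  exact (hf LieHom.id).1

theorem orb_le {Y : Finset ℕ} {U : Submodule F (FL F)} (hU : Stab Y U) {g : FL F} (hg : g ∈ U) :
    Orb Y g ≤ U := by
  rw [Orb, Submodule.span_le]
  rintro _ ⟨σ, hσ, rfl⟩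
  exact hU σ hσ g hg

/-- (iv) A distributive lattice of T-ideals has distributive levels. -/
theorem levelGood_of_distT {T : Submodule F (FL F)} (hT : IsTIdeal F T) (h : DistT T) (k d : ℕ) :
    LevelGood T k d := by
  intro U1 U2 U3 hU1 hU2 hU3
  set Y := Finset.Icc 1 k with hY
  have h0 : 0 ∉ Y := by simp [hY]
  have hYc : Y.card = k := by simp [hY]
  have hA : ∀ {U : Submodule F (FL F)}, LevU T k d U → IsTIdeal F (AU T (cont Y d) U) :=
    fun hU => AU_isTIdeal hT hU.T_le
  have hTA : ∀ {U : Submodule F (FL F)}, LevU T k d U → T ≤ AU T (cont Y d) U :=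
    fun hU => le_AU hT hU.T_le
  have hin : ∀ {U : Submodule F (FL F)}, LevU T k d U → ∀ g ∈ U, (∀ j ∈ Y, E j g = 0) →
      g ∈ AU T (cont Y d) U := by
    intro U hU g hg hE
    rw [mem_AU]
    intro φ
    refine ⟨orb_le hU.stab hg (orbit_mem h0 (hU.le_W hg) hE φ), ?_⟩
    intro t ht
    rw [cmp_low ht (hU.le_W hg) φ]
    exact Submodule.zero_mem _
  have hdist := h _ _ _ (hA hU1) (hA hU2) (hA hU3) (hTA hU1) (hTA hU2) (hTA hU3)
  obtain ⟨q, hq0, hq⟩ := exists_q (F := F) Y (k + d)
  have hcardW : Multiset.card (cont Y d) = k + d := by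
    rw [cont, Multiset.card_add, Multiset.card_replicate, Finset.card_val, hYc, add_comm]
  have hker : ∀ g ∈ WW (F := F) Y d, ∀ j ∈ Y, E j (aeval (Om Y) q g) = 0 :=
    fun g hg j hj => (hq (cont Y d) hcardW (fun i hi => mem_cont hi) g hg j hj).1
  have hOmLam : ∀ g ∈ WW (F := F) Y d, (Om Y : Module.End F (FL F)) g ∈ Lam Y d := by
    intro g hg
    rw [Om, LinearMap.sum_apply]
    apply Submodule.sum_mem
    intro j hj
    rw [Module.End.mul_apply]
    exact (le_iSup₂_of_le (f := fun j (_ : j ∈ Y) => (WW (F := F) (Y.erase j) (d + 1)).map (D j))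
      j hj le_rfl) ⟨_, E_mem hj h0 hg, rfl⟩
  have hq_mem : ∀ {U : Submodule F (FL F)}, LevU T k d U → ∀ g ∈ U, aeval (Om Y) q g ∈ U := by
    intro U hU g hg
    exact aeval_mem_of_stable _ U (fun x hx => hU.lam_le (hOmLam x (hU.le_W hx))) q g hg
  have hstep : ∀ {U : Submodule F (FL F)}, LevU T k d U → ∀ g ∈ U,
      aeval (Om Y) q g ∈ AU T (cont Y d) U :=
    fun hU g hg => hin hU _ (hq_mem hU g hg) (hker g (hU.le_W hg))
  rintro f ⟨hf1, hf23⟩
  obtain ⟨f2, hf2, f3, hf3, hf⟩ := Submodule.mem_sup.1 hf23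
  have h1 : aeval (Om Y) q f ∈ AU T (cont Y d) U1 ⊓ (AU T (cont Y d) U2 ⊔ AU T (cont Y d) U3) := by
    refine ⟨hstep hU1 f hf1, ?_⟩
    rw [← hf, map_add]
    exact Submodule.add_mem_sup (hstep hU2 f2 hf2) (hstep hU3 f3 hf3)
  obtain ⟨a, ha, b, hb, hab⟩ := Submodule.mem_sup.1 (hdist h1)
  have hR1 : Lam Y d ≤ (U1 ⊓ U2) ⊔ (U1 ⊓ U3) :=
    le_trans (le_inf hU1.lam_le hU2.lam_le) le_sup_left
  have h2 : aeval (Om Y) q f ∈ (U1 ⊓ U2) ⊔ (U1 ⊓ U3) := by
    have h3 : cmp (cont Y d) (aeval (Om Y) q f) = aeval (Om Y) q f :=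
      cmp_of_mem (hU1.le_W (hq_mem hU1 f hf1))
    rw [← h3, ← hab, map_add]
    exact Submodule.add_mem_sup ⟨cmp_mem_of_AU ha.1, cmp_mem_of_AU ha.2⟩
      ⟨cmp_mem_of_AU hb.1, cmp_mem_of_AU hb.2⟩
  have h3 := aeval_sub_mem (Om Y) (Lam Y d) (fun x hx => hOmLam x (Lam_le Y d hx)) q f
    (hOmLam f (hU1.le_W hf1))
  have h4 : q.coeff 0 • f ∈ (U1 ⊓ U2) ⊔ (U1 ⊓ U3) := by
    have := Submodule.sub_mem _ h2 (hR1 h3)
    rwa [sub_sub_cancel] at this
  exact (Submodule.smul_mem_iff _ hq0).1 h4

/-- The T-ideal generated by the elements of degree at most six. -/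
def T6 (T : Submodule F (FL F)) : Submodule F (FL F) :=
  genT ((T ⊓ DegLE F 6 : Submodule F (FL F)) : Set (FL F))

theorem T6_isTIdeal (T : Submodule F (FL F)) : IsTIdeal F (T6 T) := genT_isTIdeal _

theorem T6_le {T : Submodule F (FL F)} (hT : IsTIdeal F T) : T6 T ≤ T :=
  genT_le hT (fun _ hf => hf.1)

theorem homC_le_degLE {s : Multiset ℕ} {n : ℕ} (h : Multiset.card s ≤ n) :
    HomC (F := F) s ≤ DegLE F n := by
  rw [HomC, Submodule.span_le]
  intro f hf
  exact Submodule.subset_span ⟨_, h, hf.isMono⟩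

theorem inf_homC_le_T6 {T : Submodule F (FL F)} {s : Multiset ℕ} (h : Multiset.card s ≤ 6) :
    T ⊓ HomC (F := F) s ≤ T6 T :=
  fun _ hf => subset_genT _ ⟨hf.1, homC_le_degLE h hf.2⟩

theorem card_cont (k d : ℕ) : Multiset.card (cont (Finset.Icc 1 k) d) = k + d := by
  rw [cont, Multiset.card_add, Multiset.card_replicate, Finset.card_val, Nat.card_Icc, add_comm]
  rfl

/-- (v) In degrees at most six the levels of `T6 T` are those of `T`. -/
theorem levelGood_T6 {T : Submodule F (FL F)} (hT : IsTIdeal F T) {k d : ℕ} (hkd : k + d ≤ 6)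
    (h : LevelGood T k d) : LevelGood (T6 T) k d := by
  have hU : ∀ {U : Submodule F (FL F)}, LevU (T6 T) k d U → LevU T k d U := by
    intro U hU
    refine ⟨hU.lam_le, ?_, hU.le_W, hU.stab⟩
    refine le_trans ?_ hU.T_le
    exact le_inf (inf_homC_le_T6 (by rw [card_cont]; exact hkd)) inf_le_right
  exact fun U1 U2 U3 h1 h2 h3 => h U1 U2 U3 (hU h1) (hU h2) (hU h3)

/-- The first half of the main theorem from the core statement about levels. -/
theorem distT_T6_of_core
    (core : ∀ T : Submodule F (FL F), IsTIdeal F T → (∀ k d, k + d ≤ 6 → LevelGood T k d) →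
      ∀ k d, LevelGood T k d)
    {T : Submodule F (FL F)} (hT : IsTIdeal F T) (h : DistT T) : DistT (T6 T) := by
  apply distT_of_distAt
  intro n _
  apply distAt_of_levelGood
  intro k d _ _
  exact core (T6 T) (T6_isTIdeal T)
    (fun k d hkd => levelGood_T6 hT hkd (levelGood_of_distT hT h k d)) k d

end

end Pool.Agent.Lib.MP_b4a71d_al
end
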