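import Pool.Agent.Lib.MP_b4a71d_al.TIdeal

/-!
# Content components of the free Lie algebra

`HomC s` is the span of the Lie monomials of content `s` (a multiset of variables).  The free Lie
algebra is the direct sum of the `HomC s`, `cmp s` is the projection; every T-ideal is a direct sum
of its components.
-/

set_option autoImplicit false

namespace Pool.Agent.Lib.MP_b4a71d_al

universe u

noncomputable section

variable {F : Type u} [Field F]

/-- Lie monomials of content `s`. -/
inductive IsMonoC : Multiset ℕ → FL F → Prop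
  | var (i : ℕ) : IsMonoC {i} (X F i)
  | brac {s t : Multiset ℕ} {a b : FL F} : IsMonoC s a → IsMonoC t b → IsMonoC (s + t) ⁅a, b⁆

theorem IsMonoC.isMono {s : Multiset ℕ} {f : FL F} (h : IsMonoC s f) :
    IsMono F (Multiset.card s) f := by
  induction h with
  | var i => exact IsMono.var i
  | brac _ _ ih1 ih2 =>
    rw [Multiset.card_add]
    exact IsMono.brac ih1 ih2

theorem IsMono.exists_content {n : ℕ} {f : FL F} (h : IsMono F n f) :
    ∃ s : Multiset ℕ, Multiset.card s = n ∧ IsMonoC s f := by
  induction h with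
  | var i => exact ⟨{i}, by simp, IsMonoC.var i⟩
  | brac _ _ ih1 ih2 =>
    obtain ⟨s, hs, h1⟩ := ih1
    obtain ⟨t, ht, h2⟩ := ih2
    exact ⟨s + t, by rw [Multiset.card_add, hs, ht], IsMonoC.brac h1 h2⟩

theorem IsMonoC.card_pos {s : Multiset ℕ} {f : FL F} (h : IsMonoC s f) :
    0 < Multiset.card s := by
  induction h with
  | var i => simp
  | brac _ _ ih1 ih2 =>
    rw [Multiset.card_add]
    omega

/-- The span of the Lie monomials of content `s`. -/
def HomC (s : Multiset ℕ) : Submodule F (FL F) := Submodule.span F {f | IsMonoC s f}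

theorem IsMonoC.mem {s : Multiset ℕ} {f : FL F} (h : IsMonoC s f) : f ∈ HomC s :=
  Submodule.subset_span h

theorem X_mem (i : ℕ) : X F i ∈ HomC (F := F) {i} := (IsMonoC.var i).mem

theorem lie_mem_homC {s t : Multiset ℕ} {f g : FL F} (hf : f ∈ HomC s) (hg : g ∈ HomC t) :
    ⁅f, g⁆ ∈ HomC (F := F) (s + t) := by
  induction hf using Submodule.span_induction with
  | mem a ha =>
    induction hg using Submodule.span_induction with
    | mem b hb => exact (IsMonoC.brac ha hb).mem
    | zero => rw [lie_zero]; exact Submodule.zero_mem _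
    | add b c _ _ h1 h2 => rw [lie_add]; exact Submodule.add_mem _ h1 h2
    | smul c b _ h => rw [lie_smul]; exact Submodule.smul_mem _ _ h
  | zero => rw [zero_lie]; exact Submodule.zero_mem _
  | add a b _ _ h1 h2 => rw [add_lie]; exact Submodule.add_mem _ h1 h2
  | smul c a _ h => rw [smul_lie]; exact Submodule.smul_mem _ _ h

/-- Induction on the elements of `HomC s` (all `s` at once). -/
theorem homC_induction {p : Multiset ℕ → FL F → Prop}
    (hvar : ∀ i, p {i} (X F i))
    (hlie : ∀ s t a b, a ∈ HomC (F := F) s → b ∈ HomC (F := F) t → p s a → p t b →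
      p (s + t) ⁅a, b⁆)
    (hzero : ∀ s, p s 0)
    (hadd : ∀ s a b, a ∈ HomC (F := F) s → b ∈ HomC (F := F) s → p s a → p s b → p s (a + b))
    (hsmul : ∀ s (c : F) a, a ∈ HomC (F := F) s → p s a → p s (c • a))
    {s : Multiset ℕ} {f : FL F} (hf : f ∈ HomC s) : p s f := by
  have hm : ∀ {s : Multiset ℕ} {f : FL F}, IsMonoC s f → p s f := by
    intro s f h
    induction h with
    | var i => exact hvar i
    | brac h1 h2 ih1 ih2 => exact hlie _ _ _ _ h1.mem h2.mem ih1 ih2
  induction hf using Submodule.span_induction with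
  | mem a ha => exact hm ha
  | zero => exact hzero s
  | add a b ha hb h1 h2 => exact hadd s a b ha hb h1 h2
  | smul c a ha h => exact hsmul s c a ha h

/-- The Lie algebra is spanned by the monomials. -/
theorem iSup_homC : (⨆ s : Multiset ℕ, HomC (F := F) s) = ⊤ := by
  have hb : ∀ f g : FL F, f ∈ (⨆ s : Multiset ℕ, HomC (F := F) s) →
      g ∈ (⨆ s : Multiset ℕ, HomC (F := F) s) → ⁅f, g⁆ ∈ (⨆ s : Multiset ℕ, HomC (F := F) s) := by
    intro f g hf hg
    induction hf using Submodule.iSup_induction' with
    | mem s a ha =>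
      induction hg using Submodule.iSup_induction' with
      | mem t b hb =>
        exact Submodule.mem_iSup_of_mem (s + t) (lie_mem_homC ha hb)
      | zero => rw [lie_zero]; exact Submodule.zero_mem _
      | add b c _ _ h1 h2 => rw [lie_add]; exact Submodule.add_mem _ h1 h2
    | zero => rw [zero_lie]; exact Submodule.zero_mem _
    | add a b _ _ h1 h2 => rw [add_lie]; exact Submodule.add_mem _ h1 h2
  let K : LieSubalgebra F (FL F) :=
    { (⨆ s : Multiset ℕ, HomC (F := F) s : Submodule F (FL F)) with
      lie_mem' := fun {x y} hx hy => hb x y hx hy }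
  have hX : ∀ i, X F i ∈ K := fun i => Submodule.mem_iSup_of_mem {i} (X_mem i)
  let φ : FL F →ₗ⁅F⁆ K := FreeLieAlgebra.lift F (fun i => (⟨X F i, hX i⟩ : K))
  have h : K.incl.comp φ = LieHom.id := by
    apply FreeLieAlgebra.hom_ext
    intro x
    rw [LieHom.comp_apply, FreeLieAlgebra.lift_of_apply]
    rfl
  rw [eq_top_iff]
  intro f _
  have h2 : K.incl (φ f) = f := by
    have := congrArg (fun ψ : FL F →ₗ⁅F⁆ FL F => ψ f) h
    exact this
  rw [← h2]
  exact (φ f).2

/-- Every element is a finite sum of elements of content components. -/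
theorem fl_induction {p : FL F → Prop}
    (hhom : ∀ s f, f ∈ HomC (F := F) s → p f) (hadd : ∀ a b, p a → p b → p (a + b)) (f : FL F) :
    p f := by
  have hf : f ∈ (⨆ s : Multiset ℕ, HomC (F := F) s) := by rw [iSup_homC]; exact Submodule.mem_top
  induction hf using Submodule.iSup_induction' with
  | mem s a ha => exact hhom s a ha
  | zero => exact hhom 0 0 (Submodule.zero_mem _)
  | add a b _ _ h1 h2 => exact hadd a b h1 h2

/-- Two homomorphisms which agree on the variables of `s` agree on `HomC s`. -/
theorem hom_congr {L : Type*} [LieRing L] [LieAlgebra F L] {s : Multiset ℕ} {f : FL F}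
    (hf : f ∈ HomC s) (φ ψ : FL F →ₗ⁅F⁆ L) (h : ∀ i ∈ s, φ (X F i) = ψ (X F i)) : φ f = ψ f := by
  revert h
  refine homC_induction (p := fun s f => (∀ i ∈ s, φ (X F i) = ψ (X F i)) → φ f = ψ f)
    ?_ ?_ ?_ ?_ ?_ hf
  · intro i h
    exact h i (Multiset.mem_singleton_self i)
  · intro s t a b _ _ ha hb h
    rw [LieHom.map_lie, LieHom.map_lie, ha (fun i hi => h i (Multiset.mem_add.2 (Or.inl hi))),
      hb (fun i hi => h i (Multiset.mem_add.2 (Or.inr hi)))]
  · intro s _
    rw [map_zero, map_zero]
  · intro s a b _ _ ha hb h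
    rw [map_add, map_add, ha h, hb h]
  · intro s c a _ ha h
    rw [map_smul, map_smul, ha h]

/-- Scaling of the variables. -/
def scl (c : ℕ → F) : FL F →ₗ⁅F⁆ FL F := FreeLieAlgebra.lift F (fun i => c i • X F i)

theorem scl_apply (c : ℕ → F) {s : Multiset ℕ} {f : FL F} (hf : f ∈ HomC s) :
    scl c f = (s.map c).prod • f := by
  refine homC_induction (p := fun s f => scl c f = (s.map c).prod • f) ?_ ?_ ?_ ?_ ?_ hf
  · intro i
    rw [scl, FreeLieAlgebra.lift_of_apply, Multiset.map_singleton, Multiset.prod_singleton]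
  · intro s t a b _ _ ha hb
    rw [LieHom.map_lie, ha, hb, Multiset.map_add, Multiset.prod_add, smul_lie, lie_smul, smul_smul]
  · intro s
    rw [map_zero, smul_zero]
  · intro s a b _ _ ha hb
    rw [map_add, ha, hb, smul_add]
  · intro s c' a _ ha
    rw [map_smul, ha, smul_comm]

/-- Renaming of the variables. -/
def ren (g : ℕ → ℕ) : FL F →ₗ⁅F⁆ FL F := FreeLieAlgebra.lift F (fun i => X F (g i))

@[simp] theorem ren_X (g : ℕ → ℕ) (i : ℕ) : ren g (X F i) = X F (g i) := by
  rw [ren, FreeLieAlgebra.lift_of_apply]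

theorem ren_mem (g : ℕ → ℕ) {s : Multiset ℕ} {f : FL F} (hf : f ∈ HomC s) :
    ren g f ∈ HomC (F := F) (s.map g) := by
  refine homC_induction (p := fun s f => ren g f ∈ HomC (F := F) (s.map g)) ?_ ?_ ?_ ?_ ?_ hf
  · intro i
    rw [ren_X, Multiset.map_singleton]
    exact X_mem _
  · intro s t a b _ _ ha hb
    rw [LieHom.map_lie, Multiset.map_add]
    exact lie_mem_homC ha hb
  · intro s
    rw [map_zero]
    exact Submodule.zero_mem _
  · intro s a b _ _ ha hb
    rw [map_add]
    exact Submodule.add_mem _ ha hb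
  · intro s c a _ ha
    rw [map_smul]
    exact Submodule.smul_mem _ _ ha

theorem ren_ren (g h : ℕ → ℕ) (f : FL F) : ren g (ren h f) = ren (g ∘ h) f := by
  have : (ren g).comp (ren h) = ren (F := F) (g ∘ h) := by
    apply FreeLieAlgebra.hom_ext
    intro x
    rw [LieHom.comp_apply, ren_X, ren_X, ren_X]
    rfl
  rw [← this, LieHom.comp_apply]

theorem ren_id' (f : FL F) : ren id f = f := by
  have : ren (F := F) id = LieHom.id := by
    apply FreeLieAlgebra.hom_ext
    intro x
    rw [ren_X]
    rfl
  rw [this]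
  rfl

theorem ren_eq_self {s : Multiset ℕ} {f : FL F} (hf : f ∈ HomC s) (g : ℕ → ℕ)
    (h : ∀ i ∈ s, g i = i) : ren g f = f := by
  conv_rhs => rw [← ren_id' f]
  exact hom_congr hf _ _ (fun i hi => by rw [ren_X, ren_X, h i hi]; rfl)

/-- A sum of eigenvectors with distinct eigenvalues in a stable subspace. -/
theorem mem_of_sum_eigen {ι M : Type*} [DecidableEq ι] [AddCommGroup M] [Module F M]
    (φ : M →ₗ[F] M) (I : Submodule F M) (hI : ∀ x ∈ I, φ x ∈ I) (S : Finset ι) (f : ι → M)
    (μ : ι → F) (hμ : Set.InjOn μ (S : Set ι)) (hf : ∀ i ∈ S, φ (f i) = μ i • f i)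
    (hsum : ∑ i ∈ S, f i ∈ I) : ∀ i ∈ S, f i ∈ I := by
  induction S using Finset.induction_on generalizing f with
  | empty => intro i hi; simp at hi
  | insert a S ha ih =>
    rw [Finset.sum_insert ha] at hsum
    have h1 : ∑ i ∈ S, (μ i - μ a) • f i ∈ I := by
      have h2 := hI _ hsum
      have h3 := I.sub_mem h2 (I.smul_mem (μ a) hsum)
      convert h3 using 1
      rw [map_add, map_sum, hf a (Finset.mem_insert_self a S), smul_add, Finset.smul_sum]
      rw [add_sub_add_left_eq_sub, ← Finset.sum_sub_distrib]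
      apply Finset.sum_congr rfl
      intro i hi
      rw [hf i (Finset.mem_insert_of_mem hi), sub_smul]
    have h2 : ∀ i ∈ S, f i ∈ I := by
      intro i hi
      have := ih (fun i => (μ i - μ a) • f i) (hμ.mono (by simp))
        (fun i hi => by
          rw [map_smul, hf i (Finset.mem_insert_of_mem hi), smul_comm]) h1 i hi
      have hne : μ i - μ a ≠ 0 := by
        rw [sub_ne_zero]
        intro h
        have := hμ (by simp [hi]) (by simp) h
        exact ha (this ▸ hi)
      exact (I.smul_mem_iff hne).1 this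
    intro i hi
    rcases Finset.mem_insert.1 hi with rfl | hi
    · have := I.sub_mem hsum (I.sum_mem (fun i hi => h2 i hi))
      rwa [add_sub_cancel_right] at this
    · exact h2 i hi

/-- The prime weight of a variable. -/
def pw (i : ℕ) : ℕ := Nat.nth Nat.Prime i

theorem pw_prime (i : ℕ) : (pw i).Prime := Nat.prime_nth_prime i

theorem pw_injective : Function.Injective pw := Nat.nth_injective Nat.infinite_setOf_prime

/-- The weight of a content. -/
def wt (s : Multiset ℕ) : ℕ := (s.map pw).prod

theorem wt_injective : Function.Injective wt := by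
  intro s t h
  have h1 : ∀ s : Multiset ℕ, (UniqueFactorizationMonoid.normalizedFactors (wt s)) = s.map pw := by
    intro s
    have := UniqueFactorizationMonoid.normalizedFactors_prod_eq (s.map pw) (by
      intro a ha
      obtain ⟨i, _, rfl⟩ := Multiset.mem_map.1 ha
      exact (pw_prime i))
    rw [wt]
    have h3 : (s.map pw).map normalize = s.map pw := by
      rw [Multiset.map_map]
      apply Multiset.map_congr rfl
      intro x _
      simp
    rw [this, h3]
  exact Multiset.map_injective pw_injective (by rw [← h1 s, ← h1 t, h])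

variable [CharZero F]

/-- The endomorphism whose eigenspaces are the content components. -/
def psc : FL F →ₗ⁅F⁆ FL F := scl (fun i => (pw i : F))

theorem psc_apply {s : Multiset ℕ} {f : FL F} (hf : f ∈ HomC s) :
    psc f = (wt s : F) • f := by
  rw [psc, scl_apply _ hf, wt, Nat.cast_multiset_prod, Multiset.map_map]
  rfl

theorem homC_iSupIndep : iSupIndep (HomC (F := F)) := by
  have h := Module.End.eigenspaces_iSupIndep (R := F) (M := FL F) (psc : FL F →ₗ⁅F⁆ FL F).toLinearMap
  have h2 : iSupIndep (fun s : Multiset ℕ =>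
      Module.End.eigenspace (psc : FL F →ₗ⁅F⁆ FL F).toLinearMap (wt s : F)) := by
    refine h.comp ?_
    intro s t hst
    exact wt_injective (Nat.cast_injective hst)
  refine h2.mono ?_
  intro s f hf
  rw [Module.End.mem_eigenspace_iff]
  exact psc_apply hf

theorem homC_isInternal : DirectSum.IsInternal (HomC (F := F)) :=
  DirectSum.isInternal_submodule_of_iSupIndep_of_iSup_eq_top homC_iSupIndep iSup_homC

/-- The decomposition into content components. -/
instance homCDecomposition : DirectSum.Decomposition (HomC (F := F)) :=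
  homC_isInternal.chooseDecomposition

/-- Projection to the content component `s`. -/
def cmp (s : Multiset ℕ) : FL F →ₗ[F] FL F where
  toFun f := ((DirectSum.decompose (HomC (F := F)) f) s : FL F)
  map_add' f g := by
    rw [DirectSum.decompose_add]
    rfl
  map_smul' c f := by
    rw [DirectSum.decompose_smul]
    rfl

theorem cmp_mem (s : Multiset ℕ) (f : FL F) : cmp s f ∈ HomC (F := F) s :=
  ((DirectSum.decompose (HomC (F := F)) f) s).2

theorem cmp_of_mem {s : Multiset ℕ} {f : FL F} (hf : f ∈ HomC s) : cmp s f = f :=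
  DirectSum.decompose_of_mem_same _ hf

theorem cmp_of_mem_ne {s t : Multiset ℕ} {f : FL F} (hf : f ∈ HomC s) (h : s ≠ t) :
    cmp t f = 0 :=
  DirectSum.decompose_of_mem_ne _ hf h

theorem exists_sum_cmp (f : FL F) : ∃ S : Finset (Multiset ℕ), f = ∑ s ∈ S, cmp s f := by
  classical
  refine ⟨(DirectSum.decompose (HomC (F := F)) f).support, ?_⟩
  conv_lhs => rw [← DirectSum.sum_support_decompose (HomC (F := F)) f]
  rfl

theorem cmp_mem_of_stable {I : Submodule F (FL F)} (hI : ∀ x ∈ I, psc x ∈ I) {f : FL F}
    (hf : f ∈ I) (s : Multiset ℕ) : cmp s f ∈ I := by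
  classical
  obtain ⟨S, hS⟩ := exists_sum_cmp f
  by_cases hs : s ∈ S
  · have := mem_of_sum_eigen (psc : FL F →ₗ⁅F⁆ FL F).toLinearMap I hI S (fun s => cmp s f)
      (fun s => (wt s : F)) (fun a _ b _ h => wt_injective (Nat.cast_injective h))
      (fun t _ => psc_apply (cmp_mem t f)) (by rw [← hS]; exact hf) s hs
    exact this
  · have : cmp s f = 0 := by
      rw [hS, map_sum]
      apply Finset.sum_eq_zero
      intro t ht
      exact cmp_of_mem_ne (cmp_mem t f) (fun h => hs (h ▸ ht))
    rw [this]
    exact I.zero_mem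

theorem IsTIdeal.cmp_mem {I : Submodule F (FL F)} (hI : IsTIdeal F I) {f : FL F} (hf : f ∈ I)
    (s : Multiset ℕ) : cmp s f ∈ I :=
  cmp_mem_of_stable (fun x hx => hI.map_mem _ x hx) hf s

/-- A T-ideal is contained in a subspace as soon as its components are. -/
theorem IsTIdeal.le_of_cmp {I : Submodule F (FL F)} (hI : IsTIdeal F I)
    {J : Submodule F (FL F)} (h : ∀ s, I ⊓ HomC (F := F) s ≤ J) : I ≤ J := by
  intro f hf
  obtain ⟨S, hS⟩ := exists_sum_cmp f
  rw [hS]
  exact J.sum_mem (fun s _ => h s ⟨hI.cmp_mem hf s, Pool.Agent.Lib.MP_b4a71d_al.cmp_mem s f⟩)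

end

end Pool.Agent.Lib.MP_b4a71d_al
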