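import Mathlib

/-!
# MP_b4a71d_al: varieties of Lie algebras, definitions

`F` is a field (characteristic zero in all theorems), `FL F` the free Lie algebra on the
variables `0, 1, 2, ...`.
-/

set_option autoImplicit false

namespace Pool.Agent.Lib.MP_b4a71d_al

universe u

noncomputable section

variable (F : Type u) [Field F]

/-- The free Lie algebra over `F` on the countable set of variables `0, 1, 2, ...`. -/
abbrev FL := FreeLieAlgebra F ℕ

/-- The variable number `i` of the free Lie algebra. -/
abbrev X (i : ℕ) : FL F := FreeLieAlgebra.of F i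

/-- A Lie algebra over `F` (of arbitrary dimension). -/
structure LieAlg where
  /-- the underlying set -/
  carrier : Type u
  [ring : LieRing carrier]
  [alg : LieAlgebra F carrier]

attribute [instance] LieAlg.ring LieAlg.alg

/-- `f` is an identity of the Lie algebra `A`: it vanishes under every substitution of elements
of `A` for the variables. -/
def Sat (A : LieAlg F) (f : FL F) : Prop :=
  ∀ φ : FL F →ₗ⁅F⁆ A.carrier, φ f = 0

/-- The class of all Lie algebras satisfying every identity in `S`. -/
def models (S : Set (FL F)) : Set (LieAlg F) := {A | ∀ f ∈ S, Sat F A f}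

/-- A variety of Lie algebras. -/
def IsVariety (V : Set (LieAlg F)) : Prop := ∃ S : Set (FL F), V = models F S

/-- The join of two varieties: the smallest variety containing both. -/
def vjoin (V W : Set (LieAlg F)) : Set (LieAlg F) :=
  ⋂₀ {U | IsVariety F U ∧ V ⊆ U ∧ W ⊆ U}

/-- The lattice of subvarieties of `V` is distributive. -/
def IsDistributive (V : Set (LieAlg F)) : Prop :=
  ∀ A B C : Set (LieAlg F), IsVariety F A → IsVariety F B → IsVariety F C →
    A ⊆ V → B ⊆ V → C ⊆ V → A ∩ vjoin F B C = vjoin F (A ∩ B) (A ∩ C)

/-- Lie monomials of degree `n`. -/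
inductive IsMono : ℕ → FL F → Prop
  | var (i : ℕ) : IsMono 1 (X F i)
  | brac {m n : ℕ} {a b : FL F} : IsMono m a → IsMono n b → IsMono (m + n) ⁅a, b⁆

/-- The Lie polynomials of degree at most `d`. -/
def DegLE (d : ℕ) : Submodule F (FL F) :=
  Submodule.span F {f | ∃ n ≤ d, IsMono F n f}

/-- The identities of a class of Lie algebras. -/
def identities (V : Set (LieAlg F)) : Set (FL F) := {f | ∀ A ∈ V, Sat F A f}

/-- The variety defined by the identities of degree at most `d` of `V`. -/
def degPart (d : ℕ) (V : Set (LieAlg F)) : Set (LieAlg F) :=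
  models F {f | f ∈ identities F V ∧ f ∈ DegLE F d}

end

end Pool.Agent.Lib.MP_b4a71d_al
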