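import Mathlib.Data.Nat.Notation
import Mathlib.Data.Int.Notation
import Mathlib

section

/-!
# MP_b4a71d_al, finite check engine: the computations

Lie trees, their expansion into left normed words `[x_1, w]`, the normal form of words under a
product of symmetric groups with signs, tables of values and the reduction of integer vectors.
Everything in this file is computed by the kernel.
-/

set_option autoImplicit false

namespace Pool.Agent.Lib.MP_b4a71d_al.Eng

/-- Lie trees: leaves are variables. -/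
inductive Tr : Type
  | l : ℕ → Tr
  | b : Tr → Tr → Tr

/-- Noncommutative polynomials: lists of terms. -/
abbrev Po := List (ℤ × List ℕ)

/-- Combinations of trees. -/
abbrev Cb := List (ℤ × Tr)

def eqW : List ℕ → List ℕ → Bool
  | [], [] => true
  | a :: u, b :: v => bif Nat.beq a b then eqW u v else false
  | _, _ => false

/-- add one term to a polynomial -/
def addW (c : ℤ) (w : List ℕ) : Po → Po
  | [] => [(c, w)]
  | a :: p => bif eqW a.2 w then (a.1 + c, a.2) :: p else a :: addW c w p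

/-- `c u * q` added to `acc` -/
def mulW (c : ℤ) (u : List ℕ) : Po → Po → Po
  | [], acc => acc
  | b :: q, acc => addW (c * b.1) (u ++ b.2) (mulW c u q acc)

/-- `c p * q` added to `acc`, with merging of equal words -/
def mulP (c : ℤ) : Po → Po → Po → Po
  | [], _, acc => acc
  | a :: p, q, acc => mulW (c * a.1) a.2 q (mulP c p q acc)

/-- the product without merging -/
def mulN (c : ℤ) : Po → Po → Po → Po
  | [], _, acc => acc
  | a :: p, q, acc => q.foldr (fun b r => (c * a.1 * b.1, a.2 ++ b.2) :: r) (mulN c p q acc)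

namespace Tr

/-- the associative polynomial of a tree -/
def asp : Tr → Po
  | l i => [(1, [i])]
  | b s t => mulP 1 s.asp t.asp (mulP (-1) t.asp s.asp [])

/-- number of leaves `x_1` -/
def cnt : Tr → ℕ
  | l i => bif Nat.beq i 1 then 1 else 0
  | b s t => s.cnt + t.cnt

/-- the expansion of a tree with exactly one leaf `x_1` -/
def exz : Tr → Po
  | l _ => [(1, [])]
  | b s t => bif Nat.beq s.cnt 1 then mulN 1 s.exz t.asp [] else mulN (-1) t.exz s.asp []

/-- renaming of the leaves -/
def mp (g : ℕ → ℕ) : Tr → Tr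
  | l i => l (g i)
  | b s t => b (s.mp g) (t.mp g)

/-- substitution of trees for the leaves -/
def sub (g : ℕ → Tr) : Tr → Tr
  | l i => g i
  | b s t => b (s.sub g) (t.sub g)

/-- the derivation `x_0 -> x_j` -/
def der (j : ℕ) : Tr → List Tr
  | l i => bif Nat.beq i 0 then [l j] else []
  | b s t => (s.der j).map (fun s' => b s' t) ++ (t.der j).map (fun t' => b s t')

end Tr

/-- the exchange of `a` and `m` -/
def swp (a m i : ℕ) : ℕ := bif Nat.beq i a then m else bif Nat.beq i m then a else i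

/-- Groups of letters: `(st, e, alt)` is the group `st, ..., e - 1` (never containing `1`);
`alt = true` for alternating groups. -/
abbrev Grp := ℕ × ℕ × Bool

def cntG (st e : ℕ) : List ℕ → ℕ
  | [] => 0
  | a :: w => bif Nat.ble st a && Nat.ble (a + 1) e then cntG st e w + 1 else cntG st e w

def findG : List Grp → ℕ → Option Grp
  | [], _ => none
  | g :: gs, a => bif Nat.ble g.1 a && Nat.ble (a + 1) g.2.1 then some g else findG gs a

/-- normal form of a word: in every group the letters occur in increasing order -/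
def norm (gs : List Grp) : ℕ → List ℕ → List ℕ → Bool → Option (Bool × List ℕ)
  | _, pre, [], sg => some (sg, pre)
  | 0, _, _ :: _, _ => none
  | n + 1, pre, a :: suf, sg =>
    match findG gs a with
    | none => norm gs n (pre ++ [a]) suf sg
    | some (st, e, alt) =>
      match st + cntG st e pre with
      | m => bif Nat.beq m a then norm gs n (pre ++ [a]) suf sg
        else bif Nat.ble (m + 1) e then
          norm gs n (pre.map (swp a m) ++ [m]) (suf.map (swp a m)) (xor sg alt)
        else none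

/-- code of a word -/
def code : List ℕ → ℕ → ℕ
  | [], c => c
  | a :: w, c => code w (8 * c + a)

/-- inverse of `code` -/
def dec : ℕ → ℕ → List ℕ → List ℕ
  | 0, _, acc => acc
  | n + 1, c, acc => dec n (c / 8) (c % 8 :: acc)

/-- Sparse rows: lists of (coefficient, code). -/
abbrev Row := List (ℤ × ℕ)

def addC (c : ℤ) (k : ℕ) : Row → Row
  | [] => [(c, k)]
  | a :: p => bif Nat.beq a.2 k then (a.1 + c, a.2) :: p else a :: addC c k p

/-- Normal form of a term, added to a row. `n` is the length of the words. -/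
def addT (gs : List Grp) (n : ℕ) (c : ℤ) (w : List ℕ) (r : Row) : Option Row :=
  match norm gs n [] w false with
  | none => none
  | some (sg, v) =>
    match code v 1 with
    | k => bif eqW (dec n k []) v then some (addC (bif sg then -c else c) k r) else none

def addPo (gs : List Grp) (n : ℕ) : ℤ → Po → Row → Option Row
  | _, [], r => some r
  | c, a :: p, r =>
    match addPo gs n c p r with
    | none => none
    | some r' => addT gs n (c * a.1) a.2 r'

/-- the row of a combination of trees -/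
def rowC (gs : List Grp) (n : ℕ) : Cb → Option Row
  | [] => some []
  | a :: p =>
    bif Nat.beq a.2.cnt 1 then
      match rowC gs n p with
      | none => none
      | some r => addPo gs n a.1 a.2.exz r
    else none

/-! ### Relations -/

/-- the left normed tree of a word -/
def lnT (t : Tr) : List ℕ → Tr
  | [] => t
  | i :: w => lnT (.b t (.l i)) w

/-- The relations which every functional of the type satisfies. -/
inductive Spec : Type
  | bas : ℕ → Spec
  | lam : ℕ → ℕ → List ℕ → Spec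
  | sym : ℕ → List ℕ → Spec
  | low : ℕ → ℕ → List ℕ → Spec

/-- The type of functionals: `n` is the length of the words (degree minus one), `k` the number
of letters, `gs` the groups of letters (without the letter `1`), `zg` the letters exchangeable with `1`,
`lows` the relations `f + sg ∑_{m ∈ mem} (m j) f = 0`, `j ∈ js` (`alt = true`: `sg = -1`). -/
structure Cx : Type where
  n : ℕ
  k : ℕ
  gs : List Grp
  zg : Grp
  lows : List (List ℕ × List ℕ × Bool)

def memN (a : ℕ) : List ℕ → Bool
  | [] => false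
  | b :: w => bif Nat.beq a b then true else memN a w

def getL.{u} {α : Type u} : List α → ℕ → Option α
  | [], _ => none
  | a :: _, 0 => some a
  | _ :: w, n + 1 => getL w n

/-- the combination of trees of a relation -/
def specCb (cx : Cx) : Spec → Option Cb
  | .bas _ => none
  | .lam j i w =>
    bif Nat.ble 1 j && Nat.ble j cx.k then
      some (((lnT (.l i) w).der j).map (fun t => ((1 : ℤ), t)))
    else none
  | .sym j w =>
    bif Nat.ble cx.zg.1 j && Nat.ble (j + 1) cx.zg.2.1 then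
      some [(1, (lnT (.l 1) w).mp (swp 1 j)), ((bif cx.zg.2.2 then 1 else -1), lnT (.l 1) w)]
    else none
  | .low i j w =>
    match getL cx.lows i with
    | none => none
    | some (mem, js, alt) =>
      bif memN j js then
        some ((1, lnT (.l 1) w) ::
          mem.map (fun m => ((bif alt then -1 else 1), (lnT (.l 1) w).mp (swp m j))))
      else none

/-- An entry of the table: the value at the word with code `key` is `v`. -/
structure Ent : Type where
  key : ℕ
  rk : ℕ
  v : List ℤ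
  sp : Spec

/-- binary search trees of entries -/
inductive Tb : Type
  | e : Tb
  | n : Tb → Ent → Tb → Tb

def Tb.find (k : ℕ) : Tb → Option Ent
  | .e => none
  | .n a x b => bif Nat.beq k x.key then some x else
      bif Nat.ble k x.key then a.find k else b.find k

def Tb.all (p : Ent → Bool) : Tb → Bool
  | .e => true
  | .n a x b => p x && (a.all p && b.all p)

/-- `c v + u` -/
def addV (c : ℤ) : List ℤ → List ℤ → List ℤ
  | [], u => u
  | a :: v, [] => c * a :: addV c v []
  | a :: v, b :: u => (b + c * a) :: addV c v u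

def isZ : ℤ → Bool
  | Int.ofNat n => Nat.beq n 0
  | Int.negSucc _ => false

def allZ : List ℤ → Bool
  | [] => true
  | a :: v => isZ a && allZ v

/-- the value of a row -/
def vecR (tb : Tb) : Row → List ℤ → Option (List ℤ)
  | [], acc => some acc
  | a :: r, acc =>
    bif isZ a.1 then vecR tb r acc else
      match tb.find a.2 with
      | none => none
      | some x => vecR tb r (addV a.1 x.v acc)

/-- coefficient at `key` and value of the rest, which must have smaller rank -/
def pivR (tb : Tb) (key rk : ℕ) : Row → ℤ → List ℤ → Option (ℤ × List ℤ)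
  | [], c, acc => some (c, acc)
  | a :: r, c, acc =>
    bif isZ a.1 then pivR tb key rk r c acc else
    bif Nat.beq a.2 key then pivR tb key rk r (c + a.1) acc else
      match tb.find a.2 with
      | none => none
      | some x => bif Nat.ble (x.rk + 1) rk then pivR tb key rk r c (addV a.1 x.v acc) else none

def unitV (D : ℤ) : ℕ → List ℤ
  | 0 => [D]
  | n + 1 => 0 :: unitV D n

/-- the check of one entry; `bk` are the codes of the basis words, `D` the denominator -/
def chkE (cx : Cx) (tb : Tb) (D : ℤ) (bk : List ℕ) (x : Ent) : Bool :=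
  match x.sp with
  | .bas i =>
    match getL bk i with
    | none => false
    | some k => Nat.beq k x.key && allZ (addV (-1) x.v (unitV D i))
  | sp =>
    match specCb cx sp with
    | none => false
    | some cb =>
      match rowC cx.gs cx.n cb with
      | none => false
      | some r =>
        match pivR tb x.key x.rk r 0 [] with
        | none => false
        | some (c, acc) => !(isZ c) && allZ (addV c x.v acc)

def chkTb (cx : Cx) (tb : Tb) (D : ℤ) (bk : List ℕ) : Bool := tb.all (chkE cx tb D bk)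

/-- the vector of a combination of trees -/
def vecC (cx : Cx) (tb : Tb) (cb : Cb) : Option (List ℤ) :=
  match rowC cx.gs cx.n cb with
  | none => none
  | some r => vecR tb r []

/-! ### Operations on the templates -/

/-- An operation: the derivations `x_0 -> x_9`, `x_0 -> x_10`, ..., one for every element of `a`,
then the substitution of `sb` for the letters `1, 2, ...` and of `a` for the letters `9, 10, ...`,
then brackets with `br`. -/
structure Op : Type where
  a : List Tr
  sb : List Tr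
  br : List Tr

def sbF (a sb : List Tr) (i : ℕ) : Tr :=
  bif Nat.beq i 0 then .l 0 else
  bif Nat.ble 9 i then (match getL a (i - 9) with | none => .l i | some t => t) else
    match getL sb (i - 1) with
    | none => .l i
    | some t => t

def brT (t : Tr) : List Tr → Tr
  | [] => t
  | s :: w => brT (.b t s) w

def derCb (j : ℕ) : Cb → Cb
  | [] => []
  | a :: p => (a.2.der j).map (fun t => (a.1, t)) ++ derCb j p

def derCbs : ℕ → List Tr → Cb → Cb
  | _, [], cb => cb
  | m, _ :: l, cb => derCbs (m + 1) l (derCb m cb)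

def opCb (o : Op) (cb : Cb) : Cb :=
  (derCbs 9 o.a cb).map (fun (x : ℤ × Tr) => (x.1, brT (x.2.sub (sbF o.a o.sb)) o.br))

/-- the vectors of the components of a family under an operation -/
def opV (cx : Cx) (tb : Tb) (o : Op) : List Cb → Option (List (List ℤ))
  | [] => some []
  | h :: hs =>
    match vecC cx tb (opCb o h) with
    | none => none
    | some v =>
      match opV cx tb o hs with
      | none => none
      | some vs => some (v :: vs)

def opsV (cx : Cx) (tb : Tb) (hs : List Cb) : List Op → Option (List (List (List ℤ)))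
  | [] => some []
  | o :: os =>
    match opV cx tb o hs with
    | none => none
    | some v =>
      match opsV cx tb hs os with
      | none => none
      | some vs => some (v :: vs)

/-! ### Reduction of vectors -/

abbrev Zs := List (ℕ × List ℤ)

def getZ : List ℤ → ℕ → ℤ
  | [], _ => 0
  | a :: _, 0 => a
  | _ :: v, n + 1 => getZ v n

def smulV (p : ℤ) : List ℤ → List ℤ
  | [] => []
  | x :: v => p * x :: smulV p v

/-- `p v - a r` -/
def lcV (p a : ℤ) (v r : List ℤ) : List ℤ := addV p v (smulV (-a) r)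

def gcdV : List ℤ → ℕ → ℕ
  | [], g => g
  | a :: v, g => gcdV v (Nat.gcd a.natAbs g)

def divI (g : ℕ) : ℤ → ℤ
  | Int.ofNat n => Int.ofNat (n / g)
  | Int.negSucc n => - Int.ofNat ((n + 1) / g)

/-- division by the greatest common divisor, checked -/
def nrmV (v : List ℤ) : List ℤ :=
  match gcdV v 0 with
  | g => bif Nat.ble g 1 then v else
    match v.map (divI g) with
    | w => bif allZ (addV (-(g : ℤ)) w v) then w else v

def red : Zs → List ℤ → List ℤ
  | [], v => v
  | z :: Z, v =>
    match getZ v z.1 with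
    | a => bif isZ a then red Z v else red Z (nrmV (lcV (getZ z.2 z.1) a v z.2))

/-- all pivots are nonzero -/
def okZ : Zs → Bool
  | [] => true
  | z :: Z => !(isZ (getZ z.2 z.1)) && okZ Z

/-- first nonzero column -/
def fstNZ : List ℤ → ℕ → Option ℕ
  | [], _ => none
  | a :: v, i => bif isZ a then fstNZ v (i + 1) else some i

/-- insert a vector -/
def insZ (Z : Zs) (v : List ℤ) : Zs :=
  match red Z v with
  | w => match fstNZ w 0 with
    | none => Z
    | some c => Z ++ [(c, w)]

/-- `∑ l_j s_{j,c}` -/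
def cmbV (c : ℕ) : List ℤ → List (List (List ℤ)) → List ℤ → Option (List ℤ)
  | [], _, acc => some acc
  | _ :: _, [], _ => none
  | a :: l, s :: S, acc =>
    bif isZ a then cmbV c l S acc else
    match getL s c with
    | none => none
    | some v => cmbV c l S (addV a v acc)

/-- Steps of the elimination. `zr f c l`: the component `c` of the family `f` is zero, add
`∑ l_j s_{j,c}`; `cm f c l c'`: the component `c` is not zero and `∑ l_j s_{j,c}` reduces to zero,
add `∑ l_j s_{j,c'}`. -/
inductive St : Type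
  | zr : ℕ → ℕ → List ℤ → St
  | cm : ℕ → ℕ → List ℤ → ℕ → St

/-- knowledge on the parameters: zero and nonzero components, for every family -/
abbrev Kn := List (List ℕ × List ℕ)

def stepZ (kn : Kn) (S : List (List (List (List ℤ)))) (Z : Zs) : St → Option Zs
  | .zr f c l =>
    match getL kn f, getL S f with
    | some (ze, _), some Sf =>
      bif memN c ze then
        match cmbV c l Sf [] with
        | none => none
        | some v => some (insZ Z v)
      else none
    | _, _ => none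
  | .cm f c l c' =>
    match getL kn f, getL S f with
    | some (_, nz), some Sf =>
      bif memN c nz then
        match cmbV c l Sf [] with
        | none => none
        | some v =>
          bif allZ (red Z v) then
            match cmbV c' l Sf [] with
            | none => none
            | some v' => some (insZ Z v')
          else none
      else none
    | _, _ => none

def runZ (kn : Kn) (S : List (List (List (List ℤ)))) : List St → Zs → Option Zs
  | [], Z => some Z
  | s :: ss, Z =>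
    match stepZ kn S Z s with
    | none => none
    | some Z' => runZ kn S ss Z'

/-- the entries outside of `done` are zero; `i` is the index of the first entry -/
def zeroOff (done : List ℕ) : List ℤ → ℕ → Bool
  | [], _ => true
  | a :: v, i => (isZ a || memN i done) && zeroOff done v (i + 1)

/-- all numbers below `n` are in the list -/
def allN : ℕ → List ℕ → Bool
  | 0, _ => true
  | n + 1, l => memN n l && allN n l

/-- The rows are triangular with nonzero pivots: the entries of a row outside of `done` and its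
pivot are zero, where `done` are the pivots of the previous rows. -/
def triZ (n : ℕ) : Zs → List ℕ → Bool
  | [], done => allN n done
  | z :: Z, done => !(isZ (getZ z.2 z.1)) && (zeroOff (z.1 :: done) z.2 0 &&
      triZ n Z (z.1 :: done))

/-- the plain relations, inserted -/
def plainZ (cx : Cx) (tb : Tb) : List Spec → Zs → Option Zs
  | [], Z => some Z
  | s :: ss, Z =>
    match specCb cx s with
    | none => none
    | some cb =>
      match vecC cx tb cb with
      | none => none
      | some v => plainZ cx tb ss (insZ Z v)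

/-- the extra combinations, inserted -/
def extraZ (cx : Cx) (tb : Tb) : List Cb → Zs → Option Zs
  | [], Z => some Z
  | cb :: ss, Z =>
    match vecC cx tb cb with
    | none => none
    | some v => extraZ cx tb ss (insZ Z v)

def famsV (cx : Cx) (tb : Tb) : List (List Cb × List Op) → Option (List (List (List (List ℤ))))
  | [] => some []
  | f :: fs =>
    match opsV cx tb f.1 f.2 with
    | none => none
    | some v =>
      match famsV cx tb fs with
      | none => none
      | some vs => some (v :: vs)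

/-- The certificate. -/
structure Cert : Type where
  cx : Cx
  D : ℤ
  bk : List ℕ
  tb : Tb
  pl : List Spec
  fams : List (List Cb × List Op)
  /-- cases: knowledge, extra combinations (functionals assumed to vanish on them), steps -/
  cases : List (Kn × List Cb × List St)

def chkCase (c : Cert) (Z0 : Zs) (S : List (List (List (List ℤ)))) (x : Kn × List Cb × List St) :
    Bool :=
  match extraZ c.cx c.tb x.2.1 Z0 with
  | none => false
  | some Z1 =>
    match runZ x.1 S x.2.2 Z1 with
    | none => false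
    | some Z => triZ c.bk.length Z.reverse []

def chkCases (c : Cert) (Z0 : Zs) (S : List (List (List (List ℤ)))) :
    List (Kn × List Cb × List St) → Bool
  | [] => true
  | x :: xs => chkCase c Z0 S x && chkCases c Z0 S xs

def Cert.chk (c : Cert) : Bool :=
  chkTb c.cx c.tb c.D c.bk && (!(isZ c.D) &&
    match plainZ c.cx c.tb c.pl [] with
    | none => false
    | some Z0 =>
      match famsV c.cx c.tb c.fams with
      | none => false
      | some S => chkCases c Z0 S c.cases)

/-- The check of a certificate from its parts. -/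
theorem Cert.chk_of {c : Cert} {Z0 : Zs} {S : List (List (List (List ℤ)))}
    (h1 : chkTb c.cx c.tb c.D c.bk = true) (h2 : isZ c.D = false)
    (h3 : plainZ c.cx c.tb c.pl [] = some Z0) (h4 : famsV c.cx c.tb c.fams = some S)
    (h5 : chkCases c Z0 S c.cases = true) : c.chk = true := by
  unfold Cert.chk
  rw [h1, h2, h3, h4]
  exact h5

theorem chkTb_node {cx : Cx} {a b : Tb} {x : Ent} {D : ℤ} {bk : List ℕ}
    (h1 : chkE cx (.n a x b) D bk x = true) (h2 : a.all (chkE cx (.n a x b) D bk) = true)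
    (h3 : b.all (chkE cx (.n a x b) D bk) = true) : chkTb cx (.n a x b) D bk = true := by
  rw [chkTb, Tb.all, h1, h2, h3]
  rfl

/-! ### The table covers all words -/

def eraseN (a : ℕ) : List ℕ → List ℕ
  | [] => []
  | b :: l => bif Nat.beq a b then l else b :: eraseN a l

def allL {α : Type} (p : α → Bool) : List α → Bool
  | [] => true
  | a :: l => p a && allL p l

/-- the word `pre` is in the table -/
def inTb (n : ℕ) (tb : Tb) (pre : List ℕ) : Bool :=
  match tb.find (code pre 1) with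
  | none => false
  | some x => eqW (dec n x.key []) pre

/-- local conditions at a letter -/
def okLetter (gs : List Grp) (pre ls : List ℕ) (a : ℕ) : Bool :=
  match findG gs a with
  | none => false
  | some g =>
    match g.1 + cntG g.1 g.2.1 pre with
    | m => Nat.ble (m + 1) g.2.1 && (memN m ls && (!(memN m pre) && !(memN a pre)))

/-- every word `pre ++ suf`, `suf` a permutation of `0^d` and the letters `ls`, is equivalent to a
word of the table -/
def cov (gs : List Grp) (n : ℕ) (tb : Tb) : ℕ → List ℕ → ℕ → List ℕ → Bool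
  | 0, pre, d, ls => Nat.beq d 0 && (Nat.beq ls.length 0 && inTb n tb pre)
  | N + 1, pre, d, ls =>
    (match d with
      | 0 => true
      | d' + 1 => cov gs n tb N (pre ++ [0]) d' ls) &&
    (allL (fun g : Grp => bif Nat.ble (g.1 + cntG g.1 g.2.1 pre + 1) g.2.1 then
        cov gs n tb N (pre ++ [g.1 + cntG g.1 g.2.1 pre]) d (eraseN (g.1 + cntG g.1 g.2.1 pre) ls)
      else true) gs &&
    allL (okLetter gs pre ls) ls)

/-- the cover condition of a certificate -/
def Cert.cov (c : Cert) (d : ℕ) : Bool :=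
  Eng.cov c.cx.gs c.cx.n c.tb (d + (c.cx.k - 1)) [] d (List.range' 2 (c.cx.k - 1))

theorem Cert.ok_of {c : Cert} {d : ℕ} (h1 : c.chk = true) (h2 : c.cov d = true) :
    (c.chk && c.cov d) = true := by
  rw [h1, h2]
  rfl

end Pool.Agent.Lib.MP_b4a71d_al.Eng
end

section

/-!
# Level 3: the commutative algebra

`R3 F = F[t_1, t_2, t_3]` (variables `X 0, X 1, X 2`), `Q` an `R3 F`-module with three elements
`e 0, e 1, e 2`, `∑ t_i e_i = 0`, `GG e = e 0 + e 1 + e 2`.

TIP: equations in `Q` are proved by `linear_combination (norm := module) a • h1 + b • h2`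
(scalars in `R3 F`; write the constants of `F` as `C z`; for the algebra of constants such as
`C (1/3) * 3 = 1` use `C_mul`, `C_1`, or `have h3 : (C (1/3) : R3 F) * 3 = 1`).
-/

set_option autoImplicit false
set_option linter.unusedSectionVars false

namespace Pool.Agent.Lib.MP_b4a71d_al

open MvPolynomial

noncomputable section

variable {F : Type*} [Field F] [CharZero F]

/-- The polynomial ring `F[t_1, t_2, t_3]`. -/
abbrev R3 (F : Type*) [Field F] := MvPolynomial (Fin 3) F

/-- `t_1 + t_2 + t_3` -/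
def s1 : R3 F := X 0 + X 1 + X 2

/-- `t_1 t_2 + t_1 t_3 + t_2 t_3` -/
def s2 : R3 F := X 0 * X 1 + X 0 * X 2 + X 1 * X 2

/-- `t_1 t_2 t_3` -/
def s3 : R3 F := X 0 * X 1 * X 2

variable {Q : Type*} [AddCommGroup Q] [Module F Q] [Module (R3 F) Q] [IsScalarTower F (R3 F) Q]

/-- `G = e_1 + e_2 + e_3` -/
def GG (e : Fin 3 → Q) : Q := e 0 + e 1 + e 2

/-- The span of all `p e_i`, `p` homogeneous of degree `m`. -/
def Nm (e : Fin 3 → Q) (m : ℕ) : Submodule F Q :=
  Submodule.span F {v | ∃ p : R3 F, p.IsHomogeneous m ∧ ∃ i, v = p • e i}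

/-- The span of all `p G`, `p` homogeneous of degree `m`. -/
def Gm (e : Fin 3 → Q) (m : ℕ) : Submodule F Q :=
  Submodule.span F {v | ∃ p : R3 F, p.IsHomogeneous m ∧ v = p • GG e}

/-- The relation `∑ t_i e_i = 0`. -/
def ERel (F : Type*) [Field F] {Q : Type*} [AddCommGroup Q] [Module (R3 F) Q] (e : Fin 3 → Q) :
    Prop := ∑ i, (X i : R3 F) • e i = 0

/-- The relation `(x, y, z) ∈ K`: `x s1 e_i + y t_i e_i + z t_i G` is independent of `i`. -/
def KRel (e : Fin 3 → Q) (x y z : F) : Prop :=
  ∀ i j : Fin 3, (C x * s1 : R3 F) • e i + (C y * X i : R3 F) • e i + (C z * X i : R3 F) • GG e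
    = (C x * s1 : R3 F) • e j + (C y * X j : R3 F) • e j + (C z * X j : R3 F) • GG e

/-- The hook relation `H1`, `G_i = G/2 - e_i`, `sg = G/2`. -/
def h1v (e : Fin 3 → Q) (al be : F) (i : Fin 3) : Q :=
  (C al * (C 2 * s1 * X i - C 3 * X i ^ 2) + C be * (C (1/2) * s1 ^ 2 - C (3/2) * s1 * X i
    + C (3/2) * X i ^ 2) : R3 F) • ((C (1/2) : R3 F) • GG e - e i)
  + (C al * s1 * X i - C be * C (1/2) * s1 * X i : R3 F) • (C (1/2) : R3 F) • GG e

/-- The hook relation `H3`. -/
def h3v (e : Fin 3 → Q) (al be : F) (i : Fin 3) : Q :=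
  (C al * (- C 9 * s1 ^ 2 + C 9 * s1 * X i + C 3 * X i ^ 2 + C 9 * s2) - C be * C 3 * s2
    : R3 F) • ((C (1/2) : R3 F) • GG e - e i)
  - (C al * C 5 * s1 * X i : R3 F) • (C (1/2) : R3 F) • GG e

/-- The consequences, in degree 7 and level 3, of the relation `a = (al, be)` of type (411). -/
structure ARel {F : Type*} [Field F] {Q : Type*} [AddCommGroup Q] [Module (R3 F) Q]
    (e : Fin 3 → Q) (al be : F) : Prop where
  S1 : (C (3 * al - 2 * be) : R3 F) • ((s2 : R3 F) • GG e
    + (C 2 : R3 F) • ∑ i : Fin 3, (X i ^ 2 : R3 F) • e i) = 0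
  S2 : (C al : R3 F) • ((s1 ^ 2 - C 6 * s2 : R3 F) • GG e - (C 6 : R3 F)
      • ∑ i : Fin 3, (X i ^ 2 : R3 F) • e i) + (C be : R3 F) • ((C (9/2) * s2 : R3 F) • GG e
      + (C 6 : R3 F) • ∑ i : Fin 3, (X i ^ 2 : R3 F) • e i) = 0
  H1 : ∀ i j, h1v e al be i = h1v e al be j
  H3 : ∀ i j, h3v e al be i = h3v e al be j

private theorem C_smul_eq (z : F) (v : Q) : (C z : R3 F) • v = z • v := by
  rw [← MvPolynomial.algebraMap_eq, algebraMap_smul]

private theorem C_cancel {z : F} (hz : z ≠ 0) {v : Q} (h : (C z : R3 F) • v = 0) : v = 0 := by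
  rw [C_smul_eq] at h
  exact (smul_eq_zero.1 h).resolve_left hz

private theorem C_cancel' {z : F} (hz : z ≠ 0) {v : Q} {S : Submodule F Q}
    (h : (C z : R3 F) • v ∈ S) : v ∈ S := by
  rw [C_smul_eq] at h
  exact (S.smul_mem_iff hz).1 h

private theorem C_mem (z : F) {v : Q} {S : Submodule F Q} (h : v ∈ S) :
    (C z : R3 F) • v ∈ S := by
  rw [C_smul_eq]
  exact S.smul_mem _ h

private theorem mono_hom (a b c : ℕ) :
    (X 0 ^ a * X 1 ^ b * X 2 ^ c : R3 F).IsHomogeneous (a + b + c) := by
  have h : ∀ (i : Fin 3) (k : ℕ), (X i ^ k : R3 F).IsHomogeneous k := fun i k => by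
    simpa using (isHomogeneous_X F i).pow k
  exact ((h 0 a).mul (h 1 b)).mul (h 2 c)

private theorem hom_mem {p : R3 F} {m : ℕ} (hp : p.IsHomogeneous m) (v0 : Q) :
    p • v0 ∈ Submodule.span F {v : Q | ∃ a b c : ℕ, a + b + c = m ∧
      v = (X 0 ^ a * X 1 ^ b * X 2 ^ c : R3 F) • v0} := by
  rw [p.as_sum, Finset.sum_smul]
  refine Submodule.sum_mem _ fun d hd => ?_
  have h1 : (monomial d (coeff d p) : R3 F) =
      C (coeff d p) * (X 0 ^ d 0 * X 1 ^ d 1 * X 2 ^ d 2) := by
    rw [monomial_eq, Finsupp.prod_fintype _ _ (fun i => pow_zero _), Fin.prod_univ_three]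
  rw [h1, mul_smul, C_smul_eq]
  refine Submodule.smul_mem _ _ (Submodule.subset_span ⟨d 0, d 1, d 2, ?_, rfl⟩)
  have h2 := hp (mem_support_iff.1 hd)
  rw [Finsupp.weight_apply, Finsupp.sum_fintype _ _ (fun i => by simp), Fin.sum_univ_three] at h2
  simpa using h2

/-- Monomials suffice. -/
theorem Nm_eq (e : Fin 3 → Q) (m : ℕ) : Nm (F := F) e m = Submodule.span F
    {v | ∃ a b c : ℕ, a + b + c = m ∧ ∃ i, v = (X 0 ^ a * X 1 ^ b * X 2 ^ c : R3 F) • e i} := by
  refine le_antisymm (Submodule.span_le.2 ?_) (Submodule.span_mono ?_)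
  · rintro v ⟨p, hp, i, rfl⟩
    refine Submodule.span_mono ?_ (hom_mem hp (e i))
    rintro v ⟨a, b, c, h, rfl⟩
    exact ⟨a, b, c, h, i, rfl⟩
  · rintro v ⟨a, b, c, h, i, rfl⟩
    exact ⟨_, h ▸ mono_hom a b c, i, rfl⟩

theorem Gm_eq (e : Fin 3 → Q) (m : ℕ) : Gm (F := F) e m = Submodule.span F
    {v | ∃ a b c : ℕ, a + b + c = m ∧ v = (X 0 ^ a * X 1 ^ b * X 2 ^ c : R3 F) • GG e} := by
  refine le_antisymm (Submodule.span_le.2 ?_) (Submodule.span_mono ?_)
  · rintro v ⟨p, hp, rfl⟩
    exact hom_mem hp (GG e)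
  · rintro v ⟨a, b, c, h, rfl⟩
    exact ⟨_, h ▸ mono_hom a b c, rfl⟩

private theorem mem_Nm {e : Fin 3 → Q} {m : ℕ} {p : R3 F} (hp : p.IsHomogeneous m) (i : Fin 3) :
    p • e i ∈ Nm (F := F) e m := Submodule.subset_span ⟨p, hp, i, rfl⟩

private theorem mem_Gm {e : Fin 3 → Q} {m : ℕ} {p : R3 F} (hp : p.IsHomogeneous m) :
    p • GG e ∈ Gm (F := F) e m := Submodule.subset_span ⟨p, hp, rfl⟩

private theorem Gm_smul {e : Fin 3 → Q} {m k : ℕ} {q : R3 F} (hq : q.IsHomogeneous k) {v : Q}
    (hv : v ∈ Gm (F := F) e m) : q • v ∈ Gm (F := F) e (m + k) := by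
  induction hv using Submodule.span_induction with
  | mem v hv =>
    obtain ⟨p, hp, rfl⟩ := hv
    rw [← mul_smul]
    exact mem_Gm (by rw [add_comm]; exact hq.mul hp)
  | zero => rw [smul_zero]; exact Submodule.zero_mem _
  | add a b _ _ ha hb => rw [smul_add]; exact Submodule.add_mem _ ha hb
  | smul c a _ ha =>
    rw [← C_smul_eq c a, ← mul_smul, mul_comm, mul_smul, C_smul_eq]
    exact Submodule.smul_mem _ _ ha

private theorem Nm_smul {e : Fin 3 → Q} {m k : ℕ} {q : R3 F} (hq : q.IsHomogeneous k) {v : Q}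
    (hv : v ∈ Nm (F := F) e m) : q • v ∈ Nm (F := F) e (m + k) := by
  induction hv using Submodule.span_induction with
  | mem v hv =>
    obtain ⟨p, hp, i, rfl⟩ := hv
    rw [← mul_smul]
    exact mem_Nm (by rw [add_comm]; exact hq.mul hp) i
  | zero => rw [smul_zero]; exact Submodule.zero_mem _
  | add a b _ _ ha hb => rw [smul_add]; exact Submodule.add_mem _ ha hb
  | smul c a _ ha =>
    rw [← C_smul_eq c a, ← mul_smul, mul_comm, mul_smul, C_smul_eq]
    exact Submodule.smul_mem _ _ ha

private theorem X_hom (l : Fin 3) : (X l : R3 F).IsHomogeneous 1 := isHomogeneous_X F l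

private theorem s1_hom : (s1 : R3 F).IsHomogeneous 1 := ((X_hom 0).add (X_hom 1)).add (X_hom 2)

/-- If `Nm m ≤ U` and `t_l U ≤ V` for `l = 0, 1, 2`, then `Nm (m + 1) ≤ V`. -/
theorem Nm_succ_le (e : Fin 3 → Q) (m : ℕ) (U V : Submodule F Q) (h : Nm (F := F) e m ≤ U)
    (hV : ∀ u ∈ U, ∀ l : Fin 3, (X l : R3 F) • u ∈ V) : Nm (F := F) e (m + 1) ≤ V := by
  rw [Nm_eq, Submodule.span_le]
  rintro v ⟨a, b, c, hm, i, rfl⟩
  have key : ∀ (a b c : ℕ) (l : Fin 3), a + b + c = m →
      (X l * (X 0 ^ a * X 1 ^ b * X 2 ^ c) : R3 F) • e i ∈ V := by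
    intro a b c l hm
    rw [mul_smul]
    exact hV _ (h (mem_Nm (hm ▸ mono_hom a b c) i)) l
  rcases a with _ | a
  · rcases b with _ | b
    · rcases c with _ | c
      · omega
      · rw [SetLike.mem_coe, show (X 0 ^ 0 * X 1 ^ 0 * X 2 ^ (c + 1) : R3 F) =
          X 2 * (X 0 ^ 0 * X 1 ^ 0 * X 2 ^ c) by ring]
        exact key 0 0 c 2 (by omega)
    · rw [SetLike.mem_coe, show (X 0 ^ 0 * X 1 ^ (b + 1) * X 2 ^ c : R3 F) =
        X 1 * (X 0 ^ 0 * X 1 ^ b * X 2 ^ c) by ring]
      exact key 0 b c 1 (by omega)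
  · rw [SetLike.mem_coe, show (X 0 ^ (a + 1) * X 1 ^ b * X 2 ^ c : R3 F) =
      X 0 * (X 0 ^ a * X 1 ^ b * X 2 ^ c) by ring]
    exact key a b c 0 (by omega)

/-- The sum over `i` of `KRel`: `3 (x s1 + y t_i) e_i = ((x + z) s1 - 3 z t_i) G`. -/
theorem KRel.sum {e : Fin 3 → Q} (hE : ERel F e) {x y z : F} (h : KRel e x y z)
    (i : Fin 3) : (C 3 * (C x * s1 + C y * X i) : R3 F) • e i
      = (C (x + z) * s1 - C (3 * z) * X i : R3 F) • GG e := by
  have h0 := h i 0
  have h1 := h i 1
  have h2 := h i 2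
  unfold ERel at hE
  rw [Fin.sum_univ_three] at hE
  simp only [GG, s1, map_add, map_mul, map_ofNat] at h0 h1 h2 ⊢
  linear_combination (norm := module) h0 + h1 + h2 + (C y : R3 F) • hE

/-- Degree 2, monomial by monomial. -/
private theorem Nm2_le {e : Fin 3 → Q} {V : Submodule F Q}
    (h : ∀ i j k : Fin 3, (X j * X k : R3 F) • e i ∈ V) : Nm (F := F) e 2 ≤ V := by
  rw [Nm_eq, Submodule.span_le]
  rintro v ⟨a, b, c, hm, i, rfl⟩
  rw [SetLike.mem_coe]
  obtain ⟨rfl, rfl, rfl⟩ | ⟨rfl, rfl, rfl⟩ | ⟨rfl, rfl, rfl⟩ | ⟨rfl, rfl, rfl⟩ |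
      ⟨rfl, rfl, rfl⟩ | ⟨rfl, rfl, rfl⟩ :
      (a = 2 ∧ b = 0 ∧ c = 0) ∨ (a = 0 ∧ b = 2 ∧ c = 0) ∨ (a = 0 ∧ b = 0 ∧ c = 2) ∨
      (a = 1 ∧ b = 1 ∧ c = 0) ∨ (a = 1 ∧ b = 0 ∧ c = 1) ∨ (a = 0 ∧ b = 1 ∧ c = 1) := by omega
  · simpa only [pow_zero, mul_one, sq] using h i 0 0
  · simpa only [pow_zero, mul_one, one_mul, sq] using h i 1 1
  · simpa only [pow_zero, mul_one, one_mul, sq] using h i 2 2
  · simpa only [pow_zero, mul_one, pow_one] using h i 0 1
  · simpa only [pow_zero, mul_one, pow_one] using h i 0 2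
  · simpa only [pow_zero, one_mul, pow_one] using h i 1 2

private theorem Gm2_le {e : Fin 3 → Q} {V : Submodule F Q}
    (h : ∀ j k : Fin 3, (X j * X k : R3 F) • GG e ∈ V) : Gm (F := F) e 2 ≤ V := by
  rw [Gm_eq, Submodule.span_le]
  rintro v ⟨a, b, c, hm, rfl⟩
  rw [SetLike.mem_coe]
  obtain ⟨rfl, rfl, rfl⟩ | ⟨rfl, rfl, rfl⟩ | ⟨rfl, rfl, rfl⟩ | ⟨rfl, rfl, rfl⟩ |
      ⟨rfl, rfl, rfl⟩ | ⟨rfl, rfl, rfl⟩ :
      (a = 2 ∧ b = 0 ∧ c = 0) ∨ (a = 0 ∧ b = 2 ∧ c = 0) ∨ (a = 0 ∧ b = 0 ∧ c = 2) ∨
      (a = 1 ∧ b = 1 ∧ c = 0) ∨ (a = 1 ∧ b = 0 ∧ c = 1) ∨ (a = 0 ∧ b = 1 ∧ c = 1) := by omega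
  · simpa only [pow_zero, mul_one, sq] using h 0 0
  · simpa only [pow_zero, mul_one, one_mul, sq] using h 1 1
  · simpa only [pow_zero, mul_one, one_mul, sq] using h 2 2
  · simpa only [pow_zero, mul_one, pow_one] using h 0 1
  · simpa only [pow_zero, mul_one, pow_one] using h 0 2
  · simpa only [pow_zero, one_mul, pow_one] using h 1 2

/-- The products from the squares and the `s1 t_i`. -/
private theorem prod_mem {v : Q} {V : Submodule F Q}
    (h1 : ∀ i : Fin 3, (s1 * X i : R3 F) • v ∈ V) (h2 : ∀ i : Fin 3, (X i * X i : R3 F) • v ∈ V)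
    (j k : Fin 3) : (X j * X k : R3 F) • v ∈ V := by
  have h3 : (2 : F) ≠ 0 := two_ne_zero
  have hA : ∀ i : Fin 3, (s1 * X i : R3 F) • v - (X i * X i : R3 F) • v ∈ V := fun i =>
    V.sub_mem (h1 i) (h2 i)
  have a01 : (X 0 * X 1 : R3 F) • v ∈ V := by
    refine C_cancel' h3 ?_
    have := V.sub_mem (V.add_mem (hA 0) (hA 1)) (hA 2)
    convert this using 1
    simp only [s1, map_ofNat]
    module
  have a02 : (X 0 * X 2 : R3 F) • v ∈ V := by
    refine C_cancel' h3 ?_
    have := V.sub_mem (V.add_mem (hA 0) (hA 2)) (hA 1)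
    convert this using 1
    simp only [s1, map_ofNat]
    module
  have a12 : (X 1 * X 2 : R3 F) • v ∈ V := by
    refine C_cancel' h3 ?_
    have := V.sub_mem (V.add_mem (hA 1) (hA 2)) (hA 0)
    convert this using 1
    simp only [s1, map_ofNat]
    module
  fin_cases j <;> fin_cases k
  · exact h2 0
  · exact a01
  · exact a02
  · rw [mul_comm]; exact a01
  · exact h2 1
  · exact a12
  · rw [mul_comm]; exact a02
  · rw [mul_comm]; exact a12
  · exact h2 2

/-- Degree 2 from the products `t_l t_i e_i`, `s1 t_l e_i` and `t_j t_k G`. -/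
private theorem deg2_mem {e : Fin 3 → Q} {V : Submodule F Q}
    (hP : ∀ i l : Fin 3, (X l * X i : R3 F) • e i ∈ V)
    (hS : ∀ i l : Fin 3, (s1 * X l : R3 F) • e i ∈ V)
    (hG : ∀ j k : Fin 3, (X j * X k : R3 F) • GG e ∈ V) (i j k : Fin 3) :
    (X j * X k : R3 F) • e i ∈ V := by
  have a0 : (X 1 * X 2 : R3 F) • e 0 ∈ V := by
    have := V.sub_mem (V.sub_mem (hG 1 2) (hP 1 2)) (hP 2 1)
    convert this using 1
    simp only [GG]
    module
  have a1 : (X 0 * X 2 : R3 F) • e 1 ∈ V := by
    have := V.sub_mem (V.sub_mem (hG 0 2) (hP 0 2)) (hP 2 0)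
    convert this using 1
    simp only [GG]
    module
  have a2 : (X 0 * X 1 : R3 F) • e 2 ∈ V := by
    have := V.sub_mem (V.sub_mem (hG 0 1) (hP 0 1)) (hP 1 0)
    convert this using 1
    simp only [GG]
    module
  have b01 : (X 1 * X 1 : R3 F) • e 0 ∈ V := by
    have := V.sub_mem (V.sub_mem (hS 0 1) (hP 0 1)) a0
    convert this using 1
    simp only [s1]
    module
  have b02 : (X 2 * X 2 : R3 F) • e 0 ∈ V := by
    have := V.sub_mem (V.sub_mem (hS 0 2) (hP 0 2)) a0
    convert this using 1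
    simp only [s1]
    module
  have b10 : (X 0 * X 0 : R3 F) • e 1 ∈ V := by
    have := V.sub_mem (V.sub_mem (hS 1 0) (hP 1 0)) a1
    convert this using 1
    simp only [s1]
    module
  have b12 : (X 2 * X 2 : R3 F) • e 1 ∈ V := by
    have := V.sub_mem (V.sub_mem (hS 1 2) (hP 1 2)) a1
    convert this using 1
    simp only [s1]
    module
  have b20 : (X 0 * X 0 : R3 F) • e 2 ∈ V := by
    have := V.sub_mem (V.sub_mem (hS 2 0) (hP 2 0)) a2
    convert this using 1
    simp only [s1]
    module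
  have b21 : (X 1 * X 1 : R3 F) • e 2 ∈ V := by
    have := V.sub_mem (V.sub_mem (hS 2 1) (hP 2 1)) a2
    convert this using 1
    simp only [s1]
    module
  fin_cases i <;> fin_cases j <;> fin_cases k
  · exact hP 0 0
  · rw [mul_comm]; exact hP 0 1
  · rw [mul_comm]; exact hP 0 2
  · exact hP 0 1
  · exact b01
  · exact a0
  · exact hP 0 2
  · rw [mul_comm]; exact a0
  · exact b02
  · exact b10
  · exact hP 1 0
  · exact a1
  · rw [mul_comm]; exact hP 1 0
  · exact hP 1 1
  · rw [mul_comm]; exact hP 1 2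
  · rw [mul_comm]; exact a1
  · exact hP 1 2
  · exact b12
  · exact b20
  · exact a2
  · exact hP 2 0
  · rw [mul_comm]; exact a2
  · exact b21
  · exact hP 2 1
  · rw [mul_comm]; exact hP 2 0
  · rw [mul_comm]; exact hP 2 1
  · exact hP 2 2

/-! ### Case A: `(1, 0, z0), (0, 1, z1) ∈ K` -/

private theorem A_P {e : Fin 3 → Q} (hE : ERel F e) {z1 : F} (h2 : KRel e (0 : F) 1 z1)
    (i : Fin 3) : (3 * X i : R3 F) • e i = (C z1 * s1 - 3 * C z1 * X i : R3 F) • GG e := by
  have h := h2.sum hE i
  simp only [map_zero, map_one, map_mul, map_add, map_ofNat] at h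
  linear_combination (norm := module) h

private theorem A_S {e : Fin 3 → Q} (hE : ERel F e) {z0 : F} (h1 : KRel e (1 : F) 0 z0)
    (i : Fin 3) : (3 * s1 : R3 F) • e i =
      ((1 + C z0) * s1 - 3 * C z0 * X i : R3 F) • GG e := by
  have h := h1.sum hE i
  simp only [map_zero, map_one, map_mul, map_add, map_ofNat] at h
  linear_combination (norm := module) h

/-- Every `p e_i` of degree `≥ 2` lies in `R G`.  Proof: modulo `R_2 G` one has `t_i e_i = 0`,
`(t_j + t_k) e_i = 0` and `e_1 + e_2 + e_3 = 0`; so `t_k e_j = t_k (- e_i - e_k) = - t_k e_i`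
and `t_i t_k e_i = 0` gives `t_i t_k e_j = 0`; then `t_k ^ 2 e_i = - t_j t_k e_i = 0`. -/
theorem caseA_le {e : Fin 3 → Q} (hE : ERel F e) {z0 z1 : F} (h1 : KRel e (1 : F) 0 z0)
    (h2 : KRel e (0 : F) 1 z1) (m : ℕ) : Nm (F := F) e (m + 2) ≤ Gm e (m + 2) := by
  have h3 : (3 : F) ≠ 0 := three_ne_zero
  have hP0 : ∀ i : Fin 3, (X i : R3 F) • e i ∈ Gm (F := F) e 1 := fun i => by
    refine C_cancel' h3 ?_
    have h := A_P hE h2 i
    rw [map_ofNat, ← mul_smul, h]
    refine mem_Gm ?_
    have e1 : (C z1 * s1 - 3 * C z1 * X i : R3 F) = C z1 * s1 - C (3 * z1) * X i := by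
      rw [map_mul, map_ofNat]
    rw [e1]
    refine IsHomogeneous.sub ?_ ?_
    · simpa using (isHomogeneous_C (Fin 3) z1).mul s1_hom
    · simpa using (isHomogeneous_C (Fin 3) (3 * z1)).mul (X_hom i)
  have hS0 : ∀ i : Fin 3, (s1 : R3 F) • e i ∈ Gm (F := F) e 1 := fun i => by
    refine C_cancel' h3 ?_
    have h := A_S hE h1 i
    rw [map_ofNat, ← mul_smul, h]
    refine mem_Gm ?_
    have e1 : ((1 + C z0) * s1 - 3 * C z0 * X i : R3 F) =
        C (1 + z0) * s1 - C (3 * z0) * X i := by
      rw [map_mul, map_ofNat, map_add, map_one]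
    rw [e1]
    refine IsHomogeneous.sub ?_ ?_
    · simpa using (isHomogeneous_C (Fin 3) (1 + z0)).mul s1_hom
    · simpa using (isHomogeneous_C (Fin 3) (3 * z0)).mul (X_hom i)
  induction m with
  | zero =>
    refine Nm2_le fun i j k => deg2_mem (fun i l => ?_) (fun i l => ?_) (fun j k => ?_) i j k
    · rw [mul_smul]
      exact Gm_smul (X_hom l) (hP0 i)
    · rw [mul_comm, mul_smul]
      exact Gm_smul (X_hom l) (hS0 i)
    · exact mem_Gm ((X_hom j).mul (X_hom k))
  | succ m ih =>
    exact Nm_succ_le e (m + 2) _ _ ih fun u hu l => Gm_smul (X_hom l) hu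

/-- `(z0 t_i ^ 2 - c s1 t_i + (z1 / 3) s1 ^ 2) G = 0`, `c = (1 + z0) / 3 + z1`: compute
`t_i s1 e_i` in two ways with `KRel.sum`. -/
theorem caseA_q {e : Fin 3 → Q} (hE : ERel F e) {z0 z1 : F} (h1 : KRel e (1 : F) 0 z0)
    (h2 : KRel e (0 : F) 1 z1) (i : Fin 3) :
    (C (3 * z0) * X i ^ 2 - C (1 + z0 + 3 * z1) * s1 * X i + C z1 * s1 ^ 2 : R3 F) • GG e = 0 := by
  have hP := A_P hE h2 i
  have hS := A_S hE h1 i
  simp only [map_one, map_mul, map_add, map_ofNat]
  linear_combination (norm := module) (X i : R3 F) • hS - (s1 : R3 F) • hP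

/-- `3 (1 + 3 z1) s3 G = z1 s1 s2 G`: `s3 G = ∑ (t_j t_k) (t_i e_i)`. -/
theorem caseA_s {e : Fin 3 → Q} (hE : ERel F e) {z0 z1 : F} (h1 : KRel e (1 : F) 0 z0)
    (h2 : KRel e (0 : F) 1 z1) :
    (C (3 * (1 + 3 * z1)) * s3 - C z1 * s1 * s2 : R3 F) • GG e = 0 := by
  have hP0 := A_P hE h2 0
  have hP1 := A_P hE h2 1
  have hP2 := A_P hE h2 2
  simp only [map_one, map_mul, map_add, map_ofNat, s1, s2, s3, GG] at hP0 hP1 hP2 ⊢
  linear_combination (norm := module) (X 1 * X 2 : R3 F) • hP0 + (X 0 * X 2 : R3 F) • hP1 +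
    (X 0 * X 1 : R3 F) • hP2

/-- Case A1: `z0 ≠ 0`.  In degree 2: `t_i ^ 2 G` is a combination of `s1 t_i G`, `s1 ^ 2 G`;
`t_1 (t_2 + t_3) = s1 t_1 - t_1 ^ 2`, so all `t_i t_j G` are combinations of the `s1 t_l G`.
Induction: `t_l (s1 ^ (m+1) t_i G) = s1 ^ (m+1) (t_l t_i G)`. -/
theorem caseA1 {e : Fin 3 → Q} (hE : ERel F e) {z0 z1 : F} (h1 : KRel e (1 : F) 0 z0)
    (h2 : KRel e (0 : F) 1 z1) (hz : z0 ≠ 0) (m : ℕ) :
    Nm (F := F) e (m + 2) ≤ Submodule.span F
      (Set.range fun i : Fin 3 => (s1 ^ (m + 1) * X i : R3 F) • GG e) := by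
  set V : ℕ → Submodule F Q := fun m => Submodule.span F
      (Set.range fun i : Fin 3 => (s1 ^ (m + 1) * X i : R3 F) • GG e) with hV
  have hs : ∀ i : Fin 3, (s1 * X i : R3 F) • GG e ∈ V 0 := fun i =>
    Submodule.subset_span ⟨i, by simp⟩
  have hss : (s1 ^ 2 : R3 F) • GG e ∈ V 0 := by
    have := (V 0).add_mem ((V 0).add_mem (hs 0) (hs 1)) (hs 2)
    convert this using 1
    simp only [s1]
    module
  have hsq : ∀ i : Fin 3, (X i * X i : R3 F) • GG e ∈ V 0 := fun i => by
    refine C_cancel' (mul_ne_zero three_ne_zero hz) ?_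
    have h := caseA_q hE h1 h2 i
    have h' := (V 0).sub_mem (C_mem (1 + z0 + 3 * z1) (hs i)) (C_mem z1 hss)
    convert h' using 1
    simp only [map_one, map_mul, map_add, map_ofNat] at h ⊢
    linear_combination (norm := module) h
  have hbase : ∀ j k : Fin 3, (X j * X k : R3 F) • GG e ∈ V 0 := prod_mem hs hsq
  have hmul : ∀ (m : ℕ) (v : Q), v ∈ V 0 → (s1 ^ m : R3 F) • v ∈ V m := by
    intro m v hv
    induction hv using Submodule.span_induction with
    | mem v hv =>
      obtain ⟨i, rfl⟩ := hv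
      refine Submodule.subset_span ⟨i, ?_⟩
      simp only
      rw [← mul_smul]
      congr 1
      ring
    | zero => rw [smul_zero]; exact Submodule.zero_mem _
    | add a b _ _ ha hb => rw [smul_add]; exact Submodule.add_mem _ ha hb
    | smul c a _ ha =>
      rw [← C_smul_eq c a, ← mul_smul, mul_comm, mul_smul]
      exact C_mem _ ha
  induction m with
  | zero =>
    refine (caseA_le hE h1 h2 0).trans (Gm2_le hbase)
  | succ m ih =>
    refine Nm_succ_le e (m + 2) _ _ ih fun u hu l => ?_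
    induction hu using Submodule.span_induction with
    | mem v hv =>
      obtain ⟨i, rfl⟩ := hv
      simp only
      have h := hmul (m + 1) _ (hbase l i)
      convert h using 1
      rw [← mul_smul, ← mul_smul]
      congr 1
      ring
    | zero => rw [smul_zero]; exact Submodule.zero_mem _
    | add a b _ _ ha hb => rw [smul_add]; exact Submodule.add_mem _ ha hb
    | smul c a _ ha =>
      rw [← C_smul_eq c a, ← mul_smul, mul_comm, mul_smul]
      exact C_mem _ ha

/-- Case A2: `z0 = 0`, `1 + 3 z1 ≠ 0`.  `s1 t_i G = (z1 / (1 + 3 z1)) s1 ^ 2 G`; sum over `i`: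
`s1 ^ 2 G = 0`, hence `s1 t_i G = 0`, and then `s3 G = 0`. -/
theorem caseA2_s1 {e : Fin 3 → Q} (hE : ERel F e) {z1 : F} (h1 : KRel e (1 : F) 0 0)
    (h2 : KRel e (0 : F) 1 z1) (hc : 1 + 3 * z1 ≠ 0) (i : Fin 3) :
    (s1 * X i : R3 F) • GG e = 0 := by
  have q : ∀ i : Fin 3, (((1 + 3 * C z1) * s1 * X i - C z1 * s1 ^ 2 : R3 F)) • GG e = 0 := by
    intro i
    have h := caseA_q hE h1 h2 i
    simp only [map_one, map_mul, map_add, map_ofNat, map_zero] at h
    linear_combination (norm := module) -h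
  have h0 := q 0
  have h1' := q 1
  have h2' := q 2
  have hss : (s1 ^ 2 : R3 F) • GG e = 0 := by
    simp only [s1] at h0 h1' h2' ⊢
    linear_combination (norm := module) h0 + h1' + h2'
  refine C_cancel hc ?_
  simp only [map_one, map_mul, map_add, map_ofNat]
  linear_combination (norm := module) q i + (C z1 : R3 F) • hss

theorem caseA2_s3 {e : Fin 3 → Q} (hE : ERel F e) {z1 : F} (h1 : KRel e (1 : F) 0 0)
    (h2 : KRel e (0 : F) 1 z1) (hc : 1 + 3 * z1 ≠ 0) : (s3 : R3 F) • GG e = 0 := by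
  have h := caseA_s hE h1 h2
  have q0 := caseA2_s1 hE h1 h2 hc 0
  have q1 := caseA2_s1 hE h1 h2 hc 1
  refine C_cancel (mul_ne_zero (three_ne_zero (α := F)) hc) ?_
  simp only [map_one, map_mul, map_add, map_ofNat, s2] at h ⊢
  linear_combination (norm := module) h + (C z1 * (X 1 + X 2) : R3 F) • q0 +
    (C z1 * X 2 : R3 F) • q1

/-- `t_i ^ (a+1) t_j ^ (b+2) G = - t_i ^ (a+2) t_j ^ (b+1) G` for `i ≠ j`, because
`t_i t_j (t_i + t_j) = t_i t_j s1 - s3`. -/
theorem caseA2_sign {e : Fin 3 → Q} (hE : ERel F e) {z1 : F} (h1 : KRel e (1 : F) 0 0)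
    (h2 : KRel e (0 : F) 1 z1) (hc : 1 + 3 * z1 ≠ 0) (i j : Fin 3) (hij : i ≠ j) (a b : ℕ) :
    (X i ^ (a + 1) * X j ^ (b + 2) : R3 F) • GG e
      = - (X i ^ (a + 2) * X j ^ (b + 1) : R3 F) • GG e := by
  have h3 := caseA2_s3 hE h1 h2 hc
  have hi := caseA2_s1 hE h1 h2 hc i
  have key : (X i * X j * (X i + X j) : R3 F) • GG e = 0 := by
    have e1 : (X i * X j * (X i + X j) : R3 F) = X j * (s1 * X i) - s3 := by
      fin_cases i <;> fin_cases j <;> first
        | exact absurd rfl hij
        | (simp only [s1, s3, Fin.zero_eta, Fin.mk_one, Fin.reduceFinMk]; ring)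
    rw [e1, sub_smul, mul_smul, hi, h3, smul_zero, sub_zero]
  have e2 : (X i ^ (a + 1) * X j ^ (b + 2) : R3 F) =
      X i ^ a * X j ^ b * (X i * X j * (X i + X j)) - X i ^ (a + 2) * X j ^ (b + 1) := by ring
  rw [e2, sub_smul, mul_smul, key, smul_zero, zero_sub, neg_smul]

theorem caseA2 {e : Fin 3 → Q} (hE : ERel F e) {z1 : F} (h1 : KRel e (1 : F) 0 0)
    (h2 : KRel e (0 : F) 1 z1) (hc : 1 + 3 * z1 ≠ 0) (m : ℕ) :
    Nm (F := F) e (m + 2) ≤ Submodule.span F
      (Set.range fun i : Fin 3 => (X (i + 1) * X (i + 2) ^ (m + 1) : R3 F) • GG e) := by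
  have h3 := caseA2_s3 hE h1 h2 hc
  have hs := caseA2_s1 hE h1 h2 hc
  induction m with
  | zero =>
    refine (caseA_le hE h1 h2 0).trans (Gm2_le ?_)
    set V := Submodule.span F
      (Set.range fun i : Fin 3 => (X (i + 1) * X (i + 2) ^ (0 + 1) : R3 F) • GG e) with hV
    have a12 : (X 1 * X 2 : R3 F) • GG e ∈ V := Submodule.subset_span ⟨0, by simp⟩
    have a20 : (X 2 * X 0 : R3 F) • GG e ∈ V := Submodule.subset_span ⟨1, by simp⟩
    have a01 : (X 0 * X 1 : R3 F) • GG e ∈ V := Submodule.subset_span ⟨2, by simp⟩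
    have b0 : (X 0 * X 0 : R3 F) • GG e ∈ V := by
      have := V.neg_mem (V.add_mem a01 a20)
      convert this using 1
      have h := hs 0
      simp only [s1] at h
      linear_combination (norm := module) h
    have b1 : (X 1 * X 1 : R3 F) • GG e ∈ V := by
      have := V.neg_mem (V.add_mem a01 a12)
      convert this using 1
      have h := hs 1
      simp only [s1] at h
      linear_combination (norm := module) h
    have b2 : (X 2 * X 2 : R3 F) • GG e ∈ V := by
      have := V.neg_mem (V.add_mem a12 a20)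
      convert this using 1
      have h := hs 2
      simp only [s1] at h
      linear_combination (norm := module) h
    intro j k
    fin_cases j <;> fin_cases k
    · exact b0
    · exact a01
    · rw [mul_comm]; exact a20
    · rw [mul_comm]; exact a01
    · exact b1
    · exact a12
    · exact a20
    · rw [mul_comm]; exact a12
    · exact b2
  | succ m ih =>
    refine Nm_succ_le e (m + 2) _ _ ih fun u hu l => ?_
    induction hu using Submodule.span_induction with
    | mem v hv =>
      obtain ⟨i, rfl⟩ := hv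
      simp only
      have hl : l = i ∨ l = i + 1 ∨ l = i + 2 := by
        revert l i
        decide
      rcases hl with rfl | rfl | rfl
      · have e1 : (X l * (X (l + 1) * X (l + 2) ^ (m + 1)) : R3 F) = X (l + 2) ^ m * s3 := by
          fin_cases l
          · simp only [s3, Fin.zero_eta, zero_add]; ring
          · simp only [s3, Fin.mk_one]
            rw [show (1 + 1 : Fin 3) = 2 from rfl, show (1 + 2 : Fin 3) = 0 from rfl]; ring
          · simp only [s3, Fin.reduceFinMk]
            rw [show (2 + 1 : Fin 3) = 0 from rfl, show (2 + 2 : Fin 3) = 1 from rfl]; ring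
        rw [← mul_smul, e1, mul_smul, h3, smul_zero]
        exact Submodule.zero_mem _
      · have hne : i + 1 ≠ i + 2 := by
          intro h
          exact absurd (add_left_cancel h) (by decide)
        have h := caseA2_sign hE h1 h2 hc (i + 1) (i + 2) hne 0 m
        have e1 : (X (i + 1) * (X (i + 1) * X (i + 2) ^ (m + 1)) : R3 F) =
            X (i + 1) ^ (0 + 2) * X (i + 2) ^ (m + 1) := by ring
        rw [← mul_smul, e1, ← neg_neg ((X (i + 1) ^ (0 + 2) * X (i + 2) ^ (m + 1) : R3 F) • GG e),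
          ← neg_smul, ← h]
        refine Submodule.neg_mem _ (Submodule.subset_span ⟨i, ?_⟩)
        simp only
        congr 1
        ring
      · refine Submodule.subset_span ⟨i, ?_⟩
        simp only
        rw [← mul_smul]
        congr 1
        ring
    | zero => rw [smul_zero]; exact Submodule.zero_mem _
    | add a b _ _ ha hb => rw [smul_add]; exact Submodule.add_mem _ ha hb
    | smul c a _ ha =>
      rw [← C_smul_eq c a, ← mul_smul, mul_comm, mul_smul]
      exact C_mem _ ha

/-- An element independent of `i` whose sum is zero is zero. -/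
private theorem indep_zero (F : Type*) [Field F] [CharZero F] {Q : Type*} [AddCommGroup Q]
    [Module F Q] {f : Fin 3 → Q} (h : ∀ i j, f i = f j) (hs : f 0 + f 1 + f 2 = 0)
    (i : Fin 3) : f i = 0 := by
  have h3 : (3 : F) • f i = 0 := by
    have h0 := h i 0
    have h1 := h i 1
    have h2 := h i 2
    linear_combination (norm := module) h0 + h1 + h2 + hs
  exact (smul_eq_zero.1 h3).resolve_left three_ne_zero

/-- Two scalars with a nonzero one. -/
private theorem two_cancel {al be : F} (hab : (al, be) ≠ (0, 0)) {v : Q}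
    (h1 : (C al : R3 F) • v = 0) (h2 : (C be : R3 F) • v = 0) : v = 0 := by
  by_cases ha : al = 0
  · have hb : be ≠ 0 := fun hb => hab (by rw [ha, hb])
    exact C_cancel hb h2
  · exact C_cancel ha h1

private theorem A3_ss {e : Fin 3 → Q} (hE : ERel F e) (h1 : KRel e (1 : F) 0 0)
    (h2 : KRel e (0 : F) 1 (-1/3)) : (s1 ^ 2 : R3 F) • GG e = 0 := by
  have h := caseA_q hE h1 h2 0
  have h3 : (-1/3 : F) ≠ 0 := by norm_num
  refine C_cancel h3 ?_
  rw [← mul_smul]
  convert h using 2
  rw [show (3 * 0 : F) = 0 by ring, show (1 + 0 + 3 * (-1/3) : F) = 0 by ring, map_zero]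
  ring

/-- `9 t_i e_i = (3 t_i - s1) G`. -/
private theorem A3_P {e : Fin 3 → Q} (hE : ERel F e)
    (h2 : KRel e (0 : F) 1 (-1/3)) (i : Fin 3) :
    (9 * X i : R3 F) • e i = (3 * X i - s1 : R3 F) • GG e := by
  have h := A_P hE h2 i
  have h3 : (3 : R3 F) * C (-1/3) = -1 := by
    rw [← map_ofNat C, ← map_mul, ← map_one C, ← map_neg]
    congr 1
    ring
  have e1 : (9 * X i : R3 F) = 3 * (3 * X i) := by ring
  have e2 : (3 * (C (-1/3) * s1 - 3 * C (-1/3) * X i) : R3 F) = 3 * X i - s1 := by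
    linear_combination (s1 - 3 * X i) * h3
  rw [e1, mul_smul, h, ← mul_smul, e2]

/-- `3 s1 e_i = s1 G`. -/
private theorem A3_S {e : Fin 3 → Q} (hE : ERel F e) (h1 : KRel e (1 : F) 0 0)
    (i : Fin 3) : (3 * s1 : R3 F) • e i = (s1 : R3 F) • GG e := by
  have h := A_S hE h1 i
  rw [h, map_zero]
  congr 1
  ring

/-- `s2 G = 0`. -/
private theorem A3_s2 {e : Fin 3 → Q} (hE : ERel F e) (h1 : KRel e (1 : F) 0 0)
    (h2 : KRel e (0 : F) 1 (-1/3)) {al be : F} (hab : (al, be) ≠ (0, 0)) (hA : ARel e al be) :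
    (s2 : R3 F) • GG e = 0 := by
  have hss := A3_ss hE h1 h2
  have P0 := A3_P hE h2 0
  have P1 := A3_P hE h2 1
  have P2 := A3_P hE h2 2
  have hS1 := hA.S1
  have hS2 := hA.S2
  rw [Fin.sum_univ_three] at hS1 hS2
  have h92 : (C (9/2) : R3 F) * 2 = 9 := by
    rw [← map_ofNat C 2, ← map_mul, ← map_ofNat C 9]
    congr 1
    ring
  -- `9 ∑ t_i² e_i = - 6 s2 G`
  have hsum : (9 : R3 F) • ((X 0 ^ 2 : R3 F) • e 0 + (X 1 ^ 2 : R3 F) • e 1 +
      (X 2 ^ 2 : R3 F) • e 2) = (-6 * s2 : R3 F) • GG e := by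
    simp only [s1, s2] at P0 P1 P2 hss ⊢
    linear_combination (norm := module) (X 0 : R3 F) • P0 + (X 1 : R3 F) • P1 +
      (X 2 : R3 F) • P2 + (2 : R3 F) • hss
  have k1 : (C (3 * al - 2 * be) : R3 F) • (s2 : R3 F) • GG e = 0 := by
    refine C_cancel (F := F) (z := 3) three_ne_zero ?_
    simp only [map_ofNat] at hS1 ⊢
    linear_combination (norm := module) (-9 : R3 F) • hS1 +
      (2 * C (3 * al - 2 * be) : R3 F) • hsum
  have k2 : (C (-4 * al + be) : R3 F) • (s2 : R3 F) • GG e = 0 := by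
    refine C_cancel (F := F) (z := 9) (by norm_num) ?_
    have hS2' : (18 : R3 F) • ((C al : R3 F) • ((s1 ^ 2 - C 6 * s2 : R3 F) • GG e - (C 6 : R3 F)
      • ((X 0 ^ 2 : R3 F) • e 0 + (X 1 ^ 2 : R3 F) • e 1 + (X 2 ^ 2 : R3 F) • e 2))) +
      (C be : R3 F) • ((81 * s2 : R3 F) • GG e + (108 : R3 F) • ((X 0 ^ 2 : R3 F) • e 0 +
      (X 1 ^ 2 : R3 F) • e 1 + (X 2 ^ 2 : R3 F) • e 2)) = 0 := by
      have e1 : (81 * s2 : R3 F) = 18 * (C (9/2) * s2) := by
        linear_combination (-9 * s2) * h92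
      rw [e1]
      simp only [map_ofNat] at hS2 ⊢
      linear_combination (norm := module) (18 : R3 F) • hS2
    simp only [map_ofNat, map_add, map_mul, map_neg] at hS2' ⊢
    linear_combination (norm := module) hS2' - (18 * C al : R3 F) • hss +
      (12 * C al - 12 * C be : R3 F) • hsum
  refine two_cancel hab (C_cancel (F := F) (z := -5) (by norm_num) ?_)
    (C_cancel (F := F) (z := -5) (by norm_num) ?_)
  · simp only [map_ofNat, map_add, map_mul, map_neg, map_sub] at k1 k2 ⊢
    linear_combination (norm := module) k1 + (2 : R3 F) • k2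
  · simp only [map_ofNat, map_add, map_mul, map_neg, map_sub] at k1 k2 ⊢
    linear_combination (norm := module) (4 : R3 F) • k1 + (3 : R3 F) • k2

private theorem half_eq : (2 : R3 F) * C (1/2) = 1 := by
  rw [← map_ofNat C 2, ← map_mul, ← map_one C]
  congr 1
  ring

private theorem c32_eq : (C (3/2) : R3 F) = 3 * C (1/2) := by
  rw [← map_ofNat C 3, ← map_mul]
  congr 1
  ring

private theorem h1v_four (e : Fin 3 → Q) (al be : F) (i : Fin 3) :
    (4 : R3 F) • h1v e al be i = (C al * (6 * s1 * X i - 6 * X i ^ 2) +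
      C be * (s1 ^ 2 - 4 * s1 * X i + 3 * X i ^ 2) : R3 F) • GG e -
      (2 * (C al * (4 * s1 * X i - 6 * X i ^ 2) +
      C be * (s1 ^ 2 - 3 * s1 * X i + 3 * X i ^ 2)) : R3 F) • e i := by
  have h := half_eq (F := F)
  unfold h1v
  rw [c32_eq]
  simp only [map_ofNat]
  match_scalars
  · linear_combination (2 * C al * (3 * s1 * X i - 3 * X i ^ 2) +
      C be * (s1 ^ 2 - 4 * s1 * X i + 3 * X i ^ 2) * (2 * C (1/2) + 1) : R3 F) * h
  · linear_combination (-2 * C be * (s1 ^ 2 - 3 * s1 * X i + 3 * X i ^ 2) : R3 F) * h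

private theorem h3v_two (e : Fin 3 → Q) (al be : F) (i : Fin 3) :
    (2 : R3 F) • h3v e al be i = (C al * (-9 * s1 ^ 2 + 4 * s1 * X i + 3 * X i ^ 2 + 9 * s2) -
      3 * C be * s2 : R3 F) • GG e - (2 * (C al * (-9 * s1 ^ 2 + 9 * s1 * X i + 3 * X i ^ 2 +
      9 * s2) - 3 * C be * s2) : R3 F) • e i := by
  have h := half_eq (F := F)
  unfold h3v
  simp only [map_ofNat]
  match_scalars
  · linear_combination (C al * (-9 * s1 ^ 2 + 4 * s1 * X i + 3 * X i ^ 2 + 9 * s2) -
      3 * C be * s2 : R3 F) * h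
  · ring

/-- `9 s2 e_i = 3 s2 G`. -/
private theorem A3_s2e {e : Fin 3 → Q} (hE : ERel F e)
    (h2 : KRel e (0 : F) 1 (-1/3)) (i : Fin 3) :
    (9 * s2 : R3 F) • e i = (3 * s2 : R3 F) • GG e := by
  have P0 := A3_P hE h2 0
  have P1 := A3_P hE h2 1
  have P2 := A3_P hE h2 2
  simp only [s1, s2, GG] at P0 P1 P2 ⊢
  fin_cases i
  · simp only [Fin.zero_eta]
    linear_combination (norm := module) (X 1 + X 2 : R3 F) • P0 - (X 2 : R3 F) • P1 -
      (X 1 : R3 F) • P2
  · simp only [Fin.mk_one]
    linear_combination (norm := module) (X 0 + X 2 : R3 F) • P1 - (X 2 : R3 F) • P0 -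
      (X 0 : R3 F) • P2
  · simp only [Fin.reduceFinMk]
    linear_combination (norm := module) (X 0 + X 1 : R3 F) • P2 - (X 1 : R3 F) • P0 -
      (X 0 : R3 F) • P1

/-- `3 t_i ^ 2 G = 4 s1 t_i G`. -/
private theorem A3_u {e : Fin 3 → Q} (hE : ERel F e) (h1 : KRel e (1 : F) 0 0)
    (h2 : KRel e (0 : F) 1 (-1/3)) {al be : F} (hab : (al, be) ≠ (0, 0)) (hA : ARel e al be)
    (i : Fin 3) : (3 * X i ^ 2 - 4 * s1 * X i : R3 F) • GG e = 0 := by
  have hss := A3_ss hE h1 h2
  have hs2 := A3_s2 hE h1 h2 hab hA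
  have hf : ∀ i : Fin 3, (36 : R3 F) • h1v e al be i = (C be * (9 * X i ^ 2 - 12 * s1 * X i) +
      C al * (18 * s1 * X i - 18 * X i ^ 2) : R3 F) • GG e := by
    intro i
    have P := A3_P hE h2 i
    have S := A3_S hE h1 i
    have h := h1v_four e al be i
    linear_combination (norm := module) (9 : R3 F) • h -
      (2 * (C al * (4 * s1 - 6 * X i) + C be * (-3 * s1 + 3 * X i)) : R3 F) • P -
      (6 * C be * s1 : R3 F) • S + (8 * C al - 3 * C be : R3 F) • hss
  have hg : ∀ i : Fin 3, (18 : R3 F) • h3v e al be i =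
      (C al * (9 * X i ^ 2 - 12 * s1 * X i) : R3 F) • GG e := by
    intro i
    have P := A3_P hE h2 i
    have S := A3_S hE h1 i
    have T := A3_s2e hE h2 i
    have h := h3v_two e al be i
    linear_combination (norm := module) (9 : R3 F) • h -
      (2 * (C al * (9 * s1 + 3 * X i)) : R3 F) • P + (54 * C al * s1 : R3 F) • S -
      (2 * (9 * C al - 3 * C be) : R3 F) • T + (-9 * C al : R3 F) • hss +
      (27 * C al - 9 * C be : R3 F) • hs2
  have hf0 : ∀ i : Fin 3, (C be * (9 * X i ^ 2 - 12 * s1 * X i) +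
      C al * (18 * s1 * X i - 18 * X i ^ 2) : R3 F) • GG e = 0 := by
    refine indep_zero F (f := fun i => (C be * (9 * X i ^ 2 - 12 * s1 * X i) +
      C al * (18 * s1 * X i - 18 * X i ^ 2) : R3 F) • GG e) (fun i j => ?_) ?_
    · rw [← hf i, ← hf j, hA.H1 i j]
    · simp only [s1, s2] at hss hs2 ⊢
      linear_combination (norm := module) (-3 * C be : R3 F) • hss +
        (-18 * C be + 36 * C al : R3 F) • hs2
  have hg0 : ∀ i : Fin 3, (C al * (9 * X i ^ 2 - 12 * s1 * X i) : R3 F) • GG e = 0 := by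
    refine indep_zero F (f := fun i => (C al * (9 * X i ^ 2 - 12 * s1 * X i) : R3 F) • GG e)
      (fun i j => ?_) ?_
    · rw [← hg i, ← hg j, hA.H3 i j]
    · simp only [s1, s2] at hss hs2 ⊢
      linear_combination (norm := module) (-3 * C al : R3 F) • hss +
        (-18 * C al : R3 F) • hs2
  refine C_cancel (F := F) (z := 3) three_ne_zero ?_
  rw [map_ofNat]
  by_cases ha : al = 0
  · have hb : be ≠ 0 := fun hb => hab (by rw [ha, hb])
    refine C_cancel hb ?_
    have h := hf0 i
    rw [ha, map_zero] at h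
    linear_combination (norm := module) h
  · refine C_cancel ha ?_
    linear_combination (norm := module) hg0 i

/-- Case A3: `z0 = 0`, `z1 = - 1/3`: `s1 ^ 2 G = 0`.  With `ARel`: `S1`, `S2` give `s2 G = 0`
(`∑ t_i ^ 2 e_i = - (2/3) s2 G`, so `(3 al - 2 be) s2 G = 0`, `(- 2 al + be / 2) s2 G = 0`).
Then `H1`: `((al/2 - be/3) s1 t_i + (- al/2 + be/4) t_i ^ 2) G = 0` and
`H3`: `al (- (4/3) s1 t_i + t_i ^ 2) G = 0` (the expressions are independent of `i` and their sum
is zero; `s2 e_i = 0`).  If `al ≠ 0` everything of degree 2 is zero.  If `al = 0`,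
`t_i ^ 2 G = (4/3) s1 t_i G`, `t_j t_k G = (1/3) s1 t_i G`, so degree 2 is spanned by
`s1 t_i G`, and degree 3 is zero because `s1 ^ 2 G = 0`. -/
theorem caseA3_deg2 {e : Fin 3 → Q} (hE : ERel F e) (h1 : KRel e (1 : F) 0 0)
    (h2 : KRel e (0 : F) 1 (-1/3)) {al be : F} (hab : (al, be) ≠ (0, 0)) (hA : ARel e al be) :
    Nm (F := F) e 2 ≤ Submodule.span F
      (Set.range fun i : Fin 3 => (s1 * X i : R3 F) • GG e) := by
  refine (caseA_le hE h1 h2 0).trans (Gm2_le (prod_mem (fun i => Submodule.subset_span ⟨i, rfl⟩)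
    fun i => ?_))
  refine C_cancel' (F := F) (z := 3) three_ne_zero ?_
  have h := A3_u hE h1 h2 hab hA i
  have e1 : (C (3 : F) : R3 F) • (X i * X i : R3 F) • GG e =
      (C (4 : F) : R3 F) • (s1 * X i : R3 F) • GG e := by
    simp only [map_ofNat]
    linear_combination (norm := module) h
  rw [e1]
  exact C_mem _ (Submodule.subset_span ⟨i, rfl⟩)

theorem caseA3_deg3 {e : Fin 3 → Q} (hE : ERel F e) (h1 : KRel e (1 : F) 0 0)
    (h2 : KRel e (0 : F) 1 (-1/3)) {al be : F} (hab : (al, be) ≠ (0, 0)) (hA : ARel e al be)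
    (m : ℕ) : Nm (F := F) e (m + 3) = ⊥ := by
  have hss := A3_ss hE h1 h2
  have hprod : ∀ j k : Fin 3, (X j * X k : R3 F) • GG e ∈ Submodule.span F
      (Set.range fun i : Fin 3 => (s1 * X i : R3 F) • GG e) := by
    refine prod_mem (fun i => Submodule.subset_span ⟨i, rfl⟩) fun i => ?_
    refine C_cancel' (F := F) (z := 3) three_ne_zero ?_
    have h := A3_u hE h1 h2 hab hA i
    have e1 : (C (3 : F) : R3 F) • (X i * X i : R3 F) • GG e =
        (C (4 : F) : R3 F) • (s1 * X i : R3 F) • GG e := by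
      simp only [map_ofNat]
      linear_combination (norm := module) h
    rw [e1]
    exact C_mem _ (Submodule.subset_span ⟨i, rfl⟩)
  have hkill : ∀ v ∈ Submodule.span F (Set.range fun i : Fin 3 => (s1 * X i : R3 F) • GG e),
      (s1 : R3 F) • v = 0 := by
    intro v hv
    induction hv using Submodule.span_induction with
    | mem v hv =>
      obtain ⟨i, rfl⟩ := hv
      linear_combination (norm := module) (X i : R3 F) • hss
    | zero => rw [smul_zero]
    | add a b _ _ ha hb => rw [smul_add, ha, hb, add_zero]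
    | smul c a _ ha => rw [← C_smul_eq c a, ← mul_smul, mul_comm, mul_smul, ha, smul_zero]
  induction m with
  | zero =>
    rw [eq_bot_iff]
    refine Nm_succ_le e 2 _ _ (caseA3_deg2 hE h1 h2 hab hA) fun u hu l => ?_
    induction hu using Submodule.span_induction with
    | mem v hv =>
      obtain ⟨i, rfl⟩ := hv
      rw [Submodule.mem_bot]
      have h := hkill _ (hprod l i)
      linear_combination (norm := module) h
    | zero => rw [smul_zero]; exact Submodule.zero_mem _
    | add a b _ _ ha hb => rw [smul_add]; exact Submodule.add_mem _ ha hb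
    | smul c a _ ha =>
      rw [← C_smul_eq c a, ← mul_smul, mul_comm, mul_smul]
      exact C_mem _ ha
  | succ m ih =>
    rw [eq_bot_iff]
    refine Nm_succ_le e (m + 3) _ _ ih.le fun u hu l => ?_
    rw [Submodule.mem_bot] at hu ⊢
    rw [hu, smul_zero]

/-! ### Case B: `(0, 0, 1) ∈ K` -/

/-- `3 t_i G = s1 G`. -/
theorem caseB_G {e : Fin 3 → Q} (hE : ERel F e) (h : KRel e (0 : F) 0 1) (i : Fin 3) :
    (C 3 * X i : R3 F) • GG e = (s1 : R3 F) • GG e := by
  have h := h.sum hE i
  simp only [map_zero, map_one, map_mul, map_add, map_ofNat] at h ⊢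
  linear_combination (norm := module) h

/-- Case B1: `(x, 1, 0) ∈ K`.  Then `t_j t_k e_i ∈ s1 R_1 <e>` for all `i, j, k`:
`t_i e_i = - x s1 e_i + (x / 3) s1 G`, so `t_i t_k e_i ∈ s1 R_1 <e>`;
`t_j t_k e_i = t_j t_k (G - e_j - e_k)` for `i, j, k` distinct; and
`t_j ^ 2 e_i = t_j (s1 - t_i - t_k) e_i`. -/
theorem caseB1 {e : Fin 3 → Q} (hE : ERel F e) (h : KRel e (0 : F) 0 1) {x : F}
    (h1 : KRel e x 1 0) (m : ℕ) :
    ∀ v ∈ Nm (F := F) e (m + 2), ∃ w ∈ Nm (F := F) e (m + 1), v = (s1 : R3 F) • w := by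
  have hG0 : GG e ∈ Nm (F := F) e 0 := by
    have h : ∀ i : Fin 3, e i ∈ Nm (F := F) e 0 := fun i => by
      simpa using mem_Nm (e := e) (isHomogeneous_one (Fin 3) F) i
    exact Submodule.add_mem _ (Submodule.add_mem _ (h 0) (h 1)) (h 2)
  have he0 : ∀ i : Fin 3, e i ∈ Nm (F := F) e 0 := fun i => by
    simpa using mem_Nm (e := e) (isHomogeneous_one (Fin 3) F) i
  -- the submodule `s1 Nm k`
  let W : ℕ → Submodule F Q := fun k =>
    { carrier := {v | ∃ w ∈ Nm (F := F) e k, v = (s1 : R3 F) • w}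
      add_mem' := by
        rintro a b ⟨w, hw, rfl⟩ ⟨w', hw', rfl⟩
        exact ⟨w + w', Submodule.add_mem _ hw hw', by rw [smul_add]⟩
      zero_mem' := ⟨0, Submodule.zero_mem _, by rw [smul_zero]⟩
      smul_mem' := by
        rintro c a ⟨w, hw, rfl⟩
        refine ⟨c • w, Submodule.smul_mem _ _ hw, ?_⟩
        rw [← C_smul_eq c w, ← C_smul_eq c, ← mul_smul, ← mul_smul, mul_comm] }
  have hW : ∀ k v, v ∈ W k ↔ ∃ w ∈ Nm (F := F) e k, v = (s1 : R3 F) • w := fun k v => Iff.rfl
  have hmain : Nm (F := F) e (m + 2) ≤ W (m + 1) := by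
    induction m with
    | zero =>
      have hGW : ∀ j k : Fin 3, (X j * X k : R3 F) • GG e ∈ W 1 := by
        intro j k
        refine C_cancel' (F := F) (z := 3) three_ne_zero ?_
        have h3 := caseB_G hE h j
        refine ⟨(X k : R3 F) • GG e, ?_, ?_⟩
        · simpa using Nm_smul (X_hom k) hG0
        · linear_combination (norm := module) (X k : R3 F) • h3
      have hSW : ∀ i l : Fin 3, (s1 * X l : R3 F) • e i ∈ W 1 := fun i l =>
        ⟨(X l : R3 F) • e i, by simpa using Nm_smul (X_hom l) (he0 i), by rw [mul_smul]⟩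
      have hSG : ∀ l : Fin 3, (s1 * X l : R3 F) • GG e ∈ W 1 := fun l =>
        ⟨(X l : R3 F) • GG e, by simpa using Nm_smul (X_hom l) hG0, by rw [mul_smul]⟩
      refine Nm2_le fun i j k => deg2_mem (fun i l => ?_) hSW hGW i j k
      refine C_cancel' (F := F) (z := 3) three_ne_zero ?_
      have hs := h1.sum hE i
      have e1 : (C (3 : F) : R3 F) • (X l * X i : R3 F) • e i =
          (C x : R3 F) • (s1 * X l : R3 F) • GG e -
          (C (3 * x) : R3 F) • (s1 * X l : R3 F) • e i := by
        simp only [map_zero, map_one, map_mul, map_add, map_ofNat] at hs ⊢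
        linear_combination (norm := module) (X l : R3 F) • hs
      rw [e1]
      exact Submodule.sub_mem _ (C_mem _ (hSG l)) (C_mem _ (hSW i l))
    | succ m ih =>
      refine Nm_succ_le e (m + 2) _ _ ih fun u hu l => ?_
      obtain ⟨w, hw, rfl⟩ := hu
      exact ⟨(X l : R3 F) • w, Nm_smul (X_hom l) hw, by rw [← mul_smul, ← mul_smul, mul_comm]⟩
  exact fun v hv => hmain hv

private theorem B2_ss {e : Fin 3 → Q} (hE : ERel F e) (h1 : KRel e (1 : F) 0 0) :
    (s1 ^ 2 : R3 F) • GG e = 0 := by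
  have S := fun i => A3_S hE h1 i
  have S0 := S 0
  have S1 := S 1
  have S2 := S 2
  unfold ERel at hE
  rw [Fin.sum_univ_three] at hE
  simp only [s1] at S0 S1 S2 ⊢
  linear_combination (norm := module) (3 * (X 0 + X 1 + X 2) : R3 F) • hE -
    (X 0 : R3 F) • S0 - (X 1 : R3 F) • S1 - (X 2 : R3 F) • S2

private theorem B2_XG {e : Fin 3 → Q} (hE : ERel F e) (h : KRel e (0 : F) 0 1)
    (h1 : KRel e (1 : F) 0 0) (j k : Fin 3) : (X j * X k : R3 F) • GG e = 0 := by
  have hss := B2_ss hE h1
  have hj := caseB_G hE h j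
  have hk := caseB_G hE h k
  refine C_cancel (F := F) (z := 9) (by norm_num) ?_
  simp only [map_ofNat] at hj hk ⊢
  linear_combination (norm := module) (3 * X k : R3 F) • hj + (s1 : R3 F) • hk + hss

private theorem B2_sX {e : Fin 3 → Q} (hE : ERel F e) (h : KRel e (0 : F) 0 1)
    (h1 : KRel e (1 : F) 0 0) (i j : Fin 3) : (s1 * X j : R3 F) • e i = 0 := by
  have hss := B2_ss hE h1
  have hj := caseB_G hE h j
  have hS := A3_S hE h1 i
  refine C_cancel (F := F) (z := 9) (by norm_num) ?_
  simp only [map_ofNat] at hj ⊢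
  linear_combination (norm := module) (3 * X j : R3 F) • hS + (s1 : R3 F) • hj + hss

/-- `s2 e_i = - 3 t_i ^ 2 e_i + ∑ t_l ^ 2 e_l`. -/
private theorem B2_s2e {e : Fin 3 → Q} (hE : ERel F e) (h : KRel e (0 : F) 0 1)
    (h1 : KRel e (1 : F) 0 0) (i : Fin 3) : (s2 : R3 F) • e i + (3 * X i ^ 2 : R3 F) • e i -
      ((X 0 ^ 2 : R3 F) • e 0 + (X 1 ^ 2 : R3 F) • e 1 + (X 2 ^ 2 : R3 F) • e 2) = 0 := by
  have G12 := B2_XG hE h h1 1 2
  have G02 := B2_XG hE h h1 0 2
  have G01 := B2_XG hE h h1 0 1
  have s00 := B2_sX hE h h1 0 0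
  have s11 := B2_sX hE h h1 1 1
  have s22 := B2_sX hE h h1 2 2
  unfold ERel at hE
  rw [Fin.sum_univ_three] at hE
  simp only [s1, s2, GG] at G12 G02 G01 s00 s11 s22 ⊢
  fin_cases i
  · simp only [Fin.zero_eta]
    linear_combination (norm := module) (2 : R3 F) • s00 + G12 - (X 1 + X 2 : R3 F) • hE
  · simp only [Fin.mk_one]
    linear_combination (norm := module) (2 : R3 F) • s11 + G02 - (X 0 + X 2 : R3 F) • hE
  · simp only [Fin.reduceFinMk]
    linear_combination (norm := module) (2 : R3 F) • s22 + G01 - (X 0 + X 1 : R3 F) • hE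

private theorem B2_M {e : Fin 3 → Q} (hE : ERel F e) (h : KRel e (0 : F) 0 1)
    (h1 : KRel e (1 : F) 0 0) {al be : F} (hab : (al, be) ≠ (0, 0)) (hA : ARel e al be) :
    (X 0 ^ 2 : R3 F) • e 0 + (X 1 ^ 2 : R3 F) • e 1 + (X 2 ^ 2 : R3 F) • e 2 = 0 := by
  have G12 := B2_XG hE h h1 1 2
  have G02 := B2_XG hE h h1 0 2
  have G01 := B2_XG hE h h1 0 1
  have hss := B2_ss hE h1
  have hs2 : (s2 : R3 F) • GG e = 0 := by
    simp only [s2]
    linear_combination (norm := module) G12 + G02 + G01
  have hS1 := hA.S1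
  have hS2 := hA.S2
  rw [Fin.sum_univ_three] at hS1 hS2
  have k1 : (C (3 * al - 2 * be) : R3 F) • ((X 0 ^ 2 : R3 F) • e 0 + (X 1 ^ 2 : R3 F) • e 1 +
      (X 2 ^ 2 : R3 F) • e 2) = 0 := by
    refine C_cancel (F := F) (z := 2) two_ne_zero ?_
    simp only [map_ofNat] at hS1 ⊢
    linear_combination (norm := module) hS1 - (C (3 * al - 2 * be) : R3 F) • hs2
  have k2 : (C (be - al) : R3 F) • ((X 0 ^ 2 : R3 F) • e 0 + (X 1 ^ 2 : R3 F) • e 1 +
      (X 2 ^ 2 : R3 F) • e 2) = 0 := by
    refine C_cancel (F := F) (z := 6) (by norm_num) ?_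
    simp only [map_ofNat, map_sub] at hS2 ⊢
    linear_combination (norm := module) hS2 - (C al : R3 F) • hss +
      (6 * C al - C be * C (9/2) : R3 F) • hs2
  refine two_cancel hab ?_ ?_
  · simp only [map_ofNat, map_mul, map_sub] at k1 k2 ⊢
    linear_combination (norm := module) k1 + (2 : R3 F) • k2
  · simp only [map_ofNat, map_mul, map_sub] at k1 k2 ⊢
    linear_combination (norm := module) k1 + (3 : R3 F) • k2

private theorem B2_T {e : Fin 3 → Q} (hE : ERel F e) (h : KRel e (0 : F) 0 1)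
    (h1 : KRel e (1 : F) 0 0) {al be : F} (hab : (al, be) ≠ (0, 0)) (hA : ARel e al be)
    (i : Fin 3) : (X i * X i : R3 F) • e i = 0 := by
  have hM := B2_M hE h h1 hab hA
  have G12 := B2_XG hE h h1 1 2
  have G02 := B2_XG hE h h1 0 2
  have G01 := B2_XG hE h h1 0 1
  have hss := B2_ss hE h1
  have hs2 : (s2 : R3 F) • GG e = 0 := by
    simp only [s2]
    linear_combination (norm := module) G12 + G02 + G01
  have hse : ∀ i : Fin 3, (s1 ^ 2 : R3 F) • e i = 0 := by
    intro i
    have h0 := B2_sX hE h h1 i 0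
    have h1' := B2_sX hE h h1 i 1
    have h2' := B2_sX hE h h1 i 2
    simp only [s1] at h0 h1' h2' ⊢
    linear_combination (norm := module) h0 + h1' + h2'
  have hsG : ∀ i : Fin 3, (s1 * X i : R3 F) • GG e = 0 := by
    intro i
    have h0 := B2_XG hE h h1 0 i
    have h1' := B2_XG hE h h1 1 i
    have h2' := B2_XG hE h h1 2 i
    simp only [s1]
    linear_combination (norm := module) h0 + h1' + h2'
  have hf : ∀ i : Fin 3, (4 : R3 F) • h1v e al be i =
      (12 * C al - 6 * C be : R3 F) • (X i * X i : R3 F) • e i := by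
    intro i
    have hs := B2_sX hE h h1 i i
    have hg := B2_XG hE h h1 i i
    have h4 := h1v_four e al be i
    linear_combination (norm := module) h4 - (8 * C al - 6 * C be : R3 F) • hs -
      (2 * C be : R3 F) • hse i + (6 * C al - 4 * C be : R3 F) • hsG i +
      (-6 * C al + 3 * C be : R3 F) • hg + (C be : R3 F) • hss
  have hg : ∀ i : Fin 3, (2 : R3 F) • h3v e al be i =
      (48 * C al - 18 * C be : R3 F) • (X i * X i : R3 F) • e i := by
    intro i
    have hs := B2_sX hE h h1 i i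
    have hg := B2_XG hE h h1 i i
    have h4 := h3v_two e al be i
    have h5 := B2_s2e hE h h1 i
    linear_combination (norm := module) h4 - (18 * C al : R3 F) • hs +
      (18 * C al : R3 F) • hse i - (18 * C al - 6 * C be : R3 F) • h5 -
      (18 * C al - 6 * C be : R3 F) • hM - (9 * C al : R3 F) • hss +
      (4 * C al : R3 F) • hsG i + (3 * C al : R3 F) • hg + (9 * C al - 3 * C be : R3 F) • hs2
  have hf0 : (12 * C al - 6 * C be : R3 F) • (X i * X i : R3 F) • e i = 0 := by
    refine indep_zero F (f := fun i => (12 * C al - 6 * C be : R3 F) •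
      (X i * X i : R3 F) • e i) (fun i j => ?_) ?_ i
    · rw [← hf i, ← hf j, hA.H1 i j]
    · linear_combination (norm := module) (12 * C al - 6 * C be : R3 F) • hM
  have hg0 : (48 * C al - 18 * C be : R3 F) • (X i * X i : R3 F) • e i = 0 := by
    refine indep_zero F (f := fun i => (48 * C al - 18 * C be : R3 F) •
      (X i * X i : R3 F) • e i) (fun i j => ?_) ?_ i
    · rw [← hg i, ← hg j, hA.H3 i j]
    · linear_combination (norm := module) (48 * C al - 18 * C be : R3 F) • hM
  refine two_cancel hab ?_ ?_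
  · refine C_cancel (F := F) (z := -12) (by norm_num) ?_
    simp only [map_ofNat, map_neg]
    linear_combination (norm := module) (3 : R3 F) • hf0 - hg0
  · refine C_cancel (F := F) (z := -6) (by norm_num) ?_
    simp only [map_ofNat, map_neg]
    linear_combination (norm := module) (4 : R3 F) • hf0 - hg0

/-- Case B2: `(1, 0, 0) ∈ K`: `s1 e_i = (1/3) s1 G`, `t_i G = (1/3) s1 G`, so `s1 ^ 2 G = 0`
(`0 = s1 ∑ t_i e_i`), `R_2 G = 0`, `s1 R_1 <e> = 0`.  With `M = (1/3) ∑ t_i ^ 2 e_i` one has
`s2 e_i = - 3 (t_i ^ 2 e_i - M)` (a consequence of `∑ t_l e_l = 0`, `s1 = 0`, `G = 0`);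
`S1`, `S2` give `(3 al - 2 be) M = 0`, `(be - al) M = 0`, so `M = 0`; then `H1`, `H3` give
`(2 al - be) t_i ^ 2 e_i = 0`, `(- 8 al + 3 be) t_i ^ 2 e_i = 0`.  Hence `t_i ^ 2 e_i = 0`,
`s2 e_i = 0`, `t_j t_k e_i = s2 e_i + t_i ^ 2 e_i = 0` (`i, j, k` distinct), and the rest of
degree 2 is spanned by `t_2 ^ 2 e_0`. -/
theorem caseB2_deg2 {e : Fin 3 → Q} (hE : ERel F e) (h : KRel e (0 : F) 0 1)
    (h1 : KRel e (1 : F) 0 0) {al be : F} (hab : (al, be) ≠ (0, 0)) (hA : ARel e al be) :
    Nm (F := F) e 2 ≤ Submodule.span F {(X 2 ^ 2 : R3 F) • e 0} := by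
  have T := fun i => B2_T hE h h1 hab hA i
  have hM := B2_M hE h h1 hab hA
  have D := fun i => B2_s2e hE h h1 i
  have sX := fun i j => B2_sX hE h h1 i j
  have XG := fun j k => B2_XG hE h h1 j k
  have T0 := T 0
  have T1 := T 1
  have T2 := T 2
  have D0 := D 0
  have D1 := D 1
  have D2 := D 2
  have s00 := sX 0 0
  have s01 := sX 0 1
  have s02 := sX 0 2
  have s10 := sX 1 0
  have s11 := sX 1 1
  have s12 := sX 1 2
  have s20 := sX 2 0
  have s21 := sX 2 1
  have s22 := sX 2 2
  have g11 := XG 1 1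
  have g22 := XG 2 2
  simp only [s1, s2, GG] at D0 D1 D2 s00 s01 s02 s10 s11 s12 s20 s21 s22 g11 g22
  have a0 : (X 1 * X 2 : R3 F) • e 0 = 0 := by
    linear_combination (norm := module) D0 + hM - s00 - (2 : R3 F) • T0
  have a1 : (X 0 * X 2 : R3 F) • e 1 = 0 := by
    linear_combination (norm := module) D1 + hM - s11 - (2 : R3 F) • T1
  have a2 : (X 0 * X 1 : R3 F) • e 2 = 0 := by
    linear_combination (norm := module) D2 + hM - s22 - (2 : R3 F) • T2
  have w02 : (X 0 * X 2 : R3 F) • e 0 = -((X 2 ^ 2 : R3 F) • e 0) := by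
    linear_combination (norm := module) s02 - a0
  have w01 : (X 0 * X 1 : R3 F) • e 0 = (X 2 ^ 2 : R3 F) • e 0 := by
    linear_combination (norm := module) s00 - T0 - w02
  have w11 : (X 1 * X 1 : R3 F) • e 0 = -((X 2 ^ 2 : R3 F) • e 0) := by
    linear_combination (norm := module) s01 - w01 - a0
  have u22 : (X 2 * X 2 : R3 F) • e 1 = -((X 2 ^ 2 : R3 F) • e 0) := by
    linear_combination (norm := module) g22 - T2
  have u12 : (X 1 * X 2 : R3 F) • e 1 = (X 2 ^ 2 : R3 F) • e 0 := by
    linear_combination (norm := module) s12 - a1 - u22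
  have u01 : (X 0 * X 1 : R3 F) • e 1 = -((X 2 ^ 2 : R3 F) • e 0) := by
    linear_combination (norm := module) s11 - T1 - u12
  have u00 : (X 0 * X 0 : R3 F) • e 1 = (X 2 ^ 2 : R3 F) • e 0 := by
    linear_combination (norm := module) s10 - u01 - a1
  have v11 : (X 1 * X 1 : R3 F) • e 2 = (X 2 ^ 2 : R3 F) • e 0 := by
    linear_combination (norm := module) g11 - w11 - T1
  have v12 : (X 1 * X 2 : R3 F) • e 2 = -((X 2 ^ 2 : R3 F) • e 0) := by
    linear_combination (norm := module) s21 - a2 - v11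
  have v02 : (X 0 * X 2 : R3 F) • e 2 = (X 2 ^ 2 : R3 F) • e 0 := by
    linear_combination (norm := module) s22 - T2 - v12
  have v00 : (X 0 * X 0 : R3 F) • e 2 = -((X 2 ^ 2 : R3 F) • e 0) := by
    linear_combination (norm := module) s20 - a2 - v02
  set V := Submodule.span F {(X 2 ^ 2 : R3 F) • e 0} with hV
  have hw : (X 2 ^ 2 : R3 F) • e 0 ∈ V := Submodule.subset_span rfl
  have hz : ∀ {v : Q}, v = 0 → v ∈ V := fun hv => by rw [hv]; exact V.zero_mem
  have hp : ∀ {v : Q}, v = (X 2 ^ 2 : R3 F) • e 0 → v ∈ V := fun hv => by rw [hv]; exact hw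
  have hn : ∀ {v : Q}, v = -((X 2 ^ 2 : R3 F) • e 0) → v ∈ V := fun hv => by
    rw [hv]; exact V.neg_mem hw
  refine Nm2_le fun i j k => ?_
  have hsym : ∀ j k : Fin 3, (X j * X k : R3 F) • e i ∈ V → (X k * X j : R3 F) • e i ∈ V :=
    fun j k hjk => by rwa [mul_comm]
  fin_cases i <;> fin_cases j <;> fin_cases k
  · exact hz T0
  · exact hp w01
  · exact hn w02
  · exact hsym 0 1 (hp w01)
  · exact hn w11
  · exact hz a0
  · exact hsym 0 2 (hn w02)
  · exact hsym 1 2 (hz a0)
  · exact hp (by simp only [Fin.reduceFinMk, Fin.zero_eta, sq])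
  · exact hp u00
  · exact hn u01
  · exact hz a1
  · exact hsym 0 1 (hn u01)
  · exact hz T1
  · exact hp u12
  · exact hsym 0 2 (hz a1)
  · exact hsym 1 2 (hp u12)
  · exact hn u22
  · exact hn v00
  · exact hz a2
  · exact hp v02
  · exact hsym 0 1 (hz a2)
  · exact hp v11
  · exact hn v12
  · exact hsym 0 2 (hp v02)
  · exact hsym 1 2 (hn v12)
  · exact hz T2

/-- Degree 3 is zero: `t_i t_m ^ 2 e_i = - t_i ^ 2 t_m e_i = 0` since
`t_i t_m e_i = - t_m ^ 2 e_i`. -/
theorem caseB2_deg3 {e : Fin 3 → Q} (hE : ERel F e) (h : KRel e (0 : F) 0 1)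
    (h1 : KRel e (1 : F) 0 0) {al be : F} (hab : (al, be) ≠ (0, 0)) (hA : ARel e al be)
    (m : ℕ) : Nm (F := F) e (m + 3) = ⊥ := by
  have T0 := B2_T hE h h1 hab hA 0
  have hM := B2_M hE h h1 hab hA
  have D0 := B2_s2e hE h h1 0
  have s00 := B2_sX hE h h1 0 0
  have s02 := B2_sX hE h h1 0 2
  simp only [s1, s2] at D0 s00 s02
  have a0 : (X 1 * X 2 : R3 F) • e 0 = 0 := by
    linear_combination (norm := module) D0 + hM - s00 - (2 : R3 F) • T0
  have w02 : (X 0 * X 2 : R3 F) • e 0 = -((X 2 ^ 2 : R3 F) • e 0) := by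
    linear_combination (norm := module) s02 - a0
  have k0 : (X 0 : R3 F) • (X 2 ^ 2 : R3 F) • e 0 = 0 := by
    linear_combination (norm := module) (X 0 : R3 F) • w02 - (X 2 : R3 F) • T0
  have k1 : (X 1 : R3 F) • (X 2 ^ 2 : R3 F) • e 0 = 0 := by
    linear_combination (norm := module) (X 2 : R3 F) • a0
  have k2 : (X 2 : R3 F) • (X 2 ^ 2 : R3 F) • e 0 = 0 := by
    linear_combination (norm := module) (X 2 : R3 F) • w02 - k0
  induction m with
  | zero =>
    rw [eq_bot_iff]
    refine Nm_succ_le e 2 _ _ (caseB2_deg2 hE h h1 hab hA) fun u hu l => ?_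
    obtain ⟨c, rfl⟩ := Submodule.mem_span_singleton.1 hu
    rw [Submodule.mem_bot, ← C_smul_eq, ← mul_smul, mul_comm, mul_smul]
    fin_cases l
    · rw [show (X (⟨0, by decide⟩ : Fin 3) : R3 F) = X 0 from rfl, k0, smul_zero]
    · rw [show (X (⟨1, by decide⟩ : Fin 3) : R3 F) = X 1 from rfl, k1, smul_zero]
    · rw [show (X (⟨2, by decide⟩ : Fin 3) : R3 F) = X 2 from rfl, k2, smul_zero]
  | succ m ih =>
    rw [eq_bot_iff]
    refine Nm_succ_le e (m + 3) _ _ ih.le fun u hu l => ?_
    rw [Submodule.mem_bot] at hu ⊢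
    rw [hu, smul_zero]

end

end Pool.Agent.Lib.MP_b4a71d_al
end
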