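import Pool.Agent.Lib.MP_b4a71d_al.Mat

/-!
# Levels: the weight spaces `W k d`, the operators `E j`, `D j`, the pseudo-inverse polynomial
-/

set_option autoImplicit false

namespace Pool.Agent.Lib.MP_b4a71d_al

universe u

noncomputable section

open Matrix Polynomial

variable {F : Type u} [Field F]

/-- The content `x_0^d` times the product of the variables in `Y`. -/
def cont (Y : Finset ℕ) (d : ℕ) : Multiset ℕ := Multiset.replicate d 0 + Y.val

/-- The elements of content `cont Y d`. -/
def WW (Y : Finset ℕ) (d : ℕ) : Submodule F (FL F) := HomC (cont Y d)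

/-- The elements of degree `d` in `x = x_0` and of degree one in each of `y_i = x_i`,
`1 ≤ i ≤ k`. -/
def W (k d : ℕ) : Submodule F (FL F) := WW (Finset.Icc 1 k) d

/-- The derivation `y_j -> x`. -/
def E (j : ℕ) : FL F →ₗ[F] FL F := dd j 0

/-- The derivation `x -> y_j`. -/
def D (j : ℕ) : FL F →ₗ[F] FL F := dd 0 j

/-- The operator `∑ D_j E_j`. -/
def Om (Y : Finset ℕ) : Module.End F (FL F) := ∑ j ∈ Y, (D j : Module.End F (FL F)) * E j

/-- The part of `WW Y d` which comes from lower levels. -/
def Lam (Y : Finset ℕ) (d : ℕ) : Submodule F (FL F) :=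
  ⨆ j ∈ Y, (WW (F := F) (Y.erase j) (d + 1)).map (D j)

/-- Stability under the permutations of the variables in `Y`. -/
def Stab (Y : Finset ℕ) (U : Submodule F (FL F)) : Prop :=
  ∀ σ : Equiv.Perm ℕ, (∀ i, i ∉ Y → σ i = i) → ∀ f ∈ U, ren σ f ∈ U

/-- The subspaces which occur at the level `(k, d)` modulo `T`. -/
structure LevU (T : Submodule F (FL F)) (k d : ℕ) (U : Submodule F (FL F)) : Prop where
  lam_le : Lam (Finset.Icc 1 k) d ≤ U
  T_le : T ⊓ W k d ≤ U
  le_W : U ≤ W k d
  stab : Stab (Finset.Icc 1 k) U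

/-- The lattice of level `(k, d)` modulo `T` is distributive. -/
def LevelGood (T : Submodule F (FL F)) (k d : ℕ) : Prop :=
  ∀ U1 U2 U3 : Submodule F (FL F), LevU T k d U1 → LevU T k d U2 → LevU T k d U3 →
    U1 ⊓ (U2 ⊔ U3) ≤ (U1 ⊓ U2) ⊔ (U1 ⊓ U3)

/-- Distributivity in degree `n` of the lattice of T-ideals containing `T`. -/
def DistAt (T : Submodule F (FL F)) (n : ℕ) : Prop :=
  ∀ A B C : Submodule F (FL F), IsTIdeal F A → IsTIdeal F B → IsTIdeal F C →
    T ≤ A → T ≤ B → T ≤ C → A ⊓ (B ⊔ C) ⊓ P n ≤ (A ⊓ B) ⊔ (A ⊓ C)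

/-- Distributivity of the lattice of symmetric group submodules of `P n` containing `T ∩ P n`. -/
def DistP (T : Submodule F (FL F)) (n : ℕ) : Prop :=
  ∀ A B C : Submodule F (FL F), A ≤ P n → B ≤ P n → C ≤ P n →
    Stab (Finset.range n) A → Stab (Finset.range n) B → Stab (Finset.range n) C →
    T ⊓ P n ≤ A → T ⊓ P n ≤ B → T ⊓ P n ≤ C → A ⊓ (B ⊔ C) ≤ (A ⊓ B) ⊔ (A ⊓ C)

/-! ### Monomials as relabelings of multilinear monomials -/

theorem exists_lab {s : Multiset ℕ} {f : FL F} (h : IsMonoC s f) :
    ∃ (l : ℕ → ℕ) (u : FL F), IsMonoC (Multiset.range (Multiset.card s)) u ∧ f = ren l u ∧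
      s = (Multiset.range (Multiset.card s)).map l := by
  induction h with
  | var i =>
    refine ⟨fun _ => i, X F 0, ?_, ?_, ?_⟩
    · have : Multiset.range (Multiset.card ({i} : Multiset ℕ)) = {0} := by
        rw [Multiset.card_singleton]
        rfl
      rw [this]
      exact IsMonoC.var 0
    · rw [ren_X]
    · rw [Multiset.card_singleton]
      rfl
  | @brac s t a b ha hb ih1 ih2 =>
    obtain ⟨l1, u1, hu1, ha1, hs⟩ := ih1
    obtain ⟨l2, u2, hu2, hb1, ht⟩ := ih2
    have hren : ∀ (g : ℕ → ℕ) {s : Multiset ℕ} {f : FL F}, IsMonoC s f →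
        IsMonoC (s.map g) (ren g f) := by
      intro g s f h
      induction h with
      | var i =>
        rw [ren_X, Multiset.map_singleton]
        exact IsMonoC.var _
      | brac _ _ h1 h2 =>
        rw [LieHom.map_lie, Multiset.map_add]
        exact IsMonoC.brac h1 h2
    refine ⟨fun p => if p < Multiset.card s then l1 p else l2 (p - Multiset.card s),
      ⁅u1, ren (fun p => Multiset.card s + p) u2⁆, ?_, ?_, ?_⟩
    · rw [Multiset.card_add, Multiset.range_add]
      exact IsMonoC.brac hu1 (hren _ hu2)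
    · rw [LieHom.map_lie]
      congr 1
      · rw [ha1]
        apply hom_congr hu1.mem
        intro i hi
        rw [Multiset.mem_range] at hi
        rw [ren_X, ren_X, if_pos hi]
      · rw [hb1, ren_ren]
        apply hom_congr hu2.mem
        intro i _
        rw [ren_X, ren_X, Function.comp_apply, if_neg (by omega)]
        congr 1
        congr 1
        omega
    · rw [Multiset.card_add, Multiset.range_add, Multiset.map_add, Multiset.map_map]
      congr 1
      · conv_lhs => rw [hs]
        apply Multiset.map_congr rfl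
        intro i hi
        rw [Multiset.mem_range] at hi
        rw [if_pos hi]
      · conv_lhs => rw [ht]
        apply Multiset.map_congr rfl
        intro i _
        rw [Function.comp_apply, if_neg (by omega)]
        congr 1
        omega

/-- A labeling of the positions `0, ..., n - 1` by variables. -/
def lab {n m : ℕ} (l : Fin n → Fin m) : ℕ → ℕ := fun p => if h : p < n then (l ⟨p, h⟩ : ℕ) else 0

theorem lab_coe {n m : ℕ} (l : Fin n → Fin m) (p : Fin n) : lab l (p : ℕ) = l p := by
  rw [lab, dif_pos p.2]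

theorem dd_lab {n m : ℕ} (a b : Fin m) (l : Fin n → Fin m) {s : Multiset ℕ} {f : FL F}
    (hf : f ∈ HomC s) (hs : s.Nodup) (hn : ∀ i ∈ s, i < n) :
    dd (a : ℕ) (b : ℕ) (ren (lab l) f) =
      ∑ p : Fin n, if (p : ℕ) ∈ s ∧ l p = a then ren (lab (Function.update l p b)) f else 0 := by
  classical
  have hnot : ∀ {s : Multiset ℕ} {f : FL F}, f ∈ HomC s → ∀ p : Fin n, (p : ℕ) ∉ s →
      ren (lab (Function.update l p b)) f = ren (lab l) f := by
    intro s f hf p hp
    apply hom_congr hf
    intro i hi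
    rw [ren_X, ren_X]
    congr 1
    by_cases h : i < n
    · rw [show i = ((⟨i, h⟩ : Fin n) : ℕ) from rfl, lab_coe, lab_coe, Function.update_of_ne]
      rintro rfl
      exact hp hi
    · rw [lab, lab, dif_neg h, dif_neg h]
  revert hs hn
  refine homC_induction (p := fun s f => s.Nodup → (∀ i ∈ s, i < n) →
    dd (a : ℕ) (b : ℕ) (ren (lab l) f) =
      ∑ p : Fin n, if (p : ℕ) ∈ s ∧ l p = a then ren (lab (Function.update l p b)) f else 0)
      ?_ ?_ ?_ ?_ ?_ hf
  · intro i _ hi
    have hin : i < n := hi i (Multiset.mem_singleton_self i)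
    rw [Finset.sum_eq_single (⟨i, hin⟩ : Fin n)]
    · rw [ren_X, ren_X]
      have h1 : lab l i = l ⟨i, hin⟩ := lab_coe l ⟨i, hin⟩
      have h2 : lab (Function.update l ⟨i, hin⟩ b) i = b := by
        have := lab_coe (Function.update l ⟨i, hin⟩ b) ⟨i, hin⟩
        rw [Function.update_self] at this
        exact this
      rw [h1, h2]
      by_cases h : l ⟨i, hin⟩ = a
      · rw [h, dd_X_same, if_pos ⟨Multiset.mem_singleton_self i, rfl⟩]
      · rw [dd_X_ne (fun h3 => h (Fin.ext h3)), if_neg (fun h3 => h h3.2)]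
    · intro p _ hp
      rw [if_neg]
      rintro ⟨h1, _⟩
      rw [Multiset.mem_singleton] at h1
      exact hp (Fin.ext h1)
    · intro h
      exact absurd (Finset.mem_univ _) h
  · intro s t f g hf hg h1 h2 hs hn
    have hnd := Multiset.nodup_add.1 hs
    rw [LieHom.map_lie, dd_lie, h1 hnd.1 (fun i hi => hn i (Multiset.mem_add.2 (Or.inl hi))),
      h2 hnd.2.1 (fun i hi => hn i (Multiset.mem_add.2 (Or.inr hi))), lie_sum, sum_lie,
      ← Finset.sum_add_distrib]
    apply Finset.sum_congr rfl
    intro p _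
    by_cases hl : l p = a
    · by_cases hps : (p : ℕ) ∈ s
      · have hpt : (p : ℕ) ∉ t := Multiset.disjoint_left.1 hnd.2.2 hps
        rw [if_neg (fun h => hpt h.1), if_pos ⟨hps, hl⟩,
          if_pos ⟨Multiset.mem_add.2 (Or.inl hps), hl⟩, LieHom.map_lie, lie_zero, zero_add,
          hnot hg p hpt]
      · by_cases hpt : (p : ℕ) ∈ t
        · rw [if_pos ⟨hpt, hl⟩, if_neg (fun h => hps h.1),
            if_pos ⟨Multiset.mem_add.2 (Or.inr hpt), hl⟩, LieHom.map_lie, zero_lie, add_zero,
            hnot hf p hps]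
        · rw [if_neg (fun h => hpt h.1), if_neg (fun h => hps h.1), if_neg, lie_zero, zero_lie,
            add_zero]
          rintro ⟨h, _⟩
          rcases Multiset.mem_add.1 h with h | h
          · exact hps h
          · exact hpt h
    · rw [if_neg (fun h => hl h.2), if_neg (fun h => hl h.2), if_neg (fun h => hl h.2), lie_zero,
        zero_lie, add_zero]
  · intro s _ _
    simp
  · intro s f g _ _ h1 h2 hs hn
    rw [map_add, map_add, h1 hs hn, h2 hs hn, ← Finset.sum_add_distrib]
    apply Finset.sum_congr rfl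
    intro p _
    split_ifs
    · rw [map_add]
    · rw [add_zero]
  · intro s c f _ h1 hs hn
    rw [map_smul, map_smul, h1 hs hn, Finset.smul_sum]
    apply Finset.sum_congr rfl
    intro p _
    split_ifs
    · rw [map_smul]
    · rw [smul_zero]

/-- The matrix of `dd a b` on labelings. -/
def mat (K : Type*) [Semiring K] (n m : ℕ) (a b : Fin m) :
    Matrix (Fin n → Fin m) (Fin n → Fin m) K :=
  fun l' l => ∑ p : Fin n, if l p = a ∧ l' = Function.update l p b then 1 else 0

theorem mat_transpose (K : Type*) [Semiring K] (n m : ℕ) (a b : Fin m) :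
    (mat K n m a b)ᵀ = mat K n m b a := by
  ext l' l
  rw [Matrix.transpose_apply, mat, mat]
  apply Finset.sum_congr rfl
  intro p _
  have : (l' p = a ∧ l = Function.update l' p b) ↔ (l p = b ∧ l' = Function.update l p a) := by
    constructor
    · rintro ⟨h1, h2⟩
      subst h2
      rw [Function.update_self, Function.update_idem, ← h1, Function.update_eq_self]
      exact ⟨rfl, rfl⟩
    · rintro ⟨h1, h2⟩
      subst h2
      rw [Function.update_self, Function.update_idem, ← h1, Function.update_eq_self]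
      exact ⟨rfl, rfl⟩
  simp only [this]

theorem mat_map (F : Type u) [Field F] [CharZero F] (n m : ℕ) (a b : Fin m) :
    mat F n m a b = (mat ℚ n m a b).map (algebraMap ℚ F) := by
  ext l' l
  rw [Matrix.map_apply, mat, mat, map_sum]
  apply Finset.sum_congr rfl
  intro p _
  split_ifs
  · rw [map_one]
  · rw [map_zero]

/-- The operator `A` acts on the labelings of `u` through the matrix `M`. -/
def Rel {n m : ℕ} (u : FL F) (A : Module.End F (FL F))
    (M : Matrix (Fin n → Fin m) (Fin n → Fin m) F) : Prop :=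
  ∀ l, A (ren (lab l) u) = ∑ l', M l' l • ren (lab l') u

theorem Rel.mul {n m : ℕ} {u : FL F} {A B : Module.End F (FL F)}
    {M N : Matrix (Fin n → Fin m) (Fin n → Fin m) F} (h1 : Rel u A M) (h2 : Rel u B N) :
    Rel u (A * B) (M * N) := by
  intro l
  rw [Module.End.mul_apply, h2 l, map_sum]
  simp only [map_smul, h1 _, Finset.smul_sum, Matrix.mul_apply, Finset.sum_smul]
  rw [Finset.sum_comm]
  apply Finset.sum_congr rfl
  intro l' _
  apply Finset.sum_congr rfl
  intro l'' _
  rw [smul_smul, mul_comm]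

theorem Rel.add {n m : ℕ} {u : FL F} {A B : Module.End F (FL F)}
    {M N : Matrix (Fin n → Fin m) (Fin n → Fin m) F} (h1 : Rel u A M) (h2 : Rel u B N) :
    Rel u (A + B) (M + N) := by
  intro l
  rw [LinearMap.add_apply, h1 l, h2 l, ← Finset.sum_add_distrib]
  apply Finset.sum_congr rfl
  intro l' _
  rw [Matrix.add_apply, add_smul]

theorem Rel.zero {n m : ℕ} {u : FL F} :
    Rel (n := n) (m := m) u (0 : Module.End F (FL F)) 0 := by
  intro l
  simp

theorem Rel.smul {n m : ℕ} {u : FL F} {A : Module.End F (FL F)}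
    {M : Matrix (Fin n → Fin m) (Fin n → Fin m) F} (h1 : Rel u A M) (c : F) :
    Rel u (c • A) (c • M) := by
  intro l
  rw [LinearMap.smul_apply, h1 l, Finset.smul_sum]
  apply Finset.sum_congr rfl
  intro l' _
  rw [Matrix.smul_apply, smul_smul, smul_eq_mul]

theorem Rel.one {n m : ℕ} {u : FL F} :
    Rel (n := n) (m := m) u (1 : Module.End F (FL F)) 1 := by
  classical
  intro l
  rw [Module.End.one_apply, Finset.sum_eq_single l]
  · rw [Matrix.one_apply_eq, one_smul]
  · intro b _ hb
    rw [Matrix.one_apply_ne hb, zero_smul]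
  · intro h
    exact absurd (Finset.mem_univ _) h

theorem Rel.pow {n m : ℕ} {u : FL F} {A : Module.End F (FL F)}
    {M : Matrix (Fin n → Fin m) (Fin n → Fin m) F} (h1 : Rel u A M) (r : ℕ) :
    Rel u (A ^ r) (M ^ r) := by
  induction r with
  | zero =>
    rw [pow_zero, pow_zero]
    exact Rel.one
  | succ r ih =>
    rw [pow_succ, pow_succ]
    exact ih.mul h1

theorem Rel.aeval {n m : ℕ} {u : FL F} {A : Module.End F (FL F)}
    {M : Matrix (Fin n → Fin m) (Fin n → Fin m) F} (h1 : Rel u A M) (q : F[X]) :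
    Rel u (Polynomial.aeval A q) (Polynomial.aeval M q) := by
  induction q using Polynomial.induction_on' with
  | add p q hp hq =>
    rw [map_add, map_add]
    exact hp.add hq
  | monomial r a =>
    rw [Polynomial.aeval_monomial, Polynomial.aeval_monomial, ← Algebra.smul_def,
      ← Algebra.smul_def]
    exact (h1.pow r).smul a

theorem Rel.sum {n m : ℕ} {u : FL F} {ι : Type*} (S : Finset ι) (A : ι → Module.End F (FL F))
    (M : ι → Matrix (Fin n → Fin m) (Fin n → Fin m) F) (h : ∀ j ∈ S, Rel u (A j) (M j)) :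
    Rel u (∑ j ∈ S, A j) (∑ j ∈ S, M j) := by
  classical
  induction S using Finset.induction_on with
  | empty => exact Rel.zero
  | insert a S ha ih =>
    rw [Finset.sum_insert ha, Finset.sum_insert ha]
    exact (h a (Finset.mem_insert_self _ _)).add
      (ih (fun j hj => h j (Finset.mem_insert_of_mem hj)))

theorem rel_dd {n m : ℕ} (a b : Fin m) {u : FL F} (hu : u ∈ P n) :
    Rel u (dd (a : ℕ) (b : ℕ)) (mat F n m a b) := by
  classical
  intro l
  rw [dd_lab a b l hu (Multiset.nodup_range n) (fun i hi => Multiset.mem_range.1 hi)]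
  simp only [mat, Finset.sum_smul]
  rw [Finset.sum_comm]
  apply Finset.sum_congr rfl
  intro p _
  rw [Finset.sum_eq_single (Function.update l p b)]
  · by_cases h : l p = a
    · rw [if_pos ⟨Multiset.mem_range.2 p.2, h⟩, if_pos ⟨h, rfl⟩, one_smul]
    · rw [if_neg (fun h2 => h h2.2), if_neg (fun h2 => h h2.1), zero_smul]
  · intro l' _ hl'
    rw [if_neg (fun h => hl' h.2), zero_smul]
  · intro h
    exact absurd (Finset.mem_univ _) h

theorem homC_le_span (n m : ℕ) {s : Multiset ℕ} (hs : Multiset.card s = n) (hm : ∀ i ∈ s, i < m) :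
    HomC (F := F) s ≤ Submodule.span F {f | ∃ (l : Fin n → Fin m) (u : FL F), u ∈ P n ∧
      f = ren (lab l) u} := by
  rw [HomC, Submodule.span_le]
  intro f hf
  obtain ⟨l, u, hu, hf2, hs2⟩ := exists_lab hf
  rw [hs] at hu hs2
  apply Submodule.subset_span
  have hlt : ∀ p : Fin n, l p < m := by
    intro p
    apply hm
    rw [hs2]
    exact Multiset.mem_map_of_mem l (Multiset.mem_range.2 p.2)
  refine ⟨fun p => ⟨l p, hlt p⟩, u, hu.mem, ?_⟩
  rw [hf2]
  apply hom_congr hu.mem
  intro i hi
  rw [Multiset.mem_range] at hi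
  rw [ren_X, ren_X, lab, dif_pos hi]

/-- The pseudo-inverse polynomial. -/
theorem exists_q [CharZero F] (Y : Finset ℕ) (n : ℕ) :
    ∃ q : F[X], q.coeff 0 ≠ 0 ∧ ∀ s : Multiset ℕ, Multiset.card s = n →
      (∀ i ∈ s, i = 0 ∨ i ∈ Y) → ∀ f ∈ HomC (F := F) s, ∀ j ∈ Y,
        E j (aeval (Om Y) q f) = 0 ∧ aeval (Om Y) q (D j f) = 0 := by
  classical
  obtain ⟨m, hm⟩ : ∃ m : ℕ, ∀ i, i = 0 ∨ i ∈ Y → i < m := by
    refine ⟨Y.sup id + 1, ?_⟩
    rintro i (rfl | hi)
    · omega
    · have := Finset.le_sup (f := id) hi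
      simp only [id_eq] at this
      omega
  let z : Fin m := ⟨0, hm 0 (Or.inl rfl)⟩
  let S : Finset (Fin m) := Finset.univ.filter (fun j => (j : ℕ) ∈ Y)
  obtain ⟨q, hq0, hq⟩ := exists_pinv' F S (fun j => mat ℚ n m j z) (fun j => mat F n m j z)
    (fun j => mat_map F n m j z)
  refine ⟨q, hq0, ?_⟩
  have hOm : ∀ u ∈ P (F := F) n, Rel u (Om Y) (∑ j ∈ S, (mat F n m j z)ᵀ * mat F n m j z) := by
    intro u hu
    have h1 : (Om Y : Module.End F (FL F)) =
        ∑ j ∈ S, (dd (z : ℕ) (j : ℕ) : Module.End F (FL F)) * dd (j : ℕ) (z : ℕ) := by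
      rw [Om]
      symm
      apply Finset.sum_bij (fun (j : Fin m) _ => (j : ℕ))
      · intro j hj
        exact (Finset.mem_filter.1 hj).2
      · intro a _ b _ h
        exact Fin.ext h
      · intro j hj
        exact ⟨⟨j, hm j (Or.inr hj)⟩, Finset.mem_filter.2 ⟨Finset.mem_univ _, hj⟩, rfl⟩
      · intro j _
        rfl
    rw [h1]
    apply Rel.sum
    intro j _
    apply Rel.mul
    · rw [mat_transpose]
      exact rel_dd z j hu
    · exact rel_dd j z hu
  intro s hs hsY f hf j hj
  have hf2 := homC_le_span n m hs (fun i hi => hm i (hsY i hi)) hf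
  have hjm : j < m := hm j (Or.inr hj)
  let j' : Fin m := ⟨j, hjm⟩
  have hj' : j' ∈ S := Finset.mem_filter.2 ⟨Finset.mem_univ _, hj⟩
  clear hf
  induction hf2 using Submodule.span_induction with
  | mem f h =>
    obtain ⟨l, u, hu, rfl⟩ := h
    constructor
    · have h1 := ((rel_dd j' z hu).mul ((hOm u hu).aeval q)) l
      rw [(hq j' hj').1] at h1
      simp only [Matrix.zero_apply, zero_smul, Finset.sum_const_zero] at h1
      exact h1
    · have h1 := (((hOm u hu).aeval q).mul (rel_dd z j' hu)) l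
      rw [← mat_transpose, (hq j' hj').2] at h1
      simp only [Matrix.zero_apply, zero_smul, Finset.sum_const_zero] at h1
      exact h1
  | zero => simp
  | add a b _ _ h1 h2 =>
    constructor
    · rw [map_add, map_add, h1.1, h2.1, add_zero]
    · rw [map_add, map_add, h1.2, h2.2, add_zero]
  | smul c a _ h =>
    constructor
    · rw [map_smul, map_smul, h.1, smul_zero]
    · rw [map_smul, map_smul, h.2, smul_zero]

end

end Pool.Agent.Lib.MP_b4a71d_al
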