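import Mathlib
import Pool.Agent.Lib.MP_b4a71d_al.Content

section

section

/-!
# Polynomial families of substitutions, derivations

T-ideals are stable under all derivations of the free Lie algebra (characteristic zero).
-/

set_option autoImplicit false

namespace Pool.Agent.Lib.MP_b4a71d_al

universe u

noncomputable section

variable {F : Type u} [Field F]

/-- Coefficient extraction: if the values of a polynomial with coefficients in a vector space lie
in a subspace for infinitely many arguments then the coefficients do. -/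
theorem coeff_mem_of_forall {M : Type*} [AddCommGroup M] [Module F M] (I : Submodule F M) (N : ℕ)
    (p : ℕ → M) (S : Set F) (hS : S.Infinite)
    (h : ∀ c ∈ S, ∑ r ∈ Finset.range N, c ^ r • p r ∈ I) : ∀ r < N, p r ∈ I := by
  intro r hr
  rw [← Submodule.Quotient.mk_eq_zero I, ← Module.forall_dual_apply_eq_zero_iff F]
  intro φ
  let P : Polynomial F := ∑ r ∈ Finset.range N, Polynomial.monomial r (φ (Submodule.Quotient.mk (p r)))
  have hP : P = 0 := by
    apply Polynomial.eq_zero_of_infinite_isRoot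
    refine hS.mono ?_
    intro c hc
    have h1 := (Submodule.Quotient.mk_eq_zero I).2 (h c hc)
    have h2 := congrArg φ h1
    rw [map_zero] at h2
    change Polynomial.eval c P = 0
    rw [← h2]
    have h3 : (Submodule.Quotient.mk (∑ r ∈ Finset.range N, c ^ r • p r) : M ⧸ I)
        = ∑ r ∈ Finset.range N, c ^ r • Submodule.Quotient.mk (p r) := by
      have h5 := map_sum I.mkQ (fun r => c ^ r • p r) (Finset.range N)
      simp only [map_smul] at h5
      exact h5
    rw [h3, map_sum, Polynomial.eval_finsetSum]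
    apply Finset.sum_congr rfl
    intro i _
    rw [Polynomial.eval_monomial, map_smul, smul_eq_mul, mul_comm]
  have h4 : P.coeff r = 0 := by rw [hP, Polynomial.coeff_zero]
  rw [Polynomial.finsetSum_coeff] at h4
  rw [Finset.sum_eq_single r] at h4
  · rwa [Polynomial.coeff_monomial_same] at h4
  · intro b _ hb
    exact Polynomial.coeff_monomial_of_ne _ hb.symm
  · intro h5
    exact absurd (Finset.mem_range.2 hr) h5

theorem cauchy_sum {M : Type*} [AddCommMonoid M] (g : ℕ → ℕ → M) (N1 N2 : ℕ)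
    (h1 : ∀ i j, N1 ≤ i → g i j = 0) (h2 : ∀ i j, N2 ≤ j → g i j = 0) :
    ∑ i ∈ Finset.range N1, ∑ j ∈ Finset.range N2, g i j =
      ∑ r ∈ Finset.range (N1 + N2), ∑ x ∈ Finset.HasAntidiagonal.antidiagonal r, g x.1 x.2 := by
  rw [← Finset.sum_product']
  have hmap : ∀ x ∈ Finset.range N1 ×ˢ Finset.range N2, x.1 + x.2 ∈ Finset.range (N1 + N2) := by
    intro x hx
    rw [Finset.mem_product, Finset.mem_range, Finset.mem_range] at hx
    rw [Finset.mem_range]
    omega
  rw [← Finset.sum_fiberwise_of_maps_to hmap]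
  apply Finset.sum_congr rfl
  intro r _
  apply Finset.sum_subset
  · intro x hx
    rw [Finset.mem_filter] at hx
    rw [Finset.HasAntidiagonal.mem_antidiagonal]
    exact hx.2
  · intro x hx hx2
    rw [Finset.HasAntidiagonal.mem_antidiagonal] at hx
    rw [Finset.mem_filter, not_and_or, Finset.mem_product, Finset.mem_range, Finset.mem_range] at hx2
    rcases hx2 with hx2 | hx2
    · rcases not_and_or.1 hx2 with h | h
      · exact h1 _ _ (not_lt.1 h)
      · exact h2 _ _ (not_lt.1 h)
    · exact absurd hx hx2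

/-- `Φ` is the polynomial map with coefficients `p`. -/
def HasExp (Φ : F → FL F) (p : ℕ → FL F) : Prop :=
  ∃ N : ℕ, (∀ r, N ≤ r → p r = 0) ∧ ∀ c : F, Φ c = ∑ r ∈ Finset.range N, c ^ r • p r

theorem HasExp.extend {Φ : F → FL F} {p : ℕ → FL F} (h : HasExp Φ p) :
    ∃ N0 : ℕ, ∀ N, N0 ≤ N → (∀ r, N ≤ r → p r = 0) ∧
      ∀ c : F, Φ c = ∑ r ∈ Finset.range N, c ^ r • p r := by
  obtain ⟨N0, h0, hN⟩ := h
  refine ⟨N0, fun N hN0 => ⟨fun r hr => h0 r (le_trans hN0 hr), fun c => ?_⟩⟩
  rw [hN c]
  apply Finset.sum_subset (Finset.range_mono hN0)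
  intro r _ hr
  rw [h0 r (not_lt.1 (fun h => hr (Finset.mem_range.2 h))), smul_zero]

theorem HasExp.lie {Φ Ψ : F → FL F} {p q : ℕ → FL F} (h1 : HasExp Φ p) (h2 : HasExp Ψ q) :
    HasExp (fun c => ⁅Φ c, Ψ c⁆) (fun r => ∑ x ∈ Finset.HasAntidiagonal.antidiagonal r, ⁅p x.1, q x.2⁆) := by
  obtain ⟨N1, hp, hΦ⟩ := h1
  obtain ⟨N2, hq, hΨ⟩ := h2
  refine ⟨N1 + N2, ?_, ?_⟩
  · intro r hr
    apply Finset.sum_eq_zero
    intro x hx
    rw [Finset.HasAntidiagonal.mem_antidiagonal] at hx
    rcases le_or_gt N1 x.1 with h | h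
    · rw [hp _ h, zero_lie]
    · rw [hq _ (by omega), lie_zero]
  · intro c
    change ⁅Φ c, Ψ c⁆ = _
    rw [hΦ c, hΨ c, _root_.sum_lie_sum]
    have := cauchy_sum (fun i j => c ^ (i + j) • ⁅p i, q j⁆) N1 N2
      (fun i j h => by rw [hp _ h, zero_lie, smul_zero])
      (fun i j h => by rw [hq _ h, lie_zero, smul_zero])
    rw [show (∑ i ∈ Finset.range N1, ∑ j ∈ Finset.range N2, ⁅c ^ i • p i, c ^ j • q j⁆) =
      ∑ i ∈ Finset.range N1, ∑ j ∈ Finset.range N2, c ^ (i + j) • ⁅p i, q j⁆ from ?_, this]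
    · apply Finset.sum_congr rfl
      intro r _
      rw [Finset.smul_sum]
      apply Finset.sum_congr rfl
      intro x hx
      rw [Finset.HasAntidiagonal.mem_antidiagonal.1 hx]
    · apply Finset.sum_congr rfl
      intro i _
      apply Finset.sum_congr rfl
      intro j _
      rw [smul_lie, lie_smul, smul_smul, pow_add]

theorem HasExp.add {Φ Ψ : F → FL F} {p q : ℕ → FL F} (h1 : HasExp Φ p) (h2 : HasExp Ψ q) :
    HasExp (fun c => Φ c + Ψ c) (fun r => p r + q r) := by
  obtain ⟨N1, h1⟩ := h1.extend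
  obtain ⟨N2, h2⟩ := h2.extend
  obtain ⟨hp, hΦ⟩ := h1 (max N1 N2) (le_max_left _ _)
  obtain ⟨hq, hΨ⟩ := h2 (max N1 N2) (le_max_right _ _)
  refine ⟨max N1 N2, fun r hr => ?_, fun c => ?_⟩
  · change p r + q r = 0
    rw [hp r hr, hq r hr, add_zero]
  change Φ c + Ψ c = _
  rw [hΦ c, hΨ c, ← Finset.sum_add_distrib]
  apply Finset.sum_congr rfl
  intro r _
  rw [smul_add]

theorem HasExp.smul {Φ : F → FL F} {p : ℕ → FL F} (h1 : HasExp Φ p) (a : F) :
    HasExp (fun c => a • Φ c) (fun r => a • p r) := by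
  obtain ⟨N1, hp, hΦ⟩ := h1
  refine ⟨N1, fun r hr => ?_, fun c => ?_⟩
  · change a • p r = 0
    rw [hp r hr, smul_zero]
  change a • Φ c = _
  rw [hΦ c, Finset.smul_sum]
  apply Finset.sum_congr rfl
  intro r _
  rw [smul_comm]

theorem HasExp.zero : HasExp (fun _ : F => (0 : FL F)) (fun _ => 0) :=
  ⟨0, fun _ _ => rfl, fun c => by simp⟩

/-- The family of substitutions `x_i -> v i + c w i`. -/
def fam (v w : ℕ → FL F) (c : F) : FL F →ₗ⁅F⁆ FL F :=
  FreeLieAlgebra.lift F (fun i => v i + c • w i)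

@[simp] theorem fam_X (v w : ℕ → FL F) (c : F) (i : ℕ) : fam v w c (X F i) = v i + c • w i := by
  rw [fam, FreeLieAlgebra.lift_of_apply]

theorem hasExp_X (v w : ℕ → FL F) (i : ℕ) :
    HasExp (fun c => fam v w c (X F i)) (fun r => if r = 0 then v i else if r = 1 then w i else 0) := by
  refine ⟨2, ?_, ?_⟩
  · intro r hr
    change (if r = 0 then v i else if r = 1 then w i else 0) = 0
    rw [if_neg (by omega), if_neg (by omega)]
  · intro c
    change fam v w c (X F i) = _
    rw [fam_X, Finset.sum_range_succ, Finset.sum_range_succ, Finset.sum_range_zero]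
    simp

theorem exists_hasExp (v w : ℕ → FL F) (f : FL F) :
    ∃ p : ℕ → FL F, HasExp (fun c => fam v w c f) p := by
  refine fl_induction (p := fun f => ∃ p : ℕ → FL F, HasExp (fun c => fam v w c f) p) ?_ ?_ f
  · intro s f hf
    refine homC_induction (p := fun _ f => ∃ p : ℕ → FL F, HasExp (fun c => fam v w c f) p)
      ?_ ?_ ?_ ?_ ?_ hf
    · intro i
      exact ⟨_, hasExp_X v w i⟩
    · rintro s t a b _ _ ⟨p, hp⟩ ⟨q, hq⟩
      refine ⟨fun r => ∑ x ∈ Finset.HasAntidiagonal.antidiagonal r, ⁅p x.1, q x.2⁆, ?_⟩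
      simp only [LieHom.map_lie]
      exact hp.lie hq
    · intro s
      refine ⟨fun _ => 0, ?_⟩
      simp only [map_zero]
      exact HasExp.zero
    · rintro s a b _ _ ⟨p, hp⟩ ⟨q, hq⟩
      refine ⟨fun r => p r + q r, ?_⟩
      simp only [map_add]
      exact hp.add hq
    · rintro s c a _ ⟨p, hp⟩
      refine ⟨fun r => c • p r, ?_⟩
      simp only [map_smul]
      exact hp.smul c
  · rintro a b ⟨p, hp⟩ ⟨q, hq⟩
    refine ⟨fun r => p r + q r, ?_⟩
    simp only [map_add]
    exact hp.add hq

/-- The Lie algebra `FL + ε FL`. -/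
def DL (F : Type u) [Field F] := FL F × FL F

instance : AddCommGroup (DL F) := inferInstanceAs (AddCommGroup (FL F × FL F))

instance : Module F (DL F) := inferInstanceAs (Module F (FL F × FL F))

instance : Bracket (DL F) (DL F) := ⟨fun x y => (⁅x.1, y.1⁆, ⁅x.1, y.2⁆ + ⁅x.2, y.1⁆)⟩

theorem DL.lie_def (x y : DL F) : ⁅x, y⁆ = (⁅x.1, y.1⁆, ⁅x.1, y.2⁆ + ⁅x.2, y.1⁆) := rfl

theorem DL.add_def (x y : DL F) : x + y = (x.1 + y.1, x.2 + y.2) := rfl

theorem DL.smul_def (c : F) (x : DL F) : c • x = (c • x.1, c • x.2) := rfl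

theorem DL.zero_def : (0 : DL F) = (0, 0) := rfl

instance : LieRing (DL F) where
  add_lie x y z := by
    simp only [DL.lie_def, DL.add_def, add_lie]
    congr 1
    abel
  lie_add x y z := by
    simp only [DL.lie_def, DL.add_def, lie_add]
    congr 1
    abel
  lie_self x := by
    simp only [DL.lie_def, lie_self]
    rw [← lie_skew, neg_add_cancel]
    rfl
  leibniz_lie x y z := by
    simp only [DL.lie_def, DL.add_def, lie_add, add_lie]
    rw [leibniz_lie x.1 y.1 z.1, leibniz_lie x.1 y.1 z.2, leibniz_lie x.1 y.2 z.1,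
      leibniz_lie x.2 y.1 z.1]
    congr 1
    abel

instance : LieAlgebra F (DL F) where
  lie_smul c x y := by
    simp only [DL.lie_def, DL.smul_def, lie_smul, smul_add]

/-- The homomorphism into `FL + ε FL` defining a derivation. -/
def derHom (w : ℕ → FL F) : FL F →ₗ⁅F⁆ DL F :=
  FreeLieAlgebra.lift F (fun i => ((X F i, w i) : FL F × FL F))

theorem derHom_X (w : ℕ → FL F) (i : ℕ) : derHom w (X F i) = ((X F i, w i) : FL F × FL F) := by
  rw [derHom, FreeLieAlgebra.lift_of_apply]

/-- First projection. -/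
def dlFst : DL F →ₗ⁅F⁆ FL F where
  toFun x := x.1
  map_add' _ _ := rfl
  map_smul' _ _ := rfl
  map_lie' := rfl

theorem derHom_fst (w : ℕ → FL F) (f : FL F) : (derHom w f).1 = f := by
  have : (dlFst (F := F)).comp (derHom w) = LieHom.id := by
    apply FreeLieAlgebra.hom_ext
    intro x
    rw [LieHom.comp_apply, derHom_X]
    rfl
  have h2 := congrArg (fun ψ : FL F →ₗ⁅F⁆ FL F => ψ f) this
  exact h2

/-- The derivation of the free Lie algebra with `x_i -> w i`. -/
def der (w : ℕ → FL F) : FL F →ₗ[F] FL F where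
  toFun f := (derHom w f).2
  map_add' f g := by rw [map_add]; rfl
  map_smul' c f := by rw [map_smul]; rfl

@[simp] theorem der_X (w : ℕ → FL F) (i : ℕ) : der w (X F i) = w i := by
  change (derHom w (X F i)).2 = w i
  rw [derHom_X]

theorem der_lie (w : ℕ → FL F) (f g : FL F) :
    der w ⁅f, g⁆ = ⁅f, der w g⁆ + ⁅der w f, g⁆ := by
  change (derHom w ⁅f, g⁆).2 = _
  rw [LieHom.map_lie, DL.lie_def]
  simp only [derHom_fst]
  rfl

theorem hasExp_der (w : ℕ → FL F) (f : FL F) :
    ∃ p : ℕ → FL F, HasExp (fun c => fam (X F) w c f) p ∧ p 0 = f ∧ p 1 = der w f := by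
  refine fl_induction (p := fun f => ∃ p : ℕ → FL F, HasExp (fun c => fam (X F) w c f) p ∧
    p 0 = f ∧ p 1 = der w f) ?_ ?_ f
  · intro s f hf
    refine homC_induction (p := fun _ f => ∃ p : ℕ → FL F, HasExp (fun c => fam (X F) w c f) p ∧
      p 0 = f ∧ p 1 = der w f) ?_ ?_ ?_ ?_ ?_ hf
    · intro i
      exact ⟨_, hasExp_X (X F) w i, by simp, by simp⟩
    · rintro s t a b _ _ ⟨p, hp, hp0, hp1⟩ ⟨q, hq, hq0, hq1⟩
      refine ⟨fun r => ∑ x ∈ Finset.HasAntidiagonal.antidiagonal r, ⁅p x.1, q x.2⁆, ?_, ?_, ?_⟩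
      · simp only [LieHom.map_lie]
        exact hp.lie hq
      · simp [hp0, hq0]
      · rw [der_lie, ← hp1, ← hq1]
        simp [Finset.Nat.antidiagonal_succ, hp0, hq0]
    · intro s
      refine ⟨fun _ => 0, ?_, rfl, ?_⟩
      · simp only [map_zero]
        exact HasExp.zero
      · rw [map_zero]
    · rintro s a b _ _ ⟨p, hp, hp0, hp1⟩ ⟨q, hq, hq0, hq1⟩
      refine ⟨fun r => p r + q r, ?_, ?_, ?_⟩
      · simp only [map_add]
        exact hp.add hq
      · simp only [hp0, hq0]
      · simp only [hp1, hq1, map_add]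
    · rintro s c a _ ⟨p, hp, hp0, hp1⟩
      refine ⟨fun r => c • p r, ?_, ?_, ?_⟩
      · simp only [map_smul]
        exact hp.smul c
      · simp only [hp0]
      · simp only [hp1, map_smul]
  · rintro a b ⟨p, hp, hp0, hp1⟩ ⟨q, hq, hq0, hq1⟩
    refine ⟨fun r => p r + q r, ?_, ?_, ?_⟩
    · simp only [map_add]
      exact hp.add hq
    · simp only [hp0, hq0]
    · simp only [hp1, hq1, map_add]

variable [CharZero F]

/-- T-ideals are stable under all derivations. -/
theorem IsTIdeal.der_mem {I : Submodule F (FL F)} (hI : IsTIdeal F I) (w : ℕ → FL F) {f : FL F}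
    (hf : f ∈ I) : der w f ∈ I := by
  obtain ⟨p, hp, _, hp1⟩ := hasExp_der w f
  obtain ⟨N0, h⟩ := hp.extend
  obtain ⟨_, h2⟩ := h (max N0 2) (le_max_left _ _)
  rw [← hp1]
  refine coeff_mem_of_forall I (max N0 2) p Set.univ Set.infinite_univ ?_ 1
    (lt_of_lt_of_le (by norm_num) (le_max_right N0 2))
  intro c _
  rw [← h2 c]
  exact hI.map_mem _ f hf

end

end Pool.Agent.Lib.MP_b4a71d_al
end

section

/-!
# The derivations `x_a -> x_b`, linearization, distributivity degree by degree
-/

set_option autoImplicit false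

namespace Pool.Agent.Lib.MP_b4a71d_al

universe u

noncomputable section

variable {F : Type u} [Field F]

theorem homC_zero : HomC (F := F) 0 = ⊥ := by
  rw [HomC, Submodule.span_eq_bot]
  intro f hf
  have := IsMonoC.card_pos hf
  simp at this

/-- The derivation of the free Lie algebra with `x_a -> x_b` and `x_i -> 0` for `i ≠ a`. -/
def dd (a b : ℕ) : FL F →ₗ[F] FL F := der (fun i => if i = a then X F b else 0)

theorem dd_X_same (a b : ℕ) : dd (F := F) a b (X F a) = X F b := by
  rw [dd, der_X, if_pos rfl]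

theorem dd_X_ne {a b i : ℕ} (h : i ≠ a) : dd (F := F) a b (X F i) = 0 := by
  rw [dd, der_X, if_neg h]

theorem dd_lie (a b : ℕ) (f g : FL F) : dd a b ⁅f, g⁆ = ⁅f, dd a b g⁆ + ⁅dd a b f, g⁆ :=
  der_lie _ f g

theorem dd_eq_zero {a : ℕ} (b : ℕ) {s : Multiset ℕ} {f : FL F} (hf : f ∈ HomC s) (ha : a ∉ s) :
    dd a b f = 0 := by
  revert ha
  refine homC_induction (p := fun s f => a ∉ s → dd a b f = 0) ?_ ?_ ?_ ?_ ?_ hf
  · intro i hi
    exact dd_X_ne (fun h => hi (by rw [h]; exact Multiset.mem_singleton_self a))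
  · intro s t f g _ _ h1 h2 h
    rw [dd_lie, h2 (fun h3 => h (Multiset.mem_add.2 (Or.inr h3))),
      h1 (fun h3 => h (Multiset.mem_add.2 (Or.inl h3))), lie_zero, zero_lie, add_zero]
  · intro s _
    rw [map_zero]
  · intro s f g _ _ h1 h2 h
    rw [map_add, h1 h, h2 h, add_zero]
  · intro s c f _ h1 h
    rw [map_smul, h1 h, smul_zero]

theorem dd_mem (a b : ℕ) {s : Multiset ℕ} {f : FL F} (hf : f ∈ HomC s) :
    dd a b f ∈ HomC (F := F) (b ::ₘ s.erase a) := by
  refine homC_induction (p := fun s f => dd a b f ∈ HomC (F := F) (b ::ₘ s.erase a))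
    ?_ ?_ ?_ ?_ ?_ hf
  · intro i
    by_cases h : i = a
    · subst h
      rw [dd_X_same]
      have : (b ::ₘ ({i} : Multiset ℕ).erase i) = {b} := by
        rw [Multiset.erase_singleton]
        rfl
      rw [this]
      exact X_mem b
    · rw [dd_X_ne h]
      exact Submodule.zero_mem _
  · intro s t f g hf hg h1 h2
    rw [dd_lie]
    apply Submodule.add_mem
    · by_cases ht : a ∈ t
      · have : b ::ₘ (s + t).erase a = s + (b ::ₘ t.erase a) := by
          rw [Multiset.erase_add_right_pos _ ht, Multiset.add_cons]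
        rw [this]
        exact lie_mem_homC hf h2
      · rw [dd_eq_zero b hg ht, lie_zero]
        exact Submodule.zero_mem _
    · by_cases hs : a ∈ s
      · have : b ::ₘ (s + t).erase a = (b ::ₘ s.erase a) + t := by
          rw [Multiset.erase_add_left_pos _ hs, Multiset.cons_add]
        rw [this]
        exact lie_mem_homC h1 hg
      · rw [dd_eq_zero b hf hs, zero_lie]
        exact Submodule.zero_mem _
  · intro s
    rw [map_zero]
    exact Submodule.zero_mem _
  · intro s f g _ _ h1 h2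
    rw [map_add]
    exact Submodule.add_mem _ h1 h2
  · intro s c f _ h1
    rw [map_smul]
    exact Submodule.smul_mem _ c h1

/-- The renaming `x_b -> x_a`, everything else fixed. -/
def mrg (b a : ℕ) : ℕ → ℕ := fun i => if i = b then a else i

theorem mrg_same (b a : ℕ) : mrg b a b = a := if_pos rfl

theorem mrg_ne {b a i : ℕ} (h : i ≠ b) : mrg b a i = i := if_neg h

theorem ren_mrg_dd {a b : ℕ} {s : Multiset ℕ} {f : FL F} (hf : f ∈ HomC s) (hb : b ∉ s) :
    ren (mrg b a) (dd a b f) = (s.count a : F) • f := by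
  have hren : ∀ {s : Multiset ℕ} {f : FL F}, f ∈ HomC s → b ∉ s → ren (mrg b a) f = f := by
    intro s f hf hb
    apply ren_eq_self hf
    intro i hi
    apply mrg_ne
    rintro rfl
    exact hb hi
  revert hb
  refine homC_induction (p := fun s f => b ∉ s → ren (mrg b a) (dd a b f) = (s.count a : F) • f)
    ?_ ?_ ?_ ?_ ?_ hf
  · intro i hi
    by_cases h : i = a
    · subst h
      rw [dd_X_same, ren_X, mrg_same, Multiset.count_singleton_self, Nat.cast_one, one_smul]
    · rw [dd_X_ne h, map_zero, Multiset.count_singleton, if_neg (fun h2 => h h2.symm),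
        Nat.cast_zero, zero_smul]
  · intro s t f g hf hg h1 h2 h
    rw [Multiset.mem_add, not_or] at h
    rw [dd_lie, map_add, LieHom.map_lie, LieHom.map_lie, h1 h.1, h2 h.2, hren hf h.1, hren hg h.2,
      lie_smul, smul_lie, ← add_smul, Multiset.count_add, Nat.cast_add, add_comm]
  · intro s _
    rw [map_zero, map_zero, smul_zero]
  · intro s f g _ _ h1 h2 h
    rw [map_add, map_add, h1 h, h2 h, smul_add]
  · intro s c f _ h1 h
    rw [map_smul, map_smul, h1 h, smul_comm]

/-- The multilinear elements in the variables `0, ..., n - 1`. -/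
def P (n : ℕ) : Submodule F (FL F) := HomC (Multiset.range n)

theorem exists_perm_image (s t : Finset ℕ) (h : s.card = t.card) :
    ∃ σ : Equiv.Perm ℕ, s.image σ = t := by
  have hp := Equiv.Perm.isMultiplyPretransitive ℕ s.card
  obtain ⟨σ, hσ⟩ := hp.exists_smul_eq (s.orderEmbOfFin rfl).toEmbedding
    (t.orderEmbOfFin h.symm).toEmbedding
  refine ⟨σ, ?_⟩
  have h1 : ∀ i, σ (s.orderEmbOfFin rfl i) = t.orderEmbOfFin h.symm i := by
    intro i
    exact congrArg (fun f : Fin s.card ↪ ℕ => f i) hσ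
  apply Finset.eq_of_subset_of_card_le
  · intro x hx
    obtain ⟨y, hy, rfl⟩ := Finset.mem_image.1 hx
    have h2 : y ∈ Set.range (s.orderEmbOfFin rfl) := by
      rw [Finset.range_orderEmbOfFin]
      exact hy
    obtain ⟨i, rfl⟩ := h2
    rw [h1]
    exact Finset.orderEmbOfFin_mem _ _ _
  · rw [Finset.card_image_of_injective _ σ.injective, h]

theorem exists_perm_image_zero (s t : Finset ℕ) (h : s.card = t.card) (hs : 0 ∉ s) (ht : 0 ∉ t) :
    ∃ σ : Equiv.Perm ℕ, σ 0 = 0 ∧ s.image σ = t := by
  obtain ⟨σ, hσ⟩ := exists_perm_image s t h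
  refine ⟨σ.trans (Equiv.swap (σ 0) 0), ?_, ?_⟩
  · rw [Equiv.trans_apply, Equiv.swap_apply_left]
  · rw [← hσ]
    apply Finset.image_congr
    intro x hx
    change Equiv.swap (σ 0) 0 (σ x) = σ x
    apply Equiv.swap_apply_of_ne_of_ne
    · intro h2
      exact hs (by rw [← σ.injective h2]; exact hx)
    · intro h2
      apply ht
      rw [← hσ, ← h2]
      exact Finset.mem_image_of_mem _ hx

theorem image_val (s : Finset ℕ) (σ : Equiv.Perm ℕ) : (s.image σ).val = s.val.map σ :=
  Finset.image_val_of_injOn σ.injective.injOn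

theorem exists_perm_of_nodup (s : Multiset ℕ) (hs : s.Nodup) :
    ∃ σ : Equiv.Perm ℕ, s.map σ = Multiset.range (Multiset.card s) := by
  obtain ⟨σ, hσ⟩ := exists_perm_image ⟨s, hs⟩ (Finset.range (Multiset.card s))
    (by rw [Finset.card_range]; rfl)
  refine ⟨σ, ?_⟩
  have := congrArg Finset.val hσ
  rw [image_val] at this
  exact this

variable [CharZero F]

theorem IsTIdeal.dd_mem {I : Submodule F (FL F)} (hI : IsTIdeal F I) (a b : ℕ) {f : FL F}
    (hf : f ∈ I) : dd a b f ∈ I := hI.der_mem _ hf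

/-- Linearization. -/
theorem IsTIdeal.le_of_P {A B : Submodule F (FL F)} (hA : IsTIdeal F A) (hB : IsTIdeal F B)
    (h : ∀ n, A ⊓ P n ≤ B) : A ≤ B := by
  apply hA.le_of_cmp
  have key : ∀ m : ℕ, ∀ s : Multiset ℕ, Multiset.card s - s.toFinset.card = m →
      A ⊓ HomC (F := F) s ≤ B := by
    intro m
    induction m using Nat.strong_induction_on with
    | _ m ih =>
      intro s hs f hf
      by_cases hnd : s.Nodup
      · obtain ⟨σ, hσ⟩ := exists_perm_of_nodup s hnd
        have h1 : ren σ f ∈ B := by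
          apply h (Multiset.card s)
          refine ⟨hA.map_mem _ f hf.1, ?_⟩
          have := ren_mem σ hf.2
          rw [hσ] at this
          exact this
        have h2 := hB.map_mem (ren σ.symm) _ h1
        rw [ren_ren] at h2
        have h3 : (σ.symm : ℕ → ℕ) ∘ (σ : ℕ → ℕ) = id := by
          funext i
          simp
        rwa [h3, ren_id'] at h2
      · have h1 : ∃ a, 2 ≤ s.count a := by
          by_contra hcon
          push Not at hcon
          apply hnd
          rw [Multiset.nodup_iff_count_le_one]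
          intro a
          have := hcon a
          omega
        obtain ⟨a, ha⟩ := h1
        obtain ⟨b, hb⟩ := Infinite.exists_notMem_finset s.toFinset
        rw [Multiset.mem_toFinset] at hb
        have h2 : dd a b f ∈ B := by
          refine ih (Multiset.card (b ::ₘ s.erase a) - (b ::ₘ s.erase a).toFinset.card) ?_ _ rfl
            ⟨hA.dd_mem a b hf.1, MP_b4a71d_al.dd_mem a b hf.2⟩
          have ham : a ∈ s := by
            rw [← Multiset.count_pos]
            omega
          have hcard : Multiset.card (b ::ₘ s.erase a) = Multiset.card s := by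
            rw [Multiset.card_cons, Multiset.card_erase_of_mem ham]
            have : 0 < Multiset.card s := Multiset.card_pos_iff_exists_mem.2 ⟨a, ham⟩
            exact Nat.succ_pred_eq_of_pos this
          have hset : (b ::ₘ s.erase a).toFinset = insert b s.toFinset := by
            rw [Multiset.toFinset_cons]
            congr 1
            ext i
            rw [Multiset.mem_toFinset, Multiset.mem_toFinset]
            constructor
            · exact fun h => Multiset.mem_of_mem_erase h
            · intro hi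
              by_cases hia : i = a
              · subst hia
                rw [← Multiset.count_pos, Multiset.count_erase_self]
                omega
              · exact (Multiset.mem_erase_of_ne hia).2 hi
          have hnot : b ∉ s.toFinset := by
            rw [Multiset.mem_toFinset]
            exact hb
          have hle : s.toFinset.card + 1 ≤ Multiset.card s := by
            have h5 : (insert b s.toFinset).card ≤ Multiset.card (b ::ₘ s.erase a) := by
              rw [← hset]
              exact Multiset.toFinset_card_le _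
            rw [Finset.card_insert_of_notMem hnot, hcard] at h5
            exact h5
          rw [hcard, hset, Finset.card_insert_of_notMem hnot]
          omega
        have h3 := hB.map_mem (ren (mrg b a)) _ h2
        rw [ren_mrg_dd hf.2 hb] at h3
        have h4 : (s.count a : F) ≠ 0 := by
          rw [Nat.cast_ne_zero]
          omega
        exact (Submodule.smul_mem_iff _ h4).1 h3
  exact fun s => key _ s rfl

end

end Pool.Agent.Lib.MP_b4a71d_al
end
end

section

/-!
# A lemma on rational matrices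

For rational matrices `A_j` and `N = ∑ A_jᵀ A_j` there is a polynomial `q` with `q(0) ≠ 0`,
`A_j q(N) = 0` and `q(N) A_jᵀ = 0`.
-/

set_option autoImplicit false

namespace Pool.Agent.Lib.MP_b4a71d_al

open Matrix Polynomial

variable {I J : Type*} [Fintype I] [DecidableEq I]

omit [DecidableEq I] in
theorem rat_sum_gram {ι : Type*} (S : Finset ι) (B : ι → Matrix I I ℚ)
    (h : ∑ j ∈ S, (B j)ᵀ * B j = 0) : ∀ j ∈ S, B j = 0 := by
  intro j hj
  ext a b
  have h1 := congrFun (congrFun h b) b
  rw [Matrix.sum_apply] at h1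
  simp only [Matrix.mul_apply, Matrix.transpose_apply, Matrix.zero_apply] at h1
  rw [Finset.sum_eq_zero_iff_of_nonneg] at h1
  · have h2 := h1 j hj
    rw [Finset.sum_eq_zero_iff_of_nonneg] at h2
    · have h3 := h2 a (Finset.mem_univ a)
      rw [Matrix.zero_apply]
      exact mul_self_eq_zero.1 h3
    · intro i _
      exact mul_self_nonneg _
  · intro i _
    apply Finset.sum_nonneg
    intro k _
    exact mul_self_nonneg _

omit [DecidableEq I] in
theorem rat_gram (B : Matrix I I ℚ) (h : Bᵀ * B = 0) : B = 0 := by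
  have := rat_sum_gram (Finset.univ : Finset Unit) (fun _ => B) (by simpa using h)
  exact this () (Finset.mem_univ _)

theorem rat_pow_mul {N : Matrix I I ℚ} (hN : Nᵀ = N) (B : Matrix I I ℚ) (e : ℕ)
    (h : N ^ e * B = 0) : N * B = 0 := by
  induction e with
  | zero =>
    rw [pow_zero, one_mul] at h
    rw [h, mul_zero]
  | succ e ih =>
    rcases Nat.eq_zero_or_pos e with he | he
    · subst he
      rwa [zero_add, pow_one] at h
    · apply ih
      obtain ⟨m, rfl⟩ : ∃ m, e = m + 1 := ⟨e - 1, by omega⟩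
      have h2 : N * (N * (N ^ m * B)) = 0 := by
        rw [← mul_assoc, ← mul_assoc, ← pow_two, ← pow_add, add_comm 2 m]
        exact h
      have h3 : N * (N ^ m * B) = 0 := by
        apply rat_gram
        rw [Matrix.transpose_mul, hN, Matrix.mul_assoc, h2, Matrix.mul_zero]
      rw [← mul_assoc, ← pow_succ'] at h3
      exact h3

theorem transpose_aeval (N : Matrix I I ℚ) (hN : Nᵀ = N) (q : ℚ[X]) :
    (aeval N q)ᵀ = aeval N q := by
  induction q using Polynomial.induction_on' with
  | add p q hp hq => rw [map_add, Matrix.transpose_add, hp, hq]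
  | monomial n a =>
    rw [Polynomial.aeval_monomial, ← Algebra.smul_def,
      Matrix.transpose_smul, Matrix.transpose_pow, hN]

theorem exists_pinv {ι : Type*} (S : Finset ι) (A : ι → Matrix I I ℚ) :
    ∃ q : ℚ[X], q.coeff 0 ≠ 0 ∧ ∀ j ∈ S, A j * aeval (∑ j ∈ S, (A j)ᵀ * A j) q = 0 ∧
      aeval (∑ j ∈ S, (A j)ᵀ * A j) q * (A j)ᵀ = 0 := by
  set N := ∑ j ∈ S, (A j)ᵀ * A j with hNdef
  have hN : Nᵀ = N := by
    rw [hNdef, Matrix.transpose_sum]
    apply Finset.sum_congr rfl
    intro j _
    rw [Matrix.transpose_mul, Matrix.transpose_transpose]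
  have hint : IsIntegral ℚ N := Algebra.IsIntegral.isIntegral N
  have hp : minpoly ℚ N ≠ 0 := minpoly.ne_zero hint
  obtain ⟨q, hq1, hq2⟩ := Polynomial.exists_eq_pow_rootMultiplicity_mul_and_not_dvd
    (minpoly ℚ N) hp 0
  rw [map_zero, sub_zero] at hq1 hq2
  have hq0 : q.coeff 0 ≠ 0 := fun h => hq2 (Polynomial.X_dvd_iff.2 h)
  have h1 : N ^ (rootMultiplicity 0 (minpoly ℚ N)) * aeval N q = 0 := by
    have h2 := minpoly.aeval ℚ N
    rw [hq1, map_mul, map_pow, aeval_X] at h2
    exact h2
  have h2 : N * aeval N q = 0 := rat_pow_mul hN _ _ h1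
  have h3 : ∑ j ∈ S, (A j * aeval N q)ᵀ * (A j * aeval N q) = 0 := by
    have : ∑ j ∈ S, (A j * aeval N q)ᵀ * (A j * aeval N q) =
        (aeval N q)ᵀ * (N * aeval N q) := by
      rw [hNdef, Finset.sum_mul, Finset.mul_sum]
      apply Finset.sum_congr rfl
      intro j _
      rw [Matrix.transpose_mul]
      simp only [Matrix.mul_assoc]
    rw [this, h2, Matrix.mul_zero]
  have h4 := rat_sum_gram S _ h3
  refine ⟨q, hq0, fun j hj => ⟨h4 j hj, ?_⟩⟩
  have h5 := congrArg Matrix.transpose (h4 j hj)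
  rw [Matrix.transpose_mul, transpose_aeval N hN, Matrix.transpose_zero] at h5
  exact h5

theorem exists_pinv' (F : Type*) [Field F] [CharZero F] {ι : Type*} (S : Finset ι)
    (A : ι → Matrix I I ℚ) (A' : ι → Matrix I I F)
    (hA : ∀ j, A' j = (A j).map (algebraMap ℚ F)) :
    ∃ q : F[X], q.coeff 0 ≠ 0 ∧ ∀ j ∈ S, A' j * aeval (∑ j ∈ S, (A' j)ᵀ * A' j) q = 0 ∧
      aeval (∑ j ∈ S, (A' j)ᵀ * A' j) q * (A' j)ᵀ = 0 := by
  obtain ⟨q, hq0, hq⟩ := exists_pinv S A
  let φ : Matrix I I ℚ →ₐ[ℚ] Matrix I I F := (Algebra.ofId ℚ F).mapMatrix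
  have hφ : ∀ M : Matrix I I ℚ, φ M = M.map (algebraMap ℚ F) := fun M => rfl
  have hN : (∑ j ∈ S, (A' j)ᵀ * A' j) = φ (∑ j ∈ S, (A j)ᵀ * A j) := by
    rw [map_sum]
    apply Finset.sum_congr rfl
    intro j _
    rw [map_mul, hφ, hφ, hA, Matrix.transpose_map]
  have hq' : aeval (∑ j ∈ S, (A' j)ᵀ * A' j) (q.map (algebraMap ℚ F)) =
      φ (aeval (∑ j ∈ S, (A j)ᵀ * A j) q) := by
    rw [hN, Polynomial.aeval_map_algebraMap, Polynomial.aeval_algHom_apply]
  refine ⟨q.map (algebraMap ℚ F), ?_, ?_⟩
  · rw [Polynomial.coeff_map]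
    intro h
    apply hq0
    have := (algebraMap ℚ F).injective
    exact this (by rw [h, map_zero])
  · intro j hj
    rw [hq']
    constructor
    · rw [hA, ← hφ, ← map_mul, (hq j hj).1, map_zero]
    · rw [hA, ← Matrix.transpose_map, ← hφ, ← map_mul, (hq j hj).2, map_zero]

end Pool.Agent.Lib.MP_b4a71d_al
end
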