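import Mathlib
import Pool.Agent.Lib.MP_b4a71d_al.S.Main

section

/-!
# A criterion for the distributivity of a lattice of subrepresentations

`G` is a finite group acting on a vector space over a field of characteristic zero.
-/

set_option autoImplicit false
set_option linter.unusedSectionVars false

namespace Pool.Agent.Lib.MP_b4a71d_al

section Lin

variable {F : Type*} [Field F] {V : Type*} [AddCommGroup V] [Module F V]

theorem exists_proj (A B : Submodule F V) (h : A ⊓ B = ⊥) :
    ∃ p : Module.End F V, (∀ x ∈ A, p x = x) ∧ (∀ x ∈ B, p x = 0) ∧ ∀ x, p x ∈ A := by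
  obtain ⟨B', hB, hc⟩ := Disjoint.exists_isCompl (a := B) (b := A)
    (disjoint_iff.2 (by rw [inf_comm]; exact h))
  refine ⟨A.subtype ∘ₗ A.projectionOnto B' hc.symm, ?_, ?_, ?_⟩
  · intro x hx
    rw [LinearMap.comp_apply, Submodule.projectionOnto_apply_of_mem_left hc.symm hx]
    rfl
  · intro x hx
    rw [LinearMap.comp_apply, (Submodule.projectionOnto_apply_eq_zero_iff hc.symm).2 (hB hx),
      map_zero]
  · intro x
    exact (A.projectionOnto B' hc.symm x).2

theorem exists_splitting (A B : Submodule F V) :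
    ∃ t : Module.End F V, ∀ x ∈ A ⊔ B, t x ∈ A ∧ x - t x ∈ B := by
  obtain ⟨r, hr1, _, hr3⟩ := exists_proj (A ⊓ B) ⊥ (inf_bot_eq _)
  have hK : A.map (LinearMap.id - r) ≤ A := by
    rintro _ ⟨a, ha, rfl⟩
    exact A.sub_mem ha (hr3 a).1
  obtain ⟨p, hp1, hp2, hp3⟩ := exists_proj (A.map (LinearMap.id - r)) B (by
    rw [Submodule.eq_bot_iff]
    rintro _ ⟨⟨a, ha, rfl⟩, hb⟩
    have h1 : a ∈ B := by
      have := B.add_mem hb (hr3 a).2
      rwa [LinearMap.sub_apply, LinearMap.id_apply, sub_add_cancel] at this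
    rw [LinearMap.sub_apply, LinearMap.id_apply, hr1 a ⟨ha, h1⟩, sub_self])
  refine ⟨p, ?_⟩
  intro x hx
  obtain ⟨a, ha, b, hb, rfl⟩ := Submodule.mem_sup.1 hx
  refine ⟨hK (hp3 _), ?_⟩
  have h1 : (a + b) = (LinearMap.id - r : Module.End F V) a + (r a + b) := by
    rw [LinearMap.sub_apply, LinearMap.id_apply]
    abel
  have h2 : p (a + b) = (LinearMap.id - r : Module.End F V) a := by
    rw [h1, map_add, hp1 _ ⟨a, ha, rfl⟩, hp2 _ (B.add_mem (hr3 a).2 hb), add_zero]
  have h3 : a + b - (LinearMap.id - r : Module.End F V) a = r a + b := by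
    rw [LinearMap.sub_apply, LinearMap.id_apply]
    abel
  rw [h2, h3]
  exact B.add_mem (hr3 a).2 hb

theorem exists_functional {v : V} (hv : v ≠ 0) : ∃ l : V →ₗ[F] F, l v ≠ 0 := by
  by_contra h
  push Not at h
  exact hv ((Module.forall_dual_apply_eq_zero_iff F v).1 h)

end Lin

variable {F : Type*} [Field F] [CharZero F] {V : Type*} [AddCommGroup V] [Module F V]
variable {G : Type*} [Group G] [Fintype G] (ρ : G →* Module.End F V)

/-- The average of a linear map. -/
noncomputable def avg (A : Module.End F V) : Module.End F V :=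
  (Fintype.card G : F)⁻¹ • ∑ g : G, ρ g * A * ρ g⁻¹

theorem card_ne : (Fintype.card G : F) ≠ 0 := by
  rw [Nat.cast_ne_zero]
  exact Fintype.card_ne_zero

theorem avg_apply (A : Module.End F V) (x : V) :
    avg ρ A x = (Fintype.card G : F)⁻¹ • ∑ g : G, ρ g (A (ρ g⁻¹ x)) := by
  rw [avg, LinearMap.smul_apply, LinearMap.sum_apply]
  rfl

theorem rho_inv (g : G) (x : V) : ρ g (ρ g⁻¹ x) = x := by
  rw [← Module.End.mul_apply, ← map_mul, mul_inv_cancel, map_one, Module.End.one_apply]

theorem avg_comm (A : Module.End F V) (h : G) (x : V) : avg ρ A (ρ h x) = ρ h (avg ρ A x) := by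
  rw [avg_apply, avg_apply, map_smul, map_sum]
  congr 1
  rw [← Equiv.sum_comp (Equiv.mulLeft h)]
  apply Finset.sum_congr rfl
  intro g _
  rw [Equiv.coe_mulLeft, map_mul, Module.End.mul_apply, mul_inv_rev, ← Module.End.mul_apply (ρ _) (ρ h),
    ← map_mul, inv_mul_cancel_right]

variable {ρ}

theorem avg_mem {U U' : Submodule F V} (hU : ∀ g, ∀ x ∈ U, ρ g x ∈ U)
    (hU' : ∀ g, ∀ x ∈ U', ρ g x ∈ U') {A : Module.End F V} (h : ∀ x ∈ U, A x ∈ U') :
    ∀ x ∈ U, avg ρ A x ∈ U' := by
  intro x hx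
  rw [avg_apply]
  apply U'.smul_mem
  apply U'.sum_mem
  intro g _
  exact hU' g _ (h _ (hU _ _ hx))

theorem avg_eq {U : Submodule F V} (hU : ∀ g, ∀ x ∈ U, ρ g x ∈ U) {A B C : Module.End F V}
    (hB : ∀ g, ∀ x ∈ U, B (ρ g x) = ρ g (B x)) (hC : ∀ g, ∀ x ∈ U, C (ρ g x) = ρ g (C x))
    (h : ∀ x ∈ U, A (B x) = C x) : ∀ x ∈ U, avg ρ A (B x) = C x := by
  intro x hx
  have h1 : ∀ g : G, ρ g (A (ρ g⁻¹ (B x))) = C x := by
    intro g
    rw [← hB _ x hx, h _ (hU _ _ hx), hC _ x hx, rho_inv]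
  rw [avg_apply]
  simp only [h1]
  rw [Finset.sum_const, Finset.card_univ, ← Nat.cast_smul_eq_nsmul F, smul_smul,
    inv_mul_cancel₀ (card_ne (G := G)), one_smul]

theorem avg_sub_mem {U U' : Submodule F V} (hU : ∀ g, ∀ x ∈ U, ρ g x ∈ U)
    (hU' : ∀ g, ∀ x ∈ U', ρ g x ∈ U') {A : Module.End F V} (h : ∀ x ∈ U, x - A x ∈ U') :
    ∀ x ∈ U, x - avg ρ A x ∈ U' := by
  intro x hx
  have h1 : x - avg ρ A x = (Fintype.card G : F)⁻¹ •
      ∑ g : G, ρ g (ρ g⁻¹ x - A (ρ g⁻¹ x)) := by
    rw [avg_apply]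
    simp only [map_sub, Finset.sum_sub_distrib, rho_inv, smul_sub]
    rw [Finset.sum_const, Finset.card_univ, ← Nat.cast_smul_eq_nsmul F, smul_smul,
      inv_mul_cancel₀ (card_ne (G := G)), one_smul]
  rw [h1]
  apply U'.smul_mem
  apply U'.sum_mem
  intro g _
  exact hU' g _ (h _ (hU _ _ hx))

/-- Elements of the group algebra commute with equivariant maps. -/
theorem span_comm {e A : Module.End F V} (he : e ∈ Submodule.span F (Set.range ρ))
    (hA : ∀ g x, A (ρ g x) = ρ g (A x)) (x : V) : A (e x) = e (A x) := by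
  induction he using Submodule.span_induction with
  | mem e h =>
    obtain ⟨g, rfl⟩ := h
    exact hA g x
  | zero => rw [LinearMap.zero_apply, LinearMap.zero_apply, map_zero]
  | add a b _ _ h1 h2 => rw [LinearMap.add_apply, LinearMap.add_apply, map_add, h1, h2]
  | smul c a _ h1 => rw [LinearMap.smul_apply, LinearMap.smul_apply, map_smul, h1]

theorem span_mem {e : Module.End F V} (he : e ∈ Submodule.span F (Set.range ρ))
    {U : Submodule F V} (hU : ∀ g, ∀ x ∈ U, ρ g x ∈ U) : ∀ x ∈ U, e x ∈ U := by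
  intro x hx
  induction he using Submodule.span_induction with
  | mem e h =>
    obtain ⟨g, rfl⟩ := h
    exact hU g x hx
  | zero => exact U.zero_mem
  | add a b _ _ h1 h2 => exact U.add_mem h1 h2
  | smul c a _ h1 => exact U.smul_mem c h1

/-- The functionals which test the types of index `i`. -/
structure Ad {ι : Type*} [LinearOrder ι] (ρ : G →* Module.End F V) (W B : Submodule F V)
    (e : ι → Module.End F V) (i : ι) (φ : V →ₗ[F] F) : Prop where
  base : ∀ w ∈ B, φ w = 0
  fact : ∃ φ' : V →ₗ[F] F, (∀ w ∈ B, φ' w = 0) ∧ ∀ w, φ w = φ' (e i w)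
  kill : ∀ j < i, ∀ g : G, ∀ w ∈ W, φ (ρ g (e j w)) = 0

theorem rep_dist {ι : Type*} [LinearOrder ι] [WellFoundedLT ι] (W B : Submodule F V)
    (e : ι → Module.End F V) (he : ∀ i, e i ∈ Submodule.span F (Set.range ρ))
    (h1 : ∀ i, ∀ φ ψ : V →ₗ[F] F, Ad ρ W B e i φ → Ad ρ W B e i ψ →
      ∃ a b : F, (a ≠ 0 ∨ b ≠ 0) ∧ ∀ w ∈ W, a * φ w + b * ψ w = 0)
    (h2 : ∀ φ : V →ₗ[F] F, (∀ w ∈ B, φ w = 0) →
      (∀ i, ∀ g : G, ∀ w ∈ W, φ (ρ g (e i w)) = 0) → ∀ w ∈ W, φ w = 0)
    (U1 U2 U3 : Submodule F V) (hU1 : ∀ g, ∀ x ∈ U1, ρ g x ∈ U1)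
    (hU2 : ∀ g, ∀ x ∈ U2, ρ g x ∈ U2) (hU3 : ∀ g, ∀ x ∈ U3, ρ g x ∈ U3)
    (hB1 : B ≤ U1) (hB2 : B ≤ U2) (hW1 : U1 ≤ W) (hW2 : U2 ≤ W) :
    U1 ⊓ (U2 ⊔ U3) ≤ (U1 ⊓ U2) ⊔ (U1 ⊓ U3) := by
  intro f0 hf0
  by_contra hf0R
  set R := (U1 ⊓ U2) ⊔ (U1 ⊓ U3) with hR
  set S := U1 ⊓ (U2 ⊔ U3) with hS
  have hRst : ∀ g, ∀ x ∈ R, ρ g x ∈ R := by
    intro g x hx
    obtain ⟨a, ha, b, hb, rfl⟩ := Submodule.mem_sup.1 hx
    rw [map_add]
    exact Submodule.add_mem_sup ⟨hU1 g a ha.1, hU2 g a ha.2⟩ ⟨hU1 g b hb.1, hU3 g b hb.2⟩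
  have hSst : ∀ g, ∀ x ∈ S, ρ g x ∈ S := by
    rintro g x ⟨hx1, hx2⟩
    obtain ⟨a, ha, b, hb, hab⟩ := Submodule.mem_sup.1 hx2
    refine ⟨hU1 g x hx1, ?_⟩
    rw [← hab, map_add]
    exact Submodule.add_mem_sup (hU2 g a ha) (hU3 g b hb)
  have hRS : R ≤ S := sup_le (le_inf inf_le_left (le_trans inf_le_right le_sup_left))
    (le_inf inf_le_left (le_trans inf_le_right le_sup_right))
  have hBR : B ≤ R := le_trans (le_inf hB1 hB2) le_sup_left
  -- the equivariant projection onto `R`
  obtain ⟨r, hr1, _, hr3⟩ := exists_proj R ⊥ (inf_bot_eq _)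
  set pR := avg ρ r with hpR
  have hpR1 : ∀ x ∈ R, pR x = x := by
    have := avg_eq (ρ := ρ) (A := r) (B := LinearMap.id) (C := LinearMap.id) hRst
      (fun _ _ _ => rfl) (fun _ _ _ => rfl) hr1
    exact this
  have hpR2 : ∀ x, pR x ∈ R := by
    intro x
    exact avg_mem (ρ := ρ) (U := ⊤) (fun _ _ _ => Submodule.mem_top) hRst (fun x _ => hr3 x) x
      Submodule.mem_top
  -- the complement of `R` in `S`
  set S' := S.map (LinearMap.id - pR : Module.End F V) with hS'
  have hS'S : S' ≤ S := by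
    rintro _ ⟨s, hs, rfl⟩
    exact S.sub_mem hs (hRS (hpR2 s))
  have hS'st : ∀ g, ∀ x ∈ S', ρ g x ∈ S' := by
    rintro g _ ⟨s, hs, rfl⟩
    refine ⟨ρ g s, hSst g s hs, ?_⟩
    rw [LinearMap.sub_apply, LinearMap.sub_apply, LinearMap.id_apply, LinearMap.id_apply, map_sub,
      hpR, avg_comm]
  have hS'R : ∀ x ∈ S', x ∈ R → x = 0 := by
    rintro _ ⟨s, hs, rfl⟩ hx
    have h3 := hpR1 _ hx
    rw [← h3, LinearMap.sub_apply, LinearMap.id_apply, map_sub, hpR1 _ (hpR2 s), sub_self]
  set s0 := f0 - pR f0 with hs0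
  have hs0S' : s0 ∈ S' := ⟨f0, hf0, rfl⟩
  have hs0ne : s0 ≠ 0 := by
    intro h
    apply hf0R
    rw [sub_eq_zero.1 h]
    exact hpR2 f0
  have hS'1 : ∀ s ∈ S', s ∈ U1 := fun s hs => (hS'S hs).1
  -- the equivariant section
  obtain ⟨t, ht⟩ := exists_splitting U2 U3
  set τ := avg ρ t with hτ
  have hτ1 : ∀ s ∈ S', τ s ∈ U2 :=
    avg_mem hS'st hU2 (fun x hx => (ht x (hS'S hx).2).1)
  have hτ2 : ∀ s ∈ S', s - τ s ∈ U3 :=
    avg_sub_mem hS'st hU3 (fun x hx => (ht x (hS'S hx).2).2)
  have hτcomm : ∀ g x, τ (ρ g x) = ρ g (τ x) := fun g x => avg_comm ρ t g x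
  have hτU1 : ∀ s ∈ S', τ s ∈ U1 → s = 0 := by
    intro s hs h
    apply hS'R s hs
    have h3 : s = τ s + (s - τ s) := by abel
    rw [h3]
    exact Submodule.add_mem_sup ⟨h, hτ1 s hs⟩ ⟨U1.sub_mem (hS'1 s hs) h, hτ2 s hs⟩
  set TS := S'.map τ with hTS
  have hTSst : ∀ g, ∀ x ∈ TS, ρ g x ∈ TS := by
    rintro g _ ⟨s, hs, rfl⟩
    exact ⟨ρ g s, hS'st g s hs, hτcomm g s⟩
  -- the map `α`
  obtain ⟨a0, ha1, ha2, ha3⟩ := exists_proj S' (R ⊔ TS) (by
    rw [Submodule.eq_bot_iff]
    rintro x ⟨hx, hx2⟩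
    obtain ⟨r, hr, y, hy, hry⟩ := Submodule.mem_sup.1 hx2
    obtain ⟨s, hs, rfl⟩ := hy
    have h3 : τ s ∈ U1 := by
      have h4 : τ s = x - r := by rw [← hry, add_sub_cancel_left]
      rw [h4]
      exact U1.sub_mem (hS'1 x hx) (hRS hr).1
    have h5 := hτU1 s hs h3
    rw [h5, map_zero, add_zero] at hry
    rw [← hry] at hx ⊢
    exact hS'R _ hx hr)
  set α := avg ρ a0 with hα
  have hα1 : ∀ x ∈ S', α x = x := by
    have := avg_eq (ρ := ρ) (A := a0) (B := LinearMap.id) (C := LinearMap.id) hS'st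
      (fun _ _ _ => rfl) (fun _ _ _ => rfl) ha1
    exact this
  have hbot : ∀ g : G, ∀ x ∈ (⊥ : Submodule F V), ρ g x ∈ (⊥ : Submodule F V) := by
    intro g x hx
    rw [Submodule.mem_bot] at hx ⊢
    rw [hx, map_zero]
  have hα2 : ∀ x ∈ R, α x = 0 := by
    intro x hx
    have := avg_mem (ρ := ρ) (A := a0) (U' := ⊥) hRst hbot (fun y hy => by
      rw [Submodule.mem_bot]
      exact ha2 y (Submodule.mem_sup_left hy)) x hx
    rwa [Submodule.mem_bot] at this
  have hα2' : ∀ x ∈ TS, α x = 0 := by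
    intro x hx
    have := avg_mem (ρ := ρ) (A := a0) (U' := ⊥) hTSst hbot (fun y hy => by
      rw [Submodule.mem_bot]
      exact ha2 y (Submodule.mem_sup_right hy)) x hx
    rwa [Submodule.mem_bot] at this
  have hα3 : ∀ x, α x ∈ S' := fun x =>
    avg_mem (ρ := ρ) (U := ⊤) (fun _ _ _ => Submodule.mem_top) hS'st (fun x _ => ha3 x) x
      Submodule.mem_top
  -- the map `β`
  obtain ⟨p, hp1, hp2, hp3⟩ := exists_proj TS U1 (by
    rw [Submodule.eq_bot_iff]
    rintro x ⟨⟨s, hs, rfl⟩, hx⟩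
    rw [hτU1 s hs hx, map_zero])
  have hinj : LinearMap.ker (τ ∘ₗ S'.subtype) = ⊥ := by
    rw [Submodule.eq_bot_iff]
    intro s hs
    rw [LinearMap.mem_ker] at hs
    apply Subtype.ext
    have h3 : τ (s : V) = 0 := hs
    exact hτU1 s s.2 (by
      rw [h3]
      exact U1.zero_mem)
  obtain ⟨κ, hκ⟩ := LinearMap.exists_leftInverse_of_injective (τ ∘ₗ S'.subtype) hinj
  have hκ1 : ∀ s (hs : s ∈ S'), κ (τ s) = ⟨s, hs⟩ := by
    intro s hs
    have := congrArg (fun f : S' →ₗ[F] S' => f ⟨s, hs⟩) hκ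
    exact this
  let b0 : Module.End F V := S'.subtype ∘ₗ κ ∘ₗ p
  have hb1 : ∀ s ∈ S', b0 (τ s) = s := by
    intro s hs
    change ((κ (p (τ s)) : S') : V) = s
    rw [hp1 _ ⟨s, hs, rfl⟩, hκ1 s hs]
  have hb2 : ∀ x ∈ U1, b0 x = 0 := by
    intro x hx
    change ((κ (p x) : S') : V) = 0
    rw [hp2 x hx, map_zero]
    rfl
  have hb3 : ∀ x, b0 x ∈ S' := fun x => (κ (p x)).2
  set β := avg ρ b0 with hβ
  have hβ1 : ∀ s ∈ S', β (τ s) = s := by
    have := avg_eq (ρ := ρ) (A := b0) (B := τ) (C := LinearMap.id) hS'st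
      (fun g x _ => hτcomm g x) (fun _ _ _ => rfl) hb1
    exact this
  have hβ2 : ∀ x ∈ U1, β x = 0 := by
    intro x hx
    have := avg_mem (ρ := ρ) (A := b0) (U' := ⊥) hU1 hbot (fun y hy => by
      rw [Submodule.mem_bot]
      exact hb2 y hy) x hx
    rwa [Submodule.mem_bot] at this
  have hβ3 : ∀ x, β x ∈ S' := fun x =>
    avg_mem (ρ := ρ) (U := ⊤) (fun _ _ _ => Submodule.mem_top) hS'st (fun x _ => hb3 x) x
      Submodule.mem_top
  have hαcomm : ∀ g x, α (ρ g x) = ρ g (α x) := fun g x => avg_comm ρ a0 g x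
  have hβcomm : ∀ g x, β (ρ g x) = ρ g (β x) := fun g x => avg_comm ρ b0 g x
  have heS' : ∀ i, ∀ x ∈ S', e i x ∈ S' := fun i => span_mem (he i) hS'st
  -- some `e i` acts in a nonzero way on `S'`
  have hex : ∃ i, ∃ s ∈ S', e i s ≠ 0 := by
    by_contra hcon
    push Not at hcon
    obtain ⟨l, hl⟩ := exists_functional (F := F) hs0ne
    have h3 := h2 (l ∘ₗ α) (fun w hw => by
      rw [LinearMap.comp_apply, hα2 w (hBR hw), map_zero]) (fun i g w _ => by
      rw [LinearMap.comp_apply, hαcomm, span_comm (he i) hαcomm, hcon i _ (hα3 w), map_zero,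
        map_zero]) s0 (hW1 (hS'1 s0 hs0S'))
    rw [LinearMap.comp_apply, hα1 s0 hs0S'] at h3
    exact hl h3
  obtain ⟨i, ⟨s1, hs1, hs1ne⟩, himin⟩ := WellFounded.has_min (wellFounded_lt (α := ι))
    {i | ∃ s ∈ S', e i s ≠ 0} hex
  have hmin : ∀ j < i, ∀ s ∈ S', e j s = 0 := by
    intro j hj s hs
    by_contra hne
    exact himin j ⟨s, hs, hne⟩ hj
  obtain ⟨l, hl⟩ := exists_functional (F := F) hs1ne
  have hφ : ∀ γ : Module.End F V, (∀ x ∈ B, γ x = 0) → (∀ x, γ x ∈ S') →
      (∀ g x, γ (ρ g x) = ρ g (γ x)) → Ad ρ W B e i (l ∘ₗ e i ∘ₗ γ) := by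
    intro γ hγB hγS hγc
    refine ⟨?_, ⟨l ∘ₗ γ, ?_, ?_⟩, ?_⟩
    · intro w hw
      rw [LinearMap.comp_apply, LinearMap.comp_apply, hγB w hw, map_zero, map_zero]
    · intro w hw
      rw [LinearMap.comp_apply, hγB w hw, map_zero]
    · intro w
      rw [LinearMap.comp_apply, LinearMap.comp_apply, LinearMap.comp_apply,
        span_comm (he i) hγc]
    · intro j hj g w _
      rw [LinearMap.comp_apply, LinearMap.comp_apply, hγc, span_comm (he j) hγc,
        hmin j hj _ (hγS w), map_zero, map_zero, map_zero]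
  obtain ⟨a, b, hab, h3⟩ := h1 i _ _ (hφ α (fun x hx => hα2 x (hBR hx)) hα3 hαcomm)
    (hφ β (fun x hx => hβ2 x (hB1 hx)) hβ3 hβcomm)
  have ha : a = 0 := by
    have h4 := h3 s1 (hW1 (hS'1 s1 hs1))
    simp only [LinearMap.comp_apply] at h4
    rw [hα1 s1 hs1, hβ2 s1 (hS'1 s1 hs1), map_zero, map_zero, mul_zero, add_zero] at h4
    rcases mul_eq_zero.1 h4 with h | h
    · exact h
    · exact absurd h hl
  have hb : b = 0 := by
    have h4 := h3 (τ s1) (hW2 (hτ1 s1 hs1))
    simp only [LinearMap.comp_apply] at h4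
    rw [hα2' _ ⟨s1, hs1, rfl⟩, hβ1 s1 hs1, map_zero, map_zero, mul_zero, zero_add] at h4
    rcases mul_eq_zero.1 h4 with h | h
    · exact h
    · exact absurd h hl
  rcases hab with h | h
  · exact h ha
  · exact h hb

end Pool.Agent.Lib.MP_b4a71d_al
end

section

/-!
# Criteria for a level to be distributive
-/

set_option autoImplicit false
set_option linter.unusedSectionVars false

namespace Pool.Agent.Lib.MP_b4a71d_al

universe u

noncomputable section

open Polynomial

variable {F : Type u} [Field F]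

/-! ### The group of permutations of the variables in `Y` -/

/-- The action of the permutations of the variables in `Y`. -/
def rho (Y : Finset ℕ) : Equiv.Perm Y →* Module.End F (FL F) where
  toFun g := (ren (F := F) (Equiv.Perm.ofSubtype g : Equiv.Perm ℕ)).toLinearMap
  map_one' := by
    apply LinearMap.ext
    intro f
    change ren (⇑(Equiv.Perm.ofSubtype (1 : Equiv.Perm Y))) f = f
    rw [map_one]
    exact ren_id' f
  map_mul' g h := by
    apply LinearMap.ext
    intro f
    change ren _ f = ren _ (ren _ f)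
    rw [ren_ren, map_mul]
    rfl

theorem rho_apply (Y : Finset ℕ) (g : Equiv.Perm Y) (f : FL F) :
    rho Y g f = ren (⇑(Equiv.Perm.ofSubtype g : Equiv.Perm ℕ)) f := rfl

theorem ofSubtype_fix {Y : Finset ℕ} (g : Equiv.Perm Y) {i : ℕ} (hi : i ∉ Y) :
    (Equiv.Perm.ofSubtype g : Equiv.Perm ℕ) i = i :=
  Equiv.Perm.ofSubtype_apply_of_not_mem g hi

theorem exists_ofSubtype {Y : Finset ℕ} (σ : Equiv.Perm ℕ) (h : ∀ i, i ∉ Y → σ i = i) :
    ∃ g : Equiv.Perm Y, (Equiv.Perm.ofSubtype g : Equiv.Perm ℕ) = σ := by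
  have h1 : ∀ x, x ∈ Y ↔ σ x ∈ Y := by
    intro x
    have hY := image_eq_of_fix σ h
    constructor
    · intro hx
      rw [← hY]
      exact Finset.mem_image_of_mem _ hx
    · intro hx
      by_contra hcon
      rw [h x hcon] at hx
      exact hcon hx
  refine ⟨σ.subtypePerm (fun x => (h1 x).symm), ?_⟩
  apply Equiv.Perm.ofSubtype_subtypePerm
  intro x hx
  by_contra hcon
  exact hx (h x hcon)

theorem stab_iff {Y : Finset ℕ} {U : Submodule F (FL F)} :
    Stab Y U ↔ ∀ g : Equiv.Perm Y, ∀ x ∈ U, rho Y g x ∈ U := by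
  constructor
  · intro h g x hx
    exact h _ (fun i hi => ofSubtype_fix g hi) x hx
  · intro h σ hσ x hx
    obtain ⟨g, rfl⟩ := exists_ofSubtype σ hσ
    exact h g x hx

/-- The image of the group algebra of the permutations of the variables in `Y`. -/
def GA (Y : Finset ℕ) : Submodule F (Module.End F (FL F)) :=
  Submodule.span F (Set.range (rho (F := F) Y))

theorem ren_mem_GA {Y : Finset ℕ} (σ : Equiv.Perm ℕ) (h : ∀ i, i ∉ Y → σ i = i) :
    ((ren (F := F) σ).toLinearMap : Module.End F (FL F)) ∈ GA (F := F) Y := by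
  obtain ⟨g, rfl⟩ := exists_ofSubtype σ h
  exact Submodule.subset_span ⟨g, rfl⟩

theorem one_mem_GA (Y : Finset ℕ) : (1 : Module.End F (FL F)) ∈ GA (F := F) Y :=
  Submodule.subset_span ⟨1, map_one _⟩

theorem mul_mem_GA {Y : Finset ℕ} {a b : Module.End F (FL F)} (ha : a ∈ GA (F := F) Y)
    (hb : b ∈ GA (F := F) Y) : a * b ∈ GA (F := F) Y := by
  rw [GA] at ha
  induction ha using Submodule.span_induction with
  | mem a h =>
    obtain ⟨g, rfl⟩ := h
    rw [GA] at hb
    induction hb using Submodule.span_induction with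
    | mem b h =>
      obtain ⟨g', rfl⟩ := h
      exact Submodule.subset_span ⟨g * g', map_mul _ _ _⟩
    | zero =>
      rw [mul_zero]
      exact Submodule.zero_mem _
    | add a b _ _ h1 h2 =>
      rw [mul_add]
      exact Submodule.add_mem _ h1 h2
    | smul c a _ h1 =>
      rw [mul_smul_comm]
      exact Submodule.smul_mem _ c h1
  | zero =>
    rw [zero_mul]
    exact Submodule.zero_mem _
  | add a b _ _ h1 h2 =>
    rw [add_mul]
    exact Submodule.add_mem _ h1 h2
  | smul c a _ h1 =>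
    rw [smul_mul_assoc]
    exact Submodule.smul_mem _ c h1

theorem GA_mem {Y : Finset ℕ} {U : Submodule F (FL F)} (hU : Stab Y U) {e : Module.End F (FL F)}
    (he : e ∈ GA (F := F) Y) {x : FL F} (hx : x ∈ U) : e x ∈ U := by
  rw [GA] at he
  induction he using Submodule.span_induction with
  | mem e h =>
    obtain ⟨g, rfl⟩ := h
    exact stab_iff.1 hU g x hx
  | zero => exact U.zero_mem
  | add a b _ _ h1 h2 => exact U.add_mem h1 h2
  | smul c a _ h1 => exact U.smul_mem c h1

theorem stab_WW {Y : Finset ℕ} (h0 : 0 ∉ Y) (d : ℕ) : Stab Y (WW (F := F) Y d) :=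
  fun σ hσ _ hf => ren_WW σ (hσ 0 h0) (image_eq_of_fix σ hσ) hf

theorem stab_inf {Y : Finset ℕ} {U U' : Submodule F (FL F)} (h : Stab Y U) (h' : Stab Y U') :
    Stab Y (U ⊓ U') :=
  fun σ hσ f hf => ⟨h σ hσ f hf.1, h' σ hσ f hf.2⟩

theorem stab_sup {Y : Finset ℕ} {U U' : Submodule F (FL F)} (h : Stab Y U) (h' : Stab Y U') :
    Stab Y (U ⊔ U') := by
  intro σ hσ f hf
  obtain ⟨a, ha, b, hb, rfl⟩ := Submodule.mem_sup.1 hf
  rw [map_add]
  exact Submodule.add_mem_sup (h σ hσ a ha) (h' σ hσ b hb)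

theorem stab_T {T : Submodule F (FL F)} (hT : IsTIdeal F T) (Y : Finset ℕ) : Stab Y T :=
  fun _ _ _ hf => hT.map_mem _ _ hf

theorem stab_Orb (Y : Finset ℕ) (g : FL F) : Stab Y (Orb Y g) := by
  rw [stab_iff]
  intro h x hx
  rw [Orb] at hx ⊢
  induction hx using Submodule.span_induction with
  | mem x hx =>
    obtain ⟨σ, hσ, rfl⟩ := hx
    apply Submodule.subset_span
    refine ⟨(Equiv.Perm.ofSubtype h : Equiv.Perm ℕ) * σ, ?_, ?_⟩
    · intro i hi
      rw [Equiv.Perm.mul_apply, hσ i hi, ofSubtype_fix h hi]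
    · rw [rho_apply, ren_ren]
      rfl
  | zero =>
    rw [map_zero]
    exact Submodule.zero_mem _
  | add a b _ _ h1 h2 =>
    rw [map_add]
    exact Submodule.add_mem _ h1 h2
  | smul c a _ h1 =>
    rw [map_smul]
    exact Submodule.smul_mem _ c h1

theorem self_mem_Orb (Y : Finset ℕ) (g : FL F) : g ∈ Orb Y g := by
  apply Submodule.subset_span
  refine ⟨1, fun _ _ => rfl, ?_⟩
  exact (ren_id' g).symm

/-- Elements of the orbit span are images under the group algebra. -/
theorem mem_Orb_iff {Y : Finset ℕ} {g x : FL F} :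
    x ∈ Orb Y g ↔ ∃ a ∈ GA (F := F) Y, a g = x := by
  constructor
  · intro hx
    rw [Orb] at hx
    induction hx using Submodule.span_induction with
    | mem x hx =>
      obtain ⟨σ, hσ, rfl⟩ := hx
      exact ⟨_, ren_mem_GA σ hσ, rfl⟩
    | zero => exact ⟨0, Submodule.zero_mem _, rfl⟩
    | add a b _ _ h1 h2 =>
      obtain ⟨a', ha', rfl⟩ := h1
      obtain ⟨b', hb', rfl⟩ := h2
      exact ⟨a' + b', Submodule.add_mem _ ha' hb', rfl⟩
    | smul c a _ h1 =>
      obtain ⟨a', ha', rfl⟩ := h1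
      exact ⟨c • a', Submodule.smul_mem _ c ha', rfl⟩
  · rintro ⟨a, ha, rfl⟩
    exact GA_mem (stab_Orb Y g) ha (self_mem_Orb Y g)

/-! ### The criterion with functionals -/

/-- The functionals on the level `(k, d)` modulo `T` which are antisymmetric under the pairs in `C`
and killed by the operators in `L`. -/
structure Adm (T : Submodule F (FL F)) (k d : ℕ) (C : Set (ℕ × ℕ))
    (L : Set (Module.End F (FL F))) (φ : FL F →ₗ[F] F) : Prop where
  lam : ∀ w ∈ Lam (F := F) (Finset.Icc 1 k) d, φ w = 0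
  ideal : ∀ w ∈ T, w ∈ W (F := F) k d → φ w = 0
  anti : ∀ p ∈ C, ∀ w ∈ W (F := F) k d, φ (ren (Equiv.swap p.1 p.2) w) = -φ w
  kill : ∀ e ∈ L, ∀ σ : Equiv.Perm ℕ, (∀ i, i ∉ Finset.Icc 1 k → σ i = i) →
    ∀ w ∈ W (F := F) k d, φ (ren σ (e w)) = 0

/-- Dual form of the criterion for the distributivity of a level. -/
theorem levelGood_of_functionals [CharZero F] {T : Submodule F (FL F)} {k d r : ℕ}
    (e : Fin r → Module.End F (FL F)) (C : Fin r → Set (ℕ × ℕ))
    (he : ∀ i, e i ∈ GA (F := F) (Finset.Icc 1 k))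
    (hC : ∀ i, ∀ p ∈ C i, ∀ w ∈ W (F := F) k d,
      e i (ren (Equiv.swap p.1 p.2) w) = -e i w)
    (h1 : ∀ i, ∀ φ ψ : FL F →ₗ[F] F, Adm T k d (C i) {a | ∃ j < i, a = e j} φ →
      Adm T k d (C i) {a | ∃ j < i, a = e j} ψ →
      ∃ a b : F, (a ≠ 0 ∨ b ≠ 0) ∧ ∀ w ∈ W (F := F) k d, a * φ w + b * ψ w = 0)
    (h2 : ∀ φ : FL F →ₗ[F] F, Adm T k d ∅ (Set.range e) φ → ∀ w ∈ W (F := F) k d, φ w = 0) :
    LevelGood T k d := by
  intro U1 U2 U3 hU1 hU2 hU3
  set B : Submodule F (FL F) := Lam (Finset.Icc 1 k) d ⊔ (T ⊓ W k d) with hB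
  have hbase : ∀ φ : FL F →ₗ[F] F, (∀ w ∈ B, φ w = 0) →
      (∀ w ∈ Lam (F := F) (Finset.Icc 1 k) d, φ w = 0) ∧
        ∀ w ∈ T, w ∈ W (F := F) k d → φ w = 0 :=
    fun φ hφ => ⟨fun w hw => hφ w (Submodule.mem_sup_left hw),
      fun w hw hw2 => hφ w (Submodule.mem_sup_right ⟨hw, hw2⟩)⟩
  apply rep_dist (ρ := rho (Finset.Icc 1 k)) (W k d) B e he
  · intro i φ ψ hφ hψ
    have key : ∀ φ : FL F →ₗ[F] F, Ad (rho (Finset.Icc 1 k)) (W k d) B e i φ →
        Adm T k d (C i) {a | ∃ j < i, a = e j} φ := by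
      intro φ hφ
      refine ⟨(hbase φ hφ.base).1, (hbase φ hφ.base).2, ?_, ?_⟩
      · intro p hp w hw
        obtain ⟨φ', _, h3⟩ := hφ.fact
        rw [h3, h3, hC i p hp w hw, map_neg]
      · rintro _ ⟨j, hj, rfl⟩ σ hσ w hw
        obtain ⟨g, rfl⟩ := exists_ofSubtype σ hσ
        exact hφ.kill j hj g w hw
    exact h1 i φ ψ (key φ hφ) (key ψ hψ)
  · intro φ hφ hkill
    apply h2 φ
    refine ⟨(hbase φ hφ).1, (hbase φ hφ).2, ?_, ?_⟩
    · intro p hp
      exact absurd hp (Set.notMem_empty p)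
    · rintro _ ⟨i, rfl⟩ σ hσ w hw
      obtain ⟨g, rfl⟩ := exists_ofSubtype σ hσ
      exact hkill i g w hw
  · exact stab_iff.1 hU1.stab
  · exact stab_iff.1 hU2.stab
  · exact stab_iff.1 hU3.stab
  · exact sup_le hU1.lam_le hU1.T_le
  · exact sup_le hU2.lam_le hU2.T_le
  · exact hU1.le_W
  · exact hU2.le_W

/-! ### The converse -/

/-- In a distributive level two vectors of the same type are dependent modulo the base. -/
theorem dependent_of_levelGood [CharZero F] {T : Submodule F (FL F)} (hT : IsTIdeal F T) {k d : ℕ}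
    (h : LevelGood T k d) (e : Module.End F (FL F)) (he : e ∈ GA (F := F) (Finset.Icc 1 k))
    (hprim : ∀ σ : Equiv.Perm ℕ, (∀ i, i ∉ Finset.Icc 1 k → σ i = i) →
      ∃ c : F, ∀ w ∈ W (F := F) k d, e (ren σ (e w)) = c • e w)
    {κ : F} (hκ : κ ≠ 0) {g1 g2 : FL F} (hg1 : g1 ∈ W k d) (hg2 : g2 ∈ W k d)
    (he1 : e g1 = κ • g1) (he2 : e g2 = κ • g2) :
    ∃ a b : F, (a ≠ 0 ∨ b ≠ 0) ∧ a • g1 + b • g2 ∈ Lam (Finset.Icc 1 k) d ⊔ (T ⊓ W k d) := by
  set Y := Finset.Icc 1 k with hY
  have h0 : 0 ∉ Y := by simp [hY]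
  set B : Submodule F (FL F) := Lam Y d ⊔ (T ⊓ W k d) with hB
  have hBst : Stab Y B := stab_sup (stab_Lam h0 d) (stab_inf (stab_T hT Y) (stab_WW h0 d))
  have hBW : B ≤ W k d := sup_le (Lam_le Y d) inf_le_right
  have hlev : ∀ g ∈ W (F := F) k d, LevU T k d (B ⊔ Orb Y g) := by
    intro g hg
    refine ⟨le_trans le_sup_left le_sup_left, le_trans le_sup_right le_sup_left, ?_, ?_⟩
    · apply sup_le hBW
      exact orb_le (stab_WW h0 d) hg
    · exact stab_sup hBst (stab_Orb Y g)
  -- scalars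
  have hprim2 : ∀ a ∈ GA (F := F) Y, ∃ c : F, ∀ w ∈ W (F := F) k d, e (a (e w)) = c • e w := by
    intro a ha
    rw [GA] at ha
    induction ha using Submodule.span_induction with
    | mem a h =>
      obtain ⟨g, rfl⟩ := h
      exact hprim _ (fun i hi => ofSubtype_fix g hi)
    | zero => exact ⟨0, fun w _ => by rw [LinearMap.zero_apply, map_zero, zero_smul]⟩
    | add a b _ _ h1 h2 =>
      obtain ⟨c1, h1⟩ := h1
      obtain ⟨c2, h2⟩ := h2
      exact ⟨c1 + c2, fun w hw => by rw [LinearMap.add_apply, map_add, h1 w hw, h2 w hw, add_smul]⟩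
    | smul c a _ h1 =>
      obtain ⟨c1, h1⟩ := h1
      exact ⟨c * c1, fun w hw => by rw [LinearMap.smul_apply, map_smul, h1 w hw, smul_smul]⟩
  have hgen : ∀ g ∈ W (F := F) k d, e g = κ • g → ∀ x ∈ B ⊔ Orb Y g,
      ∃ c : F, e x - c • g ∈ B := by
    intro g hg heg x hx
    obtain ⟨b, hb, y, hy, rfl⟩ := Submodule.mem_sup.1 hx
    obtain ⟨a, ha, rfl⟩ := mem_Orb_iff.1 hy
    obtain ⟨c, hc⟩ := hprim2 a ha
    refine ⟨c, ?_⟩
    have h3 : κ • e (a g) = κ • (c • g) := by
      have h4 := hc g hg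
      rw [heg, map_smul, map_smul] at h4
      rw [h4, smul_comm]
    have h4 : e (a g) = c • g := smul_right_injective _ hκ h3
    rw [map_add, h4, add_sub_cancel_right]
    exact GA_mem hBst he hb
  have hg12 : g1 + g2 ∈ W k d := Submodule.add_mem _ hg1 hg2
  have he12 : e (g1 + g2) = κ • (g1 + g2) := by rw [map_add, he1, he2, smul_add]
  have hd := h _ _ _ (hlev g1 hg1) (hlev g2 hg2) (hlev (g1 + g2) hg12)
  have hmem : g1 ∈ (B ⊔ Orb Y g1) ⊓ ((B ⊔ Orb Y g2) ⊔ (B ⊔ Orb Y (g1 + g2))) := by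
    refine ⟨Submodule.mem_sup_right (self_mem_Orb Y g1), ?_⟩
    have h3 : -g2 + (g1 + g2) ∈ (B ⊔ Orb Y g2) ⊔ (B ⊔ Orb Y (g1 + g2)) := by
      apply Submodule.add_mem_sup
      · apply Submodule.neg_mem
        exact Submodule.mem_sup_right (self_mem_Orb Y g2)
      · exact Submodule.mem_sup_right (self_mem_Orb Y (g1 + g2))
    have h4 : -g2 + (g1 + g2) = g1 := by abel
    rwa [h4] at h3
  obtain ⟨u, hu, v, hv, huv⟩ := Submodule.mem_sup.1 (hd hmem)
  obtain ⟨a1, ha1⟩ := hgen g1 hg1 he1 u hu.1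
  obtain ⟨b1, hb1⟩ := hgen g2 hg2 he2 u hu.2
  obtain ⟨a2, ha2⟩ := hgen g1 hg1 he1 v hv.1
  obtain ⟨b2, hb2⟩ := hgen (g1 + g2) hg12 he12 v hv.2
  have h3 : a1 • g1 + (-b1) • g2 ∈ B := by
    have := B.sub_mem hb1 ha1
    have h4 : e u - b1 • g2 - (e u - a1 • g1) = a1 • g1 + (-b1) • g2 := by
      rw [neg_smul]
      abel
    rwa [h4] at this
  have h5 : (a2 - b2) • g1 + (-b2) • g2 ∈ B := by
    have := B.sub_mem hb2 ha2
    have h4 : e v - b2 • (g1 + g2) - (e v - a2 • g1) = (a2 - b2) • g1 + (-b2) • g2 := by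
      rw [neg_smul, sub_smul, smul_add]
      abel
    rwa [h4] at this
  by_cases hab : a1 ≠ 0 ∨ -b1 ≠ 0
  · exact ⟨a1, -b1, hab, h3⟩
  · by_cases hab2 : a2 - b2 ≠ 0 ∨ -b2 ≠ 0
    · exact ⟨a2 - b2, -b2, hab2, h5⟩
    · push Not at hab hab2
      have hb2z : b2 = 0 := neg_eq_zero.1 hab2.2
      have ha2z : a2 = 0 := by
        have := hab2.1
        rwa [hb2z, sub_zero] at this
      refine ⟨κ, 0, Or.inl hκ, ?_⟩
      rw [zero_smul, add_zero, ← he1, ← huv, map_add]
      apply B.add_mem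
      · have := ha1
        rwa [hab.1, zero_smul, sub_zero] at this
      · have := ha2
        rwa [ha2z, zero_smul, sub_zero] at this

variable [CharZero F]

/-- A highest weight vector in the base lies in `T`. -/
theorem mem_T_of_ker {T : Submodule F (FL F)} (hT : IsTIdeal F T) {k d : ℕ} {g : FL F}
    (hE : ∀ j ∈ Finset.Icc 1 k, E j g = 0)
    (hg : g ∈ Lam (Finset.Icc 1 k) d ⊔ (T ⊓ W k d)) : g ∈ T := by
  set Y := Finset.Icc 1 k with hY
  obtain ⟨q, hq0, hq⟩ := exists_q (F := F) Y (k + d)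
  have hOm : (Om Y : Module.End F (FL F)) g = 0 := by
    rw [Om, LinearMap.sum_apply]
    apply Finset.sum_eq_zero
    intro j hj
    rw [Module.End.mul_apply, hE j hj, map_zero]
  have h1 := aeval_sub_mem (Om Y) (⊥ : Submodule F (FL F)) (fun x hx => by
    rw [Submodule.mem_bot] at hx ⊢
    rw [hx, map_zero]) q g (by rw [hOm]; exact Submodule.zero_mem _)
  rw [Submodule.mem_bot, sub_eq_zero] at h1
  obtain ⟨a, ha, b, hb, hab⟩ := Submodule.mem_sup.1 hg
  have h2 : aeval (Om Y) q g ∈ T := by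
    rw [← hab, map_add, aeval_Lam (by simp [hY]) hq ha, zero_add]
    exact aeval_mem_of_stable _ T (hT.Om_mem Y) q b hb.1
  rw [h1] at h2
  exact (Submodule.smul_mem_iff _ hq0).1 h2

/-- Every element of the level is a highest weight vector modulo lower levels. -/
theorem exists_ker (k d : ℕ) : ∃ Q : Module.End F (FL F),
    (∀ w ∈ W (F := F) k d, Q w ∈ W (F := F) k d ∧ w - Q w ∈ Lam (F := F) (Finset.Icc 1 k) d ∧
      ∀ j ∈ Finset.Icc 1 k, E j (Q w) = 0) ∧
    (∀ w ∈ Lam (F := F) (Finset.Icc 1 k) d, Q w = 0) ∧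
    (∀ w, (∀ j ∈ Finset.Icc 1 k, E j w = 0) → Q w = w) ∧
    (∀ I : Submodule F (FL F), IsTIdeal F I → ∀ w ∈ I, Q w ∈ I) := by
  set Y := Finset.Icc 1 k with hY
  have h0 : 0 ∉ Y := by simp [hY]
  have hYc : Y.card = k := by simp [hY]
  obtain ⟨q, hq0, hq⟩ := exists_q (F := F) Y (k + d)
  have hcardW : Multiset.card (cont Y d) = k + d := card_cont k d
  have hOmLam : ∀ g ∈ WW (F := F) Y d, (Om Y : Module.End F (FL F)) g ∈ Lam Y d := by
    intro g hg
    rw [Om, LinearMap.sum_apply]
    apply Submodule.sum_mem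
    intro j hj
    rw [Module.End.mul_apply]
    exact (le_iSup₂_of_le (f := fun j (_ : j ∈ Y) => (WW (F := F) (Y.erase j) (d + 1)).map (D j))
      j hj le_rfl) ⟨_, E_mem hj h0 hg, rfl⟩
  refine ⟨(q.coeff 0)⁻¹ • aeval (Om Y) q, ?_, ?_, ?_, ?_⟩
  · intro w hw
    refine ⟨?_, ?_, ?_⟩
    · rw [LinearMap.smul_apply]
      apply Submodule.smul_mem
      exact aeval_mem_of_stable _ (WW Y d) (fun x hx => Lam_le Y d (hOmLam x hx)) q w hw
    · have h3 := aeval_sub_mem (Om Y) (Lam Y d) (fun x hx => hOmLam x (Lam_le Y d hx)) q w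
        (hOmLam w hw)
      have h4 : w - ((q.coeff 0)⁻¹ • aeval (Om Y) q : Module.End F (FL F)) w =
          (-(q.coeff 0)⁻¹) • (aeval (Om Y) q w - q.coeff 0 • w) := by
        rw [LinearMap.smul_apply, neg_smul, smul_sub, smul_smul, inv_mul_cancel₀ hq0, one_smul]
        abel
      rw [h4]
      exact Submodule.smul_mem _ _ h3
    · intro j hj
      rw [LinearMap.smul_apply, map_smul, (hq (cont Y d) hcardW (fun i hi => mem_cont hi) w hw j
        hj).1, smul_zero]
  · intro w hw
    rw [LinearMap.smul_apply, aeval_Lam (by rw [hYc]) hq hw, smul_zero]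
  · intro w hE
    have hOm : (Om Y : Module.End F (FL F)) w = 0 := by
      rw [Om, LinearMap.sum_apply]
      apply Finset.sum_eq_zero
      intro j hj
      rw [Module.End.mul_apply, hE j hj, map_zero]
    have h1 := aeval_sub_mem (Om Y) (⊥ : Submodule F (FL F)) (fun x hx => by
      rw [Submodule.mem_bot] at hx ⊢
      rw [hx, map_zero]) q w (by rw [hOm]; exact Submodule.zero_mem _)
    rw [Submodule.mem_bot, sub_eq_zero] at h1
    rw [LinearMap.smul_apply, h1, smul_smul, inv_mul_cancel₀ hq0, one_smul]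
  · intro I hI w hw
    rw [LinearMap.smul_apply]
    exact Submodule.smul_mem _ _ (aeval_mem_of_stable _ I (hI.Om_mem Y) q w hw)

end

end Pool.Agent.Lib.MP_b4a71d_al
end

section

/-!
# Symmetrizers and antisymmetrizers

`altL l` and `symL l` are the antisymmetrizer and the symmetrizer over the letters of the list `l`
(a list without repetition), defined by recursion.
-/

set_option autoImplicit false
set_option linter.unusedSectionVars false

namespace Pool.Agent.Lib.MP_b4a71d_al

universe u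

noncomputable section

variable {F : Type u} [Field F]

/-- The operator which exchanges the letters `a` and `b`. -/
def sw (a b : ℕ) : Module.End F (FL F) := (ren (F := F) (Equiv.swap a b)).toLinearMap

theorem sw_apply (a b : ℕ) (f : FL F) : sw a b f = ren (Equiv.swap a b) f := rfl

theorem ren_mul (σ τ : Equiv.Perm ℕ) :
    ((ren (F := F) σ).toLinearMap * (ren (F := F) τ).toLinearMap : Module.End F (FL F)) =
      (ren (F := F) (σ * τ : Equiv.Perm ℕ)).toLinearMap := by
  apply LinearMap.ext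
  intro f
  change ren σ (ren τ f) = ren _ f
  rw [ren_ren]
  rfl

theorem sw_mul_sw (a b c d : ℕ) : (sw a b : Module.End F (FL F)) * sw c d =
    sw (Equiv.swap a b c) (Equiv.swap a b d) * sw a b := by
  rw [sw, sw, sw, ren_mul, ren_mul, Equiv.mul_swap_eq_swap_mul]

theorem sw_sq (a b : ℕ) : (sw a b : Module.End F (FL F)) * sw a b = 1 := by
  apply LinearMap.ext
  intro f
  change ren _ (ren _ f) = f
  rw [ren_ren]
  have : (Equiv.swap a b : ℕ → ℕ) ∘ (Equiv.swap a b : ℕ → ℕ) = id := by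
    funext i
    simp
  rw [this, ren_id']

theorem sw_comm (a b : ℕ) : (sw a b : Module.End F (FL F)) = sw b a := by
  rw [sw, sw, Equiv.swap_comm]

theorem sw_mem_GA {Y : Finset ℕ} {a b : ℕ} (ha : a ∈ Y) (hb : b ∈ Y) :
    (sw a b : Module.End F (FL F)) ∈ GA (F := F) Y := by
  apply ren_mem_GA
  intro i hi
  apply Equiv.swap_apply_of_ne_of_ne
  · rintro rfl
    exact hi ha
  · rintro rfl
    exact hi hb

/-- The (anti)symmetrizer over a list of letters, by recursion; `ε` is `1` or `-1`. -/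
def symE (ε : F) : List ℕ → Module.End F (FL F)
  | [] => 1
  | t :: A => symE ε A * (1 + ε • (A.map (fun a => (sw a t : Module.End F (FL F)))).sum)

/-- The antisymmetrizer over a list of letters. -/
def altL (l : List ℕ) : Module.End F (FL F) := symE (-1) l

/-- The symmetrizer over a list of letters. -/
def symL (l : List ℕ) : Module.End F (FL F) := symE 1 l

@[simp] theorem symE_nil (ε : F) : symE ε [] = 1 := rfl

theorem symE_cons (ε : F) (t : ℕ) (A : List ℕ) :
    symE ε (t :: A) = symE ε A * (1 + ε • (A.map (fun a => (sw a t : Module.End F (FL F)))).sum) :=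
  rfl

theorem altL_cons (t : ℕ) (A : List ℕ) (w : FL F) :
    altL (t :: A) w = altL A (w - (A.map (fun a => ren (Equiv.swap a t) w)).sum) := by
  rw [altL, symE_cons, Module.End.mul_apply]
  congr 1
  rw [LinearMap.add_apply, LinearMap.smul_apply, Module.End.one_apply, neg_smul, one_smul,
    sub_eq_add_neg]
  congr 2
  induction A with
  | nil => simp
  | cons a A ih =>
    rw [List.map_cons, List.sum_cons, List.map_cons, List.sum_cons, LinearMap.add_apply, ih]
    rfl

theorem symL_cons (t : ℕ) (A : List ℕ) (w : FL F) :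
    symL (t :: A) w = symL A (w + (A.map (fun a => ren (Equiv.swap a t) w)).sum) := by
  rw [symL, symE_cons, Module.End.mul_apply]
  congr 1
  rw [LinearMap.add_apply, LinearMap.smul_apply, Module.End.one_apply, one_smul]
  congr 1
  induction A with
  | nil => simp
  | cons a A ih =>
    rw [List.map_cons, List.sum_cons, List.map_cons, List.sum_cons, LinearMap.add_apply, ih]
    rfl

theorem symE_mem_GA (ε : F) {Y : Finset ℕ} (l : List ℕ) (hl : ∀ a ∈ l, a ∈ Y) :
    symE ε l ∈ GA (F := F) Y := by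
  induction l with
  | nil => exact one_mem_GA Y
  | cons t A ih =>
    rw [symE_cons]
    apply mul_mem_GA (ih (fun a ha => hl a (List.mem_cons_of_mem _ ha)))
    apply Submodule.add_mem _ (one_mem_GA Y)
    apply Submodule.smul_mem
    apply list_sum_mem
    intro x hx
    obtain ⟨a, ha, rfl⟩ := List.mem_map.1 hx
    exact sw_mem_GA (hl a (List.mem_cons_of_mem _ ha)) (hl t List.mem_cons_self)

theorem altL_mem_GA {Y : Finset ℕ} (l : List ℕ) (hl : ∀ a ∈ l, a ∈ Y) :
    (altL l : Module.End F (FL F)) ∈ GA (F := F) Y := symE_mem_GA _ l hl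

theorem symL_mem_GA {Y : Finset ℕ} (l : List ℕ) (hl : ∀ a ∈ l, a ∈ Y) :
    (symL l : Module.End F (FL F)) ∈ GA (F := F) Y := symE_mem_GA _ l hl

theorem perm_map_swap {A : List ℕ} (hA : A.Nodup) {a b : ℕ} (ha : a ∈ A) (hb : b ∈ A) :
    (A.map (Equiv.swap a b)).Perm A := by
  have hm : ∀ x, x ∈ A → Equiv.swap a b x ∈ A := by
    intro x hx
    by_cases h1 : x = a
    · subst h1
      rw [Equiv.swap_apply_left]
      exact hb
    · by_cases h2 : x = b
      · subst h2
        rw [Equiv.swap_apply_right]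
        exact ha
      · rw [Equiv.swap_apply_of_ne_of_ne h1 h2]
        exact hx
  rw [List.perm_ext_iff_of_nodup (hA.map (Equiv.injective _)) hA]
  intro x
  rw [List.mem_map]
  constructor
  · rintro ⟨y, hy, rfl⟩
    exact hm y hy
  · intro hx
    exact ⟨Equiv.swap a b x, hm x hx, by simp⟩

theorem sum_map_mul_right (A : List ℕ) (f : ℕ → Module.End F (FL F)) (x : Module.End F (FL F)) :
    (A.map f).sum * x = (A.map (fun a => f a * x)).sum := by
  induction A with
  | nil => simp
  | cons a A ih => rw [List.map_cons, List.sum_cons, add_mul, ih, List.map_cons, List.sum_cons]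

theorem sum_map_mul_left (A : List ℕ) (f : ℕ → Module.End F (FL F)) (x : Module.End F (FL F)) :
    x * (A.map f).sum = (A.map (fun a => x * f a)).sum := by
  induction A with
  | nil => simp
  | cons a A ih => rw [List.map_cons, List.sum_cons, mul_add, ih, List.map_cons, List.sum_cons]

theorem sum_sw_comm {A : List ℕ} (hA : A.Nodup) {a b t : ℕ} (ha : a ∈ A) (hb : b ∈ A)
    (ht : t ∉ A) :
    (A.map (fun c => (sw c t : Module.End F (FL F)))).sum * sw a b =
      sw a b * (A.map (fun c => (sw c t : Module.End F (FL F)))).sum := by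
  have hta : t ≠ a := by
    rintro rfl
    exact ht ha
  have htb : t ≠ b := by
    rintro rfl
    exact ht hb
  have h2 : sw a b * (A.map (fun c => (sw c t : Module.End F (FL F)))).sum =
      ((A.map (Equiv.swap a b)).map (fun c => (sw c t : Module.End F (FL F)) * sw a b)).sum := by
    rw [sum_map_mul_left, List.map_map]
    congr 1
    apply List.map_congr_left
    intro c _
    rw [sw_mul_sw, Equiv.swap_apply_of_ne_of_ne hta htb]
    rfl
  rw [h2, sum_map_mul_right]
  exact (((perm_map_swap hA ha hb).map _).sum_eq).symm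

/-- Right multiplication of the (anti)symmetrizer by a transposition. -/
theorem symE_sw {ε : F} (hε : ε * ε = 1) (l : List ℕ) (hl : l.Nodup) {a b : ℕ} (ha : a ∈ l)
    (hb : b ∈ l) (hab : a ≠ b) : symE ε l * sw a b = ε • symE ε l := by
  induction l generalizing a b with
  | nil => exact absurd ha List.not_mem_nil
  | cons t A ih =>
    have hA := (List.nodup_cons.1 hl).2
    have htA := (List.nodup_cons.1 hl).1
    -- the case of the new letter
    have hnew : ∀ b ∈ A, symE ε (t :: A) * sw b t = ε • symE ε (t :: A) := by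
      intro b hb
      rw [symE_cons, mul_assoc, add_mul, one_mul, smul_mul_assoc, sum_map_mul_right]
      have h1 : ∀ c ∈ A, symE ε A * (sw c t * sw b t) =
          if c = b then symE ε A else ε • (symE ε A * sw c t) := by
        intro c hc
        by_cases hcb : c = b
        · rw [if_pos hcb, hcb, sw_sq, mul_one]
        · rw [if_neg hcb]
          have htc : t ≠ c := by
            rintro rfl
            exact htA hc
          have htb : t ≠ b := by
            rintro rfl
            exact htA hb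
          rw [sw_mul_sw, Equiv.swap_apply_right,
            Equiv.swap_apply_of_ne_of_ne (Ne.symm hcb) (Ne.symm htb), ← mul_assoc,
            ih hA hb hc (Ne.symm hcb), smul_mul_assoc]
      have h2 : symE ε A * (A.map (fun c => (sw c t * sw b t : Module.End F (FL F)))).sum =
          symE ε A - ε • (symE ε A * sw b t) +
            ε • (symE ε A * (A.map (fun c => (sw c t : Module.End F (FL F)))).sum) := by
        rw [sum_map_mul_left, sum_map_mul_left]
        have h3 : ∀ (B : List ℕ), B.Nodup → (∀ c ∈ B, c ∈ A) →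
            (B.map (fun c => symE ε A * (sw c t * sw b t))).sum =
              (if b ∈ B then symE ε A - ε • (symE ε A * sw b t) else 0) +
                ε • (B.map (fun c => symE ε A * sw c t)).sum := by
          intro B
          induction B with
          | nil => simp
          | cons c B ihB =>
            intro hB hBA
            have hcB := (List.nodup_cons.1 hB).1
            rw [List.map_cons, List.sum_cons, List.map_cons, List.sum_cons,
              ihB (List.nodup_cons.1 hB).2 (fun x hx => hBA x (List.mem_cons_of_mem _ hx)),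
              h1 c (hBA c List.mem_cons_self)]
            by_cases hcb : c = b
            · subst hcb
              rw [if_pos rfl, if_neg hcB, if_pos List.mem_cons_self, smul_add]
              abel
            · rw [if_neg hcb]
              by_cases hbB : b ∈ B
              · rw [if_pos hbB, if_pos (List.mem_cons_of_mem _ hbB), smul_add]
                abel
              · rw [if_neg hbB, if_neg, smul_add]
                · abel
                · rw [List.mem_cons, not_or]
                  exact ⟨Ne.symm hcb, hbB⟩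
        rw [h3 A hA (fun _ h => h), if_pos hb]
      rw [mul_add, mul_smul_comm, h2, mul_add, mul_one, mul_smul_comm, smul_add, smul_add,
        smul_sub, smul_smul, smul_smul, hε, one_smul, one_smul]
      abel
    by_cases hat : a = t
    · subst hat
      have hbA : b ∈ A := by
        rcases List.mem_cons.1 hb with h | h
        · exact absurd h.symm hab
        · exact h
      rw [sw_comm]
      exact hnew b hbA
    · have haA : a ∈ A := by
        rcases List.mem_cons.1 ha with h | h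
        · exact absurd h hat
        · exact h
      by_cases hbt : b = t
      · subst hbt
        exact hnew a haA
      · have hbA : b ∈ A := by
          rcases List.mem_cons.1 hb with h | h
          · exact absurd h hbt
          · exact h
        rw [symE_cons, mul_assoc, add_mul, one_mul, smul_mul_assoc, sum_sw_comm hA haA hbA htA,
          ← mul_smul_comm, ← mul_one_add, ← mul_assoc, ih hA haA hbA hab, smul_mul_assoc]

theorem altL_sw (l : List ℕ) (hl : l.Nodup) {a b : ℕ} (ha : a ∈ l)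
    (hb : b ∈ l) (hab : a ≠ b) (w : FL F) :
    altL l (ren (Equiv.swap a b) w) = -altL l w := by
  have := symE_sw (F := F) (ε := -1) (by ring) l hl ha hb hab
  have h2 := congrArg (fun A : Module.End F (FL F) => A w) this
  beta_reduce at h2
  rw [Module.End.mul_apply, LinearMap.smul_apply, neg_smul, one_smul] at h2
  exact h2

theorem symL_sw (l : List ℕ) (hl : l.Nodup) {a b : ℕ} (ha : a ∈ l)
    (hb : b ∈ l) (hab : a ≠ b) (w : FL F) :
    symL l (ren (Equiv.swap a b) w) = symL l w := by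
  have := symE_sw (F := F) (ε := 1) (by ring) l hl ha hb hab
  have h2 := congrArg (fun A : Module.End F (FL F) => A w) this
  beta_reduce at h2
  rw [Module.End.mul_apply, LinearMap.smul_apply, one_smul] at h2
  exact h2

/-- A functional which is (anti)symmetric on the elements of a stable subspace. -/
theorem functional_symE {ε : F} (hε : ε * ε = 1) (l : List ℕ) (hl : l.Nodup)
    (W : Submodule F (FL F)) (hW : ∀ a ∈ l, ∀ b ∈ l, ∀ w ∈ W, ren (Equiv.swap a b) w ∈ W)
    (φ : FL F →ₗ[F] F)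
    (hφ : ∀ a ∈ l, ∀ b ∈ l, a ≠ b → ∀ w ∈ W, φ (ren (Equiv.swap a b) w) = ε * φ w) :
    ∀ w ∈ W, φ (symE ε l w) = (l.length.factorial : F) * φ w := by
  induction l with
  | nil =>
    intro w _
    simp
  | cons t A ih =>
    intro w hw
    have htA := (List.nodup_cons.1 hl).1
    have hsum : ∀ B : List ℕ, (∀ a ∈ B, a ∈ A) →
        ((B.map (fun a => (sw a t : Module.End F (FL F)))).sum w ∈ W) ∧
        φ ((B.map (fun a => (sw a t : Module.End F (FL F)))).sum w) = B.length * (ε * φ w) := by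
      intro B
      induction B with
      | nil => simp
      | cons b B ihB =>
        intro hB
        obtain ⟨h1, h2⟩ := ihB (fun a ha => hB a (List.mem_cons_of_mem _ ha))
        have hbA := hB b List.mem_cons_self
        have hbt : b ≠ t := by
          rintro rfl
          exact htA hbA
        rw [List.map_cons, List.sum_cons, LinearMap.add_apply]
        constructor
        · exact W.add_mem (hW b (List.mem_cons_of_mem _ hbA) t List.mem_cons_self w hw) h1
        · rw [map_add, h2, sw_apply, hφ b (List.mem_cons_of_mem _ hbA) t List.mem_cons_self hbt w hw,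
            List.length_cons, Nat.cast_add, Nat.cast_one]
          ring
    obtain ⟨h1, h2⟩ := hsum A (fun _ h => h)
    rw [symE_cons, Module.End.mul_apply, ih (List.nodup_cons.1 hl).2
      (fun a ha b hb => hW a (List.mem_cons_of_mem _ ha) b (List.mem_cons_of_mem _ hb))
      (fun a ha b hb => hφ a (List.mem_cons_of_mem _ ha) b (List.mem_cons_of_mem _ hb))]
    · rw [LinearMap.add_apply, LinearMap.smul_apply, Module.End.one_apply, map_add, map_smul, h2,
        smul_eq_mul, List.length_cons, Nat.factorial_succ]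
      push_cast
      linear_combination (A.length.factorial : F) * (A.length : F) * φ w * hε
    · rw [LinearMap.add_apply, LinearMap.smul_apply, Module.End.one_apply]
      exact W.add_mem hw (W.smul_mem _ h1)

/-- Garnir relation: an antisymmetric functional over the letters of `A` which is killed by the
antisymmetrizer over `t :: A`. -/
theorem garnir [CharZero F] (t : ℕ) (A : List ℕ) (hA : (t :: A).Nodup)
    (W : Submodule F (FL F)) (hW : ∀ a ∈ t :: A, ∀ b ∈ t :: A, ∀ w ∈ W, ren (Equiv.swap a b) w ∈ W)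
    (φ : FL F →ₗ[F] F)
    (hφ : ∀ a ∈ A, ∀ b ∈ A, a ≠ b → ∀ w ∈ W, φ (ren (Equiv.swap a b) w) = -φ w)
    (hk : ∀ w ∈ W, φ (altL (t :: A) w) = 0) :
    ∀ w ∈ W, φ w = (A.map (fun a => φ (ren (Equiv.swap a t) w))).sum := by
  intro w hw
  have h1 := hk w hw
  rw [altL_cons, altL] at h1
  have hmem : ∀ B : List ℕ, (∀ a ∈ B, a ∈ A) →
      (B.map (fun a => ren (F := F) (Equiv.swap a t) w)).sum ∈ W := by
    intro B hB
    apply list_sum_mem
    intro x hx
    obtain ⟨a, ha, rfl⟩ := List.mem_map.1 hx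
    exact hW a (List.mem_cons_of_mem _ (hB a ha)) t List.mem_cons_self w hw
  rw [functional_symE (ε := -1) (by ring) A (List.nodup_cons.1 hA).2 W
    (fun a ha b hb => hW a (List.mem_cons_of_mem _ ha) b (List.mem_cons_of_mem _ hb)) φ
    (fun a ha b hb hab w hw => by rw [hφ a ha b hb hab w hw]; ring)
    _ (W.sub_mem hw (hmem A (fun _ h => h)))] at h1
  have h2 : (A.length.factorial : F) ≠ 0 := by
    rw [Nat.cast_ne_zero]
    exact Nat.factorial_ne_zero _
  rcases mul_eq_zero.1 h1 with h | h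
  · exact absurd h h2
  · rw [map_sub, sub_eq_zero] at h
    rw [h, map_list_sum, List.map_map]
    rfl

/-! ### Derivations of relabeled elements -/

theorem dd_ren (a b : ℕ) (g : ℕ → ℕ) {s : Multiset ℕ} {f : FL F} (hf : f ∈ HomC s)
    (hs : ∀ p, g p = a → s.count p ≤ 1) (S : Finset ℕ) (hS : ∀ p ∈ s, g p = a → p ∈ S) :
    dd a b (ren g f) =
      ∑ p ∈ S, if p ∈ s ∧ g p = a then ren (Function.update g p b) f else 0 := by
  classical
  have hnot : ∀ {s : Multiset ℕ} {f : FL F}, f ∈ HomC s → ∀ p, p ∉ s →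
      ren (Function.update g p b) f = ren g f := by
    intro s f hf p hp
    apply hom_congr hf
    intro i hi
    rw [ren_X, ren_X]
    congr 1
    rw [Function.update_of_ne]
    rintro rfl
    exact hp hi
  revert hs hS
  refine homC_induction (p := fun s f => (∀ p, g p = a → s.count p ≤ 1) →
    (∀ p ∈ s, g p = a → p ∈ S) → dd a b (ren g f) =
      ∑ p ∈ S, if p ∈ s ∧ g p = a then ren (Function.update g p b) f else 0)
      ?_ ?_ ?_ ?_ ?_ hf
  · intro i _ hS
    by_cases h : g i = a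
    · rw [Finset.sum_eq_single i]
      · rw [if_pos ⟨Multiset.mem_singleton_self i, h⟩, ren_X, ren_X, Function.update_self, h,
          dd_X_same]
      · intro p _ hp
        rw [if_neg]
        rintro ⟨h1, _⟩
        exact hp (Multiset.mem_singleton.1 h1)
      · intro h1
        exact absurd (hS i (Multiset.mem_singleton_self i) h) h1
    · rw [ren_X, dd_X_ne h]
      symm
      apply Finset.sum_eq_zero
      intro p _
      rw [if_neg]
      rintro ⟨h1, h2⟩
      rw [Multiset.mem_singleton.1 h1] at h2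
      exact h h2
  · intro s t f k hf hk h1 h2 hs hS
    have hs1 : ∀ p, g p = a → s.count p ≤ 1 := by
      intro p hp
      have := hs p hp
      rw [Multiset.count_add] at this
      omega
    have ht1 : ∀ p, g p = a → t.count p ≤ 1 := by
      intro p hp
      have := hs p hp
      rw [Multiset.count_add] at this
      omega
    rw [LieHom.map_lie, dd_lie, h1 hs1 (fun i hi => hS i (Multiset.mem_add.2 (Or.inl hi))),
      h2 ht1 (fun i hi => hS i (Multiset.mem_add.2 (Or.inr hi))), lie_sum, sum_lie,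
      ← Finset.sum_add_distrib]
    apply Finset.sum_congr rfl
    intro p _
    by_cases hl : g p = a
    · by_cases hps : p ∈ s
      · have hpt : p ∉ t := by
          intro h
          have h3 := hs p hl
          rw [Multiset.count_add] at h3
          have h4 := Multiset.count_pos.2 hps
          have h5 := Multiset.count_pos.2 h
          omega
        rw [if_neg (fun h => hpt h.1), if_pos ⟨hps, hl⟩,
          if_pos ⟨Multiset.mem_add.2 (Or.inl hps), hl⟩, LieHom.map_lie, lie_zero, zero_add,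
          hnot hk p hpt]
      · by_cases hpt : p ∈ t
        · rw [if_pos ⟨hpt, hl⟩, if_neg (fun h => hps h.1),
            if_pos ⟨Multiset.mem_add.2 (Or.inr hpt), hl⟩, LieHom.map_lie, zero_lie, add_zero,
            hnot hf p hps]
        · rw [if_neg (fun h => hpt h.1), if_neg (fun h => hps h.1), if_neg, lie_zero, zero_lie,
            add_zero]
          rintro ⟨h, _⟩
          rcases Multiset.mem_add.1 h with h | h
          · exact hps h
          · exact hpt h
    · rw [if_neg (fun h => hl h.2), if_neg (fun h => hl h.2), if_neg (fun h => hl h.2), lie_zero,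
        zero_lie, add_zero]
  · intro s _ _
    simp
  · intro s f k _ _ h1 h2 hs hS
    rw [map_add, map_add, h1 hs hS, h2 hs hS, ← Finset.sum_add_distrib]
    apply Finset.sum_congr rfl
    intro p _
    split_ifs
    · rw [map_add]
    · rw [add_zero]
  · intro s c f _ h1 hs hS
    rw [map_smul, map_smul, h1 hs hS, Finset.smul_sum]
    apply Finset.sum_congr rfl
    intro p _
    split_ifs
    · rw [map_smul]
    · rw [smul_zero]

end

end Pool.Agent.Lib.MP_b4a71d_al
end
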