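import Pool.Agent.Lib.MP_b4a71d_al.Ops
import Pool.Agent.Lib.MP_b4a71d_al.K3alg

section

/-!
# A level spanned by permuted vectors is good
-/

set_option autoImplicit false

namespace Pool.Agent.Lib.MP_b4a71d_al

universe u

noncomputable section

variable {F : Type u} [Field F]

/-! ### Auxiliary lemmas -/

private theorem pl_fix {k : ℕ} (g : Equiv.Perm (Finset.Icc 1 k)) :
    (Equiv.Perm.ofSubtype g : Equiv.Perm ℕ) ∈ Sk k := fun _ hi => ofSubtype_fix g hi

private theorem pl_os_mem {k : ℕ} (g : Equiv.Perm (Finset.Icc 1 k)) {i : ℕ}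
    (hi : i ∈ Finset.Icc 1 k) : (Equiv.Perm.ofSubtype g : Equiv.Perm ℕ) i ∈ Finset.Icc 1 k := by
  rw [Equiv.Perm.ofSubtype_apply_of_mem g hi]
  exact (g ⟨i, hi⟩).2

private theorem pl_exists_swap {k : ℕ} {i j : ℕ} (hi : i ∈ Finset.Icc 1 k)
    (hj : j ∈ Finset.Icc 1 k) :
    ∃ τ : Equiv.Perm (Finset.Icc 1 k), (Equiv.Perm.ofSubtype τ : Equiv.Perm ℕ) = Equiv.swap i j := by
  apply exists_ofSubtype
  intro l hl
  apply Equiv.swap_apply_of_ne_of_ne
  · rintro rfl
    exact hl hi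
  · rintro rfl
    exact hl hj

/-- the group algebra element with coefficients `c` -/
private def plE {k : ℕ} (c : Equiv.Perm (Finset.Icc 1 k) → F) : Module.End F (FL F) :=
  ∑ g : Equiv.Perm (Finset.Icc 1 k), c g • rho (F := F) (Finset.Icc 1 k) g

private theorem plE_mem {k : ℕ} (c : Equiv.Perm (Finset.Icc 1 k) → F) :
    plE c ∈ Submodule.span F (Set.range (rho (F := F) (Finset.Icc 1 k))) := by
  rw [plE]
  apply Submodule.sum_mem
  intro g _
  exact Submodule.smul_mem _ _ (Submodule.subset_span ⟨g, rfl⟩)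

private theorem plE_apply {k : ℕ} (c : Equiv.Perm (Finset.Icc 1 k) → F) (f : FL F) :
    plE c f = ∑ g : Equiv.Perm (Finset.Icc 1 k), c g • rho (F := F) (Finset.Icc 1 k) g f := by
  rw [plE, LinearMap.sum_apply]
  rfl

private theorem plE_rho {k : ℕ} (c : Equiv.Perm (Finset.Icc 1 k) → F)
    (τ : Equiv.Perm (Finset.Icc 1 k)) (a : F) (hc : ∀ h, c (h * τ⁻¹) = a * c h) (f : FL F) :
    plE c (rho (Finset.Icc 1 k) τ f) = a • plE c f := by
  rw [plE_apply, plE_apply, Finset.smul_sum]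
  refine Fintype.sum_equiv (Equiv.mulRight τ) _ _ (fun g => ?_)
  have h1 : rho (F := F) (Finset.Icc 1 k) g (rho (Finset.Icc 1 k) τ f) =
      rho (Finset.Icc 1 k) (g * τ) f := by
    rw [map_mul]
    rfl
  have h2 := hc (g * τ)
  rw [mul_inv_cancel_right] at h2
  rw [Equiv.coe_mulRight, h1, h2, smul_smul]

private theorem pl_B_le {T : Submodule F (FL F)} {k d : ℕ} {U : Submodule F (FL F)}
    (hU : LevU T k d U) : Lam (Finset.Icc 1 k) d ⊔ (T ⊓ W k d) ≤ U :=
  sup_le hU.lam_le hU.T_le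

/-- PERM LEMMA.  If, modulo `T`, the highest weight vectors of level `(k, d)` are spanned by
`v 1, ..., v k` and `S_k` permutes the `v i` up to a linear character `χ`, then the level is good.

Proof: use `levelGood_of_functionals` or `levelGood_of_criterion` with the two group algebra
elements `e_1 = ∑_{σ ∈ S_k} χ(σ)⁻¹ σ` and `e_2 = ∑_{σ ∈ S_k, σ k = k} χ(σ)⁻¹ σ`.  A functional
`φ` which vanishes on `Lam + T` is determined by `a_i = φ (v i)` (`W = Lam + KE`).  If
`φ ∘ e_1 = c φ` then `φ (σ f) = χ(σ) φ f`, so all `a_i` are equal: any two such functionals are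
proportional.  If `φ ∘ e_2 = c φ` then `a_1 = ... = a_{k-1}`, and `φ (e_1 v_k) = 0` gives
`∑ a_i = 0`: again one parameter.  If `φ` vanishes on all `π e_2 v_k` then all `a_i = 0`. -/
theorem levelGood_of_perm [CharZero F] {T : Submodule F (FL F)} (hT : IsTIdeal F T) {k d : ℕ}
    (v : ℕ → FL F) (hv : ∀ i ∈ Finset.Icc 1 k, v i ∈ KE (F := F) (Finset.Icc 1 k) d)
    (χ : Equiv.Perm ℕ → F) (hχ1 : χ 1 = 1)
    (hχ : ∀ σ ∈ Sk k, ∀ τ ∈ Sk k, χ (σ * τ) = χ σ * χ τ)
    (h : ∀ σ ∈ Sk k, ∀ i ∈ Finset.Icc 1 k, ren σ (v i) - χ σ • v (σ i) ∈ T)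
    (hspan : KE (F := F) (Finset.Icc 1 k) d
      ≤ Submodule.span F {f | ∃ i ∈ Finset.Icc 1 k, f = v i} ⊔ T) :
    LevelGood T k d := by
  classical
  rcases Nat.eq_zero_or_pos k with rfl | hk
  · apply levelGood_of_LZ hT
    refine hspan.trans (sup_le ?_ le_rfl)
    rw [Submodule.span_le]
    rintro _ ⟨i, hi, rfl⟩
    rw [Finset.mem_Icc] at hi
    omega
  have hkY : k ∈ Finset.Icc 1 k := Finset.mem_Icc.2 ⟨hk, le_rfl⟩
  have h0 : 0 ∉ Finset.Icc 1 k := zero_notMem_Icc k
  obtain ⟨p, hp1, hp2, -, -, -, -⟩ := exists_prK (F := F) (Finset.Icc 1 k) h0 d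
  set B : Submodule F (FL F) := Lam (Finset.Icc 1 k) d ⊔ (T ⊓ W k d) with hB
  have hχo1 : χ (Equiv.Perm.ofSubtype (1 : Equiv.Perm (Finset.Icc 1 k))) = 1 := by
    rw [map_one]
    exact hχ1
  have hχm : ∀ g g' : Equiv.Perm (Finset.Icc 1 k), χ (Equiv.Perm.ofSubtype (g * g')) =
      χ (Equiv.Perm.ofSubtype g) * χ (Equiv.Perm.ofSubtype g') := by
    intro g g'
    rw [map_mul]
    exact hχ _ (pl_fix g) _ (pl_fix g')
  have hχi : ∀ g : Equiv.Perm (Finset.Icc 1 k), χ (Equiv.Perm.ofSubtype g) *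
      χ (Equiv.Perm.ofSubtype g⁻¹) = 1 := by
    intro g
    rw [← hχm, mul_inv_cancel, hχo1]
  have hχne : ∀ g : Equiv.Perm (Finset.Icc 1 k), χ (Equiv.Perm.ofSubtype g) ≠ 0 := fun g hg => by
    have h1 := hχi g
    rw [hg, zero_mul] at h1
    exact zero_ne_one h1
  have hvW : ∀ i ∈ Finset.Icc 1 k, v i ∈ W (F := F) k d := fun i hi => KE_le _ _ (hv i hi)
  -- values of functionals
  have hval : ∀ φ : FL F →ₗ[F] F, (∀ w ∈ B, φ w = 0) → ∀ g : Equiv.Perm (Finset.Icc 1 k),
      ∀ i ∈ Finset.Icc 1 k, φ (rho (Finset.Icc 1 k) g (v i)) =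
        χ (Equiv.Perm.ofSubtype g) * φ (v ((Equiv.Perm.ofSubtype g : Equiv.Perm ℕ) i)) := by
    intro φ hφ g i hi
    have h1 := h _ (pl_fix g) i hi
    have h2 : rho (Finset.Icc 1 k) g (v i) - χ (Equiv.Perm.ofSubtype g) •
        v ((Equiv.Perm.ofSubtype g : Equiv.Perm ℕ) i) ∈ W (F := F) k d :=
      Submodule.sub_mem _ (stab_WW h0 d _ (fun j hj => ofSubtype_fix g hj) _ (hvW i hi))
        (Submodule.smul_mem _ _ (hvW _ (pl_os_mem g hi)))
    have h3 := hφ _ (Submodule.mem_sup_right ⟨h1, h2⟩)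
    rw [map_sub, map_smul, smul_eq_mul, sub_eq_zero] at h3
    exact h3
  have hzero : ∀ φ : FL F →ₗ[F] F, (∀ w ∈ B, φ w = 0) → (∀ i ∈ Finset.Icc 1 k, φ (v i) = 0) →
      ∀ w ∈ W (F := F) k d, φ w = 0 := by
    intro φ hφ hi w hw
    have hspan0 : ∀ x ∈ Submodule.span F {f | ∃ i ∈ Finset.Icc 1 k, f = v i},
        φ x = 0 ∧ x ∈ W (F := F) k d := by
      intro x hx
      induction hx using Submodule.span_induction with
      | mem x hx =>
        obtain ⟨i, hi', rfl⟩ := hx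
        exact ⟨hi i hi', hvW i hi'⟩
      | zero => exact ⟨map_zero _, Submodule.zero_mem _⟩
      | add a b _ _ h1 h2 =>
        exact ⟨by rw [map_add, h1.1, h2.1, add_zero], Submodule.add_mem _ h1.2 h2.2⟩
      | smul c a _ h1 =>
        exact ⟨by rw [map_smul, h1.1, smul_zero], Submodule.smul_mem _ _ h1.2⟩
    have h1 := hp1 w hw
    obtain ⟨x, hx, t, ht, hxt⟩ := Submodule.mem_sup.1 (hspan h1)
    have h2 : t ∈ W (F := F) k d := by
      have h3 : t = p w - x := by rw [← hxt, add_sub_cancel_left]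
      rw [h3]
      exact Submodule.sub_mem _ (KE_le _ _ h1) (hspan0 x hx).2
    have h4 : w = (w - p w) + (x + t) := by rw [hxt]; abel
    rw [h4, map_add, map_add, (hspan0 x hx).1, hφ _ (Submodule.mem_sup_left (hp2 w hw)),
      hφ t (Submodule.mem_sup_right ⟨ht, h2⟩), add_zero, add_zero]
  have hprop : ∀ φ ψ : FL F →ₗ[F] F, (∀ w ∈ B, φ w = 0) → (∀ w ∈ B, ψ w = 0) →
      ∀ i0 ∈ Finset.Icc 1 k, ∀ s : ℕ → F,
      (∀ i ∈ Finset.Icc 1 k, φ (v i) = s i * φ (v i0)) →
      (∀ i ∈ Finset.Icc 1 k, ψ (v i) = s i * ψ (v i0)) →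
      ∃ a b : F, (a ≠ 0 ∨ b ≠ 0) ∧ ∀ w ∈ W (F := F) k d, a * φ w + b * ψ w = 0 := by
    intro φ ψ hφ hψ i0 _ s hs1 hs2
    by_cases hab : ψ (v i0) = 0 ∧ φ (v i0) = 0
    · refine ⟨1, 0, Or.inl one_ne_zero, fun w hw => ?_⟩
      rw [hzero φ hφ (fun i hi => by rw [hs1 i hi, hab.2, mul_zero]) w hw, mul_zero, zero_mul,
        add_zero]
    · refine ⟨ψ (v i0), -φ (v i0), ?_, fun w hw => ?_⟩
      · by_contra hcon
        push Not at hcon
        exact hab ⟨hcon.1, neg_eq_zero.1 hcon.2⟩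
      · have h1 := hzero (ψ (v i0) • φ + (-φ (v i0)) • ψ) (fun w hw => by
          rw [LinearMap.add_apply, LinearMap.smul_apply, LinearMap.smul_apply, hφ w hw, hψ w hw,
            smul_zero, smul_zero, add_zero]) (fun i hi => by
          rw [LinearMap.add_apply, LinearMap.smul_apply, LinearMap.smul_apply, hs1 i hi, hs2 i hi,
            smul_eq_mul, smul_eq_mul]
          ring) w hw
        rw [LinearMap.add_apply, LinearMap.smul_apply, LinearMap.smul_apply, smul_eq_mul,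
          smul_eq_mul] at h1
        exact h1
  -- the two group algebra elements
  set c1 : Equiv.Perm (Finset.Icc 1 k) → F := fun g => (χ (Equiv.Perm.ofSubtype g))⁻¹ with hc1
  set c2 : Equiv.Perm (Finset.Icc 1 k) → F := fun g =>
    if (Equiv.Perm.ofSubtype g : Equiv.Perm ℕ) k = k then (χ (Equiv.Perm.ofSubtype g))⁻¹ else 0
    with hc2
  have hc1τ : ∀ τ g : Equiv.Perm (Finset.Icc 1 k),
      c1 (g * τ⁻¹) = χ (Equiv.Perm.ofSubtype τ) * c1 g := by
    intro τ g
    have h1 : χ (Equiv.Perm.ofSubtype τ⁻¹) = (χ (Equiv.Perm.ofSubtype τ))⁻¹ :=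
      eq_inv_of_mul_eq_one_right (hχi τ)
    simp only [hc1]
    rw [hχm, h1, mul_inv, inv_inv, mul_comm]
  have hc2τ : ∀ τ : Equiv.Perm (Finset.Icc 1 k), (Equiv.Perm.ofSubtype τ : Equiv.Perm ℕ) k = k →
      ∀ g, c2 (g * τ⁻¹) = χ (Equiv.Perm.ofSubtype τ) * c2 g := by
    intro τ hτ g
    have h1 : (Equiv.Perm.ofSubtype (g * τ⁻¹) : Equiv.Perm ℕ) k =
        (Equiv.Perm.ofSubtype g : Equiv.Perm ℕ) k := by
      rw [map_mul, map_inv, Equiv.Perm.mul_apply]
      congr 1
      rw [Equiv.Perm.inv_eq_iff_eq]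
      exact hτ.symm
    simp only [hc2]
    rw [h1]
    by_cases h2 : (Equiv.Perm.ofSubtype g : Equiv.Perm ℕ) k = k
    · rw [if_pos h2, if_pos h2]
      exact hc1τ τ g
    · rw [if_neg h2, if_neg h2, mul_zero]
  set N : Finset (Equiv.Perm (Finset.Icc 1 k)) := Finset.univ.filter
    (fun g => (Equiv.Perm.ofSubtype g : Equiv.Perm ℕ) k = k) with hN
  have hN0 : ((N.card : ℕ) : F) ≠ 0 := by
    rw [Nat.cast_ne_zero, ← Nat.pos_iff_ne_zero, Finset.card_pos]
    refine ⟨1, ?_⟩
    rw [hN, Finset.mem_filter]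
    refine ⟨Finset.mem_univ _, ?_⟩
    rw [map_one]
    rfl
  -- equal values under swaps
  have hswap : ∀ (φ : FL F →ₗ[F] F), (∀ w ∈ B, φ w = 0) → ∀ (c : Equiv.Perm (Finset.Icc 1 k) → F)
      (φ' : FL F →ₗ[F] F), (∀ w, φ w = φ' (plE c w)) → ∀ i ∈ Finset.Icc 1 k,
      ∀ j ∈ Finset.Icc 1 k, ∀ τ : Equiv.Perm (Finset.Icc 1 k),
      (Equiv.Perm.ofSubtype τ : Equiv.Perm ℕ) = Equiv.swap i j →
      (∀ g, c (g * τ⁻¹) = χ (Equiv.Perm.ofSubtype τ) * c g) → φ (v i) = φ (v j) := by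
    intro φ hφ c φ' hφ' i hi j hj τ hτ hc
    have h1 := hval φ hφ τ i hi
    rw [hφ', plE_rho c τ _ hc, map_smul, ← hφ', smul_eq_mul] at h1
    have h2 := mul_left_cancel₀ (hχne τ) h1
    rw [hτ, Equiv.swap_apply_left] at h2
    exact h2
  intro U1 U2 U3 hU1 hU2 hU3
  apply rep_dist (ρ := rho (Finset.Icc 1 k)) (W k d) B
    (fun i : Fin 2 => if i = 0 then plE c1 else plE c2) (fun i => by
      by_cases hi : i = 0
      · rw [if_pos hi]
        exact plE_mem c1
      · rw [if_neg hi]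
        exact plE_mem c2)
  · intro i φ ψ hφ hψ
    by_cases hi : i = 0
    · subst hi
      refine hprop φ ψ hφ.base hψ.base k hkY (fun _ => 1) ?_ ?_
      · intro i hi
        obtain ⟨φ', -, h3⟩ := hφ.fact
        simp only [if_true] at h3
        obtain ⟨τ, hτ⟩ := pl_exists_swap hi hkY
        rw [one_mul]
        exact hswap φ hφ.base c1 φ' h3 i hi k hkY τ hτ (hc1τ τ)
      · intro i hi
        obtain ⟨φ', -, h3⟩ := hψ.fact
        simp only [if_true] at h3
        obtain ⟨τ, hτ⟩ := pl_exists_swap hi hkY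
        rw [one_mul]
        exact hswap ψ hψ.base c1 φ' h3 i hi k hkY τ hτ (hc1τ τ)
    · have hi0 : (0 : Fin 2) < i := Nat.pos_of_ne_zero (fun h => hi (Fin.ext h))
      have h1Y : 1 ∈ Finset.Icc 1 k := Finset.mem_Icc.2 ⟨le_rfl, hk⟩
      by_cases hk1 : k = 1
      · refine hprop φ ψ hφ.base hψ.base k hkY (fun _ => 1) ?_ ?_ <;>
        · intro i hi
          rw [Finset.mem_Icc] at hi
          have : i = k := by omega
          rw [this, one_mul]
      · -- the relation
        have key : ∀ φ : FL F →ₗ[F] F, Ad (rho (Finset.Icc 1 k)) (W k d) B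
            (fun i : Fin 2 => if i = 0 then plE c1 else plE c2) i φ →
            ∀ i ∈ Finset.Icc 1 k, φ (v i) =
              (if i = k then -(((Finset.univ \ N).card : ℕ) : F) / ((N.card : ℕ) : F) else 1) *
                φ (v 1) := by
          intro φ hφ
          have hne : ∀ i ∈ Finset.Icc 1 k, i ≠ k → φ (v i) = φ (v 1) := by
            intro j hj hjk
            obtain ⟨φ', -, h3⟩ := hφ.fact
            simp only [if_neg hi] at h3
            obtain ⟨τ, hτ⟩ := pl_exists_swap hj h1Y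
            refine hswap φ hφ.base c2 φ' h3 j hj 1 h1Y τ hτ (hc2τ τ ?_)
            rw [hτ]
            exact Equiv.swap_apply_of_ne_of_ne (Ne.symm hjk) hk1
          have h4 := hφ.kill 0 hi0 1 (v k) (hvW k hkY)
          simp only [if_true] at h4
          rw [map_one] at h4
          change φ (plE c1 (v k)) = 0 at h4
          rw [plE_apply, map_sum] at h4
          have h5 : ∀ g ∈ (Finset.univ : Finset (Equiv.Perm (Finset.Icc 1 k))),
              φ (c1 g • rho (Finset.Icc 1 k) g (v k)) =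
                φ (v ((Equiv.Perm.ofSubtype g : Equiv.Perm ℕ) k)) := by
            intro g _
            rw [map_smul, hval φ hφ.base g k hkY, smul_eq_mul, ← mul_assoc]
            simp only [hc1]
            rw [inv_mul_cancel₀ (hχne g), one_mul]
          rw [Finset.sum_congr rfl h5, ← Finset.sum_sdiff (Finset.subset_univ N)] at h4
          have h6 : ∀ g ∈ N, φ (v ((Equiv.Perm.ofSubtype g : Equiv.Perm ℕ) k)) = φ (v k) := by
            intro g hg
            rw [hN, Finset.mem_filter] at hg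
            rw [hg.2]
          have h7 : ∀ g ∈ Finset.univ \ N,
              φ (v ((Equiv.Perm.ofSubtype g : Equiv.Perm ℕ) k)) = φ (v 1) := by
            intro g hg
            rw [Finset.mem_sdiff, hN, Finset.mem_filter] at hg
            exact hne _ (pl_os_mem g hkY) (fun h => hg.2 ⟨Finset.mem_univ _, h⟩)
          rw [Finset.sum_congr rfl h6, Finset.sum_congr rfl h7, Finset.sum_const,
            Finset.sum_const, nsmul_eq_mul, nsmul_eq_mul] at h4
          intro j hj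
          by_cases hjk : j = k
          · rw [if_pos hjk, hjk]
            field_simp
            linear_combination h4
          · rw [if_neg hjk, one_mul]
            exact hne j hj hjk
        exact hprop φ ψ hφ.base hψ.base 1 h1Y _ (key φ hφ) (key ψ hψ)
  · intro φ hφ hkill
    apply hzero φ hφ
    intro j hj
    obtain ⟨τ, hτ⟩ := pl_exists_swap hkY hj
    have h4 := hkill 1 τ (v k) (hvW k hkY)
    rw [if_neg (by decide : ¬ (1 : Fin 2) = 0), plE_apply, map_sum, map_sum] at h4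
    have h5 : ∀ g ∈ (Finset.univ : Finset (Equiv.Perm (Finset.Icc 1 k))),
        φ (rho (Finset.Icc 1 k) τ (c2 g • rho (Finset.Icc 1 k) g (v k))) =
          if (Equiv.Perm.ofSubtype g : Equiv.Perm ℕ) k = k then
            χ (Equiv.Perm.ofSubtype τ) * φ (v j) else 0 := by
      intro g _
      rw [map_smul, map_smul]
      simp only [hc2]
      by_cases hg : (Equiv.Perm.ofSubtype g : Equiv.Perm ℕ) k = k
      · rw [if_pos hg, if_pos hg]
        have h6 : rho (F := F) (Finset.Icc 1 k) τ (rho (Finset.Icc 1 k) g (v k)) =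
            rho (Finset.Icc 1 k) (τ * g) (v k) := by
          rw [map_mul]
          rfl
        rw [h6, hval φ hφ (τ * g) k hkY, hχm, map_mul, Equiv.Perm.mul_apply, hg, hτ,
          Equiv.swap_apply_left, smul_eq_mul]
        have h7 := hχne g
        field_simp
      · rw [if_neg hg, if_neg hg, zero_smul]
    rw [Finset.sum_congr rfl h5, ← Finset.sum_filter, Finset.sum_const, nsmul_eq_mul] at h4
    rcases mul_eq_zero.1 h4 with h8 | h8
    · exact absurd h8 hN0
    · rcases mul_eq_zero.1 h8 with h9 | h9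
      · exact absurd h9 (hχne τ)
      · exact h9
  · exact stab_iff.1 hU1.stab
  · exact stab_iff.1 hU2.stab
  · exact stab_iff.1 hU3.stab
  · exact pl_B_le hU1
  · exact pl_B_le hU2
  · exact hU1.le_W
  · exact hU2.le_W

/-- A level which is spanned by one vector modulo `T` is good: a space of dimension at most one
has a distributive lattice of subspaces. -/
theorem levelGood_of_single [CharZero F] {T : Submodule F (FL F)} (hT : IsTIdeal F T) {k d : ℕ}
    (v : FL F) (hspan : KE (F := F) (Finset.Icc 1 k) d ≤ Submodule.span F {v} ⊔ T) :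
    LevelGood T k d := by
  classical
  by_cases hLZ : KE (F := F) (Finset.Icc 1 k) d ≤ T
  · exact levelGood_of_LZ hT hLZ
  have h0 : 0 ∉ Finset.Icc 1 k := zero_notMem_Icc k
  obtain ⟨p, hp1, hp2, -, -, -, -⟩ := exists_prK (F := F) (Finset.Icc 1 k) h0 d
  obtain ⟨f0, hf0, hf0T⟩ := Set.not_subset.1 hLZ
  have hf0' : f0 ∈ KE (F := F) (Finset.Icc 1 k) d := hf0
  have hf0T' : f0 ∉ T := hf0T
  obtain ⟨x0, hx0, t0, ht0, hxt0⟩ := Submodule.mem_sup.1 (hspan hf0')
  obtain ⟨c0, rfl⟩ := Submodule.mem_span_singleton.1 hx0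
  have hc0 : c0 ≠ 0 := by
    rintro rfl
    rw [zero_smul, zero_add] at hxt0
    rw [← hxt0] at hf0T'
    exact hf0T' ht0
  have hf0W : f0 ∈ W (F := F) k d := KE_le _ _ hf0'
  -- every element of `W` is in `B + span f0`
  have hW : ∀ w ∈ W (F := F) k d, ∃ c : F, w - c • f0 ∈ Lam (Finset.Icc 1 k) d ⊔ (T ⊓ W k d) := by
    intro w hw
    have h1 := hp1 w hw
    obtain ⟨x, hx, t, ht, hxt⟩ := Submodule.mem_sup.1 (hspan h1)
    obtain ⟨c, rfl⟩ := Submodule.mem_span_singleton.1 hx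
    refine ⟨c / c0, ?_⟩
    have h2 : w - (c / c0) • f0 = (w - p w) + (p w - (c / c0) • f0) := by abel
    have h3 : p w - (c / c0) • f0 = t - (c / c0) • t0 := by
      rw [← hxt, ← hxt0, smul_add, smul_smul, div_mul_cancel₀ c hc0]
      abel
    have h4 : p w - (c / c0) • f0 ∈ T := by
      rw [h3]
      exact T.sub_mem ht (T.smul_mem _ ht0)
    have h5 : p w - (c / c0) • f0 ∈ W (F := F) k d :=
      Submodule.sub_mem _ (KE_le _ _ h1) (Submodule.smul_mem _ _ hf0W)
    rw [h2]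
    exact Submodule.add_mem_sup (hp2 w hw) ⟨h4, h5⟩
  have hdich : ∀ U : Submodule F (FL F), LevU T k d U →
      W k d ≤ U ∨ U ≤ Lam (Finset.Icc 1 k) d ⊔ (T ⊓ W k d) := by
    intro U hU
    by_cases hf : f0 ∈ U
    · left
      intro w hw
      obtain ⟨c, hc⟩ := hW w hw
      have h1 : w = (w - c • f0) + c • f0 := by abel
      rw [h1]
      exact U.add_mem (pl_B_le hU hc) (U.smul_mem _ hf)
    · right
      intro w hw
      obtain ⟨c, hc⟩ := hW w (hU.le_W hw)
      have h1 : c • f0 ∈ U := by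
        have h2 : c • f0 = w - (w - c • f0) := by abel
        rw [h2]
        exact U.sub_mem hw (pl_B_le hU hc)
      by_cases hc1 : c = 0
      · rw [hc1, zero_smul, sub_zero] at hc
        exact hc
      · exact absurd ((Submodule.smul_mem_iff _ hc1).1 h1) hf
  rintro U1 U2 U3 hU1 hU2 hU3 f ⟨hf1, hf2⟩
  rcases hdich U2 hU2 with h2 | h2
  · exact Submodule.mem_sup_left ⟨hf1, h2 (hU1.le_W hf1)⟩
  · rcases hdich U3 hU3 with h3 | h3
    · exact Submodule.mem_sup_right ⟨hf1, h3 (hU1.le_W hf1)⟩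
    · exact Submodule.mem_sup_left ⟨hf1, pl_B_le hU2 (sup_le h2 h3 hf2)⟩

/-- The sign character on the permutations of `{1, ..., k}`: there is a function `sg` with
`sg 1 = 1`, `sg (σ τ) = sg σ sg τ` on `Sk k` and `sg (swap i j) = -1`. -/
theorem exists_sgn (F : Type u) [Field F] (k : ℕ) :
    ∃ sg : Equiv.Perm ℕ → F, sg 1 = 1 ∧ (∀ σ ∈ Sk k, ∀ τ ∈ Sk k, sg (σ * τ) = sg σ * sg τ) ∧
      ∀ i ∈ Finset.Icc 1 k, ∀ j ∈ Finset.Icc 1 k, i ≠ j → sg (Equiv.swap i j) = -1 := by
  classical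
  have hinj : Function.Injective
      (Equiv.Perm.ofSubtype : Equiv.Perm (Finset.Icc 1 k) →* Equiv.Perm ℕ) :=
    Equiv.Perm.ofSubtype_injective
  let sg : Equiv.Perm ℕ → F := fun σ =>
    if h : ∃ g : Equiv.Perm (Finset.Icc 1 k), (Equiv.Perm.ofSubtype g : Equiv.Perm ℕ) = σ then
      (((Equiv.Perm.sign h.choose : ℤˣ) : ℤ) : F) else 0
  have hsg : ∀ g : Equiv.Perm (Finset.Icc 1 k), sg (Equiv.Perm.ofSubtype g) =
      (((Equiv.Perm.sign g : ℤˣ) : ℤ) : F) := by
    intro g
    have h : ∃ g' : Equiv.Perm (Finset.Icc 1 k), (Equiv.Perm.ofSubtype g' : Equiv.Perm ℕ) =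
        Equiv.Perm.ofSubtype g := ⟨g, rfl⟩
    have h1 : sg (Equiv.Perm.ofSubtype g) = (((Equiv.Perm.sign h.choose : ℤˣ) : ℤ) : F) :=
      dif_pos h
    rw [h1, hinj h.choose_spec]
  refine ⟨sg, ?_, ?_, ?_⟩
  · have h1 := hsg 1
    rw [map_one, map_one] at h1
    rw [h1]
    simp
  · intro σ hσ τ hτ
    obtain ⟨g, rfl⟩ := exists_ofSubtype (Y := Finset.Icc 1 k) σ hσ
    obtain ⟨g', rfl⟩ := exists_ofSubtype (Y := Finset.Icc 1 k) τ hτ
    rw [← map_mul, hsg, hsg, hsg, Equiv.Perm.sign_mul, Units.val_mul, Int.cast_mul]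
  · intro i hi j hj hij
    have h1 : (Equiv.Perm.ofSubtype (Equiv.swap (⟨i, hi⟩ : Finset.Icc 1 k) ⟨j, hj⟩) :
        Equiv.Perm ℕ) = Equiv.swap i j := Equiv.Perm.ofSubtype_swap_eq _ _
    rw [← h1, hsg, Equiv.Perm.sign_swap (fun h => hij (congrArg Subtype.val h))]
    simp

/-- Relations under swaps suffice for `levelGood_of_perm`. -/
theorem levelGood_of_perm_swap [CharZero F] {T : Submodule F (FL F)} (hT : IsTIdeal F T)
    {k d : ℕ} (v : ℕ → FL F) (hv : ∀ i ∈ Finset.Icc 1 k, v i ∈ KE (F := F) (Finset.Icc 1 k) d)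
    (ε : F) (hε : ε = 1 ∨ ε = -1)
    (h : ∀ i ∈ Finset.Icc 1 k, ∀ j ∈ Finset.Icc 1 k, i ≠ j → ∀ l ∈ Finset.Icc 1 k,
      ren (Equiv.swap i j) (v l) - ε • v (Equiv.swap i j l) ∈ T)
    (hspan : KE (F := F) (Finset.Icc 1 k) d
      ≤ Submodule.span F {f | ∃ i ∈ Finset.Icc 1 k, f = v i} ⊔ T) :
    LevelGood T k d := by
  classical
  -- the character
  obtain ⟨χ, hχ1, hχ, hχs⟩ : ∃ χ : Equiv.Perm ℕ → F, χ 1 = 1 ∧
      (∀ σ ∈ Sk k, ∀ τ ∈ Sk k, χ (σ * τ) = χ σ * χ τ) ∧
      ∀ i ∈ Finset.Icc 1 k, ∀ j ∈ Finset.Icc 1 k, i ≠ j → χ (Equiv.swap i j) = ε := by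
    rcases hε with rfl | rfl
    · exact ⟨fun _ => 1, rfl, fun _ _ _ _ => (one_mul 1).symm, fun _ _ _ _ _ => rfl⟩
    · exact exists_sgn F k
  refine levelGood_of_perm hT v hv χ hχ1 hχ ?_ hspan
  intro σ hσ
  obtain ⟨g, rfl⟩ := exists_ofSubtype (Y := Finset.Icc 1 k) σ hσ
  induction g using Equiv.Perm.swap_induction_on with
  | one =>
    intro i _
    rw [map_one, hχ1, one_smul]
    have h1 : ren (⇑(1 : Equiv.Perm ℕ)) (v i) = v i := ren_id' (v i)
    rw [h1, Equiv.Perm.one_apply, sub_self]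
    exact Submodule.zero_mem _
  | swap_mul f x y hxy ih =>
    intro i hi
    have h1 : (Equiv.Perm.ofSubtype (Equiv.swap x y) : Equiv.Perm ℕ) =
        Equiv.swap (x : ℕ) (y : ℕ) := Equiv.Perm.ofSubtype_swap_eq _ _
    have hne : (x : ℕ) ≠ (y : ℕ) := fun h => hxy (Subtype.ext h)
    have h2 := ih (pl_fix f) i hi
    have h3 := hT.map_mem (ren (Equiv.swap (x : ℕ) (y : ℕ))) _ h2
    rw [map_sub, map_smul, ren_ren] at h3
    have h4 := T.smul_mem (χ (Equiv.Perm.ofSubtype f)) (h (x : ℕ) x.2 (y : ℕ) y.2 hne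
      ((Equiv.Perm.ofSubtype f : Equiv.Perm ℕ) i) (pl_os_mem f hi))
    have h5 := T.add_mem h3 h4
    have h6 : χ (Equiv.Perm.ofSubtype (Equiv.swap x y * f)) =
        ε * χ (Equiv.Perm.ofSubtype f) := by
      rw [map_mul, hχ _ (pl_fix _) _ (pl_fix _), h1, hχs _ x.2 _ y.2 hne]
    rw [h6, map_mul, h1, Equiv.Perm.mul_apply]
    convert h5 using 1
    rw [smul_sub, smul_smul, mul_comm ε, sub_add_sub_cancel]
    rfl

end

end Pool.Agent.Lib.MP_b4a71d_al
end

section

/-!
# Level 3 in the free Lie algebra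

`pol p` is the operator on `FL F` obtained from a polynomial `p(t_1, t_2, t_3)` with
`t_{i+1} = tt (i+1)`, `bb i` the three brackets, `ev i` the highest weight vectors
`e_1, e_2, e_3` of degree 5 (`x`-degree 2).
-/

set_option autoImplicit false

namespace Pool.Agent.Lib.MP_b4a71d_al

universe u

noncomputable section

variable {F : Type u} [Field F]

/-- The operators `tt 1, tt 2, tt 3` commute (`tt_comm`), so `F[t_1, t_2, t_3]` acts. -/
theorem exists_pol (F : Type u) [Field F] : ∃ φ : R3 F →ₐ[F] Module.End F (FL F),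
    ∀ i : Fin 3, φ (MvPolynomial.X i) = (tt (F := F) ((i : ℕ) + 1)).toLinearMap := by
  let s : Set (Module.End F (FL F)) :=
    Set.range (fun i : Fin 3 => (tt (F := F) ((i : ℕ) + 1)).toLinearMap)
  have hc : ∀ a ∈ s, ∀ b ∈ s, a * b = b * a := by
    rintro _ ⟨i, rfl⟩ _ ⟨j, rfl⟩
    apply LinearMap.ext
    intro f
    exact tt_comm (by omega) (by omega) f
  let _ : CommRing (Algebra.adjoin F s) :=
    { (Algebra.adjoin F s).toRing with
      mul_comm := (Algebra.isMulCommutative_adjoin F hc).is_comm.comm }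
  let ψ : R3 F →ₐ[F] Algebra.adjoin F s :=
    MvPolynomial.aeval (fun i => ⟨_, Algebra.subset_adjoin ⟨i, rfl⟩⟩)
  refine ⟨(Algebra.adjoin F s).val.comp ψ, ?_⟩
  intro i
  have : ψ (MvPolynomial.X i) = ⟨_, Algebra.subset_adjoin ⟨i, rfl⟩⟩ := MvPolynomial.aeval_X _ i
  rw [AlgHom.comp_apply, this]
  rfl

/-- The action of `F[t_1, t_2, t_3]` on the free Lie algebra. -/
def pol : R3 F →ₐ[F] Module.End F (FL F) := (exists_pol F).choose

theorem pol_X (i : Fin 3) (f : FL F) : pol (MvPolynomial.X i) f = tt ((i : ℕ) + 1) f := by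
  rw [pol, (exists_pol F).choose_spec i]
  rfl

theorem pol_C (c : F) (f : FL F) : pol (MvPolynomial.C c) f = c • f := by
  have : (pol (F := F)) (MvPolynomial.C c) = algebraMap F (Module.End F (FL F)) c :=
    AlgHom.commutes pol c
  rw [this]
  rfl

theorem pol_mul (p q : R3 F) (f : FL F) : pol (p * q) f = pol p (pol q f) := by
  rw [map_mul]
  rfl

theorem IsTIdeal.pol_mem {T : Submodule F (FL F)} (hT : IsTIdeal F T) (p : R3 F) {f : FL F}
    (hf : f ∈ T) : pol p f ∈ T := by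
  induction p using MvPolynomial.induction_on generalizing f with
  | C c => rw [pol_C]; exact T.smul_mem c hf
  | add p q hp hq => rw [map_add]; exact T.add_mem (hp hf) (hq hf)
  | mul_X p i hp => rw [pol_mul, pol_X]; exact hp (hT.tt_mem _ hf)

/-- The brackets `b_1 = [[y_2,y_3],y_1]`, `b_2 = [[y_3,y_1],y_2]`, `b_3 = [[y_1,y_2],y_3]`. -/
def bb : Fin 3 → FL F :=
  ![⁅⁅X F 2, X F 3⁆, X F 1⁆, ⁅⁅X F 3, X F 1⁆, X F 2⁆, ⁅⁅X F 1, X F 2⁆, X F 3⁆]

/-- Jacobi. -/
theorem bb_sum : bb (F := F) 0 + bb 1 + bb 2 = 0 := by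
  have h := lie_jacobi (X F 1) (X F 2) (X F 3)
  have h0 : bb (F := F) 0 = - ⁅X F 1, ⁅X F 2, X F 3⁆⁆ := (lie_skew _ _).symm
  have h1 : bb (F := F) 1 = - ⁅X F 2, ⁅X F 3, X F 1⁆⁆ := (lie_skew _ _).symm
  have h2 : bb (F := F) 2 = - ⁅X F 3, ⁅X F 1, X F 2⁆⁆ := (lie_skew _ _).symm
  rw [h0, h1, h2, ← neg_add, ← neg_add, h, neg_zero]

/-- The letter `y_{i+1}`. -/
private def Yv (F : Type u) [Field F] (i : Fin 3) : FL F := X F ((i : ℕ) + 1)

private theorem bb_eq (i : Fin 3) : bb (F := F) i = ⁅⁅Yv F (i + 1), Yv F (i + 2)⁆, Yv F i⁆ := by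
  fin_cases i <;> rfl

private theorem bb_sum' (i : Fin 3) : bb (F := F) (i + 2) = - bb i - bb (i + 1) := by
  have h := bb_sum (F := F)
  have h1 : bb (F := F) i + bb (i + 1) + bb (i + 2) = 0 := by
    fin_cases i
    · exact h
    · change bb (F := F) 1 + bb 2 + bb 0 = 0
      rw [← h]; abel
    · change bb (F := F) 2 + bb 0 + bb 1 = 0
      rw [← h]; abel
  rw [← sub_eq_zero, ← h1]
  abel

/-- The vectors `e_1, e_2, e_3`: with `(j, k, i)` cyclic,
`e_i = (- t_j t_k + t_j t_i + t_k ^ 2 + t_k t_i) b_i + (t_k ^ 2 - t_j ^ 2) b_j`. -/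
def ev (i : Fin 3) : FL F :=
  pol (- (MvPolynomial.X (i + 1) * MvPolynomial.X (i + 2))
      + MvPolynomial.X (i + 1) * MvPolynomial.X i + MvPolynomial.X (i + 2) ^ 2
      + MvPolynomial.X (i + 2) * MvPolynomial.X i) (bb i)
    + pol (MvPolynomial.X (i + 2) ^ 2 - MvPolynomial.X (i + 1) ^ 2) (bb (i + 1))

theorem exists_upf : ∃ u : Equiv.Perm (Fin 3) → Equiv.Perm ℕ,
    (∀ s (i : Fin 3), u s ((i : ℕ) + 1) = (s i : ℕ) + 1) ∧
      ∀ s n, n ∉ Finset.Icc 1 3 → u s n = n := by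
  let f : Fin 3 ≃ {n : ℕ // n ∈ Finset.Icc 1 3} :=
    { toFun := fun i => ⟨(i : ℕ) + 1, by rw [Finset.mem_Icc]; omega⟩
      invFun := fun n => ⟨(n : ℕ) - 1, by
        have := Finset.mem_Icc.1 n.2
        omega⟩
      left_inv := fun i => by ext; simp
      right_inv := fun n => by
        have := Finset.mem_Icc.1 n.2
        ext
        simp only
        omega }
  refine ⟨fun s => s.extendDomain f, ?_, ?_⟩
  · intro s i
    exact Equiv.Perm.extendDomain_apply_image s f i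
  · intro s n hn
    exact Equiv.Perm.extendDomain_apply_not_subtype s f hn

/-- A permutation of `Fin 3` acting on `{1, 2, 3} ⊆ ℕ`. -/
def up3 : Equiv.Perm (Fin 3) → Equiv.Perm ℕ := exists_upf.choose

theorem up3_apply (s : Equiv.Perm (Fin 3)) (i : Fin 3) : up3 s ((i : ℕ) + 1) = (s i : ℕ) + 1 :=
  exists_upf.choose_spec.1 s i

theorem up3_out (s : Equiv.Perm (Fin 3)) {n : ℕ} (hn : n ∉ Finset.Icc 1 3) : up3 s n = n :=
  exists_upf.choose_spec.2 s n hn

theorem exists_up3 (σ : Equiv.Perm ℕ) (h : ∀ i, i ∉ Finset.Icc 1 3 → σ i = i) :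
    ∃ s : Equiv.Perm (Fin 3), σ = up3 s := by
  have hσ : ∀ i, i ∈ Finset.Icc 1 3 → σ i ∈ Finset.Icc 1 3 := by
    intro i hi
    by_contra hcon
    have := σ.injective (h _ hcon)
    rw [this] at hcon
    exact hcon hi
  have hm : ∀ i : Fin 3, ((i : ℕ) + 1) ∈ Finset.Icc 1 3 := by
    intro i
    rw [Finset.mem_Icc]
    omega
  let g : Fin 3 → Fin 3 := fun i => ⟨σ ((i : ℕ) + 1) - 1, by
    have := Finset.mem_Icc.1 (hσ _ (hm i))
    omega⟩
  have hg : Function.Injective g := by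
    intro i j hij
    have h1 : σ ((i : ℕ) + 1) - 1 = σ ((j : ℕ) + 1) - 1 := congrArg Fin.val hij
    have h2 := Finset.mem_Icc.1 (hσ _ (hm i))
    have h3 := Finset.mem_Icc.1 (hσ _ (hm j))
    have h4 : σ ((i : ℕ) + 1) = σ ((j : ℕ) + 1) := by omega
    have h5 := σ.injective h4
    ext
    omega
  refine ⟨Equiv.ofBijective g (Finite.injective_iff_bijective.1 hg), ?_⟩
  ext n
  by_cases hn : n ∈ Finset.Icc 1 3
  · have hn2 := Finset.mem_Icc.1 hn
    obtain ⟨i, rfl⟩ : ∃ i : Fin 3, n = (i : ℕ) + 1 := ⟨⟨n - 1, by omega⟩, by simp only; omega⟩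
    rw [up3_apply, Equiv.ofBijective_apply]
    have h2 := Finset.mem_Icc.1 (hσ _ (hm i))
    change σ ((i : ℕ) + 1) = σ ((i : ℕ) + 1) - 1 + 1
    omega
  · rw [up3_out _ hn, h n hn]

private theorem up3_zero (s : Equiv.Perm (Fin 3)) : up3 s 0 = 0 := up3_out s (by simp)

theorem ren_pol (s : Equiv.Perm (Fin 3)) (p : R3 F) (f : FL F) :
    ren (up3 s) (pol p f) = pol (MvPolynomial.rename s p) (ren (up3 s) f) := by
  induction p using MvPolynomial.induction_on generalizing f with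
  | C c => rw [MvPolynomial.rename_C, pol_C, pol_C, map_smul]
  | add p q hp hq => rw [map_add, map_add, map_add, LinearMap.add_apply, LinearMap.add_apply,
      map_add, hp, hq]
  | mul_X p i hp =>
    rw [pol_mul, map_mul, MvPolynomial.rename_X, pol_mul, pol_X, pol_X, hp,
      ren_tt _ (up3_zero s), up3_apply]

private theorem ren_Yv (s : Equiv.Perm (Fin 3)) (i : Fin 3) :
    ren (up3 s) (Yv F i) = Yv F (s i) := by
  rw [Yv, ren_X, up3_apply]
  rfl

private theorem perm_cases : ∀ (s : Equiv.Perm (Fin 3)) (i : Fin 3),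
    (Equiv.Perm.sign s = 1 ∧ s (i + 1) = s i + 1 ∧ s (i + 2) = s i + 2) ∨
    (Equiv.Perm.sign s = -1 ∧ s (i + 1) = s i + 2 ∧ s (i + 2) = s i + 1) := by
  decide

theorem ren_bb (s : Equiv.Perm (Fin 3)) (i : Fin 3) :
    ren (up3 s) (bb (F := F) i) = ((Equiv.Perm.sign s : ℤ) : F) • bb (s i) := by
  rw [bb_eq, LieHom.map_lie, LieHom.map_lie, ren_Yv, ren_Yv, ren_Yv, bb_eq]
  rcases perm_cases s i with ⟨h0, h1, h2⟩ | ⟨h0, h1, h2⟩
  · rw [h0, h1, h2]
    simp
  · rw [h0, h1, h2, ← lie_skew (Yv F (s i + 2)) (Yv F (s i + 1)), neg_lie]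
    simp

/-- The module structure given by `pol`. -/
@[reducible] private def polModule (F : Type u) [Field F] : Module (R3 F) (FL F) :=
  Module.compHom (FL F) (pol (F := F)).toRingHom

attribute [local instance] polModule

private theorem pol_eq_smul (p : R3 F) (f : FL F) : pol p f = p • f := rfl

/-- `σ e_i = sgn(σ) e_{σ i}`: check it for the cyclic permutation (clear) and for one
transposition, where it uses `bb_sum`. -/
theorem ren_ev (s : Equiv.Perm (Fin 3)) (i : Fin 3) :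
    ren (up3 s) (ev (F := F) i) = ((Equiv.Perm.sign s : ℤ) : F) • ev (s i) := by
  rw [ev, ev, map_add, ren_pol, ren_pol, ren_bb, ren_bb]
  simp only [map_add (MvPolynomial.rename (R := F) s), map_sub (MvPolynomial.rename (R := F) s),
    map_neg (MvPolynomial.rename (R := F) s), map_mul (MvPolynomial.rename (R := F) s),
    map_pow (MvPolynomial.rename (R := F) s), MvPolynomial.rename_X]
  rcases perm_cases s i with ⟨h0, h1, h2⟩ | ⟨h0, h1, h2⟩
  · rw [h0, h1, h2]
    simp only [Units.val_one, Int.cast_one, one_smul]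
  · rw [h0, h1, h2, bb_sum' (s i)]
    simp only [Units.val_neg, Units.val_one, Int.cast_neg, Int.cast_one, neg_smul, one_smul]
    simp only [pol_eq_smul]
    module

private theorem Yv_ne (i : Fin 3) : ((i : ℕ) + 1) ≠ 0 := by omega

private theorem upd_same (i : Fin 3) :
    Function.update (fun j => (MvPolynomial.X j : R3 F)) i 0 i = 0 := Function.update_self _ _ _

/-- `E_{i+1} (pol p f) = pol (p|_{t_i = 0}) (E_{i+1} f)`, by induction on `p`
(`E_tt_ne`, `E_tt_same`). -/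
theorem E_pol (i : Fin 3) (p : R3 F) (f : FL F) :
    E ((i : ℕ) + 1) (pol p f)
      = pol (MvPolynomial.aeval (Function.update (fun j => (MvPolynomial.X j : R3 F)) i 0) p)
          (E ((i : ℕ) + 1) f) := by
  induction p using MvPolynomial.induction_on generalizing f with
  | C c =>
    rw [pol_C, map_smul, MvPolynomial.aeval_C, MvPolynomial.algebraMap_eq, pol_C]
  | add p q hp hq => rw [map_add, map_add, map_add, LinearMap.add_apply, LinearMap.add_apply,
      map_add, hp, hq]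
  | mul_X p j hp =>
    rw [pol_mul, map_mul, MvPolynomial.aeval_X, pol_mul, pol_X, hp]
    by_cases hij : j = i
    · subst hij
      rw [E_tt_same (by omega), Function.update_self, map_zero, map_zero, LinearMap.zero_apply,
        map_zero]
    · rw [Function.update_of_ne hij, pol_X, E_tt_ne (by omega) (by omega)]
      intro h
      apply hij
      ext
      omega

private theorem fin3_ne (i : Fin 3) : i + 1 ≠ i ∧ i + 2 ≠ i ∧ i + 1 ≠ i + 2 := by
  fin_cases i <;> decide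

private theorem E_Yv_same (i : Fin 3) : E ((i : ℕ) + 1) (Yv F i) = X F 0 := dd_X_same _ _

private theorem E_Yv_ne {i j : Fin 3} (h : j ≠ i) : E ((i : ℕ) + 1) (Yv F j) = 0 := by
  apply dd_X_ne
  intro h2
  apply h
  ext
  omega

private theorem tt_Yv_same (i : Fin 3) : tt ((i : ℕ) + 1) (Yv F i) = ⁅Yv F i, X F 0⁆ :=
  tt_X_same _

private theorem tt_Yv_ne {i j : Fin 3} (h : j ≠ i) : tt ((i : ℕ) + 1) (Yv F j) = Yv F j := by
  apply tt_X_ne
  intro h2
  apply h
  ext
  omega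

private theorem E_lie (j : ℕ) (f g : FL F) : E j ⁅f, g⁆ = ⁅f, E j g⁆ + ⁅E j f, g⁆ :=
  dd_lie _ _ f g

/-- `E_{i+1} b_i = (t_j + t_k) [y_j, y_k]`, `(i, j, k)` cyclic. -/
theorem E_bb_same (i : Fin 3) : E ((i : ℕ) + 1) (bb (F := F) i)
    = pol (MvPolynomial.X (i + 1) + MvPolynomial.X (i + 2))
        ⁅X F (((i + 1 : Fin 3) : ℕ) + 1), X F (((i + 2 : Fin 3) : ℕ) + 1)⁆ := by
  obtain ⟨h1, h2, h3⟩ := fin3_ne i
  change _ = pol (MvPolynomial.X (i + 1) + MvPolynomial.X (i + 2)) ⁅Yv F (i + 1), Yv F (i + 2)⁆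
  rw [map_add, LinearMap.add_apply, pol_X, pol_X, LieHom.map_lie, LieHom.map_lie, tt_Yv_same,
    tt_Yv_same, tt_Yv_ne h3, tt_Yv_ne h3.symm, bb_eq, E_lie, E_lie, E_Yv_same, E_Yv_ne h1,
    E_Yv_ne h2, lie_zero, zero_lie, add_zero, zero_lie, add_zero, lie_lie,
    ← lie_skew (Yv F (i + 2)) (⁅Yv F (i + 1), X F 0⁆)]
  abel

/-- `E_{i+1} b_j = - t_k [y_j, y_k]`. -/
theorem E_bb_one (i : Fin 3) : E ((i : ℕ) + 1) (bb (F := F) (i + 1))
    = - pol (MvPolynomial.X (i + 2))
        ⁅X F (((i + 1 : Fin 3) : ℕ) + 1), X F (((i + 2 : Fin 3) : ℕ) + 1)⁆ := by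
  obtain ⟨h1, h2, h3⟩ := fin3_ne i
  change _ = - pol (MvPolynomial.X (i + 2)) ⁅Yv F (i + 1), Yv F (i + 2)⁆
  have h4 : i + 1 + 1 = i + 2 := by fin_cases i <;> rfl
  have h5 : i + 1 + 2 = i := by fin_cases i <;> rfl
  rw [pol_X, LieHom.map_lie, tt_Yv_same, tt_Yv_ne h3, bb_eq, h4, h5, E_lie, E_lie, E_Yv_same,
    E_Yv_ne h1, E_Yv_ne h2, lie_zero, zero_lie, zero_add, add_zero, lie_skew]

/-- `E_{i+1} b_k = - t_j [y_j, y_k]`. -/
theorem E_bb_two (i : Fin 3) : E ((i : ℕ) + 1) (bb (F := F) (i + 2))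
    = - pol (MvPolynomial.X (i + 1))
        ⁅X F (((i + 1 : Fin 3) : ℕ) + 1), X F (((i + 2 : Fin 3) : ℕ) + 1)⁆ := by
  obtain ⟨h1, h2, h3⟩ := fin3_ne i
  change _ = - pol (MvPolynomial.X (i + 1)) ⁅Yv F (i + 1), Yv F (i + 2)⁆
  have h4 : i + 2 + 1 = i := by fin_cases i <;> rfl
  have h5 : i + 2 + 2 = i + 1 := by fin_cases i <;> rfl
  rw [pol_X, LieHom.map_lie, tt_Yv_same, tt_Yv_ne h3.symm, bb_eq, h4, h5, E_lie, E_lie, E_Yv_same,
    E_Yv_ne h1, E_Yv_ne h2, lie_zero, lie_zero, zero_add, zero_add,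
    ← lie_skew (X F 0) (Yv F (i + 1)), neg_lie]

/-- A family of subspaces stable under the `tt (i + 1)` is stable under `pol p`. -/
private theorem pol_graded (U : ℕ → Submodule F (FL F))
    (hU : ∀ (i : Fin 3) (d : ℕ) (f : FL F), f ∈ U d → tt ((i : ℕ) + 1) f ∈ U (d + 1))
    {p : R3 F} {m d : ℕ} (hp : p.IsHomogeneous m) {f : FL F} (hf : f ∈ U d) :
    pol p f ∈ U (d + m) := by
  have key : ∀ s : Fin 3 →₀ ℕ, ∀ (d : ℕ) (f : FL F), f ∈ U d →
      pol (MvPolynomial.monomial s 1) f ∈ U (d + s.degree) := by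
    intro s
    induction s using Finsupp.induction_linear with
    | zero =>
      intro d f hf
      have h1 : (MvPolynomial.monomial (0 : Fin 3 →₀ ℕ) (1 : F)) = 1 := rfl
      rw [h1, map_one, map_zero]
      exact hf
    | add s t hs ht =>
      intro d f hf
      have h1 : (MvPolynomial.monomial (s + t) (1 : F))
          = MvPolynomial.monomial s 1 * MvPolynomial.monomial t 1 := by
        rw [MvPolynomial.monomial_mul, one_mul]
      rw [h1, pol_mul, map_add, add_comm s.degree, ← add_assoc]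
      exact hs _ _ (ht _ _ hf)
    | single i n =>
      rw [← MvPolynomial.X_pow_eq_monomial, Finsupp.degree_single]
      induction n with
      | zero =>
        intro d f hf
        rw [pow_zero, map_one]
        exact hf
      | succ n ih =>
        intro d f hf
        rw [pow_succ, pol_mul, pol_X, add_comm n 1, ← add_assoc]
        exact ih _ _ (hU i _ _ hf)
  rw [p.as_sum, map_sum, LinearMap.sum_apply]
  apply Submodule.sum_mem
  intro s hs
  have h1 : s.degree = m := by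
    rw [Finsupp.degree_eq_weight_one]
    exact hp (MvPolynomial.mem_support_iff.1 hs)
  have h2 : MvPolynomial.monomial s (p.coeff s) = MvPolynomial.C (p.coeff s)
      * MvPolynomial.monomial s 1 := by
    rw [MvPolynomial.C_mul_monomial, mul_one]
  rw [h2, pol_mul, pol_C, ← h1]
  exact Submodule.smul_mem _ _ (key s d f hf)

theorem pol_mem {p : R3 F} {m d : ℕ} (hp : p.IsHomogeneous m) {f : FL F} (hf : f ∈ W 3 d) :
    pol p f ∈ W (F := F) 3 (d + m) := by
  refine pol_graded (fun d => W 3 d) ?_ hp hf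
  intro i d f hf
  exact tt_mem (by rw [Finset.mem_Icc]; omega) (zero_notMem_Icc 3) hf

theorem pol_KE {p : R3 F} {m d : ℕ} (hp : p.IsHomogeneous m) {f : FL F}
    (hf : f ∈ KE (Finset.Icc 1 3) d) : pol p f ∈ KE (F := F) (Finset.Icc 1 3) (d + m) := by
  refine pol_graded (fun d => KE (Finset.Icc 1 3) d) ?_ hp hf
  intro i d f hf
  exact tt_KE (by rw [Finset.mem_Icc]; omega) (zero_notMem_Icc 3) hf

private theorem bb_mem (i : Fin 3) : bb (F := F) i ∈ W (F := F) 3 0 := by
  have h2 : cont (Finset.Icc 1 3) 0 = {((i + 1 : Fin 3) : ℕ) + 1} + {((i + 2 : Fin 3) : ℕ) + 1}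
      + {(i : ℕ) + 1} := by
    revert i
    decide
  have h := lie_mem_homC (lie_mem_homC (X_mem (F := F) (((i + 1 : Fin 3) : ℕ) + 1))
    (X_mem (((i + 2 : Fin 3) : ℕ) + 1))) (X_mem ((i : ℕ) + 1))
  rw [bb_eq, W, WW, h2]
  exact h

private theorem ev_W (i : Fin 3) : ev (F := F) i ∈ W (F := F) 3 2 := by
  have hX := fun j : Fin 3 => MvPolynomial.isHomogeneous_X F j
  have hX2 := fun j : Fin 3 => (MvPolynomial.isHomogeneous_X F j).pow 2
  rw [ev, ← zero_add 2]
  apply Submodule.add_mem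
  · apply pol_mem _ (bb_mem i)
    exact ((((hX (i + 1)).mul (hX (i + 2))).neg.add ((hX (i + 1)).mul (hX i))).add
      (hX2 (i + 2))).add ((hX (i + 2)).mul (hX i))
  · apply pol_mem _ (bb_mem (i + 1))
    exact (hX2 (i + 2)).sub (hX2 (i + 1))

private theorem fin3_cases (k i : Fin 3) :
    (i = k ∧ i + 1 = k + 1 ∧ i + 2 = k + 2) ∨ (i = k + 1 ∧ i + 1 = k + 2 ∧ i + 2 = k) ∨
      (i = k + 2 ∧ i + 1 = k ∧ i + 2 = k + 1) := by
  revert k i
  decide

theorem ev_mem (i : Fin 3) : ev (F := F) i ∈ KE (Finset.Icc 1 3) 2 := by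
  rw [mem_KE]
  refine ⟨ev_W i, ?_⟩
  intro j hj
  have hj2 := Finset.mem_Icc.1 hj
  obtain ⟨k, rfl⟩ : ∃ k : Fin 3, j = (k : ℕ) + 1 := ⟨⟨j - 1, by omega⟩, by simp only; omega⟩
  obtain ⟨hk1, hk2, hk3⟩ := fin3_ne k
  rw [ev, map_add, E_pol, E_pol]
  set φ : R3 F →ₐ[F] R3 F := MvPolynomial.aeval
    (Function.update (fun j => (MvPolynomial.X j : R3 F)) k 0) with hφ
  have hu : ∀ j : Fin 3, φ (MvPolynomial.X j)
      = Function.update (fun j => (MvPolynomial.X j : R3 F)) k 0 j :=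
    fun j => MvPolynomial.aeval_X _ _
  simp only [map_add φ, map_sub φ, map_neg φ, map_mul φ, map_pow φ, hu]
  rcases fin3_cases k i with ⟨h0, h1, h2⟩ | ⟨h0, h1, h2⟩ | ⟨h0, h1, h2⟩
  · rw [h0, Function.update_self, Function.update_of_ne hk1, Function.update_of_ne hk2,
      E_bb_same, E_bb_one]
    simp only [pol_eq_smul]
    module
  · rw [h1, h2, h0, Function.update_self, Function.update_of_ne hk1, Function.update_of_ne hk2,
      E_bb_two, E_bb_one]
    simp only [pol_eq_smul]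
    module
  · rw [h1, h2, h0, Function.update_self, Function.update_of_ne hk1, Function.update_of_ne hk2,
      E_bb_two, E_bb_same]
    simp only [pol_eq_smul]
    module

/-- `∑ t_i e_i = 0`. -/
theorem ev_rel : ∑ i : Fin 3, pol (MvPolynomial.X i) (ev (F := F) i) = 0 := by
  have h2 : bb (F := F) 2 = - bb 0 - bb 1 := bb_sum' 0
  rw [Fin.sum_univ_three, ev, ev, ev]
  change pol _ (pol _ (bb 0) + pol _ (bb 1)) + pol _ (pol _ (bb 1) + pol _ (bb 2))
    + pol _ (pol _ (bb 2) + pol _ (bb 0)) = 0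
  rw [h2]
  simp only [pol_eq_smul]
  change (MvPolynomial.X 0 : R3 F) • ((- (MvPolynomial.X 1 * MvPolynomial.X 2)
      + MvPolynomial.X 1 * MvPolynomial.X 0 + MvPolynomial.X 2 ^ 2
      + MvPolynomial.X 2 * MvPolynomial.X 0 : R3 F) • (bb 0 : FL F)
      + (MvPolynomial.X 2 ^ 2 - MvPolynomial.X 1 ^ 2 : R3 F) • (bb 1 : FL F))
    + (MvPolynomial.X 1 : R3 F) • ((- (MvPolynomial.X 2 * MvPolynomial.X 0)
      + MvPolynomial.X 2 * MvPolynomial.X 1 + MvPolynomial.X 0 ^ 2
      + MvPolynomial.X 0 * MvPolynomial.X 1 : R3 F) • (bb 1 : FL F)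
      + (MvPolynomial.X 0 ^ 2 - MvPolynomial.X 2 ^ 2 : R3 F) • (- bb 0 - bb 1 : FL F))
    + (MvPolynomial.X 2 : R3 F) • ((- (MvPolynomial.X 0 * MvPolynomial.X 1)
      + MvPolynomial.X 0 * MvPolynomial.X 2 + MvPolynomial.X 1 ^ 2
      + MvPolynomial.X 1 * MvPolynomial.X 2 : R3 F) • (- bb 0 - bb 1 : FL F)
      + (MvPolynomial.X 1 ^ 2 - MvPolynomial.X 0 ^ 2 : R3 F) • (bb 0 : FL F)) = 0
  module

/-- The span of the elements obtained from `WW Y 0` by applying `d` operators `tt l`, `l ∈ Y`. -/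
private def Sp (F : Type u) [Field F] (Y : Finset ℕ) : ℕ → Submodule F (FL F)
  | 0 => WW Y 0
  | d + 1 => ⨆ l ∈ Y, (Sp F Y d).map (tt (F := F) l).toLinearMap

private theorem tt_Sp {Y : Finset ℕ} {l d : ℕ} (hl : l ∈ Y) {f : FL F} (hf : f ∈ Sp F Y d) :
    tt l f ∈ Sp F Y (d + 1) :=
  (le_iSup₂_of_le (f := fun l (_ : l ∈ Y) => (Sp F Y d).map (tt (F := F) l).toLinearMap)
    l hl le_rfl) ⟨f, hf, rfl⟩

private theorem lie_Sp {Y : Finset ℕ} {j : ℕ} (hj : j ∉ Y) (d : ℕ) :
    ∀ f : FL F, f ∈ Sp F Y d → ⁅f, X F j⁆ ∈ Sp F (insert j Y) d := by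
  induction d with
  | zero => exact fun f hf => lie_X_mem_WW hj hf
  | succ d ih =>
    intro f hf
    have h1 : Sp F Y (d + 1) ≤ (Sp F (insert j Y) (d + 1)).comap (lieBy (X F j)) := by
      refine iSup₂_le fun l hl => ?_
      rintro _ ⟨g, hg, rfl⟩
      change ⁅tt l g, X F j⁆ ∈ Sp F (insert j Y) (d + 1)
      have hjl : j ≠ l := by
        rintro rfl
        exact hj hl
      have h2 : ⁅tt l g, X F j⁆ = tt l ⁅g, X F j⁆ := by
        rw [LieHom.map_lie, tt_X_ne hjl]
      rw [h2]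
      exact tt_Sp (Finset.mem_insert_of_mem hl) (ih g hg)
    exact h1 hf

private theorem WW_le_Sp (n : ℕ) : ∀ (Y : Finset ℕ), Y.card = n + 1 → 0 ∉ Y →
    ∀ d, WW (F := F) Y d ≤ Sp F Y d := by
  induction n with
  | zero =>
    intro Y hY h0 d
    obtain ⟨a, rfl⟩ := Finset.card_eq_one.1 hY
    rw [WW_singleton, Submodule.span_singleton_le_iff_mem]
    induction d with
    | zero =>
      change X F a ∈ WW (F := F) {a} 0
      rw [WW_singleton]
      exact Submodule.mem_span_singleton_self _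
    | succ d ih =>
      have h1 : lnm (X F a) (List.replicate d 0) ∈ WW (F := F) {a} d := by
        rw [WW_singleton]
        exact Submodule.mem_span_singleton_self _
      rw [List.replicate_succ', lnm_concat, lie_x h0 h1, Finset.sum_singleton]
      exact tt_Sp (Finset.mem_singleton_self a) ih
  | succ n ih =>
    intro Y hY h0 d
    induction d with
    | zero => exact le_rfl
    | succ d ihd =>
      intro f hf
      have h2 := WW_box h0 (by omega) hf
      have h1 : (WW Y d).map (lieBy (X F 0)) ⊔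
          ⨆ j ∈ Y, (WW (Y.erase j) (d + 1)).map (lieBy (X F j)) ≤ Sp F Y (d + 1) := by
        apply sup_le
        · rintro _ ⟨g, hg, rfl⟩
          rw [lieBy_apply, lie_x h0 hg]
          exact Submodule.sum_mem _ (fun l hl => tt_Sp hl (ihd hg))
        · refine iSup₂_le fun j hj => ?_
          rintro _ ⟨g, hg, rfl⟩
          have h3 := lie_Sp (Finset.notMem_erase j Y) (d + 1) g
            (ih (Y.erase j) (by rw [Finset.card_erase_of_mem hj, hY]; rfl)
              (fun h => h0 (Finset.mem_of_mem_erase h)) (d + 1) hg)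
          rw [Finset.insert_erase hj] at h3
          exact h3
      exact h1 h2

/-- `p ↦ p v`. -/
private def pv (v : FL F) : R3 F →ₗ[F] FL F where
  toFun p := pol p v
  map_add' p q := by rw [map_add]; rfl
  map_smul' c p := by rw [map_smul]; rfl

private theorem pv_apply (v : FL F) (p : R3 F) : pv v p = pol p v := rfl

private theorem W3_zero : WW (F := F) (Finset.Icc 1 3) 0 ≤
    Submodule.span F {bb 0, bb 1} := by
  have h1 : (1 : ℕ) ∈ cont (Finset.Icc 1 3) 0 := by decide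
  rw [WW, homC_eq_nSpan h1, NSpan, Submodule.span_le]
  rintro f ⟨l, hl, rfl⟩
  have h2 : cont (Finset.Icc 1 3) 0 = 1 ::ₘ (([2, 3] : List ℕ) : Multiset ℕ) := by decide
  rw [h2, Multiset.cons_inj_right, Multiset.coe_eq_coe] at hl
  have h3 : l = [2, 3] ∨ l = [3, 2] := by
    have h6 := hl.length_eq
    match l, h6 with
    | [a, b], _ =>
      have ha : a ∈ ([2, 3] : List ℕ) := hl.mem_iff.1 (by simp)
      have hb : b ∈ ([2, 3] : List ℕ) := hl.mem_iff.1 (by simp)
      have hnd : ([a, b] : List ℕ).Nodup := hl.nodup_iff.2 (by decide)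
      simp at ha hb hnd
      rcases ha with rfl | rfl <;> rcases hb with rfl | rfl <;> simp_all
  have h0m : bb (F := F) 0 ∈ Submodule.span F {bb (F := F) 0, bb 1} :=
    Submodule.subset_span (by simp)
  have h1m : bb (F := F) 1 ∈ Submodule.span F {bb (F := F) 0, bb 1} :=
    Submodule.subset_span (by simp)
  rcases h3 with h | h
  · rw [h]
    change bb (F := F) 2 ∈ _
    have h5 : bb (F := F) 2 = - bb 0 - bb 1 := bb_sum' 0
    rw [h5]
    exact Submodule.sub_mem _ (Submodule.neg_mem _ h0m) h1m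
  · rw [h]
    change ⁅⁅X F 1, X F 3⁆, X F 2⁆ ∈ _
    have h5 : ⁅⁅X F 1, X F 3⁆, X F 2⁆ = - bb (F := F) 1 := by
      rw [← lie_skew (X F 1) (X F 3), neg_lie]
      rfl
    rw [h5]
    exact Submodule.neg_mem _ h1m

private theorem Sp3 (d : ℕ) : Sp F (Finset.Icc 1 3) d ≤
    (MvPolynomial.homogeneousSubmodule (Fin 3) F d).map (pv (bb 0)) ⊔
      (MvPolynomial.homogeneousSubmodule (Fin 3) F d).map (pv (bb 1)) := by
  induction d with
  | zero =>
    change WW (F := F) (Finset.Icc 1 3) 0 ≤ _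
    refine W3_zero.trans ?_
    rw [Submodule.span_le]
    have h1 : (1 : R3 F) ∈ MvPolynomial.homogeneousSubmodule (Fin 3) F 0 :=
      MvPolynomial.isHomogeneous_one _ _
    rintro _ (rfl | rfl)
    · exact Submodule.mem_sup_left ⟨1, h1, by rw [pv_apply, map_one]; rfl⟩
    · exact Submodule.mem_sup_right ⟨1, h1, by rw [pv_apply, map_one]; rfl⟩
  | succ d ih =>
    refine iSup₂_le fun l hl => ?_
    rintro _ ⟨g, hg, rfl⟩
    have hl2 := Finset.mem_Icc.1 hl
    obtain ⟨i, rfl⟩ : ∃ i : Fin 3, l = (i : ℕ) + 1 := ⟨⟨l - 1, by omega⟩, by simp only; omega⟩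
    obtain ⟨_, ⟨p, hp, rfl⟩, _, ⟨q, hq, rfl⟩, rfl⟩ := Submodule.mem_sup.1 (ih hg)
    change tt ((i : ℕ) + 1) (pol p (bb 0) + pol q (bb 1)) ∈ _
    rw [map_add, ← pol_X, ← pol_X, ← pol_mul, ← pol_mul]
    refine Submodule.add_mem _ (Submodule.mem_sup_left ⟨_, ?_, rfl⟩)
      (Submodule.mem_sup_right ⟨_, ?_, rfl⟩)
    · have := (MvPolynomial.isHomogeneous_X F i).mul hp
      rw [add_comm] at this
      exact this
    · have := (MvPolynomial.isHomogeneous_X F i).mul hq
      rw [add_comm] at this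
      exact this

/-- `W 3 d` is spanned by `p b_i`, `p` homogeneous of degree `d`.  By induction on `d` and on the
number of letters with `WW_box` and `lie_x` (first `WW {a} d = F t_a^d y_a`,
`WW {a, b} d = F[t_a, t_b]_d [y_a, y_b]`), using `pol p ⁅u, y_j⁆ = ⁅pol p u, y_j⁆` for `p` without
`t_j`. -/
theorem W3_span {d : ℕ} {f : FL F} (hf : f ∈ W 3 d) : ∃ p q : R3 F, p.IsHomogeneous d ∧
    q.IsHomogeneous d ∧ f = pol p (bb 0) + pol q (bb 1) := by
  have h1 := Sp3 d (WW_le_Sp 2 (Finset.Icc 1 3) (by decide) (zero_notMem_Icc 3) d hf)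
  obtain ⟨_, ⟨p, hp, rfl⟩, _, ⟨q, hq, rfl⟩, rfl⟩ := Submodule.mem_sup.1 h1
  exact ⟨p, q, hp, hq, rfl⟩

section Model

attribute [local instance 100] LieRing.ofAssociativeRing

/-- The model: `x ↦ diag(0, t_j, t_j + t_k)`, `y_j ↦ u E_12`, `y_k ↦ v E_23`. -/
private def mdl (i : Fin 3) (u v : R3 F) : FL F →ₗ⁅F⁆ Matrix (Fin 3) (Fin 3) (R3 F) :=
  sb (fun n => if n = 0 then
      !![0, 0, 0; 0, MvPolynomial.X (i + 1), 0;
        0, 0, MvPolynomial.X (i + 1) + MvPolynomial.X (i + 2)]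
    else if n = ((i + 1 : Fin 3) : ℕ) + 1 then !![0, u, 0; 0, 0, 0; 0, 0, 0]
    else if n = ((i + 2 : Fin 3) : ℕ) + 1 then !![0, 0, 0; 0, 0, v; 0, 0, 0]
    else 0)

private theorem mdl_X0 (i : Fin 3) (u v : R3 F) : mdl i u v (X F 0) =
    !![0, 0, 0; 0, MvPolynomial.X (i + 1), 0;
      0, 0, MvPolynomial.X (i + 1) + MvPolynomial.X (i + 2)] := by
  rw [mdl, sb_X, if_pos rfl]

private theorem mdl_Y1 (i : Fin 3) (u v : R3 F) : mdl i u v (Yv F (i + 1)) =
    !![0, u, 0; 0, 0, 0; 0, 0, 0] := by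
  rw [mdl, Yv, sb_X, if_neg (by omega), if_pos rfl]

private theorem mdl_Y2 (i : Fin 3) (u v : R3 F) : mdl i u v (Yv F (i + 2)) =
    !![0, 0, 0; 0, 0, v; 0, 0, 0] := by
  obtain ⟨h1, h2, h3⟩ := fin3_ne i
  rw [mdl, Yv, sb_X, if_neg (by omega), if_neg, if_pos rfl]
  intro h
  apply h3
  ext
  omega

private theorem mdl_Y0 (i : Fin 3) (u v : R3 F) : mdl i u v (Yv F i) = 0 := by
  obtain ⟨h1, h2, h3⟩ := fin3_ne i
  rw [mdl, Yv, sb_X, if_neg (by omega), if_neg, if_neg]
  · intro h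
    apply h2
    ext
    omega
  · intro h
    apply h1
    ext
    omega

private theorem mdl_out (i : Fin 3) (u v : R3 F) {n : ℕ} (hn : n ∉ Finset.Icc 1 3)
    (hn0 : n ≠ 0) : mdl i u v (X F n) = 0 := by
  rw [Finset.mem_Icc] at hn
  rw [mdl, sb_X, if_neg hn0, if_neg (by omega), if_neg (by omega)]

private theorem mdl_tt (i l : Fin 3) (u v : R3 F) (f : FL F) :
    mdl i u v (tt ((l : ℕ) + 1) f) =
      mdl i (u * if l = i + 1 then MvPolynomial.X (i + 1) else 1)
        (v * if l = i + 2 then MvPolynomial.X (i + 2) else 1) f := by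
  obtain ⟨h1, h2, h3⟩ := fin3_ne i
  have h4 : (mdl i u v).comp (tt ((l : ℕ) + 1)) =
      mdl i (u * if l = i + 1 then MvPolynomial.X (i + 1) else 1)
        (v * if l = i + 2 then MvPolynomial.X (i + 2) else 1) := by
    apply FreeLieAlgebra.hom_ext
    intro n
    rw [LieHom.comp_apply]
    change mdl i u v (tt ((l : ℕ) + 1) (X F n)) = mdl i _ _ (X F n)
    by_cases hn0 : n = 0
    · subst hn0
      rw [tt_X_ne (by omega), mdl_X0, mdl_X0]
    by_cases hn : n ∈ Finset.Icc 1 3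
    · have hn2 := Finset.mem_Icc.1 hn
      obtain ⟨m, rfl⟩ : ∃ m : Fin 3, n = (m : ℕ) + 1 := ⟨⟨n - 1, by omega⟩, by simp only; omega⟩
      change mdl i u v (tt ((l : ℕ) + 1) (Yv F m)) = mdl i _ _ (Yv F m)
      have hm : m = i ∨ m = i + 1 ∨ m = i + 2 := by
        clear hn hn2 hn0 h1 h2 h3
        revert m i
        decide
      by_cases hlm : m = l
      · subst hlm
        rw [tt_Yv_same, LieHom.map_lie, mdl_X0]
        rcases hm with rfl | rfl | rfl
        · rw [mdl_Y0, mdl_Y0, zero_lie]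
        · rw [mdl_Y1, mdl_Y1, if_pos rfl, Ring.lie_def]
          apply Matrix.ext
          intro a b
          fin_cases a <;> fin_cases b <;> simp
        · rw [mdl_Y2, mdl_Y2, if_pos rfl, Ring.lie_def]
          apply Matrix.ext
          intro a b
          fin_cases a <;> fin_cases b <;> simp
          ring
      · rw [tt_Yv_ne hlm]
        rcases hm with rfl | rfl | rfl
        · rw [mdl_Y0, mdl_Y0]
        · rw [mdl_Y1, mdl_Y1, if_neg (fun h => hlm h.symm), mul_one]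
        · rw [mdl_Y2, mdl_Y2, if_neg (fun h => hlm h.symm), mul_one]
    · rw [tt_X_ne, mdl_out i _ _ hn hn0, mdl_out i _ _ hn hn0]
      rintro rfl
      apply hn
      rw [Finset.mem_Icc]
      omega
  rw [← h4]
  rfl

private theorem mdl_pol (i : Fin 3) (p : R3 F) : ∀ u v : R3 F,
    mdl i u v (pol p ⁅Yv F (i + 1), Yv F (i + 2)⁆) 0 2 =
      MvPolynomial.aeval (fun l => if l = i then (1 : R3 F) else MvPolynomial.X l) p
        * (u * v) := by
  obtain ⟨h1, h2, h3⟩ := fin3_ne i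
  induction p using MvPolynomial.induction_on with
  | C c =>
    intro u v
    rw [pol_C, map_smul, LieHom.map_lie, mdl_Y1, mdl_Y2, Ring.lie_def, MvPolynomial.aeval_C]
    simp [Algebra.smul_def]
  | add p q hp hq =>
    intro u v
    rw [map_add, LinearMap.add_apply, map_add, Matrix.add_apply, hp, hq, map_add, add_mul]
  | mul_X p l hp =>
    intro u v
    rw [mul_comm p, pol_mul, pol_X, mdl_tt, hp, map_mul, MvPolynomial.aeval_X]
    have hm : l = i ∨ l = i + 1 ∨ l = i + 2 := by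
      clear hp h1 h2 h3
      revert l i
      decide
    rcases hm with rfl | rfl | rfl
    · rw [if_neg h1.symm, if_neg h2.symm, if_pos rfl]
      ring
    · rw [if_pos rfl, if_neg h3, if_neg h1]
      ring
    · rw [if_neg h3.symm, if_pos rfl, if_neg h2]
      ring

end Model

/-- Faithfulness of level 2: model `x ↦ diag(0, s_1, s_1 + s_2)`, `y_j ↦ E_12`, `y_k ↦ E_23` in
the `3 × 3` matrices over `F[s_1, s_2]` (a Lie algebra); `pol p [y_j, y_k] ↦ ± p(.., s_1, s_2) E_13`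
for `p` in `t_j, t_k` only. -/
theorem pol_faithful (i : Fin 3) (p : R3 F)
    (hp : MvPolynomial.aeval (Function.update (fun j => (MvPolynomial.X j : R3 F)) i 0) p = p)
    (h : pol p ⁅X F (((i + 1 : Fin 3) : ℕ) + 1), X F (((i + 2 : Fin 3) : ℕ) + 1)⁆ = 0) :
    p = 0 := by
  have h1 := mdl_pol i p 1 1
  change pol p ⁅Yv F (i + 1), Yv F (i + 2)⁆ = 0 at h
  rw [h, map_zero, Matrix.zero_apply, mul_one, mul_one] at h1
  have h2 : (MvPolynomial.aeval (fun l => if l = i then (1 : R3 F) else MvPolynomial.X l)).comp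
      (MvPolynomial.aeval (Function.update (fun j => (MvPolynomial.X j : R3 F)) i 0)) =
      MvPolynomial.aeval (R := F) (Function.update (fun j => (MvPolynomial.X j : R3 F)) i 0) := by
    apply MvPolynomial.algHom_ext
    intro l
    rw [AlgHom.comp_apply, MvPolynomial.aeval_X]
    by_cases hl : l = i
    · subst hl
      rw [Function.update_self, map_zero]
    · rw [Function.update_of_ne hl, MvPolynomial.aeval_X, if_neg hl]
  have h3 := congrArg (fun φ : R3 F →ₐ[F] R3 F => φ p) h2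
  simp only [AlgHom.comp_apply] at h3
  rw [hp, ← h1] at h3
  exact h3.symm

/-- `p ↦ p|_{t_i = 0}`. -/
private def Zz (F : Type u) [Field F] (i : Fin 3) : R3 F →ₐ[F] R3 F :=
  MvPolynomial.aeval (Function.update (fun j => (MvPolynomial.X j : R3 F)) i 0)

private theorem Zz_same (i : Fin 3) : Zz F i (MvPolynomial.X i) = 0 := by
  rw [Zz, MvPolynomial.aeval_X, Function.update_self]

private theorem Zz_ne {i j : Fin 3} (h : j ≠ i) :
    Zz F i (MvPolynomial.X j) = MvPolynomial.X j := by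
  rw [Zz, MvPolynomial.aeval_X, Function.update_of_ne h]

private theorem Zz_idem (i : Fin 3) (p : R3 F) : Zz F i (Zz F i p) = Zz F i p := by
  have h : (Zz F i).comp (Zz F i) = Zz F i := by
    apply MvPolynomial.algHom_ext
    intro l
    rw [AlgHom.comp_apply]
    by_cases hl : l = i
    · subst hl
      rw [Zz_same, map_zero]
    · rw [Zz_ne hl, Zz_ne hl]
  exact congrArg (fun φ : R3 F →ₐ[F] R3 F => φ p) h

private theorem Zz_comm (i j : Fin 3) (p : R3 F) : Zz F i (Zz F j p) = Zz F j (Zz F i p) := by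
  have h : (Zz F i).comp (Zz F j) = (Zz F j).comp (Zz F i) := by
    apply MvPolynomial.algHom_ext
    intro l
    rw [AlgHom.comp_apply, AlgHom.comp_apply]
    by_cases hl : l = i
    · subst hl
      by_cases hj : l = j
      · subst hj
        rfl
      · rw [Zz_ne hj, Zz_same, map_zero]
    · by_cases hj : l = j
      · subst hj
        rw [Zz_ne hl, Zz_same, map_zero]
      · rw [Zz_ne hj, Zz_ne hl, Zz_ne hj]
  exact congrArg (fun φ : R3 F →ₐ[F] R3 F => φ p) h

private theorem Zz_dvd (i : Fin 3) (p : R3 F) :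
    ∃ p' : R3 F, p = Zz F i p + MvPolynomial.X i * p' := by
  induction p using MvPolynomial.induction_on with
  | C c => exact ⟨0, by rw [mul_zero, add_zero, Zz, MvPolynomial.aeval_C]; rfl⟩
  | add p q hp hq =>
    obtain ⟨p', hp⟩ := hp
    obtain ⟨q', hq⟩ := hq
    refine ⟨p' + q', ?_⟩
    rw [map_add]
    linear_combination hp + hq
  | mul_X p j hp =>
    obtain ⟨p', hp⟩ := hp
    by_cases hj : j = i
    · subst hj
      exact ⟨p, by rw [map_mul, Zz_same]; ring⟩
    · refine ⟨p' * MvPolynomial.X j, ?_⟩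
      rw [map_mul, Zz_ne hj]
      linear_combination (MvPolynomial.X j : R3 F) * hp

private theorem Zz_dvd3 (P : R3 F) (h0 : Zz F 0 P = 0) (h1 : Zz F 1 P = 0)
    (h2 : Zz F 2 P = 0) :
    ∃ P' : R3 F, P = MvPolynomial.X 0 * (MvPolynomial.X 1 * (MvPolynomial.X 2 * P')) := by
  have na : (MvPolynomial.X 0 : R3 F) ≠ 0 := MvPolynomial.X_ne_zero 0
  have nb : (MvPolynomial.X 1 : R3 F) ≠ 0 := MvPolynomial.X_ne_zero 1
  obtain ⟨P1, hP1⟩ := Zz_dvd 0 P
  rw [h0, zero_add] at hP1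
  have h3 : Zz F 1 P1 = 0 := by
    rw [hP1, map_mul, Zz_ne (by decide)] at h1
    exact (mul_eq_zero.1 h1).resolve_left na
  have h4 : Zz F 2 P1 = 0 := by
    rw [hP1, map_mul, Zz_ne (by decide)] at h2
    exact (mul_eq_zero.1 h2).resolve_left na
  obtain ⟨P2, hP2⟩ := Zz_dvd 1 P1
  rw [h3, zero_add] at hP2
  have h5 : Zz F 2 P2 = 0 := by
    rw [hP2, map_mul, Zz_ne (by decide)] at h4
    exact (mul_eq_zero.1 h4).resolve_left nb
  obtain ⟨P3, hP3⟩ := Zz_dvd 2 P2
  rw [h5, zero_add] at hP3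
  exact ⟨P3, by rw [← hP3, ← hP2, ← hP1]⟩

private theorem gen3_poly [CharZero F] (p q : R3 F)
    (h3 : MvPolynomial.X 1 * Zz F 2 p + MvPolynomial.X 0 * Zz F 2 q = 0)
    (h1 : (MvPolynomial.X 1 + MvPolynomial.X 2) * Zz F 0 p - MvPolynomial.X 2 * Zz F 0 q = 0)
    (h2 : (MvPolynomial.X 0 + MvPolynomial.X 2) * Zz F 1 q - MvPolynomial.X 2 * Zz F 1 p = 0) :
    ∃ x y z : R3 F,
      p = 2 * (x * (MvPolynomial.X 0 * (MvPolynomial.X 0 + MvPolynomial.X 2))
        + y * (MvPolynomial.X 1 * (MvPolynomial.X 0 - MvPolynomial.X 2))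
        + z * (MvPolynomial.X 2 * (MvPolynomial.X 0 + MvPolynomial.X 2))) ∧
      q = 2 * (x * (MvPolynomial.X 0 * (MvPolynomial.X 2 - MvPolynomial.X 1))
        - y * (MvPolynomial.X 1 * (MvPolynomial.X 1 + MvPolynomial.X 2))
        + z * (MvPolynomial.X 2 * (MvPolynomial.X 1 + MvPolynomial.X 2))) := by
  have a0 : Zz F 0 (MvPolynomial.X 0) = 0 := Zz_same 0
  have a1 : Zz F 1 (MvPolynomial.X 0) = MvPolynomial.X 0 := Zz_ne (by decide)
  have a2 : Zz F 2 (MvPolynomial.X 0) = MvPolynomial.X 0 := Zz_ne (by decide)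
  have b0 : Zz F 0 (MvPolynomial.X 1) = MvPolynomial.X 1 := Zz_ne (by decide)
  have b1 : Zz F 1 (MvPolynomial.X 1) = 0 := Zz_same 1
  have b2 : Zz F 2 (MvPolynomial.X 1) = MvPolynomial.X 1 := Zz_ne (by decide)
  have c0 : Zz F 0 (MvPolynomial.X 2) = MvPolynomial.X 2 := Zz_ne (by decide)
  have c1 : Zz F 1 (MvPolynomial.X 2) = MvPolynomial.X 2 := Zz_ne (by decide)
  have c2 : Zz F 2 (MvPolynomial.X 2) = 0 := Zz_same 2
  have na : (MvPolynomial.X 0 : R3 F) ≠ 0 := MvPolynomial.X_ne_zero 0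
  have nb : (MvPolynomial.X 1 : R3 F) ≠ 0 := MvPolynomial.X_ne_zero 1
  have nc : (MvPolynomial.X 2 : R3 F) ≠ 0 := MvPolynomial.X_ne_zero 2
  obtain ⟨e, he⟩ : ∃ e : R3 F, 2 * e = 1 := by
    refine ⟨MvPolynomial.C (1 / 2), ?_⟩
    have h4 : (2 : R3 F) = MvPolynomial.C 2 := (map_ofNat MvPolynomial.C 2).symm
    rw [h4, ← map_mul]
    norm_num
  have da := fun p : R3 F => Zz_dvd (F := F) 0 p
  have db := fun p : R3 F => Zz_dvd (F := F) 1 p
  have dc := fun p : R3 F => Zz_dvd (F := F) 2 p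
  have d3 := fun p : R3 F => Zz_dvd3 (F := F) p
  generalize (MvPolynomial.X 0 : R3 F) = a at *
  generalize (MvPolynomial.X 1 : R3 F) = b at *
  generalize (MvPolynomial.X 2 : R3 F) = c at *
  -- the solution on `c = 0`
  have e1 : Zz F 0 (Zz F 2 p) = 0 := by
    have := congrArg (Zz F 0) h3
    rw [map_add, map_mul, map_mul, a0, b0, zero_mul, add_zero, map_zero] at this
    exact (mul_eq_zero.1 this).resolve_left nb
  obtain ⟨h', hh'⟩ := da (Zz F 2 p)
  rw [e1, zero_add] at hh'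
  have e2 : Zz F 2 q = - b * h' := by
    have h4 : a * (b * h' + Zz F 2 q) = 0 := by linear_combination h3 - b * hh'
    have h5 := (mul_eq_zero.1 h4).resolve_left na
    linear_combination h5
  have hp2 : Zz F 2 p = a * Zz F 2 h' := by
    have := congrArg (Zz F 2) hh'
    rwa [Zz_idem, map_mul, a2] at this
  have hq2 : Zz F 2 q = - b * Zz F 2 h' := by
    have := congrArg (Zz F 2) e2
    rwa [Zz_idem, map_mul, map_neg, b2] at this
  have hh : Zz F 2 (Zz F 2 h') = Zz F 2 h' := Zz_idem 2 h'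
  clear hh' e2
  generalize Zz F 2 h' = h at *
  -- the solution on `a = 0`
  have e3 : Zz F 2 (Zz F 0 p) = 0 := by
    have := congrArg (Zz F 2) h1
    rw [map_sub, map_mul, map_mul, map_add, b2, c2, zero_mul, sub_zero, add_zero,
      map_zero] at this
    exact (mul_eq_zero.1 this).resolve_left nb
  obtain ⟨g', hg'⟩ := dc (Zz F 0 p)
  rw [e3, zero_add] at hg'
  have e4 : Zz F 0 q = (b + c) * g' := by
    have h4 : c * ((b + c) * g' - Zz F 0 q) = 0 := by linear_combination h1 - (b + c) * hg'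
    have h5 := (mul_eq_zero.1 h4).resolve_left nc
    linear_combination - h5
  have hp0 : Zz F 0 p = c * Zz F 0 g' := by
    have := congrArg (Zz F 0) hg'
    rwa [Zz_idem, map_mul, c0] at this
  have hq0 : Zz F 0 q = (b + c) * Zz F 0 g' := by
    have := congrArg (Zz F 0) e4
    rwa [Zz_idem, map_mul, map_add, b0, c0] at this
  have hg : Zz F 0 (Zz F 0 g') = Zz F 0 g' := Zz_idem 0 g'
  clear hg' e4
  generalize Zz F 0 g' = g at *
  -- the solution on `b = 0`
  have e5 : Zz F 2 (Zz F 1 q) = 0 := by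
    have := congrArg (Zz F 2) h2
    rw [map_sub, map_mul, map_mul, map_add, a2, c2, zero_mul, sub_zero, add_zero,
      map_zero] at this
    exact (mul_eq_zero.1 this).resolve_left na
  obtain ⟨k', hk'⟩ := dc (Zz F 1 q)
  rw [e5, zero_add] at hk'
  have e6 : Zz F 1 p = (a + c) * k' := by
    have h4 : c * ((a + c) * k' - Zz F 1 p) = 0 := by linear_combination h2 - (a + c) * hk'
    have h5 := (mul_eq_zero.1 h4).resolve_left nc
    linear_combination - h5
  have hq1 : Zz F 1 q = c * Zz F 1 k' := by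
    have := congrArg (Zz F 1) hk'
    rwa [Zz_idem, map_mul, c1] at this
  have hp1 : Zz F 1 p = (a + c) * Zz F 1 k' := by
    have := congrArg (Zz F 1) e6
    rwa [Zz_idem, map_mul, map_add, a1, c1] at this
  have hk : Zz F 1 (Zz F 1 k') = Zz F 1 k' := Zz_idem 1 k'
  clear hk' e6
  generalize Zz F 1 k' = k at *
  -- compatibility
  have cg : Zz F 2 g = - Zz F 0 h := by
    have h4 := Zz_comm 0 2 q
    rw [hq2, hq0, map_mul, map_mul, map_neg, map_add, b0, b2, c2, add_zero] at h4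
    have h5 : b * (Zz F 2 g + Zz F 0 h) = 0 := by linear_combination - h4
    have h6 := (mul_eq_zero.1 h5).resolve_left nb
    linear_combination h6
  have ck : Zz F 2 k = Zz F 1 h := by
    have h4 := Zz_comm 1 2 p
    rw [hp2, hp1, map_mul, map_mul, map_add, a1, a2, c2, add_zero] at h4
    exact (mul_left_cancel₀ na h4).symm
  have gk : Zz F 1 g = Zz F 0 k := by
    have h4 := Zz_comm 0 1 p
    rw [hp0, hp1, map_mul, map_mul, map_add, a0, c0, c1, zero_add] at h4
    exact (mul_left_cancel₀ nc h4).symm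
  have h00 : Zz F 1 (Zz F 0 h) = 0 := by
    have h4 : Zz F 1 (Zz F 2 g) = - Zz F 1 (Zz F 0 h) := by rw [cg, map_neg]
    rw [Zz_comm 1 2, gk, Zz_comm 2 0, ck, Zz_comm 0 1] at h4
    linear_combination e * h4 - Zz F 1 (Zz F 0 h) * he
  obtain ⟨u', hu'⟩ := da h
  obtain ⟨v', hv'⟩ := db (Zz F 0 h)
  rw [h00, zero_add] at hv'
  have hdec : h = a * Zz F 2 u' + b * Zz F 2 v' := by
    have h4 := congrArg (Zz F 2) hu'
    rw [map_add, map_mul, hh, a2, hv', map_mul, b2] at h4
    rw [h4]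
    ring
  have hu : Zz F 2 (Zz F 2 u') = Zz F 2 u' := Zz_idem 2 u'
  have hv : Zz F 2 (Zz F 2 v') = Zz F 2 v' := Zz_idem 2 v'
  clear hu' hv'
  generalize Zz F 2 u' = u at *
  generalize Zz F 2 v' = v at *
  have h0h : Zz F 0 h = b * Zz F 0 v := by
    rw [hdec, map_add, map_mul, map_mul, a0, b0, zero_mul, zero_add]
  have h1h : Zz F 1 h = a * Zz F 1 u := by
    rw [hdec, map_add, map_mul, map_mul, a1, b1, zero_mul, add_zero]
  -- `g + b v_0 = c w`
  obtain ⟨w', hw'⟩ := dc (g + b * Zz F 0 v)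
  have G2 : Zz F 2 (g + b * Zz F 0 v) = 0 := by
    rw [map_add, map_mul, b2, cg, Zz_comm 2 0, hv, h0h]
    ring
  rw [G2, zero_add] at hw'
  have hG : g + b * Zz F 0 v = c * Zz F 0 w' := by
    have h4 := congrArg (Zz F 0) hw'
    rwa [map_add, map_mul, map_mul, b0, c0, hg, Zz_idem] at h4
  have hw : Zz F 0 (Zz F 0 w') = Zz F 0 w' := Zz_idem 0 w'
  clear hw' G2
  generalize Zz F 0 w' = w at *
  -- `k - a u_1 = c t`
  obtain ⟨t', ht'⟩ := dc (k - a * Zz F 1 u)
  have K2 : Zz F 2 (k - a * Zz F 1 u) = 0 := by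
    rw [map_sub, map_mul, a2, ck, Zz_comm 2 1, hu, h1h]
    ring
  rw [K2, zero_add] at ht'
  have hK : k - a * Zz F 1 u = c * Zz F 1 t' := by
    have h4 := congrArg (Zz F 1) ht'
    rwa [map_sub, map_mul, map_mul, a1, c1, hk, Zz_idem] at h4
  have ht : Zz F 1 (Zz F 1 t') = Zz F 1 t' := Zz_idem 1 t'
  clear ht' K2
  generalize Zz F 1 t' = t at *
  -- `t - w_1 = a l`
  have htw : Zz F 0 t = Zz F 1 w := by
    have h4 := congrArg (Zz F 0) hK
    have h5 := congrArg (Zz F 1) hG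
    rw [map_sub, map_mul, map_mul, a0, c0] at h4
    rw [map_add, map_mul, map_mul, b1, c1] at h5
    apply mul_left_cancel₀ nc
    linear_combination h5 - h4 - gk
  obtain ⟨l', hl'⟩ := da (t - Zz F 1 w)
  have L0 : Zz F 0 (t - Zz F 1 w) = 0 := by
    rw [map_sub, htw, Zz_comm 0 1, hw, sub_self]
  rw [L0, zero_add] at hl'
  have hL : t - Zz F 1 w = a * Zz F 1 l' := by
    have h4 := congrArg (Zz F 1) hl'
    rwa [map_sub, map_mul, a1, ht, Zz_idem] at h4
  have hl : Zz F 1 (Zz F 1 l') = Zz F 1 l' := Zz_idem 1 l'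
  clear hl' L0
  generalize Zz F 1 l' = l at *
  -- the remainder is divisible by `a b c`
  obtain ⟨P', hP⟩ := d3 (p - (u * (a * (a + c)) + v * (b * (a - c)) + w * (c * (a + c))
      + c * l * (a * (a + c)))) (by
    simp only [map_sub, map_add, map_mul, a0, b0, c0, hp0, hw]
    linear_combination c * hG) (by
    simp only [map_sub, map_add, map_mul, a1, b1, c1, hp1, hl]
    linear_combination (a + c) * hK + (a + c) * c * hL) (by
    simp only [map_sub, map_add, map_mul, a2, b2, c2, hp2, hu, hv]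
    linear_combination a * hdec)
  obtain ⟨Q', hQ⟩ := d3 (q - (u * (a * (c - b)) - v * (b * (b + c)) + w * (c * (b + c))
      + c * l * (a * (c - b)))) (by
    simp only [map_sub, map_add, map_mul, a0, b0, c0, hq0, hw]
    linear_combination (b + c) * hG) (by
    simp only [map_sub, map_add, map_mul, a1, b1, c1, hq1, hl]
    linear_combination c * hK + c * c * hL) (by
    simp only [map_sub, map_add, map_mul, a2, b2, c2, hq2, hu, hv]
    linear_combination - b * hdec)
  refine ⟨e * (u + c * l - e * c * Q'), e * (v + e * c * P'),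
    e * (w + e * b * P' + e * a * Q'), ?_, ?_⟩
  · have T : p = (u + c * l - e * c * Q') * (a * (a + c)) + (v + e * c * P') * (b * (a - c))
        + (w + e * b * P' + e * a * Q') * (c * (a + c)) := by
      linear_combination hP - a * b * c * P' * he
    linear_combination T - ((u + c * l - e * c * Q') * (a * (a + c))
      + (v + e * c * P') * (b * (a - c)) + (w + e * b * P' + e * a * Q') * (c * (a + c))) * he
  · have T : q = (u + c * l - e * c * Q') * (a * (c - b)) - (v + e * c * P') * (b * (b + c))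
        + (w + e * b * P' + e * a * Q') * (c * (b + c)) := by
      linear_combination hQ - a * b * c * Q' * he
    linear_combination T - ((u + c * l - e * c * Q') * (a * (c - b))
      - (v + e * c * P') * (b * (b + c)) + (w + e * b * P' + e * a * Q') * (c * (b + c))) * he

private theorem aeval_eq_Zz (i : Fin 3) (w : Fin 3 → R3 F) (h1 : w i = 0)
    (h2 : ∀ j, j ≠ i → w j = MvPolynomial.X j) (p : R3 F) :
    MvPolynomial.aeval w p = Zz F i p := by
  have h : MvPolynomial.aeval (R := F) w = Zz F i := by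
    apply MvPolynomial.algHom_ext
    intro l
    rw [MvPolynomial.aeval_X]
    by_cases hl : l = i
    · subst hl
      rw [Zz_same, h1]
    · rw [Zz_ne hl, h2 l hl]
  rw [h]

/-- Generation: the commutative algebra.  `f = p b_1 + q b_2` is killed by all `E_j` iff
`(t_2 p + t_1 q)|_{t_3=0} = 0`, `((t_2+t_3) p - t_3 q)|_{t_1=0} = 0`,
`((t_1+t_3) q - t_3 p)|_{t_2=0} = 0`.  The solutions `(p, q)` form the module generated by the
three solutions `e_i`.  Proof: on `t_3 = 0`: `p = t_1 h`, `q = - t_2 h`; on `t_1 = 0`: `p = t_3 g`,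
`q = (t_2 + t_3) g`; on `t_2 = 0`: `p = (t_1 + t_3) k`, `q = t_3 k`; comparison on the axes:
`g(t_2, 0) = - h(0, t_2)`, `k(t_1, 0) = h(t_1, 0)`, `g(0, t_3) = k(0, t_3)`; so
`h(0,0) = 0`.  There are combinations `A, B, C` of the `e_i` with `(h, g, k)` equal to
`(t_1, 0, t_1)`, `(t_2, - t_2, 0)`, `(0, t_3, t_3)`.  Subtract multiples of `A, B` to get `h = 0`,
then of `C` to get `g = 0`, then of `t_3 A` to get `k = 0`; the rest is
`t_1 t_2 t_3 (F[t] b_1 + F[t] b_2)` and `t_1 t_2 t_3 b_i` lies in the module generated by the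
`e_i`. -/
theorem gen3_alg [CharZero F] (p q : R3 F)
    (h3 : MvPolynomial.aeval (![MvPolynomial.X 0, MvPolynomial.X 1, 0] : Fin 3 → R3 F)
      (MvPolynomial.X 1 * p + MvPolynomial.X 0 * q) = 0)
    (h1 : MvPolynomial.aeval (![0, MvPolynomial.X 1, MvPolynomial.X 2] : Fin 3 → R3 F)
      ((MvPolynomial.X 1 + MvPolynomial.X 2) * p - MvPolynomial.X 2 * q) = 0)
    (h2 : MvPolynomial.aeval (![MvPolynomial.X 0, 0, MvPolynomial.X 2] : Fin 3 → R3 F)
      ((MvPolynomial.X 0 + MvPolynomial.X 2) * q - MvPolynomial.X 2 * p) = 0) :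
    ∃ r : Fin 3 → R3 F, pol (F := F) p (bb 0) + pol q (bb 1) = ∑ i, pol (r i) (ev i) := by
  rw [aeval_eq_Zz 2 _ rfl (by
    intro j hj
    fin_cases j
    · rfl
    · rfl
    · exact absurd rfl hj), map_add, map_mul, map_mul, Zz_ne (by decide), Zz_ne (by decide)] at h3
  rw [aeval_eq_Zz 0 _ rfl (by
    intro j hj
    fin_cases j
    · exact absurd rfl hj
    · rfl
    · rfl), map_sub, map_mul, map_mul, map_add, Zz_ne (by decide), Zz_ne (by decide)] at h1
  rw [aeval_eq_Zz 1 _ rfl (by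
    intro j hj
    fin_cases j
    · rfl
    · exact absurd rfl hj
    · rfl), map_sub, map_mul, map_mul, map_add, Zz_ne (by decide), Zz_ne (by decide)] at h2
  obtain ⟨x, y, z, hp, hq⟩ := gen3_poly p q h3 h1 h2
  refine ⟨![x + y + z, - x - y + z, - x + y - z], ?_⟩
  have hb2 : bb (F := F) 2 = - bb 0 - bb 1 := bb_sum' 0
  rw [Fin.sum_univ_three, ev, ev, ev]
  change pol p (bb 0) + pol q (bb 1) = pol (x + y + z) (pol _ (bb 0) + pol _ (bb 1))
    + pol (- x - y + z) (pol _ (bb 1) + pol _ (bb 2))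
    + pol (- x + y - z) (pol _ (bb 2) + pol _ (bb 0))
  rw [hb2, hp, hq]
  simp only [pol_eq_smul]
  change _ = (x + y + z : R3 F) • ((- (MvPolynomial.X 1 * MvPolynomial.X 2)
      + MvPolynomial.X 1 * MvPolynomial.X 0 + MvPolynomial.X 2 ^ 2
      + MvPolynomial.X 2 * MvPolynomial.X 0 : R3 F) • (bb 0 : FL F)
      + (MvPolynomial.X 2 ^ 2 - MvPolynomial.X 1 ^ 2 : R3 F) • (bb 1 : FL F))
    + (- x - y + z : R3 F) • ((- (MvPolynomial.X 2 * MvPolynomial.X 0)
      + MvPolynomial.X 2 * MvPolynomial.X 1 + MvPolynomial.X 0 ^ 2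
      + MvPolynomial.X 0 * MvPolynomial.X 1 : R3 F) • (bb 1 : FL F)
      + (MvPolynomial.X 0 ^ 2 - MvPolynomial.X 2 ^ 2 : R3 F) • (- bb 0 - bb 1 : FL F))
    + (- x + y - z : R3 F) • ((- (MvPolynomial.X 0 * MvPolynomial.X 1)
      + MvPolynomial.X 0 * MvPolynomial.X 2 + MvPolynomial.X 1 ^ 2
      + MvPolynomial.X 1 * MvPolynomial.X 2 : R3 F) • (- bb 0 - bb 1 : FL F)
      + (MvPolynomial.X 1 ^ 2 - MvPolynomial.X 0 ^ 2 : R3 F) • (bb 0 : FL F))
  module

private theorem condition (i : Fin 3) (P : R3 F)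
    (h : pol (Zz F i P)
      ⁅X F (((i + 1 : Fin 3) : ℕ) + 1), X F (((i + 2 : Fin 3) : ℕ) + 1)⁆ = 0) :
    Zz F i P = 0 :=
  pol_faithful i _ (Zz_idem i P) h

/-- GENERATION of level 3: every highest weight vector of `x`-degree `d + 2` is a combination
`∑ p_i e_i` with `p_i` homogeneous of degree `d` (take the component of content `(3, d + 2)`). -/
theorem gen3 [CharZero F] {d : ℕ} {f : FL F} (hf : f ∈ KE (Finset.Icc 1 3) (d + 2)) :
    ∃ r : Fin 3 → R3 F, (∀ i, (r i).IsHomogeneous d) ∧ f = ∑ i, pol (r i) (ev i) := by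
  obtain ⟨hfW, hfE⟩ := mem_KE.1 hf
  obtain ⟨p, q, hp, hq, hpq⟩ := W3_span hfW
  have hE : ∀ i : Fin 3, pol (Zz F i p) (E ((i : ℕ) + 1) (bb 0))
      + pol (Zz F i q) (E ((i : ℕ) + 1) (bb 1)) = 0 := by
    intro i
    have h1 := hfE ((i : ℕ) + 1) (by rw [Finset.mem_Icc]; omega)
    rw [hpq, map_add, E_pol, E_pol] at h1
    exact h1
  have h3 := hE 2
  have h1 := hE 0
  have h2 := hE 1
  have e20 : E (((2 : Fin 3) : ℕ) + 1) (bb (F := F) 0) = _ := E_bb_one 2
  have e21 : E (((2 : Fin 3) : ℕ) + 1) (bb (F := F) 1) = _ := E_bb_two 2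
  have e00 : E (((0 : Fin 3) : ℕ) + 1) (bb (F := F) 0) = _ := E_bb_same 0
  have e01 : E (((0 : Fin 3) : ℕ) + 1) (bb (F := F) 1) = _ := E_bb_one 0
  have e11 : E (((1 : Fin 3) : ℕ) + 1) (bb (F := F) 1) = _ := E_bb_same 1
  have e10 : E (((1 : Fin 3) : ℕ) + 1) (bb (F := F) 0) = _ := E_bb_two 1
  rw [e20, e21] at h3
  rw [e00, e01] at h1
  rw [e10, e11] at h2
  have k3 : Zz F 2 (MvPolynomial.X 1 * p + MvPolynomial.X 0 * q) = 0 := by
    apply condition
    rw [map_add, map_mul, map_mul, Zz_ne (by decide), Zz_ne (by decide), ← neg_eq_zero, ← h3]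
    simp only [pol_eq_smul]
    change _ = Zz F 2 p • (-((MvPolynomial.X 1 : R3 F) • _))
      + Zz F 2 q • (-((MvPolynomial.X 0 : R3 F) • _))
    module
  have k1 : Zz F 0 ((MvPolynomial.X 1 + MvPolynomial.X 2) * p - MvPolynomial.X 2 * q) = 0 := by
    apply condition
    rw [map_sub, map_mul, map_mul, map_add, Zz_ne (by decide), Zz_ne (by decide), ← h1]
    simp only [pol_eq_smul]
    change _ = Zz F 0 p • ((MvPolynomial.X 1 + MvPolynomial.X 2 : R3 F) • _)
      + Zz F 0 q • (-((MvPolynomial.X 2 : R3 F) • _))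
    module
  have k2 : Zz F 1 ((MvPolynomial.X 0 + MvPolynomial.X 2) * q - MvPolynomial.X 2 * p) = 0 := by
    apply condition
    rw [map_sub, map_mul, map_mul, map_add, Zz_ne (by decide), Zz_ne (by decide), ← h2]
    simp only [pol_eq_smul]
    change _ = Zz F 1 p • (-((MvPolynomial.X 2 : R3 F) • _))
      + Zz F 1 q • ((MvPolynomial.X 2 + MvPolynomial.X 0 : R3 F) • _)
    module
  obtain ⟨r, hr⟩ := gen3_alg p q (by
    rw [aeval_eq_Zz 2 _ rfl (by
      intro j hj
      fin_cases j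
      · rfl
      · rfl
      · exact absurd rfl hj)]
    exact k3) (by
    rw [aeval_eq_Zz 0 _ rfl (by
      intro j hj
      fin_cases j
      · exact absurd rfl hj
      · rfl
      · rfl)]
    exact k1) (by
    rw [aeval_eq_Zz 1 _ rfl (by
      intro j hj
      fin_cases j
      · rfl
      · exact absurd rfl hj
      · rfl)]
    exact k2)
  refine ⟨fun i => MvPolynomial.homogeneousComponent d (r i),
    fun i => MvPolynomial.homogeneousComponent_isHomogeneous d (r i), ?_⟩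
  have hc : ∀ (i : Fin 3) (m : ℕ), cmp (cont (Finset.Icc 1 3) (d + 2))
      (pol (MvPolynomial.homogeneousComponent m (r i)) (ev i))
      = if m = d then pol (MvPolynomial.homogeneousComponent m (r i)) (ev i) else 0 := by
    intro i m
    have h4 : pol (MvPolynomial.homogeneousComponent m (r i)) (ev i) ∈ W (F := F) 3 (2 + m) :=
      pol_mem (MvPolynomial.homogeneousComponent_isHomogeneous m (r i)) (ev_W i)
    split_ifs with h5
    · subst h5
      rw [add_comm 2 m] at h4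
      exact cmp_of_mem h4
    · apply cmp_of_mem_ne h4
      intro h6
      apply h5
      have h7 := congrArg Multiset.card h6
      rw [cont, cont, Multiset.card_add, Multiset.card_add, Multiset.card_replicate,
        Multiset.card_replicate] at h7
      omega
  have hcmp : ∀ i : Fin 3, cmp (cont (Finset.Icc 1 3) (d + 2)) (pol (r i) (ev i))
      = pol (MvPolynomial.homogeneousComponent d (r i)) (ev i) := by
    intro i
    have h4 : pol (r i) (ev i) = ∑ m ∈ Finset.range ((r i).totalDegree + 1),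
        pol (MvPolynomial.homogeneousComponent m (r i)) (ev i) := by
      conv_lhs => rw [← MvPolynomial.sum_homogeneousComponent (r i)]
      rw [map_sum, LinearMap.sum_apply]
    rw [h4, map_sum, Finset.sum_congr rfl (fun m _ => hc i m), Finset.sum_ite_eq']
    split_ifs with h5
    · rfl
    · rw [MvPolynomial.homogeneousComponent_eq_zero _ _ (by
        rw [Finset.mem_range] at h5
        omega), map_zero]
      rfl
  have h4 : f = cmp (cont (Finset.Icc 1 3) (d + 2)) f := (cmp_of_mem hfW).symm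
  rw [h4, hpq, hr, map_sum]
  exact Finset.sum_congr rfl (fun i _ => hcmp i)

/-! ### The quotient module -/

/-- `FL F / T` as an `F[t_1, t_2, t_3]`-module. -/
def QM (T : Submodule F (FL F)) : Type u := FL F ⧸ T

instance (T : Submodule F (FL F)) : AddCommGroup (QM T) :=
  inferInstanceAs (AddCommGroup (FL F ⧸ T))

instance (T : Submodule F (FL F)) : Module F (QM T) := inferInstanceAs (Module F (FL F ⧸ T))

/-- The quotient map. -/
def QM.mk (T : Submodule F (FL F)) : FL F →ₗ[F] QM T := T.mkQ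

theorem QM.mk_eq_zero {T : Submodule F (FL F)} {f : FL F} : QM.mk T f = 0 ↔ f ∈ T :=
  Submodule.Quotient.mk_eq_zero T

/-- There is a module structure with `p • mk f = mk (pol p f)`. -/
theorem exists_modQ {T : Submodule F (FL F)} (hT : IsTIdeal F T) :
    ∃ M : Module (R3 F) (QM T),
      (∀ (p : R3 F) (f : FL F), M.toSMul.smul p (QM.mk T f) = QM.mk T (pol p f)) ∧
      (letI := M; IsScalarTower F (R3 F) (QM T)) := by
  let φ : R3 F →+* Module.End F (FL F ⧸ T) :=
    { toFun := fun p => T.mapQ T (pol p) (fun f hf => hT.pol_mem p hf)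
      map_one' := by
        apply LinearMap.ext
        intro x
        obtain ⟨f, rfl⟩ := T.mkQ_surjective x
        rw [Submodule.mkQ_apply, Submodule.mapQ_apply, map_one]
        rfl
      map_zero' := by
        apply LinearMap.ext
        intro x
        obtain ⟨f, rfl⟩ := T.mkQ_surjective x
        rw [Submodule.mkQ_apply, Submodule.mapQ_apply, map_zero]
        rfl
      map_mul' := by
        intro p q
        apply LinearMap.ext
        intro x
        obtain ⟨f, rfl⟩ := T.mkQ_surjective x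
        rw [Submodule.mkQ_apply, Submodule.mapQ_apply, pol_mul]
        rfl
      map_add' := by
        intro p q
        apply LinearMap.ext
        intro x
        obtain ⟨f, rfl⟩ := T.mkQ_surjective x
        rw [Submodule.mkQ_apply, Submodule.mapQ_apply, map_add]
        rfl }
  let M : Module (R3 F) (FL F ⧸ T) := Module.compHom (FL F ⧸ T) φ
  refine ⟨M, ?_, ?_⟩
  · intro p f
    rfl
  · refine @IsScalarTower.mk F (R3 F) (QM T) _ M.toSMul _ ?_
    intro c p x
    obtain ⟨f, rfl⟩ := T.mkQ_surjective x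
    change T.mkQ (pol (c • p) f) = c • T.mkQ (pol p f)
    have h : pol (c • p) f = c • pol p f := by
      rw [map_smul pol c p]
      rfl
    rw [h, map_smul T.mkQ]

end

end Pool.Agent.Lib.MP_b4a71d_al
end
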