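import Pool.Agent.Lib.MP_b4a71d_al.H3a
import Pool.Agent.Lib.MP_b4a71d_al.K3fl

section

/-!
# The point H: box adding, two letters
-/

set_option autoImplicit false

namespace Pool.Agent.Lib.MP_b4a71d_al

universe u

noncomputable section

variable {F : Type u} [Field F]

/-! ### Spanning -/

/-- Box adding, in the form used here: if `WW Y d ≤ Lam Y d ⊔ T ⊔ S`, all `⁅s, x⁆`, `s ∈ S`, and
all `⁅g, y_j⁆`, `j ∈ Y`, `g ∈ WW (Y \ j) (d + 1)`, lie in `R ≥ Lam Y (d + 1) ⊔ T`, then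
`WW Y (d + 1) ≤ R`.  (`WW_box`; `⁅D_i u, x⁆ = D_i ⁅u, x⁆ - ⁅u, y_i⁆`, as in `prop_lemma`.) -/
theorem box_le {T : Submodule F (FL F)} (hT : IsTIdeal F T) {Y : Finset ℕ} (h0 : 0 ∉ Y) {d : ℕ}
    (hY : 2 ≤ Y.card + (d + 1)) (S R : Submodule F (FL F))
    (hS : WW (F := F) Y d ≤ Lam Y d ⊔ T ⊔ S) (hR : Lam (F := F) Y (d + 1) ⊔ T ≤ R)
    (hx : ∀ s ∈ S, ⁅s, X F 0⁆ ∈ R)
    (hy : ∀ j ∈ Y, ∀ g ∈ WW (F := F) (Y.erase j) (d + 1), ⁅g, X F j⁆ ∈ R) :
    WW (F := F) Y (d + 1) ≤ R := by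
  have hLamR : Lam (F := F) Y (d + 1) ≤ R := le_trans le_sup_left hR
  have hTR : T ≤ R := le_trans le_sup_right hR
  have hx' : ∀ g ∈ WW (F := F) Y d, ⁅g, X F 0⁆ ∈ R := by
    have h4 : Lam (F := F) Y d ⊔ T ⊔ S ≤ R.comap (lieBy (X F 0)) := by
      apply sup_le (sup_le _ _)
      · intro s hs
        exact hx s hs
      · refine iSup₂_le fun i hi => ?_
        rintro _ ⟨u, hu, rfl⟩
        rw [Submodule.mem_comap, lieBy_apply]
        have h5 : ⁅D i u, X F 0⁆ = D i ⁅u, X F 0⁆ - ⁅u, X F i⁆ := by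
          rw [D_lie_x, add_sub_cancel_right]
        rw [h5]
        apply R.sub_mem
        · apply hLamR
          exact D_mem_Lam hi (lie_X0_mem_WW hu)
        · exact hy i hi u hu
      · intro t ht
        exact hTR (hT.lie_mem _ ht _)
    intro g hg
    exact h4 (hS hg)
  intro f hf
  have hbox := WW_box h0 hY hf
  have hle : (WW (F := F) Y d).map (lieBy (X F 0)) ⊔
      ⨆ j ∈ Y, (WW (F := F) (Y.erase j) (d + 1)).map (lieBy (X F j)) ≤ R := by
    apply sup_le
    · rintro _ ⟨g, hg, rfl⟩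
      exact hx' g hg
    · refine iSup₂_le fun j hj => ?_
      rintro _ ⟨g, hg, rfl⟩
      exact hy j hj g hg
  exact hle hbox

/-- `[Lam (Y \ j) d, y_j] ≤ Lam Y d`. -/
theorem Lam_lie {Y : Finset ℕ} (h0 : 0 ∉ Y) {j d : ℕ} (hj : j ∈ Y) {g : FL F}
    (hg : g ∈ Lam (F := F) (Y.erase j) d) : ⁅g, X F j⁆ ∈ Lam (F := F) Y d := by
  have h4 : Lam (F := F) (Y.erase j) d ≤ (Lam (F := F) Y d).comap (lieBy (X F j)) := by
    refine iSup₂_le fun i hi => ?_
    rintro _ ⟨u, hu, rfl⟩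
    rw [Submodule.mem_comap, lieBy_apply]
    have hj0 : j ≠ 0 := by
      rintro rfl
      exact h0 hj
    rw [← D_lie_y i hj0]
    apply D_mem_Lam (Finset.mem_of_mem_erase hi)
    have h5 : (Y.erase i) = insert j ((Y.erase j).erase i) := by
      ext m
      rw [Finset.mem_insert, Finset.mem_erase, Finset.mem_erase, Finset.mem_erase]
      constructor
      · rintro ⟨h6, h7⟩
        by_cases h8 : m = j
        · exact Or.inl h8
        · exact Or.inr ⟨h6, h8, h7⟩
      · rintro (rfl | ⟨h6, _, h8⟩)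
        · exact ⟨fun h9 => (Finset.ne_of_mem_erase hi) h9.symm, hj⟩
        · exact ⟨h6, h8⟩
    rw [h5]
    apply lie_X_mem_WW _ hu
    intro h6
    exact Finset.notMem_erase j Y (Finset.mem_of_mem_erase h6)
  exact h4 hg

/-- One letter. -/
theorem WW_single (i d : ℕ) (hi : i ≠ 0) :
    WW (F := F) {i} d ≤ Submodule.span F {yx (F := F) i d} := by
  have _ := hi
  rw [WW_singleton]
  rfl

/-- `KE_one`: `WW Y 1 ≤ Lam Y 1`. -/
theorem WW_one_le_Lam [CharZero F] {Y : Finset ℕ} (h0 : 0 ∉ Y) (hY : 2 ≤ Y.card) :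
    WW (F := F) Y 1 ≤ Lam Y 1 := by
  intro f hf
  obtain ⟨p, h1, h2, _, _, _, _⟩ := exists_prK (F := F) Y h0 1
  have h3 := h1 f hf
  rw [KE_one h0 hY, Submodule.mem_bot] at h3
  have h4 := h2 f hf
  rw [h3, sub_zero] at h4
  exact h4

/-- The two vectors of level 2. -/
def g2 (F : Type u) [Field F] (i j m : ℕ) : FL F := ⁅yx (F := F) i m, ⁅X F j, X F 0⁆⁆

theorem lieR_H3b {L : Type*} [LieRing L] (a b x : L) :
    ⁅⁅a, b⁆, x⁆ = ⁅⁅a, x⁆, b⁆ + ⁅a, ⁅b, x⁆⁆ := by
  rw [lie_lie, ← lie_skew ⁅a, x⁆ b]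
  abel

theorem yx_one_H3b (i : ℕ) : yx (F := F) i 1 = ⁅X F i, X F 0⁆ := rfl

theorem yx_two_H3b (i : ℕ) : yx (F := F) i 2 = ⁅⁅X F i, X F 0⁆, X F 0⁆ := rfl

/-- `⁅g2 i j m, x⁆` is a combination of `g2 i j (m + 1)` and `g2 j i (m + 1)` modulo `T`. -/
theorem HT.g2_lie_H3b {T : Submodule F (FL F)} (h : HT T) (i j r : ℕ) :
    ⁅g2 F i j (r + 1), X F 0⁆ ∈ T ⊔ Submodule.span F {g2 F i j (r + 2), g2 F j i (r + 2)} := by
  have h1 : ⁅g2 F i j (r + 1), X F 0⁆ =
      g2 F i j (r + 2) + ⁅yx (F := F) i (r + 1), yx (F := F) j 2⁆ := by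
    rw [g2, g2, lieR_H3b, yx_succ i (r + 1)]
    rfl
  rw [h1]
  apply Submodule.add_mem
  · apply Submodule.mem_sup_right
    exact Submodule.subset_span (Set.mem_insert _ _)
  rcases r with _ | r
  · apply Submodule.mem_sup_right
    have h2 : ⁅yx (F := F) i (0 + 1), yx (F := F) j 2⁆ = - g2 F j i (0 + 2) := by
      rw [g2, ← lie_skew]
      rfl
    rw [h2]
    exact Submodule.neg_mem _ (Submodule.subset_span (Set.mem_insert_of_mem _ rfl))
  · apply Submodule.mem_sup_left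
    exact h.comm33 (yx_G3 i r) (yx_G3 j 0)

/-- The exact recursion. -/
theorem D_yx_succ_H3b (i j m : ℕ) : D j (yx (F := F) i (m + 1)) =
    ⁅D j (yx (F := F) i m), X F 0⁆ + ⁅yx (F := F) i m, X F j⁆ := by
  rw [yx_succ, D_lie_x]

theorem D_yx_two_H3b {i j : ℕ} (hi : i ≠ 0) : D j (yx (F := F) i 2) =
    (2 : F) • ⁅yx (F := F) i 1, X F j⁆ - ⁅yx (F := F) j 1, X F i⁆ := by
  have h0 : D j (yx (F := F) i 0) = 0 := by
    rw [yx_zero]
    exact dd_X_ne hi
  have h1 : D j (yx (F := F) i 1) = ⁅X F i, X F j⁆ := by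
    rw [D_yx_succ_H3b i j 0, h0, zero_lie, zero_add, yx_zero]
  rw [D_yx_succ_H3b i j 1, h1, lieR_H3b, yx_one_H3b, yx_one_H3b, ← lie_skew (X F i) ⁅X F j, X F 0⁆,
    two_smul]
  abel

/-- `D_j y_i x^(m+1) = (m+1) ⁅y_i x^m, y_j⁆ - ⁅y_j x^m, y_i⁆` modulo `T` and
`g2 i j (m-1), g2 j i (m-1)`, for `m = r + 2`.  Induction: `D_j y_i x^(m+2) = ⁅D_j y_i x^(m+1), x⁆
+ ⁅y_i x^(m+1), y_j⁆`, `⁅⁅y_i x^m, y_j⁆, x⁆ = ⁅y_i x^(m+1), y_j⁆ + g2 i j m`,
`⁅g2 i j m, x⁆ - g2 i j (m+1) ∈ T` for `m ≥ 2` and `⁅g2 i j 1, x⁆ = g2 i j 2 + ⁅y_i x, ⁅y_j x, x⁆⁆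
= g2 i j 2 - g2 j i 2`.  Start: `D_j y_i x^2 = 2 ⁅y_i x, y_j⁆ - ⁅y_j x, y_i⁆` (exact). -/
theorem HT.D_yx {T : Submodule F (FL F)} (h : HT T) {i j : ℕ} (hi : i ≠ 0) (hj : j ≠ 0)
    (hij : i ≠ j) (r : ℕ) :
    D j (yx (F := F) i (r + 3)) - ((r + 3 : ℕ) : F) • ⁅yx (F := F) i (r + 2), X F j⁆
      + ⁅yx (F := F) j (r + 2), X F i⁆ ∈
      T ⊔ Submodule.span F {g2 F i j (r + 1), g2 F j i (r + 1)} := by
  have hc : ∀ a b m : ℕ, ⁅⁅yx (F := F) a m, X F b⁆, X F 0⁆ =
      ⁅yx (F := F) a (m + 1), X F b⁆ + g2 F a b m := by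
    intro a b m
    rw [lieR_H3b, yx_succ, g2]
  have hgi : ∀ m : ℕ, g2 F i j m ∈ T ⊔ Submodule.span F {g2 F i j m, g2 F j i m} := fun m =>
    Submodule.mem_sup_right (Submodule.subset_span (Set.mem_insert _ _))
  have hgj : ∀ m : ℕ, g2 F j i m ∈ T ⊔ Submodule.span F {g2 F i j m, g2 F j i m} := fun m =>
    Submodule.mem_sup_right (Submodule.subset_span (Set.mem_insert_of_mem _ rfl))
  have _ := hij
  have _ := hj
  induction r with
  | zero =>
    have h1 : D j (yx (F := F) i (0 + 3)) - ((0 + 3 : ℕ) : F) • ⁅yx (F := F) i (0 + 2), X F j⁆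
      + ⁅yx (F := F) j (0 + 2), X F i⁆ = (2 : F) • g2 F i j 1 - g2 F j i 1 := by
      have h2 : D j (yx (F := F) i (0 + 3)) = ⁅D j (yx (F := F) i 2), X F 0⁆
          + ⁅yx (F := F) i 2, X F j⁆ := D_yx_succ_H3b i j 2
      rw [h2, D_yx_two_H3b hi, sub_lie, smul_lie, hc, hc]
      push_cast
      module
    rw [h1]
    exact Submodule.sub_mem _ (Submodule.smul_mem _ _ (hgi 1)) (hgj 1)
  | succ r ih =>
    set U := D j (yx (F := F) i (r + 3)) - ((r + 3 : ℕ) : F) • ⁅yx (F := F) i (r + 2), X F j⁆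
      + ⁅yx (F := F) j (r + 2), X F i⁆ with hU
    have h1 : ⁅U, X F 0⁆ ∈ T ⊔ Submodule.span F {g2 F i j (r + 2), g2 F j i (r + 2)} := by
      have h2 : T ⊔ Submodule.span F {g2 F i j (r + 1), g2 F j i (r + 1)} ≤
          (T ⊔ Submodule.span F {g2 F i j (r + 2), g2 F j i (r + 2)}).comap (lieBy (X F 0)) := by
        apply sup_le
        · intro t ht
          exact Submodule.mem_sup_left (h.isT.lie_mem _ ht _)
        · rw [Submodule.span_le]
          rintro f (rfl | rfl)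
          · exact h.g2_lie_H3b i j r
          · have h3 := h.g2_lie_H3b j i r
            rw [Set.pair_comm] at h3
            exact h3
      exact h2 ih
    have h2 : D j (yx (F := F) i (r + 1 + 3)) - ((r + 1 + 3 : ℕ) : F) •
        ⁅yx (F := F) i (r + 1 + 2), X F j⁆ + ⁅yx (F := F) j (r + 1 + 2), X F i⁆ =
        ⁅U, X F 0⁆ + ((r + 3 : ℕ) : F) • g2 F i j (r + 2) - g2 F j i (r + 2) := by
      have h3 : D j (yx (F := F) i (r + 1 + 3)) = ⁅D j (yx (F := F) i (r + 3)), X F 0⁆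
          + ⁅yx (F := F) i (r + 3), X F j⁆ := D_yx_succ_H3b i j (r + 3)
      have h4 : r + 1 + 2 = r + 3 := by omega
      rw [h3, hU, add_lie, sub_lie, smul_lie, hc, hc, h4]
      push_cast
      module
    rw [h2]
    exact Submodule.sub_mem _ (Submodule.add_mem _ h1 (Submodule.smul_mem _ _ (hgi (r + 2))))
      (hgj (r + 2))

/-- Lemma B (two letters). -/
theorem HT.lemB [CharZero F] {T : Submodule F (FL F)} (h : HT T) {i j : ℕ} (hi : i ≠ 0)
    (hj : j ≠ 0) (hij : i ≠ j) (r : ℕ) :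
    WW (F := F) {i, j} (r + 2) ≤ Lam {i, j} (r + 2) ⊔ T
      ⊔ Submodule.span F {g2 F i j (r + 1), g2 F j i (r + 1)} := by
  have hcard : ({i, j} : Finset ℕ).card = 2 := Finset.card_pair hij
  have h0 : 0 ∉ ({i, j} : Finset ℕ) := by
    rw [Finset.mem_insert, Finset.mem_singleton]
    rintro (h1 | h1)
    · exact hi h1.symm
    · exact hj h1.symm
  have hei : ({i, j} : Finset ℕ).erase i = {j} := by
    ext m
    rw [Finset.mem_erase, Finset.mem_insert, Finset.mem_singleton]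
    constructor
    · rintro ⟨h1, h2 | h2⟩
      · exact absurd h2 h1
      · exact h2
    · rintro rfl
      exact ⟨hij.symm, Or.inr rfl⟩
  have hej : ({i, j} : Finset ℕ).erase j = {i} := by
    ext m
    rw [Finset.mem_erase, Finset.mem_insert, Finset.mem_singleton, Finset.mem_singleton]
    constructor
    · rintro ⟨h1, h2 | h2⟩
      · exact h2
      · exact absurd h2 h1
    · rintro rfl
      exact ⟨hij, Or.inl rfl⟩
  have himem : i ∈ ({i, j} : Finset ℕ) := Finset.mem_insert_self _ _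
  have hjmem : j ∈ ({i, j} : Finset ℕ) := Finset.mem_insert_of_mem (Finset.mem_singleton_self _)
  -- the two brackets with letters
  have key : ∀ s : ℕ, ⁅yx (F := F) i (s + 2), X F j⁆ ∈ Lam (F := F) {i, j} (s + 2) ⊔ T
        ⊔ Submodule.span F {g2 F i j (s + 1), g2 F j i (s + 1)} ∧
      ⁅yx (F := F) j (s + 2), X F i⁆ ∈ Lam (F := F) {i, j} (s + 2) ⊔ T
        ⊔ Submodule.span F {g2 F i j (s + 1), g2 F j i (s + 1)} := by
    intro s
    set R := Lam (F := F) {i, j} (s + 2) ⊔ T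
        ⊔ Submodule.span F {g2 F i j (s + 1), g2 F j i (s + 1)} with hR
    have hTS : T ⊔ Submodule.span F {g2 F i j (s + 1), g2 F j i (s + 1)} ≤ R :=
      sup_le (le_trans le_sup_right le_sup_left) le_sup_right
    have hL : Lam (F := F) {i, j} (s + 2) ≤ R := le_trans le_sup_left le_sup_left
    have d1 : D j (yx (F := F) i (s + 3)) ∈ R := by
      apply hL
      apply D_mem_Lam hjmem
      rw [hej]
      exact yx_mem i (s + 3)
    have d2 : D i (yx (F := F) j (s + 3)) ∈ R := by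
      apply hL
      apply D_mem_Lam himem
      rw [hei]
      exact yx_mem j (s + 3)
    have e1 := hTS (h.D_yx hi hj hij s)
    have e2 : D i (yx (F := F) j (s + 3)) - ((s + 3 : ℕ) : F) • ⁅yx (F := F) j (s + 2), X F i⁆
      + ⁅yx (F := F) i (s + 2), X F j⁆ ∈ R := by
      have h1 := h.D_yx hj hi hij.symm s
      rw [Set.pair_comm] at h1
      exact hTS h1
    set a := ⁅yx (F := F) i (s + 2), X F j⁆ with ha
    set b := ⁅yx (F := F) j (s + 2), X F i⁆ with hb
    have f1 : ((s + 3 : ℕ) : F) • a - b ∈ R := by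
      have h1 := R.sub_mem d1 e1
      have h2 : D j (yx (F := F) i (s + 3)) - (D j (yx (F := F) i (s + 3))
        - ((s + 3 : ℕ) : F) • a + b) = ((s + 3 : ℕ) : F) • a - b := by abel
      rwa [h2] at h1
    have f2 : ((s + 3 : ℕ) : F) • b - a ∈ R := by
      have h1 := R.sub_mem d2 e2
      have h2 : D i (yx (F := F) j (s + 3)) - (D i (yx (F := F) j (s + 3))
        - ((s + 3 : ℕ) : F) • b + a) = ((s + 3 : ℕ) : F) • b - a := by abel
      rwa [h2] at h1
    have hc : (((s + 2) * (s + 4) : ℕ) : F) ≠ 0 := by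
      rw [Nat.cast_ne_zero]
      positivity
    constructor
    · have h1 := R.add_mem (R.smul_mem ((s + 3 : ℕ) : F) f1) f2
      have h2 : ((s + 3 : ℕ) : F) • (((s + 3 : ℕ) : F) • a - b) + (((s + 3 : ℕ) : F) • b - a) =
          (((s + 2) * (s + 4) : ℕ) : F) • a := by
        push_cast
        module
      rw [h2] at h1
      exact (R.smul_mem_iff hc).1 h1
    · have h1 := R.add_mem (R.smul_mem ((s + 3 : ℕ) : F) f2) f1
      have h2 : ((s + 3 : ℕ) : F) • (((s + 3 : ℕ) : F) • b - a) + (((s + 3 : ℕ) : F) • a - b) =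
          (((s + 2) * (s + 4) : ℕ) : F) • b := by
        push_cast
        module
      rw [h2] at h1
      exact (R.smul_mem_iff hc).1 h1
  have hy : ∀ s : ℕ, ∀ m ∈ ({i, j} : Finset ℕ), ∀ g ∈ WW (F := F) (({i, j} : Finset ℕ).erase m)
      (s + 2), ⁅g, X F m⁆ ∈ Lam (F := F) {i, j} (s + 2) ⊔ T
        ⊔ Submodule.span F {g2 F i j (s + 1), g2 F j i (s + 1)} := by
    intro s m hm g hg
    rw [Finset.mem_insert, Finset.mem_singleton] at hm
    rcases hm with rfl | rfl
    · rw [hei] at hg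
      obtain ⟨c, rfl⟩ := Submodule.mem_span_singleton.1 (WW_single j (s + 2) hj hg)
      rw [smul_lie]
      exact Submodule.smul_mem _ _ (key s).2
    · rw [hej] at hg
      obtain ⟨c, rfl⟩ := Submodule.mem_span_singleton.1 (WW_single i (s + 2) hi hg)
      rw [smul_lie]
      exact Submodule.smul_mem _ _ (key s).1
  induction r with
  | zero =>
    apply box_le h.isT h0 (by omega) (d := 1) ⊥
    · rw [sup_bot_eq]
      exact le_trans (WW_one_le_Lam h0 (by omega)) le_sup_left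
    · exact le_sup_left
    · intro s hs
      rw [Submodule.mem_bot] at hs
      rw [hs, zero_lie]
      exact Submodule.zero_mem _
    · exact hy 0
  | succ r ih =>
    apply box_le h.isT h0 (by omega) (d := r + 2)
      (Submodule.span F {g2 F i j (r + 1), g2 F j i (r + 1)})
    · exact ih
    · exact le_sup_left
    · have hTS : T ⊔ Submodule.span F {g2 F i j (r + 2), g2 F j i (r + 2)} ≤
          Lam (F := F) {i, j} (r + 2 + 1) ⊔ T
            ⊔ Submodule.span F {g2 F i j (r + 2), g2 F j i (r + 2)} :=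
        sup_le (le_trans le_sup_right le_sup_left) le_sup_right
      have h2 : Submodule.span F {g2 F i j (r + 1), g2 F j i (r + 1)} ≤
          (Lam (F := F) {i, j} (r + 2 + 1) ⊔ T
            ⊔ Submodule.span F {g2 F i j (r + 2), g2 F j i (r + 2)}).comap (lieBy (X F 0)) := by
        rw [Submodule.span_le]
        rintro f (rfl | rfl)
        · exact hTS (h.g2_lie_H3b i j r)
        · have h3 := h.g2_lie_H3b j i r
          rw [Set.pair_comm] at h3
          exact hTS h3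
      intro s hs
      exact h2 hs
    · exact hy (r + 1)

end

end Pool.Agent.Lib.MP_b4a71d_al
end

section

/-!
# The point H: three letters
-/

set_option autoImplicit false
set_option linter.unusedVariables false

namespace Pool.Agent.Lib.MP_b4a71d_al

universe u

noncomputable section

variable {F : Type u} [Field F]

/-- `al(p,q;r;m) = ⁅⁅y_p x^m, y_q⁆, ⁅y_r, x⁆⁆`. -/
def al3 (F : Type u) [Field F] (p q r m : ℕ) : FL F := ⁅⁅yx (F := F) p m, X F q⁆, ⁅X F r, X F 0⁆⁆

theorem H3c_jac {L : Type*} [LieRing L] (a b c : L) : ⁅⁅a, b⁆, c⁆ = ⁅⁅a, c⁆, b⁆ + ⁅a, ⁅b, c⁆⁆ := by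
  rw [leibniz_lie a b c, ← lie_skew b ⁅a, c⁆]
  abel

theorem H3c_D_X {p : ℕ} (q : ℕ) (hp : p ≠ 0) : D q (X F p) = 0 := by
  rw [D, dd_X_ne hp]

theorem H3c_D_yx (q p m : ℕ) : D q (yx (F := F) p (m + 1)) = ⁅D q (yx (F := F) p m), X F 0⁆ + ⁅yx (F := F) p m, X F q⁆ :=
  by rw [yx_succ]; exact D_lie_x q (yx (F := F) p m)

theorem H3c_base {p q : ℕ} (hp : p ≠ 0) :
    D q (yx (F := F) p 2) = (2 : F) • ⁅yx (F := F) p 1, X F q⁆ - ⁅yx (F := F) q 1, X F p⁆ := by
  rw [H3c_D_yx, H3c_D_yx]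
  show ⁅⁅D q (X F p), X F 0⁆ + ⁅X F p, X F q⁆, X F 0⁆ + ⁅⁅X F p, X F 0⁆, X F q⁆ = _
  rw [H3c_D_X q hp, zero_lie, zero_add, H3c_jac (X F p) (X F q) (X F 0),
    ← lie_skew (X F p) ⁅X F q, X F 0⁆]
  show _ = (2 : F) • ⁅⁅X F p, X F 0⁆, X F q⁆ - ⁅⁅X F q, X F 0⁆, X F p⁆
  rw [two_smul]
  abel

theorem H3c_lie_G3 (p q m : ℕ) : ⁅yx (F := F) p (m + 1), X F q⁆ ∈ G3 F :=
  Submodule.subset_span ⟨yx (F := F) p m, X F 0, X F q, by rw [yx_succ]⟩

theorem H3c_D_G3 {p : ℕ} (q : ℕ) (hp : p ≠ 0) (s : ℕ) : D q (yx (F := F) p (s + 2)) ∈ G3 F := by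
  induction s with
  | zero =>
    rw [H3c_base hp]
    exact Submodule.sub_mem _ (Submodule.smul_mem _ _ (H3c_lie_G3 p q 0)) (H3c_lie_G3 q p 0)
  | succ s ih =>
    rw [show s + 1 + 2 = (s + 2) + 1 by omega, H3c_D_yx]
    exact Submodule.add_mem _ (G3_lie ih _) (G3_lie (yx_G3 p s) _)

/-- two brackets with `⁅y, x⁆` are zero -/
theorem H3c_two [CharZero F] {T : Submodule F (FL F)} (h : HT T) (p q r m : ℕ) :
    ⁅⁅yx (F := F) p (m + 1), ⁅X F q, X F 0⁆⁆, ⁅X F r, X F 0⁆⁆ ∈ T := by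
  rcases m with _ | m
  · exact h.h4 (X F p) (X F q) (X F r) (X F 0)
  · have h1 := h.F2 (yx_G3 p m) (X F q) (X F 0) (X F r) (X F 0)
    rw [← two_smul F] at h1
    exact (T.smul_mem_iff two_ne_zero).1 h1

theorem H3c_al_x [CharZero F] {T : Submodule F (FL F)} (h : HT T) (p q r m : ℕ) :
    ⁅al3 F p q r (m + 1), X F 0⁆ - al3 F p q r (m + 2) ∈ T := by
  have h1 := h.swapC (H3c_lie_G3 p q m) (X F r) (X F 0) (X F 0)
  have h2 := H3c_two h p q r m
  have h3 : ⁅⁅yx (F := F) p (m + 1), X F q⁆, X F 0⁆ =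
      ⁅yx (F := F) p (m + 2), X F q⁆ + ⁅yx (F := F) p (m + 1), ⁅X F q, X F 0⁆⁆ := by
    rw [yx_succ p (m + 1)]
    exact H3c_jac _ _ _
  rw [h3, add_lie] at h1
  have h4 := T.add_mem h1 h2
  have h5 : ⁅al3 F p q r (m + 1), X F 0⁆ - al3 F p q r (m + 2) =
      ⁅⁅⁅yx (F := F) p (m + 1), X F q⁆, ⁅X F r, X F 0⁆⁆, X F 0⁆ -
        (⁅⁅yx (F := F) p (m + 2), X F q⁆, ⁅X F r, X F 0⁆⁆ +
          ⁅⁅yx (F := F) p (m + 1), ⁅X F q, X F 0⁆⁆, ⁅X F r, X F 0⁆⁆) +
        ⁅⁅yx (F := F) p (m + 1), ⁅X F q, X F 0⁆⁆, ⁅X F r, X F 0⁆⁆ := by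
    show ⁅⁅⁅yx (F := F) p (m + 1), X F q⁆, ⁅X F r, X F 0⁆⁆, X F 0⁆ -
      ⁅⁅yx (F := F) p (m + 2), X F q⁆, ⁅X F r, X F 0⁆⁆ = _
    abel
  rw [h5]
  exact h4

/-- `⁅D_q y_p x^(m+1), ⁅y_r, x⁆⁆ = (m + 1) al(p,q;r;m) - al(q,p;r;m)` modulo `T`, `m = s + 1`.
Start `s = 0`: exact.  Step: `U = D_q y_p x^(m+1) ∈ γ₃`,
`⁅⁅U, x⁆, ⁅y_r, x⁆⁆ ≡ ⁅⁅U, ⁅y_r, x⁆⁆, x⁆` and `⁅al(p,q;r;m), x⁆ ≡ al(p,q;r;m+1) +
⁅⁅y_p x^m, ⁅y_q, x⁆⁆, ⁅y_r, x⁆⁆`, the last term is in `T`: by `h4` for `m = 1` and by F2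
(`b = d = x`) for `m ≥ 2`. -/
theorem HT.D_yx_C [CharZero F] {T : Submodule F (FL F)} (h : HT T) {p q r : ℕ} (hp : p ≠ 0)
    (hq : q ≠ 0) (hpq : p ≠ q) (s : ℕ) :
    ⁅D q (yx (F := F) p (s + 2)), ⁅X F r, X F 0⁆⁆ - ((s + 2 : ℕ) : F) • al3 F p q r (s + 1)
      + al3 F q p r (s + 1) ∈ T := by
  induction s with
  | zero =>
    rw [H3c_base hp, sub_lie, smul_lie]
    show (2 : F) • al3 F p q r 1 - al3 F q p r 1 - ((0 + 2 : ℕ) : F) • al3 F p q r 1
      + al3 F q p r 1 ∈ T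
    have e : (2 : F) • al3 F p q r 1 - al3 F q p r 1 - ((0 + 2 : ℕ) : F) • al3 F p q r 1
      + al3 F q p r 1 = 0 := by
      push_cast
      module
    rw [e]
    exact T.zero_mem
  | succ s ih =>
    have h1 := h.swapC (H3c_D_G3 (F := F) q hp s) (X F r) (X F 0) (X F 0)
    have h2 := h.isT.lie_mem _ ih (X F 0)
    have h3 := H3c_al_x h p q r s
    have h4 := H3c_al_x h q p r s
    rw [add_lie, sub_lie, smul_lie] at h2
    rw [show s + 1 + 2 = (s + 2) + 1 by omega, H3c_D_yx, add_lie]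
    show ⁅⁅D q (yx (F := F) p (s + 2)), X F 0⁆, ⁅X F r, X F 0⁆⁆ + al3 F p q r (s + 2)
      - (((s + 2) + 1 : ℕ) : F) • al3 F p q r (s + 2) + al3 F q p r (s + 2) ∈ T
    have h5 := T.add_mem (T.sub_mem h2 h1)
      (T.sub_mem (T.smul_mem (((s + 2 : ℕ) : F)) h3) h4)
    convert h5 using 1
    push_cast
    module

/-- The vectors of level 3. -/
def P3 (F : Type u) [Field F] (p q r d : ℕ) : FL F := ⁅yx (F := F) p d, ⁅X F q, X F r⁆⁆

theorem H3c_cont {p : ℕ} (m : ℕ) : cont {p} m + {0} = cont {p} (m + 1) := cont_add_zero _ _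

theorem H3c_WW {p r : ℕ} (hp : p ≠ 0) (hpr : p ≠ r) (s : ℕ) :
    ⁅yx (F := F) p (s + 2), ⁅X F r, X F 0⁆⁆ ∈ WW (F := F) {p, r} (s + 3) := by
  have h1 := yx_mem (F := F) p (s + 2)
  have h2 : ⁅X F r, X F 0⁆ ∈ HomC (F := F) ({r} + {0}) := lie_mem_homC (X_mem r) (X_mem 0)
  have h3 := lie_mem_homC h1 h2
  have hr : r ∉ ({p} : Finset ℕ) := by
    rw [Finset.mem_singleton]
    exact fun h => hpr h.symm
  rw [← add_assoc, cont_add_new hr, cont_add_zero, Finset.pair_comm] at h3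
  exact h3

theorem H3c_P3_neg (p q r d : ℕ) : P3 F p r q d = - P3 F p q r d := by
  unfold P3
  rw [← lie_skew (X F r) (X F q), lie_neg]

theorem H3c_rel [CharZero F] {T : Submodule F (FL F)} (h : HT T) {Y : Finset ℕ} {p q r : ℕ}
    (hp : p ≠ 0) (hq : q ≠ 0) (hr : r ≠ 0) (hpq : p ≠ q) (hpr : p ≠ r) (hqr : q ≠ r)
    (hY : Y = {p, q, r}) (s : ℕ) {R : Submodule F (FL F)} (hL : Lam Y (s + 2) ≤ R) (hT : T ≤ R)
    (hP : ∀ a ∈ Y, ∀ b ∈ Y, ∀ c ∈ Y, a ≠ b → a ≠ c → b ≠ c → P3 F a b c (s + 2) ∈ R) :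
    ((s + 2 : ℕ) : F) • al3 F p q r (s + 1) - al3 F q p r (s + 1) ∈ R := by
  have h1 := hT (h.D_yx_C hp hq hpq (r := r) s)
  have hmem : ∀ {a : ℕ}, a = p ∨ a = q ∨ a = r → a ∈ Y := by
    intro a ha
    rw [hY]
    simpa using ha
  have h2 : D q ⁅yx (F := F) p (s + 2), ⁅X F r, X F 0⁆⁆ ∈ Lam Y (s + 2) := by
    apply D_mem_Lam (hmem (Or.inr (Or.inl rfl)))
    have e : Y.erase q = {p, r} := by
      rw [hY]
      ext a
      simp only [Finset.mem_erase, Finset.mem_insert, Finset.mem_singleton]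
      constructor
      · rintro ⟨h3, h4 | h4 | h4⟩
        · exact Or.inl h4
        · exact absurd h4 h3
        · exact Or.inr h4
      · rintro (h4 | h4)
        · exact ⟨fun h5 => hpq (h4 ▸ h5), Or.inl h4⟩
        · exact ⟨fun h5 => hqr (h4 ▸ h5).symm, Or.inr (Or.inr h4)⟩
    rw [e]
    exact H3c_WW hp hpr s
  have h3 : D q ⁅yx (F := F) p (s + 2), ⁅X F r, X F 0⁆⁆ =
      ⁅D q (yx (F := F) p (s + 2)), ⁅X F r, X F 0⁆⁆ + P3 F p r q (s + 2) := by
    have e : D q ⁅X F r, X F 0⁆ = ⁅X F r, X F q⁆ := by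
      rw [D_lie_x, H3c_D_X q hr, zero_lie, zero_add]
    have e2 : D q ⁅yx (F := F) p (s + 2), ⁅X F r, X F 0⁆⁆ =
        ⁅yx (F := F) p (s + 2), D q ⁅X F r, X F 0⁆⁆ + ⁅D q (yx (F := F) p (s + 2)), ⁅X F r, X F 0⁆⁆ :=
      dd_lie 0 q _ _
    rw [e2, e, add_comm]
    rfl
  have h4 := hL h2
  rw [h3] at h4
  have h5 := hP p (hmem (Or.inl rfl)) r (hmem (Or.inr (Or.inr rfl))) q
    (hmem (Or.inr (Or.inl rfl))) hpr hpq hqr.symm
  have h6 := R.sub_mem (R.sub_mem h4 h5) h1
  convert h6 using 1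
  abel

theorem H3c_al3 [CharZero F] {T : Submodule F (FL F)} (h : HT T) {Y : Finset ℕ} {p q r : ℕ}
    (hp : p ≠ 0) (hq : q ≠ 0) (hr : r ≠ 0) (hpq : p ≠ q) (hpr : p ≠ r) (hqr : q ≠ r)
    (hY : Y = {p, q, r}) (s : ℕ) {R : Submodule F (FL F)} (hL : Lam Y (s + 2) ≤ R) (hT : T ≤ R)
    (hP : ∀ a ∈ Y, ∀ b ∈ Y, ∀ c ∈ Y, a ≠ b → a ≠ c → b ≠ c → P3 F a b c (s + 2) ∈ R) :
    al3 F p q r (s + 1) ∈ R := by
  have h1 := H3c_rel h hp hq hr hpq hpr hqr hY s hL hT hP
  have h2 := H3c_rel h hq hp hr hpq.symm hqr hpr (by rw [hY, Finset.insert_comm]) s hL hT hP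
  have h3 := R.add_mem (R.smul_mem ((s + 2 : ℕ) : F) h1) h2
  have h4 : ((s + 2 : ℕ) : F) • (((s + 2 : ℕ) : F) • al3 F p q r (s + 1) - al3 F q p r (s + 1)) +
      (((s + 2 : ℕ) : F) • al3 F q p r (s + 1) - al3 F p q r (s + 1)) =
      (((s + 1) * (s + 3) : ℕ) : F) • al3 F p q r (s + 1) := by
    push_cast
    module
  rw [h4] at h3
  exact (R.smul_mem_iff (by
    rw [Nat.cast_ne_zero]
    positivity)).1 h3

/-- The span of the `P3` contains all six of them. -/
theorem H3c_P3_mem {p q r : ℕ} (hpq : p ≠ q) (hpr : p ≠ r) (hqr : q ≠ r) (d : ℕ) :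
    ∀ a ∈ ({p, q, r} : Finset ℕ), ∀ b ∈ ({p, q, r} : Finset ℕ), ∀ c ∈ ({p, q, r} : Finset ℕ),
      a ≠ b → a ≠ c → b ≠ c →
      P3 F a b c d ∈ Submodule.span F {P3 F p q r d, P3 F q p r d, P3 F r p q d} := by
  have m1 : P3 F p q r d ∈ Submodule.span F {P3 F p q r d, P3 F q p r d, P3 F r p q d} :=
    Submodule.subset_span (by simp)
  have m2 : P3 F q p r d ∈ Submodule.span F {P3 F p q r d, P3 F q p r d, P3 F r p q d} :=
    Submodule.subset_span (by simp)
  have m3 : P3 F r p q d ∈ Submodule.span F {P3 F p q r d, P3 F q p r d, P3 F r p q d} :=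
    Submodule.subset_span (by simp)
  intro a ha b hb c hc hab hac hbc
  simp only [Finset.mem_insert, Finset.mem_singleton] at ha hb hc
  rcases ha with rfl | rfl | rfl
  · rcases hb with rfl | rfl | rfl
    · exact absurd rfl hab
    · rcases hc with rfl | rfl | rfl
      · exact absurd rfl hac
      · exact absurd rfl hbc
      · exact m1
    · rcases hc with rfl | rfl | rfl
      · exact absurd rfl hac
      · rw [H3c_P3_neg (F := F) a c b d]
        exact Submodule.neg_mem _ m1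
      · exact absurd rfl hbc
  · rcases hb with rfl | rfl | rfl
    · rcases hc with rfl | rfl | rfl
      · exact absurd rfl hbc
      · exact absurd rfl hac
      · exact m2
    · exact absurd rfl hab
    · rcases hc with rfl | rfl | rfl
      · rw [H3c_P3_neg (F := F) a c b d]
        exact Submodule.neg_mem _ m2
      · exact absurd rfl hac
      · exact absurd rfl hbc
  · rcases hb with rfl | rfl | rfl
    · rcases hc with rfl | rfl | rfl
      · exact absurd rfl hbc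
      · exact m3
      · exact absurd rfl hac
    · rcases hc with rfl | rfl | rfl
      · rw [H3c_P3_neg (F := F) a c b d]
        exact Submodule.neg_mem _ m3
      · exact absurd rfl hbc
      · exact absurd rfl hac
    · exact absurd rfl hab

/-- `al` in the span: `D_q ⁅y_p x^(s+2), ⁅y_r,x⁆⁆ ∈ Lam` equals
`⁅D_q y_p x^(s+2), ⁅y_r, x⁆⁆ + P3 p r q (s+2)`; the same with `p, q` exchanged;
`(s+2)^2 - 1 ≠ 0`. -/
theorem HT.al3_mem [CharZero F] {T : Submodule F (FL F)} (h : HT T) {p q r : ℕ} (hp : p ≠ 0)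
    (hq : q ≠ 0) (hr : r ≠ 0) (hpq : p ≠ q) (hpr : p ≠ r) (hqr : q ≠ r) (s : ℕ) :
    al3 F p q r (s + 1) ∈ Lam {p, q, r} (s + 2) ⊔ T
      ⊔ Submodule.span F {P3 F p q r (s + 2), P3 F q p r (s + 2), P3 F r p q (s + 2)} := by
  apply H3c_al3 h hp hq hr hpq hpr hqr rfl s (le_trans le_sup_left le_sup_left)
    (le_trans le_sup_right le_sup_left)
  intro a ha b hb c hc hab hac hbc
  exact Submodule.mem_sup_right (H3c_P3_mem hpq hpr hqr _ a ha b hb c hc hab hac hbc)

/-- brackets with letters -/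
theorem H3c_y [CharZero F] {T : Submodule F (FL F)} (h : HT T) {Y : Finset ℕ} {p q r : ℕ}
    (hp : p ≠ 0) (hq : q ≠ 0) (hr : r ≠ 0) (hpq : p ≠ q) (hpr : p ≠ r) (hqr : q ≠ r)
    (hY : Y = {p, q, r}) (s : ℕ) {R : Submodule F (FL F)} (hL : Lam Y (s + 2) ≤ R) (hT : T ≤ R)
    (hP : ∀ a ∈ Y, ∀ b ∈ Y, ∀ c ∈ Y, a ≠ b → a ≠ c → b ≠ c → P3 F a b c (s + 2) ∈ R) :
    ∀ g ∈ WW (F := F) {p, q} (s + 2), ⁅g, X F r⁆ ∈ R := by
  have h0 : 0 ∉ Y := by
    rw [hY]
    simp only [Finset.mem_insert, Finset.mem_singleton, not_or]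
    exact ⟨hp.symm, hq.symm, hr.symm⟩
  have hrY : r ∈ Y := by
    rw [hY]
    simp
  have hYr : Y.erase r = {p, q} := by
    rw [hY]
    ext a
    simp only [Finset.mem_erase, Finset.mem_insert, Finset.mem_singleton]
    constructor
    · rintro ⟨h3, h4 | h4 | h4⟩
      · exact Or.inl h4
      · exact Or.inr h4
      · exact absurd h4 h3
    · rintro (h4 | h4)
      · exact ⟨fun h5 => hpr (h4 ▸ h5), Or.inl h4⟩
      · exact ⟨fun h5 => hqr (h4 ▸ h5), Or.inr (Or.inl h4)⟩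
  -- the vectors `g2`
  have hg : ∀ {a b : ℕ}, a ≠ 0 → b ≠ 0 → a ≠ b → a ≠ r → b ≠ r → Y = {a, b, r} →
      ⁅g2 F a b (s + 1), X F r⁆ ∈ R := by
    intro a b ha hb hab har hbr hY'
    have e1 : ⁅g2 F a b (s + 1), X F r⁆ =
        al3 F a r b (s + 1) + ⁅yx (F := F) a (s + 1), ⁅⁅X F b, X F 0⁆, X F r⁆⁆ := H3c_jac _ _ _
    rw [e1]
    apply R.add_mem
    · apply H3c_al3 h ha hr hb har hab hbr.symm _ s hL hT hP
      rw [hY', Finset.pair_comm]
    · rcases s with _ | s
      · have e2 : ⁅yx (F := F) a (0 + 1), ⁅⁅X F b, X F 0⁆, X F r⁆⁆ = - al3 F b r a (0 + 1) :=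
          (lie_skew _ _).symm
        rw [e2]
        apply R.neg_mem
        apply H3c_al3 h hb hr ha hbr hab.symm har.symm _ 0 hL hT hP
        rw [hY']
        ext c
        simp only [Finset.mem_insert, Finset.mem_singleton]
        tauto
      · apply hT
        apply h.comm33 (yx_G3 a s)
        exact Submodule.subset_span ⟨X F b, X F 0, X F r, rfl⟩
  have hB := h.lemB hp hq hpq s
  intro g hgW
  have h1 := hB hgW
  have h2 : Lam (F := F) {p, q} (s + 2) ⊔ T
      ⊔ Submodule.span F {g2 F p q (s + 1), g2 F q p (s + 1)} ≤ R.comap (lieBy (X F r)) := by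
    refine sup_le (sup_le ?_ ?_) ?_
    · intro f hf
      rw [Submodule.mem_comap, lieBy_apply]
      apply hL
      apply Lam_lie h0 hrY
      rw [hYr]
      exact hf
    · intro f hf
      rw [Submodule.mem_comap, lieBy_apply]
      exact hT (h.isT.lie_mem _ hf _)
    · rw [Submodule.span_le]
      rintro f (rfl | rfl)
      · exact hg hp hq hpq hpr hqr hY
      · refine hg hq hp hpq.symm hqr hpr ?_
        rw [hY, Finset.insert_comm]
  exact h2 h1

theorem H3c_y' [CharZero F] {T : Submodule F (FL F)} (h : HT T) {Y : Finset ℕ} {p q r : ℕ}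
    (hp : p ≠ 0) (hq : q ≠ 0) (hr : r ≠ 0) (hpq : p ≠ q) (hpr : p ≠ r) (hqr : q ≠ r)
    (hY : Y = {p, q, r}) (s : ℕ) {R : Submodule F (FL F)} (hL : Lam Y (s + 2) ≤ R) (hT : T ≤ R)
    (hP : ∀ a ∈ Y, ∀ b ∈ Y, ∀ c ∈ Y, a ≠ b → a ≠ c → b ≠ c → P3 F a b c (s + 2) ∈ R) :
    ∀ j ∈ Y, ∀ g ∈ WW (F := F) (Y.erase j) (s + 2), ⁅g, X F j⁆ ∈ R := by
  have key : ∀ {a b c : ℕ}, a ≠ 0 → b ≠ 0 → c ≠ 0 → a ≠ b → a ≠ c → b ≠ c → Y = {a, b, c} →
      ∀ g ∈ WW (F := F) (Y.erase c) (s + 2), ⁅g, X F c⁆ ∈ R := by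
    intro a b c ha hb hc hab hac hbc hY' g hg
    have hYr : Y.erase c = {a, b} := by
      rw [hY']
      ext d
      simp only [Finset.mem_erase, Finset.mem_insert, Finset.mem_singleton]
      constructor
      · rintro ⟨h3, h4 | h4 | h4⟩
        · exact Or.inl h4
        · exact Or.inr h4
        · exact absurd h4 h3
      · rintro (h4 | h4)
        · exact ⟨fun h5 => hac (h4 ▸ h5), Or.inl h4⟩
        · exact ⟨fun h5 => hbc (h4 ▸ h5), Or.inr (Or.inl h4)⟩
    rw [hYr] at hg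
    exact H3c_y h ha hb hc hab hac hbc hY' s hL hT hP g hg
  intro j hj
  have hj' := hj
  rw [hY] at hj'
  simp only [Finset.mem_insert, Finset.mem_singleton] at hj'
  rcases hj' with rfl | rfl | rfl
  · apply key hq hr hp hqr hpq.symm hpr.symm
    rw [hY]
    ext c
    simp only [Finset.mem_insert, Finset.mem_singleton]
    tauto
  · apply key hp hr hq hpr hpq hqr.symm
    rw [hY]
    ext c
    simp only [Finset.mem_insert, Finset.mem_singleton]
    tauto
  · exact key hp hq hr hpq hpr hqr hY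

/-- Lemma A (three letters): box adding, Lemma B for the pairs, `al3_mem`;
`⁅g2 a b (s+1), y_c⁆ = al3 a c b (s+1) + ⁅y_a x^(s+1), ⁅⁅y_b,x⁆,y_c⁆⁆`, where the last term is in
`T` for `s ≥ 1` and equals `- al3 b c a 1` for `s = 0`; `⁅P3 .. d, x⁆ ≡ P3 .. (d+1)` for
`d ≥ 2`. -/
theorem HT.lemA [CharZero F] {T : Submodule F (FL F)} (h : HT T) {p q r : ℕ} (hp : p ≠ 0)
    (hq : q ≠ 0) (hr : r ≠ 0) (hpq : p ≠ q) (hpr : p ≠ r) (hqr : q ≠ r) (s : ℕ) :
    WW (F := F) {p, q, r} (s + 2) ≤ Lam {p, q, r} (s + 2) ⊔ T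
      ⊔ Submodule.span F {P3 F p q r (s + 2), P3 F q p r (s + 2), P3 F r p q (s + 2)} := by
  have h0 : 0 ∉ ({p, q, r} : Finset ℕ) := by
    simp only [Finset.mem_insert, Finset.mem_singleton, not_or]
    exact ⟨hp.symm, hq.symm, hr.symm⟩
  have hP : ∀ d : ℕ, ∀ a ∈ ({p, q, r} : Finset ℕ), ∀ b ∈ ({p, q, r} : Finset ℕ),
      ∀ c ∈ ({p, q, r} : Finset ℕ), a ≠ b → a ≠ c → b ≠ c → P3 F a b c d ∈
      Lam {p, q, r} d ⊔ T ⊔ Submodule.span F {P3 F p q r d, P3 F q p r d, P3 F r p q d} := by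
    intro d a ha b hb c hc hab hac hbc
    exact Submodule.mem_sup_right (H3c_P3_mem hpq hpr hqr _ a ha b hb c hc hab hac hbc)
  induction s with
  | zero =>
    have h1 : WW (F := F) {p, q, r} 1 ≤ Lam {p, q, r} 1 ⊔ T ⊔ ⊥ := by
      refine le_trans (WW_one_le_Lam h0 ?_) (le_trans le_sup_left le_sup_left)
      refine Finset.one_lt_card.2 ⟨p, by simp, q, by simp, hpq⟩
    refine box_le h.isT h0 (by omega) ⊥ _ h1 le_sup_left ?_ ?_
    · intro f hf
      rw [Submodule.mem_bot] at hf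
      rw [hf, zero_lie]
      exact Submodule.zero_mem _
    · exact H3c_y' h hp hq hr hpq hpr hqr rfl 0 (le_trans le_sup_left le_sup_left)
        (le_trans le_sup_right le_sup_left) (hP (0 + 2))
  | succ s ih =>
    refine box_le h.isT h0 (by omega) _ _ ih le_sup_left ?_ ?_
    · intro f hf
      have h2 : Submodule.span F {P3 F p q r (s + 2), P3 F q p r (s + 2), P3 F r p q (s + 2)} ≤
          (Lam {p, q, r} (s + 2 + 1) ⊔ T ⊔ Submodule.span F {P3 F p q r (s + 2 + 1),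
            P3 F q p r (s + 2 + 1), P3 F r p q (s + 2 + 1)} : Submodule F (FL F)).comap
            (lieBy (X F 0)) := by
        have h3 : ∀ a b c : ℕ, P3 F a b c (s + 2 + 1) ∈ (Lam {p, q, r} (s + 2 + 1) ⊔ T ⊔
            Submodule.span F {P3 F p q r (s + 2 + 1), P3 F q p r (s + 2 + 1),
              P3 F r p q (s + 2 + 1)} : Submodule F (FL F)) →
            ⁅P3 F a b c (s + 2), X F 0⁆ ∈ (Lam {p, q, r} (s + 2 + 1) ⊔ T ⊔
            Submodule.span F {P3 F p q r (s + 2 + 1), P3 F q p r (s + 2 + 1),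
              P3 F r p q (s + 2 + 1)} : Submodule F (FL F)) := by
          intro a b c hm
          have h4 := h.swapC (yx_G3 (F := F) a s) (X F b) (X F c) (X F 0)
          have h5 : ⁅P3 F a b c (s + 2), X F 0⁆ =
              (⁅⁅yx (F := F) a (s + 2), ⁅X F b, X F c⁆⁆, X F 0⁆ -
                ⁅⁅yx (F := F) a (s + 2), X F 0⁆, ⁅X F b, X F c⁆⁆) + P3 F a b c (s + 2 + 1) := by
            rw [P3, P3, yx_succ a (s + 2)]
            abel
          rw [h5]
          exact Submodule.add_mem _ (Submodule.mem_sup_left (Submodule.mem_sup_right h4)) hm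
        rw [Submodule.span_le]
        rintro g (rfl | rfl | rfl)
        · exact h3 _ _ _ (Submodule.mem_sup_right (Submodule.subset_span (by simp)))
        · exact h3 _ _ _ (Submodule.mem_sup_right (Submodule.subset_span (by simp)))
        · exact h3 _ _ _ (Submodule.mem_sup_right (Submodule.subset_span (by simp)))
      exact h2 hf
    · exact H3c_y' h hp hq hr hpq hpr hqr rfl (s + 1) (le_trans le_sup_left le_sup_left)
        (le_trans le_sup_right le_sup_left) (hP (s + 1 + 2))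

end

end Pool.Agent.Lib.MP_b4a71d_al
end

section

/-!
# The point H: spanning sets of all levels
-/

set_option autoImplicit false

namespace Pool.Agent.Lib.MP_b4a71d_al

universe u

noncomputable section

variable {F : Type u} [Field F]

/-- Spanning vectors, `|Y|` odd: `y_i x^d C(l)`. -/
def SO (F : Type u) [Field F] (Y : Finset ℕ) (d : ℕ) : Submodule F (FL F) :=
  Submodule.span F {f | ∃ (i : ℕ) (l : List ℕ), ((i :: l : List ℕ) : Multiset ℕ) = Y.val ∧
    Even l.length ∧ f = Cl l (yx (F := F) i d)}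

/-- Spanning vectors, `|Y|` even, level `d + 1`: `y_i x^d C(j,x) C(l)`. -/
def SE (F : Type u) [Field F] (Y : Finset ℕ) (d : ℕ) : Submodule F (FL F) :=
  Submodule.span F {f | ∃ (i j : ℕ) (l : List ℕ),
    ((i :: j :: l : List ℕ) : Multiset ℕ) = Y.val ∧ Even l.length ∧ f = Cl l (g2 F i j d)}

theorem pair_val_H3d {i j : ℕ} (hij : i ≠ j) : ({i, j} : Finset ℕ).val = i ::ₘ j ::ₘ 0 := by
  rw [Finset.insert_val_of_notMem (by rw [Finset.mem_singleton]; exact hij),
    Finset.singleton_val]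
  rfl

theorem triple_val_H3d {i j k : ℕ} (hij : i ≠ j) (hik : i ≠ k) (hjk : j ≠ k) :
    ({i, j, k} : Finset ℕ).val = i ::ₘ j ::ₘ k ::ₘ 0 := by
  rw [Finset.insert_val_of_notMem (by
    rw [Finset.mem_insert, Finset.mem_singleton]
    rintro (h | h)
    · exact hij h
    · exact hik h), pair_val_H3d hjk]

theorem g2_mem_H3d (i j m : ℕ) : g2 F i j m ∈ G3 F := by
  have h1 : g2 F i j m ∈ HomC (F := F) (cont {i} m + ({j} + {0})) :=
    lie_mem_homC (yx_mem i m) (lie_mem_homC (X_mem j) (X_mem 0))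
  apply homC_le_G3 _ h1
  rw [Multiset.card_add, cont, Multiset.card_add, Multiset.card_add]
  simp

/-- Two letters, with commutators. -/
theorem HT.lemC_two [CharZero F] {T : Submodule F (FL F)} (h : HT T) {Y : Finset ℕ} (h0 : 0 ∉ Y)
    {i j : ℕ} {l : List ℕ} (hl : Even l.length)
    (hY : ((i :: j :: l : List ℕ) : Multiset ℕ) = Y.val) (s : ℕ) {f : FL F}
    (hf : f ∈ WW (F := F) {i, j} (s + 2)) :
    Cl l f ∈ Lam (F := F) Y (s + 2) ⊔ T ⊔ SO F Y (s + 2) ⊔ SE F Y (s + 1) := by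
  have hnd : (i :: j :: l : List ℕ).Nodup := by
    rw [← Multiset.coe_nodup, hY]
    exact Y.nodup
  have hi : i ≠ 0 := by
    rintro rfl
    apply h0
    rw [← Finset.mem_val, ← hY]
    simp
  have hj : j ≠ 0 := by
    rintro rfl
    apply h0
    rw [← Finset.mem_val, ← hY]
    simp
  have hij : i ≠ j := by
    rintro rfl
    simp at hnd
  have hZ : (l : Multiset ℕ) + ({i, j} : Finset ℕ).val = Y.val := by
    rw [pair_val_H3d hij, ← hY, ← Multiset.cons_coe, ← Multiset.cons_coe, Multiset.add_cons,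
      Multiset.add_cons, add_zero]
  have h1 := h.lemB hi hj hij s hf
  have h2 : Lam (F := F) {i, j} (s + 2) ⊔ T
      ⊔ Submodule.span F {g2 F i j (s + 1), g2 F j i (s + 1)} ≤
      (Lam (F := F) Y (s + 2) ⊔ T ⊔ SO F Y (s + 2) ⊔ SE F Y (s + 1)).comap (Cl l) := by
    apply sup_le (sup_le _ _)
    · rw [Submodule.span_le]
      rintro g (rfl | rfl)
      · apply Submodule.mem_sup_right
        exact Submodule.subset_span ⟨i, j, l, hY, hl, rfl⟩
      · apply Submodule.mem_sup_right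
        refine Submodule.subset_span ⟨j, i, l, ?_, hl, rfl⟩
        rw [← hY]
        exact Multiset.coe_eq_coe.2 (List.Perm.swap i j l)
    · intro g hg
      apply Submodule.mem_sup_left
      apply Submodule.mem_sup_left
      apply Submodule.mem_sup_left
      exact Cl_Lam h0 hl hZ hg
    · intro t ht
      apply Submodule.mem_sup_left
      apply Submodule.mem_sup_left
      apply Submodule.mem_sup_right
      exact Cl_T h.isT l ht
  exact h2 h1

/-- Three letters, with commutators. -/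
theorem HT.lemC_three [CharZero F] {T : Submodule F (FL F)} (h : HT T) {Y : Finset ℕ}
    (h0 : 0 ∉ Y) {i j k : ℕ} {l : List ℕ} (hl : Even l.length)
    (hY : ((i :: j :: k :: l : List ℕ) : Multiset ℕ) = Y.val) (s : ℕ) {f : FL F}
    (hf : f ∈ WW (F := F) {i, j, k} (s + 2)) :
    Cl l f ∈ Lam (F := F) Y (s + 2) ⊔ T ⊔ SO F Y (s + 2) ⊔ SE F Y (s + 1) := by
  have hnd : (i :: j :: k :: l : List ℕ).Nodup := by
    rw [← Multiset.coe_nodup, hY]
    exact Y.nodup
  have hi : i ≠ 0 := by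
    rintro rfl
    apply h0
    rw [← Finset.mem_val, ← hY]
    simp
  have hj : j ≠ 0 := by
    rintro rfl
    apply h0
    rw [← Finset.mem_val, ← hY]
    simp
  have hk : k ≠ 0 := by
    rintro rfl
    apply h0
    rw [← Finset.mem_val, ← hY]
    simp
  have hij : i ≠ j := by
    rintro rfl
    simp at hnd
  have hik : i ≠ k := by
    rintro rfl
    simp at hnd
  have hjk : j ≠ k := by
    rintro rfl
    simp at hnd
  have hZ : (l : Multiset ℕ) + ({i, j, k} : Finset ℕ).val = Y.val := by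
    rw [triple_val_H3d hij hik hjk, ← hY, ← Multiset.cons_coe, ← Multiset.cons_coe,
      ← Multiset.cons_coe, Multiset.add_cons, Multiset.add_cons, Multiset.add_cons, add_zero]
  have hSO : ∀ a b c : ℕ, List.Perm (a :: b :: c :: l) (i :: j :: k :: l) →
      Cl l (P3 F a b c (s + 2)) ∈
        Lam (F := F) Y (s + 2) ⊔ T ⊔ SO F Y (s + 2) ⊔ SE F Y (s + 1) := by
    intro a b c hp
    apply Submodule.mem_sup_left
    apply Submodule.mem_sup_right
    refine Submodule.subset_span ⟨a, b :: c :: l, ?_, ?_, ?_⟩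
    · rw [← hY]
      exact Multiset.coe_eq_coe.2 hp
    · rw [List.length_cons, List.length_cons]
      exact Nat.even_add.2 (by simp [hl])
    · rfl
  have h1 := h.lemA hi hj hk hij hik hjk s hf
  have h2 : Lam (F := F) {i, j, k} (s + 2) ⊔ T
      ⊔ Submodule.span F {P3 F i j k (s + 2), P3 F j i k (s + 2), P3 F k i j (s + 2)} ≤
      (Lam (F := F) Y (s + 2) ⊔ T ⊔ SO F Y (s + 2) ⊔ SE F Y (s + 1)).comap (Cl l) := by
    apply sup_le (sup_le _ _)
    · rw [Submodule.span_le]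
      rintro g (rfl | rfl | rfl)
      · exact hSO i j k (List.Perm.refl _)
      · exact hSO j i k (List.Perm.swap i j _)
      · apply hSO k i j
        exact (List.Perm.swap i k _).trans (List.Perm.cons i (List.Perm.swap j k _))
    · intro g hg
      apply Submodule.mem_sup_left
      apply Submodule.mem_sup_left
      apply Submodule.mem_sup_left
      exact Cl_Lam h0 hl hZ hg
    · intro t ht
      apply Submodule.mem_sup_left
      apply Submodule.mem_sup_left
      apply Submodule.mem_sup_right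
      exact Cl_T h.isT l ht
  exact h2 h1

/-- Lemma C: for `d = s + 1`, `WW Y d ≤ Lam Y d ⊔ T ⊔ SO Y d ⊔ SE Y (d - 1)`.
Induction on `|Y|` and `s`.  `|Y| = 1`: `WW_single`.  `|Y| ≥ 2`, `d = 1`: `WW_one_le_Lam`.
`d → d + 1` (`d ≥ 1`): `box_le` with `S = SO Y d ⊔ SE Y (d-1)` if `d ≥ 2` and `S = ⊥` if `d = 1`:
`⁅Cl l (y_i x^d), x⁆ ≡ Cl l (y_i x^(d+1))` (`d ≥ 2`);
`⁅Cl l (g2 i j (d-1)), x⁆ ≡ Cl l ⁅g2 i j (d-1), x⁆`, which is in `Cl l (WW {i,j} (d+1))`: Lemma B
and `Cl_Lam`;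
`⁅Cl l (y_i x^(d+1)), y_j⁆ ≡ Cl l ⁅y_i x^(d+1), y_j⁆ ∈ Cl l (WW {i,j} (d+1))`: Lemma B;
`⁅Cl l (g2 i m d), y_j⁆ ≡ Cl l ⁅g2 i m d, y_j⁆ ∈ Cl l (WW {i,m,j} (d+1))`: Lemma A,
`Cl l (P3 a b c (d+1)) = Cl (b :: c :: l) (yx a (d+1))`. -/
theorem HT.lemC [CharZero F] {T : Submodule F (FL F)} (h : HT T) {Y : Finset ℕ} (h0 : 0 ∉ Y)
    (hY : Y.Nonempty) (s : ℕ) :
    WW (F := F) Y (s + 1) ≤ Lam Y (s + 1) ⊔ T ⊔ SO F Y (s + 1) ⊔ SE F Y s := by
  -- induction on the number of letters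
  obtain ⟨n, hn⟩ : ∃ n, Y.card = n + 1 :=
    ⟨Y.card - 1, (Nat.succ_pred_eq_of_pos (Finset.card_pos.2 hY)).symm⟩
  induction n generalizing Y s with
  | zero =>
    obtain ⟨i, rfl⟩ := Finset.card_eq_one.1 hn
    have hi : i ≠ 0 := by
      rintro rfl
      exact h0 (Finset.mem_singleton_self _)
    refine le_trans (WW_single i (s + 1) hi) ?_
    rw [Submodule.span_singleton_le_iff_mem]
    apply Submodule.mem_sup_left
    apply Submodule.mem_sup_right
    exact Submodule.subset_span ⟨i, [], rfl, by simp, rfl⟩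
  | succ n ihn =>
    have hTR : ∀ s' : ℕ, T ≤ Lam (F := F) Y (s' + 1) ⊔ T ⊔ SO F Y (s' + 1) ⊔ SE F Y s' :=
      fun s' => le_trans le_sup_right (le_trans le_sup_left le_sup_left)
    have hy : ∀ s' : ℕ, ∀ j ∈ Y, ∀ g ∈ WW (F := F) (Y.erase j) (s' + 2), ⁅g, X F j⁆ ∈
        Lam (F := F) Y (s' + 2) ⊔ T ⊔ SO F Y (s' + 2) ⊔ SE F Y (s' + 1) := by
      intro s' j hj g hg
      have h0j : 0 ∉ Y.erase j := fun h => h0 (Finset.mem_of_mem_erase h)
      have hcj : (Y.erase j).card = n + 1 := by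
        rw [Finset.card_erase_of_mem hj]
        omega
      have hne : (Y.erase j).Nonempty := by
        rw [← Finset.card_pos]
        omega
      have hval : j ::ₘ (Y.erase j).val = Y.val := by
        rw [Finset.erase_val]
        exact Multiset.cons_erase hj
      have h1 := ihn h0j hne (s' + 1) hcj hg
      have h2 : Lam (F := F) (Y.erase j) (s' + 1 + 1) ⊔ T ⊔ SO F (Y.erase j) (s' + 1 + 1)
          ⊔ SE F (Y.erase j) (s' + 1) ≤ (Lam (F := F) Y (s' + 2) ⊔ T ⊔ SO F Y (s' + 2)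
            ⊔ SE F Y (s' + 1)).comap (lieBy (X F j)) := by
        refine sup_le (sup_le (sup_le ?_ ?_) ?_) ?_
        rotate_left 3
        · -- `SE`
          rw [SE, Submodule.span_le]
          rintro f ⟨i, m, l, hl1, hl2, rfl⟩
          have h3 := h.Cl_lie l (g2_mem_H3d i m (s' + 1)) (X F j)
          have h4 : ⁅g2 F i m (s' + 1), X F j⁆ ∈ WW (F := F) {i, m, j} (s' + 2) := by
            have h5 : g2 F i m (s' + 1) ∈ HomC (F := F) (cont {i} (s' + 1) + ({m} + {0})) :=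
              lie_mem_homC (yx_mem i (s' + 1)) (lie_mem_homC (X_mem m) (X_mem 0))
            have h6 := lie_mem_homC h5 (X_mem j)
            have hval3 : (j ::ₘ i ::ₘ m ::ₘ (l : Multiset ℕ)) = Y.val := by
              rw [← hval, ← hl1]
              rfl
            have hnd : (j :: i :: m :: l : List ℕ).Nodup := by
              rw [← Multiset.coe_nodup]
              have : ((j :: i :: m :: l : List ℕ) : Multiset ℕ) = Y.val := hval3
              rw [this]
              exact Y.nodup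
            have hij : i ≠ m := by
              rintro rfl
              simp at hnd
            have hik : i ≠ j := by
              rintro rfl
              simp at hnd
            have hjk : m ≠ j := by
              rintro rfl
              simp at hnd
            have h7 : cont {i} (s' + 1) + ({m} + {0}) + {j} = cont {i, m, j} (s' + 2) := by
              rw [cont, cont, triple_val_H3d hij hik hjk, Finset.singleton_val,
                Multiset.replicate_succ 0 (s' + 1)]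
              rw [← Multiset.singleton_add i, ← Multiset.singleton_add m,
                ← Multiset.singleton_add j, ← Multiset.singleton_add 0]
              abel
            rw [h7] at h6
            exact h6
          have h8 : ((i :: m :: j :: l : List ℕ) : Multiset ℕ) = Y.val := by
            rw [← hval, ← hl1]
            exact Multiset.coe_eq_coe.2 (((List.Perm.swap j m l).cons i).trans
              (List.Perm.swap j i _))
          have h9 := h.lemC_three h0 hl2 h8 s' h4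
          have h10 : ⁅Cl l (g2 F i m (s' + 1)), X F j⁆ =
            (⁅Cl l (g2 F i m (s' + 1)), X F j⁆ - Cl l ⁅g2 F i m (s' + 1), X F j⁆)
            + Cl l ⁅g2 F i m (s' + 1), X F j⁆ := by abel
          rw [SetLike.mem_coe, Submodule.mem_comap, lieBy_apply]
          rw [h10]
          exact Submodule.add_mem _ (hTR (s' + 1) h3) h9
        rotate_left 2
        · -- `SO`
          rw [SO, Submodule.span_le]
          rintro f ⟨i, l, hl1, hl2, rfl⟩
          have h3 := h.Cl_lie l (yx_G3 (F := F) i s') (X F j)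
          have hval3 : ((i :: j :: l : List ℕ) : Multiset ℕ) = Y.val := by
            rw [← hval, ← hl1]
            exact Multiset.coe_eq_coe.2 (List.Perm.swap j i l)
          have hnd : (i :: j :: l : List ℕ).Nodup := by
            rw [← Multiset.coe_nodup, hval3]
            exact Y.nodup
          have hij : i ≠ j := by
            rintro rfl
            simp at hnd
          have h4 : ⁅yx (F := F) i (s' + 2), X F j⁆ ∈ WW (F := F) {i, j} (s' + 2) := by
            have h5 := lie_X_mem_WW (Y := {i}) (j := j)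
              (by rw [Finset.mem_singleton]; exact hij.symm) (yx_mem (F := F) i (s' + 2))
            rw [Finset.pair_comm] at h5
            exact h5
          have h9 := h.lemC_two h0 hl2 hval3 s' h4
          have h10 : ⁅Cl l (yx (F := F) i (s' + 2)), X F j⁆ =
            (⁅Cl l (yx (F := F) i (s' + 2)), X F j⁆ - Cl l ⁅yx (F := F) i (s' + 2), X F j⁆)
            + Cl l ⁅yx (F := F) i (s' + 2), X F j⁆ := by abel
          rw [SetLike.mem_coe, Submodule.mem_comap, lieBy_apply]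
          rw [h10]
          exact Submodule.add_mem _ (hTR (s' + 1) h3) h9
        · intro g hg
          exact (le_trans le_sup_left (le_trans le_sup_left le_sup_left) :
            Lam (F := F) Y (s' + 2) ≤ _) (Lam_lie h0 hj hg)
        · intro t ht
          exact hTR (s' + 1) (h.isT.lie_mem _ ht _)
      exact h2 h1
    induction s with
    | zero =>
      refine le_trans (WW_one_le_Lam h0 (by omega)) ?_
      exact le_trans le_sup_left (le_trans le_sup_left le_sup_left)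
    | succ s ihs =>
      rcases s with _ | s
      · -- `d = 1`
        apply box_le h.isT h0 (by omega) (d := 1) ⊥
        · rw [sup_bot_eq]
          exact le_trans (WW_one_le_Lam h0 (by omega)) le_sup_left
        · exact le_trans le_sup_left le_sup_left
        · intro g hg
          rw [Submodule.mem_bot] at hg
          rw [hg, zero_lie]
          exact Submodule.zero_mem _
        · exact hy 0
      · apply box_le h.isT h0 (by omega) (d := s + 2) (SO F Y (s + 2) ⊔ SE F Y (s + 1))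
        · rw [← sup_assoc]
          exact ihs
        · exact le_trans le_sup_left le_sup_left
        · have h2 : SO F Y (s + 2) ⊔ SE F Y (s + 1) ≤ (Lam (F := F) Y (s + 1 + 2) ⊔ T
              ⊔ SO F Y (s + 1 + 2) ⊔ SE F Y (s + 1 + 1)).comap (lieBy (X F 0)) := by
            apply sup_le
            · rw [SO, Submodule.span_le]
              rintro f ⟨i, l, hl1, hl2, rfl⟩
              have h3 := h.Cl_lie l (yx_G3 (F := F) i s) (X F 0)
              have h10 : ⁅Cl l (yx (F := F) i (s + 2)), X F 0⁆ =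
                (⁅Cl l (yx (F := F) i (s + 2)), X F 0⁆ - Cl l ⁅yx (F := F) i (s + 2), X F 0⁆)
                + Cl l ⁅yx (F := F) i (s + 2), X F 0⁆ := by abel
              rw [SetLike.mem_coe, Submodule.mem_comap, lieBy_apply]
              rw [h10]
              apply Submodule.add_mem _ (hTR (s + 2) h3)
              apply Submodule.mem_sup_left
              apply Submodule.mem_sup_right
              exact Submodule.subset_span ⟨i, l, hl1, hl2, by rw [yx_succ i (s + 2)]⟩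
            · rw [SE, Submodule.span_le]
              rintro f ⟨i, j, l, hl1, hl2, rfl⟩
              have h3 := h.Cl_lie l (g2_mem_H3d i j (s + 1)) (X F 0)
              have hnd : (i :: j :: l : List ℕ).Nodup := by
                rw [← Multiset.coe_nodup, hl1]
                exact Y.nodup
              have hij : i ≠ j := by
                rintro rfl
                simp at hnd
              have h4 : ⁅g2 F i j (s + 1), X F 0⁆ ∈ WW (F := F) {i, j} (s + 1 + 2) := by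
                have h5 : g2 F i j (s + 1) ∈ HomC (F := F) (cont {i} (s + 1) + ({j} + {0})) :=
                  lie_mem_homC (yx_mem i (s + 1)) (lie_mem_homC (X_mem j) (X_mem 0))
                have h6 := lie_mem_homC h5 (X_mem 0)
                have h7 : cont {i} (s + 1) + ({j} + {0}) + {0} = cont {i, j} (s + 1 + 2) := by
                  rw [cont, cont, pair_val_H3d hij, Finset.singleton_val,
                    Multiset.replicate_succ 0 (s + 1 + 1), Multiset.replicate_succ 0 (s + 1)]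
                  rw [← Multiset.singleton_add i, ← Multiset.singleton_add j,
                    ← Multiset.singleton_add 0, ← Multiset.singleton_add 0]
                  abel
                rw [h7] at h6
                exact h6
              have h9 := h.lemC_two h0 hl2 hl1 (s + 1) h4
              have h10 : ⁅Cl l (g2 F i j (s + 1)), X F 0⁆ =
                (⁅Cl l (g2 F i j (s + 1)), X F 0⁆ - Cl l ⁅g2 F i j (s + 1), X F 0⁆)
                + Cl l ⁅g2 F i j (s + 1), X F 0⁆ := by abel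
              rw [SetLike.mem_coe, Submodule.mem_comap, lieBy_apply]
              rw [h10]
              exact Submodule.add_mem _ (hTR (s + 2) h3) h9
          intro g hg
          exact h2 hg
        · exact hy (s + 1)

end

end Pool.Agent.Lib.MP_b4a71d_al
end

section

/-!
# Levels spanned by an orbit
-/

set_option autoImplicit false

namespace Pool.Agent.Lib.MP_b4a71d_al

universe u

noncomputable section

variable {F : Type u} [Field F]

private theorem h4a_mul {k : ℕ} {σ τ : Equiv.Perm ℕ} (hσ : σ ∈ Sk k) (hτ : τ ∈ Sk k) :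
    σ * τ ∈ Sk k := by
  intro i hi
  rw [Equiv.Perm.mul_apply, hτ i hi, hσ i hi]

private theorem h4a_swap {k i j : ℕ} (hi : i ∈ Finset.Icc 1 k) (hj : j ∈ Finset.Icc 1 k) :
    Equiv.swap i j ∈ Sk k := by
  intro l hl
  apply Equiv.swap_apply_of_ne_of_ne
  · rintro rfl
    exact hl hi
  · rintro rfl
    exact hl hj

private theorem h4a_mem {k : ℕ} {σ : Equiv.Perm ℕ} (hσ : σ ∈ Sk k) {i : ℕ}
    (hi : i ∈ Finset.Icc 1 k) : σ i ∈ Finset.Icc 1 k := by
  have h1 : (Finset.Icc 1 k).image σ = Finset.Icc 1 k := image_eq_of_fix σ hσ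
  rw [← h1]
  exact Finset.mem_image_of_mem _ hi

/-- Orbit lemma.  `w ∈ W k d` antisymmetric in the letters `2, ..., k` modulo `Lam + T` and its
`S_k`-orbit spans `W k d` modulo `Lam + T`.
Proof: `p = exists_prK`, `sg = exists_sgn F k`.  For `τ ∈ Sk k` with `τ 1 = 1` one has
`ren τ (p w) - sg τ • p w ∈ T` (`τ` is a product of transpositions of `{2, ..., k}`; induction
`Equiv.Perm.swap_induction_on` for the permutations of the subtype).  Put
`v l = sg (swap 1 l) • ren (swap 1 l) (p w)`.  For `σ = swap i j ∈ Sk k`: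
`σ * swap 1 l = swap 1 (σ l) * τ` with `τ 1 = 1`, so `ren σ (v l) - (-1) • v (σ l) ∈ T`.  Every
`ren σ (p w)`, `σ ∈ Sk k`, is `± v (σ 1)` modulo `T`; so `KE ≤ span {v i} + T`
(apply `p` to `hspan`; `p` kills `Lam`, maps `T` to `T`, commutes with `ren σ`).  Then
`levelGood_of_perm_swap` with `ε = -1`.  (`k ≥ 1`; the case `k = 0` is trivial or excluded.) -/
theorem levelGood_of_orbit [CharZero F] {T : Submodule F (FL F)} (hT : IsTIdeal F T) {k d : ℕ}
    (hk : 1 ≤ k) {w : FL F} (hw : w ∈ W k d)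
    (hsw : ∀ i ∈ Finset.Icc 2 k, ∀ j ∈ Finset.Icc 2 k, i ≠ j →
      ren (Equiv.swap i j) w + w ∈ Lam (Finset.Icc 1 k) d ⊔ T)
    (hspan : W k d ≤ Lam (Finset.Icc 1 k) d ⊔ T
      ⊔ Submodule.span F {f | ∃ σ ∈ Sk k, f = ren σ w}) : LevelGood T k d := by
  classical
  have h0 : 0 ∉ Finset.Icc 1 k := zero_notMem_Icc k
  have h1Y : 1 ∈ Finset.Icc 1 k := Finset.mem_Icc.2 ⟨le_rfl, hk⟩
  obtain ⟨p, hp1, hp2, hp3, hp4, hp5, hp6⟩ := exists_prK (F := F) (Finset.Icc 1 k) h0 d
  obtain ⟨sg, hs1, hsm, hss⟩ := exists_sgn F k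
  have hsub : ∀ i ∈ Finset.Icc 2 k, i ∈ Finset.Icc 1 k := by
    intro i hi
    rw [Finset.mem_Icc] at hi ⊢
    omega
  -- the vector `u = p w`
  set u : FL F := p w with hu
  have huK : u ∈ KE (F := F) (Finset.Icc 1 k) d := hp1 w hw
  have hA : ∀ i ∈ Finset.Icc 2 k, ∀ j ∈ Finset.Icc 2 k, i ≠ j → ren (Equiv.swap i j) u + u ∈ T := by
    intro i hi j hj hij
    obtain ⟨a, ha, t, ht, hat⟩ := Submodule.mem_sup.1 (hsw i hi j hj hij)
    have h1 : ren (Equiv.swap i j) u + u = p (ren (Equiv.swap i j) w + w) := by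
      rw [map_add, ← hp6 _ (h4a_swap (hsub i hi) (hsub j hj))]
    rw [h1, ← hat, map_add, hp4 a ha, zero_add]
    exact hp5 T hT t ht
  have hsq : ∀ l ∈ Finset.Icc 1 k, sg (Equiv.swap 1 l) * sg (Equiv.swap 1 l) = 1 := by
    intro l hl
    have h1 := hsm _ (h4a_swap h1Y hl) _ (h4a_swap h1Y hl)
    rw [Equiv.swap_mul_self, hs1] at h1
    exact h1.symm
  -- permutations fixing `1`
  have hB' : ∀ g : Equiv.Perm (Finset.Icc 2 k),
      ren (⇑(Equiv.Perm.ofSubtype g : Equiv.Perm ℕ)) u - sg (Equiv.Perm.ofSubtype g) • u ∈ T := by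
    intro g
    induction g using Equiv.Perm.swap_induction_on with
    | one =>
      rw [map_one, hs1, one_smul]
      have h1 : ren (⇑(1 : Equiv.Perm ℕ)) u = u := ren_id' u
      rw [h1, sub_self]
      exact Submodule.zero_mem _
    | swap_mul f x y hxy ih =>
      have h1 : (Equiv.Perm.ofSubtype (Equiv.swap x y) : Equiv.Perm ℕ) =
          Equiv.swap (x : ℕ) (y : ℕ) := Equiv.Perm.ofSubtype_swap_eq _ _
      have hne : (x : ℕ) ≠ (y : ℕ) := fun h => hxy (Subtype.ext h)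
      have hfS : (Equiv.Perm.ofSubtype f : Equiv.Perm ℕ) ∈ Sk k := by
        intro i hi
        exact ofSubtype_fix f (fun h => hi (hsub i h))
      have h3 := hT.map_mem (ren (Equiv.swap (x : ℕ) (y : ℕ))) _ ih
      rw [map_sub, map_smul, ren_ren] at h3
      have h4 := T.smul_mem (sg (Equiv.Perm.ofSubtype f)) (hA (x : ℕ) x.2 (y : ℕ) y.2 hne)
      have h5 := T.add_mem h3 h4
      have h6 : sg (Equiv.Perm.ofSubtype (Equiv.swap x y * f)) =
          - sg (Equiv.Perm.ofSubtype f) := by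
        rw [map_mul, h1, hsm _ (h4a_swap (hsub _ x.2) (hsub _ y.2)) _ hfS,
          hss _ (hsub _ x.2) _ (hsub _ y.2) hne, neg_one_mul]
      rw [h6, map_mul, h1]
      convert h5 using 1
      rw [smul_add, neg_smul, sub_neg_eq_add, Equiv.Perm.coe_mul]
      abel
  have hB : ∀ τ ∈ Sk k, τ 1 = 1 → ren τ u - sg τ • u ∈ T := by
    intro τ hτ h1
    obtain ⟨g, rfl⟩ := exists_ofSubtype (Y := Finset.Icc 2 k) τ (by
      intro i hi
      by_cases h2 : i ∈ Finset.Icc 1 k
      · have h3 : i = 1 := by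
          rw [Finset.mem_Icc] at hi h2
          omega
        rw [h3, h1]
      · exact hτ i h2)
    exact hB' g
  set v : ℕ → FL F := fun l => sg (Equiv.swap 1 l) • ren (Equiv.swap 1 l) u with hv
  have hC : ∀ σ ∈ Sk k, ren σ u - sg σ • v (σ 1) ∈ T := by
    intro σ hσ
    have hσ1 := h4a_mem hσ h1Y
    have hsw1 := h4a_swap h1Y hσ1
    set τ : Equiv.Perm ℕ := Equiv.swap 1 (σ 1) * σ with hτ
    have hτS : τ ∈ Sk k := h4a_mul hsw1 hσ
    have hτ1 : τ 1 = 1 := by
      rw [hτ, Equiv.Perm.mul_apply, Equiv.swap_apply_right]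
    have hστ : σ = Equiv.swap 1 (σ 1) * τ := by
      rw [hτ, ← mul_assoc, Equiv.swap_mul_self, one_mul]
    have h1 := hT.map_mem (ren (Equiv.swap 1 (σ 1))) _ (hB τ hτS hτ1)
    rw [map_sub, map_smul, ren_ren] at h1
    have h2 : sg σ * sg (Equiv.swap 1 (σ 1)) = sg τ := by
      have h3 : sg σ = sg (Equiv.swap 1 (σ 1)) * sg τ := by
        conv_lhs => rw [hστ]
        exact hsm _ hsw1 _ hτS
      rw [h3, mul_right_comm, hsq _ hσ1, one_mul]
    have h4 : sg σ • v (σ 1) = sg τ • ren (Equiv.swap 1 (σ 1)) u := by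
      rw [hv]
      simp only
      rw [smul_smul, h2]
    rw [h4]
    have h5 : ren σ u = ren (⇑(Equiv.swap 1 (σ 1)) ∘ ⇑τ) u := by
      have h6 : (⇑σ : ℕ → ℕ) = ⇑(Equiv.swap 1 (σ 1)) ∘ ⇑τ := by
        rw [← Equiv.Perm.coe_mul, ← hστ]
      rw [← h6]
    rw [h5]
    exact h1
  have hvK : ∀ i ∈ Finset.Icc 1 k, v i ∈ KE (F := F) (Finset.Icc 1 k) d := by
    intro i hi
    refine Submodule.smul_mem _ _ ?_
    exact ren_KE _ (h4a_swap h1Y hi 0 h0) (image_eq_of_fix _ (h4a_swap h1Y hi)) huK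
  refine levelGood_of_perm hT v hvK sg hs1 hsm ?_ ?_
  · intro σ hσ i hi
    have hswi := h4a_swap h1Y hi
    have h1 := hC (σ * Equiv.swap 1 i) (h4a_mul hσ hswi)
    have h2 : (σ * Equiv.swap 1 i) 1 = σ i := by
      rw [Equiv.Perm.mul_apply, Equiv.swap_apply_left]
    rw [h2, hsm _ hσ _ hswi] at h1
    have h3 := T.smul_mem (sg (Equiv.swap 1 i)) h1
    have h4 : ren σ (v i) = sg (Equiv.swap 1 i) • ren (⇑(σ * Equiv.swap 1 i)) u := by
      rw [hv]
      simp only
      rw [map_smul, ren_ren, Equiv.Perm.coe_mul]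
    rw [h4]
    have h5 : sg (Equiv.swap 1 i) * (sg σ * sg (Equiv.swap 1 i)) = sg σ := by
      rw [mul_left_comm, hsq i hi, mul_one]
    rw [smul_sub, smul_smul, h5] at h3
    exact h3
  · intro f hf
    have h1 := hspan (KE_le _ _ hf)
    obtain ⟨a, ha, x, hx, hax⟩ := Submodule.mem_sup.1 h1
    obtain ⟨b, hb, t, ht, hbt⟩ := Submodule.mem_sup.1 ha
    have h2 : f = p t + p x := by
      conv_lhs => rw [← hp3 f hf, ← hax, ← hbt, map_add, map_add, hp4 b hb, zero_add]
    rw [h2]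
    refine Submodule.add_mem _ (Submodule.mem_sup_right (hp5 T hT t ht)) ?_
    clear hax h1 h2
    induction hx using Submodule.span_induction with
    | mem y hy =>
      obtain ⟨σ, hσ, rfl⟩ := hy
      rw [← hp6 σ hσ]
      have h3 : ren σ (p w) = sg σ • v (σ 1) + (ren σ u - sg σ • v (σ 1)) := by
        rw [hu]
        abel
      rw [h3]
      refine Submodule.add_mem_sup (Submodule.smul_mem _ _ (Submodule.subset_span ?_)) (hC σ hσ)
      exact ⟨σ 1, h4a_mem hσ h1Y, rfl⟩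
    | zero =>
      rw [map_zero]
      exact Submodule.zero_mem _
    | add y z _ _ hy hz =>
      rw [map_add]
      exact Submodule.add_mem _ hy hz
    | smul c y _ hy =>
      rw [map_smul]
      exact Submodule.smul_mem _ _ hy

/-- If `(i :: l)` and `(1 :: l0)` have the same entries (no repetitions) there is `σ` with
`σ 1 = i`, `l0.map σ = l`, fixing everything else. -/
theorem exists_perm_list {k : ℕ} {l l0 : List ℕ} (h0 : (l0 : Multiset ℕ) = (Finset.Icc 1 k).val)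
    (h : (l : Multiset ℕ) = (Finset.Icc 1 k).val) : ∃ σ ∈ Sk k, l0.map σ = l := by
  have hn0 : l0.Nodup := by
    have h1 : (l0 : Multiset ℕ).Nodup := by
      rw [h0]
      exact (Finset.Icc 1 k).nodup
    exact h1
  have hn : l.Nodup := by
    have h1 : (l : Multiset ℕ).Nodup := by
      rw [h]
      exact (Finset.Icc 1 k).nodup
    exact h1
  have hm0 : ∀ x, x ∈ Finset.Icc 1 k ↔ x ∈ l0 := by
    intro x
    rw [← Finset.mem_val, ← h0, Multiset.mem_coe]
  have hm : ∀ x, x ∈ Finset.Icc 1 k ↔ x ∈ l := by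
    intro x
    rw [← Finset.mem_val, ← h, Multiset.mem_coe]
  have hlen : l0.length = l.length := by
    have h1 : Multiset.card (l0 : Multiset ℕ) = Multiset.card (l : Multiset ℕ) := by rw [h0, h]
    simpa using h1
  let g : Equiv.Perm (Finset.Icc 1 k) :=
    (((Equiv.subtypeEquivRight hm0).trans (List.Nodup.getEquiv l0 hn0).symm).trans
      ((finCongr hlen).trans (List.Nodup.getEquiv l hn))).trans (Equiv.subtypeEquivRight hm).symm
  refine ⟨Equiv.Perm.ofSubtype g, fun i hi => ofSubtype_fix g hi, ?_⟩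
  apply List.ext_getElem
  · rw [List.length_map, hlen]
  · intro i hi1 hi2
    rw [List.getElem_map]
    rw [List.length_map] at hi1
    have hmem : l0[i] ∈ Finset.Icc 1 k := (hm0 _).2 (List.getElem_mem hi1)
    rw [Equiv.Perm.ofSubtype_apply_of_mem g hmem]
    have h1 : (Equiv.subtypeEquivRight hm0) ⟨l0[i], hmem⟩ =
        (List.Nodup.getEquiv l0 hn0) ⟨i, hi1⟩ := by
      apply Subtype.ext
      simp
    have h2 : g ⟨l0[i], hmem⟩ = (Equiv.subtypeEquivRight hm).symm
        ((List.Nodup.getEquiv l hn) (finCongr hlen ((List.Nodup.getEquiv l0 hn0).symm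
          ((Equiv.subtypeEquivRight hm0) ⟨l0[i], hmem⟩)))) := rfl
    rw [h2, h1, Equiv.symm_apply_apply]
    simp

end

end Pool.Agent.Lib.MP_b4a71d_al
end
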