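import Pool.Agent.Lib.MP_b4a71d_al.K3fl
import Pool.Agent.Lib.MP_b4a71d_al.H4a

section

/-!
# Level 4: propagation (Theorem B)

If the level `(4, d)` is zero modulo the T-ideal `T` and `d ≥ 4`, then `(4, d + 1)` is zero.
Together with `LZ_succ_of_LZ` all levels `(k, d)` with `k ≥ 4`, `k + d ≥ 8` are zero as soon as
those with `k + d = 8` are.
-/

set_option autoImplicit false

namespace Pool.Agent.Lib.MP_b4a71d_al

universe u

noncomputable section

variable {F : Type u} [Field F]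

/-- A finite set of permutations of `ℕ`: those fixing everything outside `{1, 2, 3, 4}`. -/
theorem exists_S4 : ∃ G : Finset (Equiv.Perm ℕ), ∀ σ, σ ∈ G ↔ ∀ i, i ∉ Finset.Icc 1 4 → σ i = i := by
  classical
  have hfin : Finite {σ : Equiv.Perm ℕ // ∀ i, i ∉ Finset.Icc 1 4 → σ i = i} :=
    Finite.of_equiv _ (Equiv.Perm.subtypeEquivSubtypePerm (fun i : ℕ => i ∈ Finset.Icc 1 4))
  have h1 : (Set.range (Subtype.val : {σ : Equiv.Perm ℕ // ∀ i, i ∉ Finset.Icc 1 4 → σ i = i} →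
      Equiv.Perm ℕ)).Finite := Set.finite_range _
  refine ⟨h1.toFinset, fun σ => ?_⟩
  rw [Set.Finite.mem_toFinset]
  constructor
  · rintro ⟨τ, rfl⟩
    exact τ.2
  · intro h
    exact ⟨⟨σ, h⟩, rfl⟩

/-- The permutations of `{1, 2, 3, 4}`. -/
def G4 : Finset (Equiv.Perm ℕ) := exists_S4.choose

theorem mem_G4 {σ : Equiv.Perm ℕ} : σ ∈ G4 ↔ ∀ i, i ∉ Finset.Icc 1 4 → σ i = i :=
  exists_S4.choose_spec σ

private theorem one_mem_G4 : (1 : Equiv.Perm ℕ) ∈ G4 := by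
  rw [mem_G4]
  intro i _
  rfl

private theorem mul_swap_mem {ρ : Equiv.Perm ℕ} (h : ρ ∈ G4) {i j : ℕ} (hi : i ∈ Finset.Icc 1 4)
    (hj : j ∈ Finset.Icc 1 4) : ρ * Equiv.swap i j ∈ G4 := by
  rw [mem_G4] at h ⊢
  intro k hk
  rw [Equiv.Perm.mul_apply, Equiv.swap_apply_of_ne_of_ne, h k hk]
  · rintro rfl
    exact hk hi
  · rintro rfl
    exact hk hj

private theorem mul_swap_cancel (ρ : Equiv.Perm ℕ) (i j : ℕ) :
    ρ * Equiv.swap i j * Equiv.swap i j = ρ := by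
  rw [mul_assoc, Equiv.swap_mul_self, mul_one]

private theorem sum_mul_swap {M : Type*} [AddCommMonoid M] {i j : ℕ} (hi : i ∈ Finset.Icc 1 4)
    (hj : j ∈ Finset.Icc 1 4) (f : Equiv.Perm ℕ → M) :
    ∑ ρ ∈ G4, f (ρ * Equiv.swap i j) = ∑ ρ ∈ G4, f ρ := by
  refine Finset.sum_bij' (fun ρ _ => ρ * Equiv.swap i j) (fun ρ _ => ρ * Equiv.swap i j)
    (fun ρ h => mul_swap_mem h hi hj) (fun ρ h => mul_swap_mem h hi hj)
    (fun ρ _ => mul_swap_cancel ρ i j) (fun ρ _ => mul_swap_cancel ρ i j) (fun ρ _ => rfl)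

open scoped Classical in
/-- Inverse of `N - ∑_{i ≠ j} (i j)` in the group algebra of `S_4`, `N ≥ 4`.
Proof: the rational matrix `A ρ σ = N [ρ = σ] - #{i : σ = ρ (i j)}` indexed by `G4` is strictly
diagonally dominant (`det_ne_zero_of_sum_row_lt_diag` over `ℝ` or `ℚ`), hence invertible over `ℚ`
and over `F`; solve `A b = δ_1`. -/
theorem exists_inv (F : Type u) [Field F] [CharZero F] {N : ℕ} (hN : 4 ≤ N) {j : ℕ}
    (hj : j ∈ Finset.Icc 1 4) : ∃ b : Equiv.Perm ℕ → F, ∀ ρ ∈ G4,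
      (N : F) * b ρ - ∑ i ∈ (Finset.Icc 1 4).erase j, b (ρ * Equiv.swap i j)
        = if ρ = 1 then 1 else 0 := by
  let A : Matrix G4 G4 ℤ := fun ρ σ => (if ρ = σ then (N : ℤ) else 0) -
    ∑ i ∈ (Finset.Icc 1 4).erase j, if ρ.1 * Equiv.swap i j = σ.1 then 1 else 0
  have hdet : A.det ≠ 0 := by
    intro h0
    have h1 : (A.map (fun z : ℤ => (z : ℝ))).det ≠ 0 := by
      apply det_ne_zero_of_sum_row_lt_diag
      intro ρ
      have hdiag : (A.map (fun z : ℤ => (z : ℝ))) ρ ρ = N := by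
        rw [Matrix.map_apply]
        have h2 : A ρ ρ = N := by
          simp only [A, if_true]
          rw [Finset.sum_eq_zero, sub_zero]
          intro i hi
          rw [if_neg]
          intro h3
          have h4 : Equiv.swap i j = 1 := by
            rwa [mul_eq_left] at h3
          have h5 : Equiv.swap i j j = j := by rw [h4]; rfl
          rw [Equiv.swap_apply_right] at h5
          exact (Finset.mem_erase.1 hi).1 h5
        rw [h2]
        simp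
      rw [hdiag]
      have hoff : ∀ σ ∈ Finset.univ.erase ρ, ‖(A.map (fun z : ℤ => (z : ℝ))) ρ σ‖ =
          ∑ i ∈ (Finset.Icc 1 4).erase j, if ρ.1 * Equiv.swap i j = σ.1 then (1 : ℝ) else 0 := by
        intro σ hσ
        rw [Matrix.map_apply]
        have h2 : ((A ρ σ : ℤ) : ℝ) =
            -∑ i ∈ (Finset.Icc 1 4).erase j, if ρ.1 * Equiv.swap i j = σ.1 then (1 : ℝ) else 0 := by
          simp only [A, if_neg (Finset.ne_of_mem_erase hσ).symm]
          push_cast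
          ring
        rw [h2, norm_neg, Real.norm_of_nonneg]
        apply Finset.sum_nonneg
        intro i _
        split_ifs <;> norm_num
      rw [Finset.sum_congr rfl hoff, Finset.sum_comm]
      have h3 : ∀ i ∈ (Finset.Icc 1 4).erase j, ∑ σ ∈ (Finset.univ : Finset G4).erase ρ,
          (if ρ.1 * Equiv.swap i j = σ.1 then (1 : ℝ) else 0) ≤ 1 := by
        intro i hi
        refine le_trans (Finset.sum_le_sum_of_subset_of_nonneg (Finset.erase_subset _ _) ?_) ?_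
        · intro σ _ _
          split_ifs <;> norm_num
        · have h4 : ∀ σ : G4, (if ρ.1 * Equiv.swap i j = σ.1 then (1 : ℝ) else 0) =
              if (⟨ρ.1 * Equiv.swap i j, mul_swap_mem ρ.2 (Finset.mem_of_mem_erase hi) hj⟩ : G4) = σ
              then (1 : ℝ) else 0 := by
            intro σ
            congr 1
            exact propext ⟨fun h => Subtype.ext h, fun h => congrArg Subtype.val h⟩
          rw [Finset.sum_congr rfl (fun σ _ => h4 σ), Finset.sum_ite_eq]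
          simp
      refine lt_of_le_of_lt (Finset.sum_le_sum h3) ?_
      rw [Finset.sum_const, Finset.card_erase_of_mem hj, Nat.card_Icc]
      have h5 : (4 : ℝ) ≤ N := by exact_mod_cast hN
      norm_num
      linarith
    apply h1
    have h2 := (Int.castRingHom ℝ).map_det A
    rw [h0, map_zero] at h2
    exact h2.symm
  have hF : (A.map (fun z : ℤ => (z : F))).det ≠ 0 := by
    have h2 := (Int.castRingHom F).map_det A
    intro h3
    apply hdet
    have h4 : (Int.castRingHom F) A.det = 0 := h2.trans h3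
    exact Int.cast_eq_zero.1 h4
  have hu : IsUnit (A.map (fun z : ℤ => (z : F))).det := isUnit_iff_ne_zero.2 hF
  let b' : G4 → F := (A.map (fun z : ℤ => (z : F)))⁻¹.mulVec (Pi.single ⟨1, one_mem_G4⟩ 1)
  have hb' : (A.map (fun z : ℤ => (z : F))).mulVec b' = Pi.single ⟨1, one_mem_G4⟩ 1 := by
    rw [Matrix.mulVec_mulVec, Matrix.mul_nonsing_inv _ hu, Matrix.one_mulVec]
  refine ⟨fun σ => if h : σ ∈ G4 then b' ⟨σ, h⟩ else 0, ?_⟩
  intro ρ hρ
  have h1 := congrFun hb' ⟨ρ, hρ⟩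
  have h2 : (A.map (fun z : ℤ => (z : F))).mulVec b' ⟨ρ, hρ⟩ =
      (N : F) * b' ⟨ρ, hρ⟩ - ∑ i ∈ (Finset.Icc 1 4).erase j,
        (if h : ρ * Equiv.swap i j ∈ G4 then b' ⟨ρ * Equiv.swap i j, h⟩ else 0) := by
    rw [Matrix.mulVec, dotProduct]
    have h3 : ∀ σ : G4, (A.map (fun z : ℤ => (z : F))) ⟨ρ, hρ⟩ σ * b' σ =
        (if (⟨ρ, hρ⟩ : G4) = σ then (N : F) * b' σ else 0) -
          ∑ i ∈ (Finset.Icc 1 4).erase j, if ρ * Equiv.swap i j = σ.1 then b' σ else 0 := by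
      intro σ
      rw [Matrix.map_apply]
      simp only [A]
      push_cast
      rw [sub_mul, Finset.sum_mul]
      congr 1
      · split_ifs <;> simp
      · refine Finset.sum_congr rfl fun i _ => ?_
        split_ifs <;> simp
    rw [Finset.sum_congr rfl (fun σ _ => h3 σ), Finset.sum_sub_distrib, Finset.sum_ite_eq,
      if_pos (Finset.mem_univ _), Finset.sum_comm]
    congr 1
    refine Finset.sum_congr rfl fun i hi => ?_
    have hm := mul_swap_mem hρ (Finset.mem_of_mem_erase hi) hj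
    rw [dif_pos hm]
    have h4 : ∀ σ : G4, (if ρ * Equiv.swap i j = σ.1 then b' σ else 0) =
        if (⟨ρ * Equiv.swap i j, hm⟩ : G4) = σ then b' σ else 0 := by
      intro σ
      congr 1
      exact propext ⟨fun h => Subtype.ext h, fun h => congrArg Subtype.val h⟩
    rw [Finset.sum_congr rfl (fun σ _ => h4 σ), Finset.sum_ite_eq, if_pos (Finset.mem_univ _)]
  rw [h2] at h1
  simp only [dif_pos hρ]
  rw [h1, Pi.single_apply]
  congr 1
  exact propext ⟨fun h => congrArg Subtype.val h, fun h => Subtype.ext h⟩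

/-- If `N Γ - ∑_{i ≠ j} (i j) Γ ∈ Z`, `Z` stable, `N ≥ 4`, then `Γ ∈ Z`. -/
theorem mem_of_jm [CharZero F] {N : ℕ} (hN : 4 ≤ N) {j : ℕ} (hj : j ∈ Finset.Icc 1 4)
    {Z : Submodule F (FL F)} (hZ : Stab (Finset.Icc 1 4) Z) {g : FL F}
    (h : (N : F) • g - ∑ i ∈ (Finset.Icc 1 4).erase j, ren (Equiv.swap i j) g ∈ Z) : g ∈ Z := by
  classical
  obtain ⟨b, hb⟩ := exists_inv F hN hj
  have h1 : ∑ ρ ∈ G4, b ρ • ren ρ ((N : F) • g -
      ∑ i ∈ (Finset.Icc 1 4).erase j, ren (Equiv.swap i j) g) ∈ Z :=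
    Submodule.sum_mem _ fun ρ hρ => Submodule.smul_mem _ _ (hZ ρ (mem_G4.1 hρ) _ h)
  have h2 : ∑ ρ ∈ G4, b ρ • ren ρ ((N : F) • g -
      ∑ i ∈ (Finset.Icc 1 4).erase j, ren (Equiv.swap i j) g) = g := by
    have h3 : ∀ ρ : Equiv.Perm ℕ, b ρ • ren ρ ((N : F) • g -
        ∑ i ∈ (Finset.Icc 1 4).erase j, ren (Equiv.swap i j) g) =
        ((N : F) * b ρ) • ren ρ g - ∑ i ∈ (Finset.Icc 1 4).erase j,
          b ρ • ren (ρ * Equiv.swap i j : Equiv.Perm ℕ) g := by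
      intro ρ
      rw [map_sub, map_smul, map_sum, smul_sub, smul_smul, mul_comm (b ρ), Finset.smul_sum]
      congr 1
      refine Finset.sum_congr rfl fun i _ => ?_
      rw [ren_ren]
      rfl
    have h4 : ∑ ρ ∈ G4, ∑ i ∈ (Finset.Icc 1 4).erase j,
        b ρ • ren (ρ * Equiv.swap i j : Equiv.Perm ℕ) g =
        ∑ ρ ∈ G4, ∑ i ∈ (Finset.Icc 1 4).erase j, b (ρ * Equiv.swap i j) • ren ρ g := by
      rw [Finset.sum_comm, Finset.sum_comm (s := G4)]
      refine Finset.sum_congr rfl fun i hi => ?_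
      rw [← sum_mul_swap (Finset.mem_of_mem_erase hi) hj
        (fun ρ => b ρ • ren (ρ * Equiv.swap i j : Equiv.Perm ℕ) g)]
      refine Finset.sum_congr rfl fun ρ _ => ?_
      rw [mul_swap_cancel]
    rw [Finset.sum_congr rfl (fun ρ _ => h3 ρ), Finset.sum_sub_distrib, h4,
      ← Finset.sum_sub_distrib]
    have h5 : ∀ ρ ∈ G4, ((N : F) * b ρ) • ren ρ g -
        ∑ i ∈ (Finset.Icc 1 4).erase j, b (ρ * Equiv.swap i j) • ren ρ g =
        if ρ = 1 then g else 0 := by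
      intro ρ hρ
      rw [← Finset.sum_smul, ← sub_smul, hb ρ hρ]
      split_ifs with h6
      · rw [h6, one_smul]
        exact ren_id' g
      · rw [zero_smul]
    rw [Finset.sum_congr rfl h5, Finset.sum_ite_eq', if_pos one_mem_G4]
  rw [h2] at h1
  exact h1

private theorem E_ren (ρ : Equiv.Perm ℕ) (h0 : ρ 0 = 0) (m : ℕ) (f : FL F) :
    E m (ren ρ f) = ren ρ (E (ρ⁻¹ m) f) := by
  rw [ren_E ρ h0, show ρ (ρ⁻¹ m) = m from ρ.apply_symm_apply m]

private theorem G4_zero {ρ : Equiv.Perm ℕ} (h : ρ ∈ G4) : ρ 0 = 0 :=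
  mem_G4.1 h 0 (zero_notMem_Icc 4)

private theorem G4_inv_mem {ρ : Equiv.Perm ℕ} (h : ρ ∈ G4) {m : ℕ} (hm : m ∈ Finset.Icc 1 4) :
    ρ⁻¹ m ∈ Finset.Icc 1 4 := by
  by_contra h1
  have h2 := mem_G4.1 h _ h1
  have h3 : ρ (ρ⁻¹ m) = m := ρ.apply_symm_apply m
  rw [h3] at h2
  rw [← h2] at h1
  exact h1 hm

private theorem G4_stab {ρ : Equiv.Perm ℕ} (h : ρ ∈ G4) {d : ℕ} {f : FL F} (hf : f ∈ W 4 d) :
    ren ρ f ∈ W (F := F) 4 d :=
  stab_WW (zero_notMem_Icc 4) d ρ (mem_G4.1 h) f hf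

private theorem swap_zero {i j : ℕ} (hi : i ∈ Finset.Icc 1 4) (hj : j ∈ Finset.Icc 1 4) :
    Equiv.swap i j 0 = 0 := by
  rw [Finset.mem_Icc] at hi hj
  exact Equiv.swap_apply_of_ne_of_ne (by omega) (by omega)

private theorem ne_zero_of_mem {j : ℕ} (hj : j ∈ Finset.Icc 1 4) : j ≠ 0 := by
  rintro rfl
  exact zero_notMem_Icc 4 hj

private theorem zero_notMem_erase (j : ℕ) : 0 ∉ (Finset.Icc 1 4).erase j := fun h =>
  zero_notMem_Icc 4 (Finset.mem_of_mem_erase h)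

private theorem D_mem_W {d : ℕ} {j : ℕ} (hj : j ∈ Finset.Icc 1 4) {q : FL F}
    (hq : q ∈ WW ((Finset.Icc 1 4).erase j) (d + 1)) : D j q ∈ W (F := F) 4 d :=
  Lam_le _ _ (D_mem_Lam hj hq)

/-- Lifting: for `q ∈ KE (Y \ j) (d + 1)`, `d + 1 ≥ 4`, there is `w ∈ W 4 d` with `E_j w = q` and
`E_i w = 0` for `i ≠ j`.  `w = ∑_ρ b ρ • ren ρ (D j q)` with `b` from `exists_inv` for
`N = d + 1`: `E_m w = ∑_{ρ j = m} ((d+1) b ρ - ∑_i b (ρ (i j))) ren ρ q`
(`E_D_same`, `E_D_ne`, `ren_E`). -/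
theorem lift4 [CharZero F] {d : ℕ} (hd : 3 ≤ d) {j : ℕ} (hj : j ∈ Finset.Icc 1 4) {q : FL F}
    (hq : q ∈ KE ((Finset.Icc 1 4).erase j) (d + 1)) :
    ∃ w ∈ W (F := F) 4 d, E j w = q ∧ ∀ i ∈ (Finset.Icc 1 4).erase j, E i w = 0 := by
  classical
  obtain ⟨b, hb⟩ := exists_inv F (N := d + 1) (by omega) hj
  rw [mem_KE] at hq
  obtain ⟨hq1, hq2⟩ := hq
  have hjn : j ∉ (Finset.Icc 1 4).erase j := Finset.notMem_erase _ _
  have hj0 := ne_zero_of_mem hj
  have h0 := zero_notMem_erase j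
  have key : ∀ m ∈ Finset.Icc 1 4, E m (∑ ρ ∈ G4, b ρ • ren ρ (D j q)) =
      if m = j then q else 0 := by
    intro m hm
    -- one term
    have h1 : ∀ ρ ∈ G4, E m (b ρ • ren ρ (D j q)) =
        (if ρ j = m then (((d + 1 : ℕ) : F) * b ρ) • ren ρ q else 0) -
          ∑ i ∈ (Finset.Icc 1 4).erase j,
            if ρ i = m then b ρ • ren (ρ * Equiv.swap i j : Equiv.Perm ℕ) q else 0 := by
      intro ρ hρ
      rw [map_smul, E_ren ρ (G4_zero hρ)]
      have hi := G4_inv_mem hρ hm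
      have hρi : ρ (ρ⁻¹ m) = m := ρ.apply_symm_apply m
      by_cases hij : ρ⁻¹ m = j
      · have hρj : ρ j = m := by rw [← hij, hρi]
        rw [hij, E_D_same hjn hj0 h0 hq1, map_smul, smul_smul, if_pos hρj, mul_comm (b ρ),
          Finset.sum_eq_zero, sub_zero]
        intro i hi'
        rw [if_neg]
        intro h2
        exact (Finset.mem_erase.1 hi').1 (ρ.injective (h2.trans hρj.symm))
      · have hρj : ρ j ≠ m := fun h2 => hij (by rw [← h2]; exact ρ.symm_apply_apply j)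
        have him : ρ⁻¹ m ∈ (Finset.Icc 1 4).erase j := Finset.mem_erase.2 ⟨hij, hi⟩
        rw [E_D_ne him hjn hj0 h0 hq1, hq2 _ him, map_zero, zero_sub, map_neg, if_neg hρj,
          zero_sub, smul_neg, Finset.sum_eq_single (ρ⁻¹ m)]
        · rw [if_pos hρi, ren_ren]
          rfl
        · intro i _ hne
          rw [if_neg]
          intro h2
          apply hne
          rw [← h2]
          exact (ρ.symm_apply_apply i).symm
        · intro h2
          exact absurd him h2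
    rw [map_sum, Finset.sum_congr rfl h1, Finset.sum_sub_distrib, Finset.sum_comm (s := G4)]
    have h2 : ∀ i ∈ (Finset.Icc 1 4).erase j,
        (∑ ρ ∈ G4, if ρ i = m then b ρ • ren (ρ * Equiv.swap i j : Equiv.Perm ℕ) q else 0) =
        ∑ ρ ∈ G4, if ρ j = m then b (ρ * Equiv.swap i j) • ren ρ q else 0 := by
      intro i hi
      rw [← sum_mul_swap (Finset.mem_of_mem_erase hi) hj
        (fun ρ => if ρ i = m then b ρ • ren (ρ * Equiv.swap i j : Equiv.Perm ℕ) q else 0)]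
      refine Finset.sum_congr rfl fun ρ _ => ?_
      rw [mul_swap_cancel, Equiv.Perm.mul_apply, Equiv.swap_apply_left]
    rw [Finset.sum_congr rfl h2, Finset.sum_comm, ← Finset.sum_sub_distrib]
    have h3 : ∀ ρ ∈ G4, ((if ρ j = m then (((d + 1 : ℕ) : F) * b ρ) • ren ρ q else 0) -
        ∑ i ∈ (Finset.Icc 1 4).erase j, if ρ j = m then b (ρ * Equiv.swap i j) • ren ρ q else 0) =
        if ρ = 1 then (if m = j then q else 0) else 0 := by
      intro ρ hρ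
      by_cases hρj : ρ j = m
      · simp only [if_pos hρj]
        rw [← Finset.sum_smul, ← sub_smul, hb ρ hρ]
        by_cases h6 : ρ = 1
        · rw [if_pos h6, if_pos h6, one_smul, if_pos, h6]
          · exact ren_id' q
          · rw [← hρj, h6]
            rfl
        · rw [if_neg h6, if_neg h6, zero_smul]
      · simp only [if_neg hρj, Finset.sum_const_zero, sub_zero]
        by_cases h6 : ρ = 1
        · rw [if_pos h6, if_neg]
          intro h7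
          apply hρj
          rw [h6, h7]
          rfl
        · rw [if_neg h6]
    rw [Finset.sum_congr rfl h3, Finset.sum_ite_eq', if_pos one_mem_G4]
  refine ⟨∑ ρ ∈ G4, b ρ • ren ρ (D j q), ?_, ?_, ?_⟩
  · exact Submodule.sum_mem _ fun ρ hρ => Submodule.smul_mem _ _ (G4_stab hρ (D_mem_W hj hq1))
  · rw [key j hj, if_pos rfl]
  · intro i hi
    rw [key i (Finset.mem_of_mem_erase hi), if_neg (Finset.ne_of_mem_erase hi)]

/-- Two elements of `W 4 d` with the same `E`-values agree modulo `T` if `LZ T 4 d`. -/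
theorem eq_of_E {T : Submodule F (FL F)} {d : ℕ} (h : LZ T 4 d) {u v : FL F} (hu : u ∈ W 4 d)
    (hv : v ∈ W 4 d) (hE : ∀ i ∈ Finset.Icc 1 4, E i u = E i v) : u - v ∈ T := by
  apply h
  rw [mem_KE]
  refine ⟨Submodule.sub_mem _ hu hv, fun i hi => ?_⟩
  rw [map_sub, hE i hi, sub_self]

/-- Generation in three letters: `KE Y (d + 3) ≤ ∑ t_l KE Y (d + 2)` for `Y` of size 3
(rename the letters to `{1, 2, 3}` and use `gen3`; a homogeneous polynomial of degree `d + 1` is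
`∑ X_l r_l` with `r_l` homogeneous of degree `d`). -/
theorem gen3_step [CharZero F] {Y : Finset ℕ} (h0 : 0 ∉ Y) (hY : Y.card = 3) {d : ℕ} :
    KE (F := F) Y (d + 3) ≤ ⨆ l ∈ Y, (KE (F := F) Y (d + 2)).map (tt l).toLinearMap := by
  classical
  -- the case of the letters `1, 2, 3`
  have h3 : KE (F := F) (Finset.Icc 1 3) (d + 3) ≤
      ⨆ l ∈ Finset.Icc 1 3, (KE (F := F) (Finset.Icc 1 3) (d + 2)).map (tt l).toLinearMap := by
    intro f hf
    obtain ⟨r, hr, hfr⟩ := gen3 (F := F) (d := d + 1) hf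
    rw [hfr]
    refine Submodule.sum_mem _ fun i _ => ?_
    have h4 : pol (r i) (ev (F := F) i) = ∑ s ∈ (r i).support,
        pol (MvPolynomial.monomial s ((r i).coeff s)) (ev i) := by
      conv_lhs => rw [(r i).as_sum, map_sum]
      exact LinearMap.sum_apply _ _ _
    rw [h4]
    refine Submodule.sum_mem _ fun s hs => ?_
    have hs1 : s.degree = d + 1 := by
      by_contra hne
      have h5 := (hr i).coeff_eq_zero hne
      exact (MvPolynomial.mem_support_iff.1 hs) h5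
    obtain ⟨l, hl⟩ : ∃ l, s l ≠ 0 := by
      by_contra hne
      push Not at hne
      have h5 : s = 0 := Finsupp.ext hne
      rw [h5, map_zero] at hs1
      omega
    have hle : Finsupp.single l 1 ≤ s := Finsupp.single_le_iff.2 (Nat.one_le_iff_ne_zero.2 hl)
    have h6 : MvPolynomial.monomial s ((r i).coeff s) =
        MvPolynomial.X l * MvPolynomial.monomial (s - Finsupp.single l 1) ((r i).coeff s) := by
      rw [MvPolynomial.X, MvPolynomial.monomial_mul, one_mul, add_comm (Finsupp.single l 1),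
        tsub_add_cancel_of_le hle]
    have h7 : (MvPolynomial.monomial (s - Finsupp.single l 1) ((r i).coeff s) :
        R3 F).IsHomogeneous d := by
      apply MvPolynomial.isHomogeneous_monomial
      have h8 : (s - Finsupp.single l 1 + Finsupp.single l 1).degree = d + 1 := by
        rw [tsub_add_cancel_of_le hle, hs1]
      rw [map_add, Finsupp.degree_single] at h8
      omega
    have h8 := pol_KE h7 (ev_mem (F := F) i)
    rw [h6, pol_mul, pol_X, add_comm 2 d] at *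
    have h9 : (l : ℕ) + 1 ∈ Finset.Icc 1 3 := by
      rw [Finset.mem_Icc]
      have := l.2
      omega
    refine Submodule.mem_iSup_of_mem ((l : ℕ) + 1) (Submodule.mem_iSup_of_mem h9 ?_)
    exact Submodule.mem_map_of_mem h8
  obtain ⟨σ, hσ0, hσ⟩ := exists_perm_image_zero Y (Finset.Icc 1 3)
    (by rw [hY, Nat.card_Icc]) h0 (zero_notMem_Icc 3)
  have hσ' : (Finset.Icc 1 3).image (σ⁻¹ : Equiv.Perm ℕ) = Y := by
    rw [← hσ, Finset.image_image]
    have h4 : ((σ⁻¹ : Equiv.Perm ℕ) : ℕ → ℕ) ∘ σ = id := by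
      funext i
      exact σ.symm_apply_apply i
    rw [h4, Finset.image_id]
  have hσ0' : (σ⁻¹ : Equiv.Perm ℕ) 0 = 0 := by
    rw [← hσ0]
    have h4 : (σ⁻¹ : Equiv.Perm ℕ) (σ 0) = 0 := σ.symm_apply_apply 0
    rw [hσ0] at h4 ⊢
    exact h4
  intro f hf
  have h4 := h3 (ren_KE σ hσ0 hσ hf)
  have h5 : f = ren (σ⁻¹ : Equiv.Perm ℕ) (ren σ f) := by
    rw [ren_ren]
    have h4 : ((σ⁻¹ : Equiv.Perm ℕ) : ℕ → ℕ) ∘ σ = id := by
      funext i
      exact σ.symm_apply_apply i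
    rw [h4, ren_id']
  rw [h5]
  have h6 : ⨆ l ∈ Finset.Icc 1 3, (KE (F := F) (Finset.Icc 1 3) (d + 2)).map
      (tt l).toLinearMap ≤ (⨆ l ∈ Y, (KE (F := F) Y (d + 2)).map (tt l).toLinearMap).comap
        (ren (F := F) (σ⁻¹ : Equiv.Perm ℕ)).toLinearMap := by
    refine iSup₂_le fun l hl => ?_
    rintro _ ⟨g, hg, rfl⟩
    rw [Submodule.mem_comap]
    change ren (σ⁻¹ : Equiv.Perm ℕ) (tt l g) ∈ _
    rw [ren_tt _ hσ0']
    refine Submodule.mem_iSup_of_mem ((σ⁻¹ : Equiv.Perm ℕ) l) (Submodule.mem_iSup_of_mem ?_ ?_)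
    · rw [← hσ']
      exact Finset.mem_image_of_mem _ hl
    · exact Submodule.mem_map_of_mem (ren_KE _ hσ0' hσ' hg)
  exact h6 h4

private theorem tt_mem_W {d l : ℕ} (hl : l ∈ Finset.Icc 1 4) {f : FL F} (hf : f ∈ W 4 d) :
    tt l f ∈ W (F := F) 4 (d + 1) := tt_mem hl (zero_notMem_Icc 4) hf

private theorem swap_mem_W {i j d : ℕ} (hi : i ∈ Finset.Icc 1 4) (hj : j ∈ Finset.Icc 1 4)
    {f : FL F} (hf : f ∈ W 4 d) : ren (Equiv.swap i j) f ∈ W (F := F) 4 d := by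
  refine stab_WW (zero_notMem_Icc 4) d (Equiv.swap i j) (fun k hk => ?_) f hf
  apply Equiv.swap_apply_of_ne_of_ne
  · rintro rfl
    exact hk hi
  · rintro rfl
    exact hk hj

/-- The values of `E_k` on `t_m w`. -/
private theorem E_tt_w {j : ℕ} (hj : j ∈ Finset.Icc 1 4) {q w : FL F}
    (hwj : E j w = q) (hwi : ∀ i ∈ (Finset.Icc 1 4).erase j, E i w = 0)
    {m : ℕ} (hm : m ∈ (Finset.Icc 1 4).erase j) :
    E j (tt m w) = tt m q ∧ ∀ k ∈ (Finset.Icc 1 4).erase j, E k (tt m w) = 0 := by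
  have hm' := Finset.mem_erase.1 hm
  have hm0 := ne_zero_of_mem hm'.2
  have hj0 := ne_zero_of_mem hj
  constructor
  · rw [E_tt_ne hm0 hj0 hm'.1.symm, hwj]
  · intro k hk
    have hk' := Finset.mem_erase.1 hk
    have hk0 := ne_zero_of_mem hk'.2
    by_cases hkm : k = m
    · rw [hkm, E_tt_same hm0]
    · rw [E_tt_ne hm0 hk0 hkm, hwi k hk, map_zero]

/-- The values of `E_k` on `(i j) v` when only `E_j v` is nonzero. -/
private theorem E_swap_w {j : ℕ} (hj : j ∈ Finset.Icc 1 4) {v p : FL F}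
    (h1 : E j v = p) (h2 : ∀ k ∈ (Finset.Icc 1 4).erase j, E k v = 0)
    {i : ℕ} (hi : i ∈ (Finset.Icc 1 4).erase j) {k : ℕ} (hk : k ∈ Finset.Icc 1 4) :
    E k (ren (Equiv.swap i j) v) = if k = i then ren (Equiv.swap i j) p else 0 := by
  have hi' := Finset.mem_erase.1 hi
  rw [E_ren _ (swap_zero hi'.2 hj), Equiv.swap_inv]
  by_cases hki : k = i
  · rw [if_pos hki, hki, Equiv.swap_apply_left, h1]
  · rw [if_neg hki]
    by_cases hkj : k = j
    · rw [hkj, Equiv.swap_apply_right, h2 i hi, map_zero]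
    · rw [Equiv.swap_apply_of_ne_of_ne hki hkj, h2 k (Finset.mem_erase.2 ⟨hkj, hk⟩), map_zero]

/-- The relations of `w`: `D_j (t_m q) ≡ (d+1) t_m w - ∑_i (i j) t_m w` modulo `T`. -/
theorem D_rel [CharZero F] {T : Submodule F (FL F)} {d : ℕ} (h : LZ T 4 (d + 1)) {j : ℕ}
    (hj : j ∈ Finset.Icc 1 4) {q w : FL F} (hq : q ∈ KE ((Finset.Icc 1 4).erase j) (d + 1))
    (hw : w ∈ W 4 d) (hwj : E j w = q) (hwi : ∀ i ∈ (Finset.Icc 1 4).erase j, E i w = 0)
    {m : ℕ} (hm : m ∈ (Finset.Icc 1 4).erase j) :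
    D j (tt m q) - (((d + 2 : ℕ) : F) • tt m w
      - ∑ i ∈ (Finset.Icc 1 4).erase j, ren (Equiv.swap i j) (tt m w)) ∈ T := by
  classical
  have hjn : j ∉ (Finset.Icc 1 4).erase j := Finset.notMem_erase _ _
  have hj0 := ne_zero_of_mem hj
  have h0 := zero_notMem_erase j
  have hm' := Finset.mem_erase.1 hm
  have htq : tt m q ∈ KE ((Finset.Icc 1 4).erase j) (d + 2) := tt_KE hm h0 hq
  rw [mem_KE] at htq
  obtain ⟨e1, e2⟩ := E_tt_w hj hwj hwi hm
  have htw : tt m w ∈ W (F := F) 4 (d + 1) := tt_mem_W hm'.2 hw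
  apply eq_of_E h
  · exact D_mem_W hj htq.1
  · exact Submodule.sub_mem _ (Submodule.smul_mem _ _ htw) (Submodule.sum_mem _ fun i hi =>
      swap_mem_W (Finset.mem_of_mem_erase hi) hj htw)
  · intro k hk
    rw [map_sub, map_smul, map_sum,
      Finset.sum_congr rfl (fun i hi => E_swap_w hj e1 e2 hi hk)]
    by_cases hkj : k = j
    · rw [hkj, E_D_same hjn hj0 h0 htq.1, e1, Finset.sum_eq_zero, sub_zero]
      intro i hi
      rw [if_neg (Finset.ne_of_mem_erase hi).symm]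
    · have hkm : k ∈ (Finset.Icc 1 4).erase j := Finset.mem_erase.2 ⟨hkj, hk⟩
      rw [E_D_ne hkm hjn hj0 h0 htq.1, htq.2 k hkm, map_zero, zero_sub, e2 k hkm, smul_zero,
        zero_sub, Finset.sum_ite_eq, if_pos hkm]

/-- `S_{lj} q ≡ t_l w - (l j) t_l w` modulo `T`. -/
theorem S_rel [CharZero F] {T : Submodule F (FL F)} {d : ℕ} (h : LZ T 4 (d + 1)) {j : ℕ}
    (hj : j ∈ Finset.Icc 1 4) {q w : FL F} (hq : q ∈ KE ((Finset.Icc 1 4).erase j) (d + 1))
    (hw : w ∈ W 4 d) (hwj : E j w = q) (hwi : ∀ i ∈ (Finset.Icc 1 4).erase j, E i w = 0)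
    {l : ℕ} (hl : l ∈ (Finset.Icc 1 4).erase j) :
    ss l j q - (tt l w - ren (Equiv.swap l j) (tt l w)) ∈ T := by
  have hjn : j ∉ (Finset.Icc 1 4).erase j := Finset.notMem_erase _ _
  have hj0 := ne_zero_of_mem hj
  have h0 := zero_notMem_erase j
  have hl' := Finset.mem_erase.1 hl
  have hl0 := ne_zero_of_mem hl'.2
  have hq' := hq
  rw [mem_KE] at hq'
  obtain ⟨e1, e2⟩ := E_tt_w hj hwj hwi hl
  have htw : tt l w ∈ W (F := F) 4 (d + 1) := tt_mem_W hl'.2 hw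
  apply eq_of_E h
  · have h1 := ss_mem hl h0 hjn hj0 hq'.1
    rw [Finset.insert_erase hj] at h1
    exact h1
  · exact Submodule.sub_mem _ htw (swap_mem_W hl'.2 hj htw)
  · intro k hk
    rw [map_sub, E_swap_w hj e1 e2 hl hk]
    by_cases hkj : k = j
    · rw [hkj, E_ss_new hl h0 hjn hj0 hq'.1, e1, if_neg hl'.1.symm, sub_zero]
    · have hkm : k ∈ (Finset.Icc 1 4).erase j := Finset.mem_erase.2 ⟨hkj, hk⟩
      rw [e2 k hkm, zero_sub]
      by_cases hkl : k = l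
      · rw [hkl, if_pos rfl, E_ss_old hl h0 hjn hj0 hq'.1, ren_tt _ (swap_zero hl'.2 hj),
          Equiv.swap_apply_left]
      · rw [if_neg hkl, neg_zero, E_ss_other (ne_zero_of_mem hk) hkl hkj hl0, hq'.2 k hkm,
          map_zero]

/-- `[q, y_j] ≡ ∑_m t_m w` modulo `T`. -/
theorem Y_rel [CharZero F] {T : Submodule F (FL F)} {d : ℕ} (h : LZ T 4 (d + 1)) {j : ℕ}
    (hj : j ∈ Finset.Icc 1 4) {q w : FL F} (hq : q ∈ KE ((Finset.Icc 1 4).erase j) (d + 1))
    (hw : w ∈ W 4 d) (hwj : E j w = q) (hwi : ∀ i ∈ (Finset.Icc 1 4).erase j, E i w = 0) :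
    ⁅q, X F j⁆ - ∑ m ∈ (Finset.Icc 1 4).erase j, tt m w ∈ T := by
  have hjn : j ∉ (Finset.Icc 1 4).erase j := Finset.notMem_erase _ _
  have hj0 := ne_zero_of_mem hj
  have h0 := zero_notMem_erase j
  have hq' := hq
  rw [mem_KE] at hq'
  apply eq_of_E h
  · have h1 := lie_X_mem_WW hjn hq'.1
    rw [Finset.insert_erase hj] at h1
    exact h1
  · exact Submodule.sum_mem _ fun m hm => tt_mem_W (Finset.mem_of_mem_erase hm) hw
  · intro k hk
    rw [map_sum]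
    by_cases hkj : k = j
    · have hEq : E j q = 0 := dd_eq_zero 0 hq'.1 (notMem_cont hjn hj0)
      rw [hkj, E_lie_y_same, hEq, zero_lie, zero_add, lie_x h0 hq'.1]
      exact Finset.sum_congr rfl fun m hm => (E_tt_w hj hwj hwi hm).1.symm
    · have hkm : k ∈ (Finset.Icc 1 4).erase j := Finset.mem_erase.2 ⟨hkj, hk⟩
      rw [E_lie_y_ne (Ne.symm hkj), hq'.2 k hkm, zero_lie, Finset.sum_eq_zero]
      intro m hm
      exact (E_tt_w hj hwj hwi hm).2 k hkm

/-- `t_j w ∈ T`: it is a highest weight vector. -/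
theorem tj_mem [CharZero F] {T : Submodule F (FL F)} {d : ℕ} (h : LZ T 4 (d + 1)) {j : ℕ}
    (hj : j ∈ Finset.Icc 1 4) {w : FL F}
    (hw : w ∈ W 4 d) (hwi : ∀ i ∈ (Finset.Icc 1 4).erase j, E i w = 0) : tt j w ∈ T := by
  apply h
  rw [mem_KE]
  refine ⟨tt_mem_W hj hw, fun k hk => ?_⟩
  have hj0 := ne_zero_of_mem hj
  by_cases hkj : k = j
  · rw [hkj, E_tt_same hj0]
  · rw [E_tt_ne hj0 (ne_zero_of_mem hk) hkj, hwi k (Finset.mem_erase.2 ⟨hkj, hk⟩), map_zero]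

/-- The key relation: with `Γ = t_l t_m w`, `l, m ≠ j`, and `Z = Lam 4 (d+2) + T`:
`(d + 3) Γ - ∑_{i ≠ j} (i j) Γ ∈ Z`.

Proof.  Apply `t_l` to `D_rel`: `t_l (i j) = (i j) t_l` for `i ≠ l`, `t_l (l j) = (l j) t_j` and
`t_j t_m w ∈ T` (`tj_mem`), so `t_l D_j (t_m q) ≡ (d+2) Γ - ∑_{i ≠ j, l} (i j) Γ` modulo `T`.  By
`D_tt`, `t_l D_j (t_m q) = D_j (t_l t_m q) - S_{lj} (t_m q)` and `D_j (t_l t_m q) ∈ Lam`.  If
`m ≠ l`: `S_{lj} (t_m q) = t_m S_{lj} q ≡ t_m t_l w - (l j) t_m t_l w` by `S_rel`.  If `m = l`: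
`S_{lj} (t_l q) = (t_l + t_j) S_{lj} q ≡ t_l t_l w - (l j) t_l t_l w`, since
`t_j t_l w ∈ T`, `t_l (l j) t_l w = (l j) t_j t_l w ∈ T` and `t_j (l j) t_l w = (l j) t_l t_l w`. -/
theorem key_rel [CharZero F] {T : Submodule F (FL F)} (hT : IsTIdeal F T) {d : ℕ}
    (h : LZ T 4 (d + 1)) {j : ℕ}
    (hj : j ∈ Finset.Icc 1 4) {q w : FL F} (hq : q ∈ KE ((Finset.Icc 1 4).erase j) (d + 1))
    (hw : w ∈ W 4 d) (hwj : E j w = q) (hwi : ∀ i ∈ (Finset.Icc 1 4).erase j, E i w = 0)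
    {l m : ℕ} (hl : l ∈ (Finset.Icc 1 4).erase j) (hm : m ∈ (Finset.Icc 1 4).erase j) :
    ((d + 3 : ℕ) : F) • tt l (tt m w)
      - ∑ i ∈ (Finset.Icc 1 4).erase j, ren (Equiv.swap i j) (tt l (tt m w))
      ∈ Lam (Finset.Icc 1 4) (d + 2) ⊔ T := by
  classical
  have hjn : j ∉ (Finset.Icc 1 4).erase j := Finset.notMem_erase _ _
  have hj0 := ne_zero_of_mem hj
  have h0 := zero_notMem_erase j
  have hl' := Finset.mem_erase.1 hl
  have hm' := Finset.mem_erase.1 hm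
  have hl0 := ne_zero_of_mem hl'.2
  have hm0 := ne_zero_of_mem hm'.2
  have hq' := hq
  rw [mem_KE] at hq'
  have htq : tt m q ∈ WW (F := F) ((Finset.Icc 1 4).erase j) (d + 2) := tt_mem hm h0 hq'.1
  -- `t_j w ∈ T`
  have hjT : tt j w ∈ T := tj_mem h hj hw hwi
  have hjmT : ∀ m' ∈ (Finset.Icc 1 4).erase j, tt j (tt m' w) ∈ T := by
    intro m' hm2
    rw [tt_comm hj0 (ne_zero_of_mem (Finset.mem_of_mem_erase hm2))]
    exact hT.tt_mem _ hjT
  -- `t_l` of `D_rel`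
  have a1 := hT.tt_mem l (D_rel h hj hq hw hwj hwi hm)
  rw [map_sub, map_sub, map_smul, map_sum] at a1
  have a2 : ∀ i ∈ (Finset.Icc 1 4).erase j, tt l (ren (Equiv.swap i j) (tt m w)) =
      if i = l then ren (Equiv.swap l j) (tt j (tt m w))
      else ren (Equiv.swap i j) (tt l (tt m w)) := by
    intro i hi
    have hi' := Finset.mem_erase.1 hi
    split_ifs with hil
    · rw [hil, ren_tt (Equiv.swap l j) (swap_zero hl'.2 hj) j (tt m w), Equiv.swap_apply_right]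
    · rw [ren_tt (Equiv.swap i j) (swap_zero hi'.2 hj) l (tt m w),
        Equiv.swap_apply_of_ne_of_ne (Ne.symm hil) hl'.1]
  rw [Finset.sum_congr rfl a2] at a1
  have a3 : ∑ i ∈ (Finset.Icc 1 4).erase j, (if i = l then ren (Equiv.swap l j) (tt j (tt m w))
      else ren (Equiv.swap i j) (tt l (tt m w))) =
      ∑ i ∈ (Finset.Icc 1 4).erase j, ren (Equiv.swap i j) (tt l (tt m w)) -
        ren (Equiv.swap l j) (tt l (tt m w)) + ren (Equiv.swap l j) (tt j (tt m w)) := by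
    rw [← Finset.add_sum_erase _ _ hl, ← Finset.add_sum_erase _ (fun i =>
      ren (Equiv.swap i j) (tt l (tt m w))) hl, if_pos rfl]
    have a4 : ∀ i ∈ ((Finset.Icc 1 4).erase j).erase l,
        (if i = l then ren (Equiv.swap l j) (tt j (tt m w))
          else ren (Equiv.swap i j) (tt l (tt m w))) = ren (Equiv.swap i j) (tt l (tt m w)) :=
      fun i hi => if_neg (Finset.ne_of_mem_erase hi)
    rw [Finset.sum_congr rfl a4]
    abel
  rw [a3] at a1
  have a5 : ren (Equiv.swap l j) (tt j (tt m w)) ∈ T := hT.ren_mem _ (hjmT m hm)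
  -- `S_{lj} (t_m q) ≡ Γ - (l j) Γ`
  have b1 : ss l j (tt m q) - (tt l (tt m w) - ren (Equiv.swap l j) (tt l (tt m w))) ∈ T := by
    have hS := S_rel h hj hq hw hwj hwi hl
    by_cases hml : m = l
    · rw [hml, ss_tt_same hl h0 hjn hj0 hq'.1]
      have c1 := hT.tt_mem l hS
      have c2 := hT.tt_mem j hS
      rw [map_sub, map_sub] at c1 c2
      have c3 : tt l (ren (Equiv.swap l j) (tt l w)) ∈ T := by
        have c5 : tt l (ren (Equiv.swap l j) (tt l w)) =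
            ren (Equiv.swap l j) (tt j (tt l w)) := by
          rw [ren_tt (Equiv.swap l j) (swap_zero hl'.2 hj) j (tt l w), Equiv.swap_apply_right]
        rw [c5]
        exact hT.ren_mem _ (hjmT l hl)
      have c4 : tt j (ren (Equiv.swap l j) (tt l w)) =
          ren (Equiv.swap l j) (tt l (tt l w)) := by
        rw [ren_tt _ (swap_zero hl'.2 hj) l (tt l w), Equiv.swap_apply_left]
      rw [c4] at c2
      have c6 := T.sub_mem (T.add_mem (T.add_mem c1 c2) (hjmT l hl)) c3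
      convert c6 using 1
      abel
    · rw [ss_tt_comm hm0 hl0 hml hm'.1]
      have c1 := hT.tt_mem m hS
      rw [map_sub, map_sub, ren_tt _ (swap_zero hl'.2 hj) l w] at c1
      convert c1 using 1
      rw [tt_comm hm0 hl0 w, ren_tt _ (swap_zero hl'.2 hj) l (tt m w),
        ren_tt _ (swap_zero hl'.2 hj) m w, Equiv.swap_apply_left,
        Equiv.swap_apply_of_ne_of_ne hml hm'.1, tt_comm hm0 hj0]
  -- `D_j (t_l t_m q) ∈ Lam`
  have d1 : D j (tt l (tt m q)) ∈ Lam (F := F) (Finset.Icc 1 4) (d + 2) :=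
    D_mem_Lam hj (tt_mem hl h0 htq)
  rw [D_tt hl h0 hjn hj0 htq] at d1
  have f1 : tt l (D j (tt m q)) - (((d + 2 : ℕ) : F) • tt l (tt m w) -
      (∑ i ∈ (Finset.Icc 1 4).erase j, ren (Equiv.swap i j) (tt l (tt m w)) -
        ren (Equiv.swap l j) (tt l (tt m w)))) ∈ T := by
    have f2 := T.sub_mem a1 a5
    convert f2 using 1
    abel
  have g1 := Submodule.sub_mem _ (Submodule.mem_sup_left (T := T) d1)
    (Submodule.mem_sup_right (S := Lam (F := F) (Finset.Icc 1 4) (d + 2)) (T.add_mem f1 b1))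
  convert g1 using 1
  have g2 : ((d + 3 : ℕ) : F) = ((d + 2 : ℕ) : F) + 1 := by push_cast; ring
  rw [g2, add_smul, one_smul]
  abel

/-- THEOREM B. -/
theorem LZ4_succ [CharZero F] {T : Submodule F (FL F)} (hT : IsTIdeal F T) {d : ℕ} (hd : 3 ≤ d)
    (h : LZ T 4 (d + 1)) : LZ T 4 (d + 2) := by
  intro f hf
  have hf' := hf
  rw [mem_KE] at hf'
  apply mem_T_of_KE' hT (zero_notMem_Icc 4) hf
  have h1 := prop_lemma hT (k := 4) (d := d + 1) (by norm_num) h hf'.1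
  revert h1
  suffices h2 : Lam (Finset.Icc 1 4) (d + 1 + 1) ⊔ T ⊔
      ⨆ j ∈ Finset.Icc 1 4, (KE ((Finset.Icc 1 4).erase j) (d + 1 + 1)).map (lieBy (X F j)) ≤
      Lam (Finset.Icc 1 4) (d + 2) ⊔ T from fun h3 => h2 h3
  refine sup_le le_rfl (iSup₂_le fun j hj => ?_)
  have hZ : Stab (Finset.Icc 1 4) (Lam (F := F) (Finset.Icc 1 4) (d + 2) ⊔ T) :=
    stab_sup (stab_Lam (zero_notMem_Icc 4) _) (stab_T hT _)
  obtain ⟨e, rfl⟩ : ∃ e, d = e + 1 := ⟨d - 1, by omega⟩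
  have h3 : KE (F := F) ((Finset.Icc 1 4).erase j) (e + 3) ≤ _ :=
    gen3_step (zero_notMem_erase j)
    (by rw [Finset.card_erase_of_mem hj, Nat.card_Icc]) (d := e)
  rw [Submodule.map_le_iff_le_comap]
  refine le_trans h3 (iSup₂_le fun l hl => ?_)
  rintro _ ⟨q, hq, rfl⟩
  rw [Submodule.mem_comap]
  have hq1 : q ∈ KE (F := F) ((Finset.Icc 1 4).erase j) (e + 1 + 1) := hq
  obtain ⟨w, hw, hwj, hwi⟩ := lift4 (F := F) hd hj hq1
  have hl' := Finset.mem_erase.1 hl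
  have h5 : lieBy (X F j) (tt l q) = tt l ⁅q, X F j⁆ := by
    rw [LieHom.map_lie, tt_X_ne hl'.1.symm]
    rfl
  change lieBy (X F j) (tt l q) ∈ _
  rw [h5]
  have h6 := hT.tt_mem l (Y_rel h hj hq1 hw hwj hwi)
  rw [map_sub, map_sum] at h6
  have h7 : ∑ m ∈ (Finset.Icc 1 4).erase j, tt l (tt m w) ∈
      Lam (F := F) (Finset.Icc 1 4) (e + 1 + 2) ⊔ T := by
    refine Submodule.sum_mem _ fun m hm => ?_
    exact mem_of_jm (N := e + 1 + 3) (by omega) hj hZ (key_rel hT h hj hq1 hw hwj hwi hl hm)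
  have h8 := Submodule.add_mem _ (Submodule.mem_sup_right
    (S := Lam (F := F) (Finset.Icc 1 4) (e + 1 + 2)) h6) h7
  rw [sub_add_cancel] at h8
  exact h8

/-- All levels `k ≥ 4` in degrees `≥ 8` are zero if they are in degree `8`. -/
theorem LZ_all [CharZero F] {T : Submodule F (FL F)} (hT : IsTIdeal F T)
    (h44 : LZ T 4 4) (h53 : LZ T 5 3) (h62 : LZ T 6 2) {k d : ℕ} (hk : 4 ≤ k)
    (hkd : 8 ≤ k + d) : LZ T k d := by
  have key : ∀ k, 4 ≤ k → ∀ d, 8 ≤ k + d → LZ T k d := by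
    intro k hk
    induction k, hk using Nat.le_induction with
    | base =>
      intro d hd
      obtain ⟨e, rfl⟩ : ∃ e, d = e + 4 := ⟨d - 4, by omega⟩
      clear hd
      induction e with
      | zero => exact h44
      | succ e ih => exact LZ4_succ hT (d := e + 3) (by omega) ih
    | succ k hk ihk =>
      intro d
      induction d with
      | zero =>
        intro _
        exact LZ_zero_right hT (by omega)
      | succ d ihd =>
        intro hd
        by_cases h8 : 8 ≤ k + 1 + d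
        · exact LZ_succ_of_LZ hT (ihd h8) (ihk (d + 1) (by omega))
        · have hkd : k + 1 + (d + 1) = 8 := by omega
          rcases Nat.lt_or_ge k 5 with h5 | h5
          · obtain rfl : k = 4 := by omega
            obtain rfl : d = 2 := by omega
            exact h53
          · rcases Nat.lt_or_ge k 6 with h6 | h6
            · obtain rfl : k = 5 := by omega
              obtain rfl : d = 1 := by omega
              exact h62
            · obtain rfl : k = 6 := by omega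
              obtain rfl : d = 0 := by omega
              exact LZ_one_right hT (by norm_num)
  exact key k hk d hkd

end

end Pool.Agent.Lib.MP_b4a71d_al
end

section

/-!
# The point H: even levels, `d = 2`
-/

set_option autoImplicit false

namespace Pool.Agent.Lib.MP_b4a71d_al

universe u

noncomputable section

variable {F : Type u} [Field F]

/-- Linear algebra on the complete graph: a function on the edges with all vertex sums zero and
`e i j + e c d = e i c + e j d` is zero.  Proof: `e i j - e i c = e d j - e d c` does not depend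
on `i`; sum over `i ∉ {j, c}`: `(k - 2) (e i j - e i c) = (0 - e c j) - (0 - e j c) = 0`; so all
`e i j` are equal, and `(k - 1) e i j = 0`. -/
theorem edge_zero [CharZero F] {k : ℕ} (hk : 4 ≤ k) (e : ℕ → ℕ → F)
    (hsymm : ∀ i ∈ Finset.Icc 1 k, ∀ j ∈ Finset.Icc 1 k, i ≠ j → e i j = e j i)
    (hsum : ∀ i ∈ Finset.Icc 1 k, ∑ j ∈ (Finset.Icc 1 k).erase i, e i j = 0)
    (h4 : ∀ i ∈ Finset.Icc 1 k, ∀ j ∈ Finset.Icc 1 k, ∀ c ∈ Finset.Icc 1 k,
      ∀ d ∈ Finset.Icc 1 k, i ≠ j → i ≠ c → i ≠ d → j ≠ c → j ≠ d → c ≠ d →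
      e i j + e c d = e i c + e j d) :
    ∀ i ∈ Finset.Icc 1 k, ∀ j ∈ Finset.Icc 1 k, i ≠ j → e i j = 0 := by
  set Y := Finset.Icc 1 k with hY
  have hcard : Y.card = k := by rw [hY, Nat.card_Icc, Nat.add_sub_cancel]
  -- the difference does not depend on the vertex
  have key : ∀ i ∈ Y, ∀ j ∈ Y, ∀ c ∈ Y, i ≠ j → i ≠ c → j ≠ c → e i j = e i c := by
    intro i hi j hj c hc hij hic hjc
    have hcon : ∀ d ∈ (Y.erase j).erase c, e d j - e d c = e i j - e i c := by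
      intro d hd
      obtain ⟨hdc, hd1⟩ := Finset.mem_erase.1 hd
      obtain ⟨hdj, hdY⟩ := Finset.mem_erase.1 hd1
      rcases eq_or_ne d i with rfl | hdi
      · rfl
      · have h1 := h4 i hi j hj c hc d hdY hij hic (Ne.symm hdi) hjc (Ne.symm hdj) (Ne.symm hdc)
        rw [hsymm c hc d hdY (Ne.symm hdc), hsymm j hj d hdY (Ne.symm hdj)] at h1
        linear_combination (-1 : F) * h1
    have hs1 : ∑ d ∈ (Y.erase j).erase c, e d j = - e c j := by
      have h1 := hsum j hj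
      have hcm : c ∈ Y.erase j := Finset.mem_erase.2 ⟨Ne.symm hjc, hc⟩
      rw [← Finset.add_sum_erase _ _ hcm] at h1
      have h2 : ∑ d ∈ (Y.erase j).erase c, e d j = ∑ d ∈ (Y.erase j).erase c, e j d := by
        refine Finset.sum_congr rfl fun d hd => ?_
        obtain ⟨hdc, hd1⟩ := Finset.mem_erase.1 hd
        obtain ⟨hdj, hdY⟩ := Finset.mem_erase.1 hd1
        exact hsymm d hdY j hj hdj
      rw [h2, hsymm c hc j hj (Ne.symm hjc)]
      linear_combination h1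
    have hs2 : ∑ d ∈ (Y.erase j).erase c, e d c = - e j c := by
      have h1 := hsum c hc
      have hjm : j ∈ Y.erase c := Finset.mem_erase.2 ⟨hjc, hj⟩
      rw [← Finset.add_sum_erase _ _ hjm] at h1
      have h3 : (Y.erase j).erase c = (Y.erase c).erase j := Finset.erase_right_comm
      have h2 : ∑ d ∈ (Y.erase j).erase c, e d c = ∑ d ∈ (Y.erase c).erase j, e c d := by
        rw [h3]
        refine Finset.sum_congr rfl fun d hd => ?_
        obtain ⟨hdj, hd1⟩ := Finset.mem_erase.1 hd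
        obtain ⟨hdc, hdY⟩ := Finset.mem_erase.1 hd1
        exact hsymm d hdY c hc hdc
      rw [h2, hsymm j hj c hc hjc]
      linear_combination h1
    have hs3 : ∑ d ∈ (Y.erase j).erase c, (e d j - e d c) = 0 := by
      rw [Finset.sum_sub_distrib, hs1, hs2, hsymm c hc j hj (Ne.symm hjc)]
      ring
    rw [Finset.sum_congr rfl hcon, Finset.sum_const, nsmul_eq_mul] at hs3
    have hne : ((Y.erase j).erase c).card ≠ 0 := by
      have h1 : i ∈ (Y.erase j).erase c := Finset.mem_erase.2 ⟨hic, Finset.mem_erase.2 ⟨hij, hi⟩⟩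
      exact Finset.card_ne_zero_of_mem h1
    have hne' : (((Y.erase j).erase c).card : F) ≠ 0 := Nat.cast_ne_zero.2 hne
    exact sub_eq_zero.1 ((mul_eq_zero.1 hs3).resolve_left hne')
  intro i hi j hj hij
  have h1 := hsum i hi
  have h2 : ∀ c ∈ Y.erase i, e i c = e i j := by
    intro c hc
    obtain ⟨hci, hcY⟩ := Finset.mem_erase.1 hc
    rcases eq_or_ne c j with rfl | hcj
    · rfl
    · exact key i hi c hcY j hj (Ne.symm hci) hij hcj
  rw [Finset.sum_congr rfl h2, Finset.sum_const, nsmul_eq_mul] at h1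
  have hne : (Y.erase i).card ≠ 0 :=
    Finset.card_ne_zero_of_mem (Finset.mem_erase.2 ⟨Ne.symm hij, hj⟩)
  exact (mul_eq_zero.1 h1).resolve_left (Nat.cast_ne_zero.2 hne)

/-! ### Permutations -/

private theorem c4_zero {k : ℕ} {σ : Equiv.Perm ℕ} (hσ : σ ∈ Sk k) : σ 0 = 0 :=
  hσ 0 (zero_notMem_Icc k)

private theorem c4_one {k : ℕ} : (1 : Equiv.Perm ℕ) ∈ Sk k := fun _ _ => rfl

private theorem c4_mul {k : ℕ} {σ τ : Equiv.Perm ℕ} (hσ : σ ∈ Sk k) (hτ : τ ∈ Sk k) :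
    σ * τ ∈ Sk k := fun i hi => by
  rw [Equiv.Perm.mul_apply, hτ i hi, hσ i hi]

private theorem c4_swap {k i j : ℕ} (hi : i ∈ Finset.Icc 1 k) (hj : j ∈ Finset.Icc 1 k) :
    Equiv.swap i j ∈ Sk k := fun l hl =>
  Equiv.swap_apply_of_ne_of_ne (by rintro rfl; exact hl hi) (by rintro rfl; exact hl hj)

private theorem c4_inv {k : ℕ} {σ : Equiv.Perm ℕ} (hσ : σ ∈ Sk k) : σ⁻¹ ∈ Sk k := fun i hi => by
  rw [Equiv.Perm.inv_eq_iff_eq]
  exact (hσ i hi).symm

private theorem c4_mem {k i : ℕ} {σ : Equiv.Perm ℕ} (hσ : σ ∈ Sk k) (hi : i ∈ Finset.Icc 1 k) :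
    σ i ∈ Finset.Icc 1 k := by
  have h := image_eq_of_fix σ hσ
  rw [← h]
  exact Finset.mem_image_of_mem _ hi

private theorem c4_step {k : ℕ} {σ : Equiv.Perm ℕ} (hσ : σ ∈ Sk k) {a t : ℕ}
    (ha : a ∈ Finset.Icc 1 k) (ht : t ∈ Finset.Icc 1 k) :
    ∃ σ' ∈ Sk k, σ' a = t ∧ ∀ b, b ≠ a → σ b ≠ t → σ' b = σ b := by
  refine ⟨σ * Equiv.swap a (σ⁻¹ t), c4_mul hσ (c4_swap ha (c4_mem (c4_inv hσ) ht)), ?_, ?_⟩
  · rw [Equiv.Perm.mul_apply, Equiv.swap_apply_left]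
    simp
  · intro b hb hbt
    rw [Equiv.Perm.mul_apply, Equiv.swap_apply_of_ne_of_ne hb]
    rintro rfl
    exact hbt (by simp)

private theorem c4_two {k i j : ℕ} (hk : 2 ≤ k) (hi : i ∈ Finset.Icc 1 k)
    (hj : j ∈ Finset.Icc 1 k) (hij : i ≠ j) : ∃ σ ∈ Sk k, σ 1 = i ∧ σ 2 = j := by
  have m1 : 1 ∈ Finset.Icc 1 k := Finset.mem_Icc.2 ⟨le_rfl, by omega⟩
  have m2 : 2 ∈ Finset.Icc 1 k := Finset.mem_Icc.2 ⟨by omega, hk⟩
  obtain ⟨s1, h1, h1a, -⟩ := c4_step (c4_one (k := k)) m1 hi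
  obtain ⟨s2, h2, h2a, h2b⟩ := c4_step h1 m2 hj
  exact ⟨s2, h2, by rw [h2b 1 (by norm_num) (by rw [h1a]; exact hij), h1a], h2a⟩

private theorem c4_four {k i j c d : ℕ} (hk : 4 ≤ k) (hi : i ∈ Finset.Icc 1 k)
    (hj : j ∈ Finset.Icc 1 k) (hc : c ∈ Finset.Icc 1 k) (hd : d ∈ Finset.Icc 1 k)
    (hij : i ≠ j) (hic : i ≠ c) (hid : i ≠ d) (hjc : j ≠ c) (hjd : j ≠ d) (hcd : c ≠ d) :
    ∃ σ ∈ Sk k, σ 1 = i ∧ σ 2 = j ∧ σ 3 = c ∧ σ 4 = d := by
  have m3 : 3 ∈ Finset.Icc 1 k := Finset.mem_Icc.2 ⟨by omega, by omega⟩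
  have m4 : 4 ∈ Finset.Icc 1 k := Finset.mem_Icc.2 ⟨by omega, by omega⟩
  obtain ⟨s2, h2, h2a, h2b⟩ := c4_two (by omega : 2 ≤ k) hi hj hij
  obtain ⟨s3, h3, h3a, h3b⟩ := c4_step h2 m3 hc
  obtain ⟨s4, h4, h4a, h4b⟩ := c4_step h3 m4 hd
  have e1 : s3 1 = i := by rw [h3b 1 (by norm_num) (by rw [h2a]; exact hic), h2a]
  have e2 : s3 2 = j := by rw [h3b 2 (by norm_num) (by rw [h2b]; exact hjc), h2b]
  refine ⟨s4, h4, ?_, ?_, ?_, h4a⟩
  · rw [h4b 1 (by norm_num) (by rw [e1]; exact hid), e1]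
  · rw [h4b 2 (by norm_num) (by rw [e2]; exact hjd), e2]
  · rw [h4b 3 (by norm_num) (by rw [h3a]; exact hcd), h3a]

/-! ### The vector -/

private theorem c4_g2 (i j : ℕ) : g2 F i j 1 = ⁅⁅X F i, X F 0⁆, ⁅X F j, X F 0⁆⁆ := by
  rw [g2, yx_succ, yx_zero]

private theorem c4_skew (i j : ℕ) : g2 F j i 1 = - g2 F i j 1 := by
  rw [c4_g2, c4_g2, lie_skew]

private theorem c4_G3 (i j : ℕ) : g2 F i j 1 ∈ G3 F := by
  rw [c4_g2]
  exact Submodule.subset_span ⟨_, _, _, rfl⟩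

private theorem c4_ren (σ : Equiv.Perm ℕ) (h0 : σ 0 = 0) (i j : ℕ) :
    ren σ (g2 F i j 1) = g2 F (σ i) (σ j) 1 := by
  rw [c4_g2, c4_g2]
  simp only [LieHom.map_lie, ren_X, h0]

variable (F) in
private def c4_F (k : ℕ) : FL F := Cl (List.range' 3 (k - 2)) (g2 F 1 2 1)

private theorem c4_len {k : ℕ} (hk : Even k) : Even (List.range' 3 (k - 2)).length := by
  rw [List.length_range']
  obtain ⟨r, rfl⟩ := hk
  exact ⟨r - 1, by omega⟩

private theorem c4_nodup (k : ℕ) : (List.range' 3 (k - 2)).Nodup := List.nodup_range' 1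

private theorem c4_mem_range {k a : ℕ} (hk : 2 ≤ k) :
    a ∈ List.range' 3 (k - 2) ↔ a ∈ Finset.Icc 3 k := by
  rw [List.mem_range'_1, Finset.mem_Icc]
  omega

private theorem c4_renF (k : ℕ) (σ : Equiv.Perm ℕ) (h0 : σ 0 = 0) :
    ren σ (c4_F F k) = Cl ((List.range' 3 (k - 2)).map σ) (g2 F (σ 1) (σ 2) 1) := by
  rw [c4_F, ren_Cl, c4_ren σ h0]

private theorem c4_Fswap [CharZero F] {T : Submodule F (FL F)} (h : HT T) {k : ℕ} (hk : Even k)
    (hk2 : 2 ≤ k) {a b : ℕ} (ha : a ∈ Finset.Icc 3 k) (hb : b ∈ Finset.Icc 3 k) (hab : a ≠ b) :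
    ren (Equiv.swap a b) (c4_F F k) + c4_F F k ∈ T := by
  have ha' := Finset.mem_Icc.1 ha
  have hb' := Finset.mem_Icc.1 hb
  rw [c4_renF _ _ (Equiv.swap_apply_of_ne_of_ne (by omega) (by omega)),
    Equiv.swap_apply_of_ne_of_ne (by omega : 1 ≠ a) (by omega : 1 ≠ b),
    Equiv.swap_apply_of_ne_of_ne (by omega : 2 ≠ a) (by omega : 2 ≠ b)]
  exact h.Cl_swap (c4_G3 1 2) (c4_len hk) (c4_nodup k) ((c4_mem_range hk2).2 ha)
    ((c4_mem_range hk2).2 hb) hab

/-- Permutations of `3, ..., k`. -/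
private theorem c4_P [CharZero F] {T : Submodule F (FL F)} (h : HT T) {k : ℕ} (hk : Even k)
    (hk2 : 2 ≤ k) {sg : Equiv.Perm ℕ → F} (hsg1 : sg 1 = 1)
    (hsgm : ∀ σ ∈ Sk k, ∀ τ ∈ Sk k, sg (σ * τ) = sg σ * sg τ)
    (hsgs : ∀ i ∈ Finset.Icc 1 k, ∀ j ∈ Finset.Icc 1 k, i ≠ j → sg (Equiv.swap i j) = -1)
    {ρ : Equiv.Perm ℕ} (hρ : ∀ i, i ∉ Finset.Icc 3 k → ρ i = i) :
    ren ρ (c4_F F k) - sg ρ • c4_F F k ∈ T := by
  have hsub : ∀ σ : Equiv.Perm ℕ, (∀ i, i ∉ Finset.Icc 3 k → σ i = i) → σ ∈ Sk k := by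
    intro σ hσ i hi
    apply hσ
    intro hi'
    apply hi
    rw [Finset.mem_Icc] at hi' ⊢
    omega
  have hsub' : ∀ i, i ∈ Finset.Icc 3 k → i ∈ Finset.Icc 1 k := by
    intro i hi
    rw [Finset.mem_Icc] at hi ⊢
    omega
  obtain ⟨g, rfl⟩ := exists_ofSubtype (Y := Finset.Icc 3 k) ρ hρ
  clear hρ
  induction g using Equiv.Perm.swap_induction_on with
  | one =>
    rw [map_one, hsg1, one_smul]
    have h1 : ren (⇑(1 : Equiv.Perm ℕ)) (c4_F F k) = c4_F F k := ren_id' _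
    rw [h1, sub_self]
    exact Submodule.zero_mem _
  | swap_mul f x y hxy ih =>
    have h1 : (Equiv.Perm.ofSubtype (Equiv.swap x y) : Equiv.Perm ℕ) =
        Equiv.swap (x : ℕ) (y : ℕ) := Equiv.Perm.ofSubtype_swap_eq _ _
    have hne : (x : ℕ) ≠ (y : ℕ) := fun h => hxy (Subtype.ext h)
    have h3 := h.isT.map_mem (ren (Equiv.swap (x : ℕ) (y : ℕ))) _ ih
    rw [map_sub, map_smul, ren_ren] at h3
    have h4 := T.smul_mem (sg (Equiv.Perm.ofSubtype f)) (c4_Fswap h hk hk2 x.2 y.2 hne)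
    have h5 := T.add_mem h3 h4
    have hf : (Equiv.Perm.ofSubtype f : Equiv.Perm ℕ) ∈ Sk k :=
      hsub _ fun i hi => ofSubtype_fix f hi
    have hs : (Equiv.swap (x : ℕ) (y : ℕ)) ∈ Sk k := c4_swap (hsub' _ x.2) (hsub' _ y.2)
    have h6 : sg (Equiv.Perm.ofSubtype (Equiv.swap x y * f)) =
        - sg (Equiv.Perm.ofSubtype f) := by
      rw [map_mul, h1, hsgm _ hs _ hf, hsgs _ (hsub' _ x.2) _ (hsub' _ y.2) hne]
      ring
    have h7 : (⇑(Equiv.swap (x : ℕ) (y : ℕ) * (Equiv.Perm.ofSubtype f : Equiv.Perm ℕ)) : ℕ → ℕ) =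
        (Equiv.swap (x : ℕ) (y : ℕ) : ℕ → ℕ) ∘ (Equiv.Perm.ofSubtype f : Equiv.Perm ℕ) := rfl
    rw [h6, map_mul, h1, h7]
    convert h5 using 1
    rw [smul_add, neg_smul]
    abel

/-- The signed images of the vector. -/
private def c4_G (sg : Equiv.Perm ℕ → F) (k : ℕ) (σ : Equiv.Perm ℕ) : FL F :=
  (sg σ)⁻¹ • ren σ (c4_F F k)

private theorem c4_sg_ne {k : ℕ} {sg : Equiv.Perm ℕ → F} (hsg1 : sg 1 = 1)
    (hsgm : ∀ σ ∈ Sk k, ∀ τ ∈ Sk k, sg (σ * τ) = sg σ * sg τ) {σ : Equiv.Perm ℕ}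
    (hσ : σ ∈ Sk k) : sg σ ≠ 0 := by
  intro h0
  have h1 := hsgm σ hσ σ⁻¹ (c4_inv hσ)
  rw [mul_inv_cancel, hsg1, h0, zero_mul] at h1
  exact one_ne_zero h1

private theorem c4_renG {k : ℕ} {sg : Equiv.Perm ℕ → F} (hsg1 : sg 1 = 1)
    (hsgm : ∀ σ ∈ Sk k, ∀ τ ∈ Sk k, sg (σ * τ) = sg σ * sg τ) {σ τ : Equiv.Perm ℕ}
    (hσ : σ ∈ Sk k) (hτ : τ ∈ Sk k) :
    ren σ (c4_G sg k τ) = sg σ • c4_G sg k (σ * τ) := by
  have h1 := c4_sg_ne hsg1 hsgm hσ
  have h2 := c4_sg_ne hsg1 hsgm hτ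
  rw [c4_G, c4_G, map_smul, ren_ren, hsgm σ hσ τ hτ, smul_smul, mul_inv,
    mul_inv_cancel_left₀ h1]
  rfl

/-- Well defined modulo `T`. -/
private theorem c4_wd [CharZero F] {T : Submodule F (FL F)} (h : HT T) {k : ℕ} (hk : Even k)
    (hk2 : 2 ≤ k) {sg : Equiv.Perm ℕ → F} (hsg1 : sg 1 = 1)
    (hsgm : ∀ σ ∈ Sk k, ∀ τ ∈ Sk k, sg (σ * τ) = sg σ * sg τ)
    (hsgs : ∀ i ∈ Finset.Icc 1 k, ∀ j ∈ Finset.Icc 1 k, i ≠ j → sg (Equiv.swap i j) = -1)
    {σ σ' : Equiv.Perm ℕ} (hσ : σ ∈ Sk k) (hσ' : σ' ∈ Sk k) (h1 : σ 1 = σ' 1)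
    (h2 : σ 2 = σ' 2) : c4_G sg k σ - c4_G sg k σ' ∈ T := by
  have hρS : σ⁻¹ * σ' ∈ Sk k := c4_mul (c4_inv hσ) hσ'
  have hρ : ∀ i, i ∉ Finset.Icc 3 k → (σ⁻¹ * σ') i = i := by
    intro i hi
    rcases eq_or_ne i 1 with rfl | hi1
    · rw [Equiv.Perm.mul_apply, ← h1]
      simp
    rcases eq_or_ne i 2 with rfl | hi2
    · rw [Equiv.Perm.mul_apply, ← h2]
      simp
    apply hρS
    intro hi'
    apply hi
    rw [Finset.mem_Icc] at hi' ⊢
    omega
  have h3 := c4_P h hk hk2 hsg1 hsgm hsgs hρ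
  have h4 := h.isT.map_mem (ren σ) _ h3
  have h5 := T.smul_mem (- (sg σ')⁻¹) h4
  have n1 := c4_sg_ne hsg1 hsgm hσ
  have n2 := c4_sg_ne hsg1 hsgm hσ'
  have n3 := c4_sg_ne hsg1 hsgm hρS
  have h6 : sg σ' = sg σ * sg (σ⁻¹ * σ') := by
    rw [← hsgm σ hσ _ hρS, mul_inv_cancel_left]
  have h7 : (σ : ℕ → ℕ) ∘ (⇑(σ⁻¹ * σ')) = σ' := by
    funext i
    simp
  convert h5 using 1
  rw [c4_G, c4_G, map_sub, map_smul, ren_ren, h7, smul_sub, smul_smul, neg_smul, neg_mul,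
    neg_smul, sub_neg_eq_add, neg_add_eq_sub]
  congr 2
  rw [h6, mul_inv, mul_assoc, inv_mul_cancel₀ n3, mul_one]

/-- The vector of the orbit. -/
private def c4_w (sg : Equiv.Perm ℕ → F) (k : ℕ) : FL F :=
  ∑ c ∈ Finset.Icc 2 k, c4_G sg k (Equiv.swap 2 c)

private theorem c4_in1 {k c : ℕ} (hk2 : 2 ≤ k) (hc : c ∈ Finset.Icc 2 k) :
    c ∈ Finset.Icc 1 k := by
  rw [Finset.mem_Icc] at hc ⊢
  omega

/-- Antisymmetry. -/
private theorem c4_anti [CharZero F] {T : Submodule F (FL F)} (h : HT T) {k : ℕ} (hk : Even k)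
    (hk2 : 2 ≤ k) {sg : Equiv.Perm ℕ → F} (hsg1 : sg 1 = 1)
    (hsgm : ∀ σ ∈ Sk k, ∀ τ ∈ Sk k, sg (σ * τ) = sg σ * sg τ)
    (hsgs : ∀ i ∈ Finset.Icc 1 k, ∀ j ∈ Finset.Icc 1 k, i ≠ j → sg (Equiv.swap i j) = -1)
    {i j : ℕ} (hi : i ∈ Finset.Icc 2 k) (hj : j ∈ Finset.Icc 2 k) (hij : i ≠ j) :
    ren (Equiv.swap i j) (c4_w sg k) + c4_w sg k ∈ T := by
  have m2 : 2 ∈ Finset.Icc 1 k := Finset.mem_Icc.2 ⟨by omega, hk2⟩
  have hi' := Finset.mem_Icc.1 hi
  have hj' := Finset.mem_Icc.1 hj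
  have hτ : Equiv.swap i j ∈ Sk k := c4_swap (c4_in1 hk2 hi) (c4_in1 hk2 hj)
  have h1 : ren (Equiv.swap i j) (c4_w sg k) =
      - ∑ c ∈ Finset.Icc 2 k, c4_G sg k (Equiv.swap i j * Equiv.swap 2 c) := by
    rw [c4_w, map_sum, ← Finset.sum_neg_distrib]
    refine Finset.sum_congr rfl fun c hc => ?_
    rw [c4_renG hsg1 hsgm hτ (c4_swap m2 (c4_in1 hk2 hc)), hsgs i (c4_in1 hk2 hi) j
      (c4_in1 hk2 hj) hij, neg_one_smul]
  have hmap : ∀ c ∈ Finset.Icc 2 k, Equiv.swap i j c ∈ Finset.Icc 2 k := by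
    intro c hc
    rw [Equiv.swap_apply_def]
    split_ifs
    · exact hj
    · exact hi
    · exact hc
  have h2 : c4_w sg k = ∑ c ∈ Finset.Icc 2 k, c4_G sg k (Equiv.swap 2 (Equiv.swap i j c)) := by
    rw [c4_w]
    have hss : ∀ c, Equiv.swap i j (Equiv.swap i j c) = c := fun c => by
      rw [← Equiv.Perm.mul_apply, Equiv.swap_mul_self, Equiv.Perm.one_apply]
    refine Finset.sum_nbij' (fun c => Equiv.swap i j c) (fun c => Equiv.swap i j c) hmap hmap
      (fun c _ => hss c) (fun c _ => hss c) ?_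
    intro c _
    show _ = c4_G sg k (Equiv.swap 2 (Equiv.swap i j (Equiv.swap i j c)))
    rw [hss]
  rw [h1, h2, neg_add_eq_sub, ← Finset.sum_sub_distrib]
  refine Submodule.sum_mem _ fun c hc => ?_
  have hc' := Finset.mem_Icc.1 hc
  have hc1 := hmap c hc
  have hc1' := Finset.mem_Icc.1 hc1
  refine c4_wd h hk hk2 hsg1 hsgm hsgs (c4_swap m2 (c4_in1 hk2 hc1))
    (c4_mul hτ (c4_swap m2 (c4_in1 hk2 hc))) ?_ ?_
  · rw [Equiv.Perm.mul_apply, Equiv.swap_apply_of_ne_of_ne (by omega) (by omega),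
      Equiv.swap_apply_of_ne_of_ne (by omega : 1 ≠ 2) (by omega : 1 ≠ c),
      Equiv.swap_apply_of_ne_of_ne (by omega) (by omega)]
  · rw [Equiv.Perm.mul_apply, Equiv.swap_apply_left, Equiv.swap_apply_left]

/-- R4 in the letters `1, 2, 3, 4`, followed by the other commutators. -/
private theorem c4_R4 [CharZero F] {T : Submodule F (FL F)} (h : HT T) {k : ℕ} (hk4 : 4 ≤ k) :
    c4_F F k + ren (Equiv.swap 1 3 * Equiv.swap 2 4 : Equiv.Perm ℕ) (c4_F F k)
      + ren (Equiv.swap 2 3 : Equiv.Perm ℕ) (c4_F F k)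
      + ren (Equiv.swap 2 3 * (Equiv.swap 1 3 * Equiv.swap 2 4) : Equiv.Perm ℕ) (c4_F F k) ∈ T := by
  obtain ⟨m, rfl⟩ := Nat.exists_eq_add_of_le' hk4
  have hl : List.range' 3 (m + 4 - 2) = 3 :: 4 :: List.range' 5 m := by
    rw [show m + 4 - 2 = m + 1 + 1 by omega, List.range'_succ, List.range'_succ]
  have hren : ∀ π : Equiv.Perm ℕ, π 0 = 0 → (∀ i, 5 ≤ i → π i = i) →
      ren π (c4_F F (m + 4)) = Cl (List.range' 5 m)
        ⁅⁅⁅X F (π 1), X F 0⁆, ⁅X F (π 2), X F 0⁆⁆, ⁅X F (π 3), X F (π 4)⁆⁆ := by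
    intro π h0 h5
    have hmap : (List.range' 5 m).map π = List.range' 5 m := by
      conv_rhs => rw [← List.map_id (List.range' 5 m)]
      refine List.map_congr_left fun a ha => ?_
      exact h5 a (List.mem_range'_1.1 ha).1
    rw [c4_renF _ _ h0, hl, List.map_cons, List.map_cons, hmap, c4_g2]
    rfl
  have hF : c4_F F (m + 4) = Cl (List.range' 5 m)
      ⁅⁅⁅X F 1, X F 0⁆, ⁅X F 2, X F 0⁆⁆, ⁅X F 3, X F 4⁆⁆ := by
    rw [c4_F, hl, c4_g2]
    rfl
  have hbig : ∀ a b i : ℕ, a < 5 → b < 5 → 5 ≤ i → Equiv.swap a b i = i := fun a b i ha hb hi =>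
    Equiv.swap_apply_of_ne_of_ne (by omega) (by omega)
  rw [hren _ (by decide) (fun i hi => by
      rw [Equiv.Perm.mul_apply, hbig 2 4 i (by omega) (by omega) hi,
        hbig 1 3 i (by omega) (by omega) hi]),
    hren (Equiv.swap 2 3) (by decide) (fun i hi => hbig 2 3 i (by omega) (by omega) hi),
    hren _ (by decide) (fun i hi => by
      rw [Equiv.Perm.mul_apply, Equiv.Perm.mul_apply, hbig 2 4 i (by omega) (by omega) hi,
        hbig 1 3 i (by omega) (by omega) hi, hbig 2 3 i (by omega) (by omega) hi]),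
    hF, ← map_add, ← map_add, ← map_add]
  exact Cl_T h.isT _ (h.R4 (X F 1) (X F 2) (X F 3) (X F 4) (X F 0))

private theorem c4_list {k : ℕ} (hk2 : 2 ≤ k) :
    ((1 :: 2 :: List.range' 3 (k - 2) : List ℕ) : Multiset ℕ) = (Finset.Icc 1 k).val := by
  rw [Multiset.Nodup.ext _ (Finset.Icc 1 k).nodup]
  · intro a
    rw [Multiset.mem_coe, List.mem_cons, List.mem_cons, List.mem_range'_1, Finset.mem_val,
      Finset.mem_Icc]
    omega
  · rw [Multiset.coe_nodup, List.nodup_cons, List.nodup_cons]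
    refine ⟨?_, ?_, c4_nodup k⟩
    · rw [List.mem_cons, List.mem_range'_1]
      omega
    · rw [List.mem_range'_1]
      omega

private theorem c4_F_mem {k : ℕ} (hk : Even k) (hk2 : 2 ≤ k) : c4_F F k ∈ W k 2 := by
  have h1 : g2 F 1 2 1 ∈ WW (F := F) {1, 2} 2 := by
    have h2 := lie_mem_homC (yx_mem (F := F) 1 1) (lie_mem_homC (X_mem (F := F) 2) (X_mem 0))
    have h3 : cont {1} 1 + ({2} + {0} : Multiset ℕ) = cont {1, 2} 2 := by decide
    rw [h3] at h2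
    exact h2
  refine Cl_WW (c4_len hk) ?_ h1
  rw [← c4_list hk2]
  have h4 : (({1, 2} : Finset ℕ).val : Multiset ℕ) = (([1, 2] : List ℕ) : Multiset ℕ) := rfl
  rw [h4, add_comm, Multiset.coe_add]
  rfl

private theorem c4_w_mem {k : ℕ} (hk : Even k) (hk2 : 2 ≤ k) (sg : Equiv.Perm ℕ → F) :
    c4_w sg k ∈ W k 2 := by
  refine Submodule.sum_mem _ fun c hc => Submodule.smul_mem _ _ ?_
  have m2 : 2 ∈ Finset.Icc 1 k := Finset.mem_Icc.2 ⟨by omega, hk2⟩
  have hs : Equiv.swap 2 c ∈ Sk k := c4_swap m2 (c4_in1 hk2 hc)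
  exact ren_WW _ (c4_zero hs) (image_eq_of_fix _ hs) (c4_F_mem hk hk2)

private theorem c4_F12 {k : ℕ} : ren (Equiv.swap 1 2 : Equiv.Perm ℕ) (c4_F F k) = - c4_F F k := by
  rw [c4_renF _ _ (by decide), Equiv.swap_apply_left, Equiv.swap_apply_right, c4_skew, map_neg,
    c4_F]
  have hmap : (List.range' 3 (k - 2)).map (Equiv.swap 1 2) = List.range' 3 (k - 2) := by
    conv_rhs => rw [← List.map_id (List.range' 3 (k - 2))]
    refine List.map_congr_left fun a ha => ?_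
    have h3 := (List.mem_range'_1.1 ha).1
    exact Equiv.swap_apply_of_ne_of_ne (by omega) (by omega)
  rw [hmap]

/-- Even `k ≥ 6`, `d = 2`.  `F12 = Cl [3, ..., k] (g2 1 2 1)`, `g2 1 2 1 = ⁅⁅y1,x⁆,⁅y2,x⁆⁆ ∈ γ₃`.
`w = F12 - ∑_{j = 3}^k ren (swap 2 j) F12`.
Antisymmetry of `w` modulo `T` in `2, ..., k`: for `a, b ≥ 3`: `Cl_swap` and
`(a b)(2 j) = (2 j)(a b)` or `(a b)(2 a) = (2 b)(a b)`; for `(2 b)`: `(2 b)(2 j) = (2 j)(b j)`.
Spanning: Lemma C gives the vectors `Cl l (g2 i j 1) = ren σ F12` (`exists_perm_list`); so it is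
enough that every functional `φ` which kills `T` and all `ren σ w`, `σ ∈ Sk k`, kills all
`ren σ F12`.  `sg σ * φ (ren σ F12)` depends only on `{σ 1, σ 2}` (right multiplication by
permutations of `{3, ..., k}`: `Cl_swap`; by `swap 1 2`: `g2 2 1 1 = - g2 1 2 1`); call it
`e (σ 1) (σ 2)`.  `w`: vertex sums zero; R4 followed by `Cl [5, ..., k]`: `e 1 2 + e 3 4 = e 1 3 +
e 2 4` and all its images under `S_k`.  `edge_zero`. -/
theorem HT.level_even_two [CharZero F] {T : Submodule F (FL F)} (h : HT T) {k : ℕ} (hk : Even k)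
    (hk6 : 6 ≤ k) : LevelGood T k 2 := by
  classical
  obtain ⟨sg, hsg1, hsgm, hsgs⟩ := exists_sgn F k
  have hk2 : 2 ≤ k := by omega
  have m1 : 1 ∈ Finset.Icc 1 k := Finset.mem_Icc.2 ⟨by omega, by omega⟩
  have m2 : 2 ∈ Finset.Icc 1 k := Finset.mem_Icc.2 ⟨by omega, by omega⟩
  have m3 : 3 ∈ Finset.Icc 1 k := Finset.mem_Icc.2 ⟨by omega, by omega⟩
  have m4 : 4 ∈ Finset.Icc 1 k := Finset.mem_Icc.2 ⟨by omega, by omega⟩
  refine levelGood_of_orbit h.isT (by omega) (c4_w_mem hk hk2 sg)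
    (fun i hi j hj hij =>
      Submodule.mem_sup_right (c4_anti h hk hk2 hsg1 hsgm hsgs hi hj hij)) ?_
  set R : Submodule F (FL F) := Lam (Finset.Icc 1 k) 2 ⊔ T
    ⊔ Submodule.span F {f | ∃ σ ∈ Sk k, f = ren σ (c4_w sg k)} with hR
  have hTR : T ≤ R := le_sup_of_le_left le_sup_right
  have hwR : ∀ σ ∈ Sk k, ren σ (c4_w sg k) ∈ R := fun σ hσ =>
    Submodule.mem_sup_right (Submodule.subset_span ⟨σ, hσ, rfl⟩)
  -- every image of the vector
  have hmain : ∀ σ ∈ Sk k, ren σ (c4_F F k) ∈ R := by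
    intro σ0 hσ0
    by_contra hcon
    obtain ⟨φ, hφ0, hφ⟩ := Submodule.exists_dual_map_eq_bot_of_notMem hcon inferInstance
    apply hφ0
    have hkill : ∀ x ∈ R, φ x = 0 := fun x hx => by
      have h1 : φ x ∈ Submodule.map φ R := Submodule.mem_map_of_mem hx
      rw [hφ] at h1
      exact (Submodule.mem_bot F).1 h1
    obtain ⟨e, hed⟩ : ∃ e : ℕ → ℕ → F, ∀ i j, e i j =
        if h : ∃ σ ∈ Sk k, σ 1 = i ∧ σ 2 = j then φ (c4_G sg k h.choose) else 0 :=
      ⟨_, fun _ _ => rfl⟩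
    have he : ∀ σ ∈ Sk k, e (σ 1) (σ 2) = φ (c4_G sg k σ) := by
      intro σ hσ
      have hex : ∃ σ' ∈ Sk k, σ' 1 = σ 1 ∧ σ' 2 = σ 2 := ⟨σ, hσ, rfl, rfl⟩
      rw [hed, dif_pos hex]
      obtain ⟨s1, s2, s3⟩ := hex.choose_spec
      have h1 := hkill _ (hTR (c4_wd h hk hk2 hsg1 hsgm hsgs s1 hσ s2 s3))
      rw [map_sub] at h1
      exact sub_eq_zero.1 h1
    have hmul : ∀ σ ∈ Sk k, ∀ π ∈ Sk k, φ (ren σ (ren π (c4_F F k))) =
        sg σ * sg π * φ (c4_G sg k (σ * π)) := by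
      intro σ hσ π hπ
      have n1 := c4_sg_ne hsg1 hsgm (c4_mul hσ hπ)
      rw [c4_G, map_smul, smul_eq_mul, hsgm σ hσ π hπ]
      rw [hsgm σ hσ π hπ] at n1
      rw [ren_ren, mul_inv_cancel_left₀ n1]
      rfl
    have hmul1 : ∀ σ ∈ Sk k, φ (ren σ (c4_F F k)) = sg σ * φ (c4_G sg k σ) := by
      intro σ hσ
      have n1 := c4_sg_ne hsg1 hsgm hσ
      rw [c4_G, map_smul, smul_eq_mul, mul_inv_cancel_left₀ n1]
    have hz := edge_zero (by omega : 4 ≤ k) e ?_ ?_ ?_ (σ0 1) (c4_mem hσ0 m1) (σ0 2)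
      (c4_mem hσ0 m2) (fun h1 => by
        have h2 := σ0.injective h1
        omega)
    · rw [he σ0 hσ0] at hz
      rw [hmul1 σ0 hσ0, hz, mul_zero]
    · intro i hi j hj hij
      obtain ⟨σ, hσ, rfl, rfl⟩ := c4_two hk2 hi hj hij
      have hs : Equiv.swap 1 2 ∈ Sk k := c4_swap m1 m2
      have h1 := he _ (c4_mul hσ hs)
      rw [Equiv.Perm.mul_apply, Equiv.Perm.mul_apply, Equiv.swap_apply_left,
        Equiv.swap_apply_right] at h1
      have h2 := hmul σ hσ _ hs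
      rw [c4_F12, map_neg, map_neg, hmul1 σ hσ, hsgs 1 m1 2 m2 (by norm_num)] at h2
      have n1 := c4_sg_ne hsg1 hsgm hσ
      rw [he σ hσ, h1]
      apply mul_left_cancel₀ n1
      linear_combination (-1 : F) * h2
    · intro i hi
      obtain ⟨σ, hσ, h1, -⟩ := c4_step (c4_one (k := k)) m1 hi
      subst h1
      have h2 := hkill _ (hwR σ hσ)
      rw [c4_w, map_sum, map_sum] at h2
      have h3 : ∀ c ∈ Finset.Icc 2 k, φ (ren σ (c4_G sg k (Equiv.swap 2 c))) =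
          sg σ * e (σ 1) (σ c) := by
        intro c hc
        have hc' := Finset.mem_Icc.1 hc
        have hs : Equiv.swap 2 c ∈ Sk k := c4_swap m2 (c4_in1 hk2 hc)
        rw [c4_renG hsg1 hsgm hσ hs, map_smul, smul_eq_mul, ← he _ (c4_mul hσ hs),
          Equiv.Perm.mul_apply, Equiv.Perm.mul_apply, Equiv.swap_apply_left,
          Equiv.swap_apply_of_ne_of_ne (by omega) (by omega)]
      rw [Finset.sum_congr rfl h3, ← Finset.mul_sum] at h2
      have h4 := (mul_eq_zero.1 h2).resolve_left (c4_sg_ne hsg1 hsgm hσ)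
      rw [← h4]
      refine Finset.sum_nbij' (fun j => σ⁻¹ j) (fun c => σ c) ?_ ?_ (fun j _ => by simp)
        (fun c _ => by simp) (fun j _ => by simp)
      · intro j hj
        obtain ⟨hj1, hj2⟩ := Finset.mem_erase.1 hj
        have h5 := c4_mem (c4_inv hσ) hj2
        have h6 : σ⁻¹ j ≠ 1 := by
          intro h6
          apply hj1
          rw [← h6]
          simp
        rw [Finset.mem_Icc] at h5 ⊢
        show 2 ≤ σ⁻¹ j ∧ σ⁻¹ j ≤ k
        omega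
      · intro c hc
        have hc' := Finset.mem_Icc.1 hc
        refine Finset.mem_erase.2 ⟨fun h5 => ?_, c4_mem hσ (c4_in1 hk2 hc)⟩
        have h6 := σ.injective h5
        omega
    · intro i hi j hj c hc d hd hij hic hid hjc hjd hcd
      obtain ⟨σ, hσ, rfl, rfl, rfl, rfl⟩ := c4_four (by omega) hi hj hc hd hij hic hid hjc hjd hcd
      have s13 : Equiv.swap 1 3 ∈ Sk k := c4_swap m1 m3
      have s24 : Equiv.swap 2 4 ∈ Sk k := c4_swap m2 m4
      have s23 : Equiv.swap 2 3 ∈ Sk k := c4_swap m2 m3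
      have p1 := c4_mul s13 s24
      have p3 := c4_mul s23 p1
      have h1 := hkill _ (hTR (h.isT.map_mem (ren σ) _ (c4_R4 h (by omega : 4 ≤ k))))
      rw [map_add, map_add, map_add, map_add, map_add, map_add, hmul1 σ hσ, hmul σ hσ _ p1,
        hmul σ hσ _ s23, hmul σ hσ _ p3, ← he σ hσ, ← he _ (c4_mul hσ p1),
        ← he _ (c4_mul hσ s23), ← he _ (c4_mul hσ p3), hsgm _ s23 _ p1, hsgm _ s13 _ s24,
        hsgs 1 m1 3 m3 (by norm_num), hsgs 2 m2 4 m4 (by norm_num),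
        hsgs 2 m2 3 m3 (by norm_num)] at h1
      have e1 : ∀ i : ℕ, (σ * (Equiv.swap 1 3 * Equiv.swap 2 4) : Equiv.Perm ℕ) i =
          σ ((Equiv.swap 1 3 * Equiv.swap 2 4 : Equiv.Perm ℕ) i) := fun _ => rfl
      have e2 : ∀ i : ℕ, (σ * Equiv.swap 2 3 : Equiv.Perm ℕ) i = σ (Equiv.swap 2 3 i) :=
        fun _ => rfl
      have e3 : ∀ i : ℕ, (σ * (Equiv.swap 2 3 * (Equiv.swap 1 3 * Equiv.swap 2 4)) :
          Equiv.Perm ℕ) i =
          σ ((Equiv.swap 2 3 * (Equiv.swap 1 3 * Equiv.swap 2 4) : Equiv.Perm ℕ) i) :=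
        fun _ => rfl
      rw [e1, e1, e2, e2, e3, e3] at h1
      have v1 : (Equiv.swap 1 3 * Equiv.swap 2 4 : Equiv.Perm ℕ) 1 = 3 := by decide
      have v2 : (Equiv.swap 1 3 * Equiv.swap 2 4 : Equiv.Perm ℕ) 2 = 4 := by decide
      have v3 : (Equiv.swap 2 3 : Equiv.Perm ℕ) 1 = 1 := by decide
      have v4 : (Equiv.swap 2 3 : Equiv.Perm ℕ) 2 = 3 := by decide
      have v5 : (Equiv.swap 2 3 * (Equiv.swap 1 3 * Equiv.swap 2 4) : Equiv.Perm ℕ) 1 = 2 := by
        decide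
      have v6 : (Equiv.swap 2 3 * (Equiv.swap 1 3 * Equiv.swap 2 4) : Equiv.Perm ℕ) 2 = 4 := by
        decide
      rw [v1, v2, v3, v4, v5, v6] at h1
      apply mul_left_cancel₀ (c4_sg_ne hsg1 hsgm hσ)
      linear_combination h1
  have hC := h.lemC (zero_notMem_Icc k) ⟨1, m1⟩ 1
  refine le_trans hC (sup_le (sup_le le_sup_left ?_) ?_)
  · refine Submodule.span_le.2 ?_
    rintro f ⟨i, l, hl, hev, rfl⟩
    exfalso
    have h1 := congrArg Multiset.card hl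
    rw [Multiset.coe_card, List.length_cons, Finset.card_val, Nat.card_Icc,
      Nat.add_sub_cancel] at h1
    rw [← h1] at hk
    exact (Nat.even_add_one.1 hk) hev
  · refine Submodule.span_le.2 ?_
    rintro f ⟨i, j, l, hl, hev, rfl⟩
    obtain ⟨σ, hσ, hmap⟩ := exists_perm_list (c4_list hk2) hl
    rw [List.map_cons, List.map_cons] at hmap
    obtain ⟨q1, hmap⟩ := List.cons.inj hmap
    obtain ⟨q2, q3⟩ := List.cons.inj hmap
    have h1 := hmain σ hσ
    rw [c4_renF _ _ (c4_zero hσ), q1, q2, q3] at h1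
    exact h1

end

end Pool.Agent.Lib.MP_b4a71d_al
end
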