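import Pool.Agent.Lib.MP_b4a71d_al.K3fl

section

/-!
# Level 3: the quotient module and the relations coming from (321) and (411)
-/

set_option autoImplicit false

namespace Pool.Agent.Lib.MP_b4a71d_al

universe u

noncomputable section

variable {F : Type u} [Field F]

/-- `FL F` as a module over `F[t_1, t_2, t_3]`. -/
instance modFL : Module (R3 F) (FL F) :=
  Module.compHom (FL F) (pol (F := F) : R3 F →ₐ[F] Module.End F (FL F)).toRingHom

theorem smul_eq_pol (p : R3 F) (f : FL F) : p • f = pol p f := rfl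

instance : IsScalarTower F (R3 F) (FL F) where
  smul_assoc c p f := by
    rw [smul_eq_pol, smul_eq_pol, map_smul]
    rfl

/-- A T-ideal as a submodule over `F[t_1, t_2, t_3]`. -/
def TS {T : Submodule F (FL F)} (hT : IsTIdeal F T) : Submodule (R3 F) (FL F) where
  carrier := T
  add_mem' := T.add_mem
  zero_mem' := T.zero_mem
  smul_mem' p _ hf := hT.pol_mem p hf

theorem mem_TS {T : Submodule F (FL F)} (hT : IsTIdeal F T) {f : FL F} : f ∈ TS hT ↔ f ∈ T :=
  Iff.rfl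

/-- The three generators modulo `T`. -/
def eq3 {T : Submodule F (FL F)} (hT : IsTIdeal F T) (i : Fin 3) : FL F ⧸ TS hT :=
  (TS hT).mkQ (ev i)

theorem eq3_rel {T : Submodule F (FL F)} (hT : IsTIdeal F T) : ERel F (eq3 hT) := by
  rw [ERel]
  have h : ∑ i : Fin 3, (MvPolynomial.X i : R3 F) • (ev i : FL F) = 0 := ev_rel
  simp only [eq3, ← map_smul, ← map_sum]
  rw [h, map_zero]

/-- The (321) vectors: `x X + y Y + z Z`. -/
def v321 (x y z : F) : FL F :=
  pol (MvPolynomial.C x * s1) (ev 0 - ev 1) + (pol (MvPolynomial.C y * MvPolynomial.X 0) (ev 0)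
    - pol (MvPolynomial.C y * MvPolynomial.X 1) (ev 1))
    + pol (MvPolynomial.C z * (MvPolynomial.X 0 - MvPolynomial.X 1)) (ev 0 + ev 1 + ev 2)

theorem v321_add (x y z x' y' z' : F) (a b : F) :
    a • v321 x y z + b • v321 x' y' z' = v321 (a * x + b * x') (a * y + b * y')
      (a * z + b * z') := by
  simp only [v321, ← smul_eq_pol]
  simp only [← algebraMap_smul (R3 F) a, ← algebraMap_smul (R3 F) b,
    MvPolynomial.algebraMap_eq, map_add, map_mul]
  module

/-- The vectors `u_i = x s1 e_i + y t_i e_i + z t_i G`, `v321 x y z = u_0 - u_1`. -/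
private def uu (x y z : F) (i : Fin 3) : FL F :=
  pol (MvPolynomial.C x * s1) (ev i) + pol (MvPolynomial.C y * MvPolynomial.X i) (ev i)
    + pol (MvPolynomial.C z * MvPolynomial.X i) (ev 0 + ev 1 + ev 2)

private theorem v321_eq (x y z : F) : v321 x y z = uu x y z 0 - uu x y z 1 := by
  simp only [v321, uu, ← smul_eq_pol]
  module

private theorem hom_s1 : (s1 : R3 F).IsHomogeneous 1 := by
  rw [s1]
  exact ((MvPolynomial.isHomogeneous_X F 0).add (MvPolynomial.isHomogeneous_X F 1)).add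
    (MvPolynomial.isHomogeneous_X F 2)

private theorem hom_C_mul (x : F) {p : R3 F} {m : ℕ} (hp : p.IsHomogeneous m) :
    (MvPolynomial.C x * p).IsHomogeneous m := by
  have h := (MvPolynomial.isHomogeneous_C (Fin 3) x).mul hp
  rwa [zero_add] at h

private theorem uu_mem (x y z : F) (i : Fin 3) : uu x y z i ∈ KE (Finset.Icc 1 3) 3 := by
  have h1 : pol (MvPolynomial.C x * s1) (ev i) ∈ KE (F := F) (Finset.Icc 1 3) (2 + 1) :=
    pol_KE (hom_C_mul x hom_s1) (ev_mem i)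
  have h2 : pol (MvPolynomial.C y * MvPolynomial.X i) (ev i)
      ∈ KE (F := F) (Finset.Icc 1 3) (2 + 1) :=
    pol_KE (hom_C_mul y (MvPolynomial.isHomogeneous_X F i)) (ev_mem i)
  have h3 : pol (MvPolynomial.C z * MvPolynomial.X i) (ev 0 + ev 1 + ev 2)
      ∈ KE (F := F) (Finset.Icc 1 3) (2 + 1) :=
    pol_KE (hom_C_mul z (MvPolynomial.isHomogeneous_X F i))
      (Submodule.add_mem _ (Submodule.add_mem _ (ev_mem 0) (ev_mem 1)) (ev_mem 2))
  exact Submodule.add_mem _ (Submodule.add_mem _ h1 h2) h3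

theorem v321_mem (x y z : F) : v321 x y z ∈ KE (Finset.Icc 1 3) 3 := by
  rw [v321_eq]
  exact Submodule.sub_mem _ (uu_mem x y z 0) (uu_mem x y z 1)

private theorem rename_s1 (s : Equiv.Perm (Fin 3)) :
    MvPolynomial.rename s (s1 : R3 F) = s1 := by
  have h : (s1 : R3 F) = ∑ i : Fin 3, MvPolynomial.X i := by
    rw [Fin.sum_univ_three]
    rfl
  rw [h, map_sum]
  simp only [MvPolynomial.rename_X]
  exact Equiv.sum_comp s (fun i : Fin 3 => (MvPolynomial.X i : R3 F))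

private theorem ren_G (s : Equiv.Perm (Fin 3)) :
    ren (up3 s) (ev (F := F) 0 + ev 1 + ev 2)
      = ((Equiv.Perm.sign s : ℤ) : F) • (ev 0 + ev 1 + ev 2) := by
  have h : ev (F := F) 0 + ev 1 + ev 2 = ∑ i : Fin 3, ev i := by
    rw [Fin.sum_univ_three]
  rw [h, map_sum]
  simp only [ren_ev]
  rw [← Finset.smul_sum]
  congr 1
  exact Equiv.sum_comp s (fun i : Fin 3 => ev (F := F) i)

private theorem ren_uu (s : Equiv.Perm (Fin 3)) (x y z : F) (i : Fin 3) :
    ren (up3 s) (uu x y z i) = ((Equiv.Perm.sign s : ℤ) : F) • uu x y z (s i) := by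
  have hC : ∀ (w : F) (p : R3 F), MvPolynomial.rename s (MvPolynomial.C w * p)
      = MvPolynomial.C w * MvPolynomial.rename s p := by
    intro w p
    rw [map_mul, MvPolynomial.rename_C]
  rw [uu, map_add, map_add, ren_pol, ren_pol, ren_pol, ren_ev, ren_G, hC, hC, hC,
    rename_s1, MvPolynomial.rename_X, map_smul, map_smul, map_smul, uu, smul_add, smul_add]

private theorem sub_uu_mem {T : Submodule F (FL F)} (hT : IsTIdeal F T) {x y z : F}
    (h : v321 x y z ∈ T) (i j : Fin 3) : uu x y z i - uu x y z j ∈ T := by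
  by_cases hij : i = j
  · rw [hij, sub_self]
    exact T.zero_mem
  · obtain ⟨s, rfl, rfl⟩ : ∃ s : Equiv.Perm (Fin 3), s 0 = i ∧ s 1 = j := by
      revert i j
      decide
    have h1 := hT.map_mem (ren (up3 s)) _ h
    rw [v321_eq, map_sub, ren_uu, ren_uu, ← smul_sub] at h1
    rcases Int.units_eq_one_or (Equiv.Perm.sign s) with h2 | h2
    · rw [h2] at h1
      simpa using h1
    · rw [h2] at h1
      have h3 := T.neg_mem h1
      simpa using h3

/-- A (321) vector in `T` gives the relation `KRel`: apply the cyclic renamings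
(`ren_pol`, `ren_ev`). -/
theorem KRel_of_mem {T : Submodule F (FL F)} (hT : IsTIdeal F T) {x y z : F}
    (h : v321 x y z ∈ T) : KRel (eq3 hT) x y z := by
  intro i j
  have h1 : ∀ i : Fin 3, (MvPolynomial.C x * s1 : R3 F) • eq3 hT i
      + (MvPolynomial.C y * MvPolynomial.X i : R3 F) • eq3 hT i
      + (MvPolynomial.C z * MvPolynomial.X i : R3 F) • GG (eq3 hT)
      = (TS hT).mkQ (uu x y z i) := by
    intro i
    simp only [eq3, GG, uu, ← map_add, ← map_smul, ← smul_eq_pol]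
  rw [h1, h1, ← sub_eq_zero, ← map_sub, Submodule.mkQ_apply, Submodule.Quotient.mk_eq_zero,
    mem_TS]
  exact sub_uu_mem hT h i j

private theorem perm_three (s : Equiv.Perm (Fin 3)) :
    (s 0 = 0 ∧ s 1 = 1 ∧ s 2 = 2 ∧ Equiv.Perm.sign s = 1) ∨
    (s 0 = 1 ∧ s 1 = 0 ∧ s 2 = 2 ∧ Equiv.Perm.sign s = -1) ∨
    (s 0 = 0 ∧ s 1 = 2 ∧ s 2 = 1 ∧ Equiv.Perm.sign s = -1) ∨
    (s 0 = 2 ∧ s 1 = 1 ∧ s 2 = 0 ∧ Equiv.Perm.sign s = -1) ∨
    (s 0 = 1 ∧ s 1 = 2 ∧ s 2 = 0 ∧ Equiv.Perm.sign s = 1) ∨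
    (s 0 = 2 ∧ s 1 = 0 ∧ s 2 = 1 ∧ Equiv.Perm.sign s = 1) := by
  revert s
  decide

/-- The group algebra element `(1/2) (1 + (12))`. -/
private def eop (F : Type u) [Field F] : FL F →ₗ[F] FL F :=
  (1 / 2 : F) • (LinearMap.id + (ren (F := F) (up3 (Equiv.swap 0 1))).toLinearMap)

private theorem eop_apply (f : FL F) :
    eop F f = (1 / 2 : F) • (f + ren (up3 (Equiv.swap 0 1)) f) := rfl

private theorem eop_v321 [CharZero F] {σ : Equiv.Perm ℕ} (hσ : σ ∈ Sk 3) (x y z : F) :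
    eop F (ren σ (v321 x y z)) = (if σ 3 = 3 then 1 else -(1 / 2) : F) • v321 x y z := by
  obtain ⟨s, rfl⟩ := exists_up3 σ hσ
  have h3 : up3 s 3 = (s 2 : ℕ) + 1 := up3_apply s 2
  have h2 : (2 : F) ≠ 0 := two_ne_zero
  rw [eop_apply, v321_eq, map_sub, ren_uu, ren_uu, h3, ← smul_sub, map_smul, map_sub, ren_uu,
    ren_uu, Equiv.Perm.sign_swap (by decide : (0 : Fin 3) ≠ 1)]
  rcases perm_three s with h | h | h | h | h | h
  all_goals
    obtain ⟨a0, a1, a2, hs⟩ := h
    rw [a0, a1, a2, hs]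
    simp only [Equiv.swap_apply_left, Equiv.swap_apply_right,
      Equiv.swap_apply_of_ne_of_ne (by decide : (2 : Fin 3) ≠ 0) (by decide : (2 : Fin 3) ≠ 1)]
    simp
    try module

private theorem comb_v321 [CharZero F] {T : Submodule F (FL F)} (hT : IsTIdeal F T)
    (h : LevelGood T 3 3) (x y z x' y' z' : F) : ∃ a b : F, (a, b) ≠ (0, 0) ∧
      v321 (a * x + b * x') (a * y + b * y') (a * z + b * z') ∈ T := by
  obtain ⟨a, b, hab, hm⟩ := exists_comb_of_levelGood hT h (v321_mem x y z) (v321_mem x' y' z')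
    (eop F) (by
      intro U hU f hf
      rw [eop_apply]
      refine U.smul_mem _ (U.add_mem hf (hU _ ?_ _ hf))
      intro i hi
      exact up3_out _ hi) (fun σ => if σ 3 = 3 then 1 else -(1 / 2)) (if_pos rfl)
    (fun σ hσ => eop_v321 hσ x y z) (fun σ hσ => eop_v321 hσ x' y' z')
  rw [v321_add] at hm
  exact ⟨a, b, hab, hm⟩

private theorem smul_v321 (c x y z : F) : c • v321 x y z = v321 (c * x) (c * y) (c * z) := by
  have h := v321_add x y z 0 0 0 c 0
  rw [zero_smul, add_zero] at h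
  simpa using h

/-- From the level `(3, 3)`: the (321) relations.  `exists_comb_of_levelGood` (Ops.lean) with
`e = (1/2)(1 + ren (swap 1 2))` and `χ = 1` on `{1, swap 1 2}`, `-1/2` on the other four
permutations of `{1, 2, 3}`: for `V_ij = x s1 (e_i - e_j) + y (t_i e_i - t_j e_j)
+ z (t_i - t_j) G` one has `(12) V_12 = V_12`, and every other permutation maps `V_12` to `V_23`
or `V_31`, `(12)` exchanges `V_23` and `V_31`, `V_12 + V_23 + V_31 = 0`.  Apply it to the pairs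
`(X, Z)`, `(Y, Z)`, `(X, Y)`, `X = v321 1 0 0`, `Y = v321 0 1 0`, `Z = v321 0 0 1`. -/
theorem K_cases [CharZero F] {T : Submodule F (FL F)} (hT : IsTIdeal F T)
    (h : LevelGood T 3 3) :
    (∃ z0 z1 : F, v321 1 0 z0 ∈ T ∧ v321 0 1 z1 ∈ T) ∨
      (v321 (F := F) 0 0 1 ∈ T ∧ ∃ x : F, v321 x 1 0 ∈ T) ∨
      (v321 (F := F) 0 0 1 ∈ T ∧ v321 (F := F) 1 0 0 ∈ T) := by
  obtain ⟨a, b, hab, h1⟩ := comb_v321 hT h 1 0 0 0 0 1
  obtain ⟨c, d, hcd, h2⟩ := comb_v321 hT h 0 1 0 0 0 1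
  obtain ⟨p, q, hpq, h3⟩ := comb_v321 hT h 1 0 0 0 1 0
  simp only [mul_one, mul_zero, add_zero, zero_add] at h1 h2 h3
  have hZ : (a = 0 ∨ c = 0) → v321 (F := F) 0 0 1 ∈ T := by
    rintro (h0 | h0)
    · subst h0
      have hb : b ≠ 0 := fun hb => hab (by rw [hb])
      have h4 := T.smul_mem b⁻¹ h1
      rw [smul_v321, mul_zero, inv_mul_cancel₀ hb] at h4
      exact h4
    · subst h0
      have hd : d ≠ 0 := fun hd => hcd (by rw [hd])
      have h4 := T.smul_mem d⁻¹ h2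
      rw [smul_v321, mul_zero, inv_mul_cancel₀ hd] at h4
      exact h4
  by_cases hac : a = 0 ∨ c = 0
  · right
    have hz := hZ hac
    by_cases hq : q = 0
    · right
      refine ⟨hz, ?_⟩
      subst hq
      have hp : p ≠ 0 := fun hp => hpq (by rw [hp])
      have h4 := T.smul_mem p⁻¹ h3
      rw [smul_v321, mul_zero, inv_mul_cancel₀ hp] at h4
      exact h4
    · left
      refine ⟨hz, q⁻¹ * p, ?_⟩
      have h4 := T.smul_mem q⁻¹ h3
      rw [smul_v321, mul_zero, inv_mul_cancel₀ hq] at h4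
      exact h4
  · left
    have ha : a ≠ 0 := fun h0 => hac (Or.inl h0)
    have hc : c ≠ 0 := fun h0 => hac (Or.inr h0)
    refine ⟨a⁻¹ * b, c⁻¹ * d, ?_, ?_⟩
    · have h4 := T.smul_mem a⁻¹ h1
      rw [smul_v321, mul_zero, inv_mul_cancel₀ ha] at h4
      exact h4
    · have h4 := T.smul_mem c⁻¹ h2
      rw [smul_v321, mul_zero, inv_mul_cancel₀ hc] at h4
      exact h4

/-- The (411) vector. -/
def v411 (al be : F) : FL F :=
  pol (MvPolynomial.X 0 * MvPolynomial.X 1 * (MvPolynomial.C al * (MvPolynomial.X 0 ^ 2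
    + MvPolynomial.X 1 ^ 2) + MvPolynomial.C be * (MvPolynomial.X 0 * MvPolynomial.X 1)))
    ⁅X F 1, X F 2⁆

/-- Translation of spanning statements. -/
theorem KE_le_of_Nm [CharZero F] {T : Submodule F (FL F)} (hT : IsTIdeal F T) (d : ℕ)
    (S : Set (FL F)) (h : Nm (F := F) (eq3 hT) d ≤ Submodule.span F ((TS hT).mkQ '' S)) :
    KE (F := F) (Finset.Icc 1 3) (d + 2) ≤ Submodule.span F S ⊔ T := by
  intro f hf
  obtain ⟨r, hr, hfr⟩ := gen3 hf
  have h1 : (TS hT).mkQ f ∈ Nm (F := F) (eq3 hT) d := by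
    rw [hfr, map_sum]
    refine Submodule.sum_mem _ (fun i _ => ?_)
    apply Submodule.subset_span
    refine ⟨r i, hr i, i, ?_⟩
    rw [← smul_eq_pol, map_smul]
    rfl
  have h2 := h h1
  have h3 : Submodule.span F ((TS hT).mkQ '' S)
      = (Submodule.span F S).map ((TS hT).mkQ.restrictScalars F) := by
    rw [Submodule.map_span]
    rfl
  rw [h3] at h2
  obtain ⟨g, hg, hgf⟩ := h2
  have h4 : f - g ∈ T := by
    rw [← mem_TS hT, ← Submodule.Quotient.mk_eq_zero, ← Submodule.mkQ_apply, map_sub, sub_eq_zero]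
    exact hgf.symm
  have h5 := Submodule.add_mem_sup hg h4
  rwa [add_sub_cancel] at h5


end

end Pool.Agent.Lib.MP_b4a71d_al
end

section

/-!
# Level 3: the consequences of the (411) relation
-/

set_option autoImplicit false
set_option linter.unusedSimpArgs false

namespace Pool.Agent.Lib.MP_b4a71d_al

universe u

noncomputable section

variable {F : Type u} [Field F]

/-! ### Monomials on `[y_1, y_2]` -/

private theorem pX0 (p : R3 F) (f : FL F) : pol (MvPolynomial.X 0 * p) f = tt 1 (pol p f) := by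
  rw [pol_mul, pol_X]
  rfl

private theorem pX1 (p : R3 F) (f : FL F) : pol (MvPolynomial.X 1 * p) f = tt 2 (pol p f) := by
  rw [pol_mul, pol_X]
  rfl

private theorem pX2 (p : R3 F) (f : FL F) : pol (MvPolynomial.X 2 * p) f = tt 3 (pol p f) := by
  rw [pol_mul, pol_X]
  rfl

private def mo (F : Type u) [Field F] (a b : ℕ) : FL F :=
  pol (MvPolynomial.X 0 ^ a * MvPolynomial.X 1 ^ b) ⁅X F 1, X F 2⁆

private theorem mo_zero : mo F 0 0 = ⁅X F 1, X F 2⁆ := by
  rw [mo, pow_zero, pow_zero, mul_one, map_one]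
  rfl

private theorem mo_left (a b : ℕ) : mo F (a + 1) b = tt 1 (mo F a b) := by
  have h : (MvPolynomial.X 0 ^ (a + 1) * MvPolynomial.X 1 ^ b : R3 F) =
      MvPolynomial.X 0 * (MvPolynomial.X 0 ^ a * MvPolynomial.X 1 ^ b) := by ring
  rw [mo, h, pol_mul, pol_X]
  rfl

private theorem mo_right (a b : ℕ) : mo F a (b + 1) = tt 2 (mo F a b) := by
  have h : (MvPolynomial.X 0 ^ a * MvPolynomial.X 1 ^ (b + 1) : R3 F) =
      MvPolynomial.X 1 * (MvPolynomial.X 0 ^ a * MvPolynomial.X 1 ^ b) := by ring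
  rw [mo, h, pol_mul, pol_X]
  rfl

private theorem mo_mem (a b : ℕ) : mo F a b ∈ WW (F := F) {1, 2} (a + b) := by
  have h0 : (0 : ℕ) ∉ ({1, 2} : Finset ℕ) := by decide
  induction a with
  | zero =>
    induction b with
    | zero =>
      rw [mo_zero]
      have h1 := lie_mem_homC (X_mem (F := F) 1) (X_mem (F := F) 2)
      exact h1
    | succ b ih =>
      rw [mo_right]
      exact tt_mem (by decide) h0 ih
  | succ a ih =>
    rw [mo_left, show a + 1 + b = a + b + 1 by ring]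
    exact tt_mem (by decide) h0 ih

private theorem lie_mo (a b : ℕ) : ⁅mo F a b, X F 3⁆ =
    pol (MvPolynomial.X 0 ^ a * MvPolynomial.X 1 ^ b) (bb 2) := by
  induction a with
  | zero =>
    induction b with
    | zero =>
      rw [mo_zero, pow_zero, pow_zero, mul_one, map_one]
      rfl
    | succ b ih =>
      have h : (MvPolynomial.X 0 ^ 0 * MvPolynomial.X 1 ^ (b + 1) : R3 F) =
          MvPolynomial.X 1 * (MvPolynomial.X 0 ^ 0 * MvPolynomial.X 1 ^ b) := by ring
      rw [mo_right, h, pX1, ← ih, LieHom.map_lie]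
      congr 1
      exact (tt_X_ne (by decide)).symm
  | succ a ih =>
    have h : (MvPolynomial.X 0 ^ (a + 1) * MvPolynomial.X 1 ^ b : R3 F) =
        MvPolynomial.X 0 * (MvPolynomial.X 0 ^ a * MvPolynomial.X 1 ^ b) := by ring
    rw [mo_left, h, pX0, ← ih, LieHom.map_lie]
    congr 1
    exact (tt_X_ne (by decide)).symm

private theorem pol_add' (p q : R3 F) (f : FL F) : pol (p + q) f = pol p f + pol q f := by
  rw [map_add]
  rfl

private theorem pol_one' (f : FL F) : pol (1 : R3 F) f = f := by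
  rw [map_one]
  rfl

private theorem ss23_mo (a b : ℕ) : ss 2 3 (mo F a b) =
    - pol (MvPolynomial.X 0 ^ a * (MvPolynomial.X 1 + MvPolynomial.X 2) ^ b) (bb 0) := by
  induction a with
  | zero =>
    induction b with
    | zero =>
      rw [mo_zero, pow_zero, pow_zero, mul_one, pol_one', LieHom.map_lie, ss_X_ne (by decide),
        ss_X_same, ← lie_skew]
      rfl
    | succ b ih =>
      have h : (MvPolynomial.X 0 ^ 0 * (MvPolynomial.X 1 + MvPolynomial.X 2) ^ (b + 1) : R3 F) =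
          MvPolynomial.X 1 * (MvPolynomial.X 0 ^ 0 * (MvPolynomial.X 1 + MvPolynomial.X 2) ^ b) +
          MvPolynomial.X 2 * (MvPolynomial.X 0 ^ 0 * (MvPolynomial.X 1 + MvPolynomial.X 2) ^ b) := by
        ring
      rw [mo_right, ss_tt_same (Y := {1, 2}) (by decide) (by decide) (by decide) (by decide)
        (mo_mem 0 b), ih, h, pol_add', pX1, pX2, map_neg, map_neg, neg_add]
  | succ a ih =>
    have h : (MvPolynomial.X 0 ^ (a + 1) * (MvPolynomial.X 1 + MvPolynomial.X 2) ^ b : R3 F) =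
        MvPolynomial.X 0 * (MvPolynomial.X 0 ^ a * (MvPolynomial.X 1 + MvPolynomial.X 2) ^ b) := by
      ring
    rw [mo_left, ss_tt_comm (by decide) (by decide) (by decide) (by decide), ih, h, pX0, map_neg]

private theorem ss13_mo (a b : ℕ) : ss 1 3 (mo F a b) =
    - pol ((MvPolynomial.X 0 + MvPolynomial.X 2) ^ a * MvPolynomial.X 1 ^ b) (bb 1) := by
  induction b with
  | zero =>
    induction a with
    | zero =>
      rw [mo_zero, pow_zero, pow_zero, mul_one, pol_one', LieHom.map_lie,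
        ss_X_same, ss_X_ne (by decide), ← lie_skew (X F 1) (X F 3), neg_lie]
      rfl
    | succ a ih =>
      have h : ((MvPolynomial.X 0 + MvPolynomial.X 2) ^ (a + 1) * MvPolynomial.X 1 ^ 0 : R3 F) =
          MvPolynomial.X 0 * ((MvPolynomial.X 0 + MvPolynomial.X 2) ^ a * MvPolynomial.X 1 ^ 0) +
          MvPolynomial.X 2 * ((MvPolynomial.X 0 + MvPolynomial.X 2) ^ a * MvPolynomial.X 1 ^ 0) := by
        ring
      rw [mo_left, ss_tt_same (Y := {1, 2}) (by decide) (by decide) (by decide) (by decide)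
        (mo_mem a 0), ih, h, pol_add', pX0, pX2, map_neg, map_neg, neg_add]
  | succ b ih =>
    have h : ((MvPolynomial.X 0 + MvPolynomial.X 2) ^ a * MvPolynomial.X 1 ^ (b + 1) : R3 F) =
        MvPolynomial.X 1 * ((MvPolynomial.X 0 + MvPolynomial.X 2) ^ a * MvPolynomial.X 1 ^ b) := by
      ring
    rw [mo_right, ss_tt_comm (by decide) (by decide) (by decide) (by decide), ih, h, pX1, map_neg]

/-- `((t + u) ^ n - t ^ n) / u` -/
private def gs {R : Type u} [CommRing R] (t v : R) : ℕ → R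
  | 0 => 0
  | n + 1 => t * gs t v n + (t + v) ^ n

private theorem D3_mo (a b : ℕ) : D 3 (mo F a b) =
    - pol (MvPolynomial.X 0 ^ a * gs (MvPolynomial.X 1) (MvPolynomial.X 2) b) (bb 0)
    - pol (MvPolynomial.X 1 ^ b * gs (MvPolynomial.X 0) (MvPolynomial.X 2) a) (bb 1) := by
  induction a with
  | zero =>
    induction b with
    | zero =>
      rw [mo_zero, gs, gs, mul_zero, mul_zero, map_zero]
      have h1 : D 3 ⁅X F 1, X F 2⁆ = 0 := by
        rw [D, dd_lie, dd_X_ne (by decide), dd_X_ne (by decide), lie_zero, zero_lie, add_zero]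
      rw [h1]
      simp
    | succ b ih =>
      rw [mo_right, D_tt (Y := {1, 2}) (by decide) (by decide) (by decide) (by decide)
        (mo_mem 0 b), ih, ss23_mo]
      have h : (MvPolynomial.X 0 ^ 0 * gs (MvPolynomial.X 1) (MvPolynomial.X 2) (b + 1) : R3 F) =
          MvPolynomial.X 1 * (MvPolynomial.X 0 ^ 0 *
            gs (MvPolynomial.X 1) (MvPolynomial.X 2) b) +
          MvPolynomial.X 0 ^ 0 * (MvPolynomial.X 1 + MvPolynomial.X 2) ^ b := by
        rw [gs]
        ring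
      have h' : (MvPolynomial.X 1 ^ (b + 1) * gs (MvPolynomial.X 0) (MvPolynomial.X 2) 0 : R3 F) =
          MvPolynomial.X 1 * (MvPolynomial.X 1 ^ b *
            gs (MvPolynomial.X 0) (MvPolynomial.X 2) 0) := by
        ring
      rw [h, h', pol_add', pX1, pX1, map_sub, map_neg]
      abel
  | succ a ih =>
    rw [mo_left, D_tt (Y := {1, 2}) (by decide) (by decide) (by decide) (by decide)
      (mo_mem a b), ih, ss13_mo]
    have h : (MvPolynomial.X 1 ^ b * gs (MvPolynomial.X 0) (MvPolynomial.X 2) (a + 1) : R3 F) =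
        MvPolynomial.X 0 * (MvPolynomial.X 1 ^ b *
          gs (MvPolynomial.X 0) (MvPolynomial.X 2) a) +
        (MvPolynomial.X 0 + MvPolynomial.X 2) ^ a * MvPolynomial.X 1 ^ b := by
      rw [gs]
      ring
    have h' : (MvPolynomial.X 0 ^ (a + 1) * gs (MvPolynomial.X 1) (MvPolynomial.X 2) b : R3 F) =
        MvPolynomial.X 0 * (MvPolynomial.X 0 ^ a *
          gs (MvPolynomial.X 1) (MvPolynomial.X 2) b) := by
      ring
    rw [h, h', pol_add', pX0, pX0, map_sub, map_neg]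
    abel

/-! ### The normal form `p b_1 + q b_2` -/

section normal_form

open MvPolynomial

private def rp (p q : R3 F) : FL F := pol p (bb 0) + pol q (bb 1)

private theorem rp_add (p q p' q' : R3 F) : rp p q + rp p' q' = rp (p + p') (q + q') := by
  rw [rp, rp, rp, pol_add', pol_add']
  abel

private theorem smul_rp (c p q : R3 F) : c • rp p q = rp (c * p) (c * q) := by
  rw [rp, rp, smul_add, smul_eq_pol, smul_eq_pol, pol_mul, pol_mul]

private theorem fsmul_rp (c : F) (p q : R3 F) : c • rp p q = rp (C c * p) (C c * q) := by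
  rw [rp, rp, smul_add, pol_mul, pol_mul, pol_C, pol_C]

private theorem rp_neg (p q : R3 F) : - rp p q = rp (-p) (-q) := by
  have h := fsmul_rp (-1 : F) p q
  rw [neg_one_smul] at h
  rw [h]
  simp

private theorem rp_sub (p q p' q' : R3 F) : rp p q - rp p' q' = rp (p - p') (q - q') := by
  rw [sub_eq_add_neg, rp_neg, rp_add, ← sub_eq_add_neg, ← sub_eq_add_neg]

private theorem pol_bb0 (p : R3 F) : pol p (bb 0) = rp p 0 := by
  rw [rp, map_zero]
  exact (add_zero _).symm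

private theorem pol_bb1 (p : R3 F) : pol p (bb 1) = rp 0 p := by
  rw [rp, map_zero]
  exact (zero_add _).symm

private theorem pol_bb2 (p : R3 F) : pol p (bb 2) = rp (-p) (-p) := by
  have h : bb (F := F) 2 = - bb 0 - bb 1 := by
    have h1 := bb_sum (F := F)
    rw [eq_sub_iff_add_eq, ← sub_eq_zero, ← h1]
    abel
  rw [h, map_sub, map_neg, pol_bb0, pol_bb1, rp_neg, rp_sub]
  simp

private theorem ren_rp (s : Equiv.Perm (Fin 3)) (p q : R3 F) : ren (up3 s) (rp p q) =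
    ((Equiv.Perm.sign s : ℤ) : F) • (pol (rename s p) (bb (s 0)) + pol (rename s q) (bb (s 1))) := by
  rw [rp, map_add, ren_pol, ren_pol, ren_bb, ren_bb, map_smul, map_smul, smul_add]

private theorem ren021 (p q : R3 F) : ren (up3 (Equiv.swap 1 2)) (rp p q) =
    rp (rename (Equiv.swap 1 2) q - rename (Equiv.swap 1 2) p) (rename (Equiv.swap 1 2) q) := by
  rw [ren_rp, Equiv.Perm.sign_swap (by decide), show (Equiv.swap 1 2 : Equiv.Perm (Fin 3)) 0 = 0
    from by decide, show (Equiv.swap 1 2 : Equiv.Perm (Fin 3)) 1 = 2 from by decide, pol_bb0,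
    pol_bb2, rp_add]
  simp only [Units.val_neg, Units.val_one, Int.cast_neg, Int.cast_one, neg_smul, one_smul]
  rw [rp_neg]
  congr 1 <;> ring

private theorem ren102 (p q : R3 F) : ren (up3 (Equiv.swap 0 1)) (rp p q) =
    rp (- rename (Equiv.swap 0 1) q) (- rename (Equiv.swap 0 1) p) := by
  rw [ren_rp, Equiv.Perm.sign_swap (by decide), show (Equiv.swap 0 1 : Equiv.Perm (Fin 3)) 0 = 1
    from by decide, show (Equiv.swap 0 1 : Equiv.Perm (Fin 3)) 1 = 0 from by decide, pol_bb0,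
    pol_bb1, rp_add]
  simp only [Units.val_neg, Units.val_one, Int.cast_neg, Int.cast_one, neg_smul, one_smul]
  rw [rp_neg]
  congr 1 <;> ring

private theorem ren210 (p q : R3 F) : ren (up3 (Equiv.swap 0 2)) (rp p q) =
    rp (rename (Equiv.swap 0 2) p) (rename (Equiv.swap 0 2) p - rename (Equiv.swap 0 2) q) := by
  rw [ren_rp, Equiv.Perm.sign_swap (by decide), show (Equiv.swap 0 2 : Equiv.Perm (Fin 3)) 0 = 2
    from by decide, show (Equiv.swap 0 2 : Equiv.Perm (Fin 3)) 1 = 1 from by decide, pol_bb1,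
    pol_bb2, rp_add]
  simp only [Units.val_neg, Units.val_one, Int.cast_neg, Int.cast_one, neg_smul, one_smul]
  rw [rp_neg]
  congr 1 <;> ring

/-- the cyclic permutation `0 ↦ 1 ↦ 2 ↦ 0` -/
private def cy : Equiv.Perm (Fin 3) := finRotate 3

private theorem ren120 (p q : R3 F) : ren (up3 cy) (rp p q) =
    rp (- rename cy q) (rename cy p - rename cy q) := by
  rw [ren_rp, show Equiv.Perm.sign cy = 1 from by decide, show cy 0 = 1
    from by decide, show cy 1 = 2 from by decide, pol_bb1, pol_bb2, rp_add]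
  simp only [Units.val_one, Int.cast_one, one_smul]
  congr 1 <;> ring

private theorem ren201 (p q : R3 F) : ren (up3 cy⁻¹) (rp p q) =
    rp (rename (cy⁻¹ : Equiv.Perm (Fin 3)) q - rename (cy⁻¹ : Equiv.Perm (Fin 3)) p)
      (- rename (cy⁻¹ : Equiv.Perm (Fin 3)) p) := by
  rw [ren_rp, show Equiv.Perm.sign cy⁻¹ = 1 from by decide, show cy⁻¹ 0 = 2
    from by decide, show cy⁻¹ 1 = 0 from by decide, pol_bb0, pol_bb2, rp_add]
  simp only [Units.val_one, Int.cast_one, one_smul]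
  congr 1 <;> ring

/-! ### The elements -/

private def Pf (al be : F) (a b : R3 F) : R3 F :=
  C al * (a ^ 3 * b + a * b ^ 3) + C be * (a ^ 2 * b ^ 2)

private theorem v411_eq (al be : F) : v411 al be =
    al • (mo F 3 1 + mo F 1 3) + be • mo F 2 2 := by
  have h : (MvPolynomial.X 0 * MvPolynomial.X 1 * (C al * (MvPolynomial.X 0 ^ 2 + MvPolynomial.X 1 ^ 2) + C be * (MvPolynomial.X 0 * MvPolynomial.X 1)) : R3 F) =
      C al * (MvPolynomial.X 0 ^ 3 * MvPolynomial.X 1 ^ 1 + MvPolynomial.X 0 ^ 1 * MvPolynomial.X 1 ^ 3) + C be * (MvPolynomial.X 0 ^ 2 * MvPolynomial.X 1 ^ 2) := by ring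
  rw [v411, h, pol_add', pol_mul, pol_mul, pol_C, pol_C, pol_add']
  rfl

private theorem br_eq (al be : F) : ⁅v411 al be, MP_b4a71d_al.X F 3⁆ =
    rp (-(Pf al be (MvPolynomial.X 0) (MvPolynomial.X 1))) (-(Pf al be (MvPolynomial.X 0) (MvPolynomial.X 1))) := by
  rw [v411_eq, add_lie, smul_lie, smul_lie, add_lie, lie_mo, lie_mo, lie_mo, pol_bb2, pol_bb2,
    pol_bb2, rp_add, fsmul_rp, fsmul_rp, rp_add, Pf]
  congr 1 <;> ring

private theorem s23_eq (al be : F) : ss 2 3 (v411 al be) =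
    rp (-(Pf al be (MvPolynomial.X 0) (MvPolynomial.X 1 + MvPolynomial.X 2))) 0 := by
  rw [v411_eq, map_add, map_smul, map_smul, map_add, ss23_mo, ss23_mo, ss23_mo, pol_bb0, pol_bb0,
    pol_bb0, rp_neg, rp_neg, rp_neg, rp_add, fsmul_rp, fsmul_rp, rp_add, Pf]
  congr 1 <;> ring

private theorem s13_eq (al be : F) : ss 1 3 (v411 al be) =
    rp 0 (-(Pf al be (MvPolynomial.X 0 + MvPolynomial.X 2) (MvPolynomial.X 1))) := by
  rw [v411_eq, map_add, map_smul, map_smul, map_add, ss13_mo, ss13_mo, ss13_mo, pol_bb1, pol_bb1,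
    pol_bb1, rp_neg, rp_neg, rp_neg, rp_add, fsmul_rp, fsmul_rp, rp_add, Pf]
  congr 1 <;> ring

private theorem D1_eq (al be : F) : D 3 (tt 1 (v411 al be)) =
    rp (-(C al * (MvPolynomial.X 0 ^ 4 * gs (MvPolynomial.X 1) (MvPolynomial.X 2) 1 + MvPolynomial.X 0 ^ 2 * gs (MvPolynomial.X 1) (MvPolynomial.X 2) 3) +
        C be * (MvPolynomial.X 0 ^ 3 * gs (MvPolynomial.X 1) (MvPolynomial.X 2) 2)))
      (-(C al * (MvPolynomial.X 1 * gs (MvPolynomial.X 0) (MvPolynomial.X 2) 4 + MvPolynomial.X 1 ^ 3 * gs (MvPolynomial.X 0) (MvPolynomial.X 2) 2) +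
        C be * (MvPolynomial.X 1 ^ 2 * gs (MvPolynomial.X 0) (MvPolynomial.X 2) 3))) := by
  have h : tt 1 (v411 al be) = al • (mo F 4 1 + mo F 2 3) + be • mo F 3 2 := by
    rw [v411_eq, map_add, map_smul, map_smul, map_add, ← mo_left, ← mo_left, ← mo_left]
  rw [h, map_add, map_smul, map_smul, map_add, D3_mo, D3_mo, D3_mo]
  simp only [pol_bb0, pol_bb1, rp_neg, rp_sub, rp_add, fsmul_rp]
  congr 1 <;> ring

private theorem D2_eq (al be : F) : D 3 (tt 2 (v411 al be)) =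
    rp (-(C al * (MvPolynomial.X 0 ^ 3 * gs (MvPolynomial.X 1) (MvPolynomial.X 2) 2 + MvPolynomial.X 0 * gs (MvPolynomial.X 1) (MvPolynomial.X 2) 4) +
        C be * (MvPolynomial.X 0 ^ 2 * gs (MvPolynomial.X 1) (MvPolynomial.X 2) 3)))
      (-(C al * (MvPolynomial.X 1 ^ 2 * gs (MvPolynomial.X 0) (MvPolynomial.X 2) 3 + MvPolynomial.X 1 ^ 4 * gs (MvPolynomial.X 0) (MvPolynomial.X 2) 1) +
        C be * (MvPolynomial.X 1 ^ 3 * gs (MvPolynomial.X 0) (MvPolynomial.X 2) 2))) := by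
  have h : tt 2 (v411 al be) = al • (mo F 3 2 + mo F 1 4) + be • mo F 2 3 := by
    rw [v411_eq, map_add, map_smul, map_smul, map_add, ← mo_right, ← mo_right, ← mo_right]
  rw [h, map_add, map_smul, map_smul, map_add, D3_mo, D3_mo, D3_mo]
  simp only [pol_bb0, pol_bb1, rp_neg, rp_sub, rp_add, fsmul_rp]
  congr 1 <;> ring

private theorem ev0 : ev (F := F) 0 = rp (-(MvPolynomial.X 1 * MvPolynomial.X 2) + MvPolynomial.X 1 * MvPolynomial.X 0 + MvPolynomial.X 2 ^ 2 + MvPolynomial.X 2 * MvPolynomial.X 0)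
    (MvPolynomial.X 2 ^ 2 - MvPolynomial.X 1 ^ 2) := rfl

private theorem ev1 : ev (F := F) 1 = rp (-(MvPolynomial.X 0 ^ 2 - MvPolynomial.X 2 ^ 2))
    (-(MvPolynomial.X 2 * MvPolynomial.X 0) + MvPolynomial.X 2 * MvPolynomial.X 1 + MvPolynomial.X 0 ^ 2 + MvPolynomial.X 0 * MvPolynomial.X 1 - (MvPolynomial.X 0 ^ 2 - MvPolynomial.X 2 ^ 2)) := by
  have h : ev (F := F) 1 = pol (-(MvPolynomial.X 2 * MvPolynomial.X 0) + MvPolynomial.X 2 * MvPolynomial.X 1 + MvPolynomial.X 0 ^ 2 + MvPolynomial.X 0 * MvPolynomial.X 1) (bb 1) +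
    pol (MvPolynomial.X 0 ^ 2 - MvPolynomial.X 2 ^ 2) (bb 2) := rfl
  rw [h, pol_bb1, pol_bb2, rp_add]
  congr 1 <;> ring

private theorem ev2 : ev (F := F) 2 =
    rp (MvPolynomial.X 1 ^ 2 - MvPolynomial.X 0 ^ 2 - (-(MvPolynomial.X 0 * MvPolynomial.X 1) + MvPolynomial.X 0 * MvPolynomial.X 2 + MvPolynomial.X 1 ^ 2 + MvPolynomial.X 1 * MvPolynomial.X 2))
      (-(-(MvPolynomial.X 0 * MvPolynomial.X 1) + MvPolynomial.X 0 * MvPolynomial.X 2 + MvPolynomial.X 1 ^ 2 + MvPolynomial.X 1 * MvPolynomial.X 2)) := by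
  have h : ev (F := F) 2 = pol (-(MvPolynomial.X 0 * MvPolynomial.X 1) + MvPolynomial.X 0 * MvPolynomial.X 2 + MvPolynomial.X 1 ^ 2 + MvPolynomial.X 1 * MvPolynomial.X 2) (bb 2) +
    pol (MvPolynomial.X 1 ^ 2 - MvPolynomial.X 0 ^ 2) (bb 0) := rfl
  rw [h, pol_bb0, pol_bb2, rp_add]
  congr 1 <;> ring

private theorem rp_congr {p q p' q' : R3 F} (h : p = p') (h' : q = q') : rp p q = rp p' q' := by
  rw [h, h']

private theorem pv : (Equiv.swap 0 1 : Equiv.Perm (Fin 3)) 0 = 1 ∧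
    (Equiv.swap 0 1 : Equiv.Perm (Fin 3)) 1 = 0 ∧ (Equiv.swap 0 1 : Equiv.Perm (Fin 3)) 2 = 2 ∧
    (Equiv.swap 0 2 : Equiv.Perm (Fin 3)) 0 = 2 ∧
    (Equiv.swap 0 2 : Equiv.Perm (Fin 3)) 1 = 1 ∧ (Equiv.swap 0 2 : Equiv.Perm (Fin 3)) 2 = 0 ∧
    (Equiv.swap 1 2 : Equiv.Perm (Fin 3)) 0 = 0 ∧
    (Equiv.swap 1 2 : Equiv.Perm (Fin 3)) 1 = 2 ∧ (Equiv.swap 1 2 : Equiv.Perm (Fin 3)) 2 = 1 ∧
    cy 0 = 1 ∧ cy 1 = 2 ∧ cy 2 = 0 ∧ cy⁻¹ 0 = 2 ∧ cy⁻¹ 1 = 0 ∧ cy⁻¹ 2 = 1 := by decide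

private theorem gs1 {R : Type u} [CommRing R] (t v : R) : gs t v 1 = 1 := by
  simp only [gs, mul_zero, pow_zero, zero_add]

private theorem gs2 {R : Type u} [CommRing R] (t v : R) : gs t v 2 = 2 * t + v := by
  simp only [gs, mul_zero, pow_zero, zero_add, mul_one, pow_one]
  ring

private theorem gs3 {R : Type u} [CommRing R] (t v : R) :
    gs t v 3 = t * (2 * t + v) + (t + v) ^ 2 := by
  simp only [gs, mul_zero, pow_zero, zero_add, mul_one, pow_one]
  ring

private theorem gs4 {R : Type u} [CommRing R] (t v : R) :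
    gs t v 4 = t * (t * (2 * t + v) + (t + v) ^ 2) + (t + v) ^ 3 := by
  simp only [gs, mul_zero, pow_zero, zero_add, mul_one, pow_one]
  ring

private theorem S1_mem [CharZero F] {T : Submodule F (FL F)} (hT : IsTIdeal F T) {al be : F}
    (h : v411 al be ∈ T) :
    (C (3 * al - 2 * be) : R3 F) • ((s2 : R3 F) • GG (ev (F := F))
      + (C 2 : R3 F) • ∑ i : Fin 3, (MvPolynomial.X i ^ 2 : R3 F) • ev (F := F) i) ∈ T := by
  have e1 : (C (3 * al - 2 * be) : R3 F) • ((s2 : R3 F) • GG (ev (F := F))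
      + (C 2 : R3 F) • ∑ i : Fin 3, (MvPolynomial.X i ^ 2 : R3 F) • ev (F := F) i) =
      (2 : F) • ren (up3 (Equiv.swap 1 2)) (ss 1 3 (v411 al be)) +
      (2 : F) • ren (up3 (Equiv.swap 0 2)) (ss 1 3 (v411 al be)) +
      (2 : F) • ren (up3 (Equiv.swap 1 2)) (ss 2 3 (v411 al be)) +
      (2 : F) • ⁅v411 al be, MP_b4a71d_al.X F 3⁆ +
      (2 : F) • ren (up3 cy) ⁅v411 al be, MP_b4a71d_al.X F 3⁆ +
      (2 : F) • ren (up3 cy⁻¹) ⁅v411 al be, MP_b4a71d_al.X F 3⁆ := by
    rw [s13_eq, s23_eq, br_eq, ren021, ren021, ren210, ren120, ren201, Fin.sum_univ_three, GG,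
      ev0, ev1, ev2]
    simp only [rp_add, smul_rp, fsmul_rp]
    apply rp_congr
    · apply MvPolynomial.funext
      intro x
      simp only [Pf, s2, map_sub, map_add, map_mul, map_neg, map_pow, rename_X, rename_C, eval_X,
        eval_C, pv, map_zero, map_ofNat]
      ring
    · apply MvPolynomial.funext
      intro x
      simp only [Pf, s2, map_sub, map_add, map_mul, map_neg, map_pow, rename_X, rename_C, eval_X,
        eval_C, pv, map_zero, map_ofNat]
      ring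
  rw [e1]
  have h1 := hT.ss_mem 1 3 h
  have h2 := hT.ss_mem 2 3 h
  have h3 := hT.lie_mem _ h (MP_b4a71d_al.X F 3)
  exact T.add_mem (T.add_mem (T.add_mem (T.add_mem (T.add_mem
    (T.smul_mem _ (hT.ren_mem _ h1)) (T.smul_mem _ (hT.ren_mem _ h1)))
    (T.smul_mem _ (hT.ren_mem _ h2))) (T.smul_mem _ h3)) (T.smul_mem _ (hT.ren_mem _ h3)))
    (T.smul_mem _ (hT.ren_mem _ h3))

private theorem S2_mem [CharZero F] {T : Submodule F (FL F)} (hT : IsTIdeal F T) {al be : F}
    (h : v411 al be ∈ T) :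
    (C al : R3 F) • ((s1 ^ 2 - C 6 * s2 : R3 F) • GG (ev (F := F)) - (C 6 : R3 F)
      • ∑ i : Fin 3, (MvPolynomial.X i ^ 2 : R3 F) • ev (F := F) i) +
      (C be : R3 F) • ((C (9/2) * s2 : R3 F) • GG (ev (F := F))
      + (C 6 : R3 F) • ∑ i : Fin 3, (MvPolynomial.X i ^ 2 : R3 F) • ev (F := F) i) ∈ T := by
  have e1 : (C al : R3 F) • ((s1 ^ 2 - C 6 * s2 : R3 F) • GG (ev (F := F)) - (C 6 : R3 F)
      • ∑ i : Fin 3, (MvPolynomial.X i ^ 2 : R3 F) • ev (F := F) i) +
      (C be : R3 F) • ((C (9/2) * s2 : R3 F) • GG (ev (F := F))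
      + (C 6 : R3 F) • ∑ i : Fin 3, (MvPolynomial.X i ^ 2 : R3 F) • ev (F := F) i) =
      (D 3 (tt 1 (v411 al be)) + D 3 (tt 2 (v411 al be))) +
      (ren (up3 cy) (D 3 (tt 1 (v411 al be))) + ren (up3 cy) (D 3 (tt 2 (v411 al be)))) +
      (ren (up3 cy⁻¹) (D 3 (tt 1 (v411 al be))) + ren (up3 cy⁻¹) (D 3 (tt 2 (v411 al be)))) +
      (7 : F) • ren (up3 (Equiv.swap 1 2)) ⁅v411 al be, MP_b4a71d_al.X F 3⁆ +
      (7 : F) • ren (up3 (Equiv.swap 0 1)) ⁅v411 al be, MP_b4a71d_al.X F 3⁆ +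
      (7 : F) • ren (up3 (Equiv.swap 0 2)) ⁅v411 al be, MP_b4a71d_al.X F 3⁆ := by
    rw [D1_eq, D2_eq, br_eq, ren021, ren102, ren210, ren120, ren120, ren201, ren201,
      Fin.sum_univ_three, GG, ev0, ev1, ev2]
    simp only [rp_add, rp_sub, smul_rp, fsmul_rp, gs1, gs2, gs3, gs4]
    apply rp_congr
    · apply MvPolynomial.funext
      intro x
      simp only [Pf, s1, s2, map_sub, map_add, map_mul, map_neg, map_pow, rename_X, rename_C,
        eval_X, eval_C, pv, map_zero, map_one, map_ofNat]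
      ring
    · apply MvPolynomial.funext
      intro x
      simp only [Pf, s1, s2, map_sub, map_add, map_mul, map_neg, map_pow, rename_X, rename_C,
        eval_X, eval_C, pv, map_zero, map_one, map_ofNat]
      ring
  rw [e1]
  have h1 : D 3 (tt 1 (v411 al be)) ∈ T := hT.dd_mem 0 3 (hT.tt_mem 1 h)
  have h2 : D 3 (tt 2 (v411 al be)) ∈ T := hT.dd_mem 0 3 (hT.tt_mem 2 h)
  have h3 := hT.lie_mem _ h (MP_b4a71d_al.X F 3)
  exact T.add_mem (T.add_mem (T.add_mem (T.add_mem (T.add_mem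
    (T.add_mem h1 h2) (T.add_mem (hT.ren_mem _ h1) (hT.ren_mem _ h2)))
    (T.add_mem (hT.ren_mem _ h1) (hT.ren_mem _ h2))) (T.smul_mem _ (hT.ren_mem _ h3)))
    (T.smul_mem _ (hT.ren_mem _ h3))) (T.smul_mem _ (hT.ren_mem _ h3))

private theorem H1_mem [CharZero F] {T : Submodule F (FL F)} (hT : IsTIdeal F T) {al be : F}
    (h : v411 al be ∈ T) : h1v (ev (F := F)) al be 0 - h1v (ev (F := F)) al be 1 ∈ T := by
  have e1 : h1v (ev (F := F)) al be 0 - h1v (ev (F := F)) al be 1 =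
      (1/2 : F) • D 3 (tt 1 (v411 al be)) + (1/2 : F) • ren (up3 cy) (D 3 (tt 1 (v411 al be))) -
      ren (up3 cy⁻¹) (D 3 (tt 1 (v411 al be))) - (1/2 : F) • D 3 (tt 2 (v411 al be)) +
      ren (up3 cy) (D 3 (tt 2 (v411 al be))) -
      (1/2 : F) • ren (up3 cy⁻¹) (D 3 (tt 2 (v411 al be))) +
      (3 : F) • ren (up3 cy⁻¹) (ss 1 3 (v411 al be)) +
      (3 : F) • ren (up3 (Equiv.swap 0 1)) (ss 2 3 (v411 al be)) +
      (3/2 : F) • ren (up3 cy⁻¹) ⁅v411 al be, MP_b4a71d_al.X F 3⁆ +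
      (3/2 : F) • ren (up3 (Equiv.swap 0 2)) ⁅v411 al be, MP_b4a71d_al.X F 3⁆ := by
    rw [D1_eq, D2_eq, br_eq, s13_eq, s23_eq]
    simp only [ren102, ren210, ren120, ren201]
    rw [h1v, h1v, GG, ev0, ev1, ev2]
    simp only [rp_add, rp_sub, smul_rp, fsmul_rp, gs1, gs2, gs3, gs4]
    apply rp_congr
    · apply MvPolynomial.funext
      intro x
      simp only [Pf, s1, s2, map_sub, map_add, map_mul, map_neg, map_pow, rename_X, rename_C,
        eval_X, eval_C, pv, map_zero, map_one, map_ofNat]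
      ring
    · apply MvPolynomial.funext
      intro x
      simp only [Pf, s1, s2, map_sub, map_add, map_mul, map_neg, map_pow, rename_X, rename_C,
        eval_X, eval_C, pv, map_zero, map_one, map_ofNat]
      ring
  rw [e1]
  have h1 : D 3 (tt 1 (v411 al be)) ∈ T := hT.dd_mem 0 3 (hT.tt_mem 1 h)
  have h2 : D 3 (tt 2 (v411 al be)) ∈ T := hT.dd_mem 0 3 (hT.tt_mem 2 h)
  have h3 := hT.lie_mem _ h (MP_b4a71d_al.X F 3)
  have h4 := hT.ss_mem 1 3 h
  have h5 := hT.ss_mem 2 3 h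
  exact T.add_mem (T.add_mem (T.add_mem (T.add_mem (T.sub_mem (T.add_mem (T.sub_mem (T.sub_mem
    (T.add_mem (T.smul_mem _ h1) (T.smul_mem _ (hT.ren_mem _ h1))) (hT.ren_mem _ h1))
    (T.smul_mem _ h2)) (hT.ren_mem _ h2)) (T.smul_mem _ (hT.ren_mem _ h2)))
    (T.smul_mem _ (hT.ren_mem _ h4))) (T.smul_mem _ (hT.ren_mem _ h5)))
    (T.smul_mem _ (hT.ren_mem _ h3))) (T.smul_mem _ (hT.ren_mem _ h3))

private theorem H3_mem [CharZero F] {T : Submodule F (FL F)} (hT : IsTIdeal F T) {al be : F}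
    (h : v411 al be ∈ T) : h3v (ev (F := F)) al be 0 - h3v (ev (F := F)) al be 1 ∈ T := by
  have e1 : h3v (ev (F := F)) al be 0 - h3v (ev (F := F)) al be 1 =
      - D 3 (tt 1 (v411 al be)) + ren (up3 cy) (D 3 (tt 1 (v411 al be))) +
      D 3 (tt 2 (v411 al be)) - ren (up3 cy⁻¹) (D 3 (tt 2 (v411 al be))) +
      (6 : F) • ren (up3 (Equiv.swap 0 1)) (ss 1 3 (v411 al be)) +
      (6 : F) • ren (up3 cy) (ss 2 3 (v411 al be)) +
      (5 : F) • ren (up3 cy⁻¹) ⁅v411 al be, MP_b4a71d_al.X F 3⁆ +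
      (5 : F) • ren (up3 (Equiv.swap 0 2)) ⁅v411 al be, MP_b4a71d_al.X F 3⁆ := by
    rw [D1_eq, D2_eq, br_eq, s13_eq, s23_eq]
    simp only [ren102, ren210, ren120, ren201]
    rw [h3v, h3v, GG, ev0, ev1, ev2]
    simp only [rp_add, rp_sub, rp_neg, smul_rp, fsmul_rp, gs1, gs2, gs3, gs4]
    apply rp_congr
    · apply MvPolynomial.funext
      intro x
      simp only [Pf, s1, s2, map_sub, map_add, map_mul, map_neg, map_pow, rename_X, rename_C,
        eval_X, eval_C, pv, map_zero, map_one, map_ofNat]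
      ring
    · apply MvPolynomial.funext
      intro x
      simp only [Pf, s1, s2, map_sub, map_add, map_mul, map_neg, map_pow, rename_X, rename_C,
        eval_X, eval_C, pv, map_zero, map_one, map_ofNat]
      ring
  rw [e1]
  have h1 : D 3 (tt 1 (v411 al be)) ∈ T := hT.dd_mem 0 3 (hT.tt_mem 1 h)
  have h2 : D 3 (tt 2 (v411 al be)) ∈ T := hT.dd_mem 0 3 (hT.tt_mem 2 h)
  have h3 := hT.lie_mem _ h (MP_b4a71d_al.X F 3)
  have h4 := hT.ss_mem 1 3 h
  have h5 := hT.ss_mem 2 3 h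
  exact T.add_mem (T.add_mem (T.add_mem (T.add_mem (T.sub_mem (T.add_mem (T.add_mem
    (T.neg_mem h1) (hT.ren_mem _ h1)) h2) (hT.ren_mem _ h2))
    (T.smul_mem _ (hT.ren_mem _ h4))) (T.smul_mem _ (hT.ren_mem _ h5)))
    (T.smul_mem _ (hT.ren_mem _ h3))) (T.smul_mem _ (hT.ren_mem _ h3))

private theorem H1_cy [CharZero F] (al be : F) :
    ren (up3 cy) (h1v (ev (F := F)) al be 0 - h1v (ev (F := F)) al be 1) =
      h1v (ev (F := F)) al be 1 - h1v (ev (F := F)) al be 2 := by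
  rw [h1v, h1v, h1v, GG, ev0, ev1, ev2]
  simp only [rp_add, rp_sub, smul_rp, ren120]
  apply rp_congr
  · apply MvPolynomial.funext
    intro x
    simp only [s1, s2, map_sub, map_add, map_mul, map_neg, map_pow, rename_X, rename_C,
      eval_X, eval_C, pv, map_zero, map_one, map_ofNat]
    ring
  · apply MvPolynomial.funext
    intro x
    simp only [s1, s2, map_sub, map_add, map_mul, map_neg, map_pow, rename_X, rename_C,
      eval_X, eval_C, pv, map_zero, map_one, map_ofNat]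
    ring

private theorem H3_cy [CharZero F] (al be : F) :
    ren (up3 cy) (h3v (ev (F := F)) al be 0 - h3v (ev (F := F)) al be 1) =
      h3v (ev (F := F)) al be 1 - h3v (ev (F := F)) al be 2 := by
  rw [h3v, h3v, h3v, GG, ev0, ev1, ev2]
  simp only [rp_add, rp_sub, smul_rp, ren120]
  apply rp_congr
  · apply MvPolynomial.funext
    intro x
    simp only [s1, s2, map_sub, map_add, map_mul, map_neg, map_pow, rename_X, rename_C,
      eval_X, eval_C, pv, map_zero, map_one, map_ofNat]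
    ring
  · apply MvPolynomial.funext
    intro x
    simp only [s1, s2, map_sub, map_add, map_mul, map_neg, map_pow, rename_X, rename_C,
      eval_X, eval_C, pv, map_zero, map_one, map_ofNat]
    ring

private theorem all_of_two {T : Submodule F (FL F)} {v : Fin 3 → FL F} (h1 : v 0 - v 1 ∈ T)
    (h2 : v 1 - v 2 ∈ T) (i j : Fin 3) : v i - v j ∈ T := by
  have key : ∀ i : Fin 3, v i - v 1 ∈ T := by
    intro i
    fin_cases i
    · exact h1
    · change v 1 - v 1 ∈ T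
      rw [sub_self]
      exact T.zero_mem
    · have := T.neg_mem h2
      rw [neg_sub] at this
      exact this
  have := T.sub_mem (key i) (key j)
  rwa [sub_sub_sub_cancel_right] at this

end normal_form

/-- The consequences of a (411) vector in level `(3, 4)`.  With `f = v411 al be` and the letters
permuted by `up3 s` the following identities hold EXACTLY in `FL F` (`br = ⁅f, y_3⁆`,
`S13 = ss 1 3 f`, `S23 = ss 2 3 f`, `Dl = D 3 (tt l f)`; `(abc)` = the permutation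
`0 ↦ a, 1 ↦ b, 2 ↦ c` of `Fin 3`):
* `S1`: `2 S13^(021) + 2 S13^(210) + 2 S23^(021) + 2 br^(012) + 2 br^(120) + 2 br^(201)`;
* `S2`: `D1 + D2` summed over `(012), (120), (201)` `+ 7 br^(021) + 7 br^(102) + 7 br^(210)`;
* `H1 0 - H1 1`: `1/2 D1^(012) + 1/2 D1^(120) - D1^(201) - 1/2 D2^(012) + D2^(120)
    - 1/2 D2^(201) + 3 S13^(201) + 3 S23^(102) + 3/2 br^(201) + 3/2 br^(210)`;
* `H3 0 - H3 1`: `- D1^(012) + D1^(120) + D2^(012) - D2^(201) + 6 S13^(102) + 6 S23^(120)
    + 5 br^(201) + 5 br^(210)`.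
Proof of the identities: `⁅pol p [y1,y2], y3⁆ = pol p b_3`,
`ss 2 3 (pol p [y1,y2]) = - pol (p(t_1, t_2 + t_3)) b_1`,
`ss 1 3 (pol p [y1,y2]) = - pol (p(t_1 + t_3, t_2)) b_2`,
`D 3 (pol p [y1,y2]) = - pol ((p(t_1,t_2+t_3) - p)/t_3) b_1 - pol ((p(t_1+t_3,t_2) - p)/t_3) b_2`
for `p` without `t_3`, and comparison of coefficients of `b_1, b_2` (`b_3 = - b_1 - b_2`). -/
theorem ARel_of_mem [CharZero F] {T : Submodule F (FL F)} (hT : IsTIdeal F T) {al be : F}
    (h : v411 al be ∈ T) : ARel (eq3 hT) al be := by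
  have hz : ∀ f : FL F, f ∈ T → (TS hT).mkQ f = 0 := fun f hf =>
    (Submodule.Quotient.mk_eq_zero (TS hT)).2 hf
  have hs : ∀ f g : FL F, f - g ∈ T → (TS hT).mkQ f = (TS hT).mkQ g := by
    intro f g hfg
    have := hz _ hfg
    rwa [map_sub, sub_eq_zero] at this
  refine ⟨?_, ?_, ?_, ?_⟩
  · have h1 := hz _ (S1_mem hT h)
    rw [← h1]
    simp only [GG, eq3, map_add, map_smul, map_sum]
  · have h1 := hz _ (S2_mem hT h)
    rw [← h1]
    simp only [GG, eq3, map_add, map_sub, map_smul, map_sum]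
  · intro i j
    have h1 := H1_mem hT h
    have h2 := hT.ren_mem (up3 cy) h1
    rw [H1_cy] at h2
    have h3 := hs _ _ (all_of_two h1 h2 i j)
    have h4 : ∀ i, h1v (eq3 hT) al be i = (TS hT).mkQ (h1v (ev (F := F)) al be i) := by
      intro i
      simp only [h1v, GG, eq3, map_add, map_sub, map_smul]
    rw [h4, h4, h3]
  · intro i j
    have h1 := H3_mem hT h
    have h2 := hT.ren_mem (up3 cy) h1
    rw [H3_cy] at h2
    have h3 := hs _ _ (all_of_two h1 h2 i j)
    have h4 : ∀ i, h3v (eq3 hT) al be i = (TS hT).mkQ (h3v (ev (F := F)) al be i) := by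
      intro i
      simp only [h3v, GG, eq3, map_add, map_sub, map_smul]
    rw [h4, h4, h3]

end

end Pool.Agent.Lib.MP_b4a71d_al
end
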