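import Pool.Agent.Lib.MP_b4a71d_al.S.Main

/-!
# Distributive varieties which are not defined by identities of bounded degree
-/

set_option autoImplicit false
set_option linter.unusedSectionVars false

namespace Pool.Agent.Lib.MP_b4a71d_al

universe u

noncomputable section

open Polynomial

variable {F : Type u} [Field F]

/-! ### The two dimensional nonabelian Lie algebra -/

/-- The two dimensional nonabelian Lie algebra. -/
def R2 (F : Type u) := F × F

instance : AddCommGroup (R2 F) := inferInstanceAs (AddCommGroup (F × F))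

instance : Module F (R2 F) := inferInstanceAs (Module F (F × F))

instance : Bracket (R2 F) (R2 F) := ⟨fun x y => (0, x.1 * y.2 - x.2 * y.1)⟩

theorem R2.lie_def (x y : R2 F) : ⁅x, y⁆ = ((0, x.1 * y.2 - x.2 * y.1) : F × F) := rfl

theorem R2.add_def (x y : R2 F) : x + y = ((x.1 + y.1, x.2 + y.2) : F × F) := rfl

theorem R2.smul_def (c : F) (x : R2 F) : c • x = ((c * x.1, c * x.2) : F × F) := rfl

theorem R2.zero_def : (0 : R2 F) = ((0, 0) : F × F) := rfl

theorem R2.ext' {x y : R2 F} (h1 : x.1 = y.1) (h2 : x.2 = y.2) : x = y := Prod.ext h1 h2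

instance : LieRing (R2 F) where
  add_lie x y z := by
    simp only [R2.lie_def, R2.add_def]
    apply Prod.ext
    · simp
    · simp only
      ring
  lie_add x y z := by
    simp only [R2.lie_def, R2.add_def]
    apply Prod.ext
    · simp
    · simp only
      ring
  lie_self x := by
    simp only [R2.lie_def, R2.zero_def]
    apply Prod.ext
    · rfl
    · simp only
      ring
  leibniz_lie x y z := by
    simp only [R2.lie_def, R2.add_def]
    apply Prod.ext
    · simp
    · simp only
      ring

instance : LieAlgebra F (R2 F) where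
  lie_smul c x y := by
    simp only [R2.lie_def, R2.smul_def]
    apply Prod.ext
    · simp
    · simp only
      ring

/-- The element `h` of the two dimensional nonabelian Lie algebra. -/
def R2.h (F : Type u) [Field F] : R2 F := ((1, 0) : F × F)

/-- The multiples of the element `e` of the two dimensional nonabelian Lie algebra. -/
def R2.e {F : Type u} [Field F] (c : F) : R2 F := ((0, c) : F × F)

/-- The two dimensional nonabelian Lie algebra as an object. -/
def R2alg (F : Type u) [Field F] : LieAlg F := ⟨R2 F⟩

/-- The identities of the two dimensional nonabelian Lie algebra. -/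
def T0 (F : Type u) [Field F] : Submodule F (FL F) := idl F {R2alg F}

theorem T0_isTIdeal : IsTIdeal F (T0 F) := idl_isTIdeal _

theorem mem_T0 {f : FL F} : f ∈ T0 F ↔ ∀ φ : FL F →ₗ⁅F⁆ R2 F, φ f = 0 := by
  constructor
  · intro h φ
    exact h (R2alg F) rfl φ
  · intro h A hA φ
    rw [Set.mem_singleton_iff] at hA
    subst hA
    exact h φ

theorem two_e {s : Multiset ℕ} {f : FL F} (hf : f ∈ HomC s) (φ : FL F →ₗ⁅F⁆ R2 F) (p : ℕ → Prop)
    [DecidablePred p] (hp : ∀ i, p i → (φ (X F i)).1 = 0) :
    (1 ≤ s.countP p → (φ f).1 = 0) ∧ (2 ≤ s.countP p → φ f = 0) := by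
  refine homC_induction (p := fun s f => (1 ≤ s.countP p → (φ f).1 = 0) ∧
    (2 ≤ s.countP p → φ f = 0)) ?_ ?_ ?_ ?_ ?_ hf
  · intro i
    constructor
    · intro h
      apply hp
      by_contra hcon
      rw [← Multiset.cons_zero, Multiset.countP_cons_of_neg _ hcon] at h
      simp at h
    · intro h
      have h2 := Multiset.countP_le_card p ({i} : Multiset ℕ)
      rw [Multiset.card_singleton] at h2
      omega
  · intro s t f g _ _ h1 h2
    rw [LieHom.map_lie, Multiset.countP_add]
    refine ⟨fun _ => rfl, fun h => ?_⟩
    rcases Nat.lt_or_ge 1 (s.countP p) with hs | hs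
    · rw [h1.2 hs, zero_lie]
    · rcases Nat.lt_or_ge 1 (t.countP p) with ht | ht
      · rw [h2.2 ht, lie_zero]
      · have h3 := h1.1 (by omega)
        have h4 := h2.1 (by omega)
        rw [R2.lie_def, h3, h4, zero_mul, mul_zero, sub_zero]
        rfl
  · intro s
    rw [map_zero]
    exact ⟨fun _ => rfl, fun _ => rfl⟩
  · intro s f g _ _ h1 h2
    rw [map_add]
    constructor
    · intro h
      rw [R2.add_def]
      change (φ f).1 + (φ g).1 = 0
      rw [h1.1 h, h2.1 h, add_zero]
    · intro h
      rw [h1.2 h, h2.2 h, add_zero]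
  · intro s c f _ h1
    rw [map_smul]
    constructor
    · intro h
      rw [R2.smul_def]
      change c * (φ f).1 = 0
      rw [h1.1 h, mul_zero]
    · intro h
      rw [h1.2 h, smul_zero]

theorem level_T0_generic {Y : Finset ℕ} (h0 : 0 ∉ Y) (hY : 2 ≤ Y.card) {d : ℕ} {f : FL F}
    (hf : f ∈ WW Y d) (hE : ∀ j ∈ Y, E j f ∈ T0 F) (w : ℕ → R2 F) (hw : (w 0).1 ≠ 0) :
    sb w f = 0 := by
  classical
  obtain ⟨i, hi, j, hj, hij⟩ := Finset.one_lt_card.1 hY
  have hci : (cont Y d).count i = 1 := count_cont hi h0 d
  have hcj : (cont Y d).count j = 1 := count_cont hj h0 d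
  -- substituting a multiple of `w 0` gives zero
  have hz : ∀ (w : ℕ → R2 F) (l : ℕ), l ∈ Y → sb (Function.update w l (w 0)) f = 0 := by
    intro w l hl
    have h1 : sb w (E l f) = sb (Function.update w l (w 0)) f := by
      rw [E, dd_eq_ren 0 hf (count_cont hl h0 d)]
      change ((sb w).comp (ren (mrg l 0))) f = _
      apply hom_congr hf
      intro i _
      rw [LieHom.comp_apply, ren_X, sb_X, sb_X]
      by_cases h : i = l
      · subst h
        rw [mrg_same, Function.update_self]
      · rw [mrg_ne h, Function.update_of_ne h]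
    rw [← h1]
    exact mem_T0.1 (hE l hl) _
  have hi0 : i ≠ 0 := by
    rintro rfl
    exact h0 hi
  have hj0 : j ≠ 0 := by
    rintro rfl
    exact h0 hj
  have hdec : ∀ v : R2 F, ∃ (t : F) (e : R2 F), e.1 = 0 ∧ v = e + t • w 0 := by
    intro v
    refine ⟨v.1 / (w 0).1, ((0, v.2 - v.1 / (w 0).1 * (w 0).2) : F × F), rfl, ?_⟩
    apply R2.ext'
    · rw [R2.add_def, R2.smul_def]
      change v.1 = 0 + v.1 / (w 0).1 * (w 0).1
      rw [div_mul_cancel₀ _ hw, zero_add]
    · rw [R2.add_def, R2.smul_def]
      change v.2 = (v.2 - v.1 / (w 0).1 * (w 0).2) + v.1 / (w 0).1 * (w 0).2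
      ring
  obtain ⟨ti, ei, hei, hvi⟩ := hdec (w i)
  obtain ⟨tj, ej, hej, hvj⟩ := hdec (w j)
  have h1 : sb w f = sb (Function.update w i ei) f := by
    conv_lhs => rw [← Function.update_eq_self i w, hvi]
    rw [sb_add hf w hci, sb_smul hf w hci, hz w i hi, smul_zero, add_zero]
  have h2 : sb (Function.update w i ei) f =
      sb (Function.update (Function.update w i ei) j ej) f := by
    have h3 : (Function.update w i ei) j = ej + tj • (Function.update w i ei) 0 := by
      rw [Function.update_of_ne (Ne.symm hij), Function.update_of_ne (Ne.symm hi0)]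
      exact hvj
    conv_lhs => rw [← Function.update_eq_self j (Function.update w i ei), h3]
    rw [sb_add hf _ hcj, sb_smul hf _ hcj, hz _ j hj, smul_zero, add_zero]
  rw [h1, h2]
  refine (two_e hf _ (fun l => l = i ∨ l = j) ?_).2 ?_
  · rintro l (rfl | rfl)
    · rw [sb_X, Function.update_of_ne hij, Function.update_self]
      exact hei
    · rw [sb_X, Function.update_self]
      exact hej
  · have h3 : (cont Y d).countP (fun l => l = i ∨ l = j) ≥
        (i ::ₘ j ::ₘ 0).countP (fun l => l = i ∨ l = j) := by
      apply Multiset.countP_le_of_le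
      rw [Multiset.le_iff_subset]
      · intro l hl
        simp only [Multiset.mem_cons, Multiset.notMem_zero, or_false] at hl
        rcases hl with rfl | rfl
        · exact Multiset.mem_add.2 (Or.inr hi)
        · exact Multiset.mem_add.2 (Or.inr hj)
      · simp [hij]
    refine le_trans (le_of_eq ?_) h3
    have h4 := Multiset.countP_cons_of_pos (p := fun l : ℕ => l = i ∨ l = j) (a := i) (j ::ₘ 0)
      (Or.inl rfl)
    have h5 := Multiset.countP_cons_of_pos (p := fun l : ℕ => l = i ∨ l = j) (a := j) 0
      (Or.inr rfl)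
    rw [h4, h5, Multiset.countP_zero]

theorem level_T0 [CharZero F] {Y : Finset ℕ} (h0 : 0 ∉ Y) (hY : 2 ≤ Y.card) {d : ℕ} {f : FL F}
    (hf : f ∈ WW Y d) (hE : ∀ j ∈ Y, E j f ∈ T0 F) : f ∈ T0 F := by
  classical
  rw [mem_T0]
  intro φ
  obtain ⟨M, hM⟩ := Infinite.exists_notMem_finset (insert 0 Y)
  rw [Finset.mem_insert, not_or] at hM
  let w : ℕ → R2 F := fun i => if i = M then R2.h F else φ (X F i)
  let z : ℕ → FL F := fun i => if i = 0 then X F M else 0
  obtain ⟨p, N, _, hp⟩ := exists_hasExp (X F) z f
  have key : ∀ c : F, sb w (fam (X F) z c f) =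
      sb (fun i => if i = 0 then φ (X F 0) + c • R2.h F else φ (X F i)) f := by
    intro c
    change ((sb w).comp (fam (X F) z c)) f = _
    apply hom_congr hf
    intro i hi
    rw [LieHom.comp_apply, fam_X, sb_X, map_add, map_smul, sb_X]
    rcases mem_cont hi with rfl | hi
    · have h1 : w 0 = φ (X F 0) := if_neg (Ne.symm hM.1)
      have h2 : z 0 = X F M := if_pos rfl
      rw [h1, h2, sb_X, if_pos rfl]
      have h3 : w M = R2.h F := if_pos rfl
      rw [h3]
    · have hiM : i ≠ M := by
        rintro rfl
        exact hM.2 hi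
      have hi0 : i ≠ 0 := by
        rintro rfl
        exact h0 hi
      have h1 : w i = φ (X F i) := if_neg hiM
      have h2 : z i = 0 := if_neg hi0
      rw [h1, h2, map_zero, smul_zero, add_zero, if_neg hi0]
  have h1 : ∀ c ∈ {c : F | c ≠ -(φ (X F 0)).1}, ∑ r ∈ Finset.range N, c ^ r • p r ∈
      LinearMap.ker (sb w : FL F →ₗ⁅F⁆ R2 F).toLinearMap := by
    intro c hc
    rw [LinearMap.mem_ker, ← hp c]
    change sb w (fam (X F) z c f) = 0
    rw [key c]
    apply level_T0_generic h0 hY hf hE
    rw [if_pos rfl]
    change (φ (X F 0)).1 + c * 1 ≠ 0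
    rw [mul_one]
    intro h
    exact hc (eq_neg_of_add_eq_zero_right h)
  have hinf : {c : F | c ≠ -(φ (X F 0)).1}.Infinite := by
    have : {c : F | c ≠ -(φ (X F 0)).1} = (({-(φ (X F 0)).1} : Finset F) : Set F)ᶜ := by
      ext c
      simp
    rw [this]
    exact Set.Finite.infinite_compl (Finset.finite_toSet _)
  have h2 := coeff_mem_of_forall _ N p _ hinf h1
  have h3 : φ f = sb w (fam (X F) z 0 f) := by
    rw [key 0]
    have h4 := sb_self φ
    conv_lhs => rw [← h4]
    apply sb_congr hf
    intro i _
    by_cases hi : i = 0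
    · subst hi
      rw [if_pos rfl, zero_smul, add_zero]
    · rw [if_neg hi]
  rw [h3]
  have h5 := hp 0
  beta_reduce at h5
  rw [h5]
  have h6 : (∑ r ∈ Finset.range N, (0 : F) ^ r • p r) ∈
      LinearMap.ker (sb w : FL F →ₗ⁅F⁆ R2 F).toLinearMap := by
    apply Submodule.sum_mem
    intro r hr
    exact Submodule.smul_mem _ _ (h2 r (Finset.mem_range.1 hr))
  exact h6

/-! ### The dichotomy -/

/-- The left normed monomial `[y, x, ..., x]`. -/
def vv (d : ℕ) : FL F := lnm (X F 1) (List.replicate d 0)

theorem W_zero {n : ℕ} (hn : 2 ≤ n) : W (F := F) 0 n = ⊥ := by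
  have : cont (Finset.Icc 1 0) n = Multiset.replicate n 0 := by
    rw [cont]
    simp
  rw [W, WW, this]
  exact homC_replicate n 0 hn

theorem W_one (d : ℕ) : W (F := F) 1 d = Submodule.span F {vv d} := by
  have : Finset.Icc 1 1 = {1} := rfl
  rw [W, this, WW_singleton]
  rfl

variable [CharZero F]

theorem rename_mem {I : Submodule F (FL F)} (hI : IsTIdeal F I) (σ : Equiv.Perm ℕ) {f : FL F}
    (h : ren σ f ∈ I) : f ∈ I := by
  have h2 := hI.map_mem (ren σ.symm) _ h
  rw [ren_ren] at h2
  have h3 : (σ.symm : ℕ → ℕ) ∘ (σ : ℕ → ℕ) = id := by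
    funext i
    simp
  rwa [h3, ren_id'] at h2

theorem exists_rename {k j : ℕ} (hj : j ∈ Finset.Icc 1 (k + 1)) :
    ∃ σ : Equiv.Perm ℕ, ∀ (d : ℕ) (f : FL F), f ∈ WW ((Finset.Icc 1 (k + 1)).erase j) d →
      ren σ f ∈ W k d := by
  obtain ⟨σ, hσ0, hσ⟩ := exists_perm_image_zero ((Finset.Icc 1 (k + 1)).erase j) (Finset.Icc 1 k)
    (by
      rw [Finset.card_erase_of_mem hj, Nat.card_Icc, Nat.card_Icc]
      rfl)
    (fun h => by
      have := Finset.mem_of_mem_erase h
      simp at this) (by simp)
  exact ⟨σ, fun d f hf => ren_WW σ hσ0 hσ hf⟩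

theorem dichotomy {A : Submodule F (FL F)} (hA : IsTIdeal F A) (hTA : T0 F ≤ A) (n : ℕ) :
    A ⊓ P n ≤ T0 F ∨ P n ≤ A := by
  rcases n with _ | _ | n
  · left
    have : P (F := F) 0 = ⊥ := homC_zero
    rw [this, inf_bot_eq]
    exact bot_le
  · have hP : P (F := F) 1 = Submodule.span F {X F 0} := by
      have h1 : Multiset.range 1 = {0} := rfl
      rw [P, h1, HomC]
      congr 1
      ext f
      constructor
      · intro h
        obtain ⟨i, hi, rfl⟩ := h.eq_X (by rw [Multiset.card_singleton])
        rw [Multiset.singleton_inj] at hi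
        rw [← hi]
        rfl
      · intro h
        rw [Set.mem_singleton_iff] at h
        rw [h]
        exact IsMonoC.var 0
    by_cases hX : X F 0 ∈ A
    · right
      rw [show (0 + 1) = 1 from rfl, hP, Submodule.span_singleton_le_iff_mem]
      exact hX
    · left
      rw [show (0 + 1) = 1 from rfl, hP]
      rintro f ⟨hfA, hf⟩
      obtain ⟨c, rfl⟩ := Submodule.mem_span_singleton.1 hf
      by_cases hc : c = 0
      · rw [hc, zero_smul]
        exact Submodule.zero_mem _
      · exact absurd ((Submodule.smul_mem_iff _ hc).1 hfA) hX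
  · by_cases hv : vv (n + 1) ∈ A
    · right
      have key : ∀ k d, k + d = n + 2 → W k d ≤ A := by
        intro k
        induction k with
        | zero =>
          intro d hd
          rw [W_zero (by omega)]
          exact bot_le
        | succ k ih =>
          intro d hd
          rcases k with _ | k
          · rw [show (0 + 1) = 1 from rfl, W_one, Submodule.span_singleton_le_iff_mem]
            have : d = n + 1 := by omega
            rw [this]
            exact hv
          · intro f hf
            set Y := Finset.Icc 1 (k + 1 + 1) with hY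
            have h0 : 0 ∉ Y := by simp [hY]
            have hYc : Y.card = k + 1 + 1 := by simp [hY]
            obtain ⟨q, hq0, hq⟩ := exists_q (F := F) Y (n + 2)
            have hE : ∀ j ∈ Y, E j f ∈ A := by
              intro j hj
              obtain ⟨σ, hσ⟩ := exists_rename (F := F) hj
              exact rename_mem hA σ (ih (d + 1) (by omega) (hσ _ _ (E_mem hj h0 hf)))
            have hOm : (Om Y : Module.End F (FL F)) f ∈ A := by
              rw [Om, LinearMap.sum_apply]
              apply Submodule.sum_mem
              intro j hj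
              rw [Module.End.mul_apply]
              exact hA.dd_mem _ _ (hE j hj)
            have h1 := aeval_sub_mem (Om Y) A (hA.Om_mem Y) q f hOm
            have hcardW : Multiset.card (cont Y d) = n + 2 := by
              rw [cont, Multiset.card_add, Multiset.card_replicate, Finset.card_val, hYc]
              omega
            have h2 : aeval (Om Y) q f ∈ T0 F := by
              apply level_T0 h0 (by omega) (d := d)
              · refine aeval_mem_of_stable _ (WW Y d) (fun x hx => ?_) q f hf
                rw [Om, LinearMap.sum_apply]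
                apply Submodule.sum_mem
                intro j hj
                rw [Module.End.mul_apply]
                exact Lam_le Y d ((le_iSup₂_of_le
                  (f := fun j (_ : j ∈ Y) => (WW (F := F) (Y.erase j) (d + 1)).map (D j))
                  j hj le_rfl) ⟨_, E_mem hj h0 hx, rfl⟩)
              · intro j hj
                rw [(hq (cont Y d) hcardW (fun i hi => mem_cont hi) f hf j hj).1]
                exact Submodule.zero_mem _
            have h4 : q.coeff 0 • f ∈ A := by
              have := A.sub_mem (hTA h2) h1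
              rwa [sub_sub_cancel] at this
            exact (Submodule.smul_mem_iff _ hq0).1 h4
      rw [P_eq_W]
      exact key (n + 1) 1 rfl
    · left
      have key : ∀ k d, k + d = n + 2 → A ⊓ W k d ≤ T0 F := by
        intro k
        induction k with
        | zero =>
          intro d hd
          rw [W_zero (by omega), inf_bot_eq]
          exact bot_le
        | succ k ih =>
          intro d hd
          rcases k with _ | k
          · rw [show (0 + 1) = 1 from rfl, W_one]
            have hdn : d = n + 1 := by omega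
            rw [hdn]
            rintro f ⟨hfA, hf⟩
            obtain ⟨c, rfl⟩ := Submodule.mem_span_singleton.1 hf
            by_cases hc : c = 0
            · rw [hc, zero_smul]
              exact Submodule.zero_mem _
            · exact absurd ((Submodule.smul_mem_iff _ hc).1 hfA) hv
          · rintro f ⟨hfA, hf⟩
            have h0 : 0 ∉ Finset.Icc 1 (k + 1 + 1) := by simp
            apply level_T0 h0 (by simp) hf
            intro j hj
            obtain ⟨σ, hσ⟩ := exists_rename (F := F) hj
            apply rename_mem T0_isTIdeal σ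
            apply ih (d + 1) (by omega)
            exact ⟨hA.map_mem _ _ (hA.dd_mem _ _ hfA), hσ _ _ (E_mem hj h0 hf)⟩
      rw [P_eq_W]
      exact key (n + 1) 1 rfl

theorem homC_le_of_P {A : Submodule F (FL F)} (hA : IsTIdeal F A) {n : ℕ} (h : P n ≤ A)
    {s : Multiset ℕ} (hs : Multiset.card s = n) : HomC (F := F) s ≤ A := by
  rw [HomC, Submodule.span_le]
  intro f hf
  obtain ⟨l, u, hu, rfl, _⟩ := exists_lab hf
  rw [hs] at hu
  exact hA.map_mem _ _ (h hu.mem)

theorem P_succ_le {A : Submodule F (FL F)} (hA : IsTIdeal F A) {n : ℕ} (hn : 1 ≤ n)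
    (h : P n ≤ A) : P (n + 1) ≤ A := by
  have h0 : (0 : ℕ) ∈ Multiset.range (n + 1) := Multiset.mem_range.2 (by omega)
  rw [P, homC_eq_nSpan h0, NSpan, Submodule.span_le]
  rintro f ⟨l, hl, rfl⟩
  have hlen : l.length = n := by
    have := congrArg Multiset.card hl
    rw [Multiset.card_cons, Multiset.coe_card, Multiset.card_range] at this
    omega
  obtain ⟨l', i, rfl⟩ : ∃ l' i, l = l' ++ [i] := by
    rcases List.eq_nil_or_concat l with h | ⟨l', i, h⟩
    · rw [h] at hlen
      simp at hlen
      omega
    · exact ⟨l', i, by rw [h, List.concat_eq_append]⟩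
  rw [lnm_concat]
  apply hA.lie_mem
  apply homC_le_of_P hA h _ (lnm_mem (X_mem 0) l')
  rw [Multiset.card_add, Multiset.card_singleton, Multiset.coe_card]
  rw [List.length_append, List.length_singleton] at hlen
  omega

theorem P_mono_le {A : Submodule F (FL F)} (hA : IsTIdeal F A) {n m : ℕ} (hn : 1 ≤ n)
    (hnm : n ≤ m) (h : P n ≤ A) : P m ≤ A := by
  induction m, hnm using Nat.le_induction with
  | base => exact h
  | succ m hm ih => exact P_succ_le hA (by omega) ih

/-- The T-ideals containing `T0` form a chain. -/
theorem chain {A B : Submodule F (FL F)} (hA : IsTIdeal F A) (hB : IsTIdeal F B)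
    (hTA : T0 F ≤ A) (hTB : T0 F ≤ B) : A ≤ B ∨ B ≤ A := by
  by_contra hcon
  rw [not_or] at hcon
  have h1 : ∃ n, ¬ A ⊓ P n ≤ B := by
    by_contra h
    push Not at h
    exact hcon.1 (hA.le_of_P hB h)
  have h2 : ∃ n, ¬ B ⊓ P n ≤ A := by
    by_contra h
    push Not at h
    exact hcon.2 (hB.le_of_P hA h)
  obtain ⟨n, hn⟩ := h1
  obtain ⟨m, hm⟩ := h2
  have hAn : P n ≤ A := by
    rcases dichotomy hA hTA n with h | h
    · exact absurd (le_trans h hTB) hn
    · exact h
  have hBm : P m ≤ B := by
    rcases dichotomy hB hTB m with h | h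
    · exact absurd (le_trans h hTA) hm
    · exact h
  have hn1 : 1 ≤ n := by
    rcases Nat.eq_zero_or_pos n with h | h
    · subst h
      exfalso
      apply hn
      have : P (F := F) 0 = ⊥ := homC_zero
      rw [this, inf_bot_eq]
      exact bot_le
    · exact h
  have hm1 : 1 ≤ m := by
    rcases Nat.eq_zero_or_pos m with h | h
    · subst h
      exfalso
      apply hm
      have : P (F := F) 0 = ⊥ := homC_zero
      rw [this, inf_bot_eq]
      exact bot_le
    · exact h
  rcases le_total n m with h | h
  · exact hm (le_trans inf_le_right (P_mono_le hA hn1 h hAn))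
  · exact hn (le_trans inf_le_right (P_mono_le hB hm1 h hBm))

theorem distT_of_T0_le {T : Submodule F (FL F)} (hT : T0 F ≤ T) : DistT T := by
  intro A B C hA hB hC hTA hTB hTC
  rcases chain hB hC (le_trans hT hTB) (le_trans hT hTC) with h | h
  · rw [sup_eq_right.2 h]
    exact le_sup_right
  · rw [sup_eq_left.2 h]
    exact le_sup_left

/-- The elements all of whose components have degree at least `c`. -/
def High (F : Type u) [Field F] (c : ℕ) : Submodule F (FL F) :=
  SupC (fun s => c ≤ Multiset.card s)

theorem high_isTIdeal (c : ℕ) : IsTIdeal F (High F c) where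
  lie_mem f hf g := by
    refine supC_lie (q := fun s => 1 ≤ Multiset.card s) ?_ hf (mem_supC_pos g)
    intro s t hs _
    rw [Multiset.card_add]
    omega
  map_mem φ f hf := by
    have : High F c ≤ (High F c).comap φ.toLinearMap := by
      apply supC_le
      intro s hs f hf
      have h1 := (lead_part (fun s => (Multiset.card s : ℤ)) (fun s t => by
        rw [Multiset.card_add]
        push_cast
        ring) φ φ hf (fun i _ => by
          refine supC_mono (fun u hu => ?_) (mem_supC_pos _)
          rw [Multiset.card_singleton]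
          exact_mod_cast hu) (fun i _ => by
          rw [sub_self]
          exact Submodule.zero_mem _)).1
      refine supC_mono (fun t ht => ?_) h1
      have : Multiset.card s ≤ Multiset.card t := by exact_mod_cast ht
      omega
    exact this hf

theorem vv_notMem (d : ℕ) : vv d ∉ T0 F := by
  intro h
  rw [mem_T0] at h
  let w : ℕ → R2 F := fun i => if i = 0 then R2.h F else R2.e 1
  have h1 := h (sb w)
  rw [vv, map_lnm] at h1
  have h2 : ∀ d : ℕ, ∀ c : F, c ≠ 0 →
      (List.replicate d 0).foldl (fun v i => ⁅v, sb w (X F i)⁆) (R2.e c) ≠ 0 := by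
    intro d
    induction d with
    | zero =>
      intro c hc h3
      exact hc (congrArg Prod.snd h3)
    | succ d ih =>
      intro c hc
      rw [List.replicate_succ, List.foldl_cons, sb_X]
      have h3 : ⁅(R2.e c), w 0⁆ = R2.e (-c) := by
        have : w 0 = R2.h F := if_pos rfl
        rw [this, R2.lie_def]
        apply R2.ext'
        · rfl
        · change 0 * 0 - c * 1 = -c
          ring
      rw [h3]
      exact ih (-c) (neg_ne_zero.2 hc)
  apply h2 d 1 one_ne_zero
  rw [sb_X] at h1
  exact h1

theorem degLE_cmp {N : ℕ} {f : FL F} (hf : f ∈ DegLE F N) {s : Multiset ℕ}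
    (hs : N < Multiset.card s) : cmp s f = 0 := by
  have : DegLE F N ≤ LinearMap.ker (cmp (F := F) s) := by
    rw [DegLE, Submodule.span_le]
    rintro g ⟨n, hn, hg⟩
    obtain ⟨t, ht, htg⟩ := hg.exists_content
    rw [SetLike.mem_coe, LinearMap.mem_ker]
    apply cmp_of_mem_ne htg.mem
    rintro rfl
    omega
  exact this hf

/-- For every `N` there is a variety with a distributive lattice of subvarieties which is not
defined by its identities of degree at most `N`. -/
theorem part_two (N : ℕ) : ∃ V : Set (LieAlg F), IsVariety F V ∧ IsDistributive F V ∧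
    V ≠ degPart F N V := by
  set T : Submodule F (FL F) := T0 F ⊔ High F (N + 1) with hTdef
  have hT : IsTIdeal F T := T0_isTIdeal.sup (high_isTIdeal _)
  refine ⟨models F (T : Set (FL F)), isVariety_models _, ?_, ?_⟩
  · rw [isDistributive_iff (isVariety_models _), idl_models hT]
    exact distT_of_T0_le le_sup_left
  · intro hcon
    have h1 : R2alg F ∈ degPart F N (models F (T : Set (FL F))) := by
      rintro f ⟨hf, hfN⟩
      rw [identities_models hT] at hf
      have h2 : f ∈ T0 F := by
        obtain ⟨S, hS⟩ := exists_sum_cmp f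
        rw [hS]
        apply Submodule.sum_mem
        intro s _
        rcases Nat.lt_or_ge N (Multiset.card s) with hs | hs
        · rw [degLE_cmp hfN hs]
          exact Submodule.zero_mem _
        · obtain ⟨a, ha, b, hb, hab⟩ := Submodule.mem_sup.1 hf
          rw [← hab, map_add, cmp_supC (p := fun s => N + 1 ≤ Multiset.card s) (by omega) hb,
            add_zero]
          exact T0_isTIdeal.cmp_mem ha s
      exact h2 (R2alg F) rfl
    rw [← hcon] at h1
    apply vv_notMem (F := F) N
    intro A hA
    rw [Set.mem_singleton_iff] at hA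
    subst hA
    apply h1
    apply Submodule.mem_sup_right
    refine mem_supC (p := fun s => N + 1 ≤ Multiset.card s) ?_
      (lnm_mem (X_mem 1) (List.replicate N 0))
    simp

end

end Pool.Agent.Lib.MP_b4a71d_al
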