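import Pool.Agent.Lib.MP_b4a71d_al.Ops
import Pool.Agent.Lib.MP_b4a71d_al.PartTwo

/-!
# The levels 0, 1 and 2
-/

set_option autoImplicit false
set_option linter.unusedSectionVars false

namespace Pool.Agent.Lib.MP_b4a71d_al

universe u

noncomputable section

variable {F : Type u} [Field F]

/-! ### Levels which are at most one dimensional -/

theorem levelGood_of_singleton [CharZero F] {T : Submodule F (FL F)} {k d : ℕ} (v : FL F)
    (h : ∀ w ∈ KE (F := F) (Finset.Icc 1 k) d, ∃ c : F, w - c • v ∈ T)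
    (hv : v ∈ W k d) : LevelGood T k d := by
  obtain ⟨p, p1, p2, _, _, _, _⟩ := exists_prK (F := F) (Finset.Icc 1 k) (zero_notMem_Icc k) d
  apply levelGood_of_functionals (r := 1) (fun _ => 1) (fun _ => ∅)
  · intro _
    exact one_mem_GA _
  · intro _ p hp
    exact absurd hp (Set.notMem_empty p)
  · intro _ φ ψ hφ hψ
    have key : ∀ φ : FL F →ₗ[F] F, Adm T k d ∅ {a | ∃ j < (0 : Fin 1), a = 1} φ →
        ∀ w ∈ W (F := F) k d, ∃ c : F, ∀ φ : FL F →ₗ[F] F,
          Adm T k d ∅ {a | ∃ j < (0 : Fin 1), a = 1} φ → φ w = c * φ v := by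
      intro _ _ w hw
      obtain ⟨c, hc⟩ := h (p w) (p1 w hw)
      refine ⟨c, ?_⟩
      intro φ hφ
      have h1 : w = (w - p w) + (p w - c • v) + c • v := by abel
      have h2 : φ (p w - c • v) = 0 := hφ.ideal _ hc
        (Submodule.sub_mem _ (KE_le _ _ (p1 w hw)) (Submodule.smul_mem _ _ hv))
      rw [h1, map_add, map_add, hφ.lam _ (p2 w hw), h2, map_smul, smul_eq_mul]
      ring
    rename_i i
    have hi : i = 0 := Subsingleton.elim _ _
    subst hi
    by_cases hz : φ v = 0
    · refine ⟨1, 0, Or.inl one_ne_zero, ?_⟩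
      intro w hw
      obtain ⟨c, hc⟩ := key φ hφ w hw
      rw [hc φ hφ, hz]
      ring
    · refine ⟨ψ v, -φ v, Or.inr (neg_ne_zero.2 hz), ?_⟩
      intro w hw
      obtain ⟨c, hc⟩ := key φ hφ w hw
      rw [hc φ hφ, hc ψ hψ]
      ring
  · intro φ hφ w hw
    have h1 := hφ.kill 1 ⟨0, rfl⟩ 1 (fun _ _ => rfl) w hw
    have h2 : ren (⇑(1 : Equiv.Perm ℕ)) ((1 : Module.End F (FL F)) w) = w := ren_id' w
    rwa [h2] at h1

theorem level_zero [CharZero F] {T : Submodule F (FL F)} (hT : IsTIdeal F T) (d : ℕ) :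
    LevelGood T 0 d := by
  rcases d with _ | _ | d
  · apply levelGood_of_LZ hT
    have h1 : KE (F := F) (Finset.Icc 1 0) 0 ≤ ⊥ := by
      refine le_trans (KE_le _ _) ?_
      rw [WW]
      have : cont (Finset.Icc 1 0) 0 = 0 := by
        rw [cont]
        simp
      rw [this, homC_zero]
    exact le_trans h1 bot_le
  · apply levelGood_of_singleton (X F 0)
    · intro w hw
      have h1 := KE_le _ _ hw
      have h2 : cont (Finset.Icc 1 0) (0 + 1) = Multiset.range 1 := by
        rw [cont]
        rfl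
      rw [WW, h2] at h1
      have hP : HomC (F := F) (Multiset.range 1) = Submodule.span F {X F 0} := by
        have h1 : Multiset.range 1 = {0} := rfl
        rw [h1, HomC]
        congr 1
        ext f
        constructor
        · intro h
          obtain ⟨i, hi, rfl⟩ := h.eq_X (by rw [Multiset.card_singleton])
          rw [Multiset.singleton_inj] at hi
          rw [← hi]
          rfl
        · intro h
          rw [Set.mem_singleton_iff] at h
          rw [h]
          exact IsMonoC.var 0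
      rw [hP] at h1
      obtain ⟨c, rfl⟩ := Submodule.mem_span_singleton.1 h1
      exact ⟨c, by rw [sub_self]; exact T.zero_mem⟩
    · have h2 : cont (Finset.Icc 1 0) (0 + 1) = {0} := rfl
      rw [W, WW, h2]
      exact X_mem 0
  · apply levelGood_of_LZ hT
    have h1 : KE (F := F) (Finset.Icc 1 0) (d + 2) ≤ ⊥ := by
      refine le_trans (KE_le _ _) ?_
      exact le_of_eq (W_zero (by omega))
    exact le_trans h1 bot_le

theorem level_one [CharZero F] {T : Submodule F (FL F)} (d : ℕ) :
    LevelGood T 1 d := by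
  apply levelGood_of_singleton (vv d)
  · intro w hw
    have h1 := KE_le _ _ hw
    have h2 : WW (F := F) (Finset.Icc 1 1) d = Submodule.span F {vv d} := W_one d
    rw [h2] at h1
    obtain ⟨c, rfl⟩ := Submodule.mem_span_singleton.1 h1
    exact ⟨c, by rw [sub_self]; exact T.zero_mem⟩
  · rw [W_one]
    exact Submodule.mem_span_singleton_self _

/-! ### Level 2 -/

theorem hom_lnm (φ : FL F →ₗ⁅F⁆ FL F) (u : FL F) (l : List ℕ) (h : ∀ i ∈ l, φ (X F i) = X F i) :
    φ (lnm u l) = lnm (φ u) l := by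
  induction l generalizing u with
  | nil => rfl
  | cons i l ih =>
    rw [lnm_cons, lnm_cons, ih _ (fun j hj => h j (List.mem_cons_of_mem _ hj)), LieHom.map_lie,
      h i List.mem_cons_self]

/-- The element `[y_j, x, ..., x]`. -/
def yx (j a : ℕ) : FL F := lnm (X F j) (List.replicate a 0)

theorem yx_zero (j : ℕ) : yx (F := F) j 0 = X F j := rfl

theorem yx_succ (j a : ℕ) : yx (F := F) j (a + 1) = ⁅yx (F := F) j a, X F 0⁆ := by
  rw [yx, yx, List.replicate_succ', lnm_concat]

theorem yx_mem (j a : ℕ) : yx (F := F) j a ∈ WW {j} a := by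
  rw [WW_singleton]
  exact Submodule.mem_span_singleton_self _

theorem tt_yx_same (j a : ℕ) (hj : j ≠ 0) : tt j (yx (F := F) j a) = yx j (a + 1) := by
  rw [yx, hom_lnm, tt_X_same, yx, List.replicate_succ, lnm_cons]
  intro i hi
  rw [List.eq_of_mem_replicate hi, tt_X_ne (Ne.symm hj)]

theorem tt_yx_ne {i j : ℕ} (a : ℕ) (hi : i ≠ 0) (hij : j ≠ i) : tt i (yx (F := F) j a) = yx j a := by
  rw [yx, hom_lnm, tt_X_ne hij]
  intro m hm
  rw [List.eq_of_mem_replicate hm, tt_X_ne (Ne.symm hi)]

theorem ren_yx (σ : Equiv.Perm ℕ) (h0 : σ 0 = 0) (j a : ℕ) :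
    ren σ (yx (F := F) j a) = yx (F := F) (σ j) a := by
  rw [yx, ren_lnm, ren_X, List.map_replicate, h0, yx]

theorem E_yx_ne {i j : ℕ} (a : ℕ) (hi : i ≠ 0) (hij : j ≠ i) : E i (yx (F := F) j a) = 0 := by
  apply dd_eq_zero 0 (yx_mem j a)
  apply notMem_cont _ hi
  rw [Finset.mem_singleton]
  exact Ne.symm hij

theorem E_yx_succ {j : ℕ} (a : ℕ) (hj : j ≠ 0) : E j (yx (F := F) j (a + 1)) = 0 := by
  rw [← tt_yx_same j a hj]
  exact E_tt_same hj _

theorem yx_ne_zero [CharZero F] {j : ℕ} (hj : j ≠ 0) (a : ℕ) : yx (F := F) j a ≠ 0 := by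
  intro h
  have h1 : ren (Equiv.swap j 1) (yx (F := F) j a) = vv (F := F) a := by
    rw [ren_yx _ (Equiv.swap_apply_of_ne_of_ne (Ne.symm hj) (by norm_num)),
      Equiv.swap_apply_left]
    rfl
  rw [h, map_zero] at h1
  apply vv_notMem (F := F) a
  rw [← h1]
  exact Submodule.zero_mem _

/-- The element `[[y_1, x, ..., x], [y_2, x, ..., x]]`. -/
def MM (a b : ℕ) : FL F := ⁅yx (F := F) 1 a, yx (F := F) 2 b⁆

theorem MM_mem (a b : ℕ) : MM (F := F) a b ∈ W 2 (a + b) := by
  have h1 := lie_mem_homC (yx_mem (F := F) 1 a) (yx_mem (F := F) 2 b)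
  have h2 : cont {1} a + cont {2} b = cont (Finset.Icc 1 2) (a + b) := by
    have h3 : Finset.Icc 1 2 = {1, 2} := rfl
    rw [cont, cont, cont, h3, Multiset.replicate_add]
    have h4 : ({1, 2} : Finset ℕ).val = ({1} : Finset ℕ).val + ({2} : Finset ℕ).val := rfl
    rw [h4]
    abel
  rw [h2] at h1
  exact h1

theorem tt1_MM (a b : ℕ) : tt 1 (MM (F := F) a b) = MM (a + 1) b := by
  rw [MM, LieHom.map_lie, tt_yx_same 1 a (by norm_num), tt_yx_ne b (by norm_num) (by norm_num), MM]

theorem tt2_MM (a b : ℕ) : tt 2 (MM (F := F) a b) = MM a (b + 1) := by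
  rw [MM, LieHom.map_lie, tt_yx_same 2 b (by norm_num), tt_yx_ne a (by norm_num) (by norm_num), MM]

theorem MM_lie (a b : ℕ) : ⁅MM (F := F) a b, X F 0⁆ = MM (a + 1) b + MM a (b + 1) := by
  rw [MM, MM, MM, yx_succ, yx_succ, lie_lie, ← lie_skew ⁅yx 1 a, X F 0⁆ (yx 2 b)]
  abel

theorem ren_MM (a b : ℕ) : ren (Equiv.swap 1 2) (MM (F := F) a b) = -MM b a := by
  have h0 : (Equiv.swap 1 2 : Equiv.Perm ℕ) 0 = 0 :=
    Equiv.swap_apply_of_ne_of_ne (by norm_num) (by norm_num)
  rw [MM, LieHom.map_lie, ren_yx _ h0, ren_yx _ h0, Equiv.swap_apply_left,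
    Equiv.swap_apply_right, MM, lie_skew]

theorem E2_MM_zero (a : ℕ) : E 2 (MM (F := F) a 0) = yx 1 (a + 1) := by
  rw [MM, yx_zero, E_lie_y_same, E_yx_ne a (by norm_num) (by norm_num), zero_lie, zero_add,
    yx_succ]

theorem E2_MM_succ (a b : ℕ) : E 2 (MM (F := F) a (b + 1)) = 0 := by
  rw [← tt2_MM, E_tt_same (by norm_num)]

theorem E1_MM_succ (a b : ℕ) : E 1 (MM (F := F) (a + 1) b) = 0 := by
  rw [← tt1_MM, E_tt_same (by norm_num)]

theorem E1_MM_zero (b : ℕ) : E 1 (MM (F := F) 0 b) = -yx 2 (b + 1) := by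
  rw [MM, yx_zero, E, dd_lie, dd_X_same]
  have : dd 1 0 (yx (F := F) 2 b) = 0 := E_yx_ne b (by norm_num) (by norm_num)
  rw [this, lie_zero, zero_add, yx_succ, lie_skew]

theorem W_two (d : ℕ) : W (F := F) 2 d ≤
    Submodule.span F {f | ∃ a b, a + b = d ∧ f = MM a b} := by
  induction d with
  | zero =>
    have h1 : (1 : ℕ) ∈ cont (Finset.Icc 1 2) 0 := by
      rw [cont, Multiset.mem_add]
      exact Or.inr (by decide)
    rw [W, WW, homC_eq_nSpan h1, NSpan, Submodule.span_le]
    rintro f ⟨l, hl, rfl⟩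
    have h2 : cont (Finset.Icc 1 2) 0 = 1 ::ₘ ({2} : Multiset ℕ) := rfl
    rw [h2, Multiset.cons_inj_right] at hl
    have h3 : l = [2] := by
      have h4 : ((l : List ℕ) : Multiset ℕ) = (([2] : List ℕ) : Multiset ℕ) := hl
      exact List.perm_singleton.1 (Multiset.coe_eq_coe.1 h4)
    apply Submodule.subset_span
    exact ⟨0, 0, rfl, by rw [h3]; rfl⟩
  | succ d ih =>
    intro f hf
    have h1 := WW_box (zero_notMem_Icc 2) (by simp) hf
    have hle : (WW (F := F) (Finset.Icc 1 2) d).map (lieBy (X F 0)) ⊔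
        ⨆ j ∈ Finset.Icc 1 2, (WW (F := F) ((Finset.Icc 1 2).erase j) (d + 1)).map
          (lieBy (X F j)) ≤ Submodule.span F {f | ∃ a b, a + b = d + 1 ∧ f = MM a b} := by
     refine sup_le ?_ (iSup₂_le fun j hj => ?_)
     · rintro _ ⟨g, hg, rfl⟩
       have hg2 := ih hg
       rw [lieBy_apply]
       clear hg
       induction hg2 using Submodule.span_induction with
       | mem g h =>
         obtain ⟨a, b, hab, rfl⟩ := h
         rw [MM_lie]
         apply Submodule.add_mem
         · exact Submodule.subset_span ⟨a + 1, b, by omega, rfl⟩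
         · exact Submodule.subset_span ⟨a, b + 1, by omega, rfl⟩
       | zero =>
         rw [zero_lie]
         exact Submodule.zero_mem _
       | add a b _ _ h1 h2 =>
         rw [add_lie]
         exact Submodule.add_mem _ h1 h2
       | smul c a _ h1 =>
         rw [smul_lie]
         exact Submodule.smul_mem _ c h1
     · rintro _ ⟨g, hg, rfl⟩
       rw [lieBy_apply]
       have h12 : j = 1 ∨ j = 2 := by
         rw [Finset.mem_Icc] at hj
         omega
       rcases h12 with rfl | rfl
       · have h2 : (Finset.Icc 1 2).erase 1 = {2} := by decide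
         rw [h2, WW_singleton] at hg
         obtain ⟨c, rfl⟩ := Submodule.mem_span_singleton.1 hg
         rw [smul_lie]
         apply Submodule.smul_mem
         have h3 : ⁅lnm (X F 2) (List.replicate (d + 1) 0), X F 1⁆ = -MM (F := F) 0 (d + 1) := by
           rw [MM, yx_zero, yx, lie_skew]
         rw [h3]
         apply Submodule.neg_mem
         exact Submodule.subset_span ⟨0, d + 1, by omega, rfl⟩
       · have h2 : (Finset.Icc 1 2).erase 2 = {1} := by decide
         rw [h2, WW_singleton] at hg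
         obtain ⟨c, rfl⟩ := Submodule.mem_span_singleton.1 hg
         rw [smul_lie]
         apply Submodule.smul_mem
         exact Submodule.subset_span ⟨d + 1, 0, by omega, rfl⟩
    exact hle h1

/-- The highest weight vectors of level 2. -/
theorem KE_two [CharZero F] (d : ℕ) : KE (F := F) (Finset.Icc 1 2) (d + 1) ≤
    Submodule.span F {f | ∃ a b, a + 1 + (b + 1) = d + 1 ∧ f = MM (a + 1) (b + 1)} := by
  set N : Submodule F (FL F) :=
    Submodule.span F {f | ∃ a b, a + 1 + (b + 1) = d + 1 ∧ f = MM (a + 1) (b + 1)} with hN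
  have h1 : ∀ f ∈ W (F := F) 2 (d + 1), ∃ c1 c2 : F, ∃ g ∈ N,
      f = c1 • MM (d + 1) 0 + c2 • MM 0 (d + 1) + g := by
    intro f hf
    have hf2 := W_two (d + 1) hf
    clear hf
    induction hf2 using Submodule.span_induction with
    | mem f h =>
      obtain ⟨a, b, hab, rfl⟩ := h
      rcases a with _ | a
      · have : b = d + 1 := by omega
        subst this
        exact ⟨0, 1, 0, N.zero_mem, by rw [zero_smul, one_smul, zero_add, add_zero]⟩
      · rcases b with _ | b
        · have : a = d := by omega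
          subst this
          exact ⟨1, 0, 0, N.zero_mem, by rw [zero_smul, one_smul, add_zero, add_zero]⟩
        · exact ⟨0, 0, MM (a + 1) (b + 1), Submodule.subset_span ⟨a, b, hab, rfl⟩,
            by rw [zero_smul, zero_smul, zero_add, zero_add]⟩
    | zero => exact ⟨0, 0, 0, N.zero_mem, by rw [zero_smul, zero_smul, add_zero, add_zero]⟩
    | add f g _ _ h1 h2 =>
      obtain ⟨a1, a2, u, hu, h1⟩ := h1
      obtain ⟨b1, b2, v, hv, h2⟩ := h2
      refine ⟨a1 + b1, a2 + b2, u + v, N.add_mem hu hv, ?_⟩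
      rw [h1, h2, add_smul, add_smul]
      abel
    | smul c f _ h1 =>
      obtain ⟨a1, a2, u, hu, h1⟩ := h1
      refine ⟨c * a1, c * a2, c • u, N.smul_mem c hu, ?_⟩
      rw [h1, smul_add, smul_add, smul_smul, smul_smul]
  have hE1 : ∀ g ∈ N, E 1 g = 0 := by
    intro g hg
    have : N ≤ LinearMap.ker (E (F := F) 1) := by
      rw [hN, Submodule.span_le]
      rintro _ ⟨a, b, _, rfl⟩
      exact E1_MM_succ a (b + 1)
    exact this hg
  have hE2 : ∀ g ∈ N, E 2 g = 0 := by
    intro g hg
    have : N ≤ LinearMap.ker (E (F := F) 2) := by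
      rw [hN, Submodule.span_le]
      rintro _ ⟨a, b, _, rfl⟩
      exact E2_MM_succ (a + 1) b
    exact this hg
  intro f hf
  rw [mem_KE] at hf
  obtain ⟨c1, c2, g, hg, h2⟩ := h1 f hf.1
  have h3 := hf.2 1 (by decide)
  have h4 := hf.2 2 (by decide)
  rw [h2, map_add, map_add, map_smul, map_smul, E1_MM_succ, E1_MM_zero, hE1 g hg, smul_zero,
    zero_add, add_zero] at h3
  rw [h2, map_add, map_add, map_smul, map_smul, E2_MM_succ, E2_MM_zero, hE2 g hg, smul_zero,
    add_zero, add_zero] at h4
  have hc2 : c2 = 0 := (smul_eq_zero.1 h3).resolve_right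
    (neg_ne_zero.2 (yx_ne_zero (by norm_num) _))
  have hc1 : c1 = 0 := (smul_eq_zero.1 h4).resolve_right (yx_ne_zero (by norm_num) _)
  rw [h2, hc1, hc2, zero_smul, zero_smul, zero_add, zero_add]
  exact hg

/-- Two symmetric (or antisymmetric) sequences satisfying the same recurrence of order two are
proportional. -/
theorem prop_of_rec {al be ε : F} (h2 : (2 : F) ≠ 0) (hab : al ≠ 0 ∨ be ≠ 0) (d : ℕ) (u v : ℕ → F)
    (hu : ∀ a, 2 ≤ a → a + 2 ≤ d → al * (u (a + 1) + u (a - 1)) + be * u a = 0)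
    (hv : ∀ a, 2 ≤ a → a + 2 ≤ d → al * (v (a + 1) + v (a - 1)) + be * v a = 0)
    (hε : ε * ε = 1)
    (hus : ∀ a, 1 ≤ a → a + 1 ≤ d → u (d - a) = ε * u a)
    (hvs : ∀ a, 1 ≤ a → a + 1 ≤ d → v (d - a) = ε * v a) :
    ∀ a b, 1 ≤ a → a + 1 ≤ d → 1 ≤ b → b + 1 ≤ d → u a * v b = u b * v a := by
  by_cases hal : al = 0
  · have hbe : be ≠ 0 := by
      rcases hab with h | h
      · exact absurd hal h
      · exact h
    have hu0 : ∀ a, 2 ≤ a → a + 2 ≤ d → u a = 0 := by
      intro a h1 h2
      have := hu a h1 h2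
      rw [hal, zero_mul, zero_add] at this
      exact (mul_eq_zero.1 this).resolve_left hbe
    have hv0 : ∀ a, 2 ≤ a → a + 2 ≤ d → v a = 0 := by
      intro a h1 h2
      have := hv a h1 h2
      rw [hal, zero_mul, zero_add] at this
      exact (mul_eq_zero.1 this).resolve_left hbe
    intro a b ha1 ha2 hb1 hb2
    by_cases ha : 2 ≤ a ∧ a + 2 ≤ d
    · rw [hu0 a ha.1 ha.2, hv0 a ha.1 ha.2, zero_mul, mul_zero]
    · by_cases hb : 2 ≤ b ∧ b + 2 ≤ d
      · rw [hu0 b hb.1 hb.2, hv0 b hb.1 hb.2, zero_mul, mul_zero]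
      · have ha' : a = 1 ∨ a = d - 1 := by omega
        have hb' : b = 1 ∨ b = d - 1 := by omega
        have hu1 := hus 1 le_rfl (by omega)
        have hv1 := hvs 1 le_rfl (by omega)
        rcases ha' with rfl | rfl
        · rcases hb' with rfl | rfl
          · rfl
          · rw [hu1, hv1]
            ring
        · rcases hb' with rfl | rfl
          · rw [hu1, hv1]
            ring
          · rfl
  · -- the Casoratian
    have hw : ∀ a, 2 ≤ a → a + 2 ≤ d →
        u (a - 1) * v a - u a * v (a - 1) = u a * v (a + 1) - u (a + 1) * v a := by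
      intro a h1 h2
      have e1 := hu a h1 h2
      have e2 := hv a h1 h2
      have e3 : al * (u (a - 1) * v a - u a * v (a - 1) - (u a * v (a + 1) - u (a + 1) * v a)) =
          0 := by
        linear_combination v a * e1 - u a * e2
      have e4 := (mul_eq_zero.1 e3).resolve_left hal
      linear_combination e4
    have hconst : ∀ a, 1 ≤ a → a + 2 ≤ d →
        u a * v (a + 1) - u (a + 1) * v a = u 1 * v 2 - u 2 * v 1 := by
      intro a ha
      induction a, ha using Nat.le_induction with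
      | base => intro _; rfl
      | succ a ha ih =>
        intro hd
        have e1 := hw (a + 1) (by omega) hd
        rw [Nat.add_sub_cancel] at e1
        rw [← e1]
        exact ih (by omega)
    have hzero : ∀ a, 1 ≤ a → a + 2 ≤ d → u a * v (a + 1) - u (a + 1) * v a = 0 := by
      intro a ha1 ha2
      have e1 := hconst a ha1 ha2
      have e2 := hconst (d - a - 1) (by omega) (by omega)
      have e3 : d - a - 1 + 1 = d - a := by omega
      have e4 : d - a - 1 = d - (a + 1) := by omega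
      rw [e3] at e2
      rw [e4, hus (a + 1) (by omega) (by omega), hvs (a + 1) (by omega) (by omega),
        hus a (by omega) (by omega), hvs a (by omega) (by omega)] at e2
      have e5 : (2 : F) * (u a * v (a + 1) - u (a + 1) * v a) = 0 := by
        linear_combination (-(u a * v (a + 1)) + u (a + 1) * v a) * hε + e1 - e2
      exact (mul_eq_zero.1 e5).resolve_left h2
    -- all determinants vanish
    have hD : ∀ a, 1 ≤ a → a + 1 ≤ d → ∀ m, a + m + 1 ≤ d →
        u a * v (a + m) - u (a + m) * v a = 0 := by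
      intro a ha1 ha2 m
      induction m using Nat.strong_induction_on with
      | _ m ih =>
        intro hm
        rcases m with _ | _ | m
        · rw [add_zero]
          ring
        · exact hzero a ha1 hm
        · have e1 := ih m (by omega) (by omega)
          have e2 := ih (m + 1) (by omega) (by omega)
          have e3 := hu (a + m + 1) (by omega) (by omega)
          have e4 := hv (a + m + 1) (by omega) (by omega)
          have e5 : a + m + 1 - 1 = a + m := by omega
          rw [e5] at e3 e4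
          have e6 : a + (m + 1 + 1) = a + m + 1 + 1 := by omega
          have e7 : a + (m + 1) = a + m + 1 := by omega
          rw [e7] at e2
          rw [e6]
          have e8 : al * (u a * v (a + m + 1 + 1) - u (a + m + 1 + 1) * v a) = 0 := by
            linear_combination u a * e4 - v a * e3 - al * e1 - be * e2
          exact (mul_eq_zero.1 e8).resolve_left hal
    intro a b ha1 ha2 hb1 hb2
    rcases le_total a b with h | h
    · obtain ⟨m, rfl⟩ := Nat.exists_eq_add_of_le h
      have := hD a ha1 ha2 m (by omega)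
      linear_combination this
    · obtain ⟨m, rfl⟩ := Nat.exists_eq_add_of_le h
      have := hD b hb1 hb2 m (by omega)
      linear_combination -this

theorem MM_KE (a b : ℕ) : MM (F := F) (a + 1) (b + 1) ∈
    KE (F := F) (Finset.Icc 1 2) (a + 1 + (b + 1)) := by
  rw [mem_KE]
  refine ⟨MM_mem _ _, ?_⟩
  intro j hj
  have h12 : j = 1 ∨ j = 2 := by
    rw [Finset.mem_Icc] at hj
    omega
  rcases h12 with rfl | rfl
  · exact E1_MM_succ _ _
  · exact E2_MM_succ _ _

/-- The basic relation in level 2. -/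
theorem level_two_rel [CharZero F] {T : Submodule F (FL F)} (hT : IsTIdeal F T)
    (h : LevelGood T 2 4) : ∃ al be : F, (al ≠ 0 ∨ be ≠ 0) ∧
      al • (MM 3 1 + MM 1 3) + be • MM 2 2 ∈ T := by
  classical
  have h1 : (MM (F := F) 3 1 + MM 1 3) ∈ KE (F := F) (Finset.Icc 1 2) 4 :=
    Submodule.add_mem _ (MM_KE 2 0) (MM_KE 0 2)
  have h2 : (MM (F := F) 2 2) ∈ KE (F := F) (Finset.Icc 1 2) 4 := MM_KE 1 1
  have hsw : ∀ σ : Equiv.Perm ℕ, σ ∈ Sk 2 → σ = 1 ∨ σ = Equiv.swap 1 2 := by
    intro σ hσ
    have h3 : σ 1 = 1 ∨ σ 1 = 2 := by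
      have h4 : σ 1 ∈ Finset.Icc 1 2 := by
        have := image_eq_of_fix (Y := Finset.Icc 1 2) σ hσ
        rw [← this]
        exact Finset.mem_image_of_mem _ (by decide)
      rw [Finset.mem_Icc] at h4
      omega
    have h5 : σ 2 = 1 ∨ σ 2 = 2 := by
      have h4 : σ 2 ∈ Finset.Icc 1 2 := by
        have := image_eq_of_fix (Y := Finset.Icc 1 2) σ hσ
        rw [← this]
        exact Finset.mem_image_of_mem _ (by decide)
      rw [Finset.mem_Icc] at h4
      omega
    have hne : σ 1 ≠ σ 2 := fun h => by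
      have := σ.injective h
      omega
    rcases h3 with h3 | h3
    · left
      apply Equiv.ext
      intro i
      by_cases h6 : i = 1
      · rw [h6, h3]
        rfl
      · by_cases h7 : i = 2
        · rw [h7]
          rcases h5 with h5 | h5
          · exact absurd (h3.trans h5.symm) hne
          · rw [h5]
            rfl
        · rw [hσ i (by rw [Finset.mem_Icc]; omega)]
          rfl
    · right
      apply Equiv.ext
      intro i
      by_cases h6 : i = 1
      · rw [h6, h3, Equiv.swap_apply_left]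
      · by_cases h7 : i = 2
        · rw [h7, Equiv.swap_apply_right]
          rcases h5 with h5 | h5
          · exact h5
          · exact absurd (h3.trans h5.symm) hne
        · rw [hσ i (by rw [Finset.mem_Icc]; omega), Equiv.swap_apply_of_ne_of_ne h6 h7]
  obtain ⟨a, b, hab, hmem⟩ := exists_comb_of_levelGood hT h h1 h2 LinearMap.id
    (fun _ _ f hf => hf) (fun σ => if σ = 1 then 1 else -1) (if_pos rfl) (by
      intro σ hσ
      have hne : (Equiv.swap 1 2 : Equiv.Perm ℕ) ≠ 1 := by
        intro h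
        have := congrArg (fun τ : Equiv.Perm ℕ => τ 1) h
        simp at this
      rcases hsw σ hσ with rfl | rfl
      · rw [if_pos rfl, one_smul, LinearMap.id_apply]
        exact ren_id' (F := F) _
      · rw [if_neg hne, LinearMap.id_apply, map_add, ren_MM, ren_MM, neg_smul, one_smul]
        abel) (by
      intro σ hσ
      have hne : (Equiv.swap 1 2 : Equiv.Perm ℕ) ≠ 1 := by
        intro h
        have := congrArg (fun τ : Equiv.Perm ℕ => τ 1) h
        simp at this
      rcases hsw σ hσ with rfl | rfl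
      · rw [if_pos rfl, one_smul, LinearMap.id_apply]
        exact ren_id' (F := F) _
      · rw [if_neg hne, LinearMap.id_apply, ren_MM, neg_smul, one_smul])
  refine ⟨a, b, ?_, hmem⟩
  by_contra hcon
  push Not at hcon
  apply hab
  rw [hcon.1, hcon.2]

theorem tt1_iter (m : ℕ) (a b : ℕ) : ((tt 1 : FL F →ₗ⁅F⁆ FL F))^[m] (MM a b) = MM (a + m) b := by
  induction m with
  | zero => rfl
  | succ m ih => rw [Function.iterate_succ_apply', ih, tt1_MM]; rfl

theorem rel_shift {T : Submodule F (FL F)} (hT : IsTIdeal F T) {al be : F}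
    (h : al • (MM 3 1 + MM 1 3) + be • MM (F := F) 2 2 ∈ T) (i j : ℕ) :
    al • (MM (3 + i) (1 + j) + MM (1 + i) (3 + j)) + be • MM (F := F) (2 + i) (2 + j) ∈ T := by
  induction i with
  | zero =>
    induction j with
    | zero => exact h
    | succ j ih =>
      have := hT.tt_mem 2 ih
      rw [map_add, map_smul, map_smul, map_add, tt2_MM, tt2_MM, tt2_MM] at this
      exact this
  | succ i ih =>
    have := hT.tt_mem 1 ih
    rw [map_add, map_smul, map_smul, map_add, tt1_MM, tt1_MM, tt1_MM] at this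
    exact this

theorem level_two_of_rel [CharZero F] {T : Submodule F (FL F)} (hT : IsTIdeal F T) {al be : F}
    (hab : al ≠ 0 ∨ be ≠ 0) (h : al • (MM 3 1 + MM 1 3) + be • MM (F := F) 2 2 ∈ T) (d : ℕ) :
    LevelGood T 2 d := by
  rcases d with _ | d
  · exact levelGood_of_LZ hT (LZ_zero_right hT (by norm_num))
  obtain ⟨p, p1, p2, _, _, _, _⟩ :=
    exists_prK (F := F) (Finset.Icc 1 2) (zero_notMem_Icc 2) (d + 1)
  -- a functional is determined by its values on the elements `MM`
  have hdet : ∀ φ : FL F →ₗ[F] F, (∀ w ∈ Lam (F := F) (Finset.Icc 1 2) (d + 1), φ w = 0) →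
      (∀ a, 1 ≤ a → a + 1 ≤ d + 1 → φ (MM a (d + 1 - a)) = 0) →
      ∀ w ∈ W (F := F) 2 (d + 1), φ w = 0 := by
    intro φ h1 h2 w hw
    have h3 : w = (w - p w) + p w := by abel
    rw [h3, map_add, h1 _ (p2 w hw), zero_add]
    have h4 := KE_two d (p1 w hw)
    have h5 : Submodule.span F {f | ∃ a b, a + 1 + (b + 1) = d + 1 ∧
        f = MM (F := F) (a + 1) (b + 1)} ≤ LinearMap.ker φ := by
      rw [Submodule.span_le]
      rintro _ ⟨a, b, hab, rfl⟩
      rw [SetLike.mem_coe, LinearMap.mem_ker]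
      have h6 := h2 (a + 1) (by omega) (by omega)
      have h7 : d + 1 - (a + 1) = b + 1 := by omega
      rwa [h7] at h6
    exact h5 h4
  have hrec : ∀ φ : FL F →ₗ[F] F, (∀ w ∈ T, w ∈ W (F := F) 2 (d + 1) → φ w = 0) →
      ∀ a, 2 ≤ a → a + 2 ≤ d + 1 →
        al * (φ (MM (a + 1) (d + 1 - (a + 1))) + φ (MM (a - 1) (d + 1 - (a - 1)))) +
          be * φ (MM a (d + 1 - a)) = 0 := by
    intro φ hφ a h1 h2
    have h3 := rel_shift hT h (a - 2) (d + 1 - a - 2)
    have e1 : 3 + (a - 2) = a + 1 := by omega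
    have e2 : 1 + (d + 1 - a - 2) = d + 1 - (a + 1) := by omega
    have e3 : 1 + (a - 2) = a - 1 := by omega
    have e4 : 3 + (d + 1 - a - 2) = d + 1 - (a - 1) := by omega
    have e5 : 2 + (a - 2) = a := by omega
    have e6 : 2 + (d + 1 - a - 2) = d + 1 - a := by omega
    rw [e1, e2, e3, e4, e5, e6] at h3
    have h4 : al • (MM (a + 1) (d + 1 - (a + 1)) + MM (a - 1) (d + 1 - (a - 1))) +
        be • MM (F := F) a (d + 1 - a) ∈ W (F := F) 2 (d + 1) := by
      have hm : ∀ a b, a + b = d + 1 → MM (F := F) a b ∈ W (F := F) 2 (d + 1) := by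
        intro a b hab
        rw [← hab]
        exact MM_mem a b
      apply Submodule.add_mem
      · apply Submodule.smul_mem
        exact Submodule.add_mem _ (hm _ _ (by omega)) (hm _ _ (by omega))
      · apply Submodule.smul_mem
        exact hm _ _ (by omega)
    have h5 := hφ _ h3 h4
    rw [map_add, map_smul, map_smul, map_add, smul_eq_mul, smul_eq_mul] at h5
    exact h5
  have hfin : ∀ (ε : F), ε * ε = 1 → ∀ φ ψ : FL F →ₗ[F] F,
      (∀ w ∈ Lam (F := F) (Finset.Icc 1 2) (d + 1), φ w = 0) →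
      (∀ w ∈ Lam (F := F) (Finset.Icc 1 2) (d + 1), ψ w = 0) →
      (∀ w ∈ T, w ∈ W (F := F) 2 (d + 1) → φ w = 0) →
      (∀ w ∈ T, w ∈ W (F := F) 2 (d + 1) → ψ w = 0) →
      (∀ w ∈ W (F := F) 2 (d + 1), φ (ren (Equiv.swap 1 2) w) = -ε * φ w) →
      (∀ w ∈ W (F := F) 2 (d + 1), ψ (ren (Equiv.swap 1 2) w) = -ε * ψ w) →
      ∃ a b : F, (a ≠ 0 ∨ b ≠ 0) ∧ ∀ w ∈ W (F := F) 2 (d + 1), a * φ w + b * ψ w = 0 := by
    intro ε hε φ ψ h1 h2 h3 h4 h5 h6
    have hsym : ∀ φ : FL F →ₗ[F] F,
        (∀ w ∈ W (F := F) 2 (d + 1), φ (ren (Equiv.swap 1 2) w) = -ε * φ w) →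
        ∀ a, 1 ≤ a → a + 1 ≤ d + 1 →
          φ (MM (d + 1 - a) (d + 1 - (d + 1 - a))) = ε * φ (MM a (d + 1 - a)) := by
      intro φ hφ a ha1 ha2
      have hm : MM (F := F) a (d + 1 - a) ∈ W (F := F) 2 (d + 1) := by
        have h7 : a + (d + 1 - a) = d + 1 := by omega
        have h8 := MM_mem (F := F) a (d + 1 - a)
        rwa [h7] at h8
      have h9 := hφ _ hm
      rw [ren_MM, map_neg] at h9
      have h10 : d + 1 - (d + 1 - a) = a := by omega
      rw [h10]
      linear_combination -h9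
    have hprop := prop_of_rec (ε := ε) (two_ne_zero) hab (d + 1)
      (fun a => φ (MM a (d + 1 - a))) (fun a => ψ (MM a (d + 1 - a)))
      (hrec φ h3) (hrec ψ h4) hε (hsym φ h5) (hsym ψ h6)
    by_cases hz : ∀ a, 1 ≤ a → a + 1 ≤ d + 1 → φ (MM a (d + 1 - a)) = 0
    · refine ⟨1, 0, Or.inl one_ne_zero, ?_⟩
      intro w hw
      rw [hdet φ h1 hz w hw]
      ring
    · push Not at hz
      obtain ⟨a0, ha1, ha2, hne⟩ := hz
      refine ⟨ψ (MM a0 (d + 1 - a0)), -φ (MM a0 (d + 1 - a0)), Or.inr (neg_ne_zero.2 hne), ?_⟩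
      intro w hw
      have h7 := hdet (ψ (MM a0 (d + 1 - a0)) • φ + (-φ (MM a0 (d + 1 - a0))) • ψ) (by
        intro w hw
        rw [LinearMap.add_apply, LinearMap.smul_apply, LinearMap.smul_apply, h1 w hw, h2 w hw,
          smul_zero, smul_zero, add_zero]) (by
        intro a ha1' ha2'
        rw [LinearMap.add_apply, LinearMap.smul_apply, LinearMap.smul_apply, smul_eq_mul,
          smul_eq_mul]
        have h8 := hprop a0 a ha1 ha2 ha1' ha2'
        beta_reduce at h8
        linear_combination -h8) w hw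
      rw [LinearMap.add_apply, LinearMap.smul_apply, LinearMap.smul_apply, smul_eq_mul,
        smul_eq_mul] at h7
      exact h7
  apply levelGood_of_functionals (r := 2) (![altL [2, 1], 1]) (![{(1, 2)}, ∅])
  · intro i
    fin_cases i
    · apply altL_mem_GA
      intro a ha
      simp only [List.mem_cons, List.not_mem_nil, or_false] at ha
      rcases ha with rfl | rfl
      · decide
      · decide
    · exact one_mem_GA _
  · intro i p hp w _
    fin_cases i
    · have hp' : p = (1, 2) := hp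
      subst hp'
      exact altL_sw [2, 1] (by decide) (by decide) (by decide) (by decide) w
    · exact absurd hp (Set.notMem_empty p)
  · intro i φ ψ hφ hψ
    fin_cases i
    · apply hfin 1 (by ring) φ ψ hφ.lam hψ.lam hφ.ideal hψ.ideal
      · intro w hw
        rw [hφ.anti (1, 2) rfl w hw]
        ring
      · intro w hw
        rw [hψ.anti (1, 2) rfl w hw]
        ring
    · have hk : ∀ φ : FL F →ₗ[F] F, Adm T 2 (d + 1) (![{(1, 2)}, ∅] (1 : Fin 2))
          {a | ∃ j < (1 : Fin 2), a = (![altL [2, 1], 1] : Fin 2 → Module.End F (FL F)) j} φ →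
          ∀ w ∈ W (F := F) 2 (d + 1), φ (ren (Equiv.swap 1 2) w) = -(-1 : F) * φ w := by
        intro φ hφ w hw
        have h1 := hφ.kill (altL [2, 1]) ⟨0, by decide, rfl⟩ 1 (fun _ _ => rfl) w hw
        have h2 : ren (⇑(1 : Equiv.Perm ℕ)) (altL [2, 1] w) = altL [2, 1] w := ren_id' _
        rw [h2, altL_cons, altL_cons] at h1
        simp only [List.map_nil, List.sum_nil, sub_zero, List.map_cons, List.sum_cons,
          add_zero] at h1
        have h3 : altL ([] : List ℕ) (w - ren (Equiv.swap 1 2) w) = w - ren (Equiv.swap 1 2) w :=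
          rfl
        rw [h3, map_sub, sub_eq_zero] at h1
        rw [← h1]
        ring
      exact hfin (-1) (by ring) φ ψ hφ.lam hψ.lam hφ.ideal hψ.ideal (hk φ hφ) (hk ψ hψ)
  · intro φ hφ w hw
    have h1 := hφ.kill 1 ⟨1, rfl⟩ 1 (fun _ _ => rfl) w hw
    have h2 : ren (⇑(1 : Equiv.Perm ℕ)) ((1 : Module.End F (FL F)) w) = w := ren_id' w
    rwa [h2] at h1

/-- Level 2 is decided in degree 6. -/
theorem level_two [CharZero F] {T : Submodule F (FL F)} (hT : IsTIdeal F T)
    (h : LevelGood T 2 4) (d : ℕ) : LevelGood T 2 d := by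
  obtain ⟨al, be, hab, hmem⟩ := level_two_rel hT h
  exact level_two_of_rel hT hab hmem d

end

end Pool.Agent.Lib.MP_b4a71d_al
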