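import Pool.Agent.Lib.MP_b4a71d_al.OfCore

/-!
# The strong form: distributivity is decided by the nilpotent algebras of class at most six
-/

set_option autoImplicit false
set_option linter.unusedSectionVars false

namespace Pool.Agent.Lib.MP_b4a71d_al

universe u

noncomputable section

variable {F : Type u} [Field F]

/-- The left normed monomial `[x_0, x_1, ..., x_c]` of degree `c + 1`. -/
def lnorm (F : Type u) [Field F] : ℕ → FL F
  | 0 => X F 0
  | c + 1 => ⁅lnorm F c, X F (c + 1)⁆

/-- The variety of all nilpotent Lie algebras of class at most `c`. -/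
def nilp (F : Type u) [Field F] (c : ℕ) : Set (LieAlg F) := models F {lnorm F c}

theorem lnorm_eq (c : ℕ) : lnorm F c = lnm (X F 0) ((List.range c).map (fun i => i + 1)) := by
  induction c with
  | zero => rfl
  | succ c ih =>
    rw [lnorm, ih, List.range_succ, List.map_append, List.map_singleton, lnm_concat]

theorem lnorm_mem (c : ℕ) : lnorm F c ∈ HomC (F := F) (Multiset.range (c + 1)) := by
  induction c with
  | zero => exact X_mem 0
  | succ c ih =>
    have h1 := lie_mem_homC ih (X_mem (F := F) (c + 1))
    have h2 : Multiset.range (c + 1) + {c + 1} = Multiset.range (c + 1 + 1) := by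
      rw [Multiset.range_succ (c + 1), add_comm, Multiset.singleton_add]
    rw [h2] at h1
    exact h1

theorem genT_union (S S' : Set (FL F)) : genT (S ∪ S') = genT S ⊔ genT S' := by
  apply le_antisymm
  · apply genT_le ((genT_isTIdeal S).sup (genT_isTIdeal S'))
    rintro f (hf | hf)
    · exact Submodule.mem_sup_left (subset_genT S hf)
    · exact Submodule.mem_sup_right (subset_genT S' hf)
  · apply sup_le
    · exact genT_le (genT_isTIdeal _) (fun f hf => subset_genT _ (Or.inl hf))
    · exact genT_le (genT_isTIdeal _) (fun f hf => subset_genT _ (Or.inr hf))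

theorem genT_coe {I : Submodule F (FL F)} (hI : IsTIdeal F I) : genT (I : Set (FL F)) = I :=
  le_antisymm (genT_le hI (fun _ h => h)) (subset_genT _)

theorem levelGood_congr {T T' : Submodule F (FL F)} {k d : ℕ}
    (h : T ⊓ W k d = T' ⊓ W k d) (hg : LevelGood T k d) : LevelGood T' k d := by
  have hU : ∀ {U : Submodule F (FL F)}, LevU T' k d U → LevU T k d U := by
    intro U hU
    exact ⟨hU.lam_le, by rw [h]; exact hU.T_le, hU.le_W, hU.stab⟩
  exact fun U1 U2 U3 h1 h2 h3 => hg U1 U2 U3 (hU h1) (hU h2) (hU h3)

variable [CharZero F]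

theorem genT_lnorm (c : ℕ) : genT {lnorm F c} = High F (c + 1) := by
  apply le_antisymm
  · apply genT_le (high_isTIdeal _)
    intro f hf
    rw [Set.mem_singleton_iff] at hf
    rw [hf]
    refine mem_supC (p := fun s => c + 1 ≤ Multiset.card s) ?_ (lnorm_mem c)
    rw [Multiset.card_range]
  · have hI := genT_isTIdeal (F := F) {lnorm F c}
    have hP : P (c + 1) ≤ genT {lnorm F c} := by
      have h0 : (0 : ℕ) ∈ Multiset.range (c + 1) := Multiset.mem_range.2 (by omega)
      rw [P, homC_eq_nSpan h0, NSpan, Submodule.span_le]
      rintro f ⟨l, hl, rfl⟩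
      have hlen : l.length = c := by
        have := congrArg Multiset.card hl
        rw [Multiset.card_cons, Multiset.coe_card, Multiset.card_range] at this
        omega
      have h1 : lnm (X F 0) l = ren (fun i => if i = 0 then 0 else l.getD (i - 1) 0)
          (lnorm F c) := by
        rw [lnorm_eq, ren_lnm, ren_X, if_pos rfl, List.map_map]
        congr 1
        apply List.ext_getElem
        · rw [List.length_map, List.length_range, hlen]
        · intro i h2 h3
          rw [List.getElem_map, List.getElem_range]
          simp only [Function.comp_apply]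
          rw [if_neg (by omega), Nat.add_sub_cancel, List.getD_eq_getElem _ _ h2]
      rw [h1]
      exact hI.map_mem _ _ (subset_genT _ rfl)
    apply supC_le
    intro s hs
    exact homC_le_of_P hI (P_mono_le hI (by omega) hs hP) rfl

theorem idl_inter_nilp {V : Set (LieAlg F)} (hV : IsVariety F V) (c : ℕ) :
    V ∩ nilp F c = models F ((idl F V ⊔ High F (c + 1) : Submodule F (FL F)) : Set (FL F)) := by
  rw [models_sup, models_coe_idl hV, ← genT_lnorm]
  congr 1
  have h1 : idl F (models F {lnorm F c}) = genT {lnorm F c} := idl_models_eq_genT _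
  rw [← h1, models_coe_idl (isVariety_models _)]
  rfl

theorem inf_W_sup_high {T : Submodule F (FL F)} (hT : IsTIdeal F T) {k d c : ℕ} (h : k + d ≤ c) :
    (T ⊔ High F (c + 1)) ⊓ W k d = T ⊓ W k d := by
  apply le_antisymm
  · rintro f ⟨hf, hfW⟩
    refine ⟨?_, hfW⟩
    obtain ⟨a, ha, b, hb, hab⟩ := Submodule.mem_sup.1 hf
    have h1 : cmp (cont (Finset.Icc 1 k) d) f = f := cmp_of_mem hfW
    have h2 : cmp (cont (Finset.Icc 1 k) d) b = 0 :=
      cmp_supC (p := fun s => c + 1 ≤ Multiset.card s) (by rw [card_cont]; omega) hb
    rw [← h1, ← hab, map_add, h2, add_zero]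
    exact hT.cmp_mem ha _
  · exact inf_le_inf_right _ le_sup_left

/-- The main theorem in its strong form, from the core statement. -/
theorem distributive_iff_nilp (core : Core F) {V : Set (LieAlg F)} (hV : IsVariety F V) :
    IsDistributive F V ↔ IsDistributive F (V ∩ nilp F 6) := by
  have hT := idl_isTIdeal V
  have hT' : IsTIdeal F (idl F V ⊔ High F 7) := hT.sup (high_isTIdeal 7)
  have h6 : V ∩ nilp F 6 =
      models F ((idl F V ⊔ High F 7 : Submodule F (FL F)) : Set (FL F)) := idl_inter_nilp hV 6
  rw [h6, isDistributive_iff hV, isDistributive_iff (isVariety_models _), idl_models hT']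
  constructor
  · intro h A B C hA hB hC hTA hTB hTC
    exact h A B C hA hB hC (le_trans le_sup_left hTA) (le_trans le_sup_left hTB)
      (le_trans le_sup_left hTC)
  · intro h
    apply distT_of_distAt
    intro n _
    apply distAt_of_levelGood
    intro k d _ _
    refine core (idl F V) hT (fun k d hkd => ?_) k d
    exact levelGood_congr (inf_W_sup_high hT hkd) (levelGood_of_distT hT' h k d)

/-- All three statements, from the core statement. -/
theorem strong_of_core (core : Core F) :
    (∀ V : Set (LieAlg F), IsVariety F V →
      (IsDistributive F V ↔ IsDistributive F (V ∩ nilp F 6))) ∧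
    (∀ V : Set (LieAlg F), IsVariety F V → IsDistributive F V →
      IsDistributive F (degPart F 6 V)) ∧
    (∀ N : ℕ, ∃ V : Set (LieAlg F), IsVariety F V ∧ IsDistributive F V ∧ V ≠ degPart F N V) :=
  ⟨fun _ hV => distributive_iff_nilp core hV, (main_of_core F core).1, (main_of_core F core).2⟩

end

end Pool.Agent.Lib.MP_b4a71d_al
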