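import Pool.Agent.Lib.MP_b4a71d_al.H4b
import Pool.Agent.Lib.MP_b4a71d_al.H4c
import Pool.Agent.Lib.MP_b4a71d_al.Strong
import Pool.Agent.Lib.MP_b4a71d_al.LevelTwo
import Pool.Agent.Lib.MP_b4a71d_al.Eng.Fin8
import Pool.Agent.Lib.MP_b4a71d_al.K3a
import Pool.Agent.Lib.MP_b4a71d_al.SD.Fin
import Pool.Agent.Lib.MP_b4a71d_al.S.Main

section

/-!
# The point H: all levels `k ≥ 3`, `k + d ≥ 7` are good
-/

set_option autoImplicit false

namespace Pool.Agent.Lib.MP_b4a71d_al

universe u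

noncomputable section

variable {F : Type u} [Field F]

/-- All levels `k ≥ 3`, `k + d ≥ 7` at the point H. -/
theorem levelH [CharZero F] {T : Submodule F (FL F)} (hT : IsTIdeal F T) (h : HRel T) {k d : ℕ}
    (hk : 3 ≤ k) (hkd : 7 ≤ k + d) : LevelGood T k d := by
  obtain ⟨T', hT', hTT, hs⟩ := h.exists_HT hT
  apply levelGood_of_HT hTT hs hkd
  rcases Nat.lt_or_ge d 2 with hd | hd
  · apply levelGood_of_LZ hT'.isT
    rcases Nat.eq_zero_or_pos d with rfl | hd0
    · exact LZ_zero_right hT'.isT (by omega)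
    · obtain rfl : d = 1 := by omega
      exact LZ_one_right hT'.isT (by omega)
  · rcases Nat.even_or_odd k with hke | hko
    · rcases Nat.lt_or_ge d 3 with hd3 | hd3
      · obtain rfl : d = 2 := by omega
        obtain ⟨r, rfl⟩ := hke
        exact hT'.level_even_two ⟨r, rfl⟩ (by omega)
      · obtain ⟨s, rfl⟩ := Nat.exists_eq_add_of_le' hd3
        exact hT'.level_even hke (by omega)
    · exact hT'.level_odd hko hd

end

end Pool.Agent.Lib.MP_b4a71d_al
end

section

/-!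
# Assembly of the core statement
-/

set_option autoImplicit false

namespace Pool.Agent.Lib.MP_b4a71d_al

universe u

noncomputable section

variable {F : Type u} [Field F]

/-- All levels of degree at most six are good. -/
def Good6 (T : Submodule F (FL F)) : Prop := ∀ k d, k + d ≤ 6 → LevelGood T k d

/-- The relations of the point S. -/
structure SRel (T : Submodule F (FL F)) : Prop where
  z : v321 (F := F) 0 0 1 ∈ T
  y : v321 (F := F) (-1) 1 0 ∈ T
  a : v411 (F := F) 1 2 ∈ T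

theorem pol_MM_zero (a b : ℕ) :
    pol (MvPolynomial.X 0) (MM (F := F) a b) = MM (a + 1) b := by
  rw [pol_X, MM, LieHom.map_lie]
  change ⁅tt 1 (yx (F := F) 1 a), tt 1 (yx (F := F) 2 b)⁆ = _
  rw [tt_yx_same 1 a one_ne_zero, tt_yx_ne b one_ne_zero (by norm_num)]
  rfl

theorem pol_MM_one (a b : ℕ) :
    pol (MvPolynomial.X 1) (MM (F := F) a b) = MM a (b + 1) := by
  rw [pol_X, MM, LieHom.map_lie]
  change ⁅tt 2 (yx (F := F) 1 a), tt 2 (yx (F := F) 2 b)⁆ = _
  rw [tt_yx_same 2 b two_ne_zero, tt_yx_ne a two_ne_zero (by norm_num)]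
  rfl

theorem v411_eq (al be : F) :
    v411 al be = al • (MM (F := F) 3 1 + MM 1 3) + be • MM 2 2 := by
  have h0 : ⁅X F 1, X F 2⁆ = MM (F := F) 0 0 := rfl
  rw [v411, h0]
  simp only [pol_mul, pow_two, map_add, LinearMap.add_apply, pol_C, pol_MM_zero, pol_MM_one,
    map_smul, smul_add, zero_add, Nat.reduceAdd]

/-- The parts of the proof. -/
theorem core_of_parts [CharZero F]
    (hE7 : ∀ T : Submodule F (FL F), IsTIdeal F T → Good6 T → LevelGood T 4 3 ∧ LevelGood T 5 2)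
    (hE8 : ∀ T : Submodule F (FL F), IsTIdeal F T → Good6 T →
      (LZ T 4 4 ∧ LZ T 5 3 ∧ LZ T 6 2) ∨ SRel T ∨ HRel T)
    (hS : ∀ T : Submodule F (FL F), IsTIdeal F T → Good6 T → SRel T → ∀ k d, 4 ≤ k → 2 ≤ d →
      8 ≤ k + d → LevelGood T k d) : Core F := by
  intro T hT h6 k d
  rcases Nat.lt_or_ge 6 (k + d) with hkd | hkd
  swap
  · exact h6 k d hkd
  rcases k with _ | _ | _ | _ | k
  · exact level_zero hT d
  · exact level_one d
  · exact level_two hT (h6 2 4 le_rfl) d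
  · obtain ⟨d, rfl⟩ : ∃ e, d = e + 4 := ⟨d - 4, by omega⟩
    refine level3 hT (h6 3 3 le_rfl) ?_ d
    obtain ⟨al, be, hab, hm⟩ := level_two_rel hT (h6 2 4 le_rfl)
    refine ⟨al, be, ?_, by rw [v411_eq]; exact hm⟩
    intro h
    rw [Prod.mk.injEq] at h
    rcases hab with h1 | h1
    · exact h1 h.1
    · exact h1 h.2
  · rcases d with _ | _ | d
    · exact levelGood_of_LZ hT (LZ_zero_right hT (by omega))
    · exact levelGood_of_LZ hT (LZ_one_right hT (by omega))
    · rcases Nat.lt_or_ge 7 (k + 4 + (d + 2)) with h7 | h7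
      · rcases hE8 T hT h6 with h8 | h8 | h8
        · exact levelGood_of_LZ hT (LZ_all hT h8.1 h8.2.1 h8.2.2 (by omega) h7)
        · exact hS T hT h6 h8 _ _ (by omega) (by omega) h7
        · exact levelH hT h8 (by omega) (by omega)
      · obtain ⟨h1, h2⟩ := hE7 T hT h6
        rcases k with _ | k
        · obtain rfl : d = 1 := by omega
          exact h1
        · obtain rfl : k = 0 := by omega
          obtain rfl : d = 0 := by omega
          exact h2

end

end Pool.Agent.Lib.MP_b4a71d_al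
end

section

/-!
# MP_b4a71d_al: the point S in degree 7 (S43, S52)
-/

set_option autoImplicit false
set_option linter.unusedSectionVars false

namespace Pool.Agent.Lib.MP_b4a71d_al.Eng

universe u

noncomputable section

variable {F : Type u} [Field F] [CharZero F] {T : Submodule F (FL F)} {β : ℕ → F}

/-! ### `(4, 3)` -/

/-- At S: functionals of the level `(4, 3)` antisymmetric in four letters vanish. -/
theorem S43_alt4 (hT : IsTIdeal F T) (hB : FamT T FB β) (hb1 : β 1 = 0) (hb2 : β 2 = 0) :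
    ∀ φ ∈ PAdm T 4 3 ∅, EqS 4 3 φ true {1, 2, 3, 4} → VanW 4 3 φ :=
  fun _ hφ h => vanS31111 hT hB hb1 hb2 (PAdm.lf hφ) h

/-- At S: functionals of the level `(4, 3)` antisymmetric in three letters vanish. -/
theorem S43_alt3 (hT : IsTIdeal F T) (hB : FamT T FB β) (hb1 : β 1 = 0) (hb2 : β 2 = 0) :
    ∀ A ⊆ Finset.Icc 1 4, A.card = 3 → ∀ φ ∈ PAdm T 4 3 ∅, EqS 4 3 φ true A → VanW 4 3 φ := by
  intro A hA hc
  refine Z2.one (PAdm.stab hT 4 3 ∅) (A := {2, 3, 4}) ?_ (by decide) hA (by rw [hc]; rfl)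
  intro φ hφ h
  refine vanS3211 hT hB hb1 hb2 (PAdm.lf hφ) h ?_
  exact S43_alt4 hT hB hb1 hb2 _ (gar_mem (PAdm.stab hT 4 3 ∅) hφ true (by decide) (by decide))
    (gar_eqS (by decide) (by decide) (by decide) h)

theorem S43_gar (hT : IsTIdeal F T) (hB : FamT T FB β) (hb1 : β 1 = 0) (hb2 : β 2 = 0)
    {φ : FL F →ₗ[F] F} (hφ : φ ∈ PAdm T 4 3 ∅) {A : Finset ℕ} {t : ℕ}
    (hA : A ⊆ Finset.Icc 1 4) (ht : t ∈ Finset.Icc 1 4) (htA : t ∉ A) (hc : A.card = 2)
    (h : EqS 4 3 φ true A) : VanW 4 3 (gar φ true A t) :=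
  S43_alt3 hT hB hb1 hb2 (insert t A) (Finset.insert_subset ht hA)
    (by rw [Finset.card_insert_of_notMem htA, hc]) _
    (gar_mem (PAdm.stab hT 4 3 ∅) hφ true hA ht) (gar_eqS hA ht htA h)

/-- At S: functionals antisymmetric in two letters and symmetric in the other two vanish. -/
theorem S43_31 (hT : IsTIdeal F T) (hB : FamT T FB β) (hb1 : β 1 = 0) (hb2 : β 2 = 0)
    {A B : Finset ℕ} (hA : A ⊆ Finset.Icc 1 4) (hcA : A.card = 2) (hBs : B ⊆ Finset.Icc 1 4)
    (hcB : B.card = 2) (hAB : Disjoint A B) : Z2 4 3 (PAdm T 4 3 ∅) true A false B := by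
  have h0 : Z2 4 3 (PAdm T 4 3 ∅) true {1, 2} false {3, 4} := by
    intro φ hφ h h'
    exact vanS331b hT hB hb1 hb2 (PAdm.lf hφ) h h'
      (S43_gar hT hB hb1 hb2 hφ (by decide) (by decide) (by decide) rfl h)
      (S43_gar hT hB hb1 hb2 hφ (by decide) (by decide) (by decide) rfl h)
  exact Z2.perm (PAdm.stab hT 4 3 ∅) h0 (by decide) (by decide) hA hBs (by decide) hAB
    (by rw [hcA]; rfl) (by rw [hcB]; rfl)

/-- At S: functionals antisymmetric in `a, b` are antisymmetric in the other two letters. -/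
theorem S43_22 (hT : IsTIdeal F T) (hB : FamT T FB β) (hb1 : β 1 = 0) (hb2 : β 2 = 0)
    {φ : FL F →ₗ[F] F} (hφ : φ ∈ PAdm T 4 3 ∅) {a b p q : ℕ} (ha : a ∈ Finset.Icc 1 4)
    (hb : b ∈ Finset.Icc 1 4) (hp : p ∈ Finset.Icc 1 4) (hq : q ∈ Finset.Icc 1 4)
    (hab : a ≠ b) (hap : a ≠ p) (haq : a ≠ q) (hbp : b ≠ p) (hbq : b ≠ q) (hpq : p ≠ q)
    (h : EqS 4 3 φ true {a, b}) : EqS 4 3 φ true {p, q} := by
  have hp1 : ({p} : Finset ℕ) ⊆ Finset.Icc 1 4 := Finset.singleton_subset_iff.2 hp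
  have hab' : ({a, b} : Finset ℕ) ⊆ Finset.Icc 1 4 := by
    intro x hx
    rw [Finset.mem_insert, Finset.mem_singleton] at hx
    rcases hx with rfl | rfl
    · exact ha
    · exact hb
  have hpq' : ({p, q} : Finset ℕ) ⊆ Finset.Icc 1 4 := by
    intro x hx
    rw [Finset.mem_insert, Finset.mem_singleton] at hx
    rcases hx with rfl | rfl
    · exact hp
    · exact hq
  refine eqS_pair (eqv_of_van (alt := false) ?_)
  refine S43_31 hT hB hb1 hb2 hab' (Finset.card_pair hab) hpq' (Finset.card_pair hpq) ?_ _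
    (gar_mem (PAdm.stab hT 4 3 ∅) hφ false hp1 hq) ?_ ?_
  · rw [Finset.disjoint_left]
    intro x hx hx2
    simp only [Finset.mem_insert, Finset.mem_singleton] at hx hx2
    omega
  · refine gar_eqS' hp1 hq hab' ?_ h
    rw [Finset.disjoint_left]
    intro x hx hx2
    simp only [Finset.mem_insert, Finset.mem_singleton] at hx hx2
    omega
  · exact gar_single hp hq hpq

/-- At S: functionals symmetric in three letters vanish. -/
theorem S43_sym3 (hT : IsTIdeal F T) (hB : FamT T FB β) (hb1 : β 1 = 0) (hb2 : β 2 = 0) :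
    ∀ A ⊆ Finset.Icc 1 4, A.card = 3 → ∀ φ ∈ PAdm T 4 3 ∅, EqS 4 3 φ false A → VanW 4 3 φ := by
  intro A hA hc
  refine Z2.one (PAdm.stab hT 4 3 ∅) (A := {2, 3, 4}) ?_ (by decide) hA (by rw [hc]; rfl)
  intro φ hφ h
  -- `φ` is symmetric under `(1 j)`
  have key : ∀ j p q : ℕ, j ∈ Finset.Icc 2 4 → p ∈ Finset.Icc 2 4 → q ∈ Finset.Icc 2 4 →
      j ≠ p → j ≠ q → p ≠ q → EqvW 4 3 φ 1 j false := by
    intro j p q hj hp hq hjp hjq hpq
    rw [Finset.mem_Icc] at hj hp hq
    have h1 : ({1} : Finset ℕ) ⊆ Finset.Icc 1 4 := by decide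
    have hj' : j ∈ Finset.Icc 1 4 := Finset.mem_Icc.2 ⟨by omega, by omega⟩
    have hpq' : ({p, q} : Finset ℕ) ⊆ Finset.Icc 1 4 := by
      intro x hx
      rw [Finset.mem_insert, Finset.mem_singleton] at hx
      rw [Finset.mem_Icc]
      omega
    have h1j' : ({1, j} : Finset ℕ) ⊆ Finset.Icc 1 4 := by
      intro x hx
      rw [Finset.mem_insert, Finset.mem_singleton] at hx
      rw [Finset.mem_Icc]
      omega
    refine eqv_of_van (alt := true) ?_
    refine S43_31 hT hB hb1 hb2 h1j' (Finset.card_pair (by omega)) hpq' (Finset.card_pair hpq)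
      ?_ _ (gar_mem (PAdm.stab hT 4 3 ∅) hφ true h1 hj') ?_ ?_
    · rw [Finset.disjoint_left]
      intro x hx hx2
      simp only [Finset.mem_insert, Finset.mem_singleton] at hx hx2
      omega
    · exact gar_single (by decide) hj' (by omega)
    · refine gar_eqS' h1 hj' hpq' ?_ (h.mono ?_)
      · rw [Finset.disjoint_left]
        intro x hx hx2
        simp only [Finset.mem_insert, Finset.mem_singleton] at hx hx2
        omega
      · intro x hx
        simp only [Finset.mem_insert, Finset.mem_singleton] at hx ⊢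
        omega
  have h12 := key 2 3 4 (by decide) (by decide) (by decide) (by decide) (by decide) (by decide)
  have h13 := key 3 2 4 (by decide) (by decide) (by decide) (by decide) (by decide) (by decide)
  have h14 := key 4 2 3 (by decide) (by decide) (by decide) (by decide) (by decide) (by decide)
  refine PAdm.sym hφ (A := {1, 2, 3, 4}) (by decide) (by decide) ?_
  have hmem : ∀ x ∈ ({1, 2, 3, 4} : Finset ℕ), x = 1 ∨ x ∈ ({2, 3, 4} : Finset ℕ) := by decide
  have h1x : ∀ x ∈ ({2, 3, 4} : Finset ℕ), EqvW 4 3 φ 1 x false := by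
    intro x hx
    simp only [Finset.mem_insert, Finset.mem_singleton] at hx
    rcases hx with rfl | rfl | rfl
    · exact h12
    · exact h13
    · exact h14
  intro x hx y hy hxy
  rcases hmem x hx with rfl | hx'
  · rcases hmem y hy with rfl | hy'
    · exact absurd rfl hxy
    · exact h1x y hy'
  · rcases hmem y hy with rfl | hy'
    · exact (h1x x hx').symm
    · exact h x hx' y hy' hxy

/-- At S: the `(2, 2)` functionals are at most one-dimensional. -/
theorem S43_dep (hT : IsTIdeal F T) (hB : FamT T FB β) (hb1 : β 1 = 0) (hb2 : β 2 = 0)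
    {φ ψ : FL F →ₗ[F] F} (hφ : φ ∈ PAdm T 4 3 ∅) (hψ : ψ ∈ PAdm T 4 3 ∅)
    (h : EqS 4 3 φ true {1, 2}) (h' : EqS 4 3 ψ true {1, 2}) : Dep 4 3 φ ψ :=
  dep322 hT hB (PAdm.lf hφ) (PAdm.lf hψ) h
    (S43_22 hT hB hb1 hb2 hφ (by decide) (by decide) (by decide) (by decide) (by decide)
      (by decide) (by decide) (by decide) (by decide) (by decide) h)
    (S43_gar hT hB hb1 hb2 hφ (by decide) (by decide) (by decide) rfl h)
    (S43_gar hT hB hb1 hb2 hφ (by decide) (by decide) (by decide) rfl h) h'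
    (S43_22 hT hB hb1 hb2 hψ (by decide) (by decide) (by decide) (by decide) (by decide)
      (by decide) (by decide) (by decide) (by decide) (by decide) h')
    (S43_gar hT hB hb1 hb2 hψ (by decide) (by decide) (by decide) rfl h')
    (S43_gar hT hB hb1 hb2 hψ (by decide) (by decide) (by decide) rfl h')

/-! ### `(5, 2)` -/

/-- At S: functionals of the level `(5, 2)` killed by `altL [1, 2, 3, 4, 5]` vanish. -/
theorem S52_van (hT : IsTIdeal F T) (hB : FamT T FB β) (hb1 : β 1 = 0) (hb2 : β 2 = 0) :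
    ∀ φ ∈ PAdm T 5 2 {altL [1, 2, 3, 4, 5]}, VanW 5 2 φ := by
  have h4 : ∀ φ ∈ PAdm T 5 2 {altL [1, 2, 3, 4, 5]}, EqS 5 2 φ true {2, 3, 4, 5} →
      VanW 5 2 φ := by
    intro φ hφ h
    exact vanS22111 hT hB hb1 hb2 (PAdm.lf hφ) h (van_gar hT hφ [1, 2, 3, 4, 5] (by decide)
      (by decide) rfl (by decide) (by decide) (by decide) rfl h)
  have h4' : ∀ A ⊆ Finset.Icc 1 5, A.card = 4 → ∀ φ ∈ PAdm T 5 2 {altL [1, 2, 3, 4, 5]},
      EqS 5 2 φ true A → VanW 5 2 φ := by
    intro A hA hc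
    exact Z2.one (PAdm.stab hT 5 2 _) h4 (by decide) hA (by rw [hc]; rfl)
  refine chain52 (PAdm.stab hT 5 2 _)
    (fun φ hφ h => PAdm.sym hφ (by decide) (by decide) h)
    (fun φ hφ h => PAdm.alt hφ (l := [1, 2, 3, 4, 5]) (by decide) (by decide) rfl h) h4 ?_
  intro φ hφ h h'
  have hg : ∀ t ∈ Finset.Icc 1 5, t ∉ ({3, 4, 5} : Finset ℕ) →
      VanW 5 2 (gar φ true {3, 4, 5} t) := by
    intro t ht htA
    refine h4' (insert t {3, 4, 5}) (Finset.insert_subset ht (by decide)) ?_ _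
      (gar_mem (PAdm.stab hT 5 2 _) hφ true (by decide) ht) (gar_eqS (by decide) ht htA h)
    rw [Finset.card_insert_of_notMem htA]
    rfl
  exact vanS2221 hT hB hb1 hb2 (PAdm.lf hφ) h' h (hg 1 (by decide) (by decide))
    (hg 2 (by decide) (by decide))

/-- At S: all functionals of the level `(5, 2)` are antisymmetric. -/
theorem S52_anti (hT : IsTIdeal F T) (hB : FamT T FB β) (hb1 : β 1 = 0) (hb2 : β 2 = 0)
    {φ : FL F →ₗ[F] F} (hφ : φ ∈ PAdm T 5 2 ∅) : EqS 5 2 φ true (Finset.Icc 1 5) := by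
  intro i hi j hj hij
  refine eqv_of_van (alt := false) ?_
  refine S52_van hT hB hb1 hb2 _ ?_
  have hmem := gar_mem (PAdm.stab hT 5 2 ∅) hφ false (Finset.singleton_subset_iff.2 hi) hj
  refine ⟨hmem.lam, hmem.ideal, fun _ hp => absurd hp (Set.notMem_empty _), ?_⟩
  intro e he σ hσ w hw
  rw [Set.mem_singleton_iff] at he
  subst he
  rw [gar_apply, Finset.sum_singleton]
  -- `σ⁻¹ (i j) σ` is a transposition
  set a := σ.symm i with ha
  set b := σ.symm j with hb
  have hmemσ : ∀ x ∈ Finset.Icc 1 5, σ.symm x ∈ Finset.Icc 1 5 := by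
    intro x hx
    by_contra hc
    have h1 := hσ _ hc
    rw [Equiv.apply_symm_apply] at h1
    rw [← h1] at hc
    exact hc hx
  have hab : a ≠ b := fun h => hij (σ.symm.injective h)
  have hl : ∀ x ∈ Finset.Icc 1 5, x ∈ [1, 2, 3, 4, 5] := by decide
  have h1 : ren (Equiv.swap i j) (ren σ (altL [1, 2, 3, 4, 5] w)) =
      ren σ (ren (Equiv.swap a b) (altL [1, 2, 3, 4, 5] w)) := by
    rw [ren_ren, ren_ren]
    congr 2
    funext x
    have h2 : Equiv.swap i j * σ = σ * Equiv.swap a b := by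
      rw [Equiv.mul_swap_eq_swap_mul, ha, hb, Equiv.apply_symm_apply, Equiv.apply_symm_apply]
    exact congrArg (fun τ : Equiv.Perm ℕ => τ x) h2
  rw [h1, sw_altL [1, 2, 3, 4, 5] (by decide) (hl a (hmemσ i hi)) (hl b (hmemσ j hj)) hab,
    map_neg, map_neg, sg]
  simp

/-- A highest weight vector killed by all functionals of the level lies in `T`. -/
theorem mem_T_of_fun (hT : IsTIdeal F T) {k d : ℕ} {f : FL F}
    (hf : f ∈ KE (Finset.Icc 1 k) d) (h : ∀ φ ∈ PAdm T k d ∅, φ f = 0) : f ∈ T := by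
  rw [mem_KE] at hf
  apply mem_T_of_ker hT hf.2
  by_contra hcon
  set B : Submodule F (FL F) := Lam (Finset.Icc 1 k) d ⊔ (T ⊓ W k d) with hB
  have h1 : B.mkQ f ≠ 0 := by
    intro h2
    rw [Submodule.mkQ_apply, Submodule.Quotient.mk_eq_zero] at h2
    exact hcon h2
  obtain ⟨l, hl⟩ := exists_functional (F := F) h1
  have h2 : ∀ w ∈ B, (l.comp B.mkQ) w = 0 := by
    intro w hw
    rw [LinearMap.comp_apply, Submodule.mkQ_apply, (Submodule.Quotient.mk_eq_zero B).2 hw,
      map_zero]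
  exact hl (h (l.comp B.mkQ) ⟨fun w hw => h2 w (Submodule.mem_sup_left hw),
    fun w hw hw2 => h2 w (Submodule.mem_sup_right ⟨hw, hw2⟩),
    fun p hp => absurd hp (Set.notMem_empty p),
    fun e he => absurd he (Set.notMem_empty e)⟩)

/-- At S: `v + (i j) v ∈ T` for highest weight vectors `v` of the level `(5, 2)`. -/
theorem S52_mem (hT : IsTIdeal F T) (hB : FamT T FB β) (hb1 : β 1 = 0) (hb2 : β 2 = 0)
    {v : FL F} (hv : v ∈ KE (Finset.Icc 1 5) 2) {i j : ℕ} (hi : i ∈ Finset.Icc 1 5)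
    (hj : j ∈ Finset.Icc 1 5) (hij : i ≠ j) : v + ren (Equiv.swap i j) v ∈ T := by
  have hfix := swap_fix hi hj
  refine mem_T_of_fun hT (Submodule.add_mem _ hv
    (ren_KE (Equiv.swap i j) (hfix 0 (by simp)) (image_eq_of_fix _ hfix) hv)) ?_
  intro φ hφ
  rw [map_add, S52_anti hT hB hb1 hb2 hφ i hi j hj hij v (KE_le _ _ hv), sg]
  simp

end

end Pool.Agent.Lib.MP_b4a71d_al.Eng
end

section

/-!
# MP_b4a71d_al: the relations in degree 6 and the families of the engine
-/

set_option autoImplicit false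
set_option linter.unusedSectionVars false
set_option linter.unusedSimpArgs false

namespace Pool.Agent.Lib.MP_b4a71d_al.Eng

universe u

noncomputable section

variable {F : Type u} [Field F] [CharZero F]

/-- Pairwise dependency modulo `T` gives a family.  If all `evC H` are in `T` take `β = 1`;
otherwise fix `H0` not in `T` and let `β c` be the coefficient with `evC H_c - β c • evC H0 ∈ T`. -/
theorem famT_of_pairs {T : Submodule F (FL F)} {hs : List Cb} (hne : hs ≠ [])
    (h : ∀ c c' H H', getL hs c = some H → getL hs c' = some H' →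
      ∃ a b : F, (a ≠ 0 ∨ b ≠ 0) ∧ a • evC H + b • evC H' ∈ T) : ∃ β, FamT T hs β := by
  by_cases hall : ∀ c H, getL hs c = some H → (evC H : FL F) ∈ T
  · refine ⟨fun _ => 1, ⟨0, ?_, one_ne_zero⟩, ?_⟩
    · cases hs with
      | nil => exact absurd rfl hne
      | cons a l => rfl
    · intro c c' H H' hc hc'
      exact T.sub_mem (T.smul_mem _ (hall c H hc)) (T.smul_mem _ (hall c' H' hc'))
  · push Not at hall
    obtain ⟨c0, H0, hc0, hH0⟩ := hall
    have hex : ∀ c, ∃ b : F, ∀ H, getL hs c = some H → (evC H : FL F) - b • evC H0 ∈ T := by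
      intro c
      cases hc : getL hs c with
      | none => exact ⟨0, fun H hH => by simp at hH⟩
      | some H =>
        obtain ⟨a, b, hab, hm⟩ := h c c0 H H0 hc hc0
        have ha : a ≠ 0 := by
          intro ha
          have hb : b ≠ 0 := hab.resolve_left (fun h => h ha)
          apply hH0
          rw [ha, zero_smul, zero_add] at hm
          have h2 := T.smul_mem b⁻¹ hm
          rwa [smul_smul, inv_mul_cancel₀ hb, one_smul] at h2
        refine ⟨-(a⁻¹ * b), fun H' hH' => ?_⟩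
        rw [Option.some.injEq] at hH'
        subst hH'
        have h2 := T.smul_mem a⁻¹ hm
        rwa [smul_add, smul_smul, smul_smul, inv_mul_cancel₀ ha, one_smul, ← sub_neg_eq_add,
          ← neg_smul] at h2
    choose β hβ using hex
    refine ⟨β, ⟨c0, by rw [hc0]; rfl, ?_⟩, ?_⟩
    · intro h0
      have h2 := hβ c0 H0 hc0
      rw [h0, zero_smul, sub_zero] at h2
      exact hH0 h2
    · intro c c' H H' hc hc'
      have h1 := T.smul_mem (β c') (hβ c H hc)
      have h2 := T.smul_mem (β c) (hβ c' H' hc')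
      have h3 := T.sub_mem h1 h2
      have h4 : β c' • (evC H : FL F) - β c • evC H' =
          (β c' • ((evC H : FL F) - β c • evC H0)) - (β c • ((evC H' : FL F) - β c' • evC H0)) := by
        module
      rw [h4]
      exact h3

private theorem rel_single (t : Tr) : (evC [(1, t)] : FL F) = t.ev := by
  rw [evC, evC, one_smul, add_zero]

/-- The components of `FA` in terms of `MM`. -/
private theorem FA_MM : ∃ f1 f2 f3 : Cb, FA = [f1, f2, f3] ∧
    (evC f1 : FL F) = MM 3 1 + MM 1 3 ∧ (evC f2 : FL F) = MM 2 2 ∧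
    (evC f3 : FL F) = evC f1 + (2 : F) • evC f2 := by
  refine ⟨_, _, _, rfl, ?_, ?_, ?_⟩
  · simp only [evC, one_smul, add_zero]
    rfl
  · simp only [evC, one_smul, add_zero]
    rfl
  · simp only [evC, one_smul, add_zero]
    rw [add_assoc]
    congr 2
    rw [← Int.cast_smul_eq_zsmul F]
    norm_num

/-- The family of the level `(2, 4)` (`level_two_rel`). -/
theorem exists_famA {T : Submodule F (FL F)} (hT : IsTIdeal F T) (h : LevelGood T 2 4) :
    ∃ α, FamT T FA α := by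
  obtain ⟨al, be, hab, hm⟩ := level_two_rel hT h
  obtain ⟨f1, f2, f3, hFA, h1, h2, h3⟩ := FA_MM (F := F)
  rw [← h1, ← h2] at hm
  rw [hFA]
  have hne : be ≠ 0 ∨ al ≠ 0 := hab.symm
  refine ⟨fun c => if c = 0 then be else if c = 1 then -al else be - 2 * al, ?_, ?_⟩
  · rcases hne with h0 | h0
    · exact ⟨0, rfl, by simpa using h0⟩
    · exact ⟨1, rfl, by simpa using h0⟩
  · have key : ∀ x y : F, ∀ g : FL F, (∃ z : F, g = z • (al • evC f1 + be • evC f2)) → g ∈ T := by
      rintro x y g ⟨z, rfl⟩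
      exact T.smul_mem z hm
    intro c c' H H' hc hc'
    match c, c', hc, hc' with
    | 0, 0, hc, hc' =>
      cases hc; cases hc'
      exact key 0 0 _ ⟨0, by simp⟩
    | 0, 1, hc, hc' =>
      cases hc; cases hc'
      exact key 0 0 _ ⟨-1, by simp; module⟩
    | 0, 2, hc, hc' =>
      cases hc; cases hc'
      exact key 0 0 _ ⟨-2, by simp [h3]; module⟩
    | 1, 0, hc, hc' =>
      cases hc; cases hc'
      exact key 0 0 _ ⟨1, by simp; module⟩
    | 1, 1, hc, hc' =>
      cases hc; cases hc'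
      exact key 0 0 _ ⟨0, by simp⟩
    | 1, 2, hc, hc' =>
      cases hc; cases hc'
      exact key 0 0 _ ⟨1, by simp [h3]; module⟩
    | 2, 0, hc, hc' =>
      cases hc; cases hc'
      exact key 0 0 _ ⟨2, by simp [h3]; module⟩
    | 2, 1, hc, hc' =>
      cases hc; cases hc'
      exact key 0 0 _ ⟨-1, by simp [h3]; module⟩
    | 2, 2, hc, hc' =>
      cases hc; cases hc'
      exact key 0 0 _ ⟨0, by simp⟩
    | c + 3, _, hc, _ => simp [getL] at hc
    | _, c' + 3, _, hc' => simp [getL] at hc'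

/-! ### The operators `tt l` on combinations of trees -/

/-- the substitution `y_l -> [y_l, x]` -/
def ttT (k i : ℕ) : Tr := bif Nat.beq i k then .b (.l k) (.l 0) else .l i

/-- `tt k` on combinations of trees -/
def ttC (k : ℕ) (p : Cb) : Cb := sbC (ttT k) p

theorem evC_ttC (k : ℕ) (p : Cb) : (evC (ttC k p) : FL F) = tt k (evC p) := by
  rw [ttC, evC_sbC, tt]
  have h : (fun i => ((ttT k i).ev : FL F)) =
      fun i => if i = k then ⁅X F k, X F 0⁆ else X F i := by
    funext i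
    rw [ttT]
    by_cases h : i = k
    · have h2 : Nat.beq i k = true := by
        rw [Nat.beq_eq]
        exact h
      rw [if_pos h, h2]
      rfl
    · have h2 : Nat.beq i k = false := by
        rw [← Bool.not_eq_true, Nat.beq_eq]
        exact h
      rw [if_neg h, h2]
      rfl
  rw [h]
  rfl

/-- the bracket `b_1` -/
def bC0 : Cb := [(1, .b (.b (.l 2) (.l 3)) (.l 1))]
/-- the bracket `b_2` -/
def bC1 : Cb := [(1, .b (.b (.l 3) (.l 1)) (.l 2))]
/-- the bracket `b_3` -/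
def bC2 : Cb := [(1, .b (.b (.l 1) (.l 2)) (.l 3))]

/-- the generator `e_i` with `(i, j, k)` cyclic -/
def eC (i j k : ℕ) (p q : Cb) : Cb :=
  sC (-1) (ttC j (ttC k p)) ++ ttC j (ttC i p) ++ ttC k (ttC k p) ++ ttC k (ttC i p) ++
    ttC k (ttC k q) ++ sC (-1) (ttC j (ttC j q))

theorem evC_eC0 : (evC (eC 1 2 3 bC0 bC1) : FL F) = ev 0 := by
  have hb0 : (evC bC0 : FL F) = bb 0 := rel_single _
  have hb1 : (evC bC1 : FL F) = bb 1 := rel_single _
  have h1 : ((0 : Fin 3) + 1) = 1 := rfl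
  have h2 : ((0 : Fin 3) + 2) = 2 := rfl
  rw [eC, ev, h1, h2]
  simp only [evC_append, evC_sC, evC_ttC, hb0, hb1, map_add, map_sub, map_neg, map_mul, pow_two,
    LinearMap.add_apply, LinearMap.sub_apply, LinearMap.neg_apply, Module.End.mul_apply, pol_X]
  simp only [Fin.val_zero, Fin.val_one, Fin.val_two, zero_add, Nat.reduceAdd, neg_smul, one_smul]
  abel

theorem evC_eC1 : (evC (eC 2 3 1 bC1 bC2) : FL F) = ev 1 := by
  have hb0 : (evC bC1 : FL F) = bb 1 := rel_single _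
  have hb1 : (evC bC2 : FL F) = bb 2 := rel_single _
  have h1 : ((1 : Fin 3) + 1) = 2 := rfl
  have h2 : ((1 : Fin 3) + 2) = 0 := rfl
  rw [eC, ev, h1, h2]
  simp only [evC_append, evC_sC, evC_ttC, hb0, hb1, map_add, map_sub, map_neg, map_mul, pow_two,
    LinearMap.add_apply, LinearMap.sub_apply, LinearMap.neg_apply, Module.End.mul_apply, pol_X]
  simp only [Fin.val_zero, Fin.val_one, Fin.val_two, zero_add, Nat.reduceAdd, neg_smul, one_smul]
  abel

theorem evC_eC2 : (evC (eC 3 1 2 bC2 bC0) : FL F) = ev 2 := by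
  have hb0 : (evC bC2 : FL F) = bb 2 := rel_single _
  have hb1 : (evC bC0 : FL F) = bb 0 := rel_single _
  have h1 : ((2 : Fin 3) + 1) = 0 := rfl
  have h2 : ((2 : Fin 3) + 2) = 1 := rfl
  rw [eC, ev, h1, h2]
  simp only [evC_append, evC_sC, evC_ttC, hb0, hb1, map_add, map_sub, map_neg, map_mul, pow_two,
    LinearMap.add_apply, LinearMap.sub_apply, LinearMap.neg_apply, Module.End.mul_apply, pol_X]
  simp only [Fin.val_zero, Fin.val_one, Fin.val_two, zero_add, Nat.reduceAdd, neg_smul, one_smul]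
  abel

/-- `v321` on combinations of trees -/
def vC (x y z : ℤ) : Cb :=
  sC x (ttC 1 (eC 1 2 3 bC0 bC1 ++ sC (-1) (eC 2 3 1 bC1 bC2)) ++
      ttC 2 (eC 1 2 3 bC0 bC1 ++ sC (-1) (eC 2 3 1 bC1 bC2)) ++
      ttC 3 (eC 1 2 3 bC0 bC1 ++ sC (-1) (eC 2 3 1 bC1 bC2))) ++
    sC y (ttC 1 (eC 1 2 3 bC0 bC1) ++ sC (-1) (ttC 2 (eC 2 3 1 bC1 bC2))) ++
    sC z (ttC 1 (eC 1 2 3 bC0 bC1 ++ eC 2 3 1 bC1 bC2 ++ eC 3 1 2 bC2 bC0) ++
      sC (-1) (ttC 2 (eC 1 2 3 bC0 bC1 ++ eC 2 3 1 bC1 bC2 ++ eC 3 1 2 bC2 bC0)))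

theorem evC_vC (x y z : ℤ) : (evC (vC x y z) : FL F) = v321 (x : F) (y : F) (z : F) := by
  rw [vC, v321, s1]
  simp only [evC_append, evC_sC, evC_ttC, evC_eC0, evC_eC1, evC_eC2, map_add, map_sub, map_mul,
    LinearMap.add_apply, LinearMap.sub_apply, Module.End.mul_apply, pol_X, pol_C]
  simp only [Fin.val_zero, Fin.val_one, Fin.val_two, zero_add, Nat.reduceAdd, neg_smul, one_smul,
    map_neg, Int.cast_smul_eq_zsmul]
  module

/-- `4 C1 = - 2 X + 4 Y - Z`, `C2 = X - Y`, `2 C3 = 2 X - 2 Y + Z` (`v321 x y z = x X + y Y + z Z`);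
write `v321` as `evC` of an explicit combination of trees and use `zC_sound`. -/
theorem FB_v321 (F : Type u) [Field F] [CharZero F] : ∃ C1 C2 C3 : Cb, FB = [C1, C2, C3] ∧
    (4 : F) • (evC C1 : FL F) = v321 (-2) 4 (-1) ∧ (evC C2 : FL F) = v321 1 (-1) 0 ∧
    (2 : F) • (evC C3 : FL F) = v321 2 (-2) 1 := by
  obtain ⟨C1, C2, C3, hFB⟩ : ∃ C1 C2 C3 : Cb, FB = [C1, C2, C3] := ⟨_, _, _, rfl⟩
  have hd : ∀ (c x y z : ℤ) (C : Cb), zC 5 (sC c C ++ sC (-1) (vC x y z)) = true →
      (c : F) • (evC C : FL F) = v321 (x : F) (y : F) (z : F) := by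
    intro c x y z C h
    have h1 := zC_sound (F := F) h
    rw [evC_append, evC_sC, evC_sC, evC_vC, neg_smul, one_smul, ← sub_eq_add_neg, sub_eq_zero] at h1
    rw [← h1, Int.cast_smul_eq_zsmul]
  have hc : (∀ C ∈ getL FB 0, zC 5 (sC 4 C ++ sC (-1) (vC (-2) 4 (-1))) = true) ∧
      (∀ C ∈ getL FB 1, zC 5 (sC 1 C ++ sC (-1) (vC 1 (-1) 0)) = true) ∧
      (∀ C ∈ getL FB 2, zC 5 (sC 2 C ++ sC (-1) (vC 2 (-2) 1)) = true) := by
    refine ⟨?_, ?_, ?_⟩
    · decide +kernel
    · decide +kernel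
    · decide +kernel
  rw [hFB] at hc
  refine ⟨C1, C2, C3, hFB, ?_, ?_, ?_⟩
  · have h := hd 4 (-2) 4 (-1) C1 (hc.1 C1 rfl)
    push_cast at h
    exact h
  · have h := hd 1 1 (-1) 0 C2 (hc.2.1 C2 rfl)
    push_cast at h
    rwa [one_smul] at h
  · have h := hd 2 2 (-2) 1 C3 (hc.2.2 C3 rfl)
    push_cast at h
    exact h

/-- All components are multiples of one vector modulo `T`. -/
theorem famT_of_gen {T : Submodule F (FL F)} {hs : List Cb} (hne : hs ≠ []) (g : FL F)
    (h : ∀ c H, getL hs c = some H → ∃ b : F, (evC H : FL F) - b • g ∈ T) : ∃ β, FamT T hs β := by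
  apply famT_of_pairs hne
  intro c c' H H' hc hc'
  obtain ⟨b, hb⟩ := h c H hc
  obtain ⟨b', hb'⟩ := h c' H' hc'
  by_cases h0 : b = 0
  · refine ⟨1, 0, Or.inl one_ne_zero, ?_⟩
    rw [h0, zero_smul, sub_zero] at hb
    rw [one_smul, zero_smul, add_zero]
    exact hb
  · refine ⟨b', -b, Or.inr (neg_ne_zero.2 h0), ?_⟩
    have h1 := T.sub_mem (T.smul_mem b' hb) (T.smul_mem b hb')
    have h2 : b' • (evC H : FL F) + (-b) • evC H' =
        b' • ((evC H : FL F) - b • g) - b • ((evC H' : FL F) - b' • g) := by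
      module
    rw [h2]
    exact h1

/-- The family of the level `(3, 3)`: `exists_comb_of_levelGood` with
`e = (1/2)(1 + ren (swap 1 2))` and `χ = 1` on `{1, swap 1 2}`, `-1/2` on the other four
permutations.  For `H` in `FB`: `evC H` is symmetric in `1, 2`, `H + (13) H + (23) H = 0`
(`zC_sound` with `decide`), `E 2`, `E 3` are zero (the derivation is the renaming
`y_j -> x_0`, `dd_eq_ren`), `E 1` by symmetry. -/
theorem exists_famB {T : Submodule F (FL F)} (hT : IsTIdeal F T) (h : LevelGood T 3 3) :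
    ∃ β, FamT T FB β := by
  have hgen : ∃ (g : FL F) (ℓ : F → F → F → F), ∀ x y z : F, v321 x y z - ℓ x y z • g ∈ T := by
    rcases K_cases hT h with ⟨z0, z1, h1, h2⟩ | ⟨h1, x0, h2⟩ | ⟨h1, h2⟩
    · refine ⟨v321 0 0 1, fun x y z => z - x * z0 - y * z1, fun x y z => ?_⟩
      have h3 := T.add_mem (T.smul_mem x h1) (T.smul_mem y h2)
      rw [v321_add] at h3
      have h4 := v321_add (x * 1 + y * 0) (x * 0 + y * 1) (x * z0 + y * z1) 0 0 1 (1 : F)
        (z - x * z0 - y * z1)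
      have h5 : (v321 x y z : FL F) = v321 (1 * (x * 1 + y * 0) + (z - x * z0 - y * z1) * 0)
          (1 * (x * 0 + y * 1) + (z - x * z0 - y * z1) * 0)
          (1 * (x * z0 + y * z1) + (z - x * z0 - y * z1) * 1) := by
        congr 1 <;> ring
      rw [h5, ← h4, one_smul, add_sub_cancel_right]
      exact h3
    · refine ⟨v321 1 0 0, fun x y z => x - y * x0, fun x y z => ?_⟩
      have h3 := T.add_mem (T.smul_mem z h1) (T.smul_mem y h2)
      rw [v321_add] at h3
      have h4 := v321_add (z * 0 + y * x0) (z * 0 + y * 1) (z * 1 + y * 0) 1 0 0 (1 : F)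
        (x - y * x0)
      have h5 : (v321 x y z : FL F) = v321 (1 * (z * 0 + y * x0) + (x - y * x0) * 1)
          (1 * (z * 0 + y * 1) + (x - y * x0) * 0) (1 * (z * 1 + y * 0) + (x - y * x0) * 0) := by
        congr 1 <;> ring
      rw [h5, ← h4, one_smul, add_sub_cancel_right]
      exact h3
    · refine ⟨v321 0 1 0, fun x y z => y, fun x y z => ?_⟩
      have h3 := T.add_mem (T.smul_mem z h1) (T.smul_mem x h2)
      rw [v321_add] at h3
      have h4 := v321_add (z * 0 + x * 1) (z * 0 + x * 0) (z * 1 + x * 0) 0 1 0 (1 : F) y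
      have h5 : (v321 x y z : FL F) = v321 (1 * (z * 0 + x * 1) + y * 0)
          (1 * (z * 0 + x * 0) + y * 1) (1 * (z * 1 + x * 0) + y * 0) := by
        congr 1 <;> ring
      rw [h5, ← h4, one_smul, add_sub_cancel_right]
      exact h3
  obtain ⟨g, ℓ, hg⟩ := hgen
  obtain ⟨C1, C2, C3, hFB, h1, h2, h3⟩ := FB_v321 F
  rw [hFB]
  have hdiv : ∀ (c x y z : F) (C : Cb), c ≠ 0 → c • (evC C : FL F) = v321 x y z →
      ∃ b : F, (evC C : FL F) - b • g ∈ T := by
    intro c x y z C hc hC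
    refine ⟨c⁻¹ * ℓ x y z, ?_⟩
    have h4 := T.smul_mem c⁻¹ (hg x y z)
    rwa [← hC, smul_sub, smul_smul, smul_smul, inv_mul_cancel₀ hc, one_smul] at h4
  apply famT_of_gen (by simp) g
  intro c H hc
  match c, hc with
  | 0, hc =>
    cases hc
    exact hdiv 4 _ _ _ _ (by norm_num) h1
  | 1, hc =>
    cases hc
    exact hdiv 1 _ _ _ _ one_ne_zero (by rw [one_smul]; exact h2)
  | 2, hc =>
    cases hc
    exact hdiv 2 _ _ _ _ (by norm_num) h3
  | c + 3, hc => simp [getL] at hc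

/-! ### The level `(4, 2)` -/

/-- the content of a tree -/
def conT : Tr → Multiset ℕ
  | .l i => {i}
  | .b s t => conT s + conT t

theorem ev_homC (t : Tr) : (t.ev : FL F) ∈ HomC (conT t) := by
  induction t with
  | l i => exact X_mem i
  | b s t ihs iht => exact lie_mem_homC ihs iht

theorem evC_homC {p : Cb} {s : Multiset ℕ} (h : ∀ a ∈ p, conT a.2 = s) :
    (evC p : FL F) ∈ HomC s := by
  induction p with
  | nil => exact Submodule.zero_mem _
  | cons a p ih =>
    rw [evC]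
    refine Submodule.add_mem _ ?_ (ih fun b hb => h b (List.mem_cons_of_mem _ hb))
    rw [← Int.cast_smul_eq_zsmul F, ← h a List.mem_cons_self]
    exact Submodule.smul_mem _ _ (ev_homC _)

/-- The vectors of the type of `FC`. -/
private structure HWC (v : FL F) : Prop where
  ke : v ∈ KE (F := F) (Finset.Icc 1 4) 2
  s12 : ren (Equiv.swap 1 2) v = -v
  s13 : ren (Equiv.swap 1 3) v = -v
  s23 : ren (Equiv.swap 2 3) v = -v
  gar : ren (Equiv.swap 1 4) v + ren (Equiv.swap 2 4) v + ren (Equiv.swap 3 4) v = v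

/-- the renaming `y_j -> x` -/
private def mg (j i : ℕ) : ℕ := bif Nat.beq i j then 0 else i

private theorem mg_eq (j : ℕ) : mg j = mrg j 0 := by
  funext i
  rw [mg, mrg]
  by_cases h : i = j
  · have h2 : Nat.beq i j = true := by
      rw [Nat.beq_eq]
      exact h
    rw [if_pos h, h2]
    rfl
  · have h2 : Nat.beq i j = false := by
      rw [← Bool.not_eq_true, Nat.beq_eq]
      exact h
    rw [if_neg h, h2]
    rfl

private theorem HWC_of_chk {H : Cb} (hc : ∀ a ∈ H, conT a.2 = cont (Finset.Icc 1 4) 2)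
    (h12 : zC 5 (H ++ mpC (swp 1 2) H) = true) (h13 : zC 5 (H ++ mpC (swp 1 3) H) = true)
    (h23 : zC 5 (H ++ mpC (swp 2 3) H) = true)
    (hgar : zC 5 (mpC (swp 1 4) H ++ mpC (swp 2 4) H ++ mpC (swp 3 4) H ++ sC (-1) H) = true)
    (h2 : zC 5 (mpC (mg 2) H) = true) (h3 : zC 5 (mpC (mg 3) H) = true)
    (h4 : zC 5 (mpC (mg 4) H) = true) : HWC (evC H : FL F) := by
  have hW : (evC H : FL F) ∈ WW (F := F) (Finset.Icc 1 4) 2 := evC_homC hc
  have hs : ∀ i j, zC 5 (H ++ mpC (swp i j) H) = true →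
      ren (Equiv.swap i j) (evC H : FL F) = -evC H := by
    intro i j h
    have h1 := zC_sound (F := F) h
    rw [evC_append, evC_mpC, swp_fun] at h1
    exact (neg_eq_of_add_eq_zero_right h1).symm
  have hE : ∀ j ∈ Finset.Icc 1 4, zC 5 (mpC (mg j) H) = true → E j (evC H : FL F) = 0 := by
    intro j hj h
    have h1 := zC_sound (F := F) h
    rw [evC_mpC, mg_eq] at h1
    rw [E, dd_eq_ren 0 hW (count_cont hj (by simp) 2)]
    exact h1
  have e2 := hE 2 (by simp) h2
  have e1 : E 1 (evC H : FL F) = 0 := by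
    have h5 := ren_E (F := F) (Equiv.swap 1 2) (by decide) 2 (evC H)
    rw [e2, map_zero, Equiv.swap_apply_right, hs 1 2 h12, map_neg, eq_comm, neg_eq_zero] at h5
    exact h5
  refine ⟨mem_KE.2 ⟨hW, ?_⟩, hs 1 2 h12, hs 1 3 h13, hs 2 3 h23, ?_⟩
  · intro j hj
    have hj' := hj
    rw [Finset.mem_Icc] at hj'
    obtain ⟨j1, j4⟩ := hj'
    interval_cases j
    · exact e1
    · exact e2
    · exact hE 3 hj h3
    · exact hE 4 hj h4
  · have h5 := zC_sound (F := F) hgar
    rw [evC_append, evC_append, evC_append, evC_mpC, evC_mpC, evC_mpC, swp_fun, swp_fun, swp_fun,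
      evC_sC, neg_smul, one_smul, ← sub_eq_add_neg, sub_eq_zero] at h5
    exact h5

private theorem HWC.eps (τ : Equiv.Perm ℕ) (hτ : τ ∈ Sk 3) :
    ∃ ε : F, ∀ v : FL F, HWC v → ren τ v = ε • v := by
  obtain ⟨g, rfl⟩ := exists_ofSubtype (Y := Finset.Icc 1 3) τ hτ
  induction g using Equiv.Perm.swap_induction_on with
  | one =>
    refine ⟨1, fun v _ => ?_⟩
    rw [map_one, one_smul]
    exact ren_id' v
  | swap_mul f x y hxy ih =>
    obtain ⟨ε, h⟩ := ih (fun i hi => ofSubtype_fix f hi)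
    refine ⟨-ε, fun v hv => ?_⟩
    have h1 : ren (F := F) (⇑(Equiv.Perm.ofSubtype (Equiv.swap x y * f))) v =
        ren (Equiv.swap (x : ℕ) y) (ren (⇑(Equiv.Perm.ofSubtype f)) v) := by
      rw [ren_ren, map_mul, Equiv.Perm.ofSubtype_swap_eq]
      rfl
    have h2 : ren (Equiv.swap (x : ℕ) y) v = -v := by
      have hx := Finset.mem_Icc.1 x.2
      have hy := Finset.mem_Icc.1 y.2
      have hne : (x : ℕ) ≠ y := fun h => hxy (Subtype.ext h)
      generalize (x : ℕ) = a at hx hne ⊢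
      generalize (y : ℕ) = b at hy hne ⊢
      obtain ⟨a1, a3⟩ := hx
      obtain ⟨b1, b3⟩ := hy
      interval_cases a <;> interval_cases b
      · exact absurd rfl hne
      · exact hv.s12
      · exact hv.s13
      · rw [Equiv.swap_comm]
        exact hv.s12
      · exact absurd rfl hne
      · exact hv.s23
      · rw [Equiv.swap_comm]
        exact hv.s13
      · rw [Equiv.swap_comm]
        exact hv.s23
      · exact absurd rfl hne
    rw [h1, h v hv, map_smul, h2, smul_neg, neg_smul]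

private theorem HWC.sw {v : FL F} (hv : HWC v) : ren (Equiv.swap 2 1) v = -v ∧
    ren (Equiv.swap 3 1) v = -v ∧ ren (Equiv.swap 3 2) v = -v := by
  refine ⟨?_, ?_, ?_⟩
  · rw [Equiv.swap_comm]
    exact hv.s12
  · rw [Equiv.swap_comm]
    exact hv.s13
  · rw [Equiv.swap_comm]
    exact hv.s23

private theorem alt_three (w : FL F) : altL [1, 2, 3] w =
    (w - (ren (Equiv.swap 2 1) w + ren (Equiv.swap 3 1) w)) -
      ren (Equiv.swap 3 2) (w - (ren (Equiv.swap 2 1) w + ren (Equiv.swap 3 1) w)) := by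
  rw [altL_cons, altL_cons, altL_cons]
  simp only [List.map_cons, List.map_nil, List.sum_cons, List.sum_nil, add_zero, sub_zero]
  rfl

private theorem HWC.alt_self {v : FL F} (hv : HWC v) : altL [1, 2, 3] v = (6 : F) • v := by
  obtain ⟨h1, h2, h3⟩ := hv.sw
  rw [alt_three, h1, h2]
  simp only [map_sub, map_add, map_neg, h3]
  module

private theorem HWC.alt_four {v : FL F} (hv : HWC v) {i : ℕ} (hi : i ∈ Finset.Icc 1 3) :
    altL [1, 2, 3] (ren (Equiv.swap i 4) v) = (2 : F) • v := by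
  obtain ⟨h1, h2, h3⟩ := hv.sw
  have c21 : ∀ c e : ℕ, ren (F := F) (Equiv.swap 2 1) (ren (Equiv.swap c e) v) =
      -ren (Equiv.swap (Equiv.swap 2 1 c) (Equiv.swap 2 1 e)) v := by
    intro c e
    rw [ren_swap_swap, h1, map_neg]
  have c31 : ∀ c e : ℕ, ren (F := F) (Equiv.swap 3 1) (ren (Equiv.swap c e) v) =
      -ren (Equiv.swap (Equiv.swap 3 1 c) (Equiv.swap 3 1 e)) v := by
    intro c e
    rw [ren_swap_swap, h2, map_neg]
  have c32 : ∀ c e : ℕ, ren (F := F) (Equiv.swap 3 2) (ren (Equiv.swap c e) v) =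
      -ren (Equiv.swap (Equiv.swap 3 2 c) (Equiv.swap 3 2 e)) v := by
    intro c e
    rw [ren_swap_swap, h3, map_neg]
  have a1 : Equiv.swap 2 1 1 = 2 := by decide
  have a2 : Equiv.swap 2 1 2 = 1 := by decide
  have a3 : Equiv.swap 2 1 3 = 3 := by decide
  have a4 : Equiv.swap 2 1 4 = 4 := by decide
  have b1 : Equiv.swap 3 1 1 = 3 := by decide
  have b2 : Equiv.swap 3 1 2 = 2 := by decide
  have b3 : Equiv.swap 3 1 3 = 1 := by decide
  have b4 : Equiv.swap 3 1 4 = 4 := by decide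
  have d1 : Equiv.swap 3 2 1 = 1 := by decide
  have d2 : Equiv.swap 3 2 2 = 3 := by decide
  have d3 : Equiv.swap 3 2 3 = 2 := by decide
  have d4 : Equiv.swap 3 2 4 = 4 := by decide
  have h5 : (2 : F) • (ren (Equiv.swap 1 4) v + ren (Equiv.swap 2 4) v + ren (Equiv.swap 3 4) v) =
      (2 : F) • v := by rw [hv.gar]
  rw [Finset.mem_Icc] at hi
  obtain ⟨i1, i3⟩ := hi
  rw [alt_three]
  interval_cases i
  · simp only [map_sub, map_add, map_neg, c21, c31, c32, a1, a2, a3, a4, b1, b2, b3, b4, d1, d2,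
      d3, d4]
    rw [← h5]
    module
  · simp only [map_sub, map_add, map_neg, c21, c31, c32, a1, a2, a3, a4, b1, b2, b3, b4, d1, d2,
      d3, d4]
    rw [← h5]
    module
  · simp only [map_sub, map_add, map_neg, c21, c31, c32, a1, a2, a3, a4, b1, b2, b3, b4, d1, d2,
      d3, d4]
    rw [← h5]
    module

private theorem HWC.chi (σ : Equiv.Perm ℕ) (hσ : σ ∈ Sk 4) :
    ∃ c : F, ∀ v : FL F, HWC v → ((1 / 6 : F) • altL [1, 2, 3]) (ren σ v) = c • v := by
  have h4 : σ 4 ∈ Finset.Icc 1 4 := by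
    have := image_eq_of_fix (Y := Finset.Icc 1 4) σ hσ
    rw [← this]
    exact Finset.mem_image_of_mem _ (by decide)
  by_cases h : σ 4 = 4
  · have hτ : σ ∈ Sk 3 := by
      intro i hi
      by_cases h5 : i = 4
      · rw [h5, h]
      · apply hσ
        intro h6
        rw [Finset.mem_Icc] at hi h6
        omega
    obtain ⟨ε, hε⟩ := HWC.eps (F := F) σ hτ
    refine ⟨ε, fun v hv => ?_⟩
    rw [hε v hv, map_smul, LinearMap.smul_apply, hv.alt_self, smul_smul, smul_smul]
    congr 1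
    ring
  · have hi : σ 4 ∈ Finset.Icc 1 3 := by
      rw [Finset.mem_Icc] at h4 ⊢
      omega
    obtain ⟨τ, hτe⟩ : ∃ τ : Equiv.Perm ℕ, τ = Equiv.swap (σ 4) 4 * σ := ⟨_, rfl⟩
    have hτ : τ ∈ Sk 3 := by
      intro i hi'
      rw [hτe, Equiv.Perm.mul_apply]
      by_cases h5 : i = 4
      · rw [h5, Equiv.swap_apply_left]
      · have h6 : σ i = i := by
          apply hσ
          intro h6
          rw [Finset.mem_Icc] at hi' h6
          omega
        rw [h6, Equiv.swap_apply_of_ne_of_ne _ h5]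
        intro h7
        rw [← h7] at hi
        exact hi' hi
    have hσ2 : σ = Equiv.swap (σ 4) 4 * τ := by
      rw [hτe, ← mul_assoc, Equiv.swap_mul_self, one_mul]
    obtain ⟨ε, hε⟩ := HWC.eps (F := F) τ hτ
    refine ⟨ε * (1 / 3), fun v hv => ?_⟩
    have h5 : ren (F := F) σ v = ren (Equiv.swap (σ 4) 4) (ren τ v) := by
      rw [ren_ren]
      conv_lhs => rw [hσ2]
      rfl
    rw [h5, hε v hv, map_smul, map_smul, LinearMap.smul_apply, hv.alt_four hi, smul_smul,
      smul_smul]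
    congr 1
    ring

private theorem FC_HWC : ∃ H1 H2 : Cb, FC = [H1, H2] ∧ HWC (evC H1 : FL F) ∧
    HWC (evC H2 : FL F) := by
  have hc : ∀ k < 2, ∀ H ∈ getL FC k, (∀ a ∈ H, conT a.2 = cont (Finset.Icc 1 4) 2) ∧
      zC 5 (H ++ mpC (swp 1 2) H) = true ∧ zC 5 (H ++ mpC (swp 1 3) H) = true ∧
      zC 5 (H ++ mpC (swp 2 3) H) = true ∧
      zC 5 (mpC (swp 1 4) H ++ mpC (swp 2 4) H ++ mpC (swp 3 4) H ++ sC (-1) H) = true ∧
      zC 5 (mpC (mg 2) H) = true ∧ zC 5 (mpC (mg 3) H) = true ∧ zC 5 (mpC (mg 4) H) = true := by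
    decide +kernel
  obtain ⟨H1, H2, hFC⟩ : ∃ H1 H2 : Cb, FC = [H1, H2] := ⟨_, _, rfl⟩
  rw [hFC] at hc
  obtain ⟨p1, p2, p3, p4, p5, p6, p7, p8⟩ := hc 0 (by norm_num) H1 rfl
  obtain ⟨q1, q2, q3, q4, q5, q6, q7, q8⟩ := hc 1 (by norm_num) H2 rfl
  exact ⟨H1, H2, hFC, HWC_of_chk p1 p2 p3 p4 p5 p6 p7 p8, HWC_of_chk q1 q2 q3 q4 q5 q6 q7 q8⟩

/-- The family of the level `(4, 2)`: `exists_comb_of_levelGood` with `e = (1/6) altL [1, 2, 3]`;
for `v` antisymmetric in `1, 2, 3` with `v = (14) v + (24) v + (34) v`: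
`e (τ v) = sgn τ v` and `e (τ (i 4) v) = (1/3) sgn τ v` for permutations `τ` of `1, 2, 3`. -/
theorem exists_famC {T : Submodule F (FL F)} (hT : IsTIdeal F T) (h : LevelGood T 4 2) :
    ∃ γ, FamT T FC γ := by
  classical
  obtain ⟨H1, H2, hFC, h1, h2⟩ := FC_HWC (F := F)
  have hch : ∀ σ : Equiv.Perm ℕ, ∃ c : F, σ ∈ Sk 4 → ∀ v : FL F, HWC v →
      ((1 / 6 : F) • altL [1, 2, 3]) (ren σ v) = c • v := by
    intro σ
    by_cases hσ : σ ∈ Sk 4
    · obtain ⟨c, hc⟩ := HWC.chi (F := F) σ hσ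
      exact ⟨c, fun _ => hc⟩
    · exact ⟨0, fun h => absurd h hσ⟩
  choose χ0 hχ0 using hch
  have hχ : ∀ v : FL F, HWC v → ∀ σ ∈ Sk 4, ((1 / 6 : F) • altL [1, 2, 3]) (ren σ v) =
      (if σ = 1 then 1 else χ0 σ : F) • v := by
    intro v hv σ hσ
    by_cases h3 : σ = 1
    · rw [if_pos h3, h3, one_smul]
      have h4 : ren (F := F) (⇑(1 : Equiv.Perm ℕ)) v = v := ren_id' v
      rw [h4, LinearMap.smul_apply, hv.alt_self, smul_smul]
      norm_num
    · rw [if_neg h3]
      exact hχ0 σ hσ v hv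
  have hpair : ∀ v w : FL F, HWC v → HWC w → ∃ a b : F, (a ≠ 0 ∨ b ≠ 0) ∧ a • v + b • w ∈ T := by
    intro v w hv hw
    obtain ⟨a, b, hab, hm⟩ := exists_comb_of_levelGood hT h hv.ke hw.ke
      ((1 / 6 : F) • altL [1, 2, 3]) (by
        intro U hU f hf
        rw [LinearMap.smul_apply, alt_three]
        apply U.smul_mem
        have hsw : ∀ i j : ℕ, i ∈ Finset.Icc 1 4 → j ∈ Finset.Icc 1 4 → ∀ f ∈ U,
            ren (Equiv.swap i j) f ∈ U := by
          intro i j hi hj f hf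
          apply hU _ _ f hf
          intro l hl
          apply Equiv.swap_apply_of_ne_of_ne
          · rintro rfl
            exact hl hi
          · rintro rfl
            exact hl hj
        have h5 : f - (ren (Equiv.swap 2 1) f + ren (Equiv.swap 3 1) f) ∈ U :=
          U.sub_mem hf (U.add_mem (hsw 2 1 (by decide) (by decide) f hf)
            (hsw 3 1 (by decide) (by decide) f hf))
        exact U.sub_mem h5 (hsw 3 2 (by decide) (by decide) _ h5))
      (fun σ => if σ = 1 then 1 else χ0 σ) (if_pos rfl) (hχ v hv) (hχ w hw)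
    refine ⟨a, b, ?_, hm⟩
    by_contra hcon
    push Not at hcon
    apply hab
    rw [hcon.1, hcon.2]
  rw [hFC]
  apply famT_of_pairs (by simp)
  intro c c' H H' hc hc'
  have hH : HWC (evC H : FL F) := by
    match c, hc with
    | 0, hc => cases hc; exact h1
    | 1, hc => cases hc; exact h2
    | c + 2, hc => simp [getL] at hc
  have hH' : HWC (evC H' : FL F) := by
    match c', hc' with
    | 0, hc => cases hc; exact h1
    | 1, hc => cases hc; exact h2
    | c + 2, hc => simp [getL] at hc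
  exact hpair _ _ hH hH'

/-- `v411 al be = al f1 + be f2`. -/
theorem FA_v411 (al be : F) : ∃ f1 f2 f3 : Cb, FA = [f1, f2, f3] ∧
    (v411 al be : FL F) = al • evC f1 + be • evC f2 ∧
    (evC f3 : FL F) = evC f1 + (2 : F) • evC f2 := by
  obtain ⟨f1, f2, f3, hFA, h1, h2, h3⟩ := FA_MM (F := F)
  refine ⟨f1, f2, f3, hFA, ?_, h3⟩
  have h00 : (⁅X F 1, X F 2⁆ : FL F) = MM 0 0 := rfl
  rw [h1, h2, v411, h00]
  simp only [map_add, map_mul, pow_two, LinearMap.add_apply, Module.End.mul_apply, pol_X, pol_C]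
  simp only [Fin.val_zero, Fin.val_one, zero_add, Nat.reduceAdd, map_smul, map_add, tt1_MM, tt2_MM]
  module

end

end Pool.Agent.Lib.MP_b4a71d_al.Eng
end

section

/-!
# MP_b4a71d_al: the facts at the point S in final form
-/

set_option autoImplicit false
set_option linter.unusedSectionVars false

namespace Pool.Agent.Lib.MP_b4a71d_al.Eng

universe u

noncomputable section

variable {F : Type u} [Field F] [CharZero F] {T : Submodule F (FL F)}

/-- The values at S. -/
def bS (F : Type u) [Field F] (i : ℕ) : F := if i = 0 then 1 else 0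

theorem famT_bS (h1 : v321 (F := F) 0 0 1 ∈ T) (h2 : v321 (F := F) (-1) 1 0 ∈ T) :
    FamT T FB (bS F) := by
  obtain ⟨C1, C2, C3, hFB, _, hC2, hC3⟩ := FB_v321 F
  rw [hFB]
  have m2 : (evC C2 : FL F) ∈ T := by
    have h3 := v321_add (F := F) (-1) 1 0 0 0 1 (-1) 0
    have h4 : (v321 1 (-1) 0 : FL F) = (-1 : F) • v321 (-1) 1 0 + (0 : F) • v321 0 0 1 := by
      rw [h3]
      norm_num
    rw [hC2, h4]
    exact T.add_mem (T.smul_mem _ h2) (T.smul_mem _ h1)
  have m3 : (evC C3 : FL F) ∈ T := by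
    have h3 := v321_add (F := F) (-1) 1 0 0 0 1 (-2) 1
    have h4 : (v321 2 (-2) 1 : FL F) = (-2 : F) • v321 (-1) 1 0 + (1 : F) • v321 0 0 1 := by
      rw [h3]
      norm_num
    have h5 : (2 : F) • (evC C3 : FL F) ∈ T := by
      rw [hC3, h4]
      exact T.add_mem (T.smul_mem _ h2) (T.smul_mem _ h1)
    have h6 := T.smul_mem (2 : F)⁻¹ h5
    rwa [smul_smul, inv_mul_cancel₀ two_ne_zero, one_smul] at h6
  refine ⟨⟨0, rfl, by simp [bS]⟩, ?_⟩
  intro c c' H H' hH hH'
  have key : ∀ c H, getL [C1, C2, C3] c = some H → c ≠ 0 → (evC H : FL F) ∈ T := by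
    intro c H hH hc
    rcases c with _ | _ | _ | c
    · exact absurd rfl hc
    · rw [getL, getL, Option.some.injEq] at hH
      rw [← hH]
      exact m2
    · rw [getL, getL, getL, Option.some.injEq] at hH
      rw [← hH]
      exact m3
    · simp [getL] at hH
  by_cases hc : c = 0
  · by_cases hc' : c' = 0
    · subst hc hc'
      rw [hH, Option.some.injEq] at hH'
      rw [hH', sub_self]
      exact T.zero_mem
    · have h3 : bS F c' = 0 := if_neg hc'
      rw [h3, zero_smul, zero_sub]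
      exact T.neg_mem (T.smul_mem _ (key c' H' hH' hc'))
  · have h3 : bS F c = 0 := if_neg hc
    rw [h3, zero_smul, sub_zero]
    exact T.smul_mem _ (key c H hH hc)

theorem bS1 : bS F 1 = 0 := if_neg (by decide)
theorem bS2 : bS F 2 = 0 := if_neg (by decide)

theorem LF.mem {k d : ℕ} {φ : FL F →ₗ[F] F} (h : LF T k d φ) : φ ∈ PAdm T k d ∅ :=
  ⟨h.lam, h.ideal, fun _ hp => absurd hp (Set.notMem_empty _),
    fun _ he => absurd he (Set.notMem_empty _)⟩

/-! ### The two vectors -/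

theorem ev_yxT (a n : ℕ) : ((yxT a n).ev : FL F) = yx a n := by
  induction n with
  | zero => rfl
  | succ n ih => rw [yxT, Tr.ev, ih, Tr.ev, yx_succ]

theorem evC_g3C (a b c : ℕ) : (evC (g3C a b c) : FL F) = SD.g3 a b c := by
  rw [g3C, SD.g3]
  simp only [evC, Tr.ev, ev_yxT, one_smul, neg_smul, add_zero]
  abel

theorem evC_gqC (d a b c : ℕ) : (evC (gqC d a b c) : FL F) = SD.gq d a b c := by
  have key : ∀ p : Cb, (evC (p.map (fun x => (x.1, Tr.b x.2 (.b (.l d) (.l 0))))) : FL F) =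
      ⁅(evC p : FL F), ⁅X F d, X F 0⁆⁆ := by
    intro p
    induction p with
    | nil => rw [List.map_nil, evC, zero_lie]
    | cons a p ih => rw [List.map_cons, evC, ih, evC, add_lie, zsmul_lie]; rfl
  rw [gqC, key, evC_g3C, SD.gq]

theorem evC_gbC (a b c : ℕ) : (evC (gbC a b c) : FL F) = SD.gb a b c := by
  rw [gbC, evC_append, evC_append, evC_append, evC_gqC, evC_gqC, evC_gqC, evC_gqC, SD.gb]
  abel

theorem evC_negC (p : Cb) : (evC (negC p) : FL F) = -evC p := by
  induction p with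
  | nil => rw [negC, evC, neg_zero]
  | cons a p ih => rw [negC, evC, ih, evC, neg_smul]; abel

theorem evC_xvC0 : (evC xvC0 : FL F) = SD.xv 0 := by
  rw [xvC0, evC_append, evC_negC, evC_gbC, evC_gbC, ← sub_eq_add_neg]
  rfl

theorem evC_xvC1 : (evC xvC1 : FL F) = SD.xv 1 := by
  rw [xvC1, evC_append, evC_negC, evC_gbC, evC_gbC, ← sub_eq_add_neg]
  rfl

/-! ### The facts -/

/-- functionals vanishing on the two vectors -/
def PX (T : Submodule F (FL F)) : Submodule F (FL F →ₗ[F] F) where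
  carrier := {φ | φ ∈ PAdm T 4 3 ∅ ∧ ∀ v ∈ Submodule.span F (Set.range (SD.xv (F := F))), φ v = 0}
  add_mem' := by
    rintro φ ψ ⟨h1, h2⟩ ⟨h3, h4⟩
    exact ⟨Submodule.add_mem _ h1 h3, fun v hv => by
      rw [LinearMap.add_apply, h2 v hv, h4 v hv, add_zero]⟩
  zero_mem' := ⟨Submodule.zero_mem _, fun v _ => rfl⟩
  smul_mem' := by
    rintro c φ ⟨h1, h2⟩
    exact ⟨Submodule.smul_mem _ c h1, fun v hv => by
      rw [LinearMap.smul_apply, h2 v hv, smul_zero]⟩

theorem PX_stab (hT : IsTIdeal F T) : FStab 4 (PX T) := by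
  rintro φ ⟨h1, h2⟩ σ hσ
  exact ⟨PAdm.stab hT 4 3 ∅ φ h1 σ hσ, fun v hv => h2 _ (SD.xv_stab σ hσ v hv)⟩

/-- (E43). -/
theorem E43 (hT : IsTIdeal F T) (h1 : v321 (F := F) 0 0 1 ∈ T)
    (h2 : v321 (F := F) (-1) 1 0 ∈ T) (φ : FL F →ₗ[F] F) (hφ : LF T 4 3 φ)
    (hx0 : φ (SD.xv 0) = 0) (hx1 : φ (SD.xv 1) = 0) : VanW 4 3 φ := by
  have hB := famT_bS h1 h2
  have hmem : φ ∈ PX T := by
    refine ⟨hφ.mem, fun v hv => ?_⟩
    induction hv using Submodule.span_induction with
    | mem x h =>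
      obtain ⟨i, rfl⟩ := h
      fin_cases i
      · exact hx0
      · exact hx1
    | zero => exact map_zero φ
    | add a b _ _ ha hb => rw [map_add, ha, hb, add_zero]
    | smul c a _ ha => rw [map_smul, ha, smul_zero]
  refine chain43 (P := PX T) (PX_stab hT)
    (fun φ hφ h => PAdm.sym hφ.1 (by decide) (by decide) h) ?_ φ hmem
  rintro φ ⟨hφ, hφx⟩ h
  have h34 : EqS 4 3 φ true {3, 4} :=
    S43_22 hT hB bS1 bS2 hφ (a := 1) (b := 2) (p := 3) (q := 4) (by decide) (by decide)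
      (by decide) (by decide) (by decide) (by decide) (by decide) (by decide) (by decide)
      (by decide) h
  have g1 := S43_gar hT hB bS1 bS2 hφ (A := {1, 2}) (t := 3) (by decide) (by decide)
    (by decide) rfl h
  have g2 := S43_gar hT hB bS1 bS2 hφ (A := {1, 2}) (t := 4) (by decide) (by decide)
    (by decide) rfl h
  have hhd : (getL ce322.cases 3).map (fun x => (x.1, x.2.1)) =
      some ([([1, 2], [0])], [xvC0, xvC1]) := rfl
  obtain ⟨x, hx, hx2⟩ := Option.map_eq_some_iff.1 hhd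
  rw [Prod.mk.injEq] at hx2
  refine Cert.zero (c := ce322) ok322 (by decide) hT (PAdm.lf hφ) (grp322 h h34 g1 g2)
    ((fams1 hB _).weak _) (getL_mem hx) ?_ ?_
  · rw [hx2.1]
    exact knOK1 (x := ([1, 2], [0])) ⟨by simp [bS], by simp [bS]⟩
  · rw [hx2.2]
    intro cb hcb
    have hval : ∀ i : Fin 2, ext 4 3 φ (SD.xv i) = 0 := by
      intro i
      rw [ext_W φ (KE_le _ _ (SD.xv_mem i))]
      exact hφx _ (Submodule.subset_span ⟨i, rfl⟩)
    simp only [List.mem_cons, List.not_mem_nil, or_false] at hcb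
    rcases hcb with rfl | rfl
    · rw [evC_xvC0]
      exact hval 0
    · rw [evC_xvC1]
      exact hval 1

/-- (E52). -/
theorem E52 (hT : IsTIdeal F T) (h1 : v321 (F := F) 0 0 1 ∈ T)
    (h2 : v321 (F := F) (-1) 1 0 ∈ T) (φ : FL F →ₗ[F] F) (hφ : LF T 5 2 φ)
    (hs : EqvW 5 2 φ 1 2 false) : VanW 5 2 φ := by
  have ha := S52_anti hT (famT_bS h1 h2) bS1 bS2 hφ.mem 1 (by decide) 2 (by decide) (by decide)
  intro w hw
  have h3 := ha w hw
  rw [hs w hw, sg, sg] at h3
  simp only [Bool.false_eq_true, if_false, if_true] at h3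
  have h4 : (2 : F) * φ w = 0 := by linear_combination h3
  exact (mul_eq_zero.1 h4).resolve_left two_ne_zero

/-- (E53). -/
theorem E53 (hT : IsTIdeal F T) (h1 : v321 (F := F) 0 0 1 ∈ T)
    (h2 : v321 (F := F) (-1) 1 0 ∈ T) (φ : FL F →ₗ[F] F) (hφ : LF T 5 3 φ) {A : Finset ℕ}
    (hA : A ⊆ Finset.Icc 1 5) (hc : 3 ≤ A.card) (hs : EqS 5 3 φ true A) : VanW 5 3 φ := by
  obtain ⟨B, hB, hBc⟩ := Finset.exists_subset_card_eq hc
  exact S53_van hT (famT_bS h1 h2) bS1 bS2 B (hB.trans hA) hBc φ hφ.mem (hs.mono hB)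

/-- (E62). -/
theorem E62 (hT : IsTIdeal F T) (h1 : v321 (F := F) 0 0 1 ∈ T)
    (h2 : v321 (F := F) (-1) 1 0 ∈ T) (φ : FL F →ₗ[F] F) (hφ : LF T 6 2 φ) : VanW 6 2 φ :=
  S62_van hT (famT_bS h1 h2) bS1 bS2 φ hφ.mem

/-- Composition with an element of the group algebra. -/
theorem comp_GA {k d : ℕ} {L : Set (Module.End F (FL F))} (hT : IsTIdeal F T)
    {φ : FL F →ₗ[F] F} (hφ : φ ∈ PAdm T k d L) {e : Module.End F (FL F)}
    (he : e ∈ GA (F := F) (Finset.Icc 1 k)) : φ.comp e ∈ PAdm T k d L := by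
  rw [GA] at he
  induction he using Submodule.span_induction with
  | mem a h =>
    obtain ⟨g, rfl⟩ := h
    exact PAdm.stab hT k d L φ hφ _ (fun i hi => ofSubtype_fix g hi)
  | zero =>
    rw [LinearMap.comp_zero]
    exact Submodule.zero_mem _
  | add a b _ _ h1 h2 =>
    rw [LinearMap.comp_add]
    exact Submodule.add_mem _ h1 h2
  | smul c a _ h1 =>
    rw [LinearMap.comp_smul]
    exact Submodule.smul_mem _ c h1

/-- At S: the antisymmetrizers in at least three letters kill the level `(5, 3)`. -/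
theorem S53_mem (hT : IsTIdeal F T) (h1 : v321 (F := F) 0 0 1 ∈ T)
    (h2 : v321 (F := F) (-1) 1 0 ∈ T) (l : List ℕ) (hl : l.Nodup)
    (hlk : ∀ a ∈ l, a ∈ Finset.Icc 1 5) (hc : 3 ≤ l.length) {f : FL F}
    (hf : f ∈ KE (Finset.Icc 1 5) 3) : altL l f ∈ T := by
  have hst : Stab (Finset.Icc 1 5) (KE (F := F) (Finset.Icc 1 5) 3) := by
    intro σ hσ f hf
    exact ren_KE σ (hσ 0 (by simp)) (image_eq_of_fix σ hσ) hf
  refine mem_T_of_fun hT (GA_mem hst (altL_mem_GA l hlk) hf) ?_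
  intro φ hφ
  have h3 := comp_GA hT hφ (altL_mem_GA l hlk)
  have h4 : EqS 5 3 (φ.comp (altL l)) true l.toFinset := by
    intro a ha b hb hab w hw
    rw [LinearMap.comp_apply, LinearMap.comp_apply,
      altL_sw l hl (List.mem_toFinset.1 ha) (List.mem_toFinset.1 hb) hab, map_neg, sg]
    simp
  exact E53 hT h1 h2 (φ.comp (altL l)) (PAdm.lf h3)
    (fun a ha => hlk a (List.mem_toFinset.1 ha))
    (by rw [List.toFinset_card_of_nodup hl]; exact hc) h4 f (KE_le _ _ hf)

theorem S52_mem' (hT : IsTIdeal F T) (h1 : v321 (F := F) 0 0 1 ∈ T)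
    (h2 : v321 (F := F) (-1) 1 0 ∈ T) {v : FL F} (hv : v ∈ KE (Finset.Icc 1 5) 2) {i j : ℕ}
    (hi : i ∈ Finset.Icc 1 5) (hj : j ∈ Finset.Icc 1 5) (hij : i ≠ j) :
    v + ren (Equiv.swap i j) v ∈ T :=
  S52_mem hT (famT_bS h1 h2) bS1 bS2 hv hi hj hij

theorem S62_LZ' (hT : IsTIdeal F T) (h1 : v321 (F := F) 0 0 1 ∈ T)
    (h2 : v321 (F := F) (-1) 1 0 ∈ T) : LZ T 6 2 :=
  S62_LZ hT (famT_bS h1 h2) bS1 bS2

end

end Pool.Agent.Lib.MP_b4a71d_al.Eng
end

section

/-!
# MP_b4a71d_al: final statements of the finite checks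
-/

set_option autoImplicit false
set_option linter.unusedSectionVars false

namespace Pool.Agent.Lib.MP_b4a71d_al.Eng

universe u

noncomputable section

variable {F : Type u} [Field F] [CharZero F] {T : Submodule F (FL F)}

/-- Degree 7: the levels `(4, 3)` and `(5, 2)` are distributive. -/
theorem fin7 (hT : IsTIdeal F T) (h33 : LevelGood T 3 3) : LevelGood T 4 3 ∧ LevelGood T 5 2 := by
  obtain ⟨β, hB⟩ := exists_famB hT h33
  exact ⟨levelGood43 hT hB, levelGood52 hT hB⟩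

/-- A component with value zero lies in `T`. -/
theorem FamT.mem {hs : List Cb} {β : ℕ → F} (h : FamT T hs β) {c : ℕ} {H : Cb}
    (hc : getL hs c = some H) (h0 : β c = 0) : (evC H : FL F) ∈ T := by
  obtain ⟨⟨c', hc', hne⟩, hrel⟩ := h
  obtain ⟨H', hH'⟩ := Option.isSome_iff_exists.1 hc'
  have h1 := hrel c c' H H' hc hH'
  rw [h0, zero_smul, sub_zero] at h1
  have h2 := T.smul_mem (β c')⁻¹ h1
  rwa [smul_smul, inv_mul_cancel₀ hne, one_smul] at h2

/-- Degree 8: outside of two exceptional cases the levels `(4, 4)`, `(5, 3)`, `(6, 2)` are zero. -/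
theorem fin8 (hT : IsTIdeal F T) (h33 : LevelGood T 3 3) (h24 : LevelGood T 2 4)
    (h42 : LevelGood T 4 2) : (LZ T 4 4 ∧ LZ T 5 3 ∧ LZ T 6 2) ∨
      (v321 (F := F) 0 0 1 ∈ T ∧ v321 (F := F) (-1) 1 0 ∈ T ∧ v411 (F := F) 1 2 ∈ T) ∨
      HRel T := by
  obtain ⟨β, hb⟩ := exists_famB hT h33
  obtain ⟨α, ha⟩ := exists_famA hT h24
  obtain ⟨γ, hc⟩ := exists_famC hT h42
  have hf : Fam3 T β α γ := ⟨hb, ha, hc⟩
  by_cases hn : NE β α γ
  · exact Or.inl ⟨LZ44 hT hf hn, LZ53 hT hf hn, LZ62 hT hf hn⟩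
  rw [NE, not_not] at hn
  right
  rcases hn with ⟨h1, h2, h3⟩ | ⟨h1, h2, h3, h4⟩
  · left
    obtain ⟨C1, C2, C3, hFB, _, hC2, hC3⟩ := FB_v321 F
    obtain ⟨f1, f2, f3, hFA, hv, hf3⟩ := FA_v411 (1 : F) 2
    have m2 : (evC C2 : FL F) ∈ T := FamT.mem hb (c := 1) (by rw [hFB]; rfl) h1
    have m3 : (evC C3 : FL F) ∈ T := FamT.mem hb (c := 2) (by rw [hFB]; rfl) h2
    have ma : (evC f3 : FL F) ∈ T := FamT.mem ha (c := 2) (by rw [hFA]; rfl) h3
    rw [hC2] at m2
    have m3' : (v321 2 (-2) 1 : FL F) ∈ T := by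
      rw [← hC3]
      exact T.smul_mem _ m3
    refine ⟨?_, ?_, ?_⟩
    · have h5 := v321_add (F := F) 1 (-1) 0 2 (-2) 1 (-2) 1
      have h6 : (v321 0 0 1 : FL F) = (-2 : F) • v321 1 (-1) 0 + (1 : F) • v321 2 (-2) 1 := by
        rw [h5]
        norm_num
      rw [h6]
      exact T.add_mem (T.smul_mem _ m2) (T.smul_mem _ m3')
    · have h5 := v321_add (F := F) 1 (-1) 0 0 0 0 (-1) 0
      have h6 : (v321 (-1) 1 0 : FL F) = (-1 : F) • v321 1 (-1) 0 + (0 : F) • v321 0 0 0 := by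
        rw [h5]
        norm_num
      rw [h6, zero_smul, add_zero]
      exact T.smul_mem _ m2
    · rw [hv, one_smul, ← hf3]
      exact ma
  · right
    exact ⟨FamT.mem hb (c := 0) rfl h1, FamT.mem hb (c := 2) rfl h2,
      FamT.mem ha (c := 1) rfl h3, FamT.mem hc (c := 0) rfl h4⟩

/-- Degree 7, in the form of `core_of_parts`. -/
theorem core7 (T : Submodule F (FL F)) (hT : IsTIdeal F T) (h6 : Good6 T) :
    LevelGood T 4 3 ∧ LevelGood T 5 2 :=
  fin7 hT (h6 3 3 le_rfl)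

/-- Degree 8, in the form of `core_of_parts`. -/
theorem core8 (T : Submodule F (FL F)) (hT : IsTIdeal F T) (h6 : Good6 T) :
    (LZ T 4 4 ∧ LZ T 5 3 ∧ LZ T 6 2) ∨ SRel T ∨ HRel T := by
  rcases fin8 hT (h6 3 3 le_rfl) (h6 2 4 le_rfl) (h6 4 2 le_rfl) with h | ⟨h1, h2, h3⟩ | h
  · exact Or.inl h
  · exact Or.inr (Or.inl ⟨h1, h2, h3⟩)
  · exact Or.inr (Or.inr h)

end

end Pool.Agent.Lib.MP_b4a71d_al.Eng
end

section

/-!
# The point S
-/

set_option autoImplicit false

namespace Pool.Agent.Lib.MP_b4a71d_al.SD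

universe u

theorem engS {F : Type u} [Field F] [CharZero F] {T : Submodule F (FL F)} (hT : IsTIdeal F T)
    (hS : SRel T) : EngS T where
  s52 v hv i hi j hj hij := Eng.S52_mem' hT hS.z hS.y hv hi hj hij
  s53 f hf := Eng.S53_mem hT hS.z hS.y [1, 2, 3, 4] (by decide) (by decide) (by decide) hf
  s62 := Eng.S62_LZ' hT hS.z hS.y

theorem sPoint {F : Type u} [Field F] [CharZero F] : ∀ T : Submodule F (FL F),
    IsTIdeal F T → Good6 T → SRel T → ∀ k d, 4 ≤ k → 2 ≤ d → 8 ≤ k + d → LevelGood T k d := by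
  intro T hT _ hS k d hk _ hkd
  refine levelGood_S hT hS.z hS.y hS.a (engS hT hS) ?_
    (fun J hJ hl k d => S.levelGood_J hJ hl k d) (by omega) hkd
  intro φ hφ h0 h1
  exact Eng.E43 TS0_isTIdeal (subset_genT _ (Or.inl rfl)) (subset_genT _ (Or.inr (Or.inl rfl)))
    φ hφ h0 h1

end Pool.Agent.Lib.MP_b4a71d_al.SD
end

section

/-!
# The main theorem
-/

set_option autoImplicit false

namespace Pool.Agent.Lib.MP_b4a71d_al

universe u

/-- The core statement. -/
theorem core (F : Type u) [Field F] [CharZero F] : Core F :=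
  core_of_parts Eng.core7 Eng.core8 SD.sPoint

/-- A maximal distributive variety is defined by identities of degree at most six. -/
theorem maximal_degPart {F : Type u} [Field F] [CharZero F] {V : Set (LieAlg F)}
    (hV : IsVariety F V) (h : IsDistributive F V)
    (hmax : ∀ W : Set (LieAlg F), IsVariety F W → IsDistributive F W → V ⊆ W → W = V) :
    V = degPart F 6 V := by
  refine (hmax _ (isVariety_degPart 6 V) ((strong_of_core (core F)).2.1 V hV h) ?_).symm
  intro A hA f hf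
  exact hf.1 A hA

end Pool.Agent.Lib.MP_b4a71d_al
end
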