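import Pool.Agent.Lib.MP_b4a71d_al.Sym

/-!
# Operators on levels

`tt l` is the substitution `y_l -> [y_l, x]`, `ss l j` the substitution `y_l -> [y_l, y_j]`,
`KE Y d` the space of elements of `WW Y d` killed by all `E j`, `j ∈ Y` (highest weight
vectors), `prK` the projection of `WW Y d` onto `KE Y d` along `Lam Y d`.
-/

set_option autoImplicit false
set_option linter.unusedSectionVars false
set_option linter.unusedVariables false

namespace Pool.Agent.Lib.MP_b4a71d_al

universe u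

noncomputable section

open Polynomial

variable {F : Type u} [Field F]

/-- The substitution `y_l -> [y_l, x]`. -/
def tt (l : ℕ) : FL F →ₗ⁅F⁆ FL F := sb (fun i => if i = l then ⁅X F l, X F 0⁆ else X F i)

/-- The substitution `y_l -> [y_l, y_j]`. -/
def ss (l j : ℕ) : FL F →ₗ⁅F⁆ FL F := sb (fun i => if i = l then ⁅X F l, X F j⁆ else X F i)

/-- The elements of `WW Y d` killed by all `E j`. -/
def KE (Y : Finset ℕ) (d : ℕ) : Submodule F (FL F) :=
  WW Y d ⊓ ⨅ j ∈ Y, LinearMap.ker (E (F := F) j)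

theorem mem_KE {Y : Finset ℕ} {d : ℕ} {f : FL F} :
    f ∈ KE Y d ↔ f ∈ WW Y d ∧ ∀ j ∈ Y, E j f = 0 := by
  rw [KE, Submodule.mem_inf]
  simp

theorem KE_le (Y : Finset ℕ) (d : ℕ) : KE (F := F) Y d ≤ WW Y d := inf_le_left

/-- The level `(k, d)` is zero modulo `T`. -/
def LZ (T : Submodule F (FL F)) (k d : ℕ) : Prop := KE (Finset.Icc 1 k) d ≤ T

/-! ### General lemmas on substitutions and derivations -/

theorem hom_mem {s : Multiset ℕ} {f : FL F} (hf : f ∈ HomC s) (φ : FL F →ₗ⁅F⁆ FL F)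
    (t : ℕ → Multiset ℕ) (h : ∀ i ∈ s, φ (X F i) ∈ HomC (F := F) (t i)) :
    φ f ∈ HomC (F := F) (s.bind t) := by
  revert h
  refine homC_induction (p := fun s f => (∀ i ∈ s, φ (X F i) ∈ HomC (F := F) (t i)) →
    φ f ∈ HomC (F := F) (s.bind t)) ?_ ?_ ?_ ?_ ?_ hf
  · intro i h
    rw [Multiset.singleton_bind]
    exact h i (Multiset.mem_singleton_self i)
  · intro s u f g _ _ h1 h2 h
    rw [LieHom.map_lie, Multiset.add_bind]
    exact lie_mem_homC (h1 (fun i hi => h i (Multiset.mem_add.2 (Or.inl hi))))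
      (h2 (fun i hi => h i (Multiset.mem_add.2 (Or.inr hi))))
  · intro s _
    rw [map_zero]
    exact Submodule.zero_mem _
  · intro s f g _ _ h1 h2 h
    rw [map_add]
    exact Submodule.add_mem _ (h1 h) (h2 h)
  · intro s c f _ h1 h
    rw [map_smul]
    exact Submodule.smul_mem _ c (h1 h)

theorem bind_if (s u : Multiset ℕ) (l : ℕ) :
    s.bind (fun i => if i = l then {i} + u else {i}) = s + s.count l • u := by
  induction s using Multiset.induction_on with
  | empty => simp
  | cons a s ih =>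
    rw [Multiset.cons_bind, ih]
    by_cases h : a = l
    · subst h
      rw [if_pos rfl, Multiset.count_cons_self, add_smul, one_smul, ← Multiset.singleton_add]
      abel
    · rw [if_neg h, Multiset.count_cons_of_ne (fun h2 => h h2.symm), ← Multiset.singleton_add,
        add_assoc]

theorem der_hom (φ : FL F →ₗ⁅F⁆ FL F) (w w' : ℕ → FL F)
    (h : ∀ i, der w (φ (X F i)) = φ (w' i)) (f : FL F) : der w (φ f) = φ (der w' f) := by
  refine fl_induction (p := fun f => der w (φ f) = φ (der w' f)) ?_ ?_ f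
  · intro s f hf
    refine homC_induction (p := fun _ f => der w (φ f) = φ (der w' f)) ?_ ?_ ?_ ?_ ?_ hf
    · intro i
      rw [der_X]
      exact h i
    · intro s t f g _ _ h1 h2
      rw [LieHom.map_lie, der_lie, der_lie, map_add, LieHom.map_lie, LieHom.map_lie, h1, h2]
    · intro s
      rw [map_zero, map_zero, map_zero, map_zero]
    · intro s f g _ _ h1 h2
      rw [map_add, map_add, map_add, map_add, h1, h2]
    · intro s c f _ h1
      rw [map_smul, map_smul, map_smul, map_smul, h1]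
  · intro f g h1 h2
    rw [map_add, map_add, map_add, map_add, h1, h2]

theorem der_congr {s : Multiset ℕ} {f : FL F} (hf : f ∈ HomC s) (w w' : ℕ → FL F)
    (h : ∀ i ∈ s, w i = w' i) : der w f = der w' f := by
  revert h
  refine homC_induction (p := fun s f => (∀ i ∈ s, w i = w' i) → der w f = der w' f)
    ?_ ?_ ?_ ?_ ?_ hf
  · intro i h
    rw [der_X, der_X]
    exact h i (Multiset.mem_singleton_self i)
  · intro s u f g _ _ h1 h2 h
    rw [der_lie, der_lie, h1 (fun i hi => h i (Multiset.mem_add.2 (Or.inl hi))),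
      h2 (fun i hi => h i (Multiset.mem_add.2 (Or.inr hi)))]
  · intro s _
    rw [map_zero, map_zero]
  · intro s f g _ _ h1 h2 h
    rw [map_add, map_add, h1 h, h2 h]
  · intro s c f _ h1 h
    rw [map_smul, map_smul, h1 h]

/-- Two additive maps which are derivations and agree on the variables are equal. -/
theorem eq_of_leibniz (δ δ' : FL F →ₗ[F] FL F) (hX : ∀ i, δ (X F i) = δ' (X F i))
    (h : ∀ f g, δ ⁅f, g⁆ = ⁅f, δ g⁆ + ⁅δ f, g⁆) (h' : ∀ f g, δ' ⁅f, g⁆ = ⁅f, δ' g⁆ + ⁅δ' f, g⁆)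
    (f : FL F) : δ f = δ' f := by
  refine fl_induction (p := fun f => δ f = δ' f) ?_ ?_ f
  · intro s f hf
    refine homC_induction (p := fun _ f => δ f = δ' f) ?_ ?_ ?_ ?_ ?_ hf
    · exact hX
    · intro s t f g _ _ h1 h2
      rw [h, h', h1, h2]
    · intro s
      rw [map_zero, map_zero]
    · intro s f g _ _ h1 h2
      rw [map_add, map_add, h1, h2]
    · intro s c f _ h1
      rw [map_smul, map_smul, h1]
  · intro f g h1 h2
    rw [map_add, map_add, h1, h2]

theorem der_sum {ι : Type*} (S : Finset ι) (w : ι → ℕ → FL F) (f : FL F) :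
    ∑ l ∈ S, der (w l) f = der (fun i => ∑ l ∈ S, w l i) f := by
  have := eq_of_leibniz (∑ l ∈ S, der (w l)) (der (fun i => ∑ l ∈ S, w l i)) (by
    intro i
    rw [LinearMap.sum_apply, der_X]
    apply Finset.sum_congr rfl
    intro l _
    rw [der_X]) (by
    intro f g
    simp only [LinearMap.sum_apply, der_lie]
    rw [Finset.sum_add_distrib, lie_sum, sum_lie]) (fun f g => der_lie _ f g) f
  rw [← this, LinearMap.sum_apply]

theorem der_eq_sb {s : Multiset ℕ} {f : FL F} (hf : f ∈ HomC s) {l : ℕ} (hl : s.count l = 1)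
    (v : FL F) : der (fun i => if i = l then v else 0) f =
      sb (fun i => if i = l then v else X F i) f := by
  have hfix : ∀ {s : Multiset ℕ} {f : FL F}, f ∈ HomC s → l ∉ s →
      sb (fun i => if i = l then v else X F i) f = f ∧
        der (fun i => if i = l then v else 0) f = 0 := by
    intro s f hf h
    constructor
    · conv_rhs => rw [← LieHom.id_apply (R := F) f]
      apply hom_congr hf
      intro i hi
      rw [sb_X, LieHom.id_apply, if_neg]
      rintro rfl
      exact h hi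
    · rw [der_congr hf _ (fun _ => 0)]
      · have := eq_of_leibniz (der (fun _ => (0 : FL F))) 0 (fun i => by rw [der_X]; rfl)
          (fun f g => der_lie _ f g) (fun f g => by simp) f
        rw [this]
        rfl
      · intro i hi
        rw [if_neg]
        rintro rfl
        exact h hi
  revert hl
  refine homC_induction (p := fun s f => s.count l = 1 →
    der (fun i => if i = l then v else 0) f = sb (fun i => if i = l then v else X F i) f)
    ?_ ?_ ?_ ?_ ?_ hf
  · intro i hi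
    have : i = l := by
      by_contra h
      rw [Multiset.count_singleton, if_neg (fun h2 => h h2.symm)] at hi
      exact absurd hi (by norm_num)
    subst this
    rw [der_X, sb_X, if_pos rfl, if_pos rfl]
  · intro s t f g hf hg h1 h2 h
    rw [Multiset.count_add] at h
    rcases Nat.eq_zero_or_pos (t.count l) with ht | ht
    · have hlt : l ∉ t := Multiset.count_eq_zero.1 ht
      rw [der_lie, LieHom.map_lie, (hfix hg hlt).1, (hfix hg hlt).2, h1 (by omega), lie_zero,
        zero_add]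
    · have hls : l ∉ s := Multiset.count_eq_zero.1 (by omega)
      rw [der_lie, LieHom.map_lie, (hfix hf hls).1, (hfix hf hls).2, h2 (by omega), zero_lie,
        add_zero]
  · intro s _
    rw [map_zero, map_zero]
  · intro s f g _ _ h1 h2 h
    rw [map_add, map_add, h1 h, h2 h]
  · intro s c f _ h1 h
    rw [map_smul, map_smul, h1 h]

theorem sb_if_add {s : Multiset ℕ} {f : FL F} (hf : f ∈ HomC s) {l : ℕ} (hl : s.count l = 1)
    (v v' : FL F) : sb (fun i => if i = l then v + v' else X F i) f =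
      sb (fun i => if i = l then v else X F i) f + sb (fun i => if i = l then v' else X F i) f := by
  have h : ∀ v : FL F, (fun i => if i = l then v else X F i) = Function.update (X F) l v := by
    intro v
    funext i
    by_cases hi : i = l
    · subst hi
      rw [if_pos rfl, Function.update_self]
    · rw [if_neg hi, Function.update_of_ne hi]
  rw [h, h, h]
  exact sb_add hf _ hl v v'

theorem sb_if_smul {s : Multiset ℕ} {f : FL F} (hf : f ∈ HomC s) {l : ℕ} (hl : s.count l = 1)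
    (c : F) (v : FL F) : sb (fun i => if i = l then c • v else X F i) f =
      c • sb (fun i => if i = l then v else X F i) f := by
  have h : ∀ v : FL F, (fun i => if i = l then v else X F i) = Function.update (X F) l v := by
    intro v
    funext i
    by_cases hi : i = l
    · subst hi
      rw [if_pos rfl, Function.update_self]
    · rw [if_neg hi, Function.update_of_ne hi]
  rw [h, h]
  exact sb_smul hf _ hl c v

theorem cont_add_zero (Y : Finset ℕ) (d : ℕ) : cont Y d + {0} = cont Y (d + 1) := by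
  rw [cont, cont, Multiset.replicate_succ, ← Multiset.singleton_add]
  abel

theorem cont_add_new {Y : Finset ℕ} {j : ℕ} (hj : j ∉ Y) (d : ℕ) :
    cont Y d + {j} = cont (insert j Y) d := by
  rw [cont, cont, Finset.insert_val_of_notMem hj, ← Multiset.singleton_add]
  abel

theorem zero_notMem_Icc (k : ℕ) : 0 ∉ Finset.Icc 1 k := by simp

theorem notMem_cont {Y : Finset ℕ} {j d : ℕ} (hj : j ∉ Y) (hj0 : j ≠ 0) : j ∉ cont Y d := by
  intro h
  rcases mem_cont h with h | h
  · exact hj0 h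
  · exact hj h

/-! ### The substitutions -/

theorem tt_X_same (l : ℕ) : tt (F := F) l (X F l) = ⁅X F l, X F 0⁆ := by
  rw [tt, sb_X, if_pos rfl]

theorem tt_X_ne {l i : ℕ} (h : i ≠ l) : tt (F := F) l (X F i) = X F i := by
  rw [tt, sb_X, if_neg h]

theorem ss_X_same (l j : ℕ) : ss (F := F) l j (X F l) = ⁅X F l, X F j⁆ := by
  rw [ss, sb_X, if_pos rfl]

theorem ss_X_ne {l j i : ℕ} (h : i ≠ l) : ss (F := F) l j (X F i) = X F i := by
  rw [ss, sb_X, if_neg h]

theorem tt_mem {Y : Finset ℕ} {l d : ℕ} (hl : l ∈ Y) (h0 : 0 ∉ Y) {f : FL F}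
    (hf : f ∈ WW Y d) : tt l f ∈ WW Y (d + 1) := by
  have h1 := hom_mem hf (tt l) (fun i => if i = l then {i} + {0} else {i}) (by
    intro i _
    by_cases h : i = l
    · subst h
      rw [tt_X_same, if_pos rfl]
      exact lie_mem_homC (X_mem i) (X_mem 0)
    · rw [tt_X_ne h, if_neg h]
      exact X_mem i)
  rw [bind_if, count_cont hl h0, one_smul, cont_add_zero] at h1
  exact h1

theorem ss_mem {Y : Finset ℕ} {l j d : ℕ} (hl : l ∈ Y) (h0 : 0 ∉ Y) (hj : j ∉ Y) (hj0 : j ≠ 0)
    {f : FL F} (hf : f ∈ WW Y d) : ss l j f ∈ WW (insert j Y) d := by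
  have h1 := hom_mem hf (ss l j) (fun i => if i = l then {i} + {j} else {i}) (by
    intro i _
    by_cases h : i = l
    · subst h
      rw [ss_X_same, if_pos rfl]
      exact lie_mem_homC (X_mem i) (X_mem j)
    · rw [ss_X_ne h, if_neg h]
      exact X_mem i)
  rw [bind_if, count_cont hl h0, one_smul, cont_add_new hj] at h1
  exact h1

/-- Equality of homomorphisms from equality on the variables. -/
theorem hom_eq (φ ψ : FL F →ₗ⁅F⁆ FL F) (h : ∀ i, φ (X F i) = ψ (X F i)) (f : FL F) :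
    φ f = ψ f := by
  have : φ = ψ := by
    apply FreeLieAlgebra.hom_ext
    exact h
  rw [this]

theorem tt_comm {l m : ℕ} (hl : l ≠ 0) (hm : m ≠ 0) (f : FL F) :
    tt l (tt m f) = tt m (tt l f) := by
  apply hom_eq ((tt l).comp (tt m)) ((tt m).comp (tt l))
  intro i
  rw [LieHom.comp_apply, LieHom.comp_apply]
  by_cases hlm : l = m
  · rw [hlm]
  · by_cases hil : i = l
    · subst hil
      rw [tt_X_ne hlm, tt_X_same, LieHom.map_lie, tt_X_ne hlm, tt_X_ne (Ne.symm hm)]
    · by_cases him : i = m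
      · subst him
        rw [tt_X_same, LieHom.map_lie, tt_X_ne hil, tt_X_ne (Ne.symm hl), tt_X_same]
      · rw [tt_X_ne him, tt_X_ne hil, tt_X_ne him]

/-- `S_{lj} t_m = t_m S_{lj}` for `m ≠ l, j`. -/
theorem ss_tt_comm {l j m : ℕ} (hm0 : m ≠ 0) (hl0 : l ≠ 0) (hml : m ≠ l) (hmj : m ≠ j)
    (f : FL F) : ss l j (tt m f) = tt m (ss l j f) := by
  apply hom_eq ((ss l j).comp (tt m)) ((tt m).comp (ss l j))
  intro i
  rw [LieHom.comp_apply, LieHom.comp_apply]
  by_cases hil : i = l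
  · subst hil
    rw [tt_X_ne (Ne.symm hml), ss_X_same, LieHom.map_lie, tt_X_ne (Ne.symm hml),
      tt_X_ne (Ne.symm hmj)]
  · by_cases him : i = m
    · subst him
      rw [tt_X_same, LieHom.map_lie, ss_X_ne hil, ss_X_ne (Ne.symm hl0), tt_X_same]
    · rw [tt_X_ne him, ss_X_ne hil, tt_X_ne him]

/-- `S_{lj} t_l = (t_l + t_j) S_{lj}` on elements linear in `y_l` and without `y_j`. -/
theorem ss_tt_same {Y : Finset ℕ} {l j d : ℕ} (hl : l ∈ Y) (h0 : 0 ∉ Y) (hj : j ∉ Y)
    (hj0 : j ≠ 0) {f : FL F} (hf : f ∈ WW Y d) :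
    ss l j (tt l f) = tt l (ss l j f) + tt j (ss l j f) := by
  have hl0 : l ≠ 0 := by
    rintro rfl
    exact h0 hl
  have hjl : j ≠ l := by
    rintro rfl
    exact hj hl
  have hjc := notMem_cont (d := d) hj hj0
  have key : ∀ (φ ψ : FL F →ₗ⁅F⁆ FL F) (v : FL F), ψ (φ (X F l)) = v →
      (∀ i ∈ cont Y d, i ≠ l → ψ (φ (X F i)) = X F i) →
      ψ (φ f) = sb (fun i => if i = l then v else X F i) f := by
    intro φ ψ v h1 h2
    change (ψ.comp φ) f = _
    apply hom_congr hf
    intro i hi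
    rw [LieHom.comp_apply, sb_X]
    by_cases h : i = l
    · subst h
      rw [if_pos rfl, h1]
    · rw [if_neg h, h2 i hi h]
  rw [key (tt l) (ss l j) ⁅⁅X F l, X F j⁆, X F 0⁆, key (ss l j) (tt l) ⁅⁅X F l, X F 0⁆, X F j⁆,
    key (ss l j) (tt j) ⁅X F l, ⁅X F j, X F 0⁆⁆, ← sb_if_add hf (count_cont hl h0 d)]
  · apply sb_congr hf
    intro i _
    by_cases h : i = l
    · rw [if_pos h, if_pos h, leibniz_lie (X F l) (X F j) (X F 0),
        ← lie_skew (X F j) ⁅X F l, X F 0⁆]
      abel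
    · rw [if_neg h, if_neg h]
  · rw [ss_X_same, LieHom.map_lie, tt_X_ne (Ne.symm hjl), tt_X_same]
  · intro i hi h
    rw [ss_X_ne h, tt_X_ne]
    rintro rfl
    exact hjc hi
  · rw [ss_X_same, LieHom.map_lie, tt_X_ne hjl, tt_X_same]
  · intro i hi h
    rw [ss_X_ne h, tt_X_ne h]
  · rw [tt_X_same, LieHom.map_lie, ss_X_same, ss_X_ne (Ne.symm hl0)]
  · intro i hi h
    rw [tt_X_ne h, ss_X_ne h]

theorem E_tt_ne {l j : ℕ} (hl0 : l ≠ 0) (hj0 : j ≠ 0) (h : j ≠ l) (f : FL F) :
    E j (tt l f) = tt l (E j f) := by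
  apply der_hom (tt l)
  intro i
  change dd j 0 (tt l (X F i)) = _
  by_cases hil : i = l
  · subst hil
    rw [tt_X_same, dd_lie, dd_X_ne (Ne.symm h), dd_X_ne (Ne.symm hj0), lie_zero, zero_lie,
      add_zero, if_neg (Ne.symm h), map_zero]
  · rw [tt_X_ne hil]
    by_cases hij : i = j
    · subst hij
      rw [dd_X_same, if_pos rfl, tt_X_ne (Ne.symm hl0)]
    · rw [dd_X_ne hij, if_neg hij, map_zero]

theorem E_tt_same {j : ℕ} (hj0 : j ≠ 0) (f : FL F) : E j (tt j f) = 0 := by
  have h := der_hom (tt j) (fun i => if i = j then X F 0 else 0) (fun _ => 0) (by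
    intro i
    change dd j 0 (tt j (X F i)) = _
    by_cases hij : i = j
    · subst hij
      rw [tt_X_same, dd_lie, dd_X_same, dd_X_ne (Ne.symm hj0), lie_zero, lie_self,
        add_zero, map_zero]
    · rw [tt_X_ne hij, dd_X_ne hij, map_zero]) f
  have h2 := eq_of_leibniz (der (fun _ => (0 : FL F))) 0 (fun i => by rw [der_X]; rfl)
    (fun f g => der_lie _ f g) (fun f g => by simp) f
  rw [h2] at h
  rw [LinearMap.zero_apply, map_zero] at h
  exact h

theorem E_ss_new {Y : Finset ℕ} {l j d : ℕ} (hl : l ∈ Y) (h0 : 0 ∉ Y) (hj : j ∉ Y)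
    (hj0 : j ≠ 0) {f : FL F} (hf : f ∈ WW Y d) : E j (ss l j f) = tt l f := by
  have hl0 : l ≠ 0 := by
    rintro rfl
    exact h0 hl
  have hjl : j ≠ l := by
    rintro rfl
    exact hj hl
  have hjc := notMem_cont (d := d) hj hj0
  have h0' : 0 ∉ insert j Y := by
    rw [Finset.mem_insert, not_or]
    exact ⟨Ne.symm hj0, h0⟩
  rw [E, dd_eq_ren 0 (ss_mem hl h0 hj hj0 hf) (count_cont (Finset.mem_insert_self j Y) h0' d)]
  change ((ren (mrg j 0)).comp (ss l j)) f = _
  apply hom_congr hf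
  intro i hi
  rw [LieHom.comp_apply]
  by_cases h : i = l
  · subst h
    rw [ss_X_same, LieHom.map_lie, ren_X, ren_X, mrg_same, mrg_ne (Ne.symm hjl), tt_X_same]
  · rw [ss_X_ne h, ren_X, tt_X_ne h, mrg_ne]
    rintro rfl
    exact hjc hi

theorem E_ss_old {Y : Finset ℕ} {l j d : ℕ} (hl : l ∈ Y) (h0 : 0 ∉ Y) (hj : j ∉ Y)
    (hj0 : j ≠ 0) {f : FL F} (hf : f ∈ WW Y d) :
    E l (ss l j f) = - tt j (ren (Equiv.swap l j) f) := by
  have hl0 : l ≠ 0 := by
    rintro rfl
    exact h0 hl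
  have hjl : j ≠ l := by
    rintro rfl
    exact hj hl
  have hjc := notMem_cont (d := d) hj hj0
  have h0' : 0 ∉ insert j Y := by
    rw [Finset.mem_insert, not_or]
    exact ⟨Ne.symm hj0, h0⟩
  have h1 : E l (ss l j f) = sb (fun i => if i = l then (-1 : F) • ⁅X F j, X F 0⁆ else X F i) f := by
    rw [E, dd_eq_ren 0 (ss_mem hl h0 hj hj0 hf) (count_cont (Finset.mem_insert_of_mem hl) h0' d)]
    change ((ren (mrg l 0)).comp (ss l j)) f = _
    apply hom_congr hf
    intro i hi
    rw [LieHom.comp_apply, sb_X]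
    by_cases h : i = l
    · subst h
      rw [ss_X_same, LieHom.map_lie, ren_X, ren_X, mrg_same, mrg_ne hjl, if_pos rfl, neg_smul,
        one_smul, lie_skew]
    · rw [ss_X_ne h, ren_X, if_neg h, mrg_ne h]
  have h2 : tt j (ren (Equiv.swap l j) f) =
      sb (fun i => if i = l then ⁅X F j, X F 0⁆ else X F i) f := by
    change ((tt j).comp (ren (Equiv.swap l j))) f = _
    apply hom_congr hf
    intro i hi
    rw [LieHom.comp_apply, sb_X, ren_X]
    by_cases h : i = l
    · subst h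
      rw [Equiv.swap_apply_left, tt_X_same, if_pos rfl]
    · have hij : i ≠ j := by
        rintro rfl
        exact hjc hi
      rw [Equiv.swap_apply_of_ne_of_ne h hij, tt_X_ne hij, if_neg h]
  rw [h1, h2, sb_if_smul hf (count_cont hl h0 d), neg_smul, one_smul]

theorem E_ss_other {l j i : ℕ} (hi0 : i ≠ 0) (hil : i ≠ l) (hij : i ≠ j) (hl0 : l ≠ 0)
    (f : FL F) : E i (ss l j f) = ss l j (E i f) := by
  apply der_hom (ss l j)
  intro m
  change dd i 0 (ss l j (X F m)) = _
  by_cases hml : m = l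
  · subst hml
    rw [ss_X_same, dd_lie, dd_X_ne (Ne.symm hil), dd_X_ne (Ne.symm hij), lie_zero, zero_lie,
      add_zero, if_neg (Ne.symm hil), map_zero]
  · rw [ss_X_ne hml]
    by_cases hmi : m = i
    · subst hmi
      rw [dd_X_same, if_pos rfl, ss_X_ne (Ne.symm hl0)]
    · rw [dd_X_ne hmi, if_neg hmi, map_zero]

/-- `D_j t_l = t_l D_j + S_{lj}` on elements linear in `y_l` and without `y_j`. -/
theorem D_tt {Y : Finset ℕ} {l j d : ℕ} (hl : l ∈ Y) (h0 : 0 ∉ Y) (hj : j ∉ Y)
    (hj0 : j ≠ 0) {f : FL F} (hf : f ∈ WW Y d) :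
    D j (tt l f) = tt l (D j f) + ss l j f := by
  have hl0 : l ≠ 0 := by
    rintro rfl
    exact h0 hl
  have hjl : j ≠ l := by
    rintro rfl
    exact hj hl
  have hX : ∀ i, i ≠ l → D j (tt l (X F i)) = tt l (D j (X F i)) := by
    intro i hi
    rw [tt_X_ne hi]
    by_cases h : i = 0
    · subst h
      rw [D, dd_X_same, tt_X_ne hjl]
    · rw [D, dd_X_ne h, map_zero]
  -- the statement without the letter `l`
  have hno : ∀ {s : Multiset ℕ} {f : FL F}, f ∈ HomC s → l ∉ s →
      D j (tt l f) = tt l (D j f) ∧ tt l f = f ∧ ss l j f = f := by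
    intro s f hf
    refine homC_induction (p := fun s f => l ∉ s →
      D j (tt l f) = tt l (D j f) ∧ tt l f = f ∧ ss l j f = f) ?_ ?_ ?_ ?_ ?_ hf
    · intro i hi
      have hil : i ≠ l := fun h => hi (by rw [h]; exact Multiset.mem_singleton_self l)
      exact ⟨hX i hil, tt_X_ne hil, ss_X_ne hil⟩
    · intro s t f g _ _ h1 h2 h
      rw [Multiset.mem_add, not_or] at h
      obtain ⟨a1, a2, a3⟩ := h1 h.1
      obtain ⟨b1, b2, b3⟩ := h2 h.2
      refine ⟨?_, ?_, ?_⟩
      · rw [LieHom.map_lie, D, dd_lie, dd_lie, map_add, LieHom.map_lie, LieHom.map_lie]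
        rw [D] at a1 b1
        rw [a1, b1]
      · rw [LieHom.map_lie, a2, b2]
      · rw [LieHom.map_lie, a3, b3]
    · intro s _
      simp
    · intro s f g _ _ h1 h2 h
      obtain ⟨a1, a2, a3⟩ := h1 h
      obtain ⟨b1, b2, b3⟩ := h2 h
      refine ⟨?_, ?_, ?_⟩
      · rw [map_add, map_add, map_add, map_add, a1, b1]
      · rw [map_add, a2, b2]
      · rw [map_add, a3, b3]
    · intro s c f _ h1 h
      obtain ⟨a1, a2, a3⟩ := h1 h
      refine ⟨?_, ?_, ?_⟩
      · rw [map_smul, map_smul, map_smul, map_smul, a1]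
      · rw [map_smul, a2]
      · rw [map_smul, a3]
  have hone : ∀ {s : Multiset ℕ} {f : FL F}, f ∈ HomC s → s.count l = 1 →
      D j (tt l f) = tt l (D j f) + ss l j f := by
    intro s f hf
    refine homC_induction (p := fun s f => s.count l = 1 →
      D j (tt l f) = tt l (D j f) + ss l j f) ?_ ?_ ?_ ?_ ?_ hf
    · intro i hi
      have : i = l := by
        by_contra h
        rw [Multiset.count_singleton, if_neg (fun h2 => h h2.symm)] at hi
        exact absurd hi (by norm_num)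
      subst this
      rw [tt_X_same, ss_X_same, D, dd_lie, dd_X_same, dd_X_ne hl0, zero_lie, map_zero, zero_add,
        add_zero]
    · intro s t f g hf hg h1 h2 h
      rw [Multiset.count_add] at h
      rcases Nat.eq_zero_or_pos (t.count l) with ht | ht
      · obtain ⟨b1, b2, b3⟩ := hno hg (Multiset.count_eq_zero.1 ht)
        have a1 := h1 (by omega)
        rw [D] at a1 b1 ⊢
        rw [LieHom.map_lie, dd_lie, dd_lie, map_add, LieHom.map_lie, LieHom.map_lie,
          LieHom.map_lie, a1, b1, b2, b3, add_lie]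
        abel
      · obtain ⟨a1, a2, a3⟩ := hno hf (Multiset.count_eq_zero.1 (by omega))
        have b1 := h2 (by omega)
        rw [D] at a1 b1 ⊢
        rw [LieHom.map_lie, dd_lie, dd_lie, map_add, LieHom.map_lie, LieHom.map_lie,
          LieHom.map_lie, a1, b1, a2, a3, lie_add]
        abel
    · intro s _
      simp
    · intro s f g _ _ h1 h2 h
      rw [map_add, map_add, map_add, map_add, map_add, h1 h, h2 h]
      abel
    · intro s c f _ h1 h
      rw [map_smul, map_smul, map_smul, map_smul, map_smul, h1 h, smul_add]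
  exact hone hf (count_cont hl h0 d)

/-- `D_i S_{lj} = S_{lj} D_i` for `i ≠ l, j`. -/
theorem D_ss {l j i : ℕ} (hi0 : i ≠ 0) (hil : i ≠ l) (hl0 : l ≠ 0) (hj0 : j ≠ 0)
    (f : FL F) : D i (ss l j f) = ss l j (D i f) := by
  apply der_hom (ss l j)
  intro m
  change dd 0 i (ss l j (X F m)) = _
  by_cases hml : m = l
  · subst hml
    rw [ss_X_same, dd_lie, dd_X_ne hl0, dd_X_ne hj0, lie_zero, zero_lie,
      add_zero, if_neg hl0, map_zero]
  · rw [ss_X_ne hml]
    by_cases hmi : m = 0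
    · subst hmi
      rw [dd_X_same, if_pos rfl, ss_X_ne hil]
    · rw [dd_X_ne hmi, if_neg hmi, map_zero]

/-- `[f, x] = ∑ t_l f`. -/
theorem lie_x {Y : Finset ℕ} {d : ℕ} (h0 : 0 ∉ Y) {f : FL F} (hf : f ∈ WW Y d) :
    ⁅f, X F 0⁆ = ∑ l ∈ Y, tt l f := by
  have h1 : ∑ l ∈ Y, tt l f =
      ∑ l ∈ Y, der (fun i => if i = l then ⁅X F l, X F 0⁆ else 0) f := by
    apply Finset.sum_congr rfl
    intro l hl
    rw [der_eq_sb hf (count_cont hl h0 d)]
    rfl
  have h2 : ⁅f, X F 0⁆ = der (fun i => ⁅X F i, X F 0⁆) f := by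
    apply eq_of_leibniz (lieBy (X F 0)) (der (fun i => ⁅X F i, X F 0⁆))
    · intro i
      rw [der_X]
      rfl
    · intro f g
      change ⁅⁅f, g⁆, X F 0⁆ = ⁅f, ⁅g, X F 0⁆⁆ + ⁅⁅f, X F 0⁆, g⁆
      rw [lie_lie, ← lie_skew ⁅f, X F 0⁆ g, sub_eq_add_neg]
    · intro f g
      exact der_lie _ f g
  rw [h1, h2, der_sum]
  apply der_congr hf
  intro i hi
  rcases mem_cont hi with rfl | hi
  · rw [lie_self]
    symm
    apply Finset.sum_eq_zero
    intro l hl
    rw [if_neg]
    rintro rfl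
    exact h0 hl
  · rw [Finset.sum_ite_eq, if_pos hi]

/-- Derivation rule for brackets with `x`. -/
theorem D_lie_x (j : ℕ) (f : FL F) : D j ⁅f, X F 0⁆ = ⁅D j f, X F 0⁆ + ⁅f, X F j⁆ := by
  rw [D, dd_lie, dd_X_same, add_comm]

theorem D_lie_y {i : ℕ} (j : ℕ) (hi : i ≠ 0) (f : FL F) :
    D j ⁅f, X F i⁆ = ⁅D j f, X F i⁆ := by
  rw [D, dd_lie, dd_X_ne hi, lie_zero, zero_add]

theorem E_lie_x {j : ℕ} (hj : j ≠ 0) (f : FL F) : E j ⁅f, X F 0⁆ = ⁅E j f, X F 0⁆ := by
  rw [E, dd_lie, dd_X_ne (Ne.symm hj), lie_zero, zero_add]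

theorem E_lie_y_same (j : ℕ) (f : FL F) :
    E j ⁅f, X F j⁆ = ⁅E j f, X F j⁆ + ⁅f, X F 0⁆ := by
  rw [E, dd_lie, dd_X_same, add_comm]

theorem E_lie_y_ne {i j : ℕ} (h : i ≠ j) (f : FL F) : E j ⁅f, X F i⁆ = ⁅E j f, X F i⁆ := by
  rw [E, dd_lie, dd_X_ne h, lie_zero, zero_add]

/-- `E_j D_j f = d f` on elements of degree `d` in `x` without `y_j`. -/
theorem E_D_same {Y : Finset ℕ} {j d : ℕ} (hj : j ∉ Y) (hj0 : j ≠ 0) (h0 : 0 ∉ Y) {f : FL F}
    (hf : f ∈ WW Y d) : E j (D j f) = (d : F) • f := by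
  have h1 : D j f ∈ HomC (F := F) (j ::ₘ (cont Y d).erase 0) := dd_mem 0 j hf
  have hjc := notMem_cont (d := d) hj hj0
  have h2 : (j ::ₘ (cont Y d).erase 0).count j = 1 := by
    rw [Multiset.count_cons_self, Multiset.count_eq_zero.2]
    exact fun h => hjc (Multiset.mem_of_mem_erase h)
  rw [E, dd_eq_ren 0 h1 h2, D, ren_mrg_dd hf hjc]
  congr 2
  rw [cont, Multiset.count_add, Multiset.count_replicate_self, Multiset.count_eq_zero.2, add_zero]
  exact h0

/-- `E_i D_j f = D_j E_i f - f|_{y_i -> y_j}` for `i ∈ Y`. -/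
theorem E_D_ne {Y : Finset ℕ} {i j d : ℕ} (hi : i ∈ Y) (hj : j ∉ Y) (hj0 : j ≠ 0) (h0 : 0 ∉ Y)
    {f : FL F} (hf : f ∈ WW Y d) :
    E i (D j f) = D j (E i f) - ren (Equiv.swap i j) f := by
  have hi0 : i ≠ 0 := by
    rintro rfl
    exact h0 hi
  have hij : i ≠ j := by
    rintro rfl
    exact hj hi
  have hjc := notMem_cont (d := d) hj hj0
  have h1 : ren (Equiv.swap i j) f = dd i j f := by
    rw [dd_eq_ren j hf (count_cont hi h0 d)]
    apply hom_congr hf
    intro m hm
    rw [ren_X, ren_X]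
    congr 1
    by_cases h : m = i
    · subst h
      rw [Equiv.swap_apply_left, mrg_same]
    · rw [mrg_ne h, Equiv.swap_apply_of_ne_of_ne h]
      rintro rfl
      exact hjc hm
  have h2 : ∀ f : FL F, (E i ∘ₗ D j) f = (D j ∘ₗ E i - dd i j : FL F →ₗ[F] FL F) f := by
    intro f
    refine fl_induction (p := fun f => (E i ∘ₗ D j) f =
      (D j ∘ₗ E i - dd i j : FL F →ₗ[F] FL F) f) ?_ ?_ f
    · intro s f hf
      refine homC_induction (p := fun _ f => (E i ∘ₗ D j) f =
        (D j ∘ₗ E i - dd i j : FL F →ₗ[F] FL F) f) ?_ ?_ ?_ ?_ ?_ hf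
      · intro m
        rw [LinearMap.sub_apply, LinearMap.comp_apply, LinearMap.comp_apply, E, D]
        by_cases hm0 : m = 0
        · subst hm0
          rw [dd_X_same, dd_X_ne (Ne.symm hij), dd_X_ne (Ne.symm hi0), dd_X_ne (Ne.symm hi0),
            map_zero, sub_zero]
        · rw [dd_X_ne hm0, map_zero]
          by_cases hmi : m = i
          · subst hmi
            rw [dd_X_same, dd_X_same, dd_X_same, sub_self]
          · rw [dd_X_ne hmi, dd_X_ne hmi, map_zero, sub_zero]
      · intro s t f g _ _ h3 h4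
        simp only [LinearMap.sub_apply, LinearMap.comp_apply, E, D] at h3 h4 ⊢
        rw [dd_lie, dd_lie, map_add, map_add, dd_lie, dd_lie, dd_lie, dd_lie, dd_lie, h3, h4,
          lie_sub, sub_lie]
        abel
      · intro s
        rw [map_zero, map_zero]
      · intro s f g _ _ h3 h4
        rw [map_add, map_add, h3, h4]
      · intro s c f _ h3
        rw [map_smul, map_smul, h3]
    · intro f g h3 h4
      rw [map_add, map_add, h3, h4]
  have h3 := h2 f
  rw [LinearMap.sub_apply, LinearMap.comp_apply, LinearMap.comp_apply] at h3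
  rw [h3, h1]

theorem ren_tt (σ : Equiv.Perm ℕ) (h0 : σ 0 = 0) (l : ℕ) (f : FL F) :
    ren σ (tt l f) = tt (σ l) (ren σ f) := by
  apply hom_eq ((ren σ).comp (tt l)) ((tt (σ l)).comp (ren σ))
  intro i
  rw [LieHom.comp_apply, LieHom.comp_apply, ren_X]
  by_cases h : i = l
  · subst h
    rw [tt_X_same, tt_X_same, LieHom.map_lie, ren_X, ren_X, h0]
  · rw [tt_X_ne h, tt_X_ne (fun h2 => h (σ.injective h2)), ren_X]

theorem ren_ss (σ : Equiv.Perm ℕ) (l j : ℕ) (f : FL F) :
    ren σ (ss l j f) = ss (σ l) (σ j) (ren σ f) := by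
  apply hom_eq ((ren σ).comp (ss l j)) ((ss (σ l) (σ j)).comp (ren σ))
  intro i
  rw [LieHom.comp_apply, LieHom.comp_apply, ren_X]
  by_cases h : i = l
  · subst h
    rw [ss_X_same, ss_X_same, LieHom.map_lie, ren_X, ren_X]
  · rw [ss_X_ne h, ss_X_ne (fun h2 => h (σ.injective h2)), ren_X]

theorem ren_D (σ : Equiv.Perm ℕ) (h0 : σ 0 = 0) (j : ℕ) (f : FL F) :
    ren σ (D j f) = D (σ j) (ren σ f) := by
  have := ren_der_comm σ 0 j f
  rw [h0] at this
  exact this

theorem ren_E (σ : Equiv.Perm ℕ) (h0 : σ 0 = 0) (j : ℕ) (f : FL F) :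
    ren σ (E j f) = E (σ j) (ren σ f) := by
  have := ren_der_comm σ j 0 f
  rw [h0] at this
  exact this

theorem ren_KE {Y Z : Finset ℕ} (σ : Equiv.Perm ℕ) (h0 : σ 0 = 0) (hσ : Y.image σ = Z) {d : ℕ}
    {f : FL F} (hf : f ∈ KE Y d) : ren σ f ∈ KE Z d := by
  rw [mem_KE] at hf ⊢
  refine ⟨ren_WW σ h0 hσ hf.1, ?_⟩
  intro j hj
  rw [← hσ] at hj
  obtain ⟨i, hi, rfl⟩ := Finset.mem_image.1 hj
  rw [← ren_E σ h0, hf.2 i hi, map_zero]

theorem tt_KE {Y : Finset ℕ} {l d : ℕ} (hl : l ∈ Y) (h0 : 0 ∉ Y) {f : FL F}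
    (hf : f ∈ KE Y d) : tt l f ∈ KE Y (d + 1) := by
  have hl0 : l ≠ 0 := by
    rintro rfl
    exact h0 hl
  rw [mem_KE] at hf ⊢
  refine ⟨tt_mem hl h0 hf.1, ?_⟩
  intro j hj
  have hj0 : j ≠ 0 := by
    rintro rfl
    exact h0 hj
  by_cases h : j = l
  · subst h
    exact E_tt_same hj0 f
  · rw [E_tt_ne hl0 hj0 h, hf.2 j hj, map_zero]

theorem IsTIdeal.tt_mem {T : Submodule F (FL F)} (hT : IsTIdeal F T) (l : ℕ) {f : FL F}
    (hf : f ∈ T) : tt l f ∈ T :=
  hT.map_mem _ _ hf

theorem IsTIdeal.ss_mem {T : Submodule F (FL F)} (hT : IsTIdeal F T) (l j : ℕ) {f : FL F}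
    (hf : f ∈ T) : ss l j f ∈ T :=
  hT.map_mem _ _ hf

theorem IsTIdeal.ren_mem {T : Submodule F (FL F)} (hT : IsTIdeal F T) (g : ℕ → ℕ) {f : FL F}
    (hf : f ∈ T) : ren g f ∈ T :=
  hT.map_mem _ _ hf

theorem ren_mem_cancel {T : Submodule F (FL F)} (hT : IsTIdeal F T) (σ : Equiv.Perm ℕ)
    {f : FL F} (h : ren σ f ∈ T) : f ∈ T := by
  have h2 := hT.map_mem (ren σ.symm) _ h
  rw [ren_ren] at h2
  have h3 : (σ.symm : ℕ → ℕ) ∘ (σ : ℕ → ℕ) = id := by
    funext i
    simp
  rwa [h3, ren_id'] at h2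

/-- Levels in other letters: zero modulo `T`. -/
theorem LZ_of_card {T : Submodule F (FL F)} (hT : IsTIdeal F T) {k d : ℕ} (h : LZ T k d)
    {Y : Finset ℕ} (h0 : 0 ∉ Y) (hY : Y.card = k) : KE Y d ≤ T := by
  intro f hf
  obtain ⟨σ, hσ0, hσ⟩ := exists_perm_image_zero Y (Finset.Icc 1 k)
    (by rw [hY, Nat.card_Icc, Nat.add_sub_cancel]) h0 (zero_notMem_Icc k)
  exact ren_mem_cancel hT σ (h (ren_KE σ hσ0 hσ hf))

/-! ### The projection onto `KE Y d` -/

/-- The projection `WW Y d → KE Y d` along `Lam Y d`; it maps T-ideals to themselves and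
commutes with the permutations of `Y`. -/
theorem exists_prK [CharZero F] (Y : Finset ℕ) (h0 : 0 ∉ Y) (d : ℕ) :
    ∃ p : FL F →ₗ[F] FL F,
      (∀ f ∈ WW Y d, p f ∈ KE Y d) ∧
      (∀ f ∈ WW Y d, f - p f ∈ Lam Y d) ∧
      (∀ f ∈ KE Y d, p f = f) ∧
      (∀ f ∈ Lam Y d, p f = 0) ∧
      (∀ T : Submodule F (FL F), IsTIdeal F T → ∀ f ∈ T, p f ∈ T) ∧
      (∀ σ : Equiv.Perm ℕ, (∀ i, i ∉ Y → σ i = i) → ∀ f, ren σ (p f) = p (ren σ f)) := by
  obtain ⟨q, hq0, hq⟩ := exists_q (F := F) Y (Y.card + d)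
  have hcardW : Multiset.card (cont Y d) = Y.card + d := by
    rw [cont, Multiset.card_add, Multiset.card_replicate, Finset.card_val, add_comm]
  have hOmLam : ∀ g ∈ WW (F := F) Y d, (Om Y : Module.End F (FL F)) g ∈ Lam Y d := by
    intro g hg
    rw [Om, LinearMap.sum_apply]
    apply Submodule.sum_mem
    intro j hj
    rw [Module.End.mul_apply]
    exact (le_iSup₂_of_le (f := fun j (_ : j ∈ Y) => (WW (F := F) (Y.erase j) (d + 1)).map (D j))
      j hj le_rfl) ⟨_, E_mem hj h0 hg, rfl⟩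
  refine ⟨(q.coeff 0)⁻¹ • aeval (Om Y) q, ?_, ?_, ?_, ?_, ?_, ?_⟩
  · intro w hw
    rw [mem_KE]
    constructor
    · rw [LinearMap.smul_apply]
      apply Submodule.smul_mem
      exact aeval_mem_of_stable _ (WW Y d) (fun x hx => Lam_le Y d (hOmLam x hx)) q w hw
    · intro j hj
      rw [LinearMap.smul_apply, map_smul, (hq (cont Y d) hcardW (fun i hi => mem_cont hi) w hw j
        hj).1, smul_zero]
  · intro w hw
    have h3 := aeval_sub_mem (Om Y) (Lam Y d) (fun x hx => hOmLam x (Lam_le Y d hx)) q w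
      (hOmLam w hw)
    have h4 : w - ((q.coeff 0)⁻¹ • aeval (Om Y) q : Module.End F (FL F)) w =
        (-(q.coeff 0)⁻¹) • (aeval (Om Y) q w - q.coeff 0 • w) := by
      rw [LinearMap.smul_apply, neg_smul, smul_sub, smul_smul, inv_mul_cancel₀ hq0, one_smul]
      abel
    rw [h4]
    exact Submodule.smul_mem _ _ h3
  · intro w hw
    rw [mem_KE] at hw
    have hOm : (Om Y : Module.End F (FL F)) w = 0 := by
      rw [Om, LinearMap.sum_apply]
      apply Finset.sum_eq_zero
      intro j hj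
      rw [Module.End.mul_apply, hw.2 j hj, map_zero]
    have h1 := aeval_sub_mem (Om Y) (⊥ : Submodule F (FL F)) (fun x hx => by
      rw [Submodule.mem_bot] at hx ⊢
      rw [hx, map_zero]) q w (by rw [hOm]; exact Submodule.zero_mem _)
    rw [Submodule.mem_bot, sub_eq_zero] at h1
    rw [LinearMap.smul_apply, h1, smul_smul, inv_mul_cancel₀ hq0, one_smul]
  · intro w hw
    rw [LinearMap.smul_apply, aeval_Lam rfl hq hw, smul_zero]
  · intro T hT w hw
    rw [LinearMap.smul_apply]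
    exact Submodule.smul_mem _ _ (aeval_mem_of_stable _ T (hT.Om_mem Y) q w hw)
  · intro σ hσ f
    have hσ0 : σ 0 = 0 := hσ 0 h0
    have hY := image_eq_of_fix σ hσ
    have hOm : ∀ f : FL F, ren σ ((Om Y : Module.End F (FL F)) f) =
        (Om Y : Module.End F (FL F)) (ren σ f) := by
      intro f
      rw [Om, LinearMap.sum_apply, LinearMap.sum_apply, map_sum]
      apply Finset.sum_bij (fun j _ => σ j)
      · intro j hj
        rw [← hY]
        exact Finset.mem_image_of_mem _ hj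
      · intro a _ b _ h
        exact σ.injective h
      · intro j hj
        rw [← hY] at hj
        obtain ⟨i, hi, rfl⟩ := Finset.mem_image.1 hj
        exact ⟨i, hi, rfl⟩
      · intro j _
        rw [Module.End.mul_apply, Module.End.mul_apply, ren_D σ hσ0, ren_E σ hσ0]
    rw [LinearMap.smul_apply, LinearMap.smul_apply, map_smul]
    congr 1
    clear hq hq0
    induction q using Polynomial.induction_on' generalizing f with
    | add p q hp hq =>
      rw [map_add, LinearMap.add_apply, LinearMap.add_apply, map_add, hp, hq]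
    | monomial r a =>
      rw [Polynomial.aeval_monomial, ← Algebra.smul_def, LinearMap.smul_apply,
        LinearMap.smul_apply, map_smul]
      congr 1
      induction r generalizing f with
      | zero => rfl
      | succ r ih =>
        rw [pow_succ', Module.End.mul_apply, Module.End.mul_apply, hOm, ih]

theorem mem_T_of_KE [CharZero F] {T : Submodule F (FL F)} (hT : IsTIdeal F T) {Y : Finset ℕ}
    (h0 : 0 ∉ Y) {d : ℕ} {f : FL F} (hf : f ∈ KE Y d) (h : f ∈ Lam Y d ⊔ (T ⊓ WW Y d)) :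
    f ∈ T := by
  obtain ⟨p, _, _, h3, h4, h5, _⟩ := exists_prK (F := F) Y h0 d
  obtain ⟨a, ha, b, hb, hab⟩ := Submodule.mem_sup.1 h
  have h6 : p f = p b := by rw [← hab, map_add, h4 a ha, zero_add]
  rw [← h3 f hf, h6]
  exact h5 T hT b hb.1

/-- If all `E_j u ∈ T` then `u ∈ KE + T`. -/
theorem exists_KE_of_E [CharZero F] {T : Submodule F (FL F)} (hT : IsTIdeal F T) {Y : Finset ℕ}
    (h0 : 0 ∉ Y) {d : ℕ} {u : FL F} (hu : u ∈ WW Y d) (h : ∀ j ∈ Y, E j u ∈ T) :
    ∃ κ ∈ KE Y d, u - κ ∈ T := by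
  obtain ⟨q, hq0, hq⟩ := exists_q (F := F) Y (Y.card + d)
  have hcardW : Multiset.card (cont Y d) = Y.card + d := by
    rw [cont, Multiset.card_add, Multiset.card_replicate, Finset.card_val, add_comm]
  refine ⟨((q.coeff 0)⁻¹ • aeval (Om Y) q : Module.End F (FL F)) u, ?_, ?_⟩
  · rw [mem_KE]
    constructor
    · rw [LinearMap.smul_apply]
      apply Submodule.smul_mem
      refine aeval_mem_of_stable _ (WW Y d) (fun x hx => ?_) q u hu
      rw [Om, LinearMap.sum_apply]
      apply Submodule.sum_mem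
      intro j hj
      rw [Module.End.mul_apply]
      exact Lam_le Y d ((le_iSup₂_of_le
        (f := fun j (_ : j ∈ Y) => (WW (F := F) (Y.erase j) (d + 1)).map (D j))
        j hj le_rfl) ⟨_, E_mem hj h0 hx, rfl⟩)
    · intro j hj
      rw [LinearMap.smul_apply, map_smul, (hq (cont Y d) hcardW (fun i hi => mem_cont hi) u hu j
        hj).1, smul_zero]
  · have hOm : (Om Y : Module.End F (FL F)) u ∈ T := by
      rw [Om, LinearMap.sum_apply]
      apply Submodule.sum_mem
      intro j hj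
      rw [Module.End.mul_apply]
      exact hT.dd_mem _ _ (h j hj)
    have h3 := aeval_sub_mem (Om Y) T (hT.Om_mem Y) q u hOm
    have h4 : u - ((q.coeff 0)⁻¹ • aeval (Om Y) q : Module.End F (FL F)) u =
        (-(q.coeff 0)⁻¹) • (aeval (Om Y) q u - q.coeff 0 • u) := by
      rw [LinearMap.smul_apply, neg_smul, smul_sub, smul_smul, inv_mul_cancel₀ hq0, one_smul]
      abel
    rw [h4]
    exact Submodule.smul_mem _ _ h3

/-- A zero level is good. -/
theorem levelGood_of_LZ [CharZero F] {T : Submodule F (FL F)} (hT : IsTIdeal F T) {k d : ℕ}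
    (h : LZ T k d) : LevelGood T k d := by
  obtain ⟨p, h1, h2, _, _, _, _⟩ := exists_prK (F := F) (Finset.Icc 1 k) (zero_notMem_Icc k) d
  have hall : ∀ {U : Submodule F (FL F)}, LevU T k d U → W k d ≤ U := by
    intro U hU w hw
    have h3 : w = (w - p w) + p w := by abel
    rw [h3]
    exact U.add_mem (hU.lam_le (h2 w hw))
      (hU.T_le ⟨h (h1 w hw), KE_le _ _ (h1 w hw)⟩)
  rintro U1 U2 U3 hU1 hU2 hU3 f ⟨hf, _⟩
  exact Submodule.mem_sup_left ⟨hf, hall hU2 (hU1.le_W hf)⟩

/-! ### Box adding -/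

/-- `WW Y (d + 1)` is spanned by brackets `[g, x]` and `[g, y_j]`. -/
theorem WW_box {Y : Finset ℕ} (h0 : 0 ∉ Y) {d : ℕ} (hY : 2 ≤ Y.card + (d + 1)) {f : FL F}
    (hf : f ∈ WW Y (d + 1)) :
    f ∈ (WW Y d).map (lieBy (X F 0)) ⊔ ⨆ j ∈ Y, (WW (Y.erase j) (d + 1)).map (lieBy (X F j)) := by
  have h00 : (0 : ℕ) ∈ cont Y (d + 1) := by
    rw [cont, Multiset.mem_add]
    left
    rw [Multiset.mem_replicate]
    exact ⟨by omega, rfl⟩
  rw [WW, homC_eq_nSpan h00, NSpan] at hf
  induction hf using Submodule.span_induction with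
  | mem f h =>
    obtain ⟨l, hl, rfl⟩ := h
    have hlen : l.length = Y.card + d := by
      have := congrArg Multiset.card hl
      rw [Multiset.card_cons, Multiset.coe_card, cont, Multiset.card_add,
        Multiset.card_replicate, Finset.card_val] at this
      omega
    obtain ⟨l', m, rfl⟩ : ∃ l' m, l = l' ++ [m] := by
      rcases List.eq_nil_or_concat l with h | ⟨l', i, h⟩
      · rw [h, List.length_nil] at hlen
        omega
      · exact ⟨l', i, by rw [h, List.concat_eq_append]⟩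
    rw [lnm_concat]
    have hm : m ∈ cont Y (d + 1) := by
      rw [← hl]
      simp
    have hmem : lnm (X F 0) l' ∈ HomC (F := F) ((cont Y (d + 1)).erase m) := by
      have h1 := lnm_mem (X_mem (F := F) 0) l'
      have h2 : (cont Y (d + 1)).erase m = {0} + (l' : Multiset ℕ) := by
        rw [← hl, ← Multiset.coe_add]
        have h3 : (0 ::ₘ ((l' : Multiset ℕ) + (([m] : List ℕ) : Multiset ℕ))) =
            m ::ₘ ({0} + (l' : Multiset ℕ)) := by
          rw [← Multiset.singleton_add, ← Multiset.singleton_add]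
          have h4 : (([m] : List ℕ) : Multiset ℕ) = {m} := rfl
          rw [h4]
          abel
        rw [h3, Multiset.erase_cons_head]
      rw [h2]
      exact h1
    rcases mem_cont hm with rfl | hmY
    · apply Submodule.mem_sup_left
      refine ⟨lnm (X F 0) l', ?_, rfl⟩
      rw [cont, Multiset.replicate_succ, Multiset.cons_add, Multiset.erase_cons_head] at hmem
      exact hmem
    · apply Submodule.mem_sup_right
      refine (le_iSup₂_of_le (f := fun j (_ : j ∈ Y) =>
        (WW (F := F) (Y.erase j) (d + 1)).map (lieBy (X F j))) m hmY le_rfl) ?_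
      refine ⟨lnm (X F 0) l', ?_, rfl⟩
      have h5 : (cont Y (d + 1)).erase m = cont (Y.erase m) (d + 1) := by
        rw [cont, cont, Multiset.erase_add_right_neg, Finset.erase_val]
        intro h6
        have h7 := Multiset.eq_of_mem_replicate h6
        rw [h7] at hmY
        exact h0 hmY
      rw [h5] at hmem
      exact hmem
  | zero => exact Submodule.zero_mem _
  | add a b _ _ h1 h2 => exact Submodule.add_mem _ h1 h2
  | smul c a _ h1 => exact Submodule.smul_mem _ c h1

theorem D_mem_Lam {Y : Finset ℕ} {j d : ℕ} (hj : j ∈ Y) {h : FL F}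
    (hh : h ∈ WW (Y.erase j) (d + 1)) : D j h ∈ Lam Y d :=
  (le_iSup₂_of_le (f := fun j (_ : j ∈ Y) => (WW (F := F) (Y.erase j) (d + 1)).map (D j))
    j hj le_rfl) ⟨h, hh, rfl⟩

theorem lie_X_mem_WW {Y : Finset ℕ} {j d : ℕ} (hj : j ∉ Y) {f : FL F} (hf : f ∈ WW Y d) :
    ⁅f, X F j⁆ ∈ WW (insert j Y) d := by
  have := lie_mem_homC hf (X_mem j)
  rw [cont_add_new hj] at this
  exact this

theorem lie_X0_mem_WW {Y : Finset ℕ} {d : ℕ} {f : FL F} (hf : f ∈ WW Y d) :
    ⁅f, X F 0⁆ ∈ WW Y (d + 1) := by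
  have := lie_mem_homC hf (X_mem 0)
  rw [cont_add_zero] at this
  exact this

/-- Propagation lemma: if `(k, d)` is zero then the level `(k, d + 1)` is spanned, modulo
`Lam + T`, by the `[q, y_j]`, `q ∈ KE (Y \ j) (d + 1)`. -/
theorem prop_lemma [CharZero F] {T : Submodule F (FL F)} (hT : IsTIdeal F T) {k d : ℕ}
    (hk : 1 ≤ k) (h : LZ T k d) {f : FL F} (hf : f ∈ W k (d + 1)) :
    f ∈ Lam (Finset.Icc 1 k) (d + 1) ⊔ T ⊔
      ⨆ j ∈ Finset.Icc 1 k, (KE ((Finset.Icc 1 k).erase j) (d + 1)).map (lieBy (X F j)) := by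
  set Y := Finset.Icc 1 k with hY
  have h0 : 0 ∉ Y := zero_notMem_Icc k
  have hYc : Y.card = k := by rw [hY, Nat.card_Icc, Nat.add_sub_cancel]
  set R := Lam (F := F) Y (d + 1) ⊔ T ⊔
    ⨆ j ∈ Y, (KE (F := F) (Y.erase j) (d + 1)).map (lieBy (X F j)) with hR
  have hLamR : Lam (F := F) Y (d + 1) ≤ R := le_trans le_sup_left le_sup_left
  have hTR : T ≤ R := le_trans le_sup_right le_sup_left
  have hKR : ∀ j ∈ Y, ∀ g ∈ KE (F := F) (Y.erase j) (d + 1), ⁅g, X F j⁆ ∈ R := by
    intro j hj g hg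
    apply Submodule.mem_sup_right
    exact (le_iSup₂_of_le (f := fun j (_ : j ∈ Y) =>
      (KE (F := F) (Y.erase j) (d + 1)).map (lieBy (X F j))) j hj le_rfl) ⟨g, hg, rfl⟩
  -- brackets with `y_j`
  have hy : ∀ j ∈ Y, ∀ g ∈ WW (F := F) (Y.erase j) (d + 1), ⁅g, X F j⁆ ∈ R := by
    intro j hj g hg
    have h0j : 0 ∉ Y.erase j := fun h => h0 (Finset.mem_of_mem_erase h)
    obtain ⟨p, h1, h2, _, _, _, _⟩ := exists_prK (F := F) (Y.erase j) h0j (d + 1)
    have h3 : g = p g + (g - p g) := by abel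
    rw [h3, add_lie]
    apply R.add_mem (hKR j hj _ (h1 g hg))
    have h4 : Lam (F := F) (Y.erase j) (d + 1) ≤ R.comap (lieBy (X F j)) := by
      refine iSup₂_le fun i hi => ?_
      rintro _ ⟨u, hu, rfl⟩
      rw [Submodule.mem_comap, lieBy_apply]
      have hj0 : j ≠ 0 := by
        rintro rfl
        exact h0 hj
      rw [← D_lie_y i hj0]
      apply hLamR
      apply D_mem_Lam (Finset.mem_of_mem_erase hi)
      have h5 : (Y.erase i) = insert j ((Y.erase j).erase i) := by
        ext m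
        rw [Finset.mem_insert, Finset.mem_erase, Finset.mem_erase, Finset.mem_erase]
        constructor
        · rintro ⟨h6, h7⟩
          by_cases h8 : m = j
          · exact Or.inl h8
          · exact Or.inr ⟨h6, h8, h7⟩
        · rintro (rfl | ⟨h6, _, h8⟩)
          · exact ⟨fun h9 => (Finset.ne_of_mem_erase hi) h9.symm, hj⟩
          · exact ⟨h6, h8⟩
      rw [h5]
      apply lie_X_mem_WW _ hu
      intro h6
      exact Finset.notMem_erase j Y (Finset.mem_of_mem_erase h6)
    exact h4 (h2 g hg)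
  have hx : ∀ g ∈ WW (F := F) Y d, ⁅g, X F 0⁆ ∈ R := by
    intro g hg
    obtain ⟨p, h1, h2, _, _, _, _⟩ := exists_prK (F := F) Y h0 d
    have h3 : g = p g + (g - p g) := by abel
    rw [h3, add_lie]
    apply R.add_mem (hTR (hT.lie_mem _ (h (h1 g hg)) _))
    have h4 : Lam (F := F) Y d ≤ R.comap (lieBy (X F 0)) := by
      refine iSup₂_le fun i hi => ?_
      rintro _ ⟨u, hu, rfl⟩
      rw [Submodule.mem_comap, lieBy_apply]
      have h5 : ⁅D i u, X F 0⁆ = D i ⁅u, X F 0⁆ - ⁅u, X F i⁆ := by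
        rw [D_lie_x, add_sub_cancel_right]
      rw [h5]
      apply R.sub_mem
      · apply hLamR
        exact D_mem_Lam hi (lie_X0_mem_WW hu)
      · exact hy i hi u hu
    exact h4 (h2 g hg)
  have hbox := WW_box h0 (by omega) hf
  have hle : (WW (F := F) Y d).map (lieBy (X F 0)) ⊔
      ⨆ j ∈ Y, (WW (F := F) (Y.erase j) (d + 1)).map (lieBy (X F j)) ≤ R := by
    apply sup_le
    · rintro _ ⟨g, hg, rfl⟩
      exact hx g hg
    · refine iSup₂_le fun j hj => ?_
      rintro _ ⟨g, hg, rfl⟩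
      exact hy j hj g hg
  exact hle hbox

theorem mem_T_of_KE' [CharZero F] {T : Submodule F (FL F)} (hT : IsTIdeal F T) {Y : Finset ℕ}
    (h0 : 0 ∉ Y) {d : ℕ} {f : FL F} (hf : f ∈ KE Y d) (h : f ∈ Lam Y d ⊔ T) :
    f ∈ T := by
  obtain ⟨p, _, _, h3, h4, h5, _⟩ := exists_prK (F := F) Y h0 d
  obtain ⟨a, ha, b, hb, hab⟩ := Submodule.mem_sup.1 h
  have h6 : p f = p b := by rw [← hab, map_add, h4 a ha, zero_add]
  rw [← h3 f hf, h6]
  exact h5 T hT b hb

/-- Levels `≥ 5` propagate. -/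
theorem LZ_succ_of_LZ [CharZero F] {T : Submodule F (FL F)} (hT : IsTIdeal F T) {k d : ℕ}
    (h1 : LZ T (k + 1) d) (h2 : LZ T k (d + 1)) : LZ T (k + 1) (d + 1) := by
  intro f hf
  apply mem_T_of_KE' hT (zero_notMem_Icc (k + 1)) hf
  have h3 := prop_lemma hT (by omega) h1 (KE_le _ _ hf)
  have h4 : (⨆ j ∈ Finset.Icc 1 (k + 1),
      (KE (F := F) ((Finset.Icc 1 (k + 1)).erase j) (d + 1)).map (lieBy (X F j))) ≤ T := by
    refine iSup₂_le fun j hj => ?_
    rintro _ ⟨g, hg, rfl⟩
    apply hT.lie_mem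
    apply LZ_of_card hT h2 _ _ hg
    · exact fun h => zero_notMem_Icc (k + 1) (Finset.mem_of_mem_erase h)
    · rw [Finset.card_erase_of_mem hj, Nat.card_Icc]
      omega
  have h5 : Lam (F := F) (Finset.Icc 1 (k + 1)) (d + 1) ⊔ T ⊔
      (⨆ j ∈ Finset.Icc 1 (k + 1),
        (KE (F := F) ((Finset.Icc 1 (k + 1)).erase j) (d + 1)).map (lieBy (X F j))) ≤
      Lam (F := F) (Finset.Icc 1 (k + 1)) (d + 1) ⊔ T :=
    sup_le le_rfl (le_trans h4 le_sup_right)
  exact h5 h3

theorem KE_zero {Y : Finset ℕ} (h0 : 0 ∉ Y) (hY : Y.Nonempty) : KE (F := F) Y 0 = ⊥ := by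
  rw [Submodule.eq_bot_iff]
  intro f hf
  rw [mem_KE] at hf
  obtain ⟨j, hj⟩ := hY
  have h00 : (0 : ℕ) ∉ cont Y 0 := by
    rw [cont, Multiset.replicate_zero, zero_add]
    exact h0
  have h1 := ren_mrg_dd (a := j) hf.1 h00
  rw [count_cont hj h0, Nat.cast_one, one_smul] at h1
  have h2 : dd j 0 f = 0 := hf.2 j hj
  rw [← h1, h2, map_zero]

theorem LZ_zero_right [CharZero F] {T : Submodule F (FL F)} (hT : IsTIdeal F T) {k : ℕ}
    (hk : 1 ≤ k) : LZ T k 0 := by
  rw [LZ, KE_zero (zero_notMem_Icc k) ⟨1, by rw [Finset.mem_Icc]; exact ⟨le_rfl, hk⟩⟩]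
  exact bot_le

/-- An antisymmetric multilinear element in at least three letters is zero. -/
theorem eq_zero_of_antisymm [CharZero F] {Z : Finset ℕ} (hZ : 3 ≤ Z.card) {f : FL F}
    (hf : f ∈ HomC (F := F) Z.val)
    (h : ∀ a ∈ Z, ∀ b ∈ Z, a ≠ b → ren (Equiv.swap a b) f = -f) : f = 0 := by
  classical
  have hnd : Z.toList.Nodup := Z.nodup_toList
  have hmemL : ∀ a, a ∈ Z.toList ↔ a ∈ Z := fun a => Finset.mem_toList
  -- the antisymmetrizer acts on `f` as a nonzero scalar
  have h1 : ∀ l : List ℕ, (∀ a ∈ l, a ∈ Z) → l.Nodup →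
      altL l f = (l.length.factorial : F) • f := by
    intro l
    induction l with
    | nil =>
      intro _ _
      simp [altL]
    | cons t A ih =>
      intro hl hn
      have htA := (List.nodup_cons.1 hn).1
      have h2 : ∀ B : List ℕ, (∀ a ∈ B, a ∈ A) →
          (B.map (fun a => ren (F := F) (Equiv.swap a t) f)).sum = -((B.length : F) • f) := by
        intro B
        induction B with
        | nil => simp
        | cons b B ihB =>
          intro hB
          have hbA := hB b List.mem_cons_self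
          have hbt : b ≠ t := by
            rintro rfl
            exact htA hbA
          rw [List.map_cons, List.sum_cons, ihB (fun a ha => hB a (List.mem_cons_of_mem _ ha)),
            h b (hl b (List.mem_cons_of_mem _ hbA)) t (hl t List.mem_cons_self) hbt,
            List.length_cons, Nat.cast_add, Nat.cast_one, add_smul, one_smul]
          abel
      rw [altL_cons, h2 A (fun _ h => h), sub_neg_eq_add, map_add, map_smul,
        ih (fun a ha => hl a (List.mem_cons_of_mem _ ha)) (List.nodup_cons.1 hn).2,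
        List.length_cons, Nat.factorial_succ, smul_smul, ← add_smul]
      congr 1
      push_cast
      ring
  -- the antisymmetrizer kills left normed monomials
  have h2 : ∀ a b c : ℕ, a ∈ Z → b ∈ Z → c ∈ Z → a ≠ b → a ≠ c → b ≠ c → ∀ l : List ℕ,
      (∀ m ∈ l, m ≠ a ∧ m ≠ b ∧ m ≠ c) → altL Z.toList (lnm (X F a) (b :: c :: l)) = 0 := by
    intro a b c ha hb hc hab hac hbc l hl
    have hsw : ∀ a b : ℕ, a ∈ Z → b ∈ Z → a ≠ b → ∀ w : FL F,
        altL Z.toList (ren (Equiv.swap a b) w) = -altL Z.toList w :=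
      fun a b ha hb hab w => altL_sw Z.toList hnd ((hmemL a).2 ha) ((hmemL b).2 hb) hab w
    have hlsw : ∀ p q : ℕ, (p = a ∨ p = b ∨ p = c) → (q = a ∨ q = b ∨ q = c) →
        l.map (Equiv.swap p q) = l := by
      intro p q hp hq
      conv_rhs => rw [← List.map_id l]
      apply List.map_congr_left
      intro m hm
      obtain ⟨h3, h4, h5⟩ := hl m hm
      rw [Equiv.swap_apply_of_ne_of_ne]
      · rfl
      · rcases hp with rfl | rfl | rfl
        · exact h3
        · exact h4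
        · exact h5
      · rcases hq with rfl | rfl | rfl
        · exact h3
        · exact h4
        · exact h5
    have h3 : lnm (X F b) (c :: a :: l) = ren (Equiv.swap a c) (ren (Equiv.swap a b)
        (lnm (X F a) (b :: c :: l))) := by
      rw [ren_lnm, ren_lnm, ren_X, ren_X, List.map_cons, List.map_cons, List.map_cons,
        List.map_cons, hlsw a b (Or.inl rfl) (Or.inr (Or.inl rfl)),
        hlsw a c (Or.inl rfl) (Or.inr (Or.inr rfl)), Equiv.swap_apply_left,
        Equiv.swap_apply_of_ne_of_ne (Ne.symm hab) hbc, Equiv.swap_apply_right,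
        Equiv.swap_apply_left, Equiv.swap_apply_of_ne_of_ne (Ne.symm hac) (Ne.symm hbc),
        Equiv.swap_apply_right]
    have h4 : lnm (X F c) (a :: b :: l) = ren (Equiv.swap a b) (ren (Equiv.swap a c)
        (lnm (X F a) (b :: c :: l))) := by
      rw [ren_lnm, ren_lnm, ren_X, ren_X, List.map_cons, List.map_cons, List.map_cons,
        List.map_cons, hlsw a c (Or.inl rfl) (Or.inr (Or.inr rfl)),
        hlsw a b (Or.inl rfl) (Or.inr (Or.inl rfl)), Equiv.swap_apply_left,
        Equiv.swap_apply_of_ne_of_ne (Ne.symm hab) hbc, Equiv.swap_apply_right,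
        Equiv.swap_apply_of_ne_of_ne (Ne.symm hac) (Ne.symm hbc), Equiv.swap_apply_right,
        Equiv.swap_apply_left]
    have h5 : lnm (X F a) (b :: c :: l) + lnm (X F b) (c :: a :: l) +
        lnm (X F c) (a :: b :: l) = 0 := by
      rw [lnm_cons, lnm_cons, lnm_cons, lnm_cons, lnm_cons, lnm_cons, ← lnm_add, ← lnm_add]
      have h6 : ⁅⁅X F a, X F b⁆, X F c⁆ + ⁅⁅X F b, X F c⁆, X F a⁆ + ⁅⁅X F c, X F a⁆, X F b⁆ =
          0 := by
        have h7 := lie_jacobi (X F a) (X F b) (X F c)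
        rw [← lie_skew (X F a) ⁅X F b, X F c⁆, ← lie_skew (X F b) ⁅X F c, X F a⁆,
          ← lie_skew (X F c) ⁅X F a, X F b⁆] at h7
        have h8 : ⁅⁅X F a, X F b⁆, X F c⁆ + ⁅⁅X F b, X F c⁆, X F a⁆ + ⁅⁅X F c, X F a⁆, X F b⁆ =
            -(-⁅⁅X F b, X F c⁆, X F a⁆ + -⁅⁅X F c, X F a⁆, X F b⁆ + -⁅⁅X F a, X F b⁆, X F c⁆) := by
          abel
        rw [h8, h7, neg_zero]
      rw [h6, lnm_zero]
    have h6 := congrArg (altL (F := F) Z.toList) h5
    rw [map_add, map_add, map_zero, h3, h4, hsw a c ha hc hac, hsw a b ha hb hab,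
      hsw a b ha hb hab, hsw a c ha hc hac] at h6
    have h7 : (3 : F) • altL Z.toList (lnm (X F a) (b :: c :: l)) = 0 := by
      rw [← h6]
      simp only [neg_neg]
      rw [show (3 : F) = 1 + 1 + 1 by norm_num, add_smul, add_smul, one_smul]
    exact (smul_eq_zero.1 h7).resolve_left (by norm_num)
  have h3 : altL Z.toList f = 0 := by
    obtain ⟨a, ha⟩ : Z.Nonempty := Finset.card_pos.1 (by omega)
    have hf2 := hf
    rw [homC_eq_nSpan (F := F) (j := a) ha, NSpan] at hf2
    clear h h1 hf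
    induction hf2 using Submodule.span_induction with
    | mem f h =>
      obtain ⟨l, hl, rfl⟩ := h
      have hlen : l.length + 1 = Z.card := by
        have := congrArg Multiset.card hl
        rw [Multiset.card_cons, Multiset.coe_card, Finset.card_val] at this
        exact this
      rcases l with _ | ⟨b, _ | ⟨c, l⟩⟩
      · simp at hlen
        omega
      · simp at hlen
        omega
      · have hnd2 : (a :: b :: c :: l).Nodup := by
          have : ((a :: b :: c :: l : List ℕ) : Multiset ℕ).Nodup := by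
            rw [← Multiset.cons_coe, hl]
            exact Z.nodup
          exact this
        have hmem : ∀ m ∈ (a :: b :: c :: l), m ∈ Z := by
          intro m hm
          have : m ∈ ((a :: b :: c :: l : List ℕ) : Multiset ℕ) := hm
          rw [← Multiset.cons_coe, hl] at this
          exact this
        simp only [List.nodup_cons, List.mem_cons, not_or] at hnd2
        obtain ⟨⟨hab, hac, hal⟩, ⟨hbc, hbl⟩, hcl, _⟩ := hnd2
        apply h2 a b c (hmem a (by simp)) (hmem b (by simp)) (hmem c (by simp)) hab hac hbc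
        intro m hm
        refine ⟨?_, ?_, ?_⟩
        · rintro rfl
          exact hal hm
        · rintro rfl
          exact hbl hm
        · rintro rfl
          exact hcl hm
    | zero => rw [map_zero]
    | add a b _ _ h1 h2 => rw [map_add, h1, h2, add_zero]
    | smul c a _ h1 => rw [map_smul, h1, smul_zero]
  rw [h1 Z.toList (fun a ha => (hmemL a).1 ha) hnd] at h3
  exact (smul_eq_zero.1 h3).resolve_left (Nat.cast_ne_zero.2 (Nat.factorial_ne_zero _))

theorem KE_one [CharZero F] {Y : Finset ℕ} (h0 : 0 ∉ Y) (hY : 2 ≤ Y.card) :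
    KE (F := F) Y 1 = ⊥ := by
  rw [Submodule.eq_bot_iff]
  intro f hf
  rw [mem_KE] at hf
  have hcont : cont Y 1 = (insert 0 Y).val := by
    rw [cont, Multiset.replicate_one, Multiset.singleton_add, Finset.insert_val_of_notMem h0]
  have hf1 : f ∈ HomC (F := F) (insert 0 Y).val := by
    rw [← hcont]
    exact hf.1
  have hanti0 : ∀ j ∈ Y, ren (Equiv.swap 0 j) f = -f := by
    intro j hj
    have hj0 : j ≠ 0 := by
      rintro rfl
      exact h0 hj
    have h1 : dd j 0 f = 0 := hf.2 j hj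
    rw [dd_eq_ren 0 hf.1 (count_cont hj h0 1)] at h1
    have h2 := dd_ren 0 j (mrg j 0) hf1 (by
      intro p _
      exact (Multiset.nodup_iff_count_le_one.1 (insert 0 Y).nodup) p) {0, j} (by
      intro p _ hp
      by_cases h : p = j
      · rw [h]
        simp
      · rw [mrg_ne h] at hp
        rw [hp]
        simp)
    rw [h1, map_zero, Finset.sum_pair (Ne.symm hj0), if_pos, if_pos] at h2
    · have h3 : ren (Function.update (mrg j 0) 0 j) f = ren (Equiv.swap 0 j) f := by
        apply hom_congr hf1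
        intro i _
        rw [ren_X, ren_X]
        congr 1
        by_cases hi : i = 0
        · rw [hi, Function.update_self, Equiv.swap_apply_left]
        · rw [Function.update_of_ne hi]
          by_cases hij : i = j
          · rw [hij, mrg_same, Equiv.swap_apply_right]
          · rw [mrg_ne hij, Equiv.swap_apply_of_ne_of_ne hi hij]
      have h4 : ren (Function.update (mrg j 0) j j) f = f := by
        apply ren_eq_self hf1
        intro i _
        by_cases hij : i = j
        · rw [hij, Function.update_self]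
        · rw [Function.update_of_ne hij, mrg_ne hij]
      rw [h3, h4] at h2
      exact eq_neg_of_add_eq_zero_left h2.symm
    · exact ⟨Finset.mem_insert_of_mem hj, mrg_same j 0⟩
    · exact ⟨Finset.mem_insert_self _ _, mrg_ne (Ne.symm hj0)⟩
  apply eq_zero_of_antisymm (Z := insert 0 Y) (by
    rw [Finset.card_insert_of_notMem h0]
    omega) hf1
  intro a ha b hb hab
  rw [Finset.mem_insert] at ha hb
  rcases ha with rfl | ha
  · rcases hb with rfl | hb
    · exact absurd rfl hab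
    · exact hanti0 b hb
  · rcases hb with rfl | hb
    · rw [Equiv.swap_comm]
      exact hanti0 a ha
    · have ha0 : a ≠ 0 := by
        rintro rfl
        exact h0 ha
      have hb0 : b ≠ 0 := by
        rintro rfl
        exact h0 hb
      have h1 : ren (Equiv.swap a b) f =
          ren (Equiv.swap 0 a) (ren (Equiv.swap 0 b) (ren (Equiv.swap 0 a) f)) := by
        rw [ren_ren, ren_ren]
        apply hom_congr hf1
        intro i _
        rw [ren_X, ren_X]
        congr 1
        simp only [Function.comp_apply]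
        by_cases hia : i = a
        · subst hia
          rw [Equiv.swap_apply_left, Equiv.swap_apply_right, Equiv.swap_apply_left,
            Equiv.swap_apply_of_ne_of_ne hb0 (Ne.symm hab)]
        · by_cases hib : i = b
          · subst hib
            rw [Equiv.swap_apply_right, Equiv.swap_apply_of_ne_of_ne hb0 (Ne.symm hab),
              Equiv.swap_apply_right, Equiv.swap_apply_left]
          · rw [Equiv.swap_apply_of_ne_of_ne hia hib]
            by_cases hi0 : i = 0
            · subst hi0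
              rw [Equiv.swap_apply_left, Equiv.swap_apply_of_ne_of_ne ha0 hab,
                Equiv.swap_apply_right]
            · rw [Equiv.swap_apply_of_ne_of_ne hi0 hia, Equiv.swap_apply_of_ne_of_ne hi0 hib,
                Equiv.swap_apply_of_ne_of_ne hi0 hia]
      rw [h1, hanti0 a ha, map_neg, hanti0 b hb, neg_neg, hanti0 a ha]

theorem LZ_one_right [CharZero F] {T : Submodule F (FL F)} (hT : IsTIdeal F T) {k : ℕ}
    (hk : 2 ≤ k) : LZ T k 1 := by
  rw [LZ, KE_one (zero_notMem_Icc k) (by rw [Nat.card_Icc]; omega)]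
  exact bot_le

/-! ### Transfer along `[., x]` and the converse of Criterion E -/

/-- If every element of `KE (k, d + 1)` is `[w, x]` modulo `T` with `w ∈ KE (k, d)` then
`LevelGood` passes from `(k, d)` to `(k, d + 1)`. -/
theorem levelGood_transfer [CharZero F] {T : Submodule F (FL F)} (hT : IsTIdeal F T) {k d : ℕ}
    (h : ∀ f ∈ KE (F := F) (Finset.Icc 1 k) (d + 1), ∃ w ∈ KE (F := F) (Finset.Icc 1 k) d,
      f - ⁅w, X F 0⁆ ∈ T)
    (hg : LevelGood T k d) : LevelGood T k (d + 1) := by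
  set Y := Finset.Icc 1 k with hY
  have h0 : 0 ∉ Y := zero_notMem_Icc k
  obtain ⟨p, p1, p2, p3, p4, p5, p6⟩ := exists_prK (F := F) Y h0 d
  obtain ⟨p', q1, q2, q3, q4, q5, q6⟩ := exists_prK (F := F) Y h0 (d + 1)
  -- the transfer map
  let θ : FL F →ₗ[F] FL F := lieBy (X F 0) ∘ₗ p
  have hθ : ∀ w, θ w = ⁅p w, X F 0⁆ := fun _ => rfl
  have hθst : ∀ σ : Equiv.Perm ℕ, (∀ i, i ∉ Y → σ i = i) → ∀ w, ren σ (θ w) = θ (ren σ w) := by
    intro σ hσ w
    rw [hθ, hθ, LieHom.map_lie, p6 σ hσ, ren_X, hσ 0 h0]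
  have hθW : ∀ w ∈ W (F := F) k d, θ w ∈ W (F := F) k (d + 1) := by
    intro w hw
    rw [hθ]
    exact lie_X0_mem_WW (KE_le _ _ (p1 w hw))
  have hθT : ∀ w ∈ T, θ w ∈ T := by
    intro w hw
    rw [hθ]
    exact hT.lie_mem _ (p5 T hT w hw) _
  have hlev : ∀ {U : Submodule F (FL F)}, LevU T k (d + 1) U → LevU T k d (U.comap θ ⊓ W k d) := by
    intro U hU
    refine ⟨?_, ?_, inf_le_right, ?_⟩
    · intro w hw
      refine ⟨?_, Lam_le _ _ hw⟩
      change θ w ∈ U
      rw [hθ, p4 w hw, zero_lie]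
      exact U.zero_mem
    · rintro w ⟨hw1, hw2⟩
      exact ⟨hU.T_le ⟨hθT w hw1, hθW w hw2⟩, hw2⟩
    · rintro σ hσ w ⟨hw1, hw2⟩
      refine ⟨?_, stab_WW h0 d σ hσ w hw2⟩
      change θ (ren σ w) ∈ U
      rw [← hθst σ hσ]
      exact hU.stab σ hσ _ hw1
  intro U1 U2 U3 hU1 hU2 hU3
  rintro f ⟨hf1, hf23⟩
  obtain ⟨f2, hf2, f3, hf3, hf⟩ := Submodule.mem_sup.1 hf23
  have hfind : ∀ {U : Submodule F (FL F)}, LevU T k (d + 1) U → ∀ g ∈ U,
      ∃ w ∈ U.comap θ ⊓ W k d, g - θ w ∈ Lam Y (d + 1) ⊔ (T ⊓ W k (d + 1)) := by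
    intro U hU g hg
    have hgW := hU.le_W hg
    obtain ⟨w, hw, hwT⟩ := h (p' g) (q1 g hgW)
    have h1 : p w = w := p3 w hw
    have h2 : g - θ w = (g - p' g) + (p' g - ⁅w, X F 0⁆) := by
      rw [hθ, h1]
      abel
    have h3 : g - θ w ∈ Lam Y (d + 1) ⊔ (T ⊓ W k (d + 1)) := by
      rw [h2]
      refine Submodule.add_mem_sup (q2 g hgW) ⟨hwT, ?_⟩
      exact Submodule.sub_mem _ (KE_le _ _ (q1 g hgW)) (lie_X0_mem_WW (KE_le _ _ hw))
    refine ⟨w, ⟨?_, KE_le _ _ hw⟩, h3⟩
    change θ w ∈ U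
    have h4 : θ w = g - (g - θ w) := by abel
    rw [h4]
    exact U.sub_mem hg (sup_le hU.lam_le hU.T_le h3)
  obtain ⟨w2, hw2, hg2⟩ := hfind hU2 f2 hf2
  obtain ⟨w3, hw3, hg3⟩ := hfind hU3 f3 hf3
  have hbase : Lam Y (d + 1) ⊔ (T ⊓ W k (d + 1)) ≤ (U1 ⊓ U2) ⊔ (U1 ⊓ U3) :=
    le_trans (sup_le (le_inf hU1.lam_le hU2.lam_le) (le_inf hU1.T_le hU2.T_le)) le_sup_left
  have hsum : f - θ (w2 + w3) ∈ Lam Y (d + 1) ⊔ (T ⊓ W k (d + 1)) := by
    have h2 : f - θ (w2 + w3) = (f2 - θ w2) + (f3 - θ w3) := by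
      rw [← hf, map_add]
      abel
    rw [h2]
    exact Submodule.add_mem _ hg2 hg3
  have hw1 : w2 + w3 ∈ U1.comap θ ⊓ W k d := by
    refine ⟨?_, Submodule.add_mem _ hw2.2 hw3.2⟩
    change θ (w2 + w3) ∈ U1
    have h4 : θ (w2 + w3) = f - (f - θ (w2 + w3)) := by abel
    rw [h4]
    exact U1.sub_mem hf1 (sup_le hU1.lam_le hU1.T_le hsum)
  obtain ⟨a, ha, b, hb, hab⟩ := Submodule.mem_sup.1
    (hg _ _ _ (hlev hU1) (hlev hU2) (hlev hU3) ⟨hw1, Submodule.add_mem_sup hw2 hw3⟩)
  have h5 : f = (f - θ (w2 + w3)) + (θ a + θ b) := by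
    rw [← map_add, hab]
    abel
  rw [h5]
  apply Submodule.add_mem _ (hbase hsum)
  exact Submodule.add_mem_sup ⟨ha.1.1, ha.2.1⟩ ⟨hb.1.1, hb.2.1⟩

/-- The permutations of `{1, ..., k}`. -/
def Sk (k : ℕ) : Set (Equiv.Perm ℕ) := {σ | ∀ i, i ∉ Finset.Icc 1 k → σ i = i}

/-- Converse criterion: two highest weight vectors of the same type.  `e` is a linear map which
preserves every stable subspace (a group algebra element), and there is one function `χ` with
`e (σ v) = χ σ • v` for both vectors. -/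
theorem exists_comb_of_levelGood [CharZero F] {T : Submodule F (FL F)} (hT : IsTIdeal F T)
    {k d : ℕ} (hg : LevelGood T k d) {v w : FL F} (hv : v ∈ KE (Finset.Icc 1 k) d)
    (hw : w ∈ KE (Finset.Icc 1 k) d) (e : FL F →ₗ[F] FL F)
    (he : ∀ U : Submodule F (FL F), Stab (Finset.Icc 1 k) U → ∀ f ∈ U, e f ∈ U)
    (χ : Equiv.Perm ℕ → F) (hχ1 : χ 1 = 1)
    (hχv : ∀ σ ∈ Sk k, e (ren σ v) = χ σ • v) (hχw : ∀ σ ∈ Sk k, e (ren σ w) = χ σ • w) :
    ∃ a b : F, (a, b) ≠ (0, 0) ∧ a • v + b • w ∈ T := by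
  set Y := Finset.Icc 1 k with hY
  have h0 : 0 ∉ Y := zero_notMem_Icc k
  set B : Submodule F (FL F) := Lam Y d ⊔ (T ⊓ W k d) with hB
  have hBst : Stab Y B := stab_sup (stab_Lam h0 d) (stab_inf (stab_T hT Y) (stab_WW h0 d))
  have hBW : B ≤ W k d := sup_le (Lam_le Y d) inf_le_right
  have hlev : ∀ g ∈ W (F := F) k d, LevU T k d (B ⊔ Orb Y g) := by
    intro g hg
    refine ⟨le_trans le_sup_left le_sup_left, le_trans le_sup_right le_sup_left, ?_, ?_⟩
    · apply sup_le hBW
      exact orb_le (stab_WW h0 d) hg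
    · exact stab_sup hBst (stab_Orb Y g)
  have hgen : ∀ g : FL F, (∀ σ ∈ Sk k, e (ren σ g) = χ σ • g) → ∀ x ∈ B ⊔ Orb Y g,
      ∃ c : F, e x - c • g ∈ B := by
    intro g hg x hx
    obtain ⟨b, hb, y, hy, rfl⟩ := Submodule.mem_sup.1 hx
    have h1 : ∃ c : F, e y = c • g := by
      rw [Orb] at hy
      induction hy using Submodule.span_induction with
      | mem y h =>
        obtain ⟨σ, hσ, rfl⟩ := h
        exact ⟨χ σ, hg σ hσ⟩
      | zero => exact ⟨0, by rw [map_zero, zero_smul]⟩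
      | add y z _ _ h1 h2 =>
        obtain ⟨c1, h1⟩ := h1 (Submodule.add_mem_sup hb (by assumption))
        obtain ⟨c2, h2⟩ := h2 (Submodule.add_mem_sup hb (by assumption))
        exact ⟨c1 + c2, by rw [map_add, h1, h2, add_smul]⟩
      | smul c y _ h1 =>
        obtain ⟨c1, h1⟩ := h1 (Submodule.add_mem_sup hb (by assumption))
        exact ⟨c * c1, by rw [map_smul, h1, smul_smul]⟩
    obtain ⟨c, hc⟩ := h1
    refine ⟨c, ?_⟩
    rw [map_add, hc, add_sub_cancel_right]
    exact he B hBst b hb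
  have hv' := KE_le _ _ hv
  have hw' := KE_le _ _ hw
  have hvw : v + w ∈ W k d := Submodule.add_mem _ hv' hw'
  have hχvw : ∀ σ ∈ Sk k, e (ren σ (v + w)) = χ σ • (v + w) := by
    intro σ hσ
    rw [map_add, map_add, hχv σ hσ, hχw σ hσ, smul_add]
  have hev : e v = v := by
    have h1 := hχv 1 (fun _ _ => rfl)
    rw [hχ1, one_smul] at h1
    have h2 : ren (⇑(1 : Equiv.Perm ℕ)) v = v := ren_id' v
    rwa [h2] at h1
  have hd := hg _ _ _ (hlev v hv') (hlev w hw') (hlev (v + w) hvw)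
  have hmem : v ∈ (B ⊔ Orb Y v) ⊓ ((B ⊔ Orb Y w) ⊔ (B ⊔ Orb Y (v + w))) := by
    refine ⟨Submodule.mem_sup_right (self_mem_Orb Y v), ?_⟩
    have h3 : -w + (v + w) ∈ (B ⊔ Orb Y w) ⊔ (B ⊔ Orb Y (v + w)) := by
      apply Submodule.add_mem_sup
      · apply Submodule.neg_mem
        exact Submodule.mem_sup_right (self_mem_Orb Y w)
      · exact Submodule.mem_sup_right (self_mem_Orb Y (v + w))
    have h4 : -w + (v + w) = v := by abel
    rwa [h4] at h3
  obtain ⟨x, hx, y, hy, hxy⟩ := Submodule.mem_sup.1 (hd hmem)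
  obtain ⟨a1, ha1⟩ := hgen v hχv x hx.1
  obtain ⟨b1, hb1⟩ := hgen w hχw x hx.2
  obtain ⟨a2, ha2⟩ := hgen v hχv y hy.1
  obtain ⟨b2, hb2⟩ := hgen (v + w) hχvw y hy.2
  have hfin : ∀ a b : F, a • v + b • w ∈ B → a • v + b • w ∈ T := by
    intro a b hab
    exact mem_T_of_KE hT h0 (Submodule.add_mem _ (Submodule.smul_mem _ a hv)
      (Submodule.smul_mem _ b hw)) hab
  have h3 : a1 • v + (-b1) • w ∈ B := by
    have := B.sub_mem hb1 ha1
    have h4 : e x - b1 • w - (e x - a1 • v) = a1 • v + (-b1) • w := by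
      rw [neg_smul]
      abel
    rwa [h4] at this
  have h5 : (a2 - b2) • v + (-b2) • w ∈ B := by
    have := B.sub_mem hb2 ha2
    have h4 : e y - b2 • (v + w) - (e y - a2 • v) = (a2 - b2) • v + (-b2) • w := by
      rw [neg_smul, sub_smul, smul_add]
      abel
    rwa [h4] at this
  by_cases hab : a1 ≠ 0 ∨ -b1 ≠ 0
  · refine ⟨a1, -b1, ?_, hfin _ _ h3⟩
    intro h6
    rw [Prod.mk.injEq] at h6
    rcases hab with h7 | h7
    · exact h7 h6.1
    · exact h7 h6.2
  · by_cases hab2 : a2 - b2 ≠ 0 ∨ -b2 ≠ 0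
    · refine ⟨a2 - b2, -b2, ?_, hfin _ _ h5⟩
      intro h6
      rw [Prod.mk.injEq] at h6
      rcases hab2 with h7 | h7
      · exact h7 h6.1
      · exact h7 h6.2
    · push Not at hab hab2
      have hb2z : b2 = 0 := neg_eq_zero.1 hab2.2
      have ha2z : a2 = 0 := by
        have := hab2.1
        rwa [hb2z, sub_zero] at this
      refine ⟨1, 0, ?_, ?_⟩
      · intro h6
        rw [Prod.mk.injEq] at h6
        exact one_ne_zero h6.1
      · apply hfin
        rw [one_smul, zero_smul, add_zero, ← hev, ← hxy, map_add]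
        apply B.add_mem
        · have := ha1
          rwa [hab.1, zero_smul, sub_zero] at this
        · have := ha2
          rwa [ha2z, zero_smul, sub_zero] at this

/-! ### Criterion E in dual form -/

/-- A finite group algebra element: `∑ σ, c σ • ren σ` over a finite set of permutations of
`{1, ..., k}`. -/
structure GAE (F : Type u) (k : ℕ) where
  /-- the support -/
  supp : Finset (Equiv.Perm ℕ)
  /-- the coefficients -/
  coef : Equiv.Perm ℕ → F
  /-- all permutations fix everything outside `{1, ..., k}` -/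
  fix : ∀ σ ∈ supp, σ ∈ Sk k

/-- The action of a group algebra element. -/
def GAE.act {k : ℕ} (e : GAE F k) : FL F →ₗ[F] FL F :=
  ∑ σ ∈ e.supp, e.coef σ • (ren (F := F) σ : FL F →ₗ⁅F⁆ FL F).toLinearMap

/-- Criterion E, dual form.  `e 0, ..., e (m - 1)` group algebra elements such that for every
`i` any two functionals on `W k d` which vanish on `Lam + T ⊓ W` and on all `π e_j W`, `j < i`,
and which factor through `e_i` (up to a nonzero scalar), are proportional; and no nonzero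
functional vanishes on everything generated by the `e_i W`. -/
theorem levelGood_of_criterion [CharZero F] {T : Submodule F (FL F)} (hT : IsTIdeal F T)
    {k d : ℕ} (m : ℕ) (e : Fin m → GAE F k) (c : Fin m → F) (hc : ∀ i, c i ≠ 0)
    (hq : ∀ i, ∀ f, (e i).act ((e i).act f) = c i • (e i).act f)
    (h : ∀ i : Fin m, ∀ φ ψ : FL F →ₗ[F] F,
      (∀ f ∈ Lam (Finset.Icc 1 k) d, φ f = 0 ∧ ψ f = 0) →
      (∀ f ∈ T ⊓ W k d, φ f = 0 ∧ ψ f = 0) →
      (∀ j < i, ∀ σ ∈ Sk k, ∀ f ∈ W k d,
        φ (ren σ ((e j).act f)) = 0 ∧ ψ (ren σ ((e j).act f)) = 0) →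
      (∀ f ∈ W k d, φ ((e i).act f) = c i * φ f ∧ ψ ((e i).act f) = c i * ψ f) →
      ∀ f ∈ W k d, ∀ g ∈ W k d, φ f * ψ g = φ g * ψ f)
    (hlast : ∀ φ : FL F →ₗ[F] F,
      (∀ f ∈ Lam (Finset.Icc 1 k) d, φ f = 0) → (∀ f ∈ T ⊓ W k d, φ f = 0) →
      (∀ j, ∀ σ ∈ Sk k, ∀ f ∈ W k d, φ (ren σ ((e j).act f)) = 0) → ∀ f ∈ W k d, φ f = 0) :
    LevelGood T k d := by
  set Y := Finset.Icc 1 k with hY
  intro U1 U2 U3 hU1 hU2 hU3
  set B : Submodule F (FL F) := Lam Y d ⊔ (T ⊓ W k d) with hB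
  have hSk : ∀ σ ∈ Sk k, ∀ i, i ∉ Y → σ i = i := fun σ hσ => hσ
  have heGA : ∀ i, (e i).act ∈ GA (F := F) Y := by
    intro i
    rw [GAE.act]
    apply Submodule.sum_mem
    intro σ hσ
    apply Submodule.smul_mem
    exact ren_mem_GA σ ((e i).fix σ hσ)
  apply rep_dist (ρ := rho Y) (W k d) B (fun i => (e i).act) heGA
  · intro i φ ψ hφ hψ
    have key : ∀ φ : FL F →ₗ[F] F, Ad (rho Y) (W k d) B (fun i => (e i).act) i φ →
        ∀ f ∈ W (F := F) k d, φ ((e i).act f) = c i * φ f := by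
      intro φ hφ f _
      obtain ⟨φ', _, h3⟩ := hφ.fact
      rw [h3, h3, hq i, map_smul, smul_eq_mul]
    have h4 := h i φ ψ (fun f hf => ⟨hφ.base f (Submodule.mem_sup_left hf),
        hψ.base f (Submodule.mem_sup_left hf)⟩)
      (fun f hf => ⟨hφ.base f (Submodule.mem_sup_right hf),
        hψ.base f (Submodule.mem_sup_right hf)⟩)
      (fun j hj σ hσ f hf => by
        obtain ⟨g, rfl⟩ := exists_ofSubtype (Y := Y) σ (hSk σ hσ)
        exact ⟨hφ.kill j hj g f hf, hψ.kill j hj g f hf⟩)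
      (fun f hf => ⟨key φ hφ f hf, key ψ hψ f hf⟩)
    by_cases hz : ∀ f ∈ W (F := F) k d, φ f = 0
    · refine ⟨1, 0, Or.inl one_ne_zero, ?_⟩
      intro w hw
      rw [hz w hw, mul_zero, zero_mul, add_zero]
    · push Not at hz
      obtain ⟨g, hg, hgne⟩ := hz
      refine ⟨ψ g, -φ g, Or.inr (neg_ne_zero.2 hgne), ?_⟩
      intro w hw
      have := h4 w hw g hg
      linear_combination this
  · intro φ hφ hkill
    apply hlast φ (fun f hf => hφ f (Submodule.mem_sup_left hf))
      (fun f hf => hφ f (Submodule.mem_sup_right hf))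
    intro j σ hσ f hf
    obtain ⟨g, rfl⟩ := exists_ofSubtype (Y := Y) σ (hSk σ hσ)
    exact hkill j g f hf
  · exact stab_iff.1 hU1.stab
  · exact stab_iff.1 hU2.stab
  · exact stab_iff.1 hU3.stab
  · exact sup_le hU1.lam_le hU1.T_le
  · exact sup_le hU2.lam_le hU2.T_le
  · exact hU1.le_W
  · exact hU2.le_W

end

end Pool.Agent.Lib.MP_b4a71d_al
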