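import Pool.Agent.Lib.MP_b4a71d_al.K3alg
import Pool.Agent.Lib.MP_b4a71d_al.Defs

section

/-!
# MP_b4a71d_al: the three families of relations in degree 6
-/

set_option autoImplicit false

namespace Pool.Agent.Lib.MP_b4a71d_al.Eng

open Tr

/-- The components of the relations of the level (3, 3). -/
def FB : List Cb :=
  [[(1, (b (b (b (l 1) (l 0)) (b (l 2) (l 0))) (b (l 3) (l 0)))), (-2, (b (b (b (l 1) (l 0)) (b (l
      3) (l 0))) (b (l 2) (l 0))))],
  [(1, (b (b (l 1) (b (b (l 2) (l 0)) (l 0))) (b (l 3) (l 0)))), (-1, (b (b (b (l 1) (l 0)) (b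
      (b (l 2) (l 0)) (l 0))) (l 3))), (-1, (b (b (b (b (l 1) (l 0)) (l 0)) (l 2)) (b (l 3) (l
      0)))), (-1, (b (b (b (b (b (l 1) (l 0)) (l 0)) (l 0)) (l 2)) (l 3))), (1, (b (b (l 1) (l
      3)) (b (b (b (l 2) (l 0)) (l 0)) (l 0)))), (1, (b (b (b (l 1) (l 0)) (l 3)) (b (b (l 2)
      (l 0)) (l 0)))), (1, (b (b (b (b (l 1) (l 0)) (l 0)) (l 3)) (b (l 2) (l 0)))), (1, (b (b
      (b (b (b (l 1) (l 0)) (l 0)) (l 0)) (l 3)) (l 2))), (-2, (b (b (b (l 1) (l 0)) (b (l 2)
      (l 0))) (b (l 3) (l 0)))), (4, (b (b (b (l 1) (l 0)) (b (l 3) (l 0))) (b (l 2) (l 0))))],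
  [(1, (b (b (l 1) (b (l 2) (l 0))) (b (b (l 3) (l 0)) (l 0)))), (-1, (b (b (b (l 1) (l 0)) (l
      2)) (b (b (l 3) (l 0)) (l 0)))), (-1, (b (b (b (b (l 1) (l 0)) (l 0)) (l 2)) (b (l 3) (l
      0)))), (-2, (b (b (b (b (l 1) (l 0)) (l 0)) (b (l 2) (l 0))) (l 3))), (1, (b (b (l 1) (b
      (l 3) (l 0))) (b (b (l 2) (l 0)) (l 0)))), (2, (b (b (b (l 1) (l 0)) (l 3)) (b (b (l 2)
      (l 0)) (l 0)))), (1, (b (b (b (b (l 1) (l 0)) (l 0)) (b (l 3) (l 0))) (l 2))), (2, (b (b
      (b (b (l 1) (l 0)) (l 0)) (l 3)) (b (l 2) (l 0)))), (-1, (b (b (b (l 1) (l 0)) (b (l 2)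
      (l 0))) (b (l 3) (l 0)))), (2, (b (b (b (l 1) (l 0)) (b (l 3) (l 0))) (b (l 2) (l 0))))]]

/-- The components of the relations of the level (2, 4). -/
def FA : List Cb :=
  [[(1, (b (b (b (b (l 1) (l 0)) (l 0)) (l 0)) (b (l 2) (l 0)))), (1, (b (b (l 1) (l 0)) (b (b (b
      (l 2) (l 0)) (l 0)) (l 0))))],
  [(1, (b (b (b (l 1) (l 0)) (l 0)) (b (b (l 2) (l 0)) (l 0))))],
  [(1, (b (b (b (b (l 1) (l 0)) (l 0)) (l 0)) (b (l 2) (l 0)))), (1, (b (b (l 1) (l 0)) (b (b
      (b (l 2) (l 0)) (l 0)) (l 0)))), (2, (b (b (b (l 1) (l 0)) (l 0)) (b (b (l 2) (l 0)) (l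
      0))))]]

/-- The components of the relations of the level (4, 2). -/
def FC : List Cb :=
  [[(-1, (b (b (b (b (b (l 1) (l 0)) (l 0)) (l 2)) (l 3)) (l 4))), (-1, (b (b (b (b (l 1) (l 0))
      (l 2)) (b (l 3) (l 0))) (l 4))), (-1, (b (b (b (l 1) (b (l 2) (l 0))) (b (l 3) (l 0))) (l
      4))), (1, (b (b (b (b (l 1) (l 0)) (l 2)) (l 4)) (b (l 3) (l 0)))), (1, (b (b (b (l 1) (b
      (l 2) (l 0))) (l 4)) (b (l 3) (l 0)))), (1, (b (b (b (l 1) (l 2)) (l 4)) (b (b (l 3) (l
      0)) (l 0)))), (1, (b (b (b (b (b (l 1) (l 0)) (l 0)) (l 3)) (l 2)) (l 4))), (1, (b (b (b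
      (b (l 1) (l 0)) (l 3)) (b (l 2) (l 0))) (l 4))), (1, (b (b (b (l 1) (b (l 3) (l 0))) (b
      (l 2) (l 0))) (l 4))), (-1, (b (b (b (b (l 1) (l 0)) (l 3)) (l 4)) (b (l 2) (l 0)))),
      (-1, (b (b (b (l 1) (l 3)) (l 4)) (b (b (l 2) (l 0)) (l 0)))), (-1, (b (b (b (l 1) (b (l
      3) (l 0))) (l 4)) (b (l 2) (l 0)))), (1, (b (b (b (b (b (l 1) (l 0)) (l 0)) (l 4)) (l 2))
      (l 3))), (1, (b (b (b (b (l 1) (l 0)) (l 4)) (b (l 2) (l 0))) (l 3))), (1, (b (b (b (b (l
      1) (l 0)) (l 4)) (l 2)) (b (l 3) (l 0)))), (-1, (b (b (b (b (b (l 1) (l 0)) (l 0)) (l 4))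
      (l 3)) (l 2))), (-1, (b (b (b (b (l 1) (l 0)) (l 4)) (l 3)) (b (l 2) (l 0)))), (-1, (b (b
      (b (b (l 1) (l 0)) (l 4)) (b (l 3) (l 0))) (l 2)))],
  [(3, (b (b (b (b (l 1) (l 0)) (b (l 2) (l 0))) (l 3)) (l 4))), (4, (b (b (b (b (l 1) (l 0))
      (l 2)) (l 3)) (b (l 4) (l 0)))), (1, (b (b (b (l 1) (l 2)) (b (l 3) (l 0))) (b (l 4) (l
      0)))), (-3, (b (b (b (b (l 1) (l 0)) (b (l 2) (l 0))) (l 4)) (l 3))), (-5, (b (b (b (l 1)
      (l 2)) (b (l 4) (l 0))) (b (l 3) (l 0)))), (-3, (b (b (b (b (l 1) (l 0)) (b (l 3) (l 0)))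
      (l 2)) (l 4))), (-4, (b (b (b (b (l 1) (l 0)) (l 3)) (l 2)) (b (l 4) (l 0)))), (-1, (b (b
      (b (l 1) (l 3)) (b (l 2) (l 0))) (b (l 4) (l 0)))), (3, (b (b (b (b (l 1) (l 0)) (b (l 3)
      (l 0))) (l 4)) (l 2))), (5, (b (b (b (l 1) (l 3)) (b (l 4) (l 0))) (b (l 2) (l 0)))),
      (-5, (b (b (b (b (l 1) (l 0)) (b (l 4) (l 0))) (l 2)) (l 3))), (-3, (b (b (b (l 1) (l 4))
      (b (l 2) (l 0))) (b (l 3) (l 0)))), (5, (b (b (b (b (l 1) (l 0)) (b (l 4) (l 0))) (l 3))
      (l 2))), (3, (b (b (b (l 1) (l 4)) (b (l 3) (l 0))) (b (l 2) (l 0))))]]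

end Pool.Agent.Lib.MP_b4a71d_al.Eng
end

section

/-!
# T-ideals and varieties
-/

set_option autoImplicit false

namespace Pool.Agent.Lib.MP_b4a71d_al

universe u

noncomputable section

variable (F : Type u) [Field F]

/-- A T-ideal: a Lie ideal of the free Lie algebra which is stable under all endomorphisms. -/
structure IsTIdeal (I : Submodule F (FL F)) : Prop where
  lie_mem : ∀ f ∈ I, ∀ g, ⁅f, g⁆ ∈ I
  map_mem : ∀ (φ : FL F →ₗ⁅F⁆ FL F), ∀ f ∈ I, φ f ∈ I

/-- The identities of a class of Lie algebras, as a subspace of the free Lie algebra. -/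
def idl (V : Set (LieAlg F)) : Submodule F (FL F) where
  carrier := identities F V
  add_mem' := by
    intro a b ha hb A hA φ
    rw [map_add, ha A hA φ, hb A hA φ, add_zero]
  zero_mem' := by
    intro A hA φ
    rw [map_zero]
  smul_mem' := by
    intro c a ha A hA φ
    rw [map_smul, ha A hA φ, smul_zero]

variable {F}

@[simp] theorem mem_idl {V : Set (LieAlg F)} {f : FL F} : f ∈ idl F V ↔ f ∈ identities F V :=
  Iff.rfl

theorem idl_isTIdeal (V : Set (LieAlg F)) : IsTIdeal F (idl F V) where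
  lie_mem := by
    intro f hf g A hA φ
    rw [LieHom.map_lie, hf A hA φ, zero_lie]
  map_mem := by
    intro ψ f hf A hA φ
    exact hf A hA (φ.comp ψ)

theorem IsTIdeal.lie_mem' {I : Submodule F (FL F)} (hI : IsTIdeal F I) {f : FL F} (hf : f ∈ I)
    (g : FL F) : ⁅g, f⁆ ∈ I := by
  rw [← lie_skew]
  exact I.neg_mem (hI.lie_mem f hf g)

/-- The Lie ideal underlying a T-ideal. -/
def IsTIdeal.toLieIdeal {I : Submodule F (FL F)} (hI : IsTIdeal F I) : LieIdeal F (FL F) :=
  { I with lie_mem := fun {x m} hm => hI.lie_mem' hm x }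

theorem IsTIdeal.mem_toLieIdeal {I : Submodule F (FL F)} (hI : IsTIdeal F I) (f : FL F) :
    f ∈ hI.toLieIdeal ↔ f ∈ I := Iff.rfl

/-- The relatively free algebra. -/
def IsTIdeal.relFree {I : Submodule F (FL F)} (hI : IsTIdeal F I) : LieAlg F :=
  ⟨FL F ⧸ hI.toLieIdeal⟩

/-- The canonical map to the relatively free algebra. -/
def IsTIdeal.proj {I : Submodule F (FL F)} (hI : IsTIdeal F I) :
    FL F →ₗ⁅F⁆ hI.relFree.carrier :=
  { LieSubmodule.Quotient.mk' hI.toLieIdeal with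
    map_lie' := fun {x y} => rfl }

theorem IsTIdeal.proj_surjective {I : Submodule F (FL F)} (hI : IsTIdeal F I) :
    Function.Surjective hI.proj :=
  LieSubmodule.Quotient.surjective_mk' hI.toLieIdeal

theorem IsTIdeal.proj_eq_zero {I : Submodule F (FL F)} (hI : IsTIdeal F I) (f : FL F) :
    hI.proj f = 0 ↔ f ∈ I :=
  LieSubmodule.Quotient.mk_eq_zero (N := hI.toLieIdeal) (m := f)

theorem IsTIdeal.relFree_mem {I : Submodule F (FL F)} (hI : IsTIdeal F I) :
    hI.relFree ∈ models F (I : Set (FL F)) := by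
  intro f hf φ
  have h : ∀ i : ℕ, ∃ g : FL F, hI.proj g = φ (X F i) := fun i => hI.proj_surjective _
  choose g hg using h
  have : φ = hI.proj.comp (FreeLieAlgebra.lift F g) := by
    apply FreeLieAlgebra.hom_ext
    intro x
    rw [LieHom.comp_apply, FreeLieAlgebra.lift_of_apply, hg]
  rw [this, LieHom.comp_apply, hI.proj_eq_zero]
  exact hI.map_mem _ f hf

theorem identities_models {I : Submodule F (FL F)} (hI : IsTIdeal F I) :
    identities F (models F (I : Set (FL F))) = I := by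
  apply Set.Subset.antisymm
  · intro f hf
    have := hf hI.relFree hI.relFree_mem hI.proj
    exact (hI.proj_eq_zero f).1 this
  · intro f hf A hA
    exact hA f hf

theorem idl_models {I : Submodule F (FL F)} (hI : IsTIdeal F I) :
    idl F (models F (I : Set (FL F))) = I :=
  SetLike.coe_injective (identities_models hI)

theorem models_identities {V : Set (LieAlg F)} (hV : IsVariety F V) :
    models F (identities F V) = V := by
  obtain ⟨S, rfl⟩ := hV
  apply Set.Subset.antisymm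
  · intro A hA f hf
    exact hA f (fun B hB => hB f hf)
  · intro A hA f hf
    exact hf A hA

theorem isVariety_models (S : Set (FL F)) : IsVariety F (models F S) := ⟨S, rfl⟩

theorem identities_anti {V W : Set (LieAlg F)} (h : V ⊆ W) : identities F W ⊆ identities F V :=
  fun _ hf A hA => hf A (h hA)

theorem models_anti {S T : Set (FL F)} (h : S ⊆ T) : models F T ⊆ models F S :=
  fun _ hA f hf => hA f (h hf)

theorem idl_anti {V W : Set (LieAlg F)} (h : V ⊆ W) : idl F W ≤ idl F V :=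
  identities_anti h

theorem isVariety_vjoin (V W : Set (LieAlg F)) :
    vjoin F V W = models F (identities F V ∩ identities F W) := by
  apply Set.Subset.antisymm
  · apply Set.sInter_subset_of_mem
    refine ⟨isVariety_models _, ?_, ?_⟩
    · intro A hA f hf
      exact hf.1 A hA
    · intro A hA f hf
      exact hf.2 A hA
  · rintro A hA U ⟨⟨S, rfl⟩, hV, hW⟩ f hf
    exact hA f ⟨fun B hB => hV hB f hf, fun B hB => hW hB f hf⟩

theorem IsTIdeal.inf {I J : Submodule F (FL F)} (hI : IsTIdeal F I) (hJ : IsTIdeal F J) :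
    IsTIdeal F (I ⊓ J) where
  lie_mem f hf g := ⟨hI.lie_mem f hf.1 g, hJ.lie_mem f hf.2 g⟩
  map_mem φ f hf := ⟨hI.map_mem φ f hf.1, hJ.map_mem φ f hf.2⟩

theorem IsTIdeal.sup {I J : Submodule F (FL F)} (hI : IsTIdeal F I) (hJ : IsTIdeal F J) :
    IsTIdeal F (I ⊔ J) where
  lie_mem f hf g := by
    obtain ⟨a, ha, b, hb, rfl⟩ := Submodule.mem_sup.1 hf
    rw [add_lie]
    exact Submodule.add_mem_sup (hI.lie_mem a ha g) (hJ.lie_mem b hb g)
  map_mem φ f hf := by
    obtain ⟨a, ha, b, hb, rfl⟩ := Submodule.mem_sup.1 hf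
    rw [map_add]
    exact Submodule.add_mem_sup (hI.map_mem φ a ha) (hJ.map_mem φ b hb)

theorem isTIdeal_top : IsTIdeal F (⊤ : Submodule F (FL F)) where
  lie_mem _ _ _ := Submodule.mem_top
  map_mem _ _ _ := Submodule.mem_top

theorem isTIdeal_bot : IsTIdeal F (⊥ : Submodule F (FL F)) where
  lie_mem f hf g := by
    rw [Submodule.mem_bot] at hf ⊢
    rw [hf, zero_lie]
  map_mem φ f hf := by
    rw [Submodule.mem_bot] at hf ⊢
    rw [hf, map_zero]

theorem isTIdeal_sInf {S : Set (Submodule F (FL F))} (hS : ∀ I ∈ S, IsTIdeal F I) :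
    IsTIdeal F (sInf S) where
  lie_mem f hf g := by
    rw [Submodule.mem_sInf] at hf ⊢
    exact fun I hI => (hS I hI).lie_mem f (hf I hI) g
  map_mem φ f hf := by
    rw [Submodule.mem_sInf] at hf ⊢
    exact fun I hI => (hS I hI).map_mem φ f (hf I hI)

/-- The T-ideal generated by a set. -/
def genT (S : Set (FL F)) : Submodule F (FL F) :=
  sInf {I | IsTIdeal F I ∧ S ⊆ I}

theorem genT_isTIdeal (S : Set (FL F)) : IsTIdeal F (genT S) :=
  isTIdeal_sInf (fun _ hI => hI.1)

theorem subset_genT (S : Set (FL F)) : S ⊆ (genT S : Set (FL F)) := by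
  intro f hf
  rw [SetLike.mem_coe, genT, Submodule.mem_sInf]
  exact fun I hI => hI.2 hf

theorem genT_le {S : Set (FL F)} {I : Submodule F (FL F)} (hI : IsTIdeal F I)
    (h : S ⊆ (I : Set (FL F))) : genT S ≤ I :=
  sInf_le ⟨hI, h⟩

theorem idl_models_eq_genT (S : Set (FL F)) : idl F (models F S) = genT S := by
  apply le_antisymm
  · intro f hf
    have h1 : models F (genT S : Set (FL F)) ⊆ models F S := models_anti (subset_genT S)
    have h2 : f ∈ identities F (models F (genT S : Set (FL F))) := identities_anti h1 hf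
    rwa [identities_models (genT_isTIdeal S)] at h2
  · exact genT_le (idl_isTIdeal _) (fun f hf A hA => hA f hf)

theorem idl_degPart (d : ℕ) (V : Set (LieAlg F)) :
    idl F (degPart F d V) = genT ((idl F V ⊓ DegLE F d : Submodule F (FL F)) : Set (FL F)) :=
  idl_models_eq_genT _

theorem isVariety_degPart (d : ℕ) (V : Set (LieAlg F)) : IsVariety F (degPart F d V) :=
  isVariety_models _

/-- The lattice of T-ideals containing `T` is distributive. -/
def DistT (T : Submodule F (FL F)) : Prop :=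
  ∀ A B C : Submodule F (FL F), IsTIdeal F A → IsTIdeal F B → IsTIdeal F C →
    T ≤ A → T ≤ B → T ≤ C → A ⊓ (B ⊔ C) ≤ (A ⊓ B) ⊔ (A ⊓ C)

theorem models_sup (I J : Submodule F (FL F)) :
    models F ((I ⊔ J : Submodule F (FL F)) : Set (FL F)) =
      models F (I : Set (FL F)) ∩ models F (J : Set (FL F)) := by
  apply Set.Subset.antisymm
  · intro A hA
    exact ⟨fun f hf => hA f (Submodule.mem_sup_left hf),
      fun f hf => hA f (Submodule.mem_sup_right hf)⟩
  · rintro A ⟨hA, hB⟩ f hf φ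
    obtain ⟨a, ha, b, hb, rfl⟩ := Submodule.mem_sup.1 hf
    rw [map_add, hA a ha φ, hB b hb φ, add_zero]

theorem models_coe_idl {V : Set (LieAlg F)} (hV : IsVariety F V) :
    models F (idl F V : Set (FL F)) = V := models_identities hV

theorem models_injOn {I J : Submodule F (FL F)} (hI : IsTIdeal F I) (hJ : IsTIdeal F J)
    (h : models F (I : Set (FL F)) = models F (J : Set (FL F))) : I = J := by
  rw [← idl_models hI, ← idl_models hJ, h]

theorem vjoin_models (I J : Submodule F (FL F)) (hI : IsTIdeal F I) (hJ : IsTIdeal F J) :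
    vjoin F (models F (I : Set (FL F))) (models F (J : Set (FL F))) =
      models F ((I ⊓ J : Submodule F (FL F)) : Set (FL F)) := by
  rw [isVariety_vjoin, identities_models hI, identities_models hJ]
  rfl

/-- Distributivity of the lattice of subvarieties, in terms of T-ideals. -/
theorem isDistributive_iff {V : Set (LieAlg F)} (hV : IsVariety F V) :
    IsDistributive F V ↔ DistT (idl F V) := by
  have hT := idl_isTIdeal V
  -- the other distributive law
  have key : IsDistributive F V ↔ ∀ A B C : Submodule F (FL F), IsTIdeal F A → IsTIdeal F B →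
      IsTIdeal F C → idl F V ≤ A → idl F V ≤ B → idl F V ≤ C →
      A ⊔ (B ⊓ C) = (A ⊔ B) ⊓ (A ⊔ C) := by
    constructor
    · intro h A B C hA hB hC hTA hTB hTC
      have hsub : ∀ I : Submodule F (FL F), idl F V ≤ I → models F (I : Set (FL F)) ⊆ V := by
        intro I hI
        rw [← models_coe_idl hV]
        exact models_anti hI
      have := h _ _ _ (isVariety_models (A : Set (FL F))) (isVariety_models (B : Set (FL F)))
        (isVariety_models (C : Set (FL F))) (hsub A hTA) (hsub B hTB) (hsub C hTC)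
      rw [vjoin_models B C hB hC, ← models_sup, ← models_sup, ← models_sup,
        vjoin_models _ _ (hA.sup hB) (hA.sup hC)] at this
      exact models_injOn (hA.sup (hB.inf hC)) ((hA.sup hB).inf (hA.sup hC)) this
    · intro h A B C hA hB hC hAV hBV hCV
      have := h _ _ _ (idl_isTIdeal A) (idl_isTIdeal B) (idl_isTIdeal C) (idl_anti hAV)
        (idl_anti hBV) (idl_anti hCV)
      have h2 := congrArg (fun I : Submodule F (FL F) => models F (I : Set (FL F))) this
      beta_reduce at h2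
      rw [models_sup, ← vjoin_models _ _ (idl_isTIdeal B) (idl_isTIdeal C),
        ← vjoin_models _ _ ((idl_isTIdeal A).sup (idl_isTIdeal B))
          ((idl_isTIdeal A).sup (idl_isTIdeal C)), models_sup, models_sup,
        models_coe_idl hA, models_coe_idl hB, models_coe_idl hC] at h2
      exact h2
  rw [key]
  constructor
  · intro h A B C hA hB hC hTA hTB hTC
    have h1 := h (A ⊓ B) A C (hA.inf hB) hA hC (le_inf hTA hTB) hTA hTC
    have h2 := h C A B hC hA hB hTC hTA hTB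
    rw [h1]
    refine le_inf ?_ ?_
    · exact le_trans inf_le_left le_sup_right
    · have h3 : (A ⊓ B) ⊔ C = (C ⊔ A) ⊓ (C ⊔ B) := by rw [sup_comm, h2]
      rw [h3]
      refine le_inf (le_trans inf_le_left le_sup_right) ?_
      exact le_trans inf_le_right (by rw [sup_comm])
  · intro h A B C hA hB hC hTA hTB hTC
    apply le_antisymm
    · refine le_inf (sup_le_sup_left inf_le_left A) (sup_le_sup_left inf_le_right A)
    · have h1 := h (A ⊔ B) A C (hA.sup hB) hA hC (le_trans hTA le_sup_left) hTA hTC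
      refine le_trans h1 (sup_le (le_trans inf_le_right le_sup_left) ?_)
      rw [inf_comm]
      refine le_trans (h C A B hC hA hB hTC hTA hTB) (sup_le (le_trans inf_le_right le_sup_left) ?_)
      rw [inf_comm]
      exact le_sup_right

end

end Pool.Agent.Lib.MP_b4a71d_al
end
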