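import Mathlib
import Pool.Agent.Lib.MP_b4a71d_al.Ops
import Pool.Agent.Lib.MP_b4a71d_al.Eng.Glue
import Pool.Agent.Lib.MP_b4a71d_al.TIdeal
import Pool.Agent.Lib.MP_b4a71d_al.LevelTwo

section

/-!
# The point H: consequences of J1 in an arbitrary Lie algebra
-/

set_option autoImplicit false

namespace Pool.Agent.Lib.MP_b4a71d_al

variable {F : Type*} [Field F] [CharZero F] {A : Type*} [LieRing A] [LieAlgebra F A]

/-- J1 linearised: `p(a,b,c,d,e,f) : ⁅⁅⁅a,b⁆,c⁆,⁅⁅d,e⁆,f⁆⁆ + ⁅⁅⁅a,b⁆,f⁆,⁅⁅d,e⁆,c⁆⁆ = 0`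
(replace `z` by `c + f`). -/
theorem J1_lin (h : ∀ a b d e z : A, ⁅⁅⁅a, b⁆, z⁆, ⁅⁅d, e⁆, z⁆⁆ = 0) (a b c d e f : A) :
    ⁅⁅⁅a, b⁆, c⁆, ⁅⁅d, e⁆, f⁆⁆ + ⁅⁅⁅a, b⁆, f⁆, ⁅⁅d, e⁆, c⁆⁆ = 0 := by
  have h1 := h a b d e (c + f)
  rw [lie_add, lie_add, lie_add, add_lie, add_lie, h a b d e c, h a b d e f, zero_add,
    add_zero] at h1
  rw [add_comm]
  exact h1

theorem HLieA_jac (x y z : A) : ⁅⁅x, y⁆, z⁆ + ⁅⁅y, z⁆, x⁆ + ⁅⁅z, x⁆, y⁆ = 0 := by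
  have h := lie_jacobi x y z
  rw [← lie_skew ⁅x, y⁆ z, ← lie_skew ⁅y, z⁆ x, ← lie_skew ⁅z, x⁆ y]
  rw [← neg_eq_zero]
  have e : -(-⁅z, ⁅x, y⁆⁆ + -⁅x, ⁅y, z⁆⁆ + -⁅y, ⁅z, x⁆⁆) = ⁅x, ⁅y, z⁆⁆ + ⁅y, ⁅z, x⁆⁆ + ⁅z, ⁅x, y⁆⁆ := by
    abel
  rw [e]
  exact h

include F in
/-- J2.  Write `q(a,b,c,d,e,f) = ⁅⁅⁅a,b⁆,c⁆,⁅⁅d,e⁆,f⁆⁆` and `p = 0` for the instances of
`J1_lin`.  Modulo the Jacobi identity `q(a,b,c,d,e,f) + q(a,b,c,e,f,d) + q(a,b,c,f,d,e) = 0`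
(and the same in the first bracket) one has
`2 (q(a,b,c,d,e,f) - q(a,b,d,c,f,e)) = p(a,b,c,d,e,f) + p(a,b,c,d,f,e) - p(a,b,c,e,f,d)
  - p(a,b,d,c,e,f) - p(a,b,d,c,f,e) + p(a,b,e,c,d,f)`
(computed by machine, coefficients checked). -/
theorem J2_of_J1 (h : ∀ a b d e z : A, ⁅⁅⁅a, b⁆, z⁆, ⁅⁅d, e⁆, z⁆⁆ = 0) (a b c d e f : A) :
    ⁅⁅⁅a, b⁆, c⁆, ⁅⁅d, e⁆, f⁆⁆ = ⁅⁅⁅a, b⁆, d⁆, ⁅⁅c, f⁆, e⁆⁆ := by
  obtain ⟨Q, hQ⟩ : ∃ Q : A → A → A → A → A, Q = fun c d e f => ⁅⁅⁅a, b⁆, c⁆, ⁅⁅d, e⁆, f⁆⁆ :=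
    ⟨_, rfl⟩
  have sk : ∀ c d e f, Q c e d f = - Q c d e f := by
    intro c d e f
    rw [hQ]
    show ⁅⁅⁅a, b⁆, c⁆, ⁅⁅e, d⁆, f⁆⁆ = - ⁅⁅⁅a, b⁆, c⁆, ⁅⁅d, e⁆, f⁆⁆
    rw [← lie_skew e d, neg_lie, lie_neg]
  have ja : ∀ c d e f, Q c d e f + Q c e f d + Q c f d e = 0 := by
    intro c d e f
    rw [hQ]
    show ⁅⁅⁅a, b⁆, c⁆, ⁅⁅d, e⁆, f⁆⁆ + ⁅⁅⁅a, b⁆, c⁆, ⁅⁅e, f⁆, d⁆⁆ + ⁅⁅⁅a, b⁆, c⁆, ⁅⁅f, d⁆, e⁆⁆ = 0
    rw [← lie_add, ← lie_add, HLieA_jac, lie_zero]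
  have li : ∀ c d e f, Q c d e f + Q f d e c = 0 := by
    intro c d e f
    rw [hQ]
    exact J1_lin h a b c d e f
  have e1 : ⁅⁅⁅a, b⁆, c⁆, ⁅⁅d, e⁆, f⁆⁆ = Q c d e f := by rw [hQ]
  have e2 : ⁅⁅⁅a, b⁆, d⁆, ⁅⁅c, f⁆, e⁆⁆ = Q d c f e := by rw [hQ]
  rw [e1, e2]
  have h2 : (2 : F) • (Q c d e f - Q d c f e) = 0 := by
    linear_combination (norm := module) li c d e f + li c d f e - li c e f d - li d c e f - li d c f e
      + li e c d f + ja c d e f - sk c d f e - ja f d e c + sk f c e d - ja e d f c + sk e c f d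
      + ja d e f c - sk d c f e
  rcases smul_eq_zero.1 h2 with h3 | h3
  · exact absurd h3 two_ne_zero
  · exact sub_eq_zero.1 h3

include F in
/-- F1.  By J1, J2 the value `q(a,b,c,d,e,f) = ⟨ab, de, cf⟩` is symmetric in the three pairs
(`(ab) ↔ (de)`: `q(a,b,c,d,e,f) = - q(a,b,f,d,e,c) = q(d,e,c,a,b,f)`; `(de) ↔ (cf)`: J2).
`Φ(ag; de; cf) = q(⁅a,g⁆,b,c,d,e,f) = ⟨⁅a,g⁆ b, de, cf⟩ = ⟨de, cf, ⁅a,g⁆ b⟩
= ⁅⁅⁅d,e⁆,⁅a,g⁆⁆, ⁅⁅c,f⁆,b⁆⁆` is symmetric in `(de) ↔ (cf)` and antisymmetric in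
`(ag) ↔ (de)`, hence zero (the transpositions `s1 s2 s1 = s2 s1 s2` give `Φ = - Φ`). -/
theorem F1_of_J1 (h : ∀ a b d e z : A, ⁅⁅⁅a, b⁆, z⁆, ⁅⁅d, e⁆, z⁆⁆ = 0) (a g b c d e f : A) :
    ⁅⁅⁅⁅a, g⁆, b⁆, c⁆, ⁅⁅d, e⁆, f⁆⁆ = 0 := by
  have s1 : ∀ a b c d e f : A, ⁅⁅⁅a, b⁆, c⁆, ⁅⁅d, e⁆, f⁆⁆ = ⁅⁅⁅d, e⁆, c⁆, ⁅⁅a, b⁆, f⁆⁆ := by
    intro a b c d e f
    have h1 := J1_lin h a b c d e f
    rw [← lie_skew ⁅⁅a, b⁆, f⁆ ⁅⁅d, e⁆, c⁆] at h1
    exact add_neg_eq_zero.1 h1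
  have s2 : ∀ a b c d e f : A, ⁅⁅⁅a, b⁆, c⁆, ⁅⁅d, e⁆, f⁆⁆ = ⁅⁅⁅a, b⁆, d⁆, ⁅⁅c, f⁆, e⁆⁆ :=
    J2_of_J1 (F := F) h
  -- `Φ a g b c d e f = ⟨⁅a,g⁆ b, d e, c f⟩`
  obtain ⟨Φ, hΦ⟩ : ∃ Φ : A → A → A → A → A → A → A → A,
      Φ = fun a g d e c f b => ⁅⁅⁅⁅a, g⁆, b⁆, c⁆, ⁅⁅d, e⁆, f⁆⁆ := ⟨_, rfl⟩
  have t2 : ∀ a g d e c f b, Φ a g d e c f b = Φ a g c f d e b := by
    intro a g d e c f b
    rw [hΦ]
    exact s2 _ _ _ _ _ _
  have t1 : ∀ a g d e c f b, Φ a g d e c f b = - Φ d e a g c f b := by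
    intro a g d e c f b
    rw [hΦ]
    show ⁅⁅⁅⁅a, g⁆, b⁆, c⁆, ⁅⁅d, e⁆, f⁆⁆ = - ⁅⁅⁅⁅d, e⁆, b⁆, c⁆, ⁅⁅a, g⁆, f⁆⁆
    have e1 : ∀ a g d e c f b : A, ⁅⁅⁅⁅a, g⁆, b⁆, c⁆, ⁅⁅d, e⁆, f⁆⁆ =
        ⁅⁅⁅d, e⁆, ⁅a, g⁆⁆, ⁅⁅c, f⁆, b⁆⁆ := by
      intro a g d e c f b
      rw [s1, s2]
    rw [e1, e1, ← lie_skew ⁅d, e⁆ ⁅a, g⁆, neg_lie]
  have e1 : ⁅⁅⁅⁅a, g⁆, b⁆, c⁆, ⁅⁅d, e⁆, f⁆⁆ = Φ a g d e c f b := by rw [hΦ]
  rw [e1]
  have e2 : Φ a g d e c f b = - Φ a g d e c f b := by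
    calc Φ a g d e c f b = - Φ d e a g c f b := t1 _ _ _ _ _ _ _
      _ = - Φ d e c f a g b := by rw [t2]
      _ = Φ c f d e a g b := by rw [t1 d e c f, neg_neg]
      _ = Φ c f a g d e b := by rw [t2]
      _ = - Φ a g c f d e b := t1 _ _ _ _ _ _ _
      _ = - Φ a g d e c f b := by rw [t2]
  have h2 : (2 : F) • Φ a g d e c f b = 0 := by
    linear_combination (norm := module) e2
  rcases smul_eq_zero.1 h2 with h3 | h3
  · exact absurd h3 two_ne_zero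
  · exact h3

end Pool.Agent.Lib.MP_b4a71d_al
end

section

/-!
# The point H: consequences of F4 in an arbitrary Lie algebra
-/

set_option autoImplicit false

namespace Pool.Agent.Lib.MP_b4a71d_al

variable {F : Type*} [Field F] [CharZero F] {A : Type*} [LieRing A] [LieAlgebra F A]

/-- E1: F4 with `y` replaced by `⁅y, v⁆`. -/
theorem E1_of_F4 (h4 : ∀ y z w x : A, ⁅⁅⁅y, x⁆, ⁅z, x⁆⁆, ⁅w, x⁆⁆ = 0) (y v z w x : A) :
    ⁅⁅⁅⁅y, v⁆, x⁆, ⁅z, x⁆⁆, ⁅w, x⁆⁆ = 0 := h4 _ _ _ _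

/-- Commutators of letters commute on the third term of the lower central series. -/
theorem comm_C (h33 : ∀ a b c d e f : A, ⁅⁅⁅a, b⁆, c⁆, ⁅⁅d, e⁆, f⁆⁆ = 0) (p q r a b c d : A) :
    ⁅⁅⁅⁅p, q⁆, r⁆, ⁅a, b⁆⁆, ⁅c, d⁆⁆ = ⁅⁅⁅⁅p, q⁆, r⁆, ⁅c, d⁆⁆, ⁅a, b⁆⁆ := by
  have h1 := leibniz_lie ⁅⁅p, q⁆, r⁆ ⁅a, b⁆ ⁅c, d⁆
  rw [h33 p q r a b ⁅c, d⁆, ← lie_skew ⁅a, b⁆ ⁅⁅⁅p, q⁆, r⁆, ⁅c, d⁆⁆] at h1
  have h2 : ⁅⁅⁅⁅p, q⁆, r⁆, ⁅a, b⁆⁆, ⁅c, d⁆⁆ - ⁅⁅⁅⁅p, q⁆, r⁆, ⁅c, d⁆⁆, ⁅a, b⁆⁆ = 0 := by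
    rw [sub_eq_add_neg]; exact h1.symm
  exact sub_eq_zero.mp h2

include F in
/-- F4 linearised in `x`, one argument different (`x → x + v`, `x → x - v`; char 0; the term of
degree 3 in `v` is zero by `h4`). -/
theorem F4_lin (h4 : ∀ y z w x : A, ⁅⁅⁅y, x⁆, ⁅z, x⁆⁆, ⁅w, x⁆⁆ = 0) (y z w x v : A) :
    ⁅⁅⁅y, v⁆, ⁅z, x⁆⁆, ⁅w, x⁆⁆ + ⁅⁅⁅y, x⁆, ⁅z, v⁆⁆, ⁅w, x⁆⁆ + ⁅⁅⁅y, x⁆, ⁅z, x⁆⁆, ⁅w, v⁆⁆
      = 0 := by
  have hp := h4 y z w (x + v)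
  have hm := h4 y z w (x - v)
  have h0 := h4 y z w x
  have h3 := h4 y z w v
  simp only [lie_add, add_lie, lie_sub, sub_lie] at hp hm
  linear_combination (norm := module) (1/2 : F) • hp - (1/2 : F) • hm - (1 : F) • h3

include F in
/-- The linear algebra of F2 (Petersen graph). -/
private theorem HLieB_petersen (G : A → A → A → A → A → A)
    (s1 : ∀ y z w a b, G y z w a b = G z y w a b) (s2 : ∀ y z w a b, G y z w a b = G y w z a b)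
    (R : ∀ x1 x2 x3 z w, G x1 z w x2 x3 + G x2 z w x1 x3 + G x3 z w x1 x2 = 0)
    (x1 x2 x3 x4 x5 : A) : G x3 x4 x5 x1 x2 = 0 := by
  have r123 := R x1 x2 x3 x4 x5
  have r124 := R x1 x2 x4 x3 x5
  rw [s1 x4 x3 x5 x1 x2] at r124
  have r125 := R x1 x2 x5 x3 x4
  rw [s1 x5 x3 x4 x1 x2, s2 x3 x5 x4 x1 x2] at r125
  have r134 := R x1 x3 x4 x2 x5
  rw [s1 x3 x2 x5 x1 x4, s1 x4 x2 x5 x1 x3] at r134
  have r135 := R x1 x3 x5 x2 x4
  rw [s1 x3 x2 x4 x1 x5, s1 x5 x2 x4 x1 x3, s2 x2 x5 x4 x1 x3] at r135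
  have r145 := R x1 x4 x5 x2 x3
  rw [s1 x4 x2 x3 x1 x5, s2 x2 x4 x3 x1 x5, s1 x5 x2 x3 x1 x4, s2 x2 x5 x3 x1 x4] at r145
  have r234 := R x2 x3 x4 x1 x5
  rw [s1 x2 x1 x5 x3 x4, s1 x3 x1 x5 x2 x4, s1 x4 x1 x5 x2 x3] at r234
  have r235 := R x2 x3 x5 x1 x4
  rw [s1 x2 x1 x4 x3 x5, s1 x3 x1 x4 x2 x5, s1 x5 x1 x4 x2 x3, s2 x1 x5 x4 x2 x3] at r235
  have r245 := R x2 x4 x5 x1 x3
  rw [s1 x2 x1 x3 x4 x5, s1 x4 x1 x3 x2 x5, s2 x1 x4 x3 x2 x5, s1 x5 x1 x3 x2 x4, s2 x1 x5 x3 x2 x4] at r245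
  have r345 := R x3 x4 x5 x1 x2
  rw [s1 x3 x1 x2 x4 x5, s2 x1 x3 x2 x4 x5, s1 x4 x1 x2 x3 x5, s2 x1 x4 x2 x3 x5, s1 x5 x1 x2 x3 x4, s2 x1 x5 x2 x3 x4] at r345
  linear_combination (norm := module) (1/3 : F) • r123 + (1/3 : F) • r124 + (1/3 : F) • r125 - (1/6 : F) • r134 - (1/6 : F) • r135 - (1/6 : F) • r145 - (1/6 : F) • r234 - (1/6 : F) • r235 - (1/6 : F) • r245 + (1/3 : F) • r345

include F in
/-- F2.  Write `m = ⁅⁅p,q⁆,y⁆`, `C(a,b) = ⁅·,⁅a,b⁆⁆`.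
Linearise F4 in `x` (the coefficient of `x'`, `x → x + x'`, `x → x - x'`, `x → x + 2 x'`; char 0)
and put `x' = ⁅p,q⁆`: `⁅⁅p,q⁆,y⁆ C(z,x) C(w,x) = ⁅⁅p,q⁆,z⁆ C(y,x) C(w,x)` (the third term is in
`⁅γ₃,γ₃⁆`).  With `comm_C`: `Ξ(y,z,w;x) = ⁅⁅p,q⁆,y⁆ C(z,x) C(w,x)` is symmetric in `y, z, w`.
Linearise in `x`: `G(y,z,w;x1,x2) = ⁅⁅p,q⁆,y⁆ (C(z,x1) C(w,x2) + C(z,x2) C(w,x1))` is symmetric in
`y,z,w` and in `x1,x2`, i.e. a function `F_B` of the 2-subset `B = {x1,x2}` of the five letters.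
E1 linearised in `x` (`x → x1,x2,x3`): `∑_{B ⊂ A} F_B = 0` for every 3-subset `A = {x1,x2,x3}`
(complement `{z,w}`).  Write `R_A` for this sum; then
`F_{12} = (1/3) ∑_{A ⊃ 12} R_A - (1/6) ∑_{|A ∩ 12| = 1} R_A + (1/3) R_{345}`, so `F_B = 0`. -/
theorem F2_of_F4 (h33 : ∀ a b c d e f : A, ⁅⁅⁅a, b⁆, c⁆, ⁅⁅d, e⁆, f⁆⁆ = 0)
    (h4 : ∀ y z w x : A, ⁅⁅⁅y, x⁆, ⁅z, x⁆⁆, ⁅w, x⁆⁆ = 0) (p q y a b c d : A) :
    ⁅⁅⁅⁅p, q⁆, y⁆, ⁅a, b⁆⁆, ⁅c, d⁆⁆ + ⁅⁅⁅⁅p, q⁆, y⁆, ⁅a, d⁆⁆, ⁅c, b⁆⁆ = 0 := by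
  -- `Ξ` is symmetric in `y, z`
  have hX : ∀ y z w x : A, ⁅⁅⁅⁅p, q⁆, y⁆, ⁅z, x⁆⁆, ⁅w, x⁆⁆ = ⁅⁅⁅⁅p, q⁆, z⁆, ⁅y, x⁆⁆, ⁅w, x⁆⁆ := by
    intro y z w x
    have h1 := F4_lin (F := F) h4 y z w x ⁅p, q⁆
    have h2 := h33 y x ⁅z, x⁆ p q w
    rw [← lie_skew w ⁅p, q⁆, lie_neg, h2, neg_zero, add_zero, ← lie_skew y ⁅p, q⁆, neg_lie, neg_lie,
      ← lie_skew ⁅y, x⁆ ⁅z, ⁅p, q⁆⁆, ← lie_skew z ⁅p, q⁆, neg_lie, neg_lie, neg_lie, neg_neg] at h1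
    exact (neg_add_eq_zero.mp h1)
  set G : A → A → A → A → A → A := fun y z w a b =>
    ⁅⁅⁅⁅p, q⁆, y⁆, ⁅z, a⁆⁆, ⁅w, b⁆⁆ + ⁅⁅⁅⁅p, q⁆, y⁆, ⁅z, b⁆⁆, ⁅w, a⁆⁆ with hG
  have s1 : ∀ y z w a b, G y z w a b = G z y w a b := by
    intro y z w a b
    have e1 := hX y z w (a + b)
    have e2 := hX y z w a
    have e3 := hX y z w b
    simp only [lie_add, add_lie] at e1
    simp only [hG]
    linear_combination (norm := module) (1 : F) • e1 - (1 : F) • e2 - (1 : F) • e3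
  have s2 : ∀ y z w a b, G y z w a b = G y w z a b := by
    intro y z w a b
    simp only [hG]
    rw [comm_C h33 p q y z a w b, comm_C h33 p q y z b w a]
    exact add_comm _ _
  have R : ∀ x1 x2 x3 z w, G x1 z w x2 x3 + G x2 z w x1 x3 + G x3 z w x1 x2 = 0 := by
    intro x1 x2 x3 z w
    have e : ∀ x : A, ⁅⁅⁅⁅p, q⁆, x⁆, ⁅z, x⁆⁆, ⁅w, x⁆⁆ = 0 := fun x => h4 _ _ _ _
    have e123 := e (x1 + x2 + x3)
    have e12 := e (x1 + x2)
    have e13 := e (x1 + x3)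
    have e23 := e (x2 + x3)
    have f1 := e x1
    have f2 := e x2
    have f3 := e x3
    simp only [lie_add, add_lie] at e123 e12 e13 e23
    simp only [hG]
    linear_combination (norm := module) (1 : F) • e123 - (1 : F) • e12 - (1 : F) • e13
      - (1 : F) • e23 + (1 : F) • f1 + (1 : F) • f2 + (1 : F) • f3
  exact HLieB_petersen (F := F) G s1 s2 R b d y a c

include F in
/-- `F4_lin` in terms of `⁅⁅⁅·, ·⁆, ⁅·, x⁆⁆, ⁅·, x⁆⁆`. -/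
private theorem HLieB_F4E (h4 : ∀ y z w x : A, ⁅⁅⁅y, x⁆, ⁅z, x⁆⁆, ⁅w, x⁆⁆ = 0) (y z w x v : A) :
    ⁅⁅⁅y, v⁆, ⁅z, x⁆⁆, ⁅w, x⁆⁆ - ⁅⁅⁅z, v⁆, ⁅y, x⁆⁆, ⁅w, x⁆⁆ - ⁅⁅⁅w, v⁆, ⁅y, x⁆⁆, ⁅z, x⁆⁆
      + ⁅⁅⁅w, v⁆, ⁅z, x⁆⁆, ⁅y, x⁆⁆ = 0 := by
  have h1 := F4_lin (F := F) h4 y z w x v
  have h2 := leibniz_lie ⁅w, v⁆ ⁅y, x⁆ ⁅z, x⁆
  rw [← lie_skew ⁅y, x⁆ ⁅z, v⁆, neg_lie, ← lie_skew ⁅⁅y, x⁆, ⁅z, x⁆⁆ ⁅w, v⁆, h2,
    ← lie_skew ⁅y, x⁆ ⁅⁅w, v⁆, ⁅z, x⁆⁆] at h1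
  linear_combination (norm := module) (1 : F) • h1

/-- `⁅⁅a, x⁆, ⁅b, x⁆⁆, ⁅c, d⁆⁆` in the same terms. -/
private theorem HLieB_G (a b c d x : A) : ⁅⁅⁅a, x⁆, ⁅b, x⁆⁆, ⁅c, d⁆⁆ =
    ⁅⁅⁅c, d⁆, ⁅b, x⁆⁆, ⁅a, x⁆⁆ - ⁅⁅⁅c, d⁆, ⁅a, x⁆⁆, ⁅b, x⁆⁆ := by
  have h2 := leibniz_lie ⁅c, d⁆ ⁅a, x⁆ ⁅b, x⁆
  rw [← lie_skew ⁅⁅a, x⁆, ⁅b, x⁆⁆ ⁅c, d⁆, h2, ← lie_skew ⁅a, x⁆ ⁅⁅c, d⁆, ⁅b, x⁆⁆]
  abel

include F in
/-- R4, the four cycle relation.  `G(a,b;c,d) = ⁅⁅⁅a,x⁆,⁅b,x⁆⁆,⁅c,d⁆⁆`.  With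
`D_l a_{ij;k}` for the instance `F4_lin y=i z=j w=k v=l` (letters `1,2,3,4 = a,b,c,d`), one has, in
every Lie algebra, `G(1,2;3,4) + G(3,4;1,2) + G(1,3;2,4) + G(2,4;1,3) =
(2/3) D3 a_{24;1} - (1/3) D3 a_{14;2} + (1/3) D4 a_{23;1} + (2/3) D4 a_{12;3} - (2/3) D1 a_{24;3}
- (1/3) D2 a_{13;4} + (1/3) D1 a_{23;4} + (1/3) D2 a_{34;1}`. -/
theorem R4_of_F4 (h4 : ∀ y z w x : A, ⁅⁅⁅y, x⁆, ⁅z, x⁆⁆, ⁅w, x⁆⁆ = 0) (a b c d x : A) :
    ⁅⁅⁅a, x⁆, ⁅b, x⁆⁆, ⁅c, d⁆⁆ + ⁅⁅⁅c, x⁆, ⁅d, x⁆⁆, ⁅a, b⁆⁆ + ⁅⁅⁅a, x⁆, ⁅c, x⁆⁆, ⁅b, d⁆⁆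
      + ⁅⁅⁅b, x⁆, ⁅d, x⁆⁆, ⁅a, c⁆⁆ = 0 := by
  have d0 := HLieB_F4E (F := F) h4 b d a x c
  have d1 := HLieB_F4E (F := F) h4 a d b x c
  have d2 := HLieB_F4E (F := F) h4 b c a x d
  have d3 := HLieB_F4E (F := F) h4 a b c x d
  have d4 := HLieB_F4E (F := F) h4 b d c x a
  have d5 := HLieB_F4E (F := F) h4 a c d x b
  have d6 := HLieB_F4E (F := F) h4 b c d x a
  have d7 := HLieB_F4E (F := F) h4 c d a x b
  have n1 : ⁅b, a⁆ = -⁅a, b⁆ := (lie_skew b a).symm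
  have n2 : ⁅c, a⁆ = -⁅a, c⁆ := (lie_skew c a).symm
  have n3 : ⁅d, a⁆ = -⁅a, d⁆ := (lie_skew d a).symm
  have n4 : ⁅c, b⁆ = -⁅b, c⁆ := (lie_skew c b).symm
  have n5 : ⁅d, b⁆ = -⁅b, d⁆ := (lie_skew d b).symm
  have n6 : ⁅d, c⁆ = -⁅c, d⁆ := (lie_skew d c).symm
  simp only [n1, n2, n3, n4, n5, n6, neg_lie] at d0 d1 d2 d3 d4 d5 d6 d7
  rw [HLieB_G a b c d x, HLieB_G c d a b x, HLieB_G a c b d x, HLieB_G b d a c x]
  linear_combination (norm := module) (2/3 : F) • d0 + (-1/3 : F) • d1 + (1/3 : F) • d2 + (2/3 : F) • d3 + (-2/3 : F) • d4 + (-1/3 : F) • d5 + (1/3 : F) • d6 + (1/3 : F) • d7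

end Pool.Agent.Lib.MP_b4a71d_al
end

section

/-!
# The point H: the degree 6 relations

`HRel T` : the relations of degree 6 of the point H, in the form in which the finite checks
produce them.
-/

set_option autoImplicit false

namespace Pool.Agent.Lib.MP_b4a71d_al

universe u

noncomputable section

variable {F : Type u} [Field F]

open Eng

/-- The component number `i` of a family of relations. -/
def famE (F : Type u) [Field F] (l : List Cb) (i : ℕ) : FL F := evC (l.getD i [])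

/-- The relations of the point H: `C1, C3 ∈ T` (level (3,3)), `f2 ∈ T` (level (2,4)) and
`h1 ∈ T` (level (4,2)). -/
structure HRel (T : Submodule F (FL F)) : Prop where
  b1 : famE F FB 0 ∈ T
  b3 : famE F FB 2 ∈ T
  a2 : famE F FA 1 ∈ T
  c1 : famE F FC 0 ∈ T

/-- A combination of trees whose expansion is zero has value zero.  (`φ (evC cb) = 0` for every
linear functional `φ` by `rowV_rowC` with `gs = []`.) -/
theorem evC_eq_zero {n : ℕ} {cb : Cb} {r : Row} (h : rowC [] n cb = some r)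
    (hr : r.all (fun a => isZ a.1) = true) : (evC cb : FL F) = 0 := by
  rw [← Module.forall_dual_apply_eq_zero_iff F]
  intro φ
  have hφ : Eqv φ [] := fun g hg => by simp at hg
  rw [← rowV_rowC hφ h]
  clear h
  induction r with
  | nil => rfl
  | cons a r ih =>
    rw [List.all_cons, Bool.and_eq_true] at hr
    rw [rowV, ih hr.2, isZ_iff.1 hr.1]
    simp

/-- the renaming `0, 1, 2, ... -> 0, l_1, l_2, ...` -/
def rnH (l : List ℕ) (i : ℕ) : ℕ := (0 :: l).getD i 0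

/-- the zero test for combinations in degree 6 -/
def zH (cb : Cb) : Bool :=
  match rowC [] 5 cb with
  | none => false
  | some r => r.all (fun a => isZ a.1)

theorem zH_sound {cb : Cb} (h : zH cb = true) : (evC cb : FL F) = 0 := by
  rw [zH] at h
  cases h1 : rowC [] 5 cb with
  | none => rw [h1] at h; simp at h
  | some r =>
    rw [h1] at h
    exact evC_eq_zero h1 h

/-- F4 in the letters: `famE FB 0 = a12 - 2 a13`, `a_ij = ⁅⁅⁅y_i,x⁆,⁅y_j,x⁆⁆,⁅y_k,x⁆⁆`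
(`a12 + a23 + a31 = 0`), `a13 = - a31`; so `C1 = a12 + 2 a31 = a31 - a23`, and its cyclic
renamings `a12 - a31`, `a23 - a12`; `3 a12 = (a12 - a31) + (a12 - a23)`. -/
theorem HRel.F4X [CharZero F] {T : Submodule F (FL F)} (hT : IsTIdeal F T) (h : HRel T) :
    ⁅⁅⁅X F 1, X F 0⁆, ⁅X F 2, X F 0⁆⁆, ⁅X F 3, X F 0⁆⁆ ∈ T := by
  have hz : zH (sC 3 [(1, .b (.b (.b (.l 1) (.l 0)) (.b (.l 2) (.l 0))) (.b (.l 3) (.l 0)))] ++
      sC (-1) (mpC (rnH [2, 3, 1]) (FB.getD 0 [])) ++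
      sC 1 (mpC (rnH [3, 1, 2]) (FB.getD 0 []))) = true := by decide +kernel
  have h1 := zH_sound (F := F) hz
  have h2 : (evC [(1, .b (.b (.b (.l 1) (.l 0)) (.b (.l 2) (.l 0))) (.b (.l 3) (.l 0)))] : FL F) =
      ⁅⁅⁅X F 1, X F 0⁆, ⁅X F 2, X F 0⁆⁆, ⁅X F 3, X F 0⁆⁆ := by
    rw [evC, evC, one_smul, add_zero]
    rfl
  rw [evC_append, evC_append, evC_sC, evC_sC, evC_sC, evC_mpC, evC_mpC, h2] at h1
  have ha : ren (rnH [2, 3, 1]) (evC (FB.getD 0 [])) ∈ T := hT.map_mem _ _ h.b1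
  have hb : ren (rnH [3, 1, 2]) (evC (FB.getD 0 [])) ∈ T := hT.map_mem _ _ h.b1
  generalize ren (F := F) (rnH [2, 3, 1]) (evC (FB.getD 0 [])) = u at h1 ha
  generalize ren (F := F) (rnH [3, 1, 2]) (evC (FB.getD 0 [])) = v at h1 hb
  generalize (⁅⁅⁅X F 1, X F 0⁆, ⁅X F 2, X F 0⁆⁆, ⁅X F 3, X F 0⁆⁆ : FL F) = w at h1 ⊢
  have h3 : (3 : F) • w = u - v := by
    have h4 : (3 : F) • w = (3 : ℤ) • w := by
      rw [← Int.cast_smul_eq_zsmul F]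
      norm_num
    rw [h4, ← sub_eq_zero, ← h1]
    module
  have h5 := T.smul_mem (3 : F)⁻¹ (T.sub_mem ha hb)
  rwa [← h3, smul_smul, inv_mul_cancel₀ (by norm_num : (3 : F) ≠ 0), one_smul] at h5

theorem HRel.F4 [CharZero F] {T : Submodule F (FL F)} (hT : IsTIdeal F T) (h : HRel T)
    (y z w x : FL F) : ⁅⁅⁅y, x⁆, ⁅z, x⁆⁆, ⁅w, x⁆⁆ ∈ T := by
  have h1 := hT.map_mem (sb (fun i => ([x, y, z, w] : List (FL F)).getD i 0)) _ (h.F4X hT)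
  simp only [LieHom.map_lie, sb_X] at h1
  exact h1

/-- J1 in the letters.  Write `K = famE FB 0 + famE FB 2`, `K[i,j,k]` for its renaming
`1,2,3 → i,j,k`, `h1[i,j,k,l]` for the renaming `1,2,3,4 → i,j,k,l` of `famE FC 0` and
`f2(i,j) = ⁅⁅⁅y_i,x⁆,x⁆,⁅⁅y_j,x⁆,x⁆⁆`, the renaming of `famE FA 1`.  Exact identity in the free
Lie algebra (checked by machine), `D1, ..., D4` the derivations `D j`:
`90 ⁅⁅⁅y1,y2⁆,x⁆,⁅⁅y3,y4⁆,x⁆⁆ = 9 h1[3,2,4,1] + 9 h1[4,1,3,2]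
  + 5 (D2 D4 f2(1,3) - D3 D2 f2(1,4) + D1 D3 f2(2,4) - D1 D4 f2(2,3))
  + 4 (D3 K[2,4,1] - D4 K[2,3,1] + D1 K[2,3,4] - D2 K[1,3,4])
  + 2 (D3 K[1,2,4] - D4 K[1,2,3] - D2 K[3,4,1] + D1 K[3,4,2])`
(all terms are combinations of trees with the letter `1` exactly once: `evC_derCb`, `ev_mp`,
`evC_append`, then `evC_eq_zero` by `decide +kernel`; `T` is stable under `ren` and `D`). -/
theorem HRel.J1X [CharZero F] {T : Submodule F (FL F)} (hT : IsTIdeal F T) (h : HRel T) :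
    ⁅⁅⁅X F 1, X F 2⁆, X F 0⁆, ⁅⁅X F 3, X F 4⁆, X F 0⁆⁆ ∈ T := by
  -- the right hand side as a combination of trees
  obtain ⟨P, hP⟩ : ∃ P : Cb, P = sC 9 (mpC (rnH [3, 2, 4, 1]) (FC.getD 0 []) ++
      mpC (rnH [4, 1, 3, 2]) (FC.getD 0 [])) ++
    sC 5 (derCb 2 (derCb 4 (mpC (rnH [1, 3]) (FA.getD 1 []))) ++
      sC (-1) (derCb 3 (derCb 2 (mpC (rnH [1, 4]) (FA.getD 1 [])))) ++
      derCb 1 (derCb 3 (mpC (rnH [2, 4]) (FA.getD 1 []))) ++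
      sC (-1) (derCb 1 (derCb 4 (mpC (rnH [2, 3]) (FA.getD 1 []))))) ++
    sC 4 (derCb 3 (mpC (rnH [2, 4, 1]) (FB.getD 0 [] ++ FB.getD 2 [])) ++
      sC (-1) (derCb 4 (mpC (rnH [2, 3, 1]) (FB.getD 0 [] ++ FB.getD 2 []))) ++
      derCb 1 (mpC (rnH [2, 3, 4]) (FB.getD 0 [] ++ FB.getD 2 [])) ++
      sC (-1) (derCb 2 (mpC (rnH [1, 3, 4]) (FB.getD 0 [] ++ FB.getD 2 [])))) ++
    sC 2 (derCb 3 (mpC (rnH [1, 2, 4]) (FB.getD 0 [] ++ FB.getD 2 [])) ++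
      sC (-1) (derCb 4 (mpC (rnH [1, 2, 3]) (FB.getD 0 [] ++ FB.getD 2 []))) ++
      sC (-1) (derCb 2 (mpC (rnH [3, 4, 1]) (FB.getD 0 [] ++ FB.getD 2 []))) ++
      derCb 1 (mpC (rnH [3, 4, 2]) (FB.getD 0 [] ++ FB.getD 2 []))) := ⟨_, rfl⟩
  have hz : zH (sC 90 [(1, .b (.b (.b (.l 1) (.l 2)) (.l 0)) (.b (.b (.l 3) (.l 4)) (.l 0)))] ++
      sC (-1) P) = true := by
    rw [hP]
    decide +kernel
  have hD : ∀ j (f : FL F), f ∈ T → D j f ∈ T := fun j f hf => hT.dd_mem 0 j hf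
  have hR : ∀ l (f : FL F), f ∈ T → ren (rnH l) f ∈ T := fun l f hf => hT.map_mem _ _ hf
  have hz1 : ∀ (c : ℤ) (f : FL F), f ∈ T → c • f ∈ T := by
    intro c f hf
    rw [← Int.cast_smul_eq_zsmul F]
    exact T.smul_mem _ hf
  have hK : (evC (FB.getD 0 [] ++ FB.getD 2 []) : FL F) ∈ T := by
    rw [evC_append]
    exact T.add_mem h.b1 h.b3
  have hf2 : (evC (FA.getD 1 []) : FL F) ∈ T := h.a2
  have hh1 : (evC (FC.getD 0 []) : FL F) ∈ T := h.c1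
  have hPT : (evC P : FL F) ∈ T := by
    rw [hP]
    simp only [evC_append, evC_sC, evC_mpC, evC_derCb] at hK ⊢
    refine T.add_mem (T.add_mem (T.add_mem (hz1 _ _ (T.add_mem ?_ ?_)) (hz1 _ _ ?_)) (hz1 _ _ ?_))
      (hz1 _ _ ?_)
    · exact hR _ _ hh1
    · exact hR _ _ hh1
    · exact T.add_mem (T.add_mem (T.add_mem (hD _ _ (hD _ _ (hR _ _ hf2)))
        (hz1 _ _ (hD _ _ (hD _ _ (hR _ _ hf2))))) (hD _ _ (hD _ _ (hR _ _ hf2))))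
        (hz1 _ _ (hD _ _ (hD _ _ (hR _ _ hf2))))
    · exact T.add_mem (T.add_mem (T.add_mem (hD _ _ (hR _ _ hK)) (hz1 _ _ (hD _ _ (hR _ _ hK))))
        (hD _ _ (hR _ _ hK))) (hz1 _ _ (hD _ _ (hR _ _ hK)))
    · exact T.add_mem (T.add_mem (T.add_mem (hD _ _ (hR _ _ hK)) (hz1 _ _ (hD _ _ (hR _ _ hK))))
        (hz1 _ _ (hD _ _ (hR _ _ hK)))) (hD _ _ (hR _ _ hK))
  have h1 := zH_sound (F := F) hz
  have h2 : (evC [(1, .b (.b (.b (.l 1) (.l 2)) (.l 0)) (.b (.b (.l 3) (.l 4)) (.l 0)))] : FL F) =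
      ⁅⁅⁅X F 1, X F 2⁆, X F 0⁆, ⁅⁅X F 3, X F 4⁆, X F 0⁆⁆ := by
    rw [evC, evC, one_smul, add_zero]
    rfl
  rw [evC_append, evC_sC, evC_sC, h2, neg_smul, one_smul, ← sub_eq_add_neg, sub_eq_zero] at h1
  rw [← h1, ← Int.cast_smul_eq_zsmul F] at hPT
  have h5 := T.smul_mem (((90 : ℤ) : F))⁻¹ hPT
  rwa [smul_smul, inv_mul_cancel₀ (by norm_num : ((90 : ℤ) : F) ≠ 0), one_smul] at h5

theorem HRel.J1 [CharZero F] {T : Submodule F (FL F)} (hT : IsTIdeal F T) (h : HRel T)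
    (a b c d z : FL F) : ⁅⁅⁅a, b⁆, z⁆, ⁅⁅c, d⁆, z⁆⁆ ∈ T := by
  have h1 := hT.map_mem (sb (fun i => ([z, a, b, c, d] : List (FL F)).getD i 0)) _ (h.J1X hT)
  simp only [LieHom.map_lie, sb_X] at h1
  exact h1

end

end Pool.Agent.Lib.MP_b4a71d_al
end

section

/-!
# The point H: reduction to `⁅γ₃, γ₃⁆ ≤ T`
-/

set_option autoImplicit false

namespace Pool.Agent.Lib.MP_b4a71d_al

universe u

noncomputable section

variable {F : Type u} [Field F]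

/-- The axioms of the point H. -/
structure HT (T : Submodule F (FL F)) : Prop where
  isT : IsTIdeal F T
  h33 : ∀ a b c d e f : FL F, ⁅⁅⁅a, b⁆, c⁆, ⁅⁅d, e⁆, f⁆⁆ ∈ T
  h4 : ∀ y z w x : FL F, ⁅⁅⁅y, x⁆, ⁅z, x⁆⁆, ⁅w, x⁆⁆ ∈ T

/-- F1 in `T`. -/
theorem H1b_F1 [CharZero F] {T : Submodule F (FL F)} (hT : IsTIdeal F T) (h : HRel T)
    (a g b c d e f : FL F) : ⁅⁅⁅⁅a, g⁆, b⁆, c⁆, ⁅⁅d, e⁆, f⁆⁆ ∈ T := by
  have hq : ∀ a b d e z : hT.relFree.carrier, ⁅⁅⁅a, b⁆, z⁆, ⁅⁅d, e⁆, z⁆⁆ = 0 := by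
    intro a b d e z
    obtain ⟨a, rfl⟩ := hT.proj_surjective a
    obtain ⟨b, rfl⟩ := hT.proj_surjective b
    obtain ⟨d, rfl⟩ := hT.proj_surjective d
    obtain ⟨e, rfl⟩ := hT.proj_surjective e
    obtain ⟨z, rfl⟩ := hT.proj_surjective z
    have := (hT.proj_eq_zero _).2 (h.J1 hT a b d e z)
    simpa only [LieHom.map_lie] using this
  rw [← hT.proj_eq_zero]
  simp only [LieHom.map_lie]
  exact F1_of_J1 (F := F) hq _ _ _ _ _ _ _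

/-- The span of the Lie products. -/
def H1bW (F : Type u) [Field F] : Submodule F (FL F) :=
  Submodule.span F {f | ∃ u v : FL F, f = ⁅u, v⁆}

theorem H1b_mem_W {s : Multiset ℕ} {f : FL F} (hf : f ∈ HomC s) (hs : 2 ≤ Multiset.card s) :
    f ∈ H1bW F := by
  induction hf using Submodule.span_induction with
  | mem a ha =>
    cases ha with
    | var i => simp at hs
    | brac h1 h2 => exact Submodule.subset_span ⟨_, _, rfl⟩
  | zero => exact Submodule.zero_mem _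
  | add a b _ _ h1 h2 => exact Submodule.add_mem _ h1 h2
  | smul c a _ h => exact Submodule.smul_mem _ _ h

section letters

variable {T : Submodule F (FL F)}
  (h1 : ∀ a g b c d e f : FL F, ⁅⁅⁅⁅a, g⁆, b⁆, c⁆, ⁅⁅d, e⁆, f⁆⁆ ∈ T)

include h1

theorem H1b_a {a : FL F} (ha : a ∈ H1bW F) (b c d e f : FL F) :
    ⁅⁅⁅a, b⁆, c⁆, ⁅⁅d, e⁆, f⁆⁆ ∈ T := by
  induction ha using Submodule.span_induction with
  | mem a ha =>
    obtain ⟨u, v, rfl⟩ := ha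
    exact h1 _ _ _ _ _ _ _
  | zero => rw [zero_lie, zero_lie, zero_lie]; exact T.zero_mem
  | add x y _ _ hx hy => rw [add_lie, add_lie, add_lie]; exact T.add_mem hx hy
  | smul t x _ hx => rw [smul_lie, smul_lie, smul_lie]; exact T.smul_mem _ hx

theorem H1b_b {b : FL F} (hb : b ∈ H1bW F) (a c d e f : FL F) :
    ⁅⁅⁅a, b⁆, c⁆, ⁅⁅d, e⁆, f⁆⁆ ∈ T := by
  have := H1b_a h1 hb a c d e f
  rw [← lie_skew b a, neg_lie, neg_lie] at this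
  exact (Submodule.neg_mem_iff T).1 this

theorem H1b_c {c : FL F} (hc : c ∈ H1bW F) (a b d e f : FL F) :
    ⁅⁅⁅a, b⁆, c⁆, ⁅⁅d, e⁆, f⁆⁆ ∈ T := by
  induction hc using Submodule.span_induction with
  | mem c hc =>
    obtain ⟨u, v, rfl⟩ := hc
    have e0 : ⁅⁅a, b⁆, ⁅u, v⁆⁆ = ⁅⁅⁅a, b⁆, u⁆, v⁆ + ⁅u, ⁅⁅a, b⁆, v⁆⁆ := leibniz_lie _ _ _
    have e1 : ⁅u, ⁅⁅a, b⁆, v⁆⁆ = -⁅⁅⁅a, b⁆, v⁆, u⁆ := (lie_skew _ _).symm
    rw [e0, add_lie, e1, neg_lie]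
    exact T.add_mem (h1 _ _ _ _ _ _ _) (T.neg_mem (h1 _ _ _ _ _ _ _))
  | zero => rw [lie_zero, zero_lie]; exact T.zero_mem
  | add x y _ _ hx hy => rw [lie_add, add_lie]; exact T.add_mem hx hy
  | smul t x _ hx => rw [lie_smul, smul_lie]; exact T.smul_mem _ hx

theorem H1b_abc {a b c : FL F} (h : a ∈ H1bW F ∨ b ∈ H1bW F ∨ c ∈ H1bW F) (d e f : FL F) :
    ⁅⁅⁅a, b⁆, c⁆, ⁅⁅d, e⁆, f⁆⁆ ∈ T := by
  rcases h with h | h | h
  · exact H1b_a h1 h _ _ _ _ _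
  · exact H1b_b h1 h _ _ _ _ _
  · exact H1b_c h1 h _ _ _ _ _

theorem H1b_def {d e f : FL F} (h : d ∈ H1bW F ∨ e ∈ H1bW F ∨ f ∈ H1bW F) (a b c : FL F) :
    ⁅⁅⁅a, b⁆, c⁆, ⁅⁅d, e⁆, f⁆⁆ ∈ T := by
  rw [← lie_skew]
  exact T.neg_mem (H1b_abc h1 h a b c)

/-- Homogeneous letters, degree at least 7. -/
theorem H1b_hom {s1 s2 s3 s4 s5 s6 : Multiset ℕ} {a b c d e f : FL F}
    (ha : a ∈ HomC s1) (hb : b ∈ HomC s2) (hc : c ∈ HomC s3) (hd : d ∈ HomC s4)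
    (he : e ∈ HomC s5) (hf : f ∈ HomC s6)
    (hs : 7 ≤ Multiset.card (s1 + s2 + s3 + (s4 + s5 + s6))) :
    ⁅⁅⁅a, b⁆, c⁆, ⁅⁅d, e⁆, f⁆⁆ ∈ T := by
  simp only [Multiset.card_add] at hs
  by_cases c1 : 2 ≤ Multiset.card s1
  · exact H1b_abc h1 (Or.inl (H1b_mem_W ha c1)) _ _ _
  by_cases c2 : 2 ≤ Multiset.card s2
  · exact H1b_abc h1 (Or.inr (Or.inl (H1b_mem_W hb c2))) _ _ _
  by_cases c3 : 2 ≤ Multiset.card s3
  · exact H1b_abc h1 (Or.inr (Or.inr (H1b_mem_W hc c3))) _ _ _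
  by_cases c4 : 2 ≤ Multiset.card s4
  · exact H1b_def h1 (Or.inl (H1b_mem_W hd c4)) _ _ _
  by_cases c5 : 2 ≤ Multiset.card s5
  · exact H1b_def h1 (Or.inr (Or.inl (H1b_mem_W he c5))) _ _ _
  by_cases c6 : 2 ≤ Multiset.card s6
  · exact H1b_def h1 (Or.inr (Or.inr (H1b_mem_W hf c6))) _ _ _
  omega

variable [CharZero F]

theorem H1b_cmp (s : Multiset ℕ) (hs : 7 ≤ Multiset.card s) (a b c d e f : FL F) :
    cmp s ⁅⁅⁅a, b⁆, c⁆, ⁅⁅d, e⁆, f⁆⁆ ∈ T := by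
  induction a using fl_induction with
  | hadd x y hx hy => rw [add_lie, add_lie, add_lie, map_add]; exact T.add_mem hx hy
  | hhom s1 a ha =>
  induction b using fl_induction with
  | hadd x y hx hy => rw [lie_add, add_lie, add_lie, map_add]; exact T.add_mem hx hy
  | hhom s2 b hb =>
  induction c using fl_induction with
  | hadd x y hx hy => rw [lie_add, add_lie, map_add]; exact T.add_mem hx hy
  | hhom s3 c hc =>
  induction d using fl_induction with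
  | hadd x y hx hy => rw [add_lie, add_lie, lie_add, map_add]; exact T.add_mem hx hy
  | hhom s4 d hd =>
  induction e using fl_induction with
  | hadd x y hx hy => rw [lie_add, add_lie, lie_add, map_add]; exact T.add_mem hx hy
  | hhom s5 e he =>
  induction f using fl_induction with
  | hadd x y hx hy => rw [lie_add, lie_add, map_add]; exact T.add_mem hx hy
  | hhom s6 f hf =>
    have hm : ⁅⁅⁅a, b⁆, c⁆, ⁅⁅d, e⁆, f⁆⁆ ∈ HomC (F := F) (s1 + s2 + s3 + (s4 + s5 + s6)) :=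
      lie_mem_homC (lie_mem_homC (lie_mem_homC ha hb) hc) (lie_mem_homC (lie_mem_homC hd he) hf)
    by_cases hss : s1 + s2 + s3 + (s4 + s5 + s6) = s
    · rw [hss] at hm
      rw [cmp_of_mem hm]
      exact H1b_hom h1 ha hb hc hd he hf (by rw [hss]; exact hs)
    · rw [cmp_of_mem_ne hm hss]
      exact T.zero_mem

end letters

/-- The span of `⁅γ₃, γ₃⁆`. -/
def H1bG (F : Type u) [Field F] : Submodule F (FL F) :=
  Submodule.span F {g | ∃ a b c d e f : FL F, g = ⁅⁅⁅a, b⁆, c⁆, ⁅⁅d, e⁆, f⁆⁆}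

theorem H1bG_isTIdeal : IsTIdeal F (H1bG F) where
  lie_mem g hg z := by
    induction hg using Submodule.span_induction with
    | mem g hg =>
      obtain ⟨a, b, c, d, e, f, rfl⟩ := hg
      rw [lie_lie]
      have e1 : ⁅⁅⁅a, b⁆, c⁆, ⁅⁅⁅d, e⁆, f⁆, z⁆⁆ ∈ H1bG F :=
        Submodule.subset_span ⟨a, b, c, ⁅d, e⁆, f, z, rfl⟩
      have e2 : ⁅⁅⁅d, e⁆, f⁆, ⁅⁅⁅a, b⁆, c⁆, z⁆⁆ ∈ H1bG F :=
        Submodule.subset_span ⟨d, e, f, ⁅a, b⁆, c, z, rfl⟩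
      exact Submodule.sub_mem _ e1 e2
    | zero => rw [zero_lie]; exact Submodule.zero_mem _
    | add x y _ _ hx hy => rw [add_lie]; exact Submodule.add_mem _ hx hy
    | smul t x _ hx => rw [smul_lie]; exact Submodule.smul_mem _ _ hx
  map_mem φ g hg := by
    induction hg using Submodule.span_induction with
    | mem g hg =>
      obtain ⟨a, b, c, d, e, f, rfl⟩ := hg
      simp only [LieHom.map_lie]
      exact Submodule.subset_span ⟨_, _, _, _, _, _, rfl⟩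
    | zero => rw [map_zero]; exact Submodule.zero_mem _
    | add x y _ _ hx hy => rw [map_add]; exact Submodule.add_mem _ hx hy
    | smul t x _ hx => rw [map_smul]; exact Submodule.smul_mem _ _ hx

/-- The T-ideal `T + ⁅γ₃, γ₃⁆` has the same elements as `T` in degrees at least 7 (F1). -/
theorem HRel.exists_HT [CharZero F] {T : Submodule F (FL F)} (hT : IsTIdeal F T) (h : HRel T) :
    ∃ T' : Submodule F (FL F), HT T' ∧ T ≤ T' ∧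
      ∀ s : Multiset ℕ, 7 ≤ Multiset.card s → T' ⊓ HomC s ≤ T := by
  refine ⟨T ⊔ H1bG F, ⟨IsTIdeal.sup hT H1bG_isTIdeal, fun a b c d e f => ?_,
    fun y z w x => Submodule.mem_sup_left (h.F4 hT y z w x)⟩, le_sup_left, ?_⟩
  · exact Submodule.mem_sup_right (Submodule.subset_span ⟨a, b, c, d, e, f, rfl⟩)
  · rintro s hs f ⟨hf, hfs⟩
    obtain ⟨t, ht, g, hg, rfl⟩ := Submodule.mem_sup.1 hf
    rw [← cmp_of_mem hfs, map_add]
    refine T.add_mem (hT.cmp_mem ht s) ?_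
    clear hf hfs ht
    induction hg using Submodule.span_induction with
    | mem g hg =>
      obtain ⟨a, b, c, d, e, f, rfl⟩ := hg
      exact H1b_cmp (H1b_F1 hT h) s hs a b c d e f
    | zero => rw [map_zero]; exact T.zero_mem
    | add x y _ _ hx hy => rw [map_add]; exact T.add_mem hx hy
    | smul t x _ hx => rw [map_smul]; exact T.smul_mem _ hx

theorem H1b_card (k d : ℕ) : Multiset.card (cont (Finset.Icc 1 k) d) = k + d := by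
  rw [cont, Multiset.card_add, Multiset.card_replicate, Finset.card_val, Nat.card_Icc]
  omega

/-- `LevelGood` passes from `T'` to `T`. -/
theorem levelGood_of_HT {T T' : Submodule F (FL F)} (hTT : T ≤ T')
    (h : ∀ s : Multiset ℕ, 7 ≤ Multiset.card s → T' ⊓ HomC s ≤ T) {k d : ℕ} (hkd : 7 ≤ k + d)
    (hg : LevelGood T' k d) : LevelGood T k d := by
  have hlev : ∀ U : Submodule F (FL F), LevU T k d U → LevU T' k d U := by
    intro U hU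
    refine ⟨hU.lam_le, ?_, hU.le_W, hU.stab⟩
    have h7 : 7 ≤ Multiset.card (cont (Finset.Icc 1 k) d) := by rw [H1b_card]; exact hkd
    exact (le_inf (h _ h7) inf_le_right).trans hU.T_le
  intro U1 U2 U3 h1 h2 h3
  exact hg U1 U2 U3 (hlev _ h1) (hlev _ h2) (hlev _ h3)

end

end Pool.Agent.Lib.MP_b4a71d_al
end

section

/-!
# The point H: calculus with commutators of letters

`yx i m = ⁅⁅y_i, x⁆, ..., x⁆` (`m` times `x`) is in LevelTwo.lean, with `yx_zero`, `yx_succ`,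
`yx_mem`, `ren_yx`.
-/

set_option autoImplicit false

namespace Pool.Agent.Lib.MP_b4a71d_al

universe u

noncomputable section

variable {F : Type u} [Field F]

/-- The third term of the lower central series. -/
def G3 (F : Type u) [Field F] : Submodule F (FL F) :=
  Submodule.span F {f | ∃ p q r : FL F, f = ⁅⁅p, q⁆, r⁆}

theorem G3_lie {f : FL F} (hf : f ∈ G3 F) (g : FL F) : ⁅f, g⁆ ∈ G3 F := by
  induction hf using Submodule.span_induction with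
  | mem f hf =>
    obtain ⟨p, q, r, rfl⟩ := hf
    exact Submodule.subset_span ⟨⁅p, q⁆, r, g, rfl⟩
  | zero => rw [zero_lie]; exact Submodule.zero_mem _
  | add a b _ _ h1 h2 => rw [add_lie]; exact Submodule.add_mem _ h1 h2
  | smul c a _ h1 => rw [smul_lie]; exact Submodule.smul_mem _ _ h1

theorem lie3_G3 (p q r : FL F) : ⁅⁅p, q⁆, r⁆ ∈ G3 F := Submodule.subset_span ⟨p, q, r, rfl⟩

theorem isMonoC_lie {s : Multiset ℕ} {f : FL F} (h : IsMonoC s f) (hs : 2 ≤ Multiset.card s) :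
    ∃ p q : FL F, f = ⁅p, q⁆ := by
  cases h with
  | var i =>
    rw [Multiset.card_singleton] at hs
    omega
  | brac ha hb => exact ⟨_, _, rfl⟩

/-- Left normed monomials span `HomC s`. -/
theorem homC_le_G3 {s : Multiset ℕ} (hs : 3 ≤ Multiset.card s) : HomC s ≤ G3 F := by
  rw [HomC, Submodule.span_le]
  intro f hf
  change IsMonoC s f at hf
  cases hf with
  | var i =>
    rw [Multiset.card_singleton] at hs
    omega
  | @brac s t a b ha hb =>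
    rw [Multiset.card_add] at hs
    by_cases h2 : 2 ≤ Multiset.card s
    · obtain ⟨p, q, rfl⟩ := isMonoC_lie ha h2
      exact lie3_G3 p q b
    · obtain ⟨p, q, rfl⟩ := isMonoC_lie hb (by omega)
      change ⁅a, ⁅p, q⁆⁆ ∈ G3 F
      rw [← lie_skew]
      exact Submodule.neg_mem _ (lie3_G3 p q a)

theorem yx_G3 (i m : ℕ) : yx (F := F) i (m + 2) ∈ G3 F := by
  rw [yx_succ, yx_succ]
  exact lie3_G3 _ _ _

/-! ### The commutator operators -/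

theorem HT.comm33 {T : Submodule F (FL F)} (h : HT T) {f g : FL F} (hf : f ∈ G3 F)
    (hg : g ∈ G3 F) : ⁅f, g⁆ ∈ T := by
  induction hf using Submodule.span_induction with
  | mem f hf =>
    obtain ⟨p, q, r, rfl⟩ := hf
    induction hg using Submodule.span_induction with
    | mem g hg =>
      obtain ⟨a, b, c, rfl⟩ := hg
      exact h.h33 _ _ _ _ _ _
    | zero => rw [lie_zero]; exact Submodule.zero_mem _
    | add a b _ _ h1 h2 => rw [lie_add]; exact Submodule.add_mem _ h1 h2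
    | smul c a _ h1 => rw [lie_smul]; exact Submodule.smul_mem _ _ h1
  | zero => rw [zero_lie]; exact Submodule.zero_mem _
  | add a b _ _ h1 h2 => rw [add_lie]; exact Submodule.add_mem _ h1 h2
  | smul c a _ h1 => rw [smul_lie]; exact Submodule.smul_mem _ _ h1

/-- `m C(a,b) c = m c C(a,b)` modulo `T` for `m ∈ γ₃`. -/
theorem HT.swapC {T : Submodule F (FL F)} (h : HT T) {m : FL F} (hm : m ∈ G3 F) (a b c : FL F) :
    ⁅⁅m, ⁅a, b⁆⁆, c⁆ - ⁅⁅m, c⁆, ⁅a, b⁆⁆ ∈ T := by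
  have e : ⁅⁅m, ⁅a, b⁆⁆, c⁆ - ⁅⁅m, c⁆, ⁅a, b⁆⁆ = ⁅m, ⁅⁅a, b⁆, c⁆⁆ := by
    rw [leibniz_lie m ⁅a, b⁆ c, ← lie_skew ⁅a, b⁆ ⁅m, c⁆, sub_eq_add_neg]
  rw [e]
  exact h.comm33 hm (lie3_G3 a b c)

theorem HT.quot33 {T : Submodule F (FL F)} (h : HT T) (a b c d e f : h.isT.relFree.carrier) :
    ⁅⁅⁅a, b⁆, c⁆, ⁅⁅d, e⁆, f⁆⁆ = 0 := by
  obtain ⟨a, rfl⟩ := h.isT.proj_surjective a
  obtain ⟨b, rfl⟩ := h.isT.proj_surjective b
  obtain ⟨c, rfl⟩ := h.isT.proj_surjective c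
  obtain ⟨d, rfl⟩ := h.isT.proj_surjective d
  obtain ⟨e, rfl⟩ := h.isT.proj_surjective e
  obtain ⟨f, rfl⟩ := h.isT.proj_surjective f
  simp only [← LieHom.map_lie]
  rw [h.isT.proj_eq_zero]
  exact h.h33 _ _ _ _ _ _

theorem HT.quot4 {T : Submodule F (FL F)} (h : HT T) (y z w x : h.isT.relFree.carrier) :
    ⁅⁅⁅y, x⁆, ⁅z, x⁆⁆, ⁅w, x⁆⁆ = 0 := by
  obtain ⟨y, rfl⟩ := h.isT.proj_surjective y
  obtain ⟨z, rfl⟩ := h.isT.proj_surjective z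
  obtain ⟨w, rfl⟩ := h.isT.proj_surjective w
  obtain ⟨x, rfl⟩ := h.isT.proj_surjective x
  simp only [← LieHom.map_lie]
  rw [h.isT.proj_eq_zero]
  exact h.h4 _ _ _ _

/-- `F2_of_F4` for all `m ∈ γ₃` (in `FL F ⧸ T`). -/
theorem HT.F2 [CharZero F] {T : Submodule F (FL F)} (h : HT T) {m : FL F} (hm : m ∈ G3 F)
    (a b c d : FL F) : ⁅⁅m, ⁅a, b⁆⁆, ⁅c, d⁆⁆ + ⁅⁅m, ⁅a, d⁆⁆, ⁅c, b⁆⁆ ∈ T := by
  induction hm using Submodule.span_induction with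
  | mem m hm =>
    obtain ⟨p, q, y, rfl⟩ := hm
    have h1 := F2_of_F4 (F := F) h.quot33 h.quot4 (h.isT.proj p) (h.isT.proj q) (h.isT.proj y)
      (h.isT.proj a) (h.isT.proj b) (h.isT.proj c) (h.isT.proj d)
    simp only [← LieHom.map_lie, ← map_add] at h1
    rw [h.isT.proj_eq_zero] at h1
    exact h1
  | zero => simp
  | add m n _ _ h1 h2 =>
    have e : ⁅⁅m + n, ⁅a, b⁆⁆, ⁅c, d⁆⁆ + ⁅⁅m + n, ⁅a, d⁆⁆, ⁅c, b⁆⁆ =
        (⁅⁅m, ⁅a, b⁆⁆, ⁅c, d⁆⁆ + ⁅⁅m, ⁅a, d⁆⁆, ⁅c, b⁆⁆) +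
        (⁅⁅n, ⁅a, b⁆⁆, ⁅c, d⁆⁆ + ⁅⁅n, ⁅a, d⁆⁆, ⁅c, b⁆⁆) := by
      simp only [add_lie]
      abel
    rw [e]
    exact Submodule.add_mem _ h1 h2
  | smul r m _ h1 =>
    rw [smul_lie, smul_lie, smul_lie, smul_lie, ← smul_add]
    exact Submodule.smul_mem _ _ h1

/-- `R4_of_F4`. -/
theorem HT.R4 [CharZero F] {T : Submodule F (FL F)} (h : HT T) (a b c d x : FL F) :
    ⁅⁅⁅a, x⁆, ⁅b, x⁆⁆, ⁅c, d⁆⁆ + ⁅⁅⁅c, x⁆, ⁅d, x⁆⁆, ⁅a, b⁆⁆ + ⁅⁅⁅a, x⁆, ⁅c, x⁆⁆, ⁅b, d⁆⁆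
      + ⁅⁅⁅b, x⁆, ⁅d, x⁆⁆, ⁅a, c⁆⁆ ∈ T := by
  have h1 := R4_of_F4 (F := F) h.quot4 (h.isT.proj a) (h.isT.proj b) (h.isT.proj c) (h.isT.proj d)
    (h.isT.proj x)
  simp only [← LieHom.map_lie, ← map_add] at h1
  rw [h.isT.proj_eq_zero] at h1
  exact h1

/-- `Cl [a, b, c, d, ...] m = m C(a,b) C(c,d) ...` (lists of even length). -/
def Cl : List ℕ → FL F →ₗ[F] FL F
  | [] => LinearMap.id
  | [_] => LinearMap.id
  | a :: b :: l => (Cl l) ∘ₗ lieBy ⁅X F a, X F b⁆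

theorem Cl_T {T : Submodule F (FL F)} (hT : IsTIdeal F T) (l : List ℕ) {f : FL F} (hf : f ∈ T) :
    Cl l f ∈ T := by
  induction l using List.twoStepInduction generalizing f with
  | nil => exact hf
  | singleton a => exact hf
  | cons_cons a b l ih _ => exact ih (hT.lie_mem f hf _)

theorem Cl_G3 (l : List ℕ) {f : FL F} (hf : f ∈ G3 F) : Cl l f ∈ G3 F := by
  induction l using List.twoStepInduction generalizing f with
  | nil => exact hf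
  | singleton a => exact hf
  | cons_cons a b l ih _ => exact ih (G3_lie hf _)

theorem Cl_cons_cons (a b : ℕ) (l : List ℕ) (f : FL F) :
    Cl (a :: b :: l) f = Cl l ⁅f, ⁅X F a, X F b⁆⁆ := rfl

theorem even_of_add_two {n : ℕ} (h : Even (n + 1 + 1)) : Even n := by
  obtain ⟨r, hr⟩ := h
  exact ⟨r - 1, by omega⟩

theorem Cl_append (l l' : List ℕ) (hl : Even l.length) (f : FL F) :
    Cl (l ++ l') f = Cl l' (Cl l f) := by
  induction l using List.twoStepInduction generalizing f with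
  | nil => rfl
  | singleton a =>
    rw [List.length_singleton] at hl
    exact absurd hl (by decide)
  | cons_cons a b l ih _ =>
    rw [List.length_cons, List.length_cons] at hl
    rw [List.cons_append, List.cons_append, Cl_cons_cons, Cl_cons_cons]
    exact ih (even_of_add_two hl) _

/-- Commutators commute with all brackets on `γ₃`. -/
theorem HT.Cl_lie {T : Submodule F (FL F)} (h : HT T) (l : List ℕ) {m : FL F} (hm : m ∈ G3 F)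
    (z : FL F) : ⁅Cl l m, z⁆ - Cl l ⁅m, z⁆ ∈ T := by
  induction l using List.twoStepInduction generalizing m with
  | nil =>
    change ⁅m, z⁆ - ⁅m, z⁆ ∈ T
    rw [sub_self]
    exact Submodule.zero_mem _
  | singleton a =>
    change ⁅m, z⁆ - ⁅m, z⁆ ∈ T
    rw [sub_self]
    exact Submodule.zero_mem _
  | cons_cons a b l ih _ =>
    rw [Cl_cons_cons, Cl_cons_cons]
    have h1 := ih (G3_lie hm ⁅X F a, X F b⁆)
    have h2 := Cl_T h.isT l (h.swapC hm (X F a) (X F b) z)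
    rw [map_sub] at h2
    have h3 := Submodule.add_mem _ h1 h2
    rwa [sub_add_sub_cancel] at h3

theorem Cl_homC {s : Multiset ℕ} {l : List ℕ} (hl : Even l.length) {f : FL F} (hf : f ∈ HomC s) :
    Cl l f ∈ HomC (F := F) (s + (l : Multiset ℕ)) := by
  induction l using List.twoStepInduction generalizing f s with
  | nil =>
    rw [Multiset.coe_nil, add_zero]
    exact hf
  | singleton a =>
    rw [List.length_singleton] at hl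
    exact absurd hl (by decide)
  | cons_cons a b l ih _ =>
    rw [List.length_cons, List.length_cons] at hl
    have h1 := ih (even_of_add_two hl) (lie_mem_homC hf (lie_mem_homC (X_mem a) (X_mem b)))
    have e : s + ({a} + {b}) + (l : Multiset ℕ) = s + ((a :: b :: l : List ℕ) : Multiset ℕ) := by
      rw [← Multiset.cons_coe, ← Multiset.cons_coe, ← Multiset.singleton_add,
        ← Multiset.singleton_add]
      abel
    rw [e] at h1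
    exact h1

theorem Cl_WW {Y Z : Finset ℕ} {d : ℕ} {l : List ℕ} (hl : Even l.length)
    (hZ : (l : Multiset ℕ) + Y.val = Z.val) {f : FL F} (hf : f ∈ WW Y d) : Cl l f ∈ WW Z d := by
  have h1 := Cl_homC hl hf
  have e : cont Y d + (l : Multiset ℕ) = cont Z d := by
    rw [cont, cont, ← hZ]
    abel
  rw [e] at h1
  exact h1

/-- `D i` commutes with `Cl l` if `0 ∉ l`. -/
theorem D_Cl (i : ℕ) {l : List ℕ} (h0 : 0 ∉ l) (f : FL F) : D i (Cl l f) = Cl l (D i f) := by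
  induction l using List.twoStepInduction generalizing f with
  | nil => rfl
  | singleton a => rfl
  | cons_cons a b l ih _ =>
    have ha : a ≠ 0 := fun h => h0 (by rw [h]; exact List.mem_cons_self)
    have hb : b ≠ 0 := fun h => h0 (by rw [h]; exact List.mem_cons_of_mem _ List.mem_cons_self)
    have hl : 0 ∉ l := fun h => h0 (List.mem_cons_of_mem _ (List.mem_cons_of_mem _ h))
    rw [Cl_cons_cons, Cl_cons_cons, ih hl]
    congr 1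
    rw [D, dd_lie, dd_lie, dd_X_ne ha, dd_X_ne hb, lie_zero, zero_lie, add_zero, lie_zero,
      zero_add]

theorem Cl_Lam {Y Z : Finset ℕ} (h0 : 0 ∉ Z) {d : ℕ} {l : List ℕ} (hl : Even l.length)
    (hZ : (l : Multiset ℕ) + Y.val = Z.val) {f : FL F} (hf : f ∈ Lam Y d) :
    Cl l f ∈ Lam Z d := by
  have hl0 : 0 ∉ l := by
    intro h
    apply h0
    rw [← Finset.mem_val, ← hZ]
    exact Multiset.mem_add.2 (Or.inl (Multiset.mem_coe.2 h))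
  have h1 : Lam (F := F) Y d ≤ (Lam Z d).comap (Cl l) := by
    rw [Lam]
    refine iSup₂_le fun j hj => ?_
    rw [Submodule.map_le_iff_le_comap]
    intro g hg
    change Cl l (D j g) ∈ Lam Z d
    rw [← D_Cl j hl0]
    have hjZ : j ∈ Z := by
      rw [← Finset.mem_val, ← hZ]
      exact Multiset.mem_add.2 (Or.inr hj)
    apply D_mem_Lam hjZ
    refine Cl_WW hl ?_ hg
    rw [Finset.erase_val, Finset.erase_val, ← hZ, Multiset.erase_add_right_pos _ hj]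
  exact h1 hf

theorem ren_Cl (σ : ℕ → ℕ) (l : List ℕ) (f : FL F) : ren σ (Cl l f) = Cl (l.map σ) (ren σ f) := by
  induction l using List.twoStepInduction generalizing f with
  | nil => rfl
  | singleton a => rfl
  | cons_cons a b l ih _ =>
    rw [List.map_cons, List.map_cons, Cl_cons_cons, Cl_cons_cons, ih, LieHom.map_lie,
      LieHom.map_lie, ren_X, ren_X]

/-- Adjacent entries alternate on `γ₃`: `C(a,b) = - C(b,a)` and
`C(a,c) C(b,d) = - C(a,d) C(b,c) = - C(a,b) C(c,d)` (F2 twice). -/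
theorem HT.Cl_adj [CharZero F] {T : Submodule F (FL F)} (h : HT T) {m : FL F} (hm : m ∈ G3 F)
    (l1 l2 : List ℕ) (a b : ℕ) (hl : Even (l1.length + l2.length)) :
    Cl (l1 ++ a :: b :: l2) m + Cl (l1 ++ b :: a :: l2) m ∈ T := by
  rcases Nat.even_or_odd l1.length with h1 | h1
  · rw [Cl_append _ _ h1, Cl_append _ _ h1, Cl_cons_cons, Cl_cons_cons, ← map_add, ← lie_add,
      ← lie_skew (X F a) (X F b), neg_add_cancel, lie_zero, map_zero]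
    exact Submodule.zero_mem _
  · have h2 : Odd l2.length := by
      rcases Nat.even_or_odd l2.length with h2 | h2
      · exact absurd (h1.add_even h2) (Nat.not_odd_iff_even.2 hl)
      · exact h2
    obtain ⟨l1', c, rfl⟩ : ∃ l' c, l1 = l' ++ [c] := by
      rcases List.eq_nil_or_concat l1 with rfl | ⟨l', c, rfl⟩
      · rw [List.length_nil] at h1
        exact absurd h1 (by decide)
      · exact ⟨l', c, by rw [List.concat_eq_append]⟩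
    obtain ⟨d, l2', rfl⟩ : ∃ d l', l2 = d :: l' := by
      cases l2 with
      | nil =>
        rw [List.length_nil] at h2
        exact absurd h2 (by decide)
      | cons d l' => exact ⟨d, l', rfl⟩
    have h3 : Even l1'.length := by
      rw [List.length_append, List.length_singleton] at h1
      exact (Nat.odd_add_one.1 h1 |> Nat.not_odd_iff_even.1)
    rw [List.append_assoc, List.append_assoc, Cl_append _ _ h3, Cl_append _ _ h3,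
      List.singleton_append, List.singleton_append, Cl_cons_cons, Cl_cons_cons, Cl_cons_cons,
      Cl_cons_cons, ← map_add]
    apply Cl_T h.isT
    have h4 := h.F2 (Cl_G3 l1' hm) (X F c) (X F a) (X F d) (X F b)
    have e : ∀ p q r s : FL F, ⁅⁅p, q⁆, ⁅r, s⁆⁆ = - ⁅⁅p, q⁆, ⁅s, r⁆⁆ := by
      intro p q r s
      rw [← lie_skew s r, lie_neg, neg_neg]
    rw [e _ _ (X F b) (X F d), e _ _ (X F a) (X F d), ← neg_add]
    exact Submodule.neg_mem _ h4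

/-- Moving one entry. -/
theorem HT.Cl_move [CharZero F] {T : Submodule F (FL F)} (h : HT T) {m : FL F} (hm : m ∈ G3 F)
    (l2 l1 l3 : List ℕ) (a : ℕ) (hl : Even (l1.length + (l2.length + l3.length) + 1)) :
    Cl (l1 ++ a :: (l2 ++ l3)) m - (-1 : F) ^ l2.length • Cl (l1 ++ l2 ++ a :: l3) m ∈ T := by
  induction l2 generalizing l1 with
  | nil =>
    rw [List.nil_append, List.length_nil, pow_zero, one_smul, List.append_nil, sub_self]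
    exact Submodule.zero_mem _
  | cons c l2 ih =>
    have h1 := h.Cl_adj hm l1 (l2 ++ l3) a c (by
      rw [List.length_append]
      rw [List.length_cons] at hl
      have e : l1.length + (l2.length + 1 + l3.length) + 1 =
        l1.length + (l2.length + l3.length) + 1 + 1 := by ring
      rw [e] at hl
      exact even_of_add_two hl)
    have h2 := ih (l1 ++ [c]) (by
      rw [List.length_append, List.length_singleton]
      rw [List.length_cons] at hl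
      have e : l1.length + (l2.length + 1 + l3.length) + 1 =
        l1.length + 1 + (l2.length + l3.length) + 1 := by ring
      rwa [e] at hl)
    have h3 := Submodule.sub_mem _ h1 h2
    convert h3 using 1
    rw [List.cons_append, List.length_cons, pow_succ, mul_neg_one, neg_smul]
    simp only [List.append_assoc, List.cons_append, List.nil_append]
    abel

theorem HT.Cl_swap_aux [CharZero F] {T : Submodule F (FL F)} (h : HT T) {m : FL F} (hm : m ∈ G3 F)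
    (l1 l2 l3 : List ℕ) (a b : ℕ) (hl : Even (l1 ++ a :: (l2 ++ b :: l3)).length)
    (hn : (l1 ++ a :: (l2 ++ b :: l3)).Nodup) :
    Cl ((l1 ++ a :: (l2 ++ b :: l3)).map (Equiv.swap a b)) m +
      Cl (l1 ++ a :: (l2 ++ b :: l3)) m ∈ T := by
  have hmap : (l1 ++ a :: (l2 ++ b :: l3)).map (Equiv.swap a b) = l1 ++ b :: (l2 ++ a :: l3) := by
    have key : ∀ l : List ℕ, a ∉ l → b ∉ l → l.map (Equiv.swap a b) = l := by
      intro l ha hb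
      conv_rhs => rw [← List.map_id l]
      apply List.map_congr_left
      intro x hx
      rw [Equiv.swap_apply_of_ne_of_ne, id]
      · rintro rfl
        exact ha hx
      · rintro rfl
        exact hb hx
    rw [List.nodup_append, List.nodup_cons, List.nodup_append, List.nodup_cons] at hn
    obtain ⟨_, ⟨ha, _, ⟨hb, _⟩, hd2⟩, hd1⟩ := hn
    rw [List.mem_append, not_or, List.mem_cons, not_or] at ha
    rw [List.map_append, List.map_cons, List.map_append, List.map_cons, Equiv.swap_apply_left,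
      Equiv.swap_apply_right, key l1, key l2, key l3]
    · exact ha.2.2
    · exact hb
    · exact ha.1
    · intro hx
      exact hd2 b hx b List.mem_cons_self rfl
    · intro hx
      exact hd1 a hx a List.mem_cons_self rfl
    · intro hx
      exact hd1 b hx b (List.mem_cons_of_mem _ (List.mem_append_right _ List.mem_cons_self)) rfl
  rw [hmap]
  have hl' : Even (l1.length + (l2.length + l3.length)) := by
    rw [List.length_append, List.length_cons, List.length_append, List.length_cons] at hl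
    have e : l1.length + (l2.length + (l3.length + 1) + 1) =
      l1.length + (l2.length + l3.length) + 1 + 1 := by ring
    rw [e] at hl
    exact even_of_add_two hl
  have hE : Even (l1.length + (l2.length + (l3.length + 1)) + 1) := by
    have e : l1.length + (l2.length + (l3.length + 1)) + 1 =
      l1.length + (l2.length + l3.length) + 2 := by ring
    rw [e]
    exact hl'.add (by decide)
  have h1 := h.Cl_move hm l2 l1 (b :: l3) a (by rw [List.length_cons]; exact hE)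
  have h2 := h.Cl_move hm l2 l1 (a :: l3) b (by rw [List.length_cons]; exact hE)
  have h3 := h.Cl_adj hm (l1 ++ l2) l3 a b (by
    rw [List.length_append, add_assoc]
    exact hl')
  have h4 := Submodule.smul_mem T ((-1 : F) ^ l2.length) h3
  have h5 := Submodule.add_mem _ (Submodule.add_mem _ h1 h2) h4
  convert h5 using 1
  rw [smul_add]
  abel

/-- The product is alternating: exchange two entries of `l` (write `l = l1 ++ a :: l2 ++ b :: l3`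
and move by `Cl_adj`). -/
theorem HT.Cl_swap [CharZero F] {T : Submodule F (FL F)} (h : HT T) {m : FL F} (hm : m ∈ G3 F)
    {l : List ℕ} (hl : Even l.length) (hn : l.Nodup) {a b : ℕ} (ha : a ∈ l) (hb : b ∈ l)
    (hab : a ≠ b) : Cl (l.map (Equiv.swap a b)) m + Cl l m ∈ T := by
  obtain ⟨s, t, rfl⟩ := List.mem_iff_append.1 ha
  rcases List.mem_append.1 hb with hb | hb
  · obtain ⟨s1, s2, rfl⟩ := List.mem_iff_append.1 hb
    rw [List.append_assoc, List.cons_append] at hl hn ⊢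
    rw [Equiv.swap_comm]
    exact h.Cl_swap_aux hm s1 s2 t b a hl hn
  · rcases List.mem_cons.1 hb with hb | hb
    · exact absurd hb.symm hab
    · obtain ⟨t1, t2, rfl⟩ := List.mem_iff_append.1 hb
      exact h.Cl_swap_aux hm s t1 t2 a b hl hn

end

end Pool.Agent.Lib.MP_b4a71d_al
end
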