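import Pool.Agent.Lib.MP_b4a71d_al.K3a
import Pool.Agent.Lib.MP_b4a71d_al.Strong
import Pool.Agent.Lib.MP_b4a71d_al.LevelTwo
import Pool.Agent.Lib.MP_b4a71d_al.Eng.Fin8
import Pool.Agent.Lib.MP_b4a71d_al.H4a

section

/-!
# Level 3: the final theorem
-/

set_option autoImplicit false

namespace Pool.Agent.Lib.MP_b4a71d_al

universe u

noncomputable section

variable {F : Type u} [Field F]

/-! ### Auxiliary lemmas -/

/-- The sum of the three generators in the free Lie algebra. -/
private def f3G : FL F := ev 0 + ev 1 + ev 2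

private theorem f3_mkQ {T : Submodule F (FL F)} (hT : IsTIdeal F T) (p : R3 F) (f : FL F) :
    (TS hT).mkQ (pol p f) = p • (TS hT).mkQ f := by
  rw [← smul_eq_pol, map_smul]

private theorem f3_GG {T : Submodule F (FL F)} (hT : IsTIdeal F T) :
    GG (eq3 hT) = (TS hT).mkQ (f3G (F := F)) := by
  rw [GG, f3G, map_add, map_add]
  rfl

private theorem f3_mk_zero {T : Submodule F (FL F)} (hT : IsTIdeal F T) {f : FL F} :
    (TS hT).mkQ f = 0 ↔ f ∈ T := by
  rw [Submodule.mkQ_apply, Submodule.Quotient.mk_eq_zero, mem_TS]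

private theorem f3_hom_C_mul {p : R3 F} {m : ℕ} (c : F) (hp : p.IsHomogeneous m) :
    (MvPolynomial.C c * p).IsHomogeneous m := by
  have h1 := (MvPolynomial.isHomogeneous_C (Fin 3) c).mul hp
  rwa [zero_add] at h1

private theorem f3_s1_hom : (s1 : R3 F).IsHomogeneous 1 :=
  ((MvPolynomial.isHomogeneous_X F 0).add (MvPolynomial.isHomogeneous_X F 1)).add
    (MvPolynomial.isHomogeneous_X F 2)

private theorem f3_G_mem : f3G (F := F) ∈ KE (Finset.Icc 1 3) 2 :=
  Submodule.add_mem _ (Submodule.add_mem _ (ev_mem 0) (ev_mem 1)) (ev_mem 2)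

private theorem f3_ren_G (s : Equiv.Perm (Fin 3)) :
    ren (up3 s) (f3G (F := F)) = ((Equiv.Perm.sign s : ℤ) : F) • f3G := by
  have h1 : (f3G : FL F) = ∑ i : Fin 3, ev i := by
    rw [Fin.sum_univ_three, f3G]
  rw [h1, map_sum, Finset.smul_sum, ← Equiv.sum_comp s fun i => ((Equiv.Perm.sign s : ℤ) : F) •
    (ev i : FL F)]
  exact Finset.sum_congr rfl fun i _ => ren_ev s i

private theorem f3_rename_s1 (s : Equiv.Perm (Fin 3)) :
    MvPolynomial.rename s (s1 : R3 F) = s1 := by
  have h1 : (s1 : R3 F) = ∑ i : Fin 3, MvPolynomial.X i := by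
    rw [Fin.sum_univ_three, s1]
  rw [h1, map_sum, ← Equiv.sum_comp s fun i => (MvPolynomial.X i : R3 F)]
  exact Finset.sum_congr rfl fun i _ => MvPolynomial.rename_X _ _

/-- the index in `Fin 3` -/
private def f3i (n : ℕ) : Fin 3 := ⟨(n - 1) % 3, Nat.mod_lt _ (by norm_num)⟩

private theorem f3i_succ (i : Fin 3) : f3i ((i : ℕ) + 1) = i := by
  apply Fin.ext
  rw [f3i]
  simp only [Nat.add_sub_cancel]
  exact Nat.mod_eq_of_lt i.2

private theorem f3_idx {n : ℕ} (hn : n ∈ Finset.Icc 1 3) : ∃ i : Fin 3, n = (i : ℕ) + 1 := by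
  rw [Finset.mem_Icc] at hn
  exact ⟨⟨n - 1, by omega⟩, by simp only; omega⟩

private theorem f3_swap (i j : Fin 3) :
    Equiv.swap ((i : ℕ) + 1) ((j : ℕ) + 1) = up3 (Equiv.swap i j) := by
  apply Equiv.ext
  intro n
  by_cases hn : n ∈ Finset.Icc 1 3
  · obtain ⟨l, rfl⟩ := f3_idx hn
    rw [up3_apply]
    by_cases h1 : l = i
    · subst h1
      rw [Equiv.swap_apply_left, Equiv.swap_apply_left]
    · by_cases h2 : l = j
      · subst h2
        rw [Equiv.swap_apply_right, Equiv.swap_apply_right]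
      · rw [Equiv.swap_apply_of_ne_of_ne h1 h2, Equiv.swap_apply_of_ne_of_ne]
        · exact fun h => h1 (Fin.ext (by omega))
        · exact fun h => h2 (Fin.ext (by omega))
  · rw [up3_out _ hn, Equiv.swap_apply_of_ne_of_ne]
    · rintro rfl
      exact hn (Finset.mem_Icc.2 ⟨by omega, by omega⟩)
    · rintro rfl
      exact hn (Finset.mem_Icc.2 ⟨by omega, by omega⟩)

/-- The permutation criterion for level 3. -/
private theorem f3_perm [CharZero F] {T : Submodule F (FL F)} (hT : IsTIdeal F T) {d : ℕ}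
    (u : Fin 3 → FL F) (hu : ∀ i, u i ∈ KE (F := F) (Finset.Icc 1 3) (d + 2))
    (ε : F) (hε : ε = 1 ∨ ε = -1)
    (h : ∀ i j : Fin 3, i ≠ j → ∀ l : Fin 3,
      ren (up3 (Equiv.swap i j)) (u l) - ε • u (Equiv.swap i j l) ∈ T)
    (hspan : Nm (F := F) (eq3 hT) d ≤ Submodule.span F (Set.range fun i => (TS hT).mkQ (u i))) :
    LevelGood T 3 (d + 2) := by
  refine levelGood_of_perm_swap hT (fun n => u (f3i n)) (fun i _ => hu _) ε hε ?_ ?_
  · intro i hi j hj hij l hl
    obtain ⟨i, rfl⟩ := f3_idx hi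
    obtain ⟨j, rfl⟩ := f3_idx hj
    obtain ⟨l, rfl⟩ := f3_idx hl
    have h1 := h i j (fun h => hij (by rw [h])) l
    rw [f3_swap, up3_apply]
    simp only [f3i_succ]
    exact h1
  · apply KE_le_of_Nm hT d
    refine hspan.trans (Submodule.span_mono ?_)
    rintro _ ⟨i, rfl⟩
    refine ⟨u i, ⟨(i : ℕ) + 1, Finset.mem_Icc.2 ⟨by omega, by omega⟩, ?_⟩, rfl⟩
    simp only [f3i_succ]

private theorem f3_ren (s : Equiv.Perm (Fin 3)) (p : R3 F) :
    ren (up3 s) (pol p (f3G (F := F))) =
      ((Equiv.Perm.sign s : ℤ) : F) • pol (MvPolynomial.rename s p) f3G := by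
  rw [ren_pol, f3_ren_G, map_smul]

private theorem f3_sign_swap {i j : Fin 3} (h : i ≠ j) :
    ((Equiv.Perm.sign (Equiv.swap i j) : ℤ) : F) = -1 := by
  rw [Equiv.Perm.sign_swap h]
  simp

/-- a zero level from the vanishing of the polynomial module -/
private theorem f3_LZ [CharZero F] {T : Submodule F (FL F)} (hT : IsTIdeal F T) {d : ℕ}
    (h : Nm (F := F) (eq3 hT) d = ⊥) : LevelGood T 3 (d + 2) := by
  apply levelGood_of_LZ hT
  have h1 := KE_le_of_Nm hT d ∅ (by rw [h]; exact bot_le)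
  rwa [Submodule.span_empty, bot_sup_eq] at h1

private theorem f3_swap_idx : ∀ i j l : Fin 3, i ≠ j →
    Equiv.swap i j (l + 1) = Equiv.swap i j l + 2 ∧
    Equiv.swap i j (l + 2) = Equiv.swap i j l + 1 := by
  decide

private theorem f3_a2 {T : Submodule F (FL F)} (hT : IsTIdeal F T)
    (hs : ∀ i j : Fin 3, i ≠ j → ∀ a b : ℕ,
      (MvPolynomial.X i ^ (a + 1) * MvPolynomial.X j ^ (b + 2) : R3 F) • GG (eq3 hT)
        = - (MvPolynomial.X i ^ (a + 2) * MvPolynomial.X j ^ (b + 1) : R3 F) • GG (eq3 hT))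
    (i j : Fin 3) (hij : i ≠ j) (m : ℕ) : ∀ a : ℕ,
      (MvPolynomial.X i ^ (a + 1) * MvPolynomial.X j ^ (m + 1) : R3 F) • GG (eq3 hT)
        = ((-1 : F) ^ m) • ((MvPolynomial.X i ^ (a + m + 1) * MvPolynomial.X j : R3 F) •
          GG (eq3 hT)) := by
  induction m with
  | zero =>
    intro a
    rw [zero_add, pow_one, pow_zero, one_smul, add_zero]
  | succ m ih =>
    intro a
    have h1 : (-1 : F) ^ (m + 1) = -((-1 : F) ^ m) := by ring
    have h2 : a + (m + 1) + 1 = a + 1 + m + 1 := by ring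
    rw [hs i j hij a m, neg_smul, ih (a + 1), h1, h2, neg_smul]

/-- LEVEL 3.  Use `K_cases`.
* `z0 ≠ 0`: `caseA1`, vectors `s1^(m+1) t_i G`, `levelGood_of_perm_swap` with `ε = -1`
  (`ren_ev`, `G ↦ sgn G`).
* `z0 = 0`, `1 + 3 z1 ≠ 0`: `caseA2` with the vectors
  `δ_i = t_{i+1} t_{i+2}^(m+1) G`; a transposition maps `δ_i` to
  `- t_{i'+2} t_{i'+1}^(m+1) G = (-1)^(m+1) δ_{i'}` modulo `T` by `caseA2_sign`:
  `levelGood_of_perm_swap` with `ε = (-1)^(m+1)`.
* `z0 = 0`, `z1 = - 1/3`: `ARel_of_mem`, `caseA3_deg2` (`levelGood_of_perm_swap`, `ε = -1`),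
  `caseA3_deg3` (`levelGood_of_LZ`).
* `(0,0,1), (x,1,0)`: `caseB1` and `levelGood_transfer`, induction on `d` starting from
  `LevelGood T 3 3` (`⁅w, X F 0⁆ = s1 w` by `lie_x`).
* `(0,0,1), (1,0,0)`: `caseB2_deg2` (`levelGood_of_single`), `caseB2_deg3`. -/
theorem level3 [CharZero F] {T : Submodule F (FL F)} (hT : IsTIdeal F T)
    (h33 : LevelGood T 3 3) (ha : ∃ al be : F, (al, be) ≠ (0, 0) ∧ v411 al be ∈ T) (d : ℕ) :
    LevelGood T 3 (d + 4) := by
  have hE := eq3_rel hT
  obtain ⟨al, be, hab, habT⟩ := ha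
  have hA := ARel_of_mem hT habT
  rcases K_cases hT h33 with ⟨z0, z1, h1, h2⟩ | ⟨h1, x, h2⟩ | ⟨h1, h2⟩
  · have k1 := KRel_of_mem hT h1
    have k2 := KRel_of_mem hT h2
    by_cases hz : z0 = 0
    · subst hz
      by_cases hc : 1 + 3 * z1 = 0
      · -- case A3
        have hz1 : z1 = -1/3 := by
          have h3 : (3 : F) ≠ 0 := by norm_num
          field_simp
          linear_combination hc
        subst hz1
        rcases d with _ | d
        · refine f3_perm (d := 2) hT (fun i => pol (s1 * MvPolynomial.X i) f3G) ?_ (-1)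
            (Or.inr rfl) ?_ ?_
          · intro i
            exact pol_KE (m := 2) (f3_s1_hom.mul (MvPolynomial.isHomogeneous_X F i)) f3_G_mem
          · intro i j hij l
            rw [f3_ren, f3_sign_swap hij, map_mul, f3_rename_s1, MvPolynomial.rename_X, sub_self]
            exact T.zero_mem
          · have h3 := caseA3_deg2 hE k1 k2 hab hA
            simp only [f3_mkQ, ← f3_GG]
            exact h3
        · have h3 := f3_LZ hT (caseA3_deg3 hE k1 k2 hab hA d)
          have h4 : d + 1 + 4 = d + 3 + 2 := by ring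
          rw [h4]
          exact h3
      · -- case A2
        refine f3_perm (d := d + 2) hT (fun i => pol (MvPolynomial.X (i + 1) *
          MvPolynomial.X (i + 2) ^ (d + 1)) f3G) ?_ ((-1) ^ (d + 1)) ?_ ?_ ?_
        · intro i
          have h3 := (MvPolynomial.isHomogeneous_X F (i + 1)).mul
            ((MvPolynomial.isHomogeneous_X F (i + 2)).pow (d + 1))
          have h4 := pol_KE h3 f3_G_mem
          have h5 : 2 + (1 + 1 * (d + 1)) = d + 2 + 2 := by ring
          rw [h5] at h4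
          exact h4
        · exact neg_one_pow_eq_or F (d + 1)
        · intro i j hij l
          obtain ⟨e1, e2⟩ := f3_swap_idx i j l hij
          rw [f3_ren, f3_sign_swap hij, map_mul, map_pow, MvPolynomial.rename_X,
            MvPolynomial.rename_X, e1, e2]
          set l' := Equiv.swap i j l with hl'
          rw [← f3_mk_zero hT, map_sub]
          have hne : l' + 2 ≠ l' + 1 := by
            intro h
            have h3 := add_left_cancel h
            exact absurd h3 (by decide)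
          have h3 := f3_a2 hT (fun i j hij a b => caseA2_sign hE k1 k2 hc i j hij a b)
            (l' + 2) (l' + 1) hne d 0
          rw [zero_add, zero_add, pow_one, f3_GG, ← f3_mkQ, ← f3_mkQ] at h3
          have h6 : ∀ (c : F) (f : FL F), (TS hT).mkQ (c • f) = c • (TS hT).mkQ f := fun _ _ => rfl
          have h7 : (-1 : F) ^ (d + 1) = -1 * (-1 : F) ^ d := by ring
          rw [h6, h6, h3, mul_comm (MvPolynomial.X (l' + 2) ^ (d + 1)), smul_smul, h7, sub_self]
        · have h3 := caseA2 hE k1 k2 hc d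
          simp only [f3_mkQ, ← f3_GG]
          exact h3
    · -- case A1
      refine f3_perm (d := d + 2) hT (fun i => pol (s1 ^ (d + 1) * MvPolynomial.X i) f3G) ?_ (-1)
        (Or.inr rfl) ?_ ?_
      · intro i
        have h3 := (f3_s1_hom.pow (d + 1)).mul (MvPolynomial.isHomogeneous_X F i)
        have h4 := pol_KE h3 f3_G_mem
        have h5 : 2 + (1 * (d + 1) + 1) = d + 2 + 2 := by ring
        rw [h5] at h4
        exact h4
      · intro i j hij l
        rw [f3_ren, f3_sign_swap hij, map_mul, map_pow, f3_rename_s1, MvPolynomial.rename_X,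
          sub_self]
        exact T.zero_mem
      · have h3 := caseA1 hE k1 k2 hz d
        simp only [f3_mkQ, ← f3_GG]
        exact h3
  · -- case B1
    have k1 := KRel_of_mem hT h1
    have k2 := KRel_of_mem hT h2
    have hstep : ∀ m : ℕ, LevelGood T 3 (m + 3) → LevelGood T 3 (m + 3 + 1) := by
      intro m hm
      apply levelGood_transfer hT _ hm
      intro f hf
      have hf' : f ∈ KE (F := F) (Finset.Icc 1 3) ((m + 2) + 2) := hf
      obtain ⟨r, hr, hfr⟩ := gen3 hf'
      have h3 : (TS hT).mkQ f ∈ Nm (F := F) (eq3 hT) (m + 2) := by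
        rw [hfr, map_sum]
        apply Submodule.sum_mem
        intro i _
        rw [f3_mkQ]
        exact Submodule.subset_span ⟨r i, hr i, i, rfl⟩
      obtain ⟨w, hw, hfw⟩ := caseB1 hE k1 k2 m _ h3
      have h4 : ∀ w ∈ Nm (F := F) (eq3 hT) (m + 1), ∃ w' ∈ KE (F := F) (Finset.Icc 1 3) (m + 3),
          (TS hT).mkQ w' = w := by
        intro w hw
        rw [Nm] at hw
        induction hw using Submodule.span_induction with
        | mem x hx =>
          obtain ⟨p, hp, i, rfl⟩ := hx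
          refine ⟨pol p (ev i), ?_, f3_mkQ hT p (ev i)⟩
          have h5 := pol_KE hp (ev_mem i)
          have h6 : 2 + (m + 1) = m + 3 := by ring
          rwa [h6] at h5
        | zero => exact ⟨0, Submodule.zero_mem _, map_zero _⟩
        | add a b _ _ ih1 ih2 =>
          obtain ⟨a', ha', rfl⟩ := ih1
          obtain ⟨b', hb', rfl⟩ := ih2
          exact ⟨a' + b', Submodule.add_mem _ ha' hb', map_add _ _ _⟩
        | smul c a _ ih =>
          obtain ⟨a', ha', rfl⟩ := ih
          exact ⟨c • a', Submodule.smul_mem _ _ ha', rfl⟩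
      obtain ⟨w', hw', rfl⟩ := h4 w hw
      refine ⟨w', hw', ?_⟩
      have h5 : ⁅w', X F 0⁆ = pol s1 w' := by
        rw [lie_x (zero_notMem_Icc 3) (KE_le _ _ hw'), s1, map_add, map_add, LinearMap.add_apply,
          LinearMap.add_apply, pol_X, pol_X, pol_X]
        have h6 : Finset.Icc 1 3 = {1, 2, 3} := by decide
        rw [h6, Finset.sum_insert (by decide), Finset.sum_insert (by decide),
          Finset.sum_singleton, add_assoc]
        rfl
      rw [h5, ← f3_mk_zero hT, map_sub, f3_mkQ, hfw, sub_self]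
    have hall : ∀ m : ℕ, LevelGood T 3 (m + 3) := by
      intro m
      induction m with
      | zero => exact h33
      | succ m ih =>
        have h3 := hstep m ih
        have h4 : m + 1 + 3 = m + 3 + 1 := by ring
        rw [h4]
        exact h3
    exact hall (d + 1)
  · -- case B2
    have k1 := KRel_of_mem hT h1
    have k2 := KRel_of_mem hT h2
    rcases d with _ | d
    · apply levelGood_of_single hT (pol (MvPolynomial.X 2 ^ 2) (ev 0))
      apply KE_le_of_Nm hT 2
      have h3 := caseB2_deg2 hE k1 k2 hab hA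
      rw [Set.image_singleton, f3_mkQ]
      exact h3
    · have h3 := f3_LZ hT (caseB2_deg3 hE k1 k2 hab hA d)
      have h4 : d + 1 + 4 = d + 3 + 2 := by ring
      rw [h4]
      exact h3

end

end Pool.Agent.Lib.MP_b4a71d_al
end

section

/-!
# The bound six is sharp
-/

set_option autoImplicit false

namespace Pool.Agent.Lib.MP_b4a71d_al

universe u

noncomputable section

variable {F : Type u} [Field F]

/-! ### Auxiliary lemmas -/

private def shi (n : ℕ) : Fin 3 := ⟨(n - 1) % 3, Nat.mod_lt _ (by norm_num)⟩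

private theorem shi_succ (i : Fin 3) : shi ((i : ℕ) + 1) = i := by
  apply Fin.ext
  rw [shi]
  simp only [Nat.add_sub_cancel]
  exact Nat.mod_eq_of_lt i.2

private theorem sh_idx {n : ℕ} (hn : n ∈ Finset.Icc 1 3) : ∃ i : Fin 3, n = (i : ℕ) + 1 := by
  rw [Finset.mem_Icc] at hn
  exact ⟨⟨n - 1, by omega⟩, by simp only; omega⟩

private theorem sh_swap (i j : Fin 3) :
    Equiv.swap ((i : ℕ) + 1) ((j : ℕ) + 1) = up3 (Equiv.swap i j) := by
  apply Equiv.ext
  intro n
  by_cases hn : n ∈ Finset.Icc 1 3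
  · obtain ⟨l, rfl⟩ := sh_idx hn
    rw [up3_apply]
    by_cases h1 : l = i
    · subst h1
      rw [Equiv.swap_apply_left, Equiv.swap_apply_left]
    · by_cases h2 : l = j
      · subst h2
        rw [Equiv.swap_apply_right, Equiv.swap_apply_right]
      · rw [Equiv.swap_apply_of_ne_of_ne h1 h2, Equiv.swap_apply_of_ne_of_ne]
        · exact fun h => h1 (Fin.ext (by omega))
        · exact fun h => h2 (Fin.ext (by omega))
  · rw [up3_out _ hn, Equiv.swap_apply_of_ne_of_ne]
    · rintro rfl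
      exact hn (Finset.mem_Icc.2 ⟨by omega, by omega⟩)
    · rintro rfl
      exact hn (Finset.mem_Icc.2 ⟨by omega, by omega⟩)

private theorem sh_22 [CharZero F] {T : Submodule F (FL F)} (hT : IsTIdeal F T) :
    LevelGood T 2 2 := by
  apply levelGood_of_single hT (MM 1 1)
  refine le_trans (KE_two 1) (le_trans (Submodule.span_le.2 ?_) le_sup_left)
  rintro _ ⟨a, b, hab, rfl⟩
  obtain rfl : a = 0 := by omega
  obtain rfl : b = 0 := by omega
  exact Submodule.mem_span_singleton_self _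

private theorem sh_23 [CharZero F] {T : Submodule F (FL F)} (hT : IsTIdeal F T) :
    LevelGood T 2 3 := by
  have hcase : ∀ i ∈ Finset.Icc 1 2, i = 1 ∨ i = 2 := by
    intro i hi
    rw [Finset.mem_Icc] at hi
    omega
  set v : ℕ → FL F := fun n => if n = 1 then MM 2 1 else MM 1 2 with hv
  have hv1 : v 1 = MM 2 1 := if_pos rfl
  have hv2 : v 2 = MM 1 2 := if_neg (by norm_num)
  refine levelGood_of_perm_swap hT v ?_ (-1) (Or.inr rfl) ?_ ?_
  · intro i hi
    rcases hcase i hi with rfl | rfl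
    · rw [hv1]
      exact MM_KE 1 0
    · rw [hv2]
      exact MM_KE 0 1
  · intro i hi j hj hij l hl
    have hsw : Equiv.swap i j = Equiv.swap 1 2 := by
      rcases hcase i hi with rfl | rfl
      · rcases hcase j hj with rfl | rfl
        · exact absurd rfl hij
        · rfl
      · rcases hcase j hj with rfl | rfl
        · exact Equiv.swap_comm _ _
        · exact absurd rfl hij
    rw [hsw]
    rcases hcase l hl with rfl | rfl
    · rw [Equiv.swap_apply_left, hv1, hv2, ren_MM, neg_smul, one_smul, sub_self]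
      exact T.zero_mem
    · rw [Equiv.swap_apply_right, hv1, hv2, ren_MM, neg_smul, one_smul, sub_self]
      exact T.zero_mem
  · refine le_trans (KE_two 2) (le_trans (Submodule.span_mono ?_) le_sup_left)
    rintro _ ⟨a, b, hab, rfl⟩
    rcases Nat.eq_zero_or_pos a with rfl | ha
    · obtain rfl : b = 1 := by omega
      exact ⟨2, by simp, hv2.symm⟩
    · obtain rfl : a = 1 := by omega
      obtain rfl : b = 0 := by omega
      exact ⟨1, by simp, hv1.symm⟩

private theorem sh_32 [CharZero F] {T : Submodule F (FL F)} (hT : IsTIdeal F T) :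
    LevelGood T 3 2 := by
  refine levelGood_of_perm_swap hT (fun n => ev (shi n)) (fun i _ => ev_mem _) (-1) (Or.inr rfl)
    ?_ ?_
  · intro i hi j hj hij l hl
    obtain ⟨i, rfl⟩ := sh_idx hi
    obtain ⟨j, rfl⟩ := sh_idx hj
    obtain ⟨l, rfl⟩ := sh_idx hl
    have hne : i ≠ j := fun h => hij (by rw [h])
    rw [sh_swap, up3_apply]
    simp only [shi_succ]
    rw [ren_ev, Equiv.Perm.sign_swap hne]
    simp
  · intro f hf
    obtain ⟨r, hr, rfl⟩ := gen3 (d := 0) hf
    apply Submodule.mem_sup_left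
    apply Submodule.sum_mem
    intro i _
    have h1 : r i = MvPolynomial.C (MvPolynomial.coeff 0 (r i)) := by
      have h2 : (r i).totalDegree = 0 := by
        by_cases h0 : r i = 0
        · rw [h0, MvPolynomial.totalDegree_zero]
        · exact (hr i).totalDegree h0
      exact MvPolynomial.totalDegree_eq_zero_iff_eq_C.1 h2
    rw [h1, pol_C]
    apply Submodule.smul_mem
    apply Submodule.subset_span
    exact ⟨(i : ℕ) + 1, Finset.mem_Icc.2 ⟨by omega, by omega⟩, by simp only [shi_succ]⟩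

private theorem sh_MM_pol (a b : ℕ) : MM (F := F) a b =
    pol (MvPolynomial.X 0 ^ a * MvPolynomial.X 1 ^ b) ⁅X F 1, X F 2⁆ := by
  have h2 : ∀ b, pol (MvPolynomial.X 1 ^ b) ⁅X F 1, X F 2⁆ = MM (F := F) 0 b := by
    intro b
    induction b with
    | zero =>
      rw [pow_zero]
      change (pol (1 : R3 F)) ⁅X F 1, X F 2⁆ = _
      rw [map_one, Module.End.one_apply]
      rfl
    | succ b ih =>
      rw [pow_succ', pol_mul, ih, pol_X]
      exact tt2_MM 0 b
  induction a with
  | zero => rw [pow_zero, one_mul, h2]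
  | succ a ih =>
    rw [pow_succ', mul_assoc, pol_mul, ← ih, pol_X]
    exact (tt1_MM a b).symm

/-- All levels of degree at most five are good, for every T-ideal.
`(k, 0)`, `(k, 1)` with `k ≥ 2`: `LZ_zero_right`, `LZ_one_right`; `k = 0, 1`: `level_zero`,
`level_one`; `(2, 2)`: one vector (`KE_two`, `levelGood_of_single`); `(2, 3)`: `KE_two`: the
vectors `MM 2 1`, `MM 1 2`, exchanged by the swap with the sign `-1` (`levelGood_of_perm_swap`);
`(3, 2)`: the vectors `ev 0, ev 1, ev 2` (`gen3`, `ren_ev`, `levelGood_of_perm_swap`). -/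
theorem good_five [CharZero F] {T : Submodule F (FL F)} (hT : IsTIdeal F T) {k d : ℕ}
    (hkd : k + d ≤ 5) : LevelGood T k d := by
  rcases Nat.lt_or_ge k 2 with hk | hk
  · interval_cases k
    · exact level_zero hT d
    · exact level_one d
  rcases d with _ | _ | _ | _ | d
  · exact levelGood_of_LZ hT (LZ_zero_right hT (by omega))
  · exact levelGood_of_LZ hT (LZ_one_right hT hk)
  · rcases Nat.lt_or_ge k 3 with hk3 | hk3
    · obtain rfl : k = 2 := by omega
      exact sh_22 hT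
    · obtain rfl : k = 3 := by omega
      exact sh_32 hT
  · obtain rfl : k = 2 := by omega
    exact sh_23 hT
  · omega

/-- The Lie algebras of class at most five form a distributive variety.
`idl (nilp F 5) = High F 6` (`genT_lnorm`); `distT_of_distAt`, `distAt_of_levelGood`; levels
with `k + d ≥ 6`: `W k d ≤ T`. -/
theorem distributive_nilp_five [CharZero F] : IsDistributive F (nilp F 5) := by
  have hT := high_isTIdeal (F := F) 6
  have hidl : idl F (nilp F 5) = High F 6 := by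
    rw [nilp, idl_models_eq_genT, genT_lnorm]
  rw [isDistributive_iff (V := nilp F 5) (isVariety_models _), hidl]
  apply distT_of_distAt
  intro n _
  apply distAt_of_levelGood
  intro k d _ _
  by_cases hkd : k + d ≤ 5
  · exact good_five hT hkd
  · apply levelGood_of_LZ hT
    refine le_trans (KE_le _ _) ?_
    intro f hf
    refine mem_supC (p := fun s => 6 ≤ Multiset.card s) ?_ hf
    rw [card_cont]
    omega

/-- The Lie algebras of class at most six do not.  Otherwise `levelGood_of_distT` and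
`level_two_rel` give `al • (MM 3 1 + MM 1 3) + be • MM 2 2 ∈ High F 7`, so this element of degree 6
is zero, but `MM 3 1`, `MM 2 2`, `MM 1 3` are linearly independent (`pol_faithful` or an
evaluation in matrices). -/
theorem not_distributive_nilp_six [CharZero F] : ¬ IsDistributive F (nilp F 6) := by
  intro hd
  have hT := high_isTIdeal (F := F) 7
  have hidl : idl F (nilp F 6) = High F 7 := by
    rw [nilp, idl_models_eq_genT, genT_lnorm]
  rw [isDistributive_iff (V := nilp F 6) (isVariety_models _), hidl] at hd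
  obtain ⟨al, be, hab, hm⟩ := level_two_rel hT (levelGood_of_distT hT hd 2 4)
  set f : FL F := al • (MM 3 1 + MM 1 3) + be • MM 2 2 with hf
  have hfW : f ∈ W (F := F) 2 4 :=
    Submodule.add_mem _ (Submodule.smul_mem _ _ (Submodule.add_mem _ (MM_mem 3 1) (MM_mem 1 3)))
      (Submodule.smul_mem _ _ (MM_mem 2 2))
  have h1 : cmp (cont (Finset.Icc 1 2) 4) f = f := cmp_of_mem hfW
  have h2 : cmp (cont (Finset.Icc 1 2) 4) f = 0 :=
    cmp_supC (p := fun s => 7 ≤ Multiset.card s) (by rw [card_cont]; omega) hm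
  have h3 : f = 0 := by rw [← h1, h2]
  set p : R3 F := al • (MvPolynomial.X 0 ^ 3 * MvPolynomial.X 1 ^ 1 +
    MvPolynomial.X 0 ^ 1 * MvPolynomial.X 1 ^ 3) +
    be • (MvPolynomial.X 0 ^ 2 * MvPolynomial.X 1 ^ 2) with hp
  have h4 : f = pol p ⁅X F 1, X F 2⁆ := by
    rw [hf, sh_MM_pol, sh_MM_pol, sh_MM_pol, hp, map_add, map_smul, map_smul, map_add]
    rfl
  have h5 : p = 0 := by
    apply pol_faithful (2 : Fin 3) p
    · rw [hp]
      simp only [map_add, map_smul, map_mul, map_pow, MvPolynomial.aeval_X]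
      rw [Function.update_of_ne (by decide), Function.update_of_ne (by decide)]
    · change pol p ⁅X F 1, X F 2⁆ = 0
      rw [← h4, h3]
  have h6 : ∀ a : F, al * (a ^ 3 + a) + be * a ^ 2 = 0 := by
    intro a
    obtain ⟨g, hg0, hg1⟩ : ∃ g : Fin 3 → F, g 0 = a ∧ g 1 = 1 :=
      ⟨fun i => if i = 0 then a else 1, if_pos rfl, if_neg (by decide)⟩
    have h7 := congrArg (MvPolynomial.eval g) h5
    rw [hp] at h7
    simp only [map_add, MvPolynomial.smul_eval, map_mul, map_pow, MvPolynomial.eval_X, map_zero,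
      hg0, hg1] at h7
    linear_combination h7
  have h8 := h6 1
  have h9 := h6 2
  have h10 : al = 0 := by
    have h11 : (2 : F) * al = 0 := by linear_combination h9 - 4 * h8
    rcases mul_eq_zero.1 h11 with h12 | h12
    · exact absurd h12 two_ne_zero
    · exact h12
  have h13 : be = 0 := by
    rw [h10] at h8
    linear_combination h8
  rcases hab with h | h
  · exact h h10
  · exact h h13

end

end Pool.Agent.Lib.MP_b4a71d_al
end

section

/-!
# MP_b4a71d_al: the levels of degree 7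
-/

set_option autoImplicit false
set_option linter.unusedSectionVars false

namespace Pool.Agent.Lib.MP_b4a71d_al.Eng

universe u

noncomputable section

variable {F : Type u} [Field F] [CharZero F]

/-! ### Left multiplication of the antisymmetrizer by transpositions -/

theorem symE_commute {ε : F} (A : List ℕ) (hA : A.Nodup) {t : ℕ} (ht : t ∉ A)
    (B : List ℕ) (hB : B.Nodup) (hAB : ∀ a ∈ A, a ∈ B) (htB : t ∉ B) :
    Commute (symE ε A : Module.End F (FL F))
      ((B.map (fun c => (sw c t : Module.End F (FL F)))).sum) := by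
  induction A with
  | nil => rw [symE_nil]; exact Commute.one_left _
  | cons s A ih =>
    have hA' := List.nodup_cons.1 hA
    rw [symE_cons]
    refine Commute.mul_left (ih hA'.2 (fun h => ht (List.mem_cons_of_mem _ h))
      (fun a ha => hAB a (List.mem_cons_of_mem _ ha))) ?_
    refine Commute.add_left (Commute.one_left _) (Commute.smul_left ?_ _)
    have key : ∀ L : List ℕ, (∀ a ∈ L, a ∈ B) → Commute
        ((L.map (fun a => (sw a s : Module.End F (FL F)))).sum)
        ((B.map (fun c => (sw c t : Module.End F (FL F)))).sum) := by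
      intro L hL
      induction L with
      | nil => exact Commute.zero_left _
      | cons a L ihL =>
        rw [List.map_cons, List.sum_cons]
        refine Commute.add_left ?_ (ihL fun a ha => hL a (List.mem_cons_of_mem _ ha))
        exact (sum_sw_comm hB (hL a List.mem_cons_self) (hAB s List.mem_cons_self) htB).symm
    exact key A (fun a ha => hAB a (List.mem_cons_of_mem _ ha))

/-- Left multiplication of the (anti)symmetrizer by a transposition. -/
theorem sw_symE {ε : F} (hε : ε * ε = 1) (l : List ℕ) (hl : l.Nodup) {a b : ℕ} (ha : a ∈ l)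
    (hb : b ∈ l) (hab : a ≠ b) : sw a b * symE ε l = ε • (symE ε l : Module.End F (FL F)) := by
  induction l generalizing a b with
  | nil => exact absurd ha List.not_mem_nil
  | cons t A ih =>
    have hA := (List.nodup_cons.1 hl).2
    have htA := (List.nodup_cons.1 hl).1
    have hcomm := symE_commute (F := F) (ε := ε) A hA htA A hA (fun _ h => h) htA
    have hL : (symE ε (t :: A) : Module.End F (FL F)) =
        (1 + ε • (A.map (fun a => (sw a t : Module.End F (FL F)))).sum) * symE ε A := by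
      rw [symE_cons, mul_add, mul_one, add_mul, one_mul, mul_smul_comm, smul_mul_assoc,
        hcomm.eq]
    -- the case of the new letter
    have hnew : ∀ b ∈ A, sw b t * symE ε (t :: A) =
        ε • (symE ε (t :: A) : Module.End F (FL F)) := by
      intro b hb
      have h1 : ∀ c ∈ A, (sw b t * sw c t : Module.End F (FL F)) * symE ε A =
          if c = b then symE ε A else ε • (sw c t * symE ε A) := by
        intro c hc
        by_cases hcb : c = b
        · rw [if_pos hcb, hcb, sw_sq, one_mul]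
        · rw [if_neg hcb]
          have htc : t ≠ c := by
            rintro rfl
            exact htA hc
          have htb : t ≠ b := by
            rintro rfl
            exact htA hb
          have h2 : (sw b t * sw c t : Module.End F (FL F)) = sw c t * sw b c := by
            rw [sw_mul_sw c t b c, Equiv.swap_apply_of_ne_of_ne (Ne.symm hcb) (Ne.symm htb),
              Equiv.swap_apply_left]
          rw [h2, mul_assoc, ih hA hb hc (Ne.symm hcb), mul_smul_comm]
      rw [hL, ← mul_assoc, mul_add, mul_one, mul_smul_comm, sum_map_mul_left, add_mul,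
        smul_mul_assoc, sum_map_mul_right, add_mul, one_mul, smul_mul_assoc, sum_map_mul_right]
      have h3 : (A.map (fun a => (sw b t * sw a t : Module.End F (FL F)) * symE ε A)) =
          A.map (fun c => if c = b then symE ε A else ε • (sw c t * symE ε A)) :=
        List.map_congr_left h1
      rw [h3]
      have key : ∀ L : List ℕ, L.Nodup → b ∈ L →
          (L.map (fun c => if c = b then (symE ε A : Module.End F (FL F)) else
            ε • (sw c t * symE ε A))).sum + ε • (sw b t * symE ε A) =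
          symE ε A + ε • (L.map (fun c => (sw c t : Module.End F (FL F)) * symE ε A)).sum := by
        intro L hL hbL
        induction L with
        | nil => exact absurd hbL List.not_mem_nil
        | cons c L ihL =>
          rw [List.map_cons, List.sum_cons, List.map_cons, List.sum_cons, smul_add]
          have hL' := List.nodup_cons.1 hL
          by_cases hcb : c = b
          · subst hcb
            rw [if_pos rfl]
            have h4 : (L.map (fun d => if d = c then (symE ε A : Module.End F (FL F)) else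
                ε • (sw d t * symE ε A))).sum =
                ε • (L.map (fun d => (sw d t : Module.End F (FL F)) * symE ε A)).sum := by
              have h5 : (L.map (fun d => if d = c then (symE ε A : Module.End F (FL F)) else
                  ε • (sw d t * symE ε A))) =
                  (L.map (fun d => ε • ((sw d t : Module.End F (FL F)) * symE ε A))) := by
                apply List.map_congr_left
                intro d hd
                rw [if_neg]
                rintro rfl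
                exact hL'.1 hd
              rw [h5]
              clear h5 ihL hbL hL hL' h3 h1
              induction L with
              | nil => simp
              | cons d L ihL =>
                rw [List.map_cons, List.sum_cons, ihL, List.map_cons, List.sum_cons, smul_add]
            rw [h4]
            abel
          · rw [if_neg hcb]
            have hbL' := (List.mem_cons.1 hbL).resolve_left (Ne.symm hcb)
            have := ihL hL'.2 hbL'
            calc ε • (sw c t * symE ε A : Module.End F (FL F)) +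
                  (L.map (fun c => if c = b then (symE ε A : Module.End F (FL F)) else
                    ε • (sw c t * symE ε A))).sum + ε • (sw b t * symE ε A)
                = ε • (sw c t * symE ε A) + ((L.map (fun c => if c = b then
                    (symE ε A : Module.End F (FL F)) else ε • (sw c t * symE ε A))).sum +
                    ε • (sw b t * symE ε A)) := by abel
              _ = _ := by rw [this]; abel
      have h6 := key A hA hb
      have h7 : (sw b t * symE ε A : Module.End F (FL F)) = ε • (ε • (sw b t * symE ε A)) := by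
        rw [smul_smul, hε, one_smul]
      rw [smul_add, smul_smul, hε, one_smul]
      calc sw b t * symE ε A + ε • (A.map (fun c => if c = b then
              (symE ε A : Module.End F (FL F)) else ε • (sw c t * symE ε A))).sum
          = ε • ((A.map (fun c => if c = b then (symE ε A : Module.End F (FL F)) else
              ε • (sw c t * symE ε A))).sum + ε • (sw b t * symE ε A)) := by
            rw [smul_add, ← h7]; abel
        _ = ε • (symE ε A + ε • (A.map (fun c => (sw c t : Module.End F (FL F)) *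
              symE ε A)).sum) := by rw [h6]
        _ = _ := by rw [smul_add, smul_smul, hε, one_smul]
    rcases List.mem_cons.1 ha with rfl | ha'
    · rcases List.mem_cons.1 hb with rfl | hb'
      · exact absurd rfl hab
      · rw [sw_comm]
        exact hnew b hb'
    · rcases List.mem_cons.1 hb with rfl | hb'
      · exact hnew a ha'
      · rw [symE_cons, ← mul_assoc, ih hA ha' hb' hab, smul_mul_assoc]

theorem sw_altL (l : List ℕ) (hl : l.Nodup) {a b : ℕ} (ha : a ∈ l) (hb : b ∈ l) (hab : a ≠ b)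
    (w : FL F) : ren (Equiv.swap a b) (altL l w) = -altL l w := by
  have h1 := sw_symE (F := F) (ε := -1) (by ring) l hl ha hb hab
  have h2 := congrArg (fun A : Module.End F (FL F) => A w) h1
  beta_reduce at h2
  rw [Module.End.mul_apply, LinearMap.smul_apply, neg_smul, one_smul] at h2
  exact h2

/-- Products of disjoint antisymmetrizers, the first one over two letters. -/
theorem altL_pair_sw (x y : ℕ) {a b : ℕ} (hxa : x ≠ a) (hxb : x ≠ b) (hya : y ≠ a) (hyb : y ≠ b)
    (w : FL F) : altL [x, y] (ren (Equiv.swap a b) w) = ren (Equiv.swap a b) (altL [x, y] w) := by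
  have h1 : ∀ v : FL F, altL [x, y] v = v - ren (Equiv.swap y x) v := by
    intro v
    rw [altL_cons, altL_cons]
    simp [altL, symE_nil]
  have h2 : ren (Equiv.swap y x) (ren (Equiv.swap a b) w) =
      ren (Equiv.swap a b) (ren (Equiv.swap y x) w) := by
    have h3 := sw_mul_sw (F := F) y x a b
    rw [Equiv.swap_apply_of_ne_of_ne hya.symm hxa.symm,
      Equiv.swap_apply_of_ne_of_ne hyb.symm hxb.symm] at h3
    have h4 := congrArg (fun A : Module.End F (FL F) => A w) h3
    exact h4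
  rw [h1, h1, h2, map_sub]

/-! ### From `Adm` to `PAdm` -/

/-- the pairs of different letters of `A` -/
def pr (A : Finset ℕ) : Set (ℕ × ℕ) := {p | p.1 ∈ A ∧ p.2 ∈ A ∧ p.1 ≠ p.2}

variable {T : Submodule F (FL F)}

theorem adm_mem {k d : ℕ} {C : Set (ℕ × ℕ)} {L : Set (Module.End F (FL F))}
    {φ : FL F →ₗ[F] F} (h : Adm T k d C L φ) : φ ∈ PAdm T k d L :=
  ⟨h.lam, h.ideal, fun _ hp => absurd hp (Set.notMem_empty _), h.kill⟩

theorem adm_eqS {k d : ℕ} {C : Set (ℕ × ℕ)} {L : Set (Module.End F (FL F))}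
    {φ : FL F →ₗ[F] F} (h : Adm T k d C L φ) {A : Finset ℕ} (hA : pr A ⊆ C) :
    EqS k d φ true A := by
  intro a ha b hb hab w hw
  rw [h.anti (a, b) (hA ⟨ha, hb, hab⟩) w hw, sg, if_pos rfl, neg_one_mul]

/-! ### The certificates of degree 7 -/

/-- the three cases -/
def kn7 : List Kn := [[([], [2])], [([2], [0])], [([0, 2], [1])]]

theorem knOK1 {β : ℕ → F} {x : List ℕ × List ℕ} (hx : KO β x) : KnOK [β] [x] := by
  intro f u hf β' hβ'
  rcases f with _ | f
  · rw [getL, Option.some.injEq] at hf hβ'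
    subst hf hβ'
    exact hx
  · simp [getL] at hf

theorem b_kn {β : ℕ → F} (h : FamT T FB β) : ∃ kn ∈ kn7, KnOK [β] kn := by
  have h0 := FamT.ne3 h
  by_cases h2 : β 2 = 0
  · by_cases h1 : β 0 = 0
    · have h3 : β 1 ≠ 0 := by tauto
      exact ⟨_, by simp [kn7], knOK1 (x := ([0, 2], [1])) ⟨by simp [h1, h2], by simp [h3]⟩⟩
    · exact ⟨_, by simp [kn7], knOK1 (x := ([2], [0])) ⟨by simp [h2], by simp [h1]⟩⟩
  · exact ⟨_, by simp [kn7], knOK1 (x := ([], [2])) ⟨by simp, by simp [h2]⟩⟩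

/-- Dependency of the functionals of a type in degree 7. -/
theorem Cert.dep7 {c : Cert} {d n : ℕ} (hok : (c.chk && c.cov d) = true) (hk : 1 ≤ c.cx.k)
    {kns : List Kn}
    (hhd : (c.cases.map (fun x => (x.1, x.2.1.length))).take n = kns.map (fun k => (k, 1)))
    (hT : IsTIdeal F T) {φ ψ : FL F →ₗ[F] F} (hφ : LF T c.cx.k d φ)
    (hψ : LF T c.cx.k d ψ) (hg : GrpOK c.cx d φ) (hg' : GrpOK c.cx d ψ) {B : List (ℕ → F)}
    (hB : FamsT T c.fams B) (hkn : ∃ kn ∈ kns, KnOK B kn) : ∃ a b : F, (a ≠ 0 ∨ b ≠ 0) ∧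
      ∀ w ∈ W (F := F) c.cx.k d, a * φ w + b * ψ w = 0 := by
  obtain ⟨kn, hkn, hk2⟩ := hkn
  have h1 : (kn, 1) ∈ (c.cases.map (fun x => (x.1, x.2.1.length))).take n := by
    rw [hhd]
    exact List.mem_map.2 ⟨kn, hkn, rfl⟩
  obtain ⟨x, hx, hx2⟩ := List.mem_map.1 (List.mem_of_mem_take h1)
  rw [Prod.mk.injEq] at hx2
  exact Cert.dep hok hk hT hφ hψ hg hg' hB hx (by rw [hx2.1]; exact hk2) (by rw [hx2.2])

/-- Vanishing of the functionals of a type in degree 7 at S. -/
theorem Cert.zeroS {c : Cert} {d : ℕ} (hok : (c.chk && c.cov d) = true) (hk : 1 ≤ c.cx.k)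
    (hhd : (getL c.cases 3).map (fun x => (x.1, x.2.1)) =
      some ([([1, 2], [0])], ([] : List Cb)))
    (hT : IsTIdeal F T) {φ : FL F →ₗ[F] F} (hφ : LF T c.cx.k d φ) (hg : GrpOK c.cx d φ)
    {β : ℕ → F} {ops : List Op} (hc : c.fams = [(FB, ops)]) (hB : FamT T FB β)
    (h1 : β 1 = 0) (h2 : β 2 = 0) : VanW c.cx.k d φ := by
  obtain ⟨x, hx, hx2⟩ := Option.map_eq_some_iff.1 hhd
  rw [Prod.mk.injEq] at hx2
  have h0 := FamT.ne3 hB
  have h3 : β 0 ≠ 0 := by tauto
  have hB' : FamsT T c.fams [β] := by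
    rw [hc]
    exact ⟨hB, trivial⟩
  refine Cert.zero hok hk hT hφ hg (hB'.weak _) (getL_mem hx) ?_ ?_
  · rw [hx2.1]
    exact knOK1 (x := ([1, 2], [0])) ⟨by simp [h1, h2], by simp [h3]⟩
  · rw [hx2.2]
    intro cb hcb
    simp at hcb

/-- two functionals are dependent on `W k d` -/
def Dep (k d : ℕ) (φ ψ : FL F →ₗ[F] F) : Prop :=
  ∃ a b : F, (a ≠ 0 ∨ b ≠ 0) ∧ ∀ w ∈ W (F := F) k d, a * φ w + b * ψ w = 0

variable {β : ℕ → F}

theorem fams1 (hB : FamT T FB β) (ops : List Op) : FamsT T [(FB, ops)] [β] := ⟨hB, trivial⟩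

theorem dep31111 (hT : IsTIdeal F T) (hB : FamT T FB β) {φ ψ : FL F →ₗ[F] F}
    (hφ : LF T 4 3 φ) (hψ : LF T 4 3 ψ)
    (h1 : EqS 4 3 φ true {1, 2, 3, 4})
    (h1' : EqS 4 3 ψ true {1, 2, 3, 4}) :
    Dep 4 3 φ ψ :=
  Cert.dep7 (kns := kn7) (n := 3) ok31111 (by decide) rfl hT hφ hψ (grp31111 h1)
    (grp31111 h1') (fams1 hB _) (b_kn hB)

theorem dep3211 (hT : IsTIdeal F T) (hB : FamT T FB β) {φ ψ : FL F →ₗ[F] F}
    (hφ : LF T 4 3 φ) (hψ : LF T 4 3 ψ)
    (h1 : EqS 4 3 φ true {2, 3, 4})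
    (g1 : VanW 4 3 (gar φ true {2, 3, 4} 1))
    (h1' : EqS 4 3 ψ true {2, 3, 4})
    (g1' : VanW 4 3 (gar ψ true {2, 3, 4} 1)) :
    Dep 4 3 φ ψ :=
  Cert.dep7 (kns := kn7) (n := 3) ok3211 (by decide) rfl hT hφ hψ (grp3211 h1 g1)
    (grp3211 h1' g1') (fams1 hB _) (b_kn hB)

theorem dep322 (hT : IsTIdeal F T) (hB : FamT T FB β) {φ ψ : FL F →ₗ[F] F}
    (hφ : LF T 4 3 φ) (hψ : LF T 4 3 ψ)
    (h1 : EqS 4 3 φ true {1, 2})
    (h2 : EqS 4 3 φ true {3, 4})
    (g1 : VanW 4 3 (gar φ true {1, 2} 3))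
    (g2 : VanW 4 3 (gar φ true {1, 2} 4))
    (h1' : EqS 4 3 ψ true {1, 2})
    (h2' : EqS 4 3 ψ true {3, 4})
    (g1' : VanW 4 3 (gar ψ true {1, 2} 3))
    (g2' : VanW 4 3 (gar ψ true {1, 2} 4)) :
    Dep 4 3 φ ψ :=
  Cert.dep7 (kns := kn7) (n := 3) ok322 (by decide) rfl hT hφ hψ (grp322 h1 h2 g1 g2)
    (grp322 h1' h2' g1' g2') (fams1 hB _) (b_kn hB)

theorem dep331b (hT : IsTIdeal F T) (hB : FamT T FB β) {φ ψ : FL F →ₗ[F] F}
    (hφ : LF T 4 3 φ) (hψ : LF T 4 3 ψ)
    (h1 : EqS 4 3 φ true {1, 2})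
    (h2 : EqS 4 3 φ false {3, 4})
    (g1 : VanW 4 3 (gar φ true {1, 2} 3))
    (g2 : VanW 4 3 (gar φ true {1, 2} 4))
    (h1' : EqS 4 3 ψ true {1, 2})
    (h2' : EqS 4 3 ψ false {3, 4})
    (g1' : VanW 4 3 (gar ψ true {1, 2} 3))
    (g2' : VanW 4 3 (gar ψ true {1, 2} 4)) :
    Dep 4 3 φ ψ :=
  Cert.dep7 (kns := kn7) (n := 3) ok331b (by decide) rfl hT hφ hψ (grp331b h1 h2 g1 g2)
    (grp331b h1' h2' g1' g2') (fams1 hB _) (b_kn hB)

theorem dep211111 (hT : IsTIdeal F T) (hB : FamT T FB β) {φ ψ : FL F →ₗ[F] F}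
    (hφ : LF T 5 2 φ) (hψ : LF T 5 2 ψ)
    (h1 : EqS 5 2 φ true {1, 2, 3, 4, 5})
    (h1' : EqS 5 2 ψ true {1, 2, 3, 4, 5}) :
    Dep 5 2 φ ψ :=
  Cert.dep7 (kns := [[([], [])]]) (n := 1) ok211111 (by decide) rfl hT hφ hψ (grp211111 h1)
    (grp211111 h1') (fams1 hB _)
    ⟨_, List.mem_singleton_self _, knOK1 (x := ([], [])) ⟨by simp, by simp⟩⟩

theorem dep22111 (hT : IsTIdeal F T) (hB : FamT T FB β) {φ ψ : FL F →ₗ[F] F}
    (hφ : LF T 5 2 φ) (hψ : LF T 5 2 ψ)
    (h1 : EqS 5 2 φ true {2, 3, 4, 5})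
    (g1 : VanW 5 2 (gar φ true {2, 3, 4, 5} 1))
    (h1' : EqS 5 2 ψ true {2, 3, 4, 5})
    (g1' : VanW 5 2 (gar ψ true {2, 3, 4, 5} 1)) :
    Dep 5 2 φ ψ :=
  Cert.dep7 (kns := kn7) (n := 3) ok22111 (by decide) rfl hT hφ hψ (grp22111 h1 g1)
    (grp22111 h1' g1') (fams1 hB _) (b_kn hB)

theorem dep2221 (hT : IsTIdeal F T) (hB : FamT T FB β) {φ ψ : FL F →ₗ[F] F}
    (hφ : LF T 5 2 φ) (hψ : LF T 5 2 ψ)
    (h1 : EqS 5 2 φ true {1, 2})
    (h2 : EqS 5 2 φ true {3, 4, 5})
    (g1 : VanW 5 2 (gar φ true {3, 4, 5} 1))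
    (g2 : VanW 5 2 (gar φ true {3, 4, 5} 2))
    (h1' : EqS 5 2 ψ true {1, 2})
    (h2' : EqS 5 2 ψ true {3, 4, 5})
    (g1' : VanW 5 2 (gar ψ true {3, 4, 5} 1))
    (g2' : VanW 5 2 (gar ψ true {3, 4, 5} 2)) :
    Dep 5 2 φ ψ :=
  Cert.dep7 (kns := kn7) (n := 3) ok2221 (by decide) rfl hT hφ hψ (grp2221 h1 h2 g1 g2)
    (grp2221 h1' h2' g1' g2') (fams1 hB _) (b_kn hB)

theorem vanS31111 (hT : IsTIdeal F T) (hB : FamT T FB β) (hb1 : β 1 = 0) (hb2 : β 2 = 0)
    {φ : FL F →ₗ[F] F} (hφ : LF T 4 3 φ)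
    (h1 : EqS 4 3 φ true {1, 2, 3, 4}) :
    VanW 4 3 φ :=
  Cert.zeroS ok31111 (by decide) rfl hT hφ (grp31111 h1) rfl hB hb1 hb2

theorem vanS3211 (hT : IsTIdeal F T) (hB : FamT T FB β) (hb1 : β 1 = 0) (hb2 : β 2 = 0)
    {φ : FL F →ₗ[F] F} (hφ : LF T 4 3 φ)
    (h1 : EqS 4 3 φ true {2, 3, 4})
    (g1 : VanW 4 3 (gar φ true {2, 3, 4} 1)) :
    VanW 4 3 φ :=
  Cert.zeroS ok3211 (by decide) rfl hT hφ (grp3211 h1 g1) rfl hB hb1 hb2

theorem vanS331b (hT : IsTIdeal F T) (hB : FamT T FB β) (hb1 : β 1 = 0) (hb2 : β 2 = 0)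
    {φ : FL F →ₗ[F] F} (hφ : LF T 4 3 φ)
    (h1 : EqS 4 3 φ true {1, 2})
    (h2 : EqS 4 3 φ false {3, 4})
    (g1 : VanW 4 3 (gar φ true {1, 2} 3))
    (g2 : VanW 4 3 (gar φ true {1, 2} 4)) :
    VanW 4 3 φ :=
  Cert.zeroS ok331b (by decide) rfl hT hφ (grp331b h1 h2 g1 g2) rfl hB hb1 hb2

theorem vanS22111 (hT : IsTIdeal F T) (hB : FamT T FB β) (hb1 : β 1 = 0) (hb2 : β 2 = 0)
    {φ : FL F →ₗ[F] F} (hφ : LF T 5 2 φ)
    (h1 : EqS 5 2 φ true {2, 3, 4, 5})
    (g1 : VanW 5 2 (gar φ true {2, 3, 4, 5} 1)) :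
    VanW 5 2 φ :=
  Cert.zeroS ok22111 (by decide) rfl hT hφ (grp22111 h1 g1) rfl hB hb1 hb2

theorem vanS2221 (hT : IsTIdeal F T) (hB : FamT T FB β) (hb1 : β 1 = 0) (hb2 : β 2 = 0)
    {φ : FL F →ₗ[F] F} (hφ : LF T 5 2 φ)
    (h1 : EqS 5 2 φ true {1, 2})
    (h2 : EqS 5 2 φ true {3, 4, 5})
    (g1 : VanW 5 2 (gar φ true {3, 4, 5} 1))
    (g2 : VanW 5 2 (gar φ true {3, 4, 5} 2)) :
    VanW 5 2 φ :=
  Cert.zeroS ok2221 (by decide) rfl hT hφ (grp2221 h1 h2 g1 g2) rfl hB hb1 hb2

end

end Pool.Agent.Lib.MP_b4a71d_al.Eng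
end

section

/-!
# MP_b4a71d_al: the levels `(4, 3)` and `(5, 2)` are distributive; the point S in degree 7
-/

set_option autoImplicit false
set_option linter.unusedSectionVars false

namespace Pool.Agent.Lib.MP_b4a71d_al.Eng

universe u

noncomputable section

variable {F : Type u} [Field F] [CharZero F] {T : Submodule F (FL F)} {β : ℕ → F}

theorem van_alt (hT : IsTIdeal F T) {k d : ℕ} {L : Set (Module.End F (FL F))} (l : List ℕ)
    (hl : l.Nodup) (hlk : ∀ a ∈ l, a ∈ Finset.Icc 1 k) (hL : altL l ∈ L) {A : Finset ℕ}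
    (hA : A ⊆ Finset.Icc 1 k) (hc : l.length = A.card) :
    ∀ φ ∈ PAdm T k d L, EqS k d φ true A → VanW k d φ := by
  refine Z2.one (PAdm.stab hT k d L) (A := l.toFinset)
    (fun φ hφ h => PAdm.alt hφ hl hlk hL h) ?_ hA ?_
  · intro a ha
    exact hlk a (List.mem_toFinset.1 ha)
  · rw [List.toFinset_card_of_nodup hl, hc]

theorem van_gar (hT : IsTIdeal F T) {k d : ℕ} {L : Set (Module.End F (FL F))}
    {φ : FL F →ₗ[F] F} (hφ : φ ∈ PAdm T k d L) (l : List ℕ)
    (hl : l.Nodup) (hlk : ∀ a ∈ l, a ∈ Finset.Icc 1 k) (hL : altL l ∈ L) {A : Finset ℕ} {t : ℕ}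
    (hA : A ⊆ Finset.Icc 1 k) (ht : t ∈ Finset.Icc 1 k) (htA : t ∉ A)
    (hc : l.length = A.card + 1)
    (h : EqS k d φ true A) : VanW k d (gar φ true A t) := by
  refine van_alt hT l hl hlk hL (A := insert t A) ?_ ?_ _
    (gar_mem (PAdm.stab hT k d L) hφ true hA ht) (gar_eqS hA ht htA h)
  · exact Finset.insert_subset ht hA
  · rw [hc, Finset.card_insert_of_notMem htA]

theorem mem_of_pr {A : Finset ℕ} {l : List ℕ} (h : A = l.toFinset) {a : ℕ} (ha : a ∈ A) :
    a ∈ l := by
  rw [h] at ha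
  exact List.mem_toFinset.1 ha

/-! ### The level `(4, 3)` -/

theorem sym34 (hT : IsTIdeal F T) {L : Set (Module.End F (FL F))}
    {φ : FL F →ₗ[F] F} (hφ : φ ∈ PAdm T 4 3 L) (hL : altL [1, 2] * altL [3, 4] ∈ L)
    (h : EqS 4 3 φ true {1, 2}) : EqS 4 3 φ false {3, 4} := by
  have h3 : (3 : ℕ) ∈ Finset.Icc 1 4 := by decide
  have h4 : (4 : ℕ) ∈ Finset.Icc 1 4 := by decide
  refine eqS_pair (eqv_of_van (alt := true) ?_)
  refine PAdm.alt2 (gar_mem (PAdm.stab hT 4 3 L) hφ true
    (Finset.singleton_subset_iff.2 h3) h4) (l := [1, 2]) (l' := [3, 4]) (by decide) (by decide)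
    (by decide) (by decide) hL ?_ ?_
  · exact gar_eqS' (Finset.singleton_subset_iff.2 h3) h4 (by decide) (by decide) h
  · exact gar_single h3 h4 (by decide)

/-- the primitive elements of the level `(4, 3)` -/
def e43 : Fin 4 → Module.End F (FL F) :=
  ![altL [1, 2, 3, 4], altL [2, 3, 4], altL [1, 2] * altL [3, 4], altL [1, 2]]

theorem levelGood43 (hT : IsTIdeal F T) (hB : FamT T FB β) : LevelGood T 4 3 := by
  refine levelGood_of_functionals e43
    ![pr {1, 2, 3, 4}, pr {2, 3, 4}, pr {1, 2} ∪ pr {3, 4}, pr {1, 2}] ?_ ?_ ?_ ?_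
  · intro i
    fin_cases i
    · exact altL_mem_GA _ (by decide)
    · exact altL_mem_GA _ (by decide)
    · exact mul_mem_GA (altL_mem_GA _ (by decide)) (altL_mem_GA _ (by decide))
    · exact altL_mem_GA _ (by decide)
  · intro i
    fin_cases i
    · rintro ⟨a, b⟩ ⟨ha, hb, hab⟩ w _
      exact altL_sw [1, 2, 3, 4] (by decide) (mem_of_pr rfl ha) (mem_of_pr rfl hb) hab w
    · rintro ⟨a, b⟩ ⟨ha, hb, hab⟩ w _
      exact altL_sw [2, 3, 4] (by decide) (mem_of_pr rfl ha) (mem_of_pr rfl hb) hab w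
    · rintro ⟨a, b⟩ (⟨ha, hb, hab⟩ | ⟨ha, hb, hab⟩) w _
      · change altL [1, 2] (altL [3, 4] (ren (Equiv.swap a b) w)) =
          -altL [1, 2] (altL [3, 4] w)
        have ha' : a = 1 ∨ a = 2 := by simpa using ha
        have hb' : b = 1 ∨ b = 2 := by simpa using hb
        rw [altL_pair_sw 3 4 (by omega) (by omega) (by omega) (by omega)]
        exact altL_sw [1, 2] (by decide) (mem_of_pr rfl ha) (mem_of_pr rfl hb) hab _
      · change altL [1, 2] (altL [3, 4] (ren (Equiv.swap a b) w)) =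
          -altL [1, 2] (altL [3, 4] w)
        rw [altL_sw [3, 4] (by decide) (mem_of_pr rfl ha) (mem_of_pr rfl hb) hab, map_neg]
    · rintro ⟨a, b⟩ ⟨ha, hb, hab⟩ w _
      exact altL_sw [1, 2] (by decide) (mem_of_pr rfl ha) (mem_of_pr rfl hb) hab w
  · intro i
    fin_cases i
    · intro φ ψ hφ hψ
      exact dep31111 hT hB (PAdm.lf (adm_mem hφ)) (PAdm.lf (adm_mem hψ))
        (adm_eqS hφ (fun _ h => h)) (adm_eqS hψ (fun _ h => h))
    · intro φ ψ hφ hψ
      have key : ∀ φ : FL F →ₗ[F] F, Adm T 4 3 (pr {2, 3, 4})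
          {a | ∃ j < (1 : Fin 4), a = e43 j} φ →
          EqS 4 3 φ true {2, 3, 4} ∧ VanW 4 3 (gar φ true {2, 3, 4} 1) := by
        intro φ hφ
        have h1 := adm_eqS hφ (fun _ h => h)
        refine ⟨h1, van_gar hT (adm_mem hφ) [1, 2, 3, 4] (by decide) (by decide) ⟨0, by decide, rfl⟩
          (by decide) (by decide) (by decide) rfl h1⟩
      obtain ⟨h1, g1⟩ := key φ hφ
      obtain ⟨h1', g1'⟩ := key ψ hψ
      exact dep3211 hT hB (PAdm.lf (adm_mem hφ)) (PAdm.lf (adm_mem hψ)) h1 g1 h1' g1'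
    · intro φ ψ hφ hψ
      have key : ∀ φ : FL F →ₗ[F] F, Adm T 4 3 (pr {1, 2} ∪ pr {3, 4})
          {a | ∃ j < (2 : Fin 4), a = e43 j} φ →
          (EqS 4 3 φ true {1, 2} ∧ EqS 4 3 φ true {3, 4}) ∧
          VanW 4 3 (gar φ true {1, 2} 3) ∧ VanW 4 3 (gar φ true {1, 2} 4) := by
        intro φ hφ
        have h1 : EqS 4 3 φ true {1, 2} := adm_eqS hφ (fun _ h => Or.inl h)
        have h2 : EqS 4 3 φ true {3, 4} := adm_eqS hφ (fun _ h => Or.inr h)
        refine ⟨⟨h1, h2⟩, van_gar hT (adm_mem hφ) [2, 3, 4] (by decide) (by decide) ⟨1, by decide, rfl⟩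
          (by decide) (by decide) (by decide) rfl h1,
          van_gar hT (adm_mem hφ) [2, 3, 4] (by decide) (by decide) ⟨1, by decide, rfl⟩
          (by decide) (by decide) (by decide) rfl h1⟩
      obtain ⟨⟨h1, h2⟩, g1, g2⟩ := key φ hφ
      obtain ⟨⟨h1', h2'⟩, g1', g2'⟩ := key ψ hψ
      exact dep322 hT hB (PAdm.lf (adm_mem hφ)) (PAdm.lf (adm_mem hψ)) h1 h2 g1 g2 h1' h2' g1' g2'
    · intro φ ψ hφ hψ
      have key : ∀ φ : FL F →ₗ[F] F, Adm T 4 3 (pr {1, 2})
          {a | ∃ j < (3 : Fin 4), a = e43 j} φ →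
          (EqS 4 3 φ true {1, 2} ∧ EqS 4 3 φ false {3, 4}) ∧
          VanW 4 3 (gar φ true {1, 2} 3) ∧ VanW 4 3 (gar φ true {1, 2} 4) := by
        intro φ hφ
        have h1 : EqS 4 3 φ true {1, 2} := adm_eqS hφ (fun _ h => h)
        refine ⟨⟨h1, sym34 hT (adm_mem hφ) ⟨2, by decide, rfl⟩ h1⟩,
          van_gar hT (adm_mem hφ) [2, 3, 4] (by decide) (by decide) ⟨1, by decide, rfl⟩
          (by decide) (by decide) (by decide) rfl h1,
          van_gar hT (adm_mem hφ) [2, 3, 4] (by decide) (by decide) ⟨1, by decide, rfl⟩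
          (by decide) (by decide) (by decide) rfl h1⟩
      obtain ⟨⟨h1, h2⟩, g1, g2⟩ := key φ hφ
      obtain ⟨⟨h1', h2'⟩, g1', g2'⟩ := key ψ hψ
      exact dep331b hT hB (PAdm.lf (adm_mem hφ)) (PAdm.lf (adm_mem hψ)) h1 h2 g1 g2 h1' h2' g1' g2'
  · intro φ hφ
    refine chain43 (P := PAdm T 4 3 (Set.range e43)) (PAdm.stab hT 4 3 _) (fun φ hφ h => PAdm.sym hφ (by decide) (by decide) h)
      (fun φ hφ h => PAdm.alt hφ (l := [1, 2]) (by decide) (by decide) ⟨3, rfl⟩ h) φ hφ

/-! ### The level `(5, 2)` -/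

/-- the primitive elements of the level `(5, 2)` -/
def e52 : Fin 3 → Module.End F (FL F) :=
  ![altL [1, 2, 3, 4, 5], altL [2, 3, 4, 5], altL [3, 4, 5] * altL [1, 2]]

theorem levelGood52 (hT : IsTIdeal F T) (hB : FamT T FB β) : LevelGood T 5 2 := by
  refine levelGood_of_functionals e52
    ![pr {1, 2, 3, 4, 5}, pr {2, 3, 4, 5}, pr {3, 4, 5} ∪ pr {1, 2}] ?_ ?_ ?_ ?_
  · intro i
    fin_cases i
    · exact altL_mem_GA _ (by decide)
    · exact altL_mem_GA _ (by decide)
    · exact mul_mem_GA (altL_mem_GA _ (by decide)) (altL_mem_GA _ (by decide))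
  · intro i
    fin_cases i
    · rintro ⟨a, b⟩ ⟨ha, hb, hab⟩ w _
      exact altL_sw [1, 2, 3, 4, 5] (by decide) (mem_of_pr rfl ha) (mem_of_pr rfl hb) hab w
    · rintro ⟨a, b⟩ ⟨ha, hb, hab⟩ w _
      exact altL_sw [2, 3, 4, 5] (by decide) (mem_of_pr rfl ha) (mem_of_pr rfl hb) hab w
    · rintro ⟨a, b⟩ (⟨ha, hb, hab⟩ | ⟨ha, hb, hab⟩) w _
      · change altL [3, 4, 5] (altL [1, 2] (ren (Equiv.swap a b) w)) =
          -altL [3, 4, 5] (altL [1, 2] w)
        have ha' : a = 3 ∨ a = 4 ∨ a = 5 := by simpa using ha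
        have hb' : b = 3 ∨ b = 4 ∨ b = 5 := by simpa using hb
        rw [altL_pair_sw 1 2 (by omega) (by omega) (by omega) (by omega)]
        exact altL_sw [3, 4, 5] (by decide) (mem_of_pr rfl ha) (mem_of_pr rfl hb) hab _
      · change altL [3, 4, 5] (altL [1, 2] (ren (Equiv.swap a b) w)) =
          -altL [3, 4, 5] (altL [1, 2] w)
        rw [altL_sw [1, 2] (by decide) (mem_of_pr rfl ha) (mem_of_pr rfl hb) hab, map_neg]
  · intro i
    fin_cases i
    · intro φ ψ hφ hψ
      exact dep211111 hT hB (PAdm.lf (adm_mem hφ)) (PAdm.lf (adm_mem hψ))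
        (adm_eqS hφ (fun _ h => h)) (adm_eqS hψ (fun _ h => h))
    · intro φ ψ hφ hψ
      have key : ∀ φ : FL F →ₗ[F] F, Adm T 5 2 (pr {2, 3, 4, 5})
          {a | ∃ j < (1 : Fin 3), a = e52 j} φ →
          EqS 5 2 φ true {2, 3, 4, 5} ∧ VanW 5 2 (gar φ true {2, 3, 4, 5} 1) := by
        intro φ hφ
        have h1 := adm_eqS hφ (fun _ h => h)
        refine ⟨h1, van_gar hT (adm_mem hφ) [1, 2, 3, 4, 5] (by decide) (by decide) ⟨0, by decide, rfl⟩
          (by decide) (by decide) (by decide) rfl h1⟩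
      obtain ⟨h1, g1⟩ := key φ hφ
      obtain ⟨h1', g1'⟩ := key ψ hψ
      exact dep22111 hT hB (PAdm.lf (adm_mem hφ)) (PAdm.lf (adm_mem hψ)) h1 g1 h1' g1'
    · intro φ ψ hφ hψ
      have key : ∀ φ : FL F →ₗ[F] F, Adm T 5 2 (pr {3, 4, 5} ∪ pr {1, 2})
          {a | ∃ j < (2 : Fin 3), a = e52 j} φ →
          (EqS 5 2 φ true {1, 2} ∧ EqS 5 2 φ true {3, 4, 5}) ∧
          VanW 5 2 (gar φ true {3, 4, 5} 1) ∧ VanW 5 2 (gar φ true {3, 4, 5} 2) := by
        intro φ hφ
        have h1 : EqS 5 2 φ true {1, 2} := adm_eqS hφ (fun _ h => Or.inr h)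
        have h2 : EqS 5 2 φ true {3, 4, 5} := adm_eqS hφ (fun _ h => Or.inl h)
        refine ⟨⟨h1, h2⟩, van_gar hT (adm_mem hφ) [2, 3, 4, 5] (by decide) (by decide) ⟨1, by decide, rfl⟩
          (by decide) (by decide) (by decide) rfl h2,
          van_gar hT (adm_mem hφ) [2, 3, 4, 5] (by decide) (by decide) ⟨1, by decide, rfl⟩
          (by decide) (by decide) (by decide) rfl h2⟩
      obtain ⟨⟨h1, h2⟩, g1, g2⟩ := key φ hφ
      obtain ⟨⟨h1', h2'⟩, g1', g2'⟩ := key ψ hψ
      exact dep2221 hT hB (PAdm.lf (adm_mem hφ)) (PAdm.lf (adm_mem hψ)) h1 h2 g1 g2 h1' h2' g1' g2'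
  · intro φ hφ
    refine chain52 (P := PAdm T 5 2 (Set.range e52)) (PAdm.stab hT 5 2 _) (fun φ hφ h => PAdm.sym hφ (by decide) (by decide) h)
      (fun φ hφ h => PAdm.alt hφ (l := [1, 2, 3, 4, 5]) (by decide) (by decide) ⟨0, rfl⟩ h)
      (fun φ hφ h => PAdm.alt hφ (l := [2, 3, 4, 5]) (by decide) (by decide) ⟨1, rfl⟩ h)
      (fun φ hφ h h' => PAdm.alt2 hφ (l := [3, 4, 5]) (l' := [1, 2]) (by decide) (by decide)
        (by decide) (by decide) ⟨2, rfl⟩ h h') φ hφ

end

end Pool.Agent.Lib.MP_b4a71d_al.Eng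
end

section

/-!
# The point H: odd levels, even levels with `d ≥ 3`
-/

set_option autoImplicit false

namespace Pool.Agent.Lib.MP_b4a71d_al

universe u

noncomputable section

variable {F : Type u} [Field F]

private theorem icc_val (m : ℕ) : (Finset.Icc 1 (m + 1)).val =
    ((1 :: List.range' 2 m : List ℕ) : Multiset ℕ) := by
  change ((List.range' 1 (m + 1 + 1 - 1) : List ℕ) : Multiset ℕ) = _
  rw [Nat.add_sub_cancel, List.range'_succ]

private theorem mem_icc_two {m i : ℕ} (hi : i ∈ Finset.Icc 2 (m + 1)) : i ∈ List.range' 2 m := by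
  rw [Finset.mem_Icc] at hi
  rw [List.mem_range'_1]
  omega

private theorem Sk_zero {k : ℕ} {σ : Equiv.Perm ℕ} (hσ : σ ∈ Sk k) : σ 0 = 0 :=
  hσ 0 (zero_notMem_Icc k)

/-- Odd `k`, `w = y_1 x^d C([2, ..., k])`.  Lemma C: `SE` is zero because of parity. -/
theorem HT.level_odd [CharZero F] {T : Submodule F (FL F)} (h : HT T) {k d : ℕ} (hk : Odd k)
    (hd : 2 ≤ d) : LevelGood T k d := by
  obtain ⟨m, rfl⟩ : ∃ m, k = m + 1 := by
    obtain ⟨r, hr⟩ := hk
    exact ⟨2 * r, hr⟩
  have hm : Even m := by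
    rw [Nat.odd_add_one, Nat.not_odd_iff_even] at hk
    exact hk
  obtain ⟨s, rfl⟩ : ∃ s, d = s + 1 := ⟨d - 1, by omega⟩
  obtain ⟨r, rfl⟩ : ∃ r, s = r + 1 := ⟨s - 1, by omega⟩
  have hlen : (List.range' 2 m).length = m := List.length_range'
  have hl : Even (List.range' 2 m).length := by rw [hlen]; exact hm
  have hG : yx (F := F) 1 (r + 1 + 1) ∈ G3 F := yx_G3 1 r
  have h0Y : 0 ∉ Finset.Icc 1 (m + 1) := zero_notMem_Icc (m + 1)
  refine levelGood_of_orbit h.isT (by omega)
    (w := Cl (List.range' 2 m) (yx (F := F) 1 (r + 1 + 1))) ?_ ?_ ?_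
  · refine Cl_WW (Y := {1}) hl ?_ (yx_mem 1 _)
    rw [icc_val, Finset.singleton_val]
    rw [← Multiset.cons_coe, ← Multiset.singleton_add, add_comm]
  · intro i hi j hj hij
    have hi' := mem_icc_two hi
    have hj' := mem_icc_two hj
    have hi2 : 2 ≤ i := (Finset.mem_Icc.1 hi).1
    have hj2 : 2 ≤ j := (Finset.mem_Icc.1 hj).1
    refine Submodule.mem_sup_right ?_
    rw [ren_Cl, ren_yx _ (Equiv.swap_apply_of_ne_of_ne (by omega) (by omega)),
      Equiv.swap_apply_of_ne_of_ne (by omega) (by omega)]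
    exact h.Cl_swap hG hl List.nodup_range' hi' hj' hij
  · refine (h.lemC h0Y ⟨1, by simp⟩ (r + 1)).trans ?_
    refine sup_le (sup_le ?_ ?_) ?_
    · exact le_sup_left
    · refine le_sup_of_le_right ?_
      rw [SO, Submodule.span_le]
      rintro _ ⟨i, l, hil, _, rfl⟩
      obtain ⟨σ, hσ, hmap⟩ := exists_perm_list (k := m + 1) (l := i :: l)
        (l0 := 1 :: List.range' 2 m) (icc_val m).symm hil
      rw [List.map_cons, List.cons.injEq] at hmap
      refine Submodule.subset_span ⟨σ, hσ, ?_⟩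
      rw [ren_Cl, ren_yx σ (Sk_zero hσ), hmap.1, hmap.2]
    · rw [SE, Submodule.span_le]
      rintro _ ⟨i, j, l, hil, hle, rfl⟩
      exfalso
      have h1 := congrArg Multiset.card hil
      rw [Multiset.coe_card, Finset.card_val, Nat.card_Icc, List.length_cons,
        List.length_cons] at h1
      obtain ⟨a, ha⟩ := hle
      obtain ⟨b, hb⟩ := hm
      omega

/-- Even `k`, `d = s + 3`, `w = y_1 x^(s+2) C(2,x) C([3, ..., k])
= Cl (2 :: 0 :: [3, ..., k]) (yx 1 (s+2))`. -/
theorem HT.level_even [CharZero F] {T : Submodule F (FL F)} (h : HT T) {k s : ℕ} (hk : Even k)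
    (hk2 : 2 ≤ k) : LevelGood T k (s + 3) := by
  obtain ⟨m, rfl⟩ : ∃ m, k = m + 1 + 1 := ⟨k - 2, by omega⟩
  have hm : Even m := by
    obtain ⟨r, hr⟩ := hk
    exact ⟨r - 1, by omega⟩
  have hlen : (List.range' 3 m).length = m := List.length_range'
  have hl : Even (List.range' 3 m).length := by rw [hlen]; exact hm
  have hG : yx (F := F) 1 (s + 2) ∈ G3 F := yx_G3 1 s
  have h0Y : 0 ∉ Finset.Icc 1 (m + 1 + 1) := zero_notMem_Icc (m + 1 + 1)
  have hval : (Finset.Icc 1 (m + 1 + 1)).val =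
      ((1 :: 2 :: List.range' 3 m : List ℕ) : Multiset ℕ) := by
    rw [icc_val, List.range'_succ]
  have hCl : ∀ (i j : ℕ) (l : List ℕ), Cl l (g2 F i j (s + 2)) =
      Cl (j :: 0 :: l) (yx (F := F) i (s + 2)) := fun i j l => rfl
  have hren : ∀ (σ : Equiv.Perm ℕ), σ 0 = 0 → ∀ (i j : ℕ) (l : List ℕ),
      ren σ (Cl l (g2 F i j (s + 2))) = Cl (l.map σ) (g2 F (σ i) (σ j) (s + 2)) := by
    intro σ hσ i j l
    rw [hCl, hCl, ren_Cl, ren_yx σ hσ, List.map_cons, List.map_cons, hσ]
  refine levelGood_of_orbit h.isT (by omega)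
    (w := Cl (List.range' 3 m) (g2 F 1 2 (s + 2))) ?_ ?_ ?_
  · refine Cl_WW (Y := {1, 2}) hl ?_ ?_
    · rw [hval]
      have h1 : ({1, 2} : Finset ℕ).val = ((1 :: 2 :: [] : List ℕ) : Multiset ℕ) := rfl
      rw [h1, Multiset.coe_add]
      refine Multiset.coe_eq_coe.2 ?_
      exact (List.perm_append_comm (l₁ := List.range' 3 m) (l₂ := [1, 2]))
    · have h2 : ⁅X F 2, X F 0⁆ ∈ HomC (F := F) ({2} + {0}) := lie_mem_homC (X_mem 2) (X_mem 0)
      have h3 : g2 F 1 2 (s + 2) ∈ HomC (F := F) (cont {1} (s + 2) + ({2} + {0})) :=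
        lie_mem_homC (yx_mem 1 (s + 2)) h2
      have h4 : cont {1} (s + 2) + ({2} + {0}) = cont ({1, 2} : Finset ℕ) (s + 3) := by
        have h5 : cont {1} (s + 2) + {2} = cont (insert 2 {1}) (s + 2) :=
          cont_add_new (by simp) (s + 2)
        rw [← add_assoc, h5, cont_add_zero, Finset.pair_comm]
      rw [h4] at h3
      exact h3
  · intro i hi j hj hij
    have hi2 : 2 ≤ i := (Finset.mem_Icc.1 hi).1
    have hj2 : 2 ≤ j := (Finset.mem_Icc.1 hj).1
    have hmem : ∀ {i : ℕ}, i ∈ Finset.Icc 2 (m + 1 + 1) → i ∈ 2 :: 0 :: List.range' 3 m := by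
      intro i hi
      rw [Finset.mem_Icc] at hi
      rw [List.mem_cons, List.mem_cons, List.mem_range'_1]
      omega
    refine Submodule.mem_sup_right ?_
    have hnd : (2 :: 0 :: List.range' 3 m).Nodup := by
      rw [List.nodup_cons, List.nodup_cons, List.mem_cons, List.mem_range'_1, List.mem_range'_1]
      refine ⟨by omega, by omega, List.nodup_range'⟩
    have hev : Even (2 :: 0 :: List.range' 3 m).length := by
      rw [List.length_cons, List.length_cons, hlen]
      obtain ⟨b, hb⟩ := hm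
      exact ⟨b + 1, by omega⟩
    have h1 := h.Cl_swap hG hev hnd (hmem hi) (hmem hj) hij
    rw [hCl, ren_Cl, ren_yx _ (Equiv.swap_apply_of_ne_of_ne (by omega) (by omega)),
      Equiv.swap_apply_of_ne_of_ne (by omega) (by omega)]
    exact h1
  · refine (h.lemC h0Y ⟨1, by simp⟩ (s + 2)).trans ?_
    refine sup_le (sup_le ?_ ?_) ?_
    · exact le_sup_left
    · rw [SO, Submodule.span_le]
      rintro _ ⟨i, l, hil, hle, rfl⟩
      exfalso
      have h1 := congrArg Multiset.card hil
      rw [Multiset.coe_card, Finset.card_val, Nat.card_Icc, List.length_cons] at h1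
      obtain ⟨a, ha⟩ := hle
      obtain ⟨b, hb⟩ := hm
      omega
    · refine le_sup_of_le_right ?_
      rw [SE, Submodule.span_le]
      rintro _ ⟨i, j, l, hil, _, rfl⟩
      obtain ⟨σ, hσ, hmap⟩ := exists_perm_list (k := m + 1 + 1) (l := i :: j :: l)
        (l0 := 1 :: 2 :: List.range' 3 m) hval.symm hil
      rw [List.map_cons, List.map_cons, List.cons.injEq, List.cons.injEq] at hmap
      refine Submodule.subset_span ⟨σ, hσ, ?_⟩
      rw [hren σ (Sk_zero hσ), hmap.1, hmap.2.1, hmap.2.2]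

end

end Pool.Agent.Lib.MP_b4a71d_al
end
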