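import Pool.Agent.Lib.MP_b4a71d_al.PartTwo

/-!
# The main theorem from the core statement about levels
-/

set_option autoImplicit false

namespace Pool.Agent.Lib.MP_b4a71d_al

universe u

/-- The core statement: levels of degree at most six decide. -/
def Core (F : Type u) [Field F] : Prop :=
  ∀ T : Submodule F (FL F), IsTIdeal F T → (∀ k d, k + d ≤ 6 → LevelGood T k d) →
    ∀ k d, LevelGood T k d

theorem main_of_core (F : Type u) [Field F] [CharZero F] (core : Core F) :
    (∀ V : Set (LieAlg F), IsVariety F V → IsDistributive F V →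
      IsDistributive F (degPart F 6 V)) ∧
    (∀ N : ℕ, ∃ V : Set (LieAlg F), IsVariety F V ∧ IsDistributive F V ∧ V ≠ degPart F N V) := by
  refine ⟨fun V hV h => ?_, part_two⟩
  rw [isDistributive_iff (isVariety_degPart 6 V), idl_degPart]
  exact distT_T6_of_core core (idl_isTIdeal V) ((isDistributive_iff hV).1 h)

end Pool.Agent.Lib.MP_b4a71d_al
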